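import Pool.Agent.FKR.Basic

/-! # FKR/ADual (MP_b3e76a_pr): abstract duality of random-cluster measures

`A` is a finite set of (primal) edges, `R` frozen primal edges, `σ` maps primal to dual edges, `R'` are
frozen dual edges. The dual of `ω ⊆ A` is `(A \ ω).image σ` (together with `R'`).
`h1`: if the ends of the dual of `e ∉ ω` are not connected in the dual of `insert e ω`, then the
ends of `e` are connected in `ω`. `euler`: Euler's formula, a numerical identity between the numbers of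
clusters of the four extreme configurations.

Theorem `weight`: `W q V (ω ∪ R) = K * W q V' ((A \ ω).image σ ∪ R')` with a constant `K > 0`.
Proof. For `e ∈ A \ ω` put `r e ω = 1` if the ends of `e` are connected in `ω ∪ R`, else `0`, and
`r' e ω = 1` if the ends of `σ e` are connected in `((A \ ω).erase e).image σ ∪ R'`, else `0`. By `h1`,
`r + r' ≥ 1`. Adding `e` to `ω` lowers the number of primal clusters by `1 - r` and removes `σ e` from
the dual configuration, which raises the number of dual clusters by `1 - r'`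
(`clusters_insert_of_reach`, `clusters_insert_of_not_reach`). Along any increasing chain
`∅ = ω_0 ⊂ ... ⊂ ω_n = A`, `n = #A`, adding up:
`(cl V R - cl V (A ∪ R)) + (cl V' (A.image σ ∪ R') - ...)`; `euler` says that the sum over the steps of
`(1 - r) + (1 - r')` is `#A = n`, and each term is `≤ 1`, so each term is `= 1`: exactly one of
`r`, `r'` is `1`, for all `(ω, e)` (every pair lies on a chain). Hence
`W q V (insert e ω ∪ R) / W q V (ω ∪ R)` (`√q` if `r = 1`, `1/√q` if `r = 0`) equals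
`W q V' (dual of insert e ω) / W q V' (dual of ω)` (`1/√q` if `r' = 1`, `√q` if `r' = 0`). Induction on `ω`.
Cleaner: define `g ω = cl V (ω ∪ R) + cl V (A ∪ R)...`; prove by induction on `ω`
`cl V R + cl V' ((A \ ω).image σ ∪ R') ≤ cl V (ω ∪ R) + cl V' (A.image σ ∪ R') + #ω`, the analogous
inequality from `ω` up to `A`, add them, and use `euler` to get equality
`cl V (ω ∪ R) = cl V R + (cl V' ((A \ ω).image σ ∪ R') - cl V' (A.image σ ∪ R')) - #ω`
(an identity in `ℤ`). Then the weights: `W = (√q) ^ (#ω' ) * q ^ cl` with `#(ω ∪ R) = #ω + #R`,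
`#((A \ ω).image σ ∪ R') = #A - #ω + #R'`, and `q = √q ^ 2`.
[Check of signs: adding `e`: primal clusters change by `-(1 - r)`, dual clusters by `+(1 - r')`, so with
`r + r' ≥ 1`: `cl V (ω ∪ R) - cl V' (dual ω) ` changes by `-(2 - r - r') ≥ -1`.]

Theorem `adual`: the measure with active edges `E` and frozen edges `F ∪ R` (the remaining edges
`A \ (E ∪ F)` closed) is mapped by duality to the measure with active edges `E.image σ` and frozen
edges `(A \ (E ∪ F)).image σ ∪ R'`. Follows from `weight`, `P_eq_V` and the bijection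
`ζ ↦ (E \ ζ).image σ` between subsets of `E` and subsets of `E.image σ`. -/

namespace Pool.Agent.FKR

open Finset
open Pool.Agent.H95.Wedge (openGraph W Good selfDual clusters)
open Pool.Agent.H95.Susc (fil ws Lat)

section
variable {α β : Type*} [DecidableEq α] [DecidableEq β]

/-- data for duality -/
structure DualPair (V : Finset α) (A R : Finset (Sym2 α)) (V' : Finset β) (R' : Finset (Sym2 β))
    (σ : Sym2 α → Sym2 β) : Prop where
  nl : NL (A ∪ R)
  nl' : NL (A.image σ ∪ R')
  hV : vts (A ∪ R) ⊆ V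
  hV' : vts (A.image σ ∪ R') ⊆ V'
  dis : Disjoint A R
  dis' : Disjoint (A.image σ) R'
  inj : Set.InjOn σ (A : Set (Sym2 α))
  h1 : ∀ ω ⊆ A, ∀ x y, s(x, y) ∈ A → s(x, y) ∉ ω → ∀ f g, σ s(x, y) = s(f, g) →
    ¬ Cn (((A \ ω).erase s(x, y)).image σ ∪ R') f g → Cn (ω ∪ R) x y
  euler : clusters V R + clusters V' R' = clusters V (A ∪ R) + clusters V' (A.image σ ∪ R') + #A

variable {q : ℝ} {V : Finset α} {A R : Finset (Sym2 α)} {V' : Finset β} {R' : Finset (Sym2 β)}
  {σ : Sym2 α → Sym2 β}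

omit [DecidableEq α] in
private lemma NL.ne {E : Finset (Sym2 α)} (h : NL E) {x y : α} (he : s(x, y) ∈ E) : x ≠ y :=
  fun hxy => h _ he (Sym2.mk_isDiag_iff.2 hxy)

/-- the dual of `ω` is the dual of `insert e ω` plus one edge -/
private lemma dual_insert {ω : Finset (Sym2 α)} {e : Sym2 α} (he : e ∈ A) (he' : e ∉ ω) :
    (A \ ω).image σ ∪ R' = insert (σ e) (((A \ ω).erase e).image σ ∪ R') := by
  rw [← insert_union, ← image_insert, insert_erase (mem_sdiff.2 ⟨he, he'⟩)]

private lemma sdiff_insert_erase {ω : Finset (Sym2 α)} {e : Sym2 α} :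
    A \ insert e ω = (A \ ω).erase e := by
  ext z
  simp only [mem_sdiff, mem_insert, mem_erase]
  tauto

private lemma DualPair.not_mem (h : DualPair V A R V' R' σ) {ω : Finset (Sym2 α)}
    {e : Sym2 α} (he : e ∈ A) (he' : e ∉ ω) : e ∉ ω ∪ R := by
  rw [mem_union, not_or]
  exact ⟨he', fun hR => (Finset.disjoint_left.1 h.dis) he hR⟩

private lemma DualPair.not_mem' (h : DualPair V A R V' R' σ) {ω : Finset (Sym2 α)}
    {e : Sym2 α} (he : e ∈ A) : σ e ∉ ((A \ ω).erase e).image σ ∪ R' := by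
  rw [mem_union, not_or]
  refine ⟨?_, fun hR => (Finset.disjoint_left.1 h.dis') (mem_image_of_mem σ he) hR⟩
  rw [mem_image]
  rintro ⟨e', he', hs⟩
  rw [mem_erase, mem_sdiff] at he'
  exact he'.1 (h.inj he'.2.1 he hs)

private lemma DualPair.ends (h : DualPair V A R V' R' σ) {x y : α} (he : s(x, y) ∈ A) :
    x ≠ y ∧ x ∈ V ∧ y ∈ V :=
  ⟨NL.ne h.nl (mem_union_left _ he),
    h.hV (mem_vts.2 ⟨_, mem_union_left _ he, Sym2.mem_mk_left x y⟩),
    h.hV (mem_vts.2 ⟨_, mem_union_left _ he, Sym2.mem_mk_right x y⟩)⟩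

private lemma DualPair.ends' (h : DualPair V A R V' R' σ) {x y : α} (he : s(x, y) ∈ A) {f g : β}
    (hfg : σ s(x, y) = s(f, g)) : f ≠ g ∧ f ∈ V' ∧ g ∈ V' := by
  have h1 : s(f, g) ∈ A.image σ ∪ R' := by
    rw [← hfg]
    exact mem_union_left _ (mem_image_of_mem σ he)
  exact ⟨NL.ne h.nl' h1, h.hV' (mem_vts.2 ⟨_, h1, Sym2.mem_mk_left f g⟩),
    h.hV' (mem_vts.2 ⟨_, h1, Sym2.mem_mk_right f g⟩)⟩

/-- one step, inequality -/
private lemma DualPair.step (h : DualPair V A R V' R' σ) {ω : Finset (Sym2 α)} (hω : ω ⊆ A)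
    {e : Sym2 α} (he : e ∈ A) (he' : e ∉ ω) :
    clusters V (ω ∪ R) + clusters V' ((A \ insert e ω).image σ ∪ R') ≤
      clusters V (insert e ω ∪ R) + clusters V' ((A \ ω).image σ ∪ R') + 1 := by
  induction e with
  | _ x y =>
    obtain ⟨f, g, hfg⟩ : ∃ f g, σ s(x, y) = s(f, g) := by
      induction hz : σ s(x, y) with
      | _ f g => exact ⟨f, g, rfl⟩
    obtain ⟨hxy, hx, hy⟩ := h.ends he
    obtain ⟨hfg', hf, hg⟩ := h.ends' he hfg
    rw [dual_insert (R' := R') he he', sdiff_insert_erase, insert_union, hfg]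
    by_cases hr : Cn (ω ∪ R) x y
    · rw [Pool.Agent.H95.Wedge.clusters_insert_of_reach hxy hr]
      by_cases hr' : Cn (((A \ ω).erase s(x, y)).image σ ∪ R') f g
      · rw [Pool.Agent.H95.Wedge.clusters_insert_of_reach hfg' hr']
        omega
      · have := Pool.Agent.H95.Wedge.clusters_insert_of_not_reach hfg' hf hg hr'
        omega
    · have h1 := Pool.Agent.H95.Wedge.clusters_insert_of_not_reach hxy hx hy hr
      have hr' : Cn (((A \ ω).erase s(x, y)).image σ ∪ R') f g := by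
        by_contra hcon
        exact hr (h.h1 ω hω x y he he' f g hfg hcon)
      rw [Pool.Agent.H95.Wedge.clusters_insert_of_reach hfg' hr']
      omega

private lemma DualPair.chain (h : DualPair V A R V' R' σ) {ω : Finset (Sym2 α)}
    (D : Finset (Sym2 α)) (hD : Disjoint ω D) (hA : ω ∪ D ⊆ A) :
    clusters V (ω ∪ R) + clusters V' ((A \ (ω ∪ D)).image σ ∪ R') ≤
      clusters V (ω ∪ D ∪ R) + clusters V' ((A \ ω).image σ ∪ R') + #D := by
  induction D using Finset.induction_on with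
  | empty => simp
  | insert e D he ih =>
    rw [disjoint_insert_right] at hD
    have hA' : ω ∪ D ⊆ A := (union_subset_union_right (subset_insert _ _)).trans hA
    have ih' := ih hD.2 hA'
    have heA : e ∈ A := hA (mem_union_right _ (mem_insert_self _ _))
    have he' : e ∉ ω ∪ D := by
      rw [mem_union, not_or]; exact ⟨hD.1, he⟩
    have h2 := h.step hA' heA he'
    rw [union_insert, card_insert_of_notMem he]
    omega

private lemma DualPair.exact (h : DualPair V A R V' R' σ) {ω : Finset (Sym2 α)} (hω : ω ⊆ A) :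
    clusters V R + clusters V' ((A \ ω).image σ ∪ R') =
      clusters V (ω ∪ R) + clusters V' (A.image σ ∪ R') + #ω := by
  have h1 := h.chain (ω := ∅) ω (disjoint_empty_left _) (by rwa [empty_union])
  have h2 := h.chain (ω := ω) (A \ ω) disjoint_sdiff (by rw [union_sdiff_of_subset hω])
  rw [union_sdiff_of_subset hω, Finset.sdiff_self, image_empty, empty_union] at h2
  rw [empty_union, empty_union, sdiff_empty] at h1
  have h3 := h.euler
  have h4 := card_sdiff_add_card_eq_card hω
  omega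

/-- exclusivity, the converse of `h1` -/
theorem DualPair.h2 (h : DualPair V A R V' R' σ) {ω : Finset (Sym2 α)} (hω : ω ⊆ A) {x y : α}
    (he : s(x, y) ∈ A) (he' : s(x, y) ∉ ω) {f g : β} (hfg : σ s(x, y) = s(f, g))
    (hc : Cn (ω ∪ R) x y) : ¬ Cn (((A \ ω).erase s(x, y)).image σ ∪ R') f g := by
  intro hc'
  obtain ⟨hxy, hx, hy⟩ := h.ends he
  obtain ⟨hfg', hf, hg⟩ := h.ends' he hfg
  have h1 := h.exact hω
  have h3 := h.exact (insert_subset he hω)
  rw [dual_insert (R' := R') he he', hfg, Pool.Agent.H95.Wedge.clusters_insert_of_reach hfg' hc'] at h1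
  rw [sdiff_insert_erase, insert_union, Pool.Agent.H95.Wedge.clusters_insert_of_reach hxy hc,
    card_insert_of_notMem he'] at h3
  omega

theorem DualPair.weight (hq : 0 < q) (h : DualPair V A R V' R' σ) :
    ∃ K : ℝ, 0 < K ∧ ∀ ω ⊆ A, W q V (ω ∪ R) = K * W q V' ((A \ ω).image σ ∪ R') := by
  have p1 := Pool.Agent.H95.Wedge.W_pos hq V R
  have p2 := Pool.Agent.H95.Wedge.W_pos hq V' (A.image σ ∪ R')
  refine ⟨W q V R / W q V' (A.image σ ∪ R'), div_pos p1 p2, ?_⟩
  intro ω hω
  induction ω using Finset.induction_on with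
  | empty =>
    rw [empty_union, sdiff_empty, div_mul_cancel₀ _ p2.ne']
  | insert e ω he' ih =>
    have hω' : ω ⊆ A := (subset_insert _ _).trans hω
    have ih' := ih hω'
    have he : e ∈ A := hω (mem_insert_self _ _)
    have hs : 0 < √q := Real.sqrt_pos.mpr hq
    induction e with
    | _ x y =>
      obtain ⟨f, g, hfg⟩ : ∃ f g, σ s(x, y) = s(f, g) := by
        induction hz : σ s(x, y) with
        | _ f g => exact ⟨f, g, rfl⟩
      obtain ⟨hxy, hx, hy⟩ := h.ends he
      obtain ⟨hfg', hf, hg⟩ := h.ends' he hfg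
      have hn := h.not_mem he he'
      have hn' := h.not_mem' (ω := ω) he
      rw [dual_insert (R' := R') he he'] at ih'
      rw [sdiff_insert_erase, insert_union]
      rw [hfg] at hn' ih'
      by_cases hr : Cn (ω ∪ R) x y
      · have hr' := h.h2 hω' he he' hfg hr
        have e2 := Pool.Agent.H95.Wedge.W_insert_of_not_reach (V := V') hq hfg' hf hg hn' hr'
        rw [Pool.Agent.H95.Wedge.W_insert_of_reach (V := V) hq hxy hn hr, ih', e2]
        ring
      · have hr' : Cn (((A \ ω).erase s(x, y)).image σ ∪ R') f g := by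
          by_contra hcon
          exact hr (h.h1 ω hω' x y he he' f g hfg hcon)
        have e1 := Pool.Agent.H95.Wedge.W_insert_of_not_reach (V := V) hq hxy hx hy hn hr
        rw [Pool.Agent.H95.Wedge.W_insert_of_reach (V := V') hq hfg' hn' hr', e1] at ih'
        apply mul_left_cancel₀ hs.ne'
        rw [ih']
        ring

/-- taking complements and images -/
private lemma ws_compl {E : Finset (Sym2 α)} (hinj : Set.InjOn σ (E : Set (Sym2 α)))
    (w : Finset (Sym2 β) → ℝ) (B : Finset (Sym2 β) → Prop) :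
    ws (fun ζ => w ((E \ ζ).image σ)) E (fun ζ => B ((E \ ζ).image σ)) = ws w (E.image σ) B := by
  classical
  unfold ws
  refine sum_bij (fun ζ _ => (E \ ζ).image σ) ?_ ?_ ?_ ?_
  · intro ζ hζ
    rw [Pool.Agent.H95.Susc.mem_fil] at hζ ⊢
    exact ⟨image_subset_image sdiff_subset, hζ.2⟩
  · intro ζ hζ ζ' hζ' heq
    rw [Pool.Agent.H95.Susc.mem_fil] at hζ hζ'
    have key : ∀ {a b : Finset (Sym2 α)}, a ⊆ E → b ⊆ E → (E \ a).image σ = (E \ b).image σ →
        b ⊆ a := by
      intro a b _ hb hab z hz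
      by_contra hza
      have h1 : σ z ∈ (E \ b).image σ := by
        rw [← hab]
        exact mem_image_of_mem σ (mem_sdiff.2 ⟨hb hz, hza⟩)
      rw [mem_image] at h1
      obtain ⟨z', hz', hs⟩ := h1
      rw [mem_sdiff] at hz'
      obtain rfl := hinj hz'.1 (hb hz) hs
      exact hz'.2 hz
    exact Subset.antisymm (key hζ'.1 hζ.1 heq.symm) (key hζ.1 hζ'.1 heq)
  · intro ξ hξ
    rw [Pool.Agent.H95.Susc.mem_fil] at hξ
    have h1 : (E \ (E.filter fun z => σ z ∉ ξ)).image σ = ξ := by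
      ext z
      rw [mem_image]
      constructor
      · rintro ⟨z', hz', rfl⟩
        rw [mem_sdiff, mem_filter] at hz'
        by_contra hcon
        exact hz'.2 ⟨hz'.1, hcon⟩
      · intro hz
        obtain ⟨z', hz', rfl⟩ := mem_image.1 (hξ.1 hz)
        refine ⟨z', mem_sdiff.2 ⟨hz', ?_⟩, rfl⟩
        rw [mem_filter]
        exact fun h => h.2 hz
    refine ⟨E.filter fun z => σ z ∉ ξ, ?_, h1⟩
    rw [Pool.Agent.H95.Susc.mem_fil]
    refine ⟨filter_subset _ _, ?_⟩
    rw [h1]
    exact hξ.2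
  · intro ζ _
    rfl

theorem DualPair.adual (hq : 0 < q) (h : DualPair V A R V' R' σ) {E F : Finset (Sym2 α)}
    (hE : E ⊆ A) (hF : F ⊆ A) (hEF : Disjoint E F) (B : Finset (Sym2 β) → Prop) :
    P q E (F ∪ R) (fun ω => B ((A \ ω).image σ ∪ R')) =
      P q (E.image σ) ((A \ (E ∪ F)).image σ ∪ R') B := by
  obtain ⟨K, hK, hw⟩ := h.weight hq
  obtain ⟨F', hF'⟩ : ∃ F', F' = (A \ (E ∪ F)).image σ ∪ R' := ⟨_, rfl⟩
  rw [← hF']
  have e0 : ∀ ζ ⊆ E, (A \ (ζ ∪ F)).image σ ∪ R' = (E \ ζ).image σ ∪ F' := by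
    intro ζ hζ
    have : A \ (ζ ∪ F) = (E \ ζ) ∪ (A \ (E ∪ F)) := by
      ext z
      simp only [mem_sdiff, mem_union]
      constructor
      · rintro ⟨h1, h2⟩
        by_cases hz : z ∈ E
        · exact Or.inl ⟨hz, fun h3 => h2 (Or.inl h3)⟩
        · exact Or.inr ⟨h1, fun h3 => h3.elim hz fun h4 => h2 (Or.inr h4)⟩
      · rintro (⟨h1, h2⟩ | ⟨h1, h2⟩)
        · exact ⟨hE h1, fun h3 => h3.elim h2 fun h4 => (Finset.disjoint_left.1 hEF) h1 h4⟩
        · exact ⟨h1, fun h3 => h3.elim (fun h4 => h2 (Or.inl (hζ h4))) fun h4 => h2 (Or.inr h4)⟩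
    rw [this, image_union, union_assoc, ← hF']
  have e1 : ∀ ζ ⊆ E, (A \ (ζ ∪ (F ∪ R))).image σ ∪ R' = (E \ ζ).image σ ∪ F' := by
    intro ζ hζ
    rw [← e0 ζ hζ]
    congr 2
    ext z
    simp only [mem_sdiff, mem_union]
    constructor
    · rintro ⟨h1, h2⟩
      exact ⟨h1, fun h3 => h2 (h3.elim Or.inl fun h4 => Or.inr (Or.inl h4))⟩
    · rintro ⟨h1, h2⟩
      exact ⟨h1, fun h3 => h3.elim (fun h4 => h2 (Or.inl h4)) fun h4 => h4.elim
        (fun h5 => h2 (Or.inr h5)) fun h5 => (Finset.disjoint_left.1 h.dis) h1 h5⟩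
  have e2 : ∀ ζ ⊆ E, W q V (ζ ∪ (F ∪ R)) = K * W q V' ((E \ ζ).image σ ∪ F') := by
    intro ζ hζ
    rw [← union_assoc, hw _ (union_subset (hζ.trans hE) hF), e0 ζ hζ]
  have hsubA : E ∪ (F ∪ R) ⊆ A ∪ R := by
    rw [← union_assoc]
    exact union_subset_union_left (union_subset hE hF)
  have hsubA' : E.image σ ∪ F' ⊆ A.image σ ∪ R' := by
    rw [hF', ← union_assoc, ← image_union]
    exact union_subset_union_left (image_subset_image (union_subset hE sdiff_subset))
  rw [P_eq_V hq (V := V) (h.nl.mono (subset_union_left.trans hsubA))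
      (h.nl.mono (subset_union_right.trans hsubA)) ((vts_mono hsubA).trans h.hV),
    P_eq_V hq (V := V') (h.nl'.mono (subset_union_left.trans hsubA'))
      (h.nl'.mono (subset_union_right.trans hsubA')) ((vts_mono hsubA').trans h.hV')]
  have key : ∀ C : Finset (Sym2 β) → Prop,
      ws (fun ζ => W q V (ζ ∪ (F ∪ R))) E (fun ζ => C ((A \ (ζ ∪ (F ∪ R))).image σ ∪ R')) =
        K * ws (fun ζ => W q V' (ζ ∪ F')) (E.image σ) (fun ζ => C (ζ ∪ F')) := by
    intro C
    rw [← ws_compl (h.inj.mono (Finset.coe_subset.2 hE)) (fun ζ => W q V' (ζ ∪ F'))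
      (fun ζ => C (ζ ∪ F')), Pool.Agent.H95.Susc.ws_congr (B := fun ζ => C ((E \ ζ).image σ ∪ F'))
      (fun ζ hζ => by rw [e1 ζ hζ])]
    unfold ws
    rw [mul_sum]
    refine sum_congr rfl fun ζ hζ => ?_
    rw [Pool.Agent.H95.Susc.mem_fil] at hζ
    exact e2 ζ hζ.1
  have k1 := key B
  have k2 := key (fun _ => True)
  rw [k1, k2, mul_div_mul_left _ _ hK.ne']

end

end Pool.Agent.FKR
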