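import Pool.Agent.FKR.Faces

/-! # FKR/AnDefs (MP_b3e76a_pr): crossings of annuli (definitions for stage 2) -/

namespace Pool.Agent.FKR

open Finset
open Pool.Agent.H95.Perc (Inc conn link rect hor ver eh ev sumE sepE Inci mem_rect)
open Pool.Agent.H95.SumRule (edgesIn Z2)

/-- box of radius `n` around `(x, y)` -/
noncomputable def bxx (x y n : ℤ) : Finset (ℤ × ℤ) := rect (x - n) (x + n) (y - n) (y + n)

/-- four crossings forming an open circuit in the annulus between radius `n` and radius `2 n` around `(x, y)` -/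
def An (x y n : ℤ) (ω : Finset (Sym2 (ℤ × ℤ))) : Prop :=
  hor (x - 2 * n) (x + 2 * n) (y + n) (y + 2 * n) ω ∧
  hor (x - 2 * n) (x + 2 * n) (y - 2 * n) (y - n) ω ∧
  ver (x - 2 * n) (x - n) (y - 2 * n) (y + 2 * n) ω ∧
  ver (x + n) (x + 2 * n) (y - 2 * n) (y + 2 * n) ω

/-- the dual event: four non-crossings (vertices are now faces) -/
def AnD (x y n : ℤ) (κ : Finset (Sym2 (ℤ × ℤ))) : Prop :=
  ¬ ver (x - 2 * n) (x + 2 * n - 1) (y + n - 1) (y + 2 * n) κ ∧
  ¬ ver (x - 2 * n) (x + 2 * n - 1) (y - 2 * n - 1) (y - n) κ ∧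
  ¬ hor (x - 2 * n - 1) (x - n) (y - 2 * n) (y + 2 * n - 1) κ ∧
  ¬ hor (x + n - 1) (x + 2 * n) (y - 2 * n) (y + 2 * n - 1) κ

/-- probability of `An` in a box which is `12` times larger, with free boundary conditions -/
noncomputable def uu (q : ℝ) (n : ℤ) : ℝ := P q (edgesIn (bxx 0 0 (12 * n))) ∅ (An 0 0 n)

/-- number of copies: `2 kk + 1`, and ratio of scales `LL = 26 kk + 3` -/
def kk : ℤ := 20
def LL : ℤ := 523

/-- all the annuli around `(26 n i, 0)`, `|i| ≤ kk` -/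
def Ans (n : ℤ) (ω : Finset (Sym2 (ℤ × ℤ))) : Prop := ∀ i : ℤ, -kk ≤ i → i ≤ kk → An (26 * n * i) 0 n ω

end Pool.Agent.FKR
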