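import Pool.Agent.FKR.Basic

/-! # FKR/Explore (MP_b3e76a_pr): conditioning and exploration

`P_cond`: given that the configuration is `η` on `X ⊆ E`, the remaining edges have law
`P q (E \ X) (F ∪ η)`. Proof: for `V = vts (E ∪ F)` (contains `vts ((E \ X) ∪ (F ∪ η))` as `η ⊆ X ⊆ E`)
use `P_eq_V`; the subsets `ζ ⊆ E` with `(ζ ∪ F) ∩ X = η` and `A (ζ ∪ F)` (nonempty only if
`F ∩ X ⊆ η`) are, up to the multiplicity of `E ∩ F` (apply `P_sdiff` first: we may assume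
`Disjoint E F`; then `F ∩ X = ∅`), in bijection with the subsets `ζ' ⊆ E \ X` with
`A (ζ' ∪ (F ∪ η))`, by `ζ' = ζ \ X`, `ζ = ζ' ∪ η`.

`explore_ge`, `explore_le`: `X ω` is the set of edges explored in the configuration `ω`; only used when
the event `B` (which is determined by the exploration) holds. Split the event `B` according to the pair
`(X ω, ω ∩ X ω)` (sum over the finitely many `ω ∪ F` with `B`; e.g. sum over the image of
`ω ↦ (X ω, ω ∩ X ω)`): for fixed `ω₀` with `B ω₀`, by `hs`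
`{ω : B ω, X ω = X ω₀, ω ∩ X ω = ω₀ ∩ X ω₀} = {ω : ω ∩ X ω₀ = ω₀ ∩ X ω₀}`. -/

namespace Pool.Agent.FKR

open Finset
open Pool.Agent.H95.Wedge (openGraph W Good selfDual)
open Pool.Agent.H95.Susc (fil mem_fil ws ws_congr Lat)
open Pool.Agent.H95.Perc (Inc)

section
variable {α : Type*} [DecidableEq α] {q : ℝ} {E F : Finset (Sym2 α)}

lemma ws_cond {β : Type*} [DecidableEq β] {E F X η : Finset β} (hEF : Disjoint E F) (hX : X ⊆ E)
    (hη : η ⊆ X) (w : Finset β → ℝ) (A : Finset β → Prop) :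
    ws (fun ζ => w (ζ ∪ F)) E (fun ζ => A (ζ ∪ F) ∧ (ζ ∪ F) ∩ X = η) =
      ws (fun ζ => w (ζ ∪ (F ∪ η))) (E \ X) (fun ζ => A (ζ ∪ (F ∪ η))) := by
  have hFX : ∀ x ∈ F, x ∉ X := fun x hx hx' => (Finset.disjoint_left.mp hEF) (hX hx') hx
  have key : ∀ ζ : Finset β, (ζ ∪ F) ∩ X = η → (ζ \ X) ∪ (F ∪ η) = ζ ∪ F := by
    intro ζ h
    ext x
    have hx := Finset.ext_iff.mp h x
    simp only [mem_inter, mem_union] at hx
    simp only [mem_union, mem_sdiff]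
    have := hFX x
    tauto
  have key2 : ∀ ζ' : Finset β, ζ' ⊆ E \ X → (ζ' ∪ η) ∪ F = ζ' ∪ (F ∪ η) := by
    intro ζ' _
    ext x
    simp only [mem_union]
    tauto
  unfold ws
  refine Finset.sum_bij' (fun ζ _ => ζ \ X) (fun ζ' _ => ζ' ∪ η) ?_ ?_ ?_ ?_ ?_
  · intro ζ hζ
    rw [mem_fil] at hζ ⊢
    obtain ⟨h1, h2, h3⟩ := hζ
    refine ⟨sdiff_subset_sdiff h1 (Subset.refl _), ?_⟩
    rw [key ζ h3]
    exact h2
  · intro ζ' hζ'
    rw [mem_fil] at hζ' ⊢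
    obtain ⟨h1, h2⟩ := hζ'
    refine ⟨union_subset (h1.trans sdiff_subset) (hη.trans hX), ?_, ?_⟩
    · rw [key2 ζ' h1]; exact h2
    · ext x
      simp only [mem_inter, mem_union]
      have h1x : x ∈ ζ' → x ∉ X := fun hx => (mem_sdiff.mp (h1 hx)).2
      have h2x := hFX x
      have h3x : x ∈ η → x ∈ X := fun hx => hη hx
      tauto
  · intro ζ hζ
    rw [mem_fil] at hζ
    obtain ⟨h1, h2, h3⟩ := hζ
    ext x
    have hx := Finset.ext_iff.mp h3 x
    simp only [mem_inter, mem_union] at hx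
    simp only [mem_union, mem_sdiff]
    have := hFX x
    tauto
  · intro ζ' hζ'
    rw [mem_fil] at hζ'
    obtain ⟨h1, h2⟩ := hζ'
    ext x
    simp only [mem_union, mem_sdiff]
    have h1x : x ∈ ζ' → x ∉ X := fun hx => (mem_sdiff.mp (h1 hx)).2
    have h3x : x ∈ η → x ∈ X := fun hx => hη hx
    tauto
  · intro ζ hζ
    rw [mem_fil] at hζ
    rw [key ζ hζ.2.2]

lemma ws_pos' (hq : 0 < q) (V : Finset α) (E F : Finset (Sym2 α)) :
    0 < ws (fun ζ => W q V (ζ ∪ F)) E (fun _ => True) := by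
  unfold ws
  exact sum_pos (fun ω _ => Pool.Agent.H95.Wedge.W_pos hq V _) ⟨∅, by rw [mem_fil]; simp⟩

lemma P_cond_disj (hq : 0 < q) (hE : NL E) (hF : NL F) (hEF : Disjoint E F) {X η : Finset (Sym2 α)}
    (hX : X ⊆ E) (hη : η ⊆ X) (A : Finset (Sym2 α) → Prop) :
    P q E F (fun ω => A ω ∧ ω ∩ X = η) =
      P q (E \ X) (F ∪ η) A * P q E F (fun ω => ω ∩ X = η) := by
  have hV : vts ((E \ X) ∪ (F ∪ η)) ⊆ vts (E ∪ F) := by
    apply vts_mono
    refine union_subset (sdiff_subset.trans subset_union_left)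
      (union_subset subset_union_right ((hη.trans hX).trans subset_union_left))
  have hNη : NL (F ∪ η) := hF.union (hE.mono (hη.trans hX))
  have hNE : NL (E \ X) := hE.mono sdiff_subset
  rw [P_eq_V hq hE hF (Subset.refl _) (fun ω => A ω ∧ ω ∩ X = η),
    P_eq_V hq hE hF (Subset.refl _) (fun ω => ω ∩ X = η), P_eq_V hq hNE hNη hV A]
  have h1 := ws_cond hEF hX hη (W q (vts (E ∪ F))) A
  have h2 := ws_cond hEF hX hη (W q (vts (E ∪ F))) (fun _ => True)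
  simp only [true_and] at h2
  rw [h1, h2]
  have p1 := ws_pos' hq (vts (E ∪ F)) E F
  have p2 := ws_pos' hq (vts (E ∪ F)) (E \ X) (F ∪ η)
  field_simp

theorem P_cond (hq : 0 < q) (hE : NL E) (hF : NL F) {X η : Finset (Sym2 α)} (hX : X ⊆ E)
    (hη : η ⊆ X) (A : Finset (Sym2 α) → Prop) :
    P q E F (fun ω => A ω ∧ ω ∩ X = η) =
      P q (E \ X) (F ∪ η) A * P q E F (fun ω => ω ∩ X = η) := by
  by_cases hF' : F ∩ X ⊆ η
  · have hX' : X \ F ⊆ E \ F := sdiff_subset_sdiff hX (Subset.refl _)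
    have hη' : η \ F ⊆ X \ F := sdiff_subset_sdiff hη (Subset.refl _)
    have h := P_cond_disj hq (hE.mono sdiff_subset) hF (sdiff_disjoint (s := F) (t := E)) hX' hη' A
    have hiff : ∀ ζ : Finset (Sym2 α), (ζ ∪ F) ∩ (X \ F) = η \ F ↔ (ζ ∪ F) ∩ X = η := by
      intro ζ
      constructor
      · intro h
        ext x
        have hx := Finset.ext_iff.mp h x
        have hx2 := @hF' x
        have hx3 := @hη x
        simp only [mem_inter, mem_union, mem_sdiff] at hx hx2 ⊢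
        tauto
      · intro h
        ext x
        have hx := Finset.ext_iff.mp h x
        simp only [mem_inter, mem_union, mem_sdiff] at hx ⊢
        tauto
    have e1 : P q (E \ F) F (fun ω => A ω ∧ ω ∩ (X \ F) = η \ F) =
        P q E F (fun ω => A ω ∧ ω ∩ X = η) := by
      rw [← P_sdiff hq E F (fun ω => A ω ∧ ω ∩ X = η)]
      exact P_congr (fun ζ _ => and_congr Iff.rfl (hiff ζ))
    have e2 : P q (E \ F) F (fun ω => ω ∩ (X \ F) = η \ F) =
        P q E F (fun ω => ω ∩ X = η) := by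
      rw [← P_sdiff hq E F (fun ω => ω ∩ X = η)]
      exact P_congr (fun ζ _ => hiff ζ)
    have e3 : P q ((E \ F) \ (X \ F)) (F ∪ η \ F) A = P q (E \ X) (F ∪ η) A := by
      have s1 : F ∪ η \ F = F ∪ η := by
        ext x
        simp only [mem_union, mem_sdiff]
        tauto
      have s2 : ((E \ F) \ (X \ F)) \ (F ∪ η) = (E \ X) \ (F ∪ η) := by
        ext x
        simp only [mem_union, mem_sdiff]
        tauto
      rw [s1, ← P_sdiff hq ((E \ F) \ (X \ F)) (F ∪ η) A, s2, P_sdiff hq (E \ X) (F ∪ η) A]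
    rw [e1, e2, e3] at h
    exact h
  · have hfalse : ∀ ζ : Finset (Sym2 α), ¬ (ζ ∪ F) ∩ X = η := by
      intro ζ h
      apply hF'
      intro x hx
      rw [← h]
      rw [mem_inter] at hx ⊢
      exact ⟨mem_union_right _ hx.1, hx.2⟩
    have e1 : P q E F (fun ω => A ω ∧ ω ∩ X = η) = P q E F (fun _ => False) :=
      P_congr (fun ζ _ => ⟨fun h => hfalse ζ h.2, fun h => h.elim⟩)
    have e2 : P q E F (fun ω => ω ∩ X = η) = P q E F (fun _ => False) :=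
      P_congr (fun ζ _ => ⟨fun h => hfalse ζ h, fun h => h.elim⟩)
    rw [e1, e2, P_false, mul_zero]

/-- decomposition of an event determined by an exploration -/
lemma explore_sum (hq : 0 < q) (hE : NL E) (hF : NL F) {B : Finset (Sym2 α) → Prop}
    {X : Finset (Sym2 α) → Finset (Sym2 α)} (hX : ∀ ω, B ω → X ω ⊆ E)
    (hs : ∀ ω ω', B ω → ω' ∩ X ω = ω ∩ X ω → B ω' ∧ X ω' = X ω)
    (A : Finset (Sym2 α) → Prop) :
    P q E F (fun ω => A ω ∧ B ω) =
      ∑ p ∈ (fil E (fun ζ => B (ζ ∪ F))).image (fun ζ => (X (ζ ∪ F), (ζ ∪ F) ∩ X (ζ ∪ F))),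
        P q (E \ p.1) (F ∪ p.2) A * P q E F (fun ω => ω ∩ p.1 = p.2) := by
  have step : ∀ p ∈ (fil E (fun ζ => B (ζ ∪ F))).image
      (fun ζ => (X (ζ ∪ F), (ζ ∪ F) ∩ X (ζ ∪ F))),
      P q (E \ p.1) (F ∪ p.2) A * P q E F (fun ω => ω ∩ p.1 = p.2) =
        (∑ ζ ∈ (fil E (fun ζ => A (ζ ∪ F) ∧ B (ζ ∪ F))).filter
          (fun ζ => (X (ζ ∪ F), (ζ ∪ F) ∩ X (ζ ∪ F)) = p), wt q E F ζ) /
          ws (wt q E F) E (fun _ => True) := by
    intro p hp
    rw [mem_image] at hp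
    obtain ⟨ζ₀, hζ₀, rfl⟩ := hp
    rw [mem_fil] at hζ₀
    have h1 := hX _ hζ₀.2
    rw [← P_cond hq hE hF h1 inter_subset_right A]
    unfold P
    congr 1
    unfold ws
    congr 1
    ext ζ
    rw [mem_filter, mem_fil, mem_fil]
    constructor
    · rintro ⟨a1, a2, a3⟩
      obtain ⟨b1, b2⟩ := hs _ _ hζ₀.2 a3
      refine ⟨⟨a1, a2, b1⟩, ?_⟩
      rw [b2, a3]
    · rintro ⟨⟨a1, a2, a3⟩, a4⟩
      rw [Prod.mk.injEq] at a4
      refine ⟨a1, a2, ?_⟩
      rw [← a4.1, a4.2, a4.1]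
  rw [Finset.sum_congr rfl step, ← Finset.sum_div]
  unfold P
  congr 1
  unfold ws
  rw [Finset.sum_fiberwise_of_maps_to]
  intro ζ hζ
  rw [mem_fil] at hζ
  rw [mem_image]
  exact ⟨ζ, mem_fil.mpr ⟨hζ.1, hζ.2.2⟩, rfl⟩

theorem explore_ge (hq : 0 < q) (hE : NL E) (hF : NL F) {B : Finset (Sym2 α) → Prop}
    {X : Finset (Sym2 α) → Finset (Sym2 α)} (hX : ∀ ω, B ω → X ω ⊆ E)
    (hs : ∀ ω ω', B ω → ω' ∩ X ω = ω ∩ X ω → B ω' ∧ X ω' = X ω)
    {A : Finset (Sym2 α) → Prop} {c : ℝ}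
    (hc : ∀ ω, F ⊆ ω → ω ⊆ E ∪ F → B ω → c ≤ P q (E \ X ω) (F ∪ (ω ∩ X ω)) A) :
    c * P q E F B ≤ P q E F (fun ω => A ω ∧ B ω) := by
  have hB : P q E F B = P q E F (fun ω => (fun _ => True) ω ∧ B ω) :=
    P_congr (fun ζ _ => by simp)
  rw [hB, explore_sum hq hE hF hX hs A, explore_sum hq hE hF hX hs (fun _ => True), mul_sum]
  apply sum_le_sum
  intro p hp
  rw [mem_image] at hp
  obtain ⟨ζ₀, hζ₀, rfl⟩ := hp
  rw [mem_fil] at hζ₀
  rw [P_true hq, one_mul]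
  exact mul_le_mul_of_nonneg_right
    (hc _ subset_union_right (union_subset_union hζ₀.1 (Subset.refl _)) hζ₀.2) (P_nonneg hq _ _ _)

theorem explore_le (hq : 0 < q) (hE : NL E) (hF : NL F) {B : Finset (Sym2 α) → Prop}
    {X : Finset (Sym2 α) → Finset (Sym2 α)} (hX : ∀ ω, B ω → X ω ⊆ E)
    (hs : ∀ ω ω', B ω → ω' ∩ X ω = ω ∩ X ω → B ω' ∧ X ω' = X ω)
    {A : Finset (Sym2 α) → Prop} {c : ℝ}
    (hc : ∀ ω, F ⊆ ω → ω ⊆ E ∪ F → B ω → P q (E \ X ω) (F ∪ (ω ∩ X ω)) A ≤ c) :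
    P q E F (fun ω => A ω ∧ B ω) ≤ c * P q E F B := by
  have hB : P q E F B = P q E F (fun ω => (fun _ => True) ω ∧ B ω) :=
    P_congr (fun ζ _ => by simp)
  rw [hB, explore_sum hq hE hF hX hs A, explore_sum hq hE hF hX hs (fun _ => True), mul_sum]
  apply sum_le_sum
  intro p hp
  rw [mem_image] at hp
  obtain ⟨ζ₀, hζ₀, rfl⟩ := hp
  rw [mem_fil] at hζ₀
  rw [P_true hq, one_mul]
  exact mul_le_mul_of_nonneg_right
    (hc _ subset_union_right (union_subset_union hζ₀.1 (Subset.refl _)) hζ₀.2) (P_nonneg hq _ _ _)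

end

end Pool.Agent.FKR
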