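import Pool.Agent.FKR.Dom
import Pool.Agent.FKR.Explore

/-! # FKR/PE (MP_b3e76a_pr): exploration of primal clusters

`Reach S ω v`: `v` is connected to a vertex satisfying `S`. Exploring the clusters of all vertices in `S` reveals the
edges with an end in these clusters; the edges between explored and unexplored vertices are closed, so the
unexplored edges have free boundary conditions. `F0`: frozen edges away from `S` (their ends satisfy `I`), all other
frozen edges have an end in `S`. On the event `N`: no vertex satisfying `I` is reached.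
`hA`: on `N`, closing (deleting) all edges at reached vertices does not change the event `A` in the relevant
direction. `R` is an event which only depends on the active edges with an end in `S`. -/

namespace Pool.Agent.FKR

open Finset
open Pool.Agent.H95.Perc (Inc)

section
variable {α : Type*} [DecidableEq α] {q : ℝ} {E F F0 : Finset (Sym2 α)}

/-- `v` is connected to a vertex satisfying `S` -/
def Reach (S : α → Prop) (ω : Finset (Sym2 α)) (v : α) : Prop := ∃ s, S s ∧ Cn ω s v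

open Classical in
/-- the edges of `E` with no end satisfying `S` -/
noncomputable def off (S : α → Prop) (E : Finset (Sym2 α)) : Finset (Sym2 α) :=
  E.filter fun e => ∀ v ∈ e, ¬ S v

theorem Reach_mono {S : α → Prop} {ω ω' : Finset (Sym2 α)} (h : ω ⊆ ω') {v : α} (hv : Reach S ω v) :
    Reach S ω' v := by
  obtain ⟨s, hs, hc⟩ := hv
  exact ⟨s, hs, hc.mono h⟩

omit [DecidableEq α] in
private theorem mem_off {S : α → Prop} {E : Finset (Sym2 α)} {e : Sym2 α} :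
    e ∈ off S E ↔ e ∈ E ∧ ∀ v ∈ e, ¬ S v := by
  classical
  unfold off
  rw [mem_filter]

omit [DecidableEq α] in
private theorem off_sub {S : α → Prop} {E : Finset (Sym2 α)} : off S E ⊆ E :=
  fun _ he => (mem_off.1 he).1

private theorem Reach.self {S : α → Prop} {v : α} (h : S v) (ω : Finset (Sym2 α)) : Reach S ω v :=
  ⟨v, h, Cn_refl _ _⟩

private theorem Reach.step {S : α → Prop} {ω : Finset (Sym2 α)} {x y : α} (h : Reach S ω x)
    (he : s(x, y) ∈ ω) : Reach S ω y := by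
  obtain ⟨s, hs, hc⟩ := h
  exact ⟨s, hs, hc.trans (Cn_edge he)⟩

/-- the configuration restricted to the active edges, together with the frozen edges -/
private def nrm (E F ω : Finset (Sym2 α)) : Finset (Sym2 α) := (ω ∩ E) ∪ F

private theorem nrm_eq {ω : Finset (Sym2 α)} (h1 : F ⊆ ω) (h2 : ω ⊆ E ∪ F) : nrm E F ω = ω := by
  unfold nrm
  ext e
  have h1e := @h1 e
  have h2e := @h2 e
  simp only [mem_union, mem_inter] at h2e ⊢
  tauto

open Classical in
/-- the explored edges -/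
private noncomputable def XX (S : α → Prop) (E F ω : Finset (Sym2 α)) : Finset (Sym2 α) :=
  E.filter fun e => ∃ v ∈ e, Reach S (nrm E F ω) v

private theorem mem_XX {S : α → Prop} {ω : Finset (Sym2 α)} {e : Sym2 α} :
    e ∈ XX S E F ω ↔ e ∈ E ∧ ∃ v ∈ e, Reach S (nrm E F ω) v := by
  classical
  unfold XX
  rw [mem_filter]

private theorem XX_sub {S : α → Prop} {ω : Finset (Sym2 α)} : XX S E F ω ⊆ E :=
  fun _ he => (mem_XX.1 he).1

private theorem reach_agree {S : α → Prop} {ω₁ ω₂ : Finset (Sym2 α)}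
    (h : ω₂ ∩ XX S E F ω₁ = ω₁ ∩ XX S E F ω₁) :
    Reach S (nrm E F ω₂) = Reach S (nrm E F ω₁) := by
  -- transfer of an edge at a reached vertex
  have key1 : ∀ x y, Reach S (nrm E F ω₁) x → s(x, y) ∈ nrm E F ω₂ → s(x, y) ∈ nrm E F ω₁ := by
    intro x y hx he
    unfold nrm at he ⊢
    rw [mem_union, mem_inter] at he ⊢
    rcases he with ⟨h1, h2⟩ | h1
    · have h3 : s(x, y) ∈ XX S E F ω₁ := mem_XX.2 ⟨h2, x, Sym2.mem_mk_left x y, hx⟩
      have h4 : s(x, y) ∈ ω₂ ∩ XX S E F ω₁ := mem_inter.2 ⟨h1, h3⟩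
      rw [h] at h4
      exact Or.inl ⟨(mem_inter.1 h4).1, h2⟩
    · exact Or.inr h1
  have key2 : ∀ x y, Reach S (nrm E F ω₁) x → s(x, y) ∈ nrm E F ω₁ → s(x, y) ∈ nrm E F ω₂ := by
    intro x y hx he
    unfold nrm at he ⊢
    rw [mem_union, mem_inter] at he ⊢
    rcases he with ⟨h1, h2⟩ | h1
    · have h3 : s(x, y) ∈ XX S E F ω₁ := mem_XX.2 ⟨h2, x, Sym2.mem_mk_left x y, hx⟩
      have h4 : s(x, y) ∈ ω₁ ∩ XX S E F ω₁ := mem_inter.2 ⟨h1, h3⟩
      rw [← h] at h4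
      exact Or.inl ⟨(mem_inter.1 h4).1, h2⟩
    · exact Or.inr h1
  funext v
  apply propext
  constructor
  · rintro ⟨s, hs, hc⟩
    exact hc.closed (S := fun x => Reach S (nrm E F ω₁) x) (Reach.self hs _)
      (fun x y hx he => Reach.step hx (key1 x y hx he))
  · rintro ⟨s, hs, hc⟩
    have := hc.closed (S := fun x => Reach S (nrm E F ω₁) x ∧ Reach S (nrm E F ω₂) x)
      ⟨Reach.self hs _, Reach.self hs _⟩
      (fun x y hx he => ⟨Reach.step hx.1 he, Reach.step hx.2 (key2 x y hx.1 he)⟩)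
    exact this.2

private theorem stop_prop {S I : α → Prop} {R : Finset (Sym2 α) → Prop}
    (hR : ∀ ζ ⊆ E, ∀ ζ' ⊆ E, (∀ e ∈ E, (∃ v ∈ e, S v) → (e ∈ ζ ↔ e ∈ ζ')) → R (ζ ∪ F) → R (ζ' ∪ F))
    (ω ω' : Finset (Sym2 α))
    (hB : (∀ v, I v → ¬ Reach S (nrm E F ω) v) ∧ R (nrm E F ω))
    (h : ω' ∩ XX S E F ω = ω ∩ XX S E F ω) :
    ((∀ v, I v → ¬ Reach S (nrm E F ω') v) ∧ R (nrm E F ω')) ∧ XX S E F ω' = XX S E F ω := by
  have hr := reach_agree h
  refine ⟨⟨?_, ?_⟩, ?_⟩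
  · rw [hr]; exact hB.1
  · refine hR (ω ∩ E) inter_subset_right (ω' ∩ E) inter_subset_right ?_ hB.2
    rintro e heE ⟨v, hve, hv⟩
    have hX : e ∈ XX S E F ω := mem_XX.2 ⟨heE, v, hve, Reach.self hv _⟩
    have := Finset.ext_iff.1 h e
    simp only [mem_inter, hX, heE, and_true] at this ⊢
    exact this.symm
  · unfold XX
    rw [hr]

/-- the common facts about the conditional law -/
private theorem law_facts {S I : α → Prop}
    (hF1 : ∀ e ∈ F, e ∉ F0 → ∃ v ∈ e, S v) {ω : Finset (Sym2 α)}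
    (h1 : F ⊆ ω) (h2 : ω ⊆ E ∪ F) (hN : ∀ v, I v → ¬ Reach S ω v) :
    E \ XX S E F ω ⊆ off S E ∪ F0 ∧
    (∀ u ∈ vts (E \ XX S E F ω), ∀ v ∈ vts (E \ XX S E F ω),
      Cn (F ∪ (ω ∩ XX S E F ω)) u v → Cn F0 u v) ∧
    (∀ ζ ⊆ E \ XX S E F ω, ζ ∪ (F ∪ (ω ∩ XX S E F ω)) ⊆ E ∪ F ∧
      (∀ v, I v → ¬ Reach S (ζ ∪ (F ∪ (ω ∩ XX S E F ω))) v) ∧
      off (Reach S (ζ ∪ (F ∪ (ω ∩ XX S E F ω)))) (ζ ∪ (F ∪ (ω ∩ XX S E F ω))) ⊆ ζ ∪ F0) := by
  have hn : nrm E F ω = ω := nrm_eq h1 h2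
  have hX : ∀ e, e ∈ XX S E F ω ↔ e ∈ E ∧ ∃ v ∈ e, Reach S ω v := by
    intro e
    rw [mem_XX, hn]
  have hsub : F ∪ (ω ∩ XX S E F ω) ⊆ ω := union_subset h1 inter_subset_left
  refine ⟨?_, ?_, ?_⟩
  · intro e he
    rw [mem_sdiff, hX] at he
    rw [mem_union, mem_off]
    left
    refine ⟨he.1, fun v hv hS => he.2 ⟨he.1, v, hv, Reach.self hS _⟩⟩
  · intro u hu v _ hc
    obtain ⟨e, he, hue⟩ := mem_vts.1 hu
    rw [mem_sdiff, hX] at he
    have hu' : ¬ Reach S ω u := fun hr => he.2 ⟨he.1, u, hue, hr⟩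
    have := hc.closed (S := fun x => ¬ Reach S ω x ∧ Cn F0 u x) ⟨hu', Cn_refl _ _⟩ (by
      rintro x y ⟨hx1, hx2⟩ hxy
      have hyr : ¬ Reach S ω y := fun hr => hx1 (hr.step (by rw [Sym2.eq_swap]; exact hsub hxy))
      have hnot : ∀ v ∈ s(x, y), ¬ Reach S ω v := by
        intro v hv
        rw [Sym2.mem_iff] at hv
        rcases hv with rfl | rfl
        · exact hx1
        · exact hyr
      refine ⟨hyr, ?_⟩
      rcases mem_union.1 hxy with h3 | h3
      · by_cases h4 : s(x, y) ∈ F0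
        · exact hx2.trans (Cn_edge h4)
        · obtain ⟨w, hw, hSw⟩ := hF1 _ h3 h4
          exact absurd (Reach.self hSw _) (hnot w hw)
      · obtain ⟨_, w, hw, hrw⟩ := (hX _).1 (mem_inter.1 h3).2
        exact absurd hrw (hnot w hw))
    exact this.2
  · intro ζ hζ
    set κ := ζ ∪ (F ∪ (ω ∩ XX S E F ω)) with hκ
    have hκ1 : F ⊆ κ := subset_union_left.trans subset_union_right
    have hκ2 : κ ⊆ E ∪ F := by
      refine union_subset ((hζ.trans sdiff_subset).trans subset_union_left)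
        (union_subset subset_union_right (inter_subset_left.trans h2))
    have hkX : κ ∩ XX S E F ω = ω ∩ XX S E F ω := by
      ext e
      have hz := @hζ e
      have h1e := @h1 e
      rw [hκ]
      simp only [mem_union, mem_inter, mem_sdiff] at hz ⊢
      tauto
    have hr : Reach S κ = Reach S ω := by
      have := reach_agree (F := F) hkX
      rwa [nrm_eq hκ1 hκ2, hn] at this
    refine ⟨hκ2, ?_, ?_⟩
    · rw [hr]; exact hN
    · rw [hr]
      intro e he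
      rw [mem_off] at he
      obtain ⟨he1, he2⟩ := he
      rw [hκ] at he1
      rcases mem_union.1 he1 with h3 | h3
      · exact mem_union_left _ h3
      · rcases mem_union.1 h3 with h4 | h4
        · by_cases h5 : e ∈ F0
          · exact mem_union_right _ h5
          · obtain ⟨w, hw, hSw⟩ := hF1 _ h4 h5
            exact absurd (Reach.self hSw _) (he2 w hw)
        · obtain ⟨_, w, hw, hrw⟩ := (hX _).1 (mem_inter.1 h4).2
          exact absurd hrw (he2 w hw)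

theorem PE_ge (hq : 1 ≤ q) (hE : NL E) (hF : NL F) {S I : α → Prop} (hF0 : F0 ⊆ F)
    (hF1 : ∀ e ∈ F, e ∉ F0 → ∃ v ∈ e, S v) (hF2 : ∀ e ∈ F0, ∀ v ∈ e, I v)
    {A R : Finset (Sym2 α) → Prop} (hA : Dcr A)
    (hA2 : ∀ ω ⊆ E ∪ F, (∀ v, I v → ¬ Reach S ω v) → A (off (Reach S ω) ω) → A ω)
    (hR : ∀ ζ ⊆ E, ∀ ζ' ⊆ E, (∀ e ∈ E, (∃ v ∈ e, S v) → (e ∈ ζ ↔ e ∈ ζ')) → R (ζ ∪ F) → R (ζ' ∪ F)) :
    P q (off S E) F0 A * P q E F (fun ω => (∀ v, I v → ¬ Reach S ω v) ∧ R ω) ≤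
      P q E F (fun ω => A ω ∧ (∀ v, I v → ¬ Reach S ω v) ∧ R ω) := by
  have hq0 : 0 < q := by linarith
  have hoff : NL (off S E) := hE.mono off_sub
  have h := explore_ge hq0 hE hF
    (B := fun ω => (∀ v, I v → ¬ Reach S (nrm E F ω) v) ∧ R (nrm E F ω))
    (X := fun ω => XX S E F ω) (fun ω _ => XX_sub)
    (fun ω ω' hB hag => stop_prop hR ω ω' hB hag)
    (A := A) (c := P q (off S E) F0 A) (by
      intro ω h1 h2 hB
      have hn : nrm E F ω = ω := nrm_eq h1 h2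
      rw [hn] at hB
      obtain ⟨f1, f2, f3⟩ := law_facts (S := S) (I := I) hF1 h1 h2 hB.1
      refine P_ge hq (hE.mono sdiff_subset) (hF.union (hE.mono (inter_subset_right.trans XX_sub))) hoff (hF.mono hF0) f1 f2
        hA hA ?_
      intro ζ hζ hAζ
      obtain ⟨g1, g2, g3⟩ := f3 ζ hζ
      exact hA2 _ g1 g2 (hA _ _ g3 hAζ))
  have e1 : P q E F (fun ω => (∀ v, I v → ¬ Reach S (nrm E F ω) v) ∧ R (nrm E F ω)) =
      P q E F (fun ω => (∀ v, I v → ¬ Reach S ω v) ∧ R ω) :=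
    P_congr (fun ζ hζ => by
      rw [nrm_eq subset_union_right (union_subset_union hζ (Subset.refl _))])
  have e2 : P q E F (fun ω => A ω ∧ (∀ v, I v → ¬ Reach S (nrm E F ω) v) ∧ R (nrm E F ω)) =
      P q E F (fun ω => A ω ∧ (∀ v, I v → ¬ Reach S ω v) ∧ R ω) :=
    P_congr (fun ζ hζ => by
      rw [nrm_eq subset_union_right (union_subset_union hζ (Subset.refl _))])
  rw [e1, e2] at h
  exact h

theorem PE_le (hq : 1 ≤ q) (hE : NL E) (hF : NL F) {S I : α → Prop} (hF0 : F0 ⊆ F)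
    (hF1 : ∀ e ∈ F, e ∉ F0 → ∃ v ∈ e, S v) (hF2 : ∀ e ∈ F0, ∀ v ∈ e, I v)
    {A R : Finset (Sym2 α) → Prop} (hA : Inc A)
    (hA2 : ∀ ω ⊆ E ∪ F, (∀ v, I v → ¬ Reach S ω v) → A ω → A (off (Reach S ω) ω))
    (hR : ∀ ζ ⊆ E, ∀ ζ' ⊆ E, (∀ e ∈ E, (∃ v ∈ e, S v) → (e ∈ ζ ↔ e ∈ ζ')) → R (ζ ∪ F) → R (ζ' ∪ F)) :
    P q E F (fun ω => A ω ∧ (∀ v, I v → ¬ Reach S ω v) ∧ R ω) ≤
      P q (off S E) F0 A * P q E F (fun ω => (∀ v, I v → ¬ Reach S ω v) ∧ R ω) := by
  have hq0 : 0 < q := by linarith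
  have hoff : NL (off S E) := hE.mono off_sub
  have h := explore_le hq0 hE hF
    (B := fun ω => (∀ v, I v → ¬ Reach S (nrm E F ω) v) ∧ R (nrm E F ω))
    (X := fun ω => XX S E F ω) (fun ω _ => XX_sub)
    (fun ω ω' hB hag => stop_prop hR ω ω' hB hag)
    (A := A) (c := P q (off S E) F0 A) (by
      intro ω h1 h2 hB
      have hn : nrm E F ω = ω := nrm_eq h1 h2
      rw [hn] at hB
      obtain ⟨f1, f2, f3⟩ := law_facts (S := S) (I := I) hF1 h1 h2 hB.1
      refine P_le hq (hE.mono sdiff_subset) (hF.union (hE.mono (inter_subset_right.trans XX_sub))) hoff (hF.mono hF0) f1 f2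
        hA hA ?_
      intro ζ hζ hAζ
      obtain ⟨g1, g2, g3⟩ := f3 ζ hζ
      exact hA _ _ g3 (hA2 _ g1 g2 hAζ))
  have e1 : P q E F (fun ω => (∀ v, I v → ¬ Reach S (nrm E F ω) v) ∧ R (nrm E F ω)) =
      P q E F (fun ω => (∀ v, I v → ¬ Reach S ω v) ∧ R ω) :=
    P_congr (fun ζ hζ => by
      rw [nrm_eq subset_union_right (union_subset_union hζ (Subset.refl _))])
  have e2 : P q E F (fun ω => A ω ∧ (∀ v, I v → ¬ Reach S (nrm E F ω) v) ∧ R (nrm E F ω)) =
      P q E F (fun ω => A ω ∧ (∀ v, I v → ¬ Reach S ω v) ∧ R ω) :=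
    P_congr (fun ζ hζ => by
      rw [nrm_eq subset_union_right (union_subset_union hζ (Subset.refl _))])
  rw [e1, e2] at h
  exact h

end

end Pool.Agent.FKR
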