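import Pool.Agent.FKR.ArmUp
import Pool.Agent.FKR.PE

/-! # FKR/Dec (MP_b3e76a_pr): from wired to free outer boundary

`E = WE m (4n) \ WSp m (4n)`, `F = WSp m (4n)`, `N` = no connection between `nm ≤ 2n` and `nm ≥ 4n`.
(1) `wA q m (4n) ≤ P q E F (Arm (2n))`. (2) `c * P (Arm (2n)) ≤ P (N ∧ Arm (2n))`: `P_indep_ge` with `D = E \ tc (nm < 2n) E` (the edges of
`E` not touching `nm < 2n`), `A = N`, `B = Arm (2n)` (`arm_tc`); `dsemi` for `P q D (F ∪ η)`: the edges of `η ⊆ tc (nm < 2n) E` have all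
ends in `nm ≤ 2n` (`WE_nm`). (3) `PE_le` with `S v = (4n ≤ nm v)`, `I v = (nm v ≤ 2n)`, `F0 = ∅`, `A = Arm (2n)`, `R = True`: `hA2` from `arm_tc` (the edges
touching `nm < 2n` have both ends in `I`). `P q (off S E) ∅ (Arm (2n)) ≤ P q (WE m (4n)) ∅ (Arm (2n))` (`P_mono_EF`). -/

namespace Pool.Agent.FKR

open Finset
open Pool.Agent.H95.Wedge (Vtx pt)

variable {q : ℝ}

theorem dec_mem_tc {S : Vtx → Prop} {E : Finset (Sym2 Vtx)} {e : Sym2 Vtx} :
    e ∈ tc S E ↔ e ∈ E ∧ ∃ v ∈ e, S v := by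
  classical
  unfold tc
  exact mem_filter

/-- an edge touching `nm < k` has all its ends in `nm ≤ k` -/
theorem dec_ends {m N k : ℕ} {e : Sym2 Vtx} (he : e ∈ WE m N) (h : ∃ v ∈ e, nm v < k) :
    ∀ v ∈ e, nm v ≤ k := by
  obtain ⟨u, hu, hk⟩ := h
  intro v hv
  by_cases huv : v = u
  · rw [huv]; exact hk.le
  · have h1 : e = s(u, v) := by
      rw [(Sym2.mem_and_mem_iff (Ne.symm huv)).1 ⟨hu, hv⟩]
    rw [h1] at he
    have := (WE_nm he).1
    omega

theorem dec (hq : 1 ≤ q) (hu : UU q) (m : ℕ) : ∃ C : ℝ, 0 < C ∧ ∀ n : ℕ, 34 ≤ n →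
    wA q m (4 * n) ≤ C * P q (WE m (4 * n)) ∅ (Arm (2 * n)) := by
  classical
  have hq0 : 0 < q := by linarith
  obtain ⟨c, hc, hsemi⟩ := dsemi hq hu m
  refine ⟨1 / c, by positivity, fun n hn => ?_⟩
  set E := WE m (4 * n) \ WSp m (4 * n) with hE
  set F := WSp m (4 * n) with hF
  have hEW : E ⊆ WE m (4 * n) := sdiff_subset
  have hFW : F ⊆ WE m (4 * n) := by
    intro e he
    rw [hF] at he
    unfold WSp at he
    exact (mem_ins'.1 he).1
  have hFn : ∀ e ∈ F, ∀ v ∈ e, nm v = 4 * n := by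
    intro e he
    rw [hF] at he
    unfold WSp at he
    exact (mem_ins'.1 he).2
  have hNE : NL E := (WE_NL m (4 * n)).mono hEW
  have hNF : NL F := (WE_NL m (4 * n)).mono hFW
  have h1 : wA q m (4 * n) ≤ P q E F (Arm (2 * n)) := by
    unfold wA
    refine P_mono hq0 fun ζ _ h => ?_
    obtain ⟨v, hv, hc⟩ := h
    exact ⟨v, by omega, hc⟩
  -- decoupling
  set N : Finset (Sym2 Vtx) → Prop := fun ω =>
    ∀ u v, nm u ≤ 2 * n → 4 * n ≤ nm v → ¬ Cn ω u v with hN
  set D := E \ tc (fun v => nm v < 2 * n) E with hD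
  have h2 : c * P q E F (Arm (2 * n)) ≤ P q E F (fun ω => N ω ∧ Arm (2 * n) ω) := by
    refine P_indep_ge hq0 hNE hNF (D := D) sdiff_subset ?_ ?_
    · intro ω ω' hω hω' hag hB
      rw [arm_tc (by omega)] at hB ⊢
      refine inc_Arm _ _ _ ?_ hB
      intro e he
      rw [dec_mem_tc] at he ⊢
      refine ⟨?_, he.2⟩
      have h3 : e ∈ ω \ D := by
        rw [mem_sdiff]
        refine ⟨he.1, fun h4 => ?_⟩
        have h5 := mem_sdiff.1 h4
        exact h5.2 (dec_mem_tc.2 ⟨h5.1, he.2⟩)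
      rw [hag] at h3
      exact (mem_sdiff.1 h3).1
    · intro η hη
      have hη' : η ⊆ tc (fun v => nm v < 2 * n) E := by
        intro e he
        have h3 := mem_sdiff.1 (hη he)
        by_contra h4
        exact h3.2 (mem_sdiff.2 ⟨h3.1, h4⟩)
      refine hsemi n (4 * n) D (F ∪ η) hn (sdiff_subset.trans hEW) (union_subset hFW ?_) ?_
      · intro e he
        exact hEW (dec_mem_tc.1 (hη' he)).1
      · intro e he v hv
        rcases mem_union.1 he with he | he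
        · right
          rw [hFn e he v hv]
        · left
          obtain ⟨h3, h4⟩ := dec_mem_tc.1 (hη' he)
          exact dec_ends (hEW h3) h4 v hv
  -- exploration
  have h3 := PE_le (F0 := ∅) hq hNE hNF (S := fun v => 4 * n ≤ nm v) (I := fun v => nm v ≤ 2 * n)
    (empty_subset _) (by
      intro e he _
      induction e with
      | _ x y =>
        exact ⟨x, Sym2.mem_mk_left _ _, (hFn _ he x (Sym2.mem_mk_left _ _)).ge⟩)
    (fun e he => absurd he (notMem_empty e)) (A := Arm (2 * n)) (R := fun _ => True)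
    (inc_Arm _) (by
      intro ω hω hNω hA
      rw [arm_tc (by omega)] at hA
      refine inc_Arm _ _ _ ?_ hA
      intro e he
      rw [dec_mem_tc] at he
      unfold off
      rw [mem_filter]
      refine ⟨he.1, fun v hv => hNω v ?_⟩
      have h4 : e ∈ WE m (4 * n) := union_subset hEW hFW (hω he.1)
      exact dec_ends h4 he.2 v hv)
    (fun _ _ _ _ _ _ => trivial)
  have h4 : P q E F (fun ω => N ω ∧ Arm (2 * n) ω) ≤ P q E F (fun ω => Arm (2 * n) ω ∧
      (∀ v, nm v ≤ 2 * n → ¬ Reach (fun v => 4 * n ≤ nm v) ω v) ∧ True) := by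
    refine P_mono hq0 ?_
    rintro ζ _ ⟨h5, h6⟩
    refine ⟨h6, fun v hv => ?_, trivial⟩
    rintro ⟨s, hs, hcn⟩
    exact h5 v s hv hs hcn.symm
  have h5 : P q (off (fun v => 4 * n ≤ nm v) E) ∅ (Arm (2 * n)) ≤
      P q (WE m (4 * n)) ∅ (Arm (2 * n)) := by
    refine P_mono_EF hq (WE_NL m (4 * n)) (fun e he => absurd he (notMem_empty e)) ?_
      (Subset.refl _) (inc_Arm _)
    intro e he
    unfold off at he
    rw [mem_filter] at he
    exact mem_union_left _ (hEW he.1)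
  have h6 : P q (off (fun v => 4 * n ≤ nm v) E) ∅ (Arm (2 * n)) *
      P q E F (fun ω => (∀ v, nm v ≤ 2 * n → ¬ Reach (fun v => 4 * n ≤ nm v) ω v) ∧ True) ≤
      P q (off (fun v => 4 * n ≤ nm v) E) ∅ (Arm (2 * n)) :=
    mul_le_of_le_one_right (P_nonneg hq0 _ _ _) (P_le_one hq0 _ _ _)
  have h7 : c * P q E F (Arm (2 * n)) ≤ P q (WE m (4 * n)) ∅ (Arm (2 * n)) :=
    h2.trans (h4.trans (h3.trans (h6.trans h5)))
  have h8 : c * wA q m (4 * n) ≤ P q (WE m (4 * n)) ∅ (Arm (2 * n)) :=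
    (mul_le_mul_of_nonneg_left h1 hc.le).trans h7
  rw [one_div, ← div_eq_inv_mul, le_div_iff₀ hc]
  linarith

end Pool.Agent.FKR
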