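import Pool.Agent.FKR.BulkC
import Pool.Agent.FKR.Dec

/-! # FKR/ArmCore (MP_b3e76a_pr): a wired arm is comparable to a free arm ending in the bulk

`g n = P q (WE m (4n)) ∅ (Hit (ch 0) tip n n (n / 100))`.
(a) `dec`: `wA (4n) ≤ C1 * P (Arm (2n))`, law `P q (WE m (4n)) ∅`.
(b) `Arm (2n)` implies `Arm n`; `esc` with `r = 15 ρ`, `ρ = n / (990 K)`: `P (Arm (2n)) ≤ 2 b ^ K * wA n + CR * g n` (`thin`, `bulk_core` with `R = 2 * 990 K`,
`Hit .. ρ → Hit .. (n / 100)`), for `n ≥ 3960 K`.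
(c) `g n ≤ C4 * g (4n)` for `n ≥ 400`: `P_mono_EF` and `move` (`K = 600`) in `ch 0` on `rect 1 (16n) 0 (16n)` from `(n, n)` to `(4n, 4n)`, radius `n / 100`.
(d) `K` with `2 C1 b ^ K * C4 ≤ 1/2`. Then `wA n ≤ M g n` implies `wA (4n) ≤ (M / (2 C4) + C1 CR) g n ≤ (M / 2 + C1 CR C4) g (4n) ≤ M g (4n)` for
`M ≥ 2 C1 CR C4`. Start: `n1 = 3960 K + 400`, `M ≥ 1 / g n1` (`g n1 > 0` by finite energy: `hit_pos`).
(e) For `N ≥ 16 n1` take `n = 4 ^ i n1` with `4 n ≤ N < 16 n`: `wA N ≤ wA n ≤ M g n`, and `move` in `ch 0` on `rect 1 N 0 N` from `(n, n)` to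
`(N / 4, N / 4)`, radius `n / 100 ≤ N / 400`. -/

namespace Pool.Agent.FKR

open Finset
open Pool.Agent.H95.Perc (Inc conn link rect hor ver eh ev mem_rect)
open Pool.Agent.H95.SumRule (edgesIn Z2)
open Pool.Agent.H95.Wedge (Vtx pt)

variable {q : ℝ}

namespace ACore

theorem nl_empty : NL (∅ : Finset (Sym2 Vtx)) := fun e he => absurd he (notMem_empty e)

theorem Hit_mono {f : ℤ × ℤ → Vtx} {s : Vtx} {x y r r' : ℤ} (h : r ≤ r') {ω : Finset (Sym2 Vtx)}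
    (hh : Hit f s x y r ω) : Hit f s x y r' ω := by
  obtain ⟨p, hp, hc⟩ := hh
  refine ⟨p, ?_, hc⟩
  unfold bxx at hp ⊢
  rw [mem_rect] at hp ⊢
  omega

theorem tip_notMem {X0 X1 Y0 Y1 : ℤ} (h : 1 ≤ X0) : tip ∉ (rect X0 X1 Y0 Y1).image (ch 0) := by
  intro hc
  rw [mem_image] at hc
  obtain ⟨p, hp, hpt⟩ := hc
  rw [mem_rect] at hp
  have h1 := nm_ch 0 (p := p) (by omega)
  rw [hpt, nm_tip] at h1
  have h2 := le_max_left p.1 |p.2|
  omega

theorem row {m N : ℕ} (hm : 1 ≤ m) : ∀ a : ℕ, a ≤ N → Cn (WE m N) tip (ch 0 ((a : ℤ), 0)) := by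
  intro a
  induction a with
  | zero =>
    intro _
    have := ch_zero 0
    rw [Nat.cast_zero, this]
    exact Cn_refl _ _
  | succ a ih =>
    intro ha
    refine (ih (by omega)).trans (Cn_edge ?_)
    refine WE_intro hm (le_refl 0) (by omega) ?_ ?_ ?_ ?_ ?_
    · rw [Z2_adj_iff]
      right
      exact ⟨rfl, Or.inr (by push_cast; rfl)⟩
    · rw [mem_rect]
      simp only
      omega
    · rw [mem_rect]
      simp only
      push_cast
      omega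
    · intro _
      exact ⟨le_refl _, le_refl _⟩
    · intro h
      omega

theorem colu {m N : ℕ} (hm : 1 ≤ m) {x : ℕ} (hx : x ≤ N) : ∀ b : ℕ, b ≤ N →
    Cn (WE m N) (ch 0 ((x : ℤ), 0)) (ch 0 ((x : ℤ), (b : ℤ))) := by
  intro b
  induction b with
  | zero =>
    intro _
    rw [Nat.cast_zero]
    exact Cn_refl _ _
  | succ b ih =>
    intro hb
    refine (ih (by omega)).trans (Cn_edge ?_)
    refine WE_intro hm (le_refl 0) (by omega) ?_ ?_ ?_ ?_ ?_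
    · rw [Z2_adj_iff]
      push_cast
      omega
    · rw [mem_rect]
      simp only
      omega
    · rw [mem_rect]
      simp only
      push_cast
      omega
    · intro _
      simp only
      push_cast
      omega
    · intro h
      omega

end ACore

theorem hit_pos (hq : 1 ≤ q) {m N : ℕ} (hm : 1 ≤ m) {x y : ℕ} (hx : x ≤ N) (hy : y ≤ N) {r : ℤ} (hr : 0 ≤ r) :
    0 < P q (WE m N) ∅ (Hit (ch 0) tip x y r) := by
  have hq0 : 0 < q := by linarith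
  have h1 := P_insert_set hq (WE_NL m N) ACore.nl_empty (S := WE m N) (by rw [union_empty])
    (A := fun _ => True) (B := Hit (ch 0) tip x y r) (by
      intro ω _
      refine ⟨((x : ℤ), (y : ℤ)), ?_, ?_⟩
      · unfold bxx
        rw [mem_rect]
        simp only
        omega
      · exact ((ACore.row hm x hx).trans (ACore.colu hm hx y hy)).mono subset_union_right)
  rw [P_true hq0] at h1
  have h2 := P_nonneg hq0 (WE m N) ∅ (Hit (ch 0) tip x y r)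
  rcases h2.lt_or_eq with h3 | h3
  · exact h3
  · rw [← h3, mul_zero] at h1
    linarith

namespace ACore

/-- probability to hit the bulk box at scale `n` -/
noncomputable def G (q : ℝ) (m n : ℕ) : ℝ :=
  P q (WE m (4 * n)) ∅ (Hit (ch 0) tip ((n : ℕ) : ℤ) ((n : ℕ) : ℤ) ((n / 100 : ℕ) : ℤ))

theorem stepB (hq : 1 ≤ q) (hu : UU q) {m : ℕ} (hm : 1 ≤ m) {b : ℝ}
    (hb : ∀ (K n N : ℕ) (r : ℤ), 1 ≤ n → 1 ≤ r → 66 * K * r ≤ n →
      P q (WE m N) ∅ (fun ω => Arm n ω ∧ Th m n r ω) ≤ 2 * b ^ K * wA q m n) {K : ℕ} (hK : 1 ≤ K) :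
    ∃ CR : ℝ, 0 < CR ∧ ∀ n : ℕ, 3960 * K ≤ n →
      P q (WE m (4 * n)) ∅ (Arm (2 * n)) ≤ 2 * b ^ K * wA q m n + CR * G q m n := by
  have hq0 : 0 < q := by linarith
  obtain ⟨CR, hCR, hbulk⟩ := bulk_core hq hu hm (2 * (990 * K))
  refine ⟨CR, hCR, ?_⟩
  intro n hn
  obtain ⟨ρ, hρ⟩ : ∃ ρ, ρ = n / (990 * K) := ⟨_, rfl⟩
  have hK0 : 0 < 990 * K := by omega
  have h1 : 4 ≤ ρ := by
    rw [hρ, Nat.le_div_iff_mul_le hK0]
    omega
  have h2 : 990 * K * ρ ≤ n := by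
    rw [hρ]
    exact Nat.mul_div_le n (990 * K)
  have h3 : n < 990 * K * (ρ + 1) := by
    rw [hρ]
    exact Nat.lt_mul_div_succ n hK0
  have h4 : 990 * ρ ≤ n := by
    calc 990 * ρ = 990 * 1 * ρ := by ring
      _ ≤ 990 * K * ρ := Nat.mul_le_mul_right _ (Nat.mul_le_mul_left _ hK)
      _ ≤ n := h2
  have h5 : n ≤ 2 * (990 * K) * ρ := by
    have : 990 * K * (ρ + 1) ≤ 990 * K * (2 * ρ) := Nat.mul_le_mul_left _ (by omega)
    calc n ≤ 990 * K * (ρ + 1) := h3.le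
      _ ≤ 990 * K * (2 * ρ) := this
      _ = 2 * (990 * K) * ρ := by ring
  have h6 := hbulk n ρ h1 (by omega) h5
  have h7 := hb K n (4 * n) (15 * (ρ : ℤ)) (by omega) (by omega) (by
    have : ((990 * K * ρ : ℕ) : ℤ) ≤ n := by exact_mod_cast h2
    push_cast at this
    linarith)
  have h8 : P q (WE m (4 * n)) ∅ (Arm (2 * n)) ≤
      P q (WE m (4 * n)) ∅ (fun ω => (Arm n ω ∧ Th m n (15 * (ρ : ℤ)) ω) ∨ Bulk m n (15 * (ρ : ℤ)) ω) := by
    apply P_mono hq0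
    intro ζ hζ hA
    have hA' : Arm n (ζ ∪ ∅) := by
      obtain ⟨v, hv, hc⟩ := hA
      exact ⟨v, by omega, hc⟩
    rcases esc (N := 4 * n) hm (by omega) (r := 15 * (ρ : ℤ)) (by omega) (by omega)
      (by rw [union_empty]; exact hζ) hA with h | h
    · exact Or.inl ⟨hA', h⟩
    · exact Or.inr h
  have h9 := P_or_le hq0 (WE m (4 * n)) ∅ (fun ω => Arm n ω ∧ Th m n (15 * (ρ : ℤ)) ω)
    (Bulk m n (15 * (ρ : ℤ)))
  have h10 : P q (WE m (4 * n)) ∅ (Hit (ch 0) tip n n ρ) ≤ G q m n := by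
    apply P_mono hq0
    intro ζ _ hA
    refine Hit_mono ?_ hA
    have : ρ ≤ n / 100 := by omega
    exact_mod_cast this
  calc P q (WE m (4 * n)) ∅ (Arm (2 * n)) ≤ _ := h8
    _ ≤ _ := h9
    _ ≤ 2 * b ^ K * wA q m n + CR * P q (WE m (4 * n)) ∅ (Hit (ch 0) tip n n ρ) := add_le_add h7 h6
    _ ≤ _ := by gcongr

/-- moving between two scales in chart `0` -/
theorem moveG (hq : 1 ≤ q) (hu : UU q) {m : ℕ} (hm : 1 ≤ m) (K : ℕ) : ∃ c : ℝ, 0 < c ∧
    ∀ (N N' : ℕ) (x x' r r' : ℤ), N ≤ N' → 4 ≤ r → r ≤ r' → 1 + 14 * r ≤ x → x + 14 * r ≤ N' →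
      1 + 14 * r ≤ x' → x' + 14 * r ≤ N' → |x - x'| ≤ K * r →
      c * P q (WE m N) ∅ (Hit (ch 0) tip x x r) ≤ P q (WE m N') ∅ (Hit (ch 0) tip x' x' r') := by
  have hq0 : 0 < q := by linarith
  obtain ⟨c, hc, h⟩ := move hq hu K
  refine ⟨c, hc, ?_⟩
  intro N N' x x' r r' hN hr hrr h1 h2 h3 h4 h5
  have hP : Patch (ch 0) 1 (N' : ℤ) 0 (N' : ℤ) (WE m N') :=
    patch_ch hm (le_refl 0) (by omega) (le_refl 1) (le_refl _) (by omega) (le_refl _)
      (fun _ => le_refl _) (fun h => by omega)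
  have h6 := h (WE m N') (ch 0) 1 N' 0 N' tip x x x' x' r (WE_NL m N') hP (tip_notMem (le_refl 1)) hr h1 h2
    (by omega) h2 h3 h4 (by omega) h4 h5 h5
  have h7 : P q (WE m N) ∅ (Hit (ch 0) tip x x r) ≤ P q (WE m N') ∅ (Hit (ch 0) tip x x r) :=
    P_mono_EF hq (WE_NL m N') nl_empty (by rw [union_empty]; exact WE_mono (le_refl m) hN)
      (Subset.refl _) (inc_Hit _ _ _ _ _)
  have h8 : P q (WE m N') ∅ (Hit (ch 0) tip x' x' r) ≤ P q (WE m N') ∅ (Hit (ch 0) tip x' x' r') :=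
    P_mono hq0 (fun ζ _ hA => Hit_mono hrr hA)
  calc c * P q (WE m N) ∅ (Hit (ch 0) tip x x r)
      ≤ c * P q (WE m N') ∅ (Hit (ch 0) tip x x r) := mul_le_mul_of_nonneg_left h7 hc.le
    _ ≤ _ := h6
    _ ≤ _ := h8

end ACore

theorem arm_core (hq : 1 ≤ q) (hu : UU q) {m : ℕ} (hm : 1 ≤ m) : ∃ c : ℝ, 0 < c ∧ ∃ n0 : ℕ, 1 ≤ n0 ∧
    ∀ N : ℕ, n0 ≤ N → c * wA q m N ≤
      P q (WE m N) ∅ (Hit (ch 0) tip ((N / 4 : ℕ) : ℤ) ((N / 4 : ℕ) : ℤ) ((N / 400 : ℕ) : ℤ)) := by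
  have hq0 : 0 < q := by linarith
  obtain ⟨C1, hC1, hdec⟩ := dec hq hu m
  obtain ⟨b, hb0, hb1, hb⟩ := thin hq hu hm
  obtain ⟨c4, hc4, hmv⟩ := ACore.moveG hq hu hm 600
  -- the choice of `K`
  obtain ⟨K0, hK0⟩ := exists_pow_lt_of_lt_one (show 0 < c4 / (4 * C1) by positivity) hb1
  obtain ⟨K, hK, hK1⟩ : ∃ K : ℕ, 1 ≤ K ∧ 2 * C1 * b ^ K ≤ c4 / 2 := by
    refine ⟨K0 + 1, by omega, ?_⟩
    have h1 : b ^ (K0 + 1) ≤ b ^ K0 := pow_le_pow_of_le_one hb0 hb1.le (by omega)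
    have h2 : b ^ (K0 + 1) ≤ c4 / (4 * C1) := h1.trans hK0.le
    calc 2 * C1 * b ^ (K0 + 1) ≤ 2 * C1 * (c4 / (4 * C1)) := by gcongr
      _ = c4 / 2 := by field_simp; ring
  obtain ⟨CR, hCR, hstep⟩ := ACore.stepB hq hu hm hb hK
  have hG0 : ∀ n, 0 ≤ ACore.G q m n := fun n => P_nonneg hq0 _ _ _
  have hG4 : ∀ n : ℕ, 400 ≤ n → c4 * ACore.G q m n ≤ ACore.G q m (4 * n) := by
    intro n hn
    refine hmv (4 * n) (4 * (4 * n)) n ((4 * n : ℕ) : ℤ) ((n / 100 : ℕ) : ℤ) ((4 * n / 100 : ℕ) : ℤ) (by omega)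
      (by omega) (by omega) (by omega) (by push_cast; omega) (by push_cast; omega) (by push_cast; omega) ?_
    rw [abs_le]
    push_cast
    constructor <;> omega
  obtain ⟨n1, hn1⟩ : ∃ n1 : ℕ, n1 = 3960 * K + 400 := ⟨_, rfl⟩
  have hGn1 : 0 < ACore.G q m n1 := hit_pos hq hm (by omega) (by omega) (by omega)
  obtain ⟨M, hM0, hM1, hM2⟩ : ∃ M : ℝ, 0 < M ∧ 2 * C1 * CR / c4 ≤ M ∧ 1 ≤ M * ACore.G q m n1 := by
    refine ⟨2 * C1 * CR / c4 + 1 / ACore.G q m n1, by positivity, ?_, ?_⟩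
    · have : 0 < 1 / ACore.G q m n1 := by positivity
      linarith
    · have : 0 < 2 * C1 * CR / c4 := by positivity
      rw [add_mul, one_div, inv_mul_cancel₀ hGn1.ne']
      nlinarith
  have hind : ∀ i : ℕ, wA q m (4 ^ i * n1) ≤ M * ACore.G q m (4 ^ i * n1) := by
    intro i
    induction i with
    | zero =>
      rw [pow_zero, one_mul]
      exact (wA_le_one hq m n1).trans hM2
    | succ i ih =>
      have e : 4 ^ (i + 1) * n1 = 4 * (4 ^ i * n1) := by ring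
      rw [e]
      obtain ⟨n, hn⟩ : ∃ n : ℕ, n = 4 ^ i * n1 := ⟨_, rfl⟩
      rw [← hn] at ih ⊢
      have hnn1 : n1 ≤ n := by
        rw [hn]
        exact Nat.le_mul_of_pos_left _ (by positivity)
      have h1 := hdec n (by omega)
      have h2 := hstep n (by omega)
      have h3 := hG4 n (by omega)
      have h4 : 2 * C1 * CR ≤ M * c4 := by
        rw [div_le_iff₀ hc4] at hM1
        exact hM1
      have hbK : 0 ≤ b ^ K := pow_nonneg hb0 K
      calc wA q m (4 * n) ≤ C1 * P q (WE m (4 * n)) ∅ (Arm (2 * n)) := h1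
        _ ≤ C1 * (2 * b ^ K * wA q m n + CR * ACore.G q m n) := by gcongr
        _ ≤ C1 * (2 * b ^ K * (M * ACore.G q m n) + CR * ACore.G q m n) := by gcongr
        _ = (2 * C1 * b ^ K * M + C1 * CR) * ACore.G q m n := by ring
        _ ≤ (c4 / 2 * M + M * c4 / 2) * ACore.G q m n := by
            apply mul_le_mul_of_nonneg_right _ (hG0 n)
            have h5 : 2 * C1 * b ^ K * M ≤ c4 / 2 * M := mul_le_mul_of_nonneg_right hK1 hM0.le
            linarith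
        _ = M * (c4 * ACore.G q m n) := by ring
        _ ≤ M * ACore.G q m (4 * n) := by gcongr
  refine ⟨c4 / M, by positivity, 16 * n1, by omega, ?_⟩
  intro N hN
  obtain ⟨i, hi1, hi2⟩ : ∃ i : ℕ, 4 * (4 ^ i * n1) ≤ N ∧ N < 16 * (4 ^ i * n1) := by
    have hn10 : 0 < n1 := by omega
    have h16 : 16 ≤ N / n1 := by
      rw [Nat.le_div_iff_mul_le hn10]
      exact hN
    have hl : 2 ≤ Nat.log 4 (N / n1) := by
      apply Nat.le_log_of_pow_le (by norm_num)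
      omega
    refine ⟨Nat.log 4 (N / n1) - 1, ?_, ?_⟩
    · have h1 : 4 ^ Nat.log 4 (N / n1) ≤ N / n1 := Nat.pow_log_le_self 4 (by omega)
      rw [Nat.le_div_iff_mul_le hn10] at h1
      have h2 : 4 ^ Nat.log 4 (N / n1) = 4 * 4 ^ (Nat.log 4 (N / n1) - 1) := by
        rw [← pow_succ']
        congr 1
        omega
      rw [h2] at h1
      rw [← mul_assoc]
      exact h1
    · have h1 : N / n1 < 4 ^ (Nat.log 4 (N / n1) + 1) := Nat.lt_pow_succ_log_self (by norm_num) _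
      rw [Nat.div_lt_iff_lt_mul hn10] at h1
      have h2 : 4 ^ (Nat.log 4 (N / n1) + 1) = 16 * 4 ^ (Nat.log 4 (N / n1) - 1) := by
        have : Nat.log 4 (N / n1) + 1 = (Nat.log 4 (N / n1) - 1) + 2 := by omega
        rw [this, pow_add]
        ring
      rw [h2] at h1
      rw [← mul_assoc]
      exact h1
  have h0 := hind i
  obtain ⟨n, hn⟩ : ∃ n : ℕ, n = 4 ^ i * n1 := ⟨_, rfl⟩
  rw [← hn] at h0 hi1 hi2
  have hnn1 : n1 ≤ n := by
    rw [hn]
    exact Nat.le_mul_of_pos_left _ (by positivity)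
  have h1 : wA q m N ≤ wA q m n := wA_anti hq (by omega) (by omega)
  have h2 := hmv (4 * n) N n ((N / 4 : ℕ) : ℤ) ((n / 100 : ℕ) : ℤ) ((N / 400 : ℕ) : ℤ) hi1
      (by omega) (by omega) (by omega) (by omega) (by omega) (by omega) (by
        rw [abs_le]
        push_cast
        constructor <;> omega)
  calc c4 / M * wA q m N ≤ c4 / M * (M * ACore.G q m n) := by
        apply mul_le_mul_of_nonneg_left (h1.trans h0) (by positivity)
    _ = c4 * ACore.G q m n := by field_simp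
    _ ≤ _ := h2

/-- doubling: `arm_core`, `move` from `(n/4, n/4)` to `(8n, 8n)` in `WE m (16n)`, `arm_up` -/
theorem wA_dbl (hq : 1 ≤ q) (hu : UU q) {m : ℕ} (hm : 1 ≤ m) : ∃ C : ℝ, 0 < C ∧ ∃ n0 : ℕ, 1 ≤ n0 ∧
    ∀ n : ℕ, n0 ≤ n → wA q m n ≤ C * wA q m (4 * n) := by
  have hq0 : 0 < q := by linarith
  obtain ⟨c, hc, n0, hn0, h⟩ := arm_core hq hu hm
  obtain ⟨c', hc', hmv⟩ := ACore.moveG hq hu hm 6400
  refine ⟨1 / (c' * c), by positivity, n0 + 1600, by omega, ?_⟩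
  intro n hn
  have h1 := h n (by omega)
  have h2 := hmv n (16 * n) ((n / 4 : ℕ) : ℤ) (8 * n) ((n / 400 : ℕ) : ℤ) ((n / 400 : ℕ) : ℤ) (by omega)
    (by omega) (le_refl _) (by omega) (by push_cast; omega) (by omega) (by push_cast; omega) (by
        rw [abs_le]
        push_cast
        constructor <;> omega)
  have h3 : P q (WE m (16 * n)) ∅ (Hit (ch 0) tip (8 * n) (8 * n) ((n / 400 : ℕ) : ℤ)) ≤
      P q (WE m (16 * n)) ∅ (Arm (4 * n)) := by
    apply P_mono hq0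
    rintro ζ - ⟨p, hp, hcn⟩
    unfold bxx at hp
    rw [mem_rect] at hp
    refine ⟨ch 0 p, ?_, hcn⟩
    have h4 := nm_ch 0 (p := p) (by omega)
    have h5 := le_max_left p.1 |p.2|
    omega
  have h4 : P q (WE m (16 * n)) ∅ (Arm (4 * n)) ≤ wA q m (4 * n) :=
    arm_up hq (N := 16 * n) (by omega) (Subset.refl _) (empty_subset _)
      (fun e he => absurd he (notMem_empty e))
  rw [one_div, inv_mul_eq_div, le_div_iff₀ (by positivity)]
  calc wA q m n * (c' * c) = c' * (c * wA q m n) := by ring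
    _ ≤ c' * _ := mul_le_mul_of_nonneg_left h1 hc'.le
    _ ≤ _ := h2
    _ ≤ _ := h3
    _ ≤ _ := h4

end Pool.Agent.FKR
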