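import Pool.Agent.FKR.SFacts
import Pool.Agent.FKR.Dec
import Pool.Agent.H95.Wedge.ArmDef

/-! # FKR/ArmProd (MP_b3e76a_pr): the two-point function of the tip is the product of two one-arm probabilities -/

namespace Pool.Agent.FKR

open Finset
open Pool.Agent.H95.Perc (Inc)
open Pool.Agent.H95.Wedge (Vtx pt verts edges tipTwoPoint tipArm GW fkProb selfDual openGraph)

variable {q : ℝ}

theorem ap_vts (m N : ℕ) : vts (WE m N) ⊆ verts m (fun _ => N) := by
  intro v hv
  rw [mem_vts] at hv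
  obtain ⟨e, he, hve⟩ := hv
  obtain ⟨w, rfl⟩ := Sym2.mem_iff_exists.mp hve
  exact (Pool.Agent.H95.Wedge.good_wedge m (fun _ => N) v w he).1

theorem tipArm_eq (hq : 1 ≤ q) (m N k : ℕ) : tipArm q m N k = P q (WE m N) ∅ (Arm k) := by
  have h := P_free (q := q) (by linarith) (WE_NL m N) (ap_vts m N) (Arm k)
  rw [h]
  rfl

private theorem ap_pos_of {E F : Finset (Sym2 Vtx)} (hq : 0 < q)
    {A : Finset (Sym2 Vtx) → Prop} (h : A (E ∪ F)) : 0 < P q E F A := by
  unfold P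
  apply div_pos _ (ws_wt_true_pos hq _ _)
  unfold Pool.Agent.H95.Susc.ws
  exact sum_pos (fun ω _ => wt_pos hq E F ω)
    ⟨E, by rw [Pool.Agent.H95.Susc.mem_fil]; exact ⟨Subset.refl _, h⟩⟩

theorem inc_tp (v : Vtx) : Inc (fun ω => Cn ω tip v) := fun _ _ h k => k.mono h

theorem tp_mono_N (hq : 1 ≤ q) {m N N' : ℕ} (h : N ≤ N') (k : ℕ) :
    tipTwoPoint q m N k ≤ tipTwoPoint q m N' k := by
  rw [tp_eq_P hq, tp_eq_P hq]
  exact P_mono_EF hq (WE_NL m N') (fun e he => absurd he (notMem_empty e))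
    (by rw [union_empty]; exact WE_mono le_rfl h) (Subset.refl _) (inc_tp _)

theorem tp_le_arm (hq : 1 ≤ q) (m N k : ℕ) : tipTwoPoint q m N k ≤ tipArm q m N k := by
  rw [tp_eq_P hq, tipArm_eq hq]
  apply P_mono (by linarith)
  intro ζ _ h
  refine ⟨_, ?_, h⟩
  have := nm_ch 0 (p := ((k : ℤ), 0)) (by dsimp only; omega)
  simp only [abs_zero] at this
  have h2 : max (k : ℤ) 0 = k := max_eq_left (by omega)
  rw [h2] at this
  exact_mod_cast this.ge

theorem tipArm_le_one (hq : 1 ≤ q) (m N k : ℕ) : tipArm q m N k ≤ 1 := by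
  rw [tipArm_eq hq]
  exact P_le_one (by linarith) _ _ _

theorem tipArm_le (hq : 1 ≤ q) (m N : ℕ) {k : ℕ} (hk : 1 ≤ k) : tipArm q m N k ≤ wA q m k := by
  rw [tipArm_eq hq]
  exact arm_up hq hk (Subset.refl _) (empty_subset _) (fun e he => absurd he (notMem_empty e))

theorem tp_pos (hq : 1 ≤ q) {m N k : ℕ} (hm : 1 ≤ m) (hk : k ≤ N) : 0 < tipTwoPoint q m N k := by
  rw [tp_eq_P hq]
  apply ap_pos_of (by linarith)
  have key : ∀ j ≤ N, Cn (WE m N ∪ ∅) tip (ch 0 ((j : ℤ), 0)) := by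
    intro j
    induction j with
    | zero =>
      intro _
      have := ch_zero 0
      simp only [Nat.cast_zero]
      rw [this]
      exact Cn_refl _ _
    | succ j ih =>
      intro hj
      refine (ih (by omega)).trans (Cn_edge (mem_union_left _ ?_))
      refine WE_intro hm le_rfl (by omega) ?_ ?_ ?_ ?_ ?_
      · rw [Z2_adj_iff]
        exact Or.inr ⟨rfl, Or.inr (by push_cast; ring)⟩
      · rw [Pool.Agent.H95.Perc.mem_rect]; dsimp only; omega
      · rw [Pool.Agent.H95.Perc.mem_rect]; dsimp only; omega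
      · intro _; exact ⟨le_rfl, le_rfl⟩
      · intro h; omega
  exact key k hk

theorem tipArm_ge (hq : 1 ≤ q) (hu : UU q) {m : ℕ} (hm : 1 ≤ m) : ∃ C : ℝ, 0 < C ∧ ∃ n0 : ℕ, 1 ≤ n0 ∧
    ∀ k N : ℕ, n0 ≤ k → 4 * k ≤ N → wA q m k ≤ C * tipArm q m N k := by
  obtain ⟨C1, hC1, h1⟩ := dec hq hu m
  obtain ⟨C2, hC2, n0, hn0, h2⟩ := wA_dbl hq hu hm
  refine ⟨C2 * C1, mul_pos hC2 hC1, n0 + 34, by omega, ?_⟩
  intro k N hk hN
  have h3 : P q (WE m (4 * k)) ∅ (Arm (2 * k)) ≤ tipArm q m N k := by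
    rw [tipArm_eq hq]
    refine (P_mono (B := Arm k) (by linarith) ?_).trans
      (P_mono_EF hq (WE_NL m N) (fun e he => absurd he (notMem_empty e))
        (by rw [union_empty]; exact WE_mono le_rfl hN) (Subset.refl _) (inc_Arm k))
    rintro ζ _ ⟨v, hv, hc⟩
    exact ⟨v, by omega, hc⟩
  calc wA q m k ≤ C2 * wA q m (4 * k) := h2 k (by omega)
    _ ≤ C2 * (C1 * P q (WE m (4 * k)) ∅ (Arm (2 * k))) :=
      mul_le_mul_of_nonneg_left (h1 k (by omega)) hC2.le
    _ ≤ C2 * (C1 * tipArm q m N k) :=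
      mul_le_mul_of_nonneg_left (mul_le_mul_of_nonneg_left h3 hC1.le) hC2.le
    _ = C2 * C1 * tipArm q m N k := by ring

/-- the two-point function of the tip is comparable to the product of the one-arm probabilities of the
tip and of a boundary point of a half-plane -/
theorem arm_prod (hq : 1 ≤ q) (hu : UU q) {m : ℕ} (hm : 1 ≤ m) : ∃ c C : ℝ, 0 < c ∧ 0 < C ∧
    ∀ k N : ℕ, 1 ≤ k → 4 * k ≤ N →
      c * (tipArm q m N k * tipArm q 2 N k) ≤ tipTwoPoint q m N k ∧
      tipTwoPoint q m N k ≤ C * (tipArm q m N k * tipArm q 2 N k) := by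
  have h2' : (1 : ℕ) ≤ 2 := by norm_num
  obtain ⟨c1, hc1, k1, hk1, l1⟩ := two_low hq hu hm
  obtain ⟨C1, hC1, n1, hn1, d1⟩ := wA_dbl hq hu hm
  obtain ⟨C2, hC2, n2, hn2, d2⟩ := wA_dbl hq hu h2'
  obtain ⟨A1, hA1, a1, ha1, e1⟩ := tipArm_ge hq hu hm
  obtain ⟨A2, hA2, a2, ha2, e2⟩ := tipArm_ge hq hu h2'
  have pm : ∀ k, 0 < wA q m k := fun k => wA_pos hq hm k
  have p2 : ∀ k, 0 < wA q 2 k := fun k => wA_pos hq h2' k
  have am : ∀ {k N : ℕ}, k ≤ N → 0 < tipArm q m N k := fun h => (tp_pos hq hm h).trans_le (tp_le_arm hq _ _ _)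
  have at2 : ∀ {k N : ℕ}, k ≤ N → 0 < tipArm q 2 N k := fun h => (tp_pos hq h2' h).trans_le (tp_le_arm hq _ _ _)
  set K := k1 + 3 * (n1 + n2) + a1 + a2 + 8 with hK
  -- large scales
  have big : ∀ k N : ℕ, K ≤ k → 4 * k ≤ N →
      c1 * (tipArm q m N k * tipArm q 2 N k) ≤ tipTwoPoint q m N k ∧
      tipTwoPoint q m N k ≤ C1 * C2 * (A1 * A2) * (tipArm q m N k * tipArm q 2 N k) := by
    intro k N hk hN
    constructor
    · rw [tp_eq_P hq]
      refine le_trans ?_ (l1 k N (by omega) (by omega))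
      apply mul_le_mul_of_nonneg_left _ hc1.le
      exact mul_le_mul (tipArm_le hq m N (by omega)) (tipArm_le hq 2 N (by omega))
        (at2 (by omega)).le (pm k).le
    · rw [tp_eq_P hq]
      refine (ray_up (q := q) (m := m) (N := N) (k := k) hq (n := k / 3) (by omega) (by omega)).trans ?_
      have s1 : wA q m (k / 3) ≤ C1 * (A1 * tipArm q m N k) :=
        ((d1 (k / 3) (by omega)).trans (mul_le_mul_of_nonneg_left
          (wA_anti hq (by omega) (by omega)) hC1.le)).trans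
          (mul_le_mul_of_nonneg_left (e1 k N (by omega) hN) hC1.le)
      have s2 : wA q 2 (k / 3) ≤ C2 * (A2 * tipArm q 2 N k) :=
        ((d2 (k / 3) (by omega)).trans (mul_le_mul_of_nonneg_left
          (wA_anti hq (by omega) (by omega)) hC2.le)).trans
          (mul_le_mul_of_nonneg_left (e2 k N (by omega) hN) hC2.le)
      refine (mul_le_mul s1 s2 (p2 _).le ?_).trans (le_of_eq (by ring))
      exact mul_nonneg hC1.le (mul_nonneg hA1.le (am (by omega)).le)
  -- small scales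
  have small : ∀ K : ℕ, ∃ δ : ℝ, 0 < δ ∧ δ ≤ 1 ∧ ∀ k N : ℕ, k < K → 4 * k ≤ N →
      δ ≤ tipTwoPoint q m N k ∧ δ ≤ tipTwoPoint q 2 N k := by
    intro K
    induction K with
    | zero => exact ⟨1, one_pos, le_rfl, fun k N h => absurd h (Nat.not_lt_zero k)⟩
    | succ K ih =>
      obtain ⟨δ, hδ, hδ1, h⟩ := ih
      have t1 := tp_pos hq hm (show K ≤ 4 * K by omega)
      have t2 := tp_pos hq h2' (show K ≤ 4 * K by omega)
      refine ⟨min δ (min (tipTwoPoint q m (4 * K) K) (tipTwoPoint q 2 (4 * K) K)),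
        lt_min hδ (lt_min t1 t2), (min_le_left _ _).trans hδ1, ?_⟩
      intro k N hk hN
      rcases Nat.lt_succ_iff_lt_or_eq.1 hk with h' | h'
      · exact ⟨(min_le_left _ _).trans (h k N h' hN).1, (min_le_left _ _).trans (h k N h' hN).2⟩
      · subst h'
        exact ⟨(min_le_right _ _).trans ((min_le_left _ _).trans (tp_mono_N hq hN _)),
          (min_le_right _ _).trans ((min_le_right _ _).trans (tp_mono_N hq hN _))⟩
  obtain ⟨δ, hδ, hδ1, hs⟩ := small K
  refine ⟨min c1 δ, max (C1 * C2 * (A1 * A2)) (1 / δ ^ 2), lt_min hc1 hδ,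
    lt_max_of_lt_right (by positivity), ?_⟩
  intro k N hk hN
  have ha := am (show k ≤ N by omega)
  have hb := at2 (show k ≤ N by omega)
  have hab : 0 < tipArm q m N k * tipArm q 2 N k := mul_pos ha hb
  rcases lt_or_ge k K with h | h
  · obtain ⟨r1, r2⟩ := hs k N h hN
    have ha1 := tipArm_le_one hq m N k
    have hb1 := tipArm_le_one hq 2 N k
    have hab1 : tipArm q m N k * tipArm q 2 N k ≤ 1 := mul_le_one₀ ha1 hb.le hb1
    constructor
    · calc min c1 δ * (tipArm q m N k * tipArm q 2 N k) ≤ δ * 1 :=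
            mul_le_mul (min_le_right _ _) hab1 hab.le hδ.le
        _ ≤ _ := by rw [mul_one]; exact r1
    · have r3 := r1.trans (tp_le_arm hq m N k)
      have r4 := r2.trans (tp_le_arm hq 2 N k)
      have r5 : δ ^ 2 ≤ tipArm q m N k * tipArm q 2 N k := by
        rw [sq]; exact mul_le_mul r3 r4 hδ.le ha.le
      calc tipTwoPoint q m N k ≤ 1 := (tp_le_arm hq m N k).trans ha1
        _ ≤ 1 / δ ^ 2 * (tipArm q m N k * tipArm q 2 N k) := by
          rw [one_div, ← div_eq_inv_mul, le_div_iff₀ (by positivity), one_mul]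
          exact r5
        _ ≤ _ := mul_le_mul_of_nonneg_right (le_max_right _ _) hab.le
  · obtain ⟨r1, r2⟩ := big k N h hN
    exact ⟨(mul_le_mul_of_nonneg_right (min_le_left _ _) hab.le).trans r1,
      r2.trans (mul_le_mul_of_nonneg_right (le_max_left _ _) hab.le)⟩

end Pool.Agent.FKR
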