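import Pool.Agent.FKR.WB2

/-! # FKR/ArmUp (MP_b3e76a_pr): upper bounds by wired arm probabilities

`arm_tc`: `Cn_tc_iff` with `S v = (nm v < n)`.
`arm_up`: `localize_le` with `I v = (nm v < n)`, `E' = WE m n \ WSp m n`, `F' = WSp m n` (`h1`: an edge of `WE m N` touching `nm < n` is in
`WE m n` (`WE_nm`, `WE_restrict`), not in `WSp`; `h3`: vertices of `WE m n` with `nm ≥ n` have `nm = n`: `sph_conn`), `A = B = Arm n`, `arm_tc`.
`wA_anti`: `arm_up` for `E = WE m n' \ WSp m n'`, `F = WSp m n'`, `Arm n' → Arm n`.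
`wA_pos`: all edges of the ray `0` are open with positive probability (`P_insert_set` from the event `True`; or `P_fkg_fin` and
finite energy).
`farm_up`: the same in a half-plane patch `f`: `localize_le` with `I v = (v ∈ (rect 0 (n-1) (-n+1) (n-1)).image f)`, `E'`, `F'` = image under
`f` of the half-plane box `rect 0 n (-n) n` and of the part of its boundary with `|b| = n` or `a = n`; then transport to
`WE 2 n` by `P_map` with `f' = ch 1` (`rect 0 n (-n) n` is mapped onto the vertices of `WE 2 n`, `edgesIn` onto `WE 2 n`, `nm (ch 1 (a, b)) = max a |b|`,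
the boundary part onto `WSp 2 n`). It may be convenient to compare directly: `localize_le` to the planar measure via
`P_map` twice. -/

namespace Pool.Agent.FKR

open Finset
open Pool.Agent.H95.Perc (Inc conn link rect hor ver eh ev mem_rect)
open Pool.Agent.H95.SumRule (edgesIn Z2)
open Pool.Agent.H95.Wedge (Vtx pt verts edges)

variable {q : ℝ}

theorem inc_Arm (n : ℕ) : Inc (Arm n) := by
  rintro ω ω' hs ⟨v, hv, hc⟩
  exact ⟨v, hv, hc.mono hs⟩

theorem inc_FArm (f : ℤ × ℤ → Vtx) (n : ℕ) : Inc (FArm f n) := by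
  rintro ω ω' hs ⟨v, hv, hc⟩
  exact ⟨v, hv, hc.mono hs⟩

theorem arm_tc {n : ℕ} (hn : 1 ≤ n) {ω : Finset (Sym2 Vtx)} :
    Arm n ω ↔ Arm n (tc (fun v => nm v < n) ω) := by
  have h0 : nm tip < n := by rw [nm_tip]; omega
  have h := Cn_tc_iff (ω := ω) (u := tip) (S := fun v => nm v < n) h0
  simp only [not_lt] at h
  exact h

private theorem au_WSp_mem {m n : ℕ} {e : Sym2 Vtx} : e ∈ WSp m n ↔ e ∈ WE m n ∧ ∀ v ∈ e, nm v = n := by
  unfold WSp
  exact mem_ins'

private theorem au_WSp_sub (m n : ℕ) : WSp m n ⊆ WE m n := ins_subset _ _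

private theorem au_vts_nm {m n : ℕ} {v : Vtx} (hv : v ∈ vts (WE m n)) : nm v ≤ n := by
  obtain ⟨e, he, hve⟩ := mem_vts.1 hv
  obtain ⟨w, rfl⟩ := Sym2.mem_iff_exists.1 hve
  exact (WE_nm he).2

theorem arm_up (hq : 1 ≤ q) {m n N : ℕ} (hn : 1 ≤ n) {E F : Finset (Sym2 Vtx)} (hE : E ⊆ WE m N)
    (hF : F ⊆ WE m N) (hF' : ∀ e ∈ F, ∀ v ∈ e, n ≤ nm v) : P q E F (Arm n) ≤ wA q m n := by
  unfold wA
  refine localize_le hq ((WE_NL m N).mono hE) ((WE_NL m N).mono hF) ((WE_NL m n).mono sdiff_subset)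
    ((WE_NL m n).mono (au_WSp_sub m n)) (I := fun v => nm v < n) ?_ ?_ ?_ (inc_Arm n) (inc_Arm n) ?_
  · rintro e he ⟨v, hve, hv⟩
    obtain ⟨w, rfl⟩ := Sym2.mem_iff_exists.1 hve
    have hw := (WE_nm (hE he)).1
    rw [mem_sdiff]
    refine ⟨WE_restrict (hE he) ?_, ?_⟩
    · intro x hx
      rw [Sym2.mem_iff] at hx
      rcases hx with rfl | rfl
      · exact hv.le
      · omega
    · intro h
      have := (au_WSp_mem.1 h).2 v hve
      omega
  · intro e he v hv h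
    have := hF' e he v hv
    omega
  · intro u hu v hv hu' hv'
    have hu2 := vts_mono sdiff_subset hu
    have hv2 := vts_mono sdiff_subset hv
    have hu3 := au_vts_nm hu2
    have hv3 := au_vts_nm hv2
    exact sph_conn hn hu2 hv2 (by omega) (by omega)
  · intro ω _ h
    exact inc_Arm n _ _ subset_union_left ((arm_tc hn).1 h)

theorem wA_anti (hq : 1 ≤ q) {m n n' : ℕ} (hn : 1 ≤ n) (h : n ≤ n') : wA q m n' ≤ wA q m n := by
  have hq0 : 0 < q := by linarith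
  refine le_trans ?_ (arm_up (q := q) (m := m) (N := n') (E := WE m n' \ WSp m n') (F := WSp m n') hq hn
    sdiff_subset (au_WSp_sub m n') ?_)
  · unfold wA
    refine P_mono hq0 ?_
    rintro ζ _ ⟨v, hv, hc⟩
    exact ⟨v, h.trans hv, hc⟩
  · intro e he v hv
    rw [(au_WSp_mem.1 he).2 v hv]
    exact h

theorem wA_le_one (hq : 1 ≤ q) (m n : ℕ) : wA q m n ≤ 1 :=
  P_le_one (by linarith) _ _ _

theorem wA_pos (hq : 1 ≤ q) {m : ℕ} (hm : 1 ≤ m) (n : ℕ) : 0 < wA q m n := by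
  have hq0 : 0 < q := by linarith
  have hs : 0 ≤ √q := Real.sqrt_nonneg q
  -- the edges of the ray `0`
  set S : Finset (Sym2 Vtx) := (range n).image fun x : ℕ =>
    s(ch 0 ((x : ℤ), 0), ch 0 (((x + 1 : ℕ) : ℤ), 0)) with hS
  have hSW : S ⊆ WE m n := by
    intro e he
    rw [hS, mem_image] at he
    obtain ⟨x, hx, rfl⟩ := he
    rw [mem_range] at hx
    refine WE_intro hm le_rfl (by omega) ?_ ?_ ?_ ?_ ?_
    · rw [Z2_adj_iff]
      exact Or.inr ⟨rfl, Or.inr (by push_cast; ring)⟩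
    · rw [mem_rect]; dsimp only; omega
    · rw [mem_rect]; dsimp only; omega
    · intro _; exact ⟨le_rfl, le_rfl⟩
    · intro h; omega
  have hU : WE m n \ WSp m n ∪ WSp m n = WE m n := sdiff_union_of_subset (au_WSp_sub m n)
  have key : ∀ ω : Finset (Sym2 Vtx), ∀ k ≤ n, Cn (ω ∪ S) tip (ch 0 ((k : ℤ), 0)) := by
    intro ω k
    induction k with
    | zero =>
      intro _
      have := ch_zero 0
      simp only [Nat.cast_zero]
      rw [this]
      exact Cn_refl _ _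
    | succ k ih =>
      intro hk
      refine (ih (by omega)).trans (Cn_edge (mem_union_right _ ?_))
      rw [hS, mem_image]
      exact ⟨k, mem_range.2 (by omega), rfl⟩
  have h1 := P_insert_set (q := q) (E := WE m n \ WSp m n) (F := WSp m n) (S := S) hq
    ((WE_NL m n).mono sdiff_subset) ((WE_NL m n).mono (au_WSp_sub m n)) (by rw [hU]; exact hSW)
    (A := fun _ => True) (B := Arm n) (by
      intro ω _
      refine ⟨ch 0 ((n : ℤ), 0), ?_, key ω n le_rfl⟩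
      have := nm_ch 0 (p := ((n : ℤ), 0)) (by dsimp only; omega)
      simp only [abs_zero] at this
      have h2 : max (n : ℤ) 0 = n := max_eq_left (by omega)
      rw [h2] at this
      exact_mod_cast this.ge)
  rw [P_true hq0] at h1
  unfold wA
  by_contra hneg
  have h2 : P q (WE m n \ WSp m n) (WSp m n) (Arm n) = 0 :=
    le_antisymm (not_lt.1 hneg) (P_nonneg hq0 _ _ _)
  rw [h2, mul_zero] at h1
  linarith

/-! ### half-plane patches -/

/-- the half-plane box -/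
private noncomputable def RR (n : ℕ) : Finset (ℤ × ℤ) := rect 0 n (-n) n

/-- its boundary -/
private noncomputable def bR (n : ℕ) : Finset (Sym2 (ℤ × ℤ)) :=
  ins (fun p : ℤ × ℤ => max p.1 |p.2| = n) (edgesIn (RR n))

private theorem mem_RR {n : ℕ} {p : ℤ × ℤ} : p ∈ RR n ↔ 0 ≤ p.1 ∧ p.1 ≤ n ∧ -n ≤ p.2 ∧ p.2 ≤ n := by
  unfold RR
  rw [mem_rect]

private theorem mem_inner {n : ℕ} {p : ℤ × ℤ} (hp : p ∈ RR n) :
    p ∈ rect 0 (n - 1) (-n + 1) (n - 1) ↔ max p.1 |p.2| < n := by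
  rw [mem_RR] at hp
  rw [mem_rect, max_lt_iff, abs_lt]
  omega

private theorem inner_sub {n : ℕ} {p : ℤ × ℤ} (hp : p ∈ rect 0 ((n : ℤ) - 1) (-n + 1) (n - 1)) : p ∈ RR n := by
  rw [mem_rect] at hp
  rw [mem_RR]
  omega

private theorem max_le_RR {n : ℕ} {p : ℤ × ℤ} (hp : p ∈ RR n) : max p.1 |p.2| ≤ n := by
  rw [mem_RR] at hp
  rw [max_le_iff, abs_le]
  omega

private theorem chR_inj (n : ℕ) : Set.InjOn (ch 1) (RR n : Set (ℤ × ℤ)) :=
  (ch_inj 1).mono (fun p hp => by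
    have := mem_RR.1 (mem_coe.1 hp)
    exact this.1)

private theorem chR_nm {n : ℕ} {p : ℤ × ℤ} (hp : p ∈ RR n) : (nm (ch 1 p) : ℤ) = max p.1 |p.2| :=
  nm_ch 1 (mem_RR.1 hp).1

private theorem mem_eR {n : ℕ} {p p' : ℤ × ℤ} :
    s(p, p') ∈ edgesIn (RR n) ↔ p ∈ RR n ∧ p' ∈ RR n ∧ Z2.Adj p p' :=
  Pool.Agent.H95.Perc.mem_edgesIn'

private theorem eR_vts {n : ℕ} {e : Sym2 (ℤ × ℤ)} (he : e ∈ edgesIn (RR n)) {p : ℤ × ℤ} (hp : p ∈ e) :
    p ∈ RR n := vts_edgesIn _ (mem_vts.2 ⟨e, he, hp⟩)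

private theorem img_WE (n : ℕ) : img (ch 1) (edgesIn (RR n)) = WE 2 n := by
  apply Subset.antisymm
  · intro e he
    unfold img at he
    rw [mem_image] at he
    obtain ⟨e', he', rfl⟩ := he
    induction e' with
    | _ p p' =>
      rw [mem_eR] at he'
      rw [Sym2.map_mk]
      refine WE_intro (by omega) (by omega) (by norm_num) he'.2.2 he'.1 he'.2.1 ?_ ?_
      · intro h; omega
      · intro h; norm_num at h
  · intro e he
    have hNL := WE_NL 2 n e he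
    -- a vertex different from the tip
    have hex : ∃ u ∈ e, u ≠ tip := by
      induction e with
      | _ u v =>
        rw [Sym2.mk_isDiag_iff] at hNL
        by_cases hu : u = tip
        · exact ⟨v, Sym2.mem_mk_right _ _, fun hv => hNL (hu.trans hv.symm)⟩
        · exact ⟨u, Sym2.mem_mk_left _ _, hu⟩
    obtain ⟨u, hue, hu⟩ := hex
    obtain ⟨j, hj0, hj2, y, hy, huj, h0, h2⟩ := WE_chart (mem_vts.2 ⟨e, he, hue⟩) hu
    have hnm : 1 ≤ (nm u : ℤ) := by
      by_contra hlt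
      have h3 : nm u = 0 := by omega
      have h4 : y = 0 := by
        rw [h3] at hy
        simpa using hy
      rw [h3, h4] at huj
      have := ch_zero j
      simp only [Nat.cast_zero] at huj
      rw [this] at huj
      exact hu huj
    have hue' : ch j ((nm u : ℤ), y) ∈ e := by rw [← huj]; exact hue
    obtain ⟨p', hadj, hp'0, hee, hn1, hn2, ha0, ha2⟩ := WE_elim he (p := ((nm u : ℤ), y)) hnm hue'
    have hp0 : 0 ≤ ((nm u : ℤ), y).1 := by dsimp only; omega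
    generalize ((nm u : ℤ), y) = p at hadj hee hn1 hn2 ha0 ha2 hp0
    have m1 := nm_ch j hp0
    have m2 := nm_ch j hp'0
    have hj : j = 0 ∨ j = 1 ∨ j = 2 := by
      have : (j : ℤ) ≤ 2 := by exact_mod_cast hj2
      omega
    -- the edge in the chart `1`
    have key : ∃ a a' : ℤ × ℤ, e = s(ch 1 a, ch 1 a') ∧ Z2.Adj a a' ∧ 0 ≤ a.1 ∧ 0 ≤ a'.1 := by
      obtain ⟨a, b⟩ := p
      obtain ⟨a', b'⟩ := p'
      rw [Z2_adj_iff] at hadj
      dsimp only at hp0 hp'0 ha0 ha2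
      rcases hj with rfl | rfl | rfl
      · obtain ⟨hb, hb'⟩ := ha0 rfl
        refine ⟨(b, -a), (b', -a'), ?_, ?_, hb, hb'⟩
        · rw [hee, ch_succ 0 hp0 hb, ch_succ 0 hp'0 hb', zero_add]
        · rw [Z2_adj_iff]; omega
      · refine ⟨(a, b), (a', b'), hee, ?_, hp0, hp'0⟩
        rw [Z2_adj_iff]; exact hadj
      · obtain ⟨hb, hb'⟩ := ha2 (by norm_num)
        refine ⟨(-b, a), (-b', a'), ?_, ?_, by dsimp only; omega, by dsimp only; omega⟩
        · have e1 := ch_succ 1 (x := -b) (y := a) (by omega) hp0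
          have e2 := ch_succ 1 (x := -b') (y := a') (by omega) hp'0
          rw [neg_neg] at e1 e2
          rw [hee, e1, e2]
          norm_num
        · rw [Z2_adj_iff]; omega
    obtain ⟨a, a', hea, haadj, ha, ha'⟩ := key
    rw [hea]
    apply mem_img_of_mem
    have hmem : ∀ b : ℤ × ℤ, 0 ≤ b.1 → ch 1 b ∈ e → b ∈ RR n := by
      intro b hb hbe
      have h3 := au_vts_nm (mem_vts.2 ⟨e, he, hbe⟩)
      have h4 := nm_ch 1 hb
      have h5 : max b.1 |b.2| ≤ n := by rw [← h4]; exact_mod_cast h3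
      rw [max_le_iff, abs_le] at h5
      rw [mem_RR]
      exact ⟨hb, h5.1, h5.2.1, h5.2.2⟩
    rw [mem_eR]
    exact ⟨hmem a ha (by rw [hea]; exact Sym2.mem_mk_left _ _),
      hmem a' ha' (by rw [hea]; exact Sym2.mem_mk_right _ _), haadj⟩

private theorem bR_sub (n : ℕ) : bR n ⊆ edgesIn (RR n) := ins_subset _ _

private theorem img_WSp (n : ℕ) : img (ch 1) (bR n) = WSp 2 n := by
  ext e
  rw [au_WSp_mem]
  constructor
  · intro he
    have he1 := image_subset_image (bR_sub n) he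
    refine ⟨by rw [← img_WE]; exact he1, ?_⟩
    intro v hv
    unfold img at he
    rw [mem_image] at he
    obtain ⟨e', he', rfl⟩ := he
    rw [Sym2.mem_map] at hv
    obtain ⟨p, hp, rfl⟩ := hv
    have h1 := (mem_ins'.1 he').2 p hp
    have h2 := chR_nm (eR_vts (bR_sub n he') hp)
    rw [h1] at h2
    exact_mod_cast h2
  · rintro ⟨he, hv⟩
    rw [← img_WE] at he
    unfold img at he ⊢
    rw [mem_image] at he ⊢
    obtain ⟨e', he', rfl⟩ := he
    refine ⟨e', ?_, rfl⟩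
    unfold bR
    rw [mem_ins']
    refine ⟨he', fun p hp => ?_⟩
    rw [← chR_nm (eR_vts he' hp)]
    exact_mod_cast hv (ch 1 p) (Sym2.mem_map.2 ⟨p, hp, rfl⟩)

private theorem img_diff {f : ℤ × ℤ → Vtx} {n : ℕ} (hf : Set.InjOn f (RR n : Set (ℤ × ℤ))) :
    img f (edgesIn (RR n) \ bR n) = img f (edgesIn (RR n)) \ img f (bR n) := by
  have hmi := map_injOn (D := edgesIn (RR n)) (hf.mono (coe_subset.mpr (vts_edgesIn _)))
  unfold img
  ext e
  simp only [mem_image, mem_sdiff]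
  constructor
  · rintro ⟨e', ⟨h1, h2⟩, rfl⟩
    refine ⟨⟨e', h1, rfl⟩, ?_⟩
    rintro ⟨e2, h3, h4⟩
    rw [hmi (mem_coe.mpr (bR_sub n h3)) (mem_coe.mpr h1) h4] at h3
    exact h2 h3
  · rintro ⟨⟨e', h1, rfl⟩, h2⟩
    exact ⟨e', ⟨h1, fun h3 => h2 ⟨e', h3, rfl⟩⟩, rfl⟩

private theorem NL_eR (n : ℕ) : NL (edgesIn (RR n)) := NL_edgesIn _

private theorem injOn_vts {f : ℤ × ℤ → Vtx} {n : ℕ} (hf : Set.InjOn f (RR n : Set (ℤ × ℤ)))
    {κ : Finset (Sym2 (ℤ × ℤ))} (hκ : κ ⊆ edgesIn (RR n)) : Set.InjOn f (vts κ : Set (ℤ × ℤ)) :=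
  hf.mono (coe_subset.mpr ((vts_mono hκ).trans (vts_edgesIn _)))

/-- the wired arm probability of the half plane in planar terms -/
private theorem wA_planar (hq : 0 < q) (n : ℕ) :
    wA q 2 n = P q (edgesIn (RR n) \ bR n) (bR n) (fun ω => Arm n (img (ch 1) ω)) := by
  unfold wA
  rw [← img_WE, ← img_WSp, ← img_diff (chR_inj n)]
  exact P_map hq ((NL_eR n).mono sdiff_subset) ((NL_eR n).mono (bR_sub n))
    (injOn_vts (chR_inj n) (union_subset sdiff_subset (bR_sub n))) _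

private theorem bR_conn {n : ℕ} (hn : 1 ≤ n) {p p' : ℤ × ℤ} (hp : p ∈ vts (edgesIn (RR n)))
    (hp' : p' ∈ vts (edgesIn (RR n))) (h : max p.1 |p.2| = n) (h' : max p'.1 |p'.2| = n) :
    Cn (bR n) p p' := by
  have k1 := vts_edgesIn _ hp
  have k2 := vts_edgesIn _ hp'
  have h1 : Cn (WSp 2 n) (ch 1 p) (ch 1 p') := by
    refine sph_conn hn ?_ ?_ ?_ ?_
    · rw [← img_WE, vts_img]; exact mem_image_of_mem _ hp
    · rw [← img_WE, vts_img]; exact mem_image_of_mem _ hp'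
    · have := chR_nm k1
      rw [h] at this
      exact_mod_cast this
    · have := chR_nm k2
      rw [h'] at this
      exact_mod_cast this
  rw [← img_WSp] at h1
  exact (Cn_img_iff (chR_inj n) (coe_subset.mpr ((vts_mono (bR_sub n)).trans (vts_edgesIn _)))
    (mem_coe.mpr k1) (mem_coe.mpr k2)).1 h1

theorem farm_up (hq : 1 ≤ q) {n : ℕ} (hn : 1 ≤ n) {f : ℤ × ℤ → Vtx} {E F : Finset (Sym2 Vtx)} (hE : NL E)
    (hF : NL F) (h : FlatLoc f n E)
    (hF' : ∀ e ∈ F, ∀ p ∈ rect 0 (n - 1) (-n + 1) (n - 1), f p ∉ e) : P q E F (FArm f n) ≤ wA q 2 n := by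
  have hq0 : 0 < q := by linarith
  have hf : Set.InjOn f (RR n : Set (ℤ × ℤ)) := h.inj
  have hU : edgesIn (RR n) \ bR n ∪ bR n ⊆ edgesIn (RR n) := union_subset sdiff_subset (bR_sub n)
  have h00 : ((0 : ℤ), (0 : ℤ)) ∈ rect 0 ((n : ℤ) - 1) (-n + 1) (n - 1) := by
    rw [mem_rect]; dsimp only; omega
  -- the comparison with the wired patch
  have step1 : P q E F (FArm f n) ≤ P q (img f (edgesIn (RR n) \ bR n)) (img f (bR n)) (FArm f n) := by
    refine localize_le hq hE hF (NL_img (injOn_vts hf sdiff_subset) ((NL_eR n).mono sdiff_subset))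
      (NL_img (injOn_vts hf (bR_sub n)) ((NL_eR n).mono (bR_sub n)))
      (I := fun v => v ∈ (rect 0 ((n : ℤ) - 1) (-n + 1) (n - 1)).image f) ?_ ?_ ?_ (inc_FArm f n)
      (inc_FArm f n) ?_
    · rintro e he ⟨v, hve, hv⟩
      obtain ⟨p, hp, rfl⟩ := mem_image.1 hv
      have h1 : e ∈ img f (edgesIn (RR n)) := h.loc e he p hp hve
      unfold img at h1 ⊢
      rw [mem_image] at h1 ⊢
      obtain ⟨e', he', rfl⟩ := h1
      refine ⟨e', mem_sdiff.2 ⟨he', fun hb => ?_⟩, rfl⟩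
      rw [Sym2.mem_map] at hve
      obtain ⟨p', hp', hpp⟩ := hve
      have h2 : p' = p := hf (mem_coe.mpr (eR_vts he' hp')) (mem_coe.mpr (inner_sub hp)) hpp
      subst h2
      have h3 := (mem_ins'.1 hb).2 p' hp'
      have h4 := (mem_inner (inner_sub hp)).1 hp
      omega
    · intro e he v hve hv
      obtain ⟨p, hp, rfl⟩ := mem_image.1 hv
      exact hF' e he p hp hve
    · intro u hu v hv hu' hv'
      rw [vts_img, mem_image] at hu hv
      obtain ⟨a, ha, rfl⟩ := hu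
      obtain ⟨b, hb, rfl⟩ := hv
      have ha1 := vts_mono sdiff_subset ha
      have hb1 := vts_mono sdiff_subset hb
      have out : ∀ a : ℤ × ℤ, a ∈ vts (edgesIn (RR n)) →
          f a ∉ (rect 0 ((n : ℤ) - 1) (-n + 1) (n - 1)).image f → max a.1 |a.2| = n := by
        intro a ha hna
        have h5 := vts_edgesIn _ ha
        refine le_antisymm (max_le_RR h5) (not_lt.1 fun hlt => hna ?_)
        exact mem_image_of_mem _ ((mem_inner h5).2 hlt)
      exact Cn_img (bR_conn hn ha1 hb1 (out a ha1 hu') (out b hb1 hv'))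
    · rintro ω _ ⟨v, hv, hc⟩
      obtain ⟨v', hv', h1⟩ := (Cn_tc_iff (S := fun v => v ∈ (rect 0 ((n : ℤ) - 1) (-n + 1) (n - 1)).image f)
        (mem_image_of_mem f h00)).1 ⟨v, hv, hc⟩
      exact ⟨v', hv', h1.mono subset_union_left⟩
  refine step1.trans ?_
  rw [wA_planar hq0, P_map hq0 ((NL_eR n).mono sdiff_subset) ((NL_eR n).mono (bR_sub n))
    (injOn_vts hf hU)]
  refine P_mono hq0 ?_
  rintro ζ hζ ⟨v, hv, hc⟩
  have hω : ζ ∪ bR n ⊆ edgesIn (RR n) := (union_subset_union hζ (Subset.refl _)).trans hU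
  have hvs : (vts (ζ ∪ bR n) : Set (ℤ × ℤ)) ⊆ (RR n : Set (ℤ × ℤ)) :=
    coe_subset.mpr ((vts_mono hω).trans (vts_edgesIn _))
  have hne : f (0, 0) ≠ v := by
    rintro rfl
    exact hv (mem_image_of_mem f h00)
  have h1 := (hc.mem_vts hne).2
  rw [vts_img, mem_image] at h1
  obtain ⟨p, hp, rfl⟩ := h1
  have hpR := mem_coe.1 (hvs (mem_coe.2 hp))
  have h2 : Cn (ζ ∪ bR n) (0, 0) p :=
    (Cn_img_iff hf hvs (mem_coe.mpr (inner_sub h00)) (mem_coe.mpr hpR)).1 hc
  refine ⟨ch 1 p, ?_, ?_⟩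
  · have h3 : ¬ max p.1 |p.2| < n := fun hlt => hv (mem_image_of_mem f ((mem_inner hpR).2 hlt))
    have h4 := chR_nm hpR
    omega
  · rw [← ch_zero 1]
    exact Cn_img h2

/-- lower bounds for half-plane patches: `P_map`, `P_mono_EF`, `WE 2 n = img (ch 1) (edgesIn (rect 0 n (-n) n))` -/
theorem flat_low (hq : 1 ≤ q) {n : ℕ} {f : ℤ × ℤ → Vtx} {E : Finset (Sym2 Vtx)} (hE : NL E)
    (h : FlatSub f n E) {x y r : ℤ} (hr : 0 ≤ r) (hx : r ≤ x) (hx' : x + r ≤ n) (hy : r ≤ y) (hy' : y + r ≤ n) :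
    P q (WE 2 n) ∅ (Hit (ch 0) tip x y r) ≤ P q E ∅ (Hit f (f (0, 0)) y (-x) r) := by
  have hq0 : 0 < q := by linarith
  have hf : Set.InjOn f (RR n : Set (ℤ × ℤ)) := h.inj
  have h0 : NL (∅ : Finset (Sym2 (ℤ × ℤ))) := fun e he => absurd he (notMem_empty e)
  have h0' : NL (∅ : Finset (Sym2 Vtx)) := fun e he => absurd he (notMem_empty e)
  have he0 : ∀ g : ℤ × ℤ → Vtx, img g (∅ : Finset (Sym2 (ℤ × ℤ))) = ∅ := by
    intro g; unfold img; exact image_empty _
  have hS : edgesIn (RR n) ∪ ∅ ⊆ edgesIn (RR n) := by rw [union_empty]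
  have s1 : P q (WE 2 n) ∅ (Hit (ch 0) tip x y r) =
      P q (edgesIn (RR n)) ∅ (fun ω => Hit (ch 0) tip x y r (img (ch 1) ω)) := by
    rw [← img_WE, ← he0 (ch 1)]
    exact P_map hq0 (NL_eR n) h0 (injOn_vts (chR_inj n) hS) _
  have s2 : P q (img f (edgesIn (RR n))) ∅ (Hit f (f (0, 0)) y (-x) r) =
      P q (edgesIn (RR n)) ∅ (fun ω => Hit f (f (0, 0)) y (-x) r (img f ω)) := by
    rw [← he0 f]
    exact P_map hq0 (NL_eR n) h0 (injOn_vts hf hS) _
  have s3 : P q (img f (edgesIn (RR n))) ∅ (Hit f (f (0, 0)) y (-x) r) ≤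
      P q E ∅ (Hit f (f (0, 0)) y (-x) r) := by
    refine P_mono_EF hq hE h0' ?_ (Subset.refl _) ?_
    · rw [union_empty]; exact h.sub
    · rintro ω ω' hs ⟨p, hp, hc⟩
      exact ⟨p, hp, hc.mono hs⟩
  rw [s1]
  refine le_trans ?_ s3
  rw [s2]
  refine P_mono hq0 ?_
  rintro ζ hζ ⟨p, hp, hc⟩
  have hω : ζ ∪ ∅ ⊆ edgesIn (RR n) := by rw [union_empty]; exact hζ
  have hvs : (vts (ζ ∪ ∅) : Set (ℤ × ℤ)) ⊆ (RR n : Set (ℤ × ℤ)) :=
    coe_subset.mpr ((vts_mono hω).trans (vts_edgesIn _))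
  obtain ⟨a, b⟩ := p
  unfold bxx at hp
  rw [mem_rect] at hp
  dsimp only at hp
  have e1 : ch 0 (a, b) = ch 1 (b, -a) := by
    have := ch_succ 0 (x := a) (y := b) (by omega) (by omega)
    rwa [zero_add] at this
  rw [e1, ← ch_zero 1] at hc
  have m0 : ((0 : ℤ), (0 : ℤ)) ∈ RR n := by rw [mem_RR]; dsimp only; omega
  have m1 : ((b : ℤ), (-a : ℤ)) ∈ RR n := by rw [mem_RR]; dsimp only; omega
  have h2 : Cn (ζ ∪ ∅) (0, 0) (b, -a) :=
    (Cn_img_iff (chR_inj n) hvs (mem_coe.mpr m0) (mem_coe.mpr m1)).1 hc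
  refine ⟨(b, -a), ?_, Cn_img h2⟩
  unfold bxx
  rw [mem_rect]
  dsimp only
  omega

end Pool.Agent.FKR
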