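import Pool.Agent.FKR.Defs

/-! # FKR/Basic (MP_b3e76a_pr): elementary facts about `P q E F A`

Everything here is bookkeeping around `H95/Susc/Fkg` (`fil`, `mem_fil`, `ws`, `ws_congr`, `ws_nonneg`)
and `H95/Wedge/FK` (`openGraph_adj`, `openGraph_mono`, `reach_insert`, `W_pos`,
`W_insert_of_reach`, `W_insert_of_not_reach`, `W_change`, `PP`, `PP_eq`, `PP_eq_of_subset`).

* `P_eq_V`: the vertex set used in the weight does not matter (`W_change`, applied to the good edge
  set `E ∪ F`, gives `W q V ω * W q (vts (E ∪ F)) ∅ = W q (vts (E ∪ F)) ω * W q V ∅`).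
* `P_free`: for `F = ∅` this is `PP` of the file `H95/Wedge/FK`.
* `P_sdiff`: edges that are both active and frozen may be removed from the active ones: the map
  `ζ ↦ ζ \ F` is `2 ^ #(E ∩ F)` to one. (E.g. by induction on `E ∩ F`, or `sum_comp`/`sum_fiberwise`
  over the powerset, `powerset_insert`.)
-/

namespace Pool.Agent.FKR

open Finset
open Pool.Agent.H95.Wedge (openGraph W Good selfDual)
open Pool.Agent.H95.Susc (fil ws Lat)
open Pool.Agent.H95.Perc (Inc)

section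
variable {α : Type*} [DecidableEq α] {q : ℝ} {E F : Finset (Sym2 α)}

theorem mem_vts {v : α} : v ∈ vts E ↔ ∃ e ∈ E, v ∈ e := by
  unfold vts
  simp [Sym2.mem_toFinset]

theorem vts_mono {E E' : Finset (Sym2 α)} (h : E ⊆ E') : vts E ⊆ vts E' := by
  intro v hv
  obtain ⟨e, he, hve⟩ := mem_vts.1 hv
  exact mem_vts.2 ⟨e, h he, hve⟩

theorem vts_union {E E' : Finset (Sym2 α)} : vts (E ∪ E') = vts E ∪ vts E' := by
  ext v
  rw [mem_union, mem_vts, mem_vts, mem_vts]
  constructor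
  · rintro ⟨e, he, hv⟩
    rcases mem_union.1 he with h | h
    · exact Or.inl ⟨e, h, hv⟩
    · exact Or.inr ⟨e, h, hv⟩
  · rintro (⟨e, he, hv⟩ | ⟨e, he, hv⟩)
    · exact ⟨e, mem_union_left _ he, hv⟩
    · exact ⟨e, mem_union_right _ he, hv⟩

theorem NL.mono {E E' : Finset (Sym2 α)} (h : NL E') (hE : E ⊆ E') : NL E :=
  fun e he => h e (hE he)

theorem NL.union (h : NL E) (h' : NL F) : NL (E ∪ F) := by
  intro e he
  rcases mem_union.1 he with h1 | h1
  · exact h e h1
  · exact h' e h1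

theorem good_of_NL {V : Finset α} (h : NL E) (hV : vts E ⊆ V) : Good V E := by
  intro x y hxy
  refine ⟨hV (mem_vts.2 ⟨_, hxy, by simp⟩), hV (mem_vts.2 ⟨_, hxy, by simp⟩), ?_⟩
  intro he
  apply h _ hxy
  rw [he]; simp

theorem Cn_refl (ω : Finset (Sym2 α)) (u : α) : Cn ω u u :=
  SimpleGraph.Reachable.refl _

theorem Cn.symm {ω : Finset (Sym2 α)} {u v : α} (h : Cn ω u v) : Cn ω v u :=
  SimpleGraph.Reachable.symm h

theorem Cn.trans {ω : Finset (Sym2 α)} {u v w : α} (h : Cn ω u v) (h' : Cn ω v w) : Cn ω u w :=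
  SimpleGraph.Reachable.trans h h'

theorem Cn.mono {ω ω' : Finset (Sym2 α)} {u v : α} (h : Cn ω u v) (hs : ω ⊆ ω') : Cn ω' u v :=
  SimpleGraph.Reachable.mono (Pool.Agent.H95.Wedge.openGraph_mono hs) h

theorem Cn_edge {ω : Finset (Sym2 α)} {u v : α} (h : s(u, v) ∈ ω) : Cn ω u v := by
  by_cases huv : u = v
  · rw [huv]; exact Cn_refl _ _
  · exact SimpleGraph.Adj.reachable (Pool.Agent.H95.Wedge.openGraph_adj.mpr ⟨h, huv⟩)

theorem inc_Cn (u v : α) : Inc (fun ω : Finset (Sym2 α) => Cn ω u v) :=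
  fun _ _ hs h => Cn.mono h hs

/-- distinct connected vertices are endpoints of edges -/
theorem Cn.mem_vts {ω : Finset (Sym2 α)} {u v : α} (h : Cn ω u v) (huv : u ≠ v) :
    u ∈ vts ω ∧ v ∈ vts ω := by
  have key : ∀ {a b : α}, Cn ω a b → a ≠ b → a ∈ vts ω := by
    intro a b hab hne
    obtain ⟨p⟩ := hab
    cases p with
    | nil => exact absurd rfl hne
    | cons hadj _ =>
      rw [Pool.Agent.H95.Wedge.openGraph_adj] at hadj
      exact Pool.Agent.FKR.mem_vts.2 ⟨_, hadj.1, by simp⟩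
  exact ⟨key h huv, key h.symm huv.symm⟩

/-- induction along a connection: a set closed under open edges -/
theorem Cn.closed {ω : Finset (Sym2 α)} {u v : α} (h : Cn ω u v) {S : α → Prop} (hu : S u)
    (hS : ∀ x y, S x → s(x, y) ∈ ω → S y) : S v := by
  obtain ⟨p⟩ := h
  induction p with
  | nil => exact hu
  | cons hadj _ ih =>
    rw [Pool.Agent.H95.Wedge.openGraph_adj] at hadj
    exact ih (hS _ _ hu hadj.1)

theorem Cn_insert {ω : Finset (Sym2 α)} {x y u v : α} :
    Cn (insert s(x, y) ω) u v ↔ Cn ω u v ∨ (Cn ω u x ∧ Cn ω y v) ∨ (Cn ω u y ∧ Cn ω x v) := by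
  by_cases hxy : x = y
  · subst hxy
    have hgr : openGraph (insert s(x, x) ω) = openGraph ω := by
      ext a b
      rw [Pool.Agent.H95.Wedge.openGraph_adj, Pool.Agent.H95.Wedge.openGraph_adj, mem_insert]
      constructor
      · rintro ⟨h1 | h1, hne⟩
        · rw [Sym2.eq_iff] at h1
          exfalso
          rcases h1 with ⟨rfl, rfl⟩ | ⟨rfl, rfl⟩ <;> exact hne rfl
        · exact ⟨h1, hne⟩
      · rintro ⟨h1, hne⟩
        exact ⟨Or.inr h1, hne⟩
    unfold Cn
    rw [hgr]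
    constructor
    · exact Or.inl
    · rintro (h | h | h)
      · exact h
      · exact h.1.trans h.2
      · exact h.1.trans h.2
  · exact Pool.Agent.H95.Wedge.reach_insert hxy

theorem wt_pos (hq : 0 < q) (E F ζ : Finset (Sym2 α)) : 0 < wt q E F ζ :=
  Pool.Agent.H95.Wedge.W_pos hq _ _

/-- the partition function is positive -/
theorem ws_wt_true_pos (hq : 0 < q) (E F : Finset (Sym2 α)) :
    0 < ws (wt q E F) E (fun _ => True) := by
  unfold ws
  exact sum_pos (fun ω _ => wt_pos hq E F ω) ⟨∅, by rw [Pool.Agent.H95.Susc.mem_fil]; simp⟩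

theorem P_nonneg (hq : 0 < q) (E F : Finset (Sym2 α)) (A : Finset (Sym2 α) → Prop) :
    0 ≤ P q E F A := by
  unfold P
  exact div_nonneg (Pool.Agent.H95.Susc.ws_nonneg (fun ω => (wt_pos hq E F ω).le) _ _)
    (ws_wt_true_pos hq _ _).le

theorem P_mono (hq : 0 < q) {A B : Finset (Sym2 α) → Prop}
    (h : ∀ ζ ⊆ E, A (ζ ∪ F) → B (ζ ∪ F)) : P q E F A ≤ P q E F B := by
  unfold P
  apply div_le_div_of_nonneg_right _ (ws_wt_true_pos hq _ _).le
  unfold ws
  apply sum_le_sum_of_subset_of_nonneg _ (fun ω _ _ => (wt_pos hq E F ω).le)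
  intro ω hω
  rw [Pool.Agent.H95.Susc.mem_fil] at hω ⊢
  exact ⟨hω.1, h ω hω.1 hω.2⟩

theorem P_congr {A B : Finset (Sym2 α) → Prop}
    (h : ∀ ζ ⊆ E, A (ζ ∪ F) ↔ B (ζ ∪ F)) : P q E F A = P q E F B := by
  unfold P
  rw [Pool.Agent.H95.Susc.ws_congr h]

theorem P_true (hq : 0 < q) (E F : Finset (Sym2 α)) : P q E F (fun _ => True) = 1 := by
  unfold P
  exact div_self (ws_wt_true_pos hq _ _).ne'

theorem P_eq_one (hq : 0 < q) {A : Finset (Sym2 α) → Prop} (h : ∀ ζ ⊆ E, A (ζ ∪ F)) :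
    P q E F A = 1 := by
  rw [← P_true hq E F]
  exact P_congr (fun ζ hζ => ⟨fun _ => trivial, fun _ => h ζ hζ⟩)

theorem P_false (E F : Finset (Sym2 α)) : P q E F (fun _ => False) = 0 := by
  unfold P
  have h : ws (wt q E F) E (fun _ => False) = 0 := by
    unfold ws
    apply sum_eq_zero
    intro ω hω
    rw [Pool.Agent.H95.Susc.mem_fil] at hω
    exact hω.2.elim
  rw [h, zero_div]

theorem P_le_one (hq : 0 < q) (E F : Finset (Sym2 α)) (A : Finset (Sym2 α) → Prop) :
    P q E F A ≤ 1 := by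
  rw [← P_true hq E F]
  exact P_mono hq (fun _ _ _ => trivial)

theorem ws_split {β : Type*} [DecidableEq β] (w : Finset β → ℝ) (E : Finset β)
    (A B : Finset β → Prop) :
    ws w E A = ws w E (fun ω => A ω ∧ B ω) + ws w E (fun ω => A ω ∧ ¬ B ω) := by
  unfold ws
  rw [← sum_union]
  · congr 1
    ext ω
    rw [mem_union, Pool.Agent.H95.Susc.mem_fil, Pool.Agent.H95.Susc.mem_fil,
      Pool.Agent.H95.Susc.mem_fil]
    tauto
  · rw [disjoint_left]
    intro ω h1 h2
    rw [Pool.Agent.H95.Susc.mem_fil] at h1 h2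
    exact h2.2.2 h1.2.2

theorem P_split_aux (E F : Finset (Sym2 α)) (A B : Finset (Sym2 α) → Prop) :
    P q E F A = P q E F (fun ω => A ω ∧ B ω) + P q E F (fun ω => A ω ∧ ¬ B ω) := by
  unfold P
  rw [← add_div, ws_split _ E (fun ζ => A (ζ ∪ F)) (fun ζ => B (ζ ∪ F))]

theorem P_not (hq : 0 < q) (E F : Finset (Sym2 α)) (A : Finset (Sym2 α) → Prop) :
    P q E F (fun ω => ¬ A ω) = 1 - P q E F A := by
  have h := P_split_aux (q := q) E F (fun _ => True) A
  rw [P_true hq] at h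
  have h1 : P q E F (fun ω => True ∧ A ω) = P q E F A :=
    P_congr (fun _ _ => ⟨fun h => h.2, fun h => ⟨trivial, h⟩⟩)
  have h2 : P q E F (fun ω => True ∧ ¬ A ω) = P q E F (fun ω => ¬ A ω) :=
    P_congr (fun _ _ => ⟨fun h => h.2, fun h => ⟨trivial, h⟩⟩)
  rw [h1, h2] at h
  linarith

theorem P_split (hq : 0 < q) (E F : Finset (Sym2 α)) (A B : Finset (Sym2 α) → Prop) :
    P q E F A = P q E F (fun ω => A ω ∧ B ω) + P q E F (fun ω => A ω ∧ ¬ B ω) :=
  P_split_aux E F A B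

theorem P_or_le (hq : 0 < q) (E F : Finset (Sym2 α)) (A B : Finset (Sym2 α) → Prop) :
    P q E F (fun ω => A ω ∨ B ω) ≤ P q E F A + P q E F B := by
  rw [P_split_aux E F (fun ω => A ω ∨ B ω) A]
  apply add_le_add
  · exact P_mono hq (fun _ _ h => h.2)
  · exact P_mono hq (fun _ _ h => h.1.resolve_left h.2)

theorem P_exists_le {ι : Type*} (hq : 0 < q) (E F : Finset (Sym2 α)) (s : Finset ι)
    (A : ι → Finset (Sym2 α) → Prop) :
    P q E F (fun ω => ∃ i ∈ s, A i ω) ≤ ∑ i ∈ s, P q E F (A i) := by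
  classical
  induction s using Finset.induction_on with
  | empty =>
    rw [sum_empty, ← P_false (q := q) E F]
    apply P_mono hq
    rintro ζ _ ⟨i, hi, _⟩
    simp at hi
  | insert a s ha ih =>
    rw [sum_insert ha]
    refine le_trans ?_ (add_le_add (le_refl (P q E F (A a))) ih)
    refine le_trans ?_ (P_or_le hq E F (A a) (fun ω => ∃ i ∈ s, A i ω))
    apply P_mono hq
    rintro ζ _ ⟨i, hi, hA⟩
    rcases mem_insert.1 hi with rfl | hi
    · exact Or.inl hA
    · exact Or.inr ⟨i, hi, hA⟩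

/-- the vertex set in the weight does not matter -/
theorem P_eq_V (hq : 0 < q) {V : Finset α} (hE : NL E) (hF : NL F) (hV : vts (E ∪ F) ⊆ V)
    (A : Finset (Sym2 α) → Prop) :
    P q E F A = ws (fun ζ => W q V (ζ ∪ F)) E (fun ζ => A (ζ ∪ F)) /
      ws (fun ζ => W q V (ζ ∪ F)) E (fun _ => True) := by
  have key : ∀ B : Finset (Sym2 α) → Prop,
      ws (fun ζ => W q V (ζ ∪ F)) E B * W q (vts (E ∪ F)) ∅ =
        ws (wt q E F) E B * W q V ∅ := by
    intro B
    unfold ws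
    rw [sum_mul, sum_mul]
    apply sum_congr rfl
    intro ζ hζ
    have hζ' : ζ ∪ F ⊆ E ∪ F :=
      union_subset_union (Pool.Agent.H95.Susc.mem_fil.mp hζ).1 (Subset.refl _)
    exact Pool.Agent.H95.Wedge.W_change hq hV (good_of_NL (hE.union hF) (Subset.refl _)) hζ'
  have p1 := Pool.Agent.H95.Wedge.W_pos hq (vts (E ∪ F)) ∅
  have p2 := Pool.Agent.H95.Wedge.W_pos hq V ∅
  have hZ : 0 < ws (fun ζ => W q V (ζ ∪ F)) E (fun _ => True) := by
    unfold ws
    exact sum_pos (fun ω _ => Pool.Agent.H95.Wedge.W_pos hq V _)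
      ⟨∅, by rw [Pool.Agent.H95.Susc.mem_fil]; simp⟩
  unfold P
  rw [div_eq_div_iff (ws_wt_true_pos hq _ _).ne' hZ.ne']
  have k1 := key (fun ζ => A (ζ ∪ F))
  have k2 := key (fun _ => True)
  have : (ws (wt q E F) E (fun ζ => A (ζ ∪ F)) *
        ws (fun ζ => W q V (ζ ∪ F)) E (fun _ => True)) * (W q V ∅ * W q (vts (E ∪ F)) ∅)
      = (ws (fun ζ => W q V (ζ ∪ F)) E (fun ζ => A (ζ ∪ F)) *
        ws (wt q E F) E (fun _ => True)) * (W q V ∅ * W q (vts (E ∪ F)) ∅) := by
    calc _ = (ws (wt q E F) E (fun ζ => A (ζ ∪ F)) * W q V ∅) *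
          (ws (fun ζ => W q V (ζ ∪ F)) E (fun _ => True) * W q (vts (E ∪ F)) ∅) := by ring
      _ = (ws (fun ζ => W q V (ζ ∪ F)) E (fun ζ => A (ζ ∪ F)) * W q (vts (E ∪ F)) ∅) *
          (ws (wt q E F) E (fun _ => True) * W q V ∅) := by rw [k1, k2]
      _ = _ := by ring
  exact mul_right_cancel₀ (mul_pos p2 p1).ne' this

theorem P_free (hq : 0 < q) {V : Finset α} (hE : NL E) (hV : vts E ⊆ V)
    (A : Finset (Sym2 α) → Prop) :
    P q E ∅ A = Pool.Agent.H95.Wedge.PP q V E A := by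
  have hF : NL (∅ : Finset (Sym2 α)) := fun e he => absurd he (notMem_empty e)
  have hV' : vts (E ∪ ∅) ⊆ V := by rw [union_empty]; exact hV
  rw [P_eq_V (V := V) hq hE hF hV' A, Pool.Agent.H95.Wedge.PP_eq]
  simp only [union_empty]

/-- frozen edges among the active ones only double the weights -/
theorem sum_powerset_frozen {β : Type*} [DecidableEq β] (F E₀ D : Finset β) (hD : D ⊆ F)
    (hdis : Disjoint E₀ D) (g : Finset β → ℝ) :
    ∑ ζ ∈ (E₀ ∪ D).powerset, g (ζ ∪ F) = 2 ^ #D * ∑ ζ ∈ E₀.powerset, g (ζ ∪ F) := by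
  induction D using Finset.induction_on with
  | empty => simp
  | insert e D he ih =>
    have hD' : D ⊆ F := fun x hx => hD (mem_insert_of_mem hx)
    have heF : e ∈ F := hD (mem_insert_self _ _)
    rw [disjoint_insert_right] at hdis
    have ih' := ih hD' hdis.2
    have hne : e ∉ E₀ ∪ D := by
      rw [mem_union, not_or]; exact ⟨hdis.1, he⟩
    rw [union_insert, sum_powerset_insert hne]
    have h2 : ∀ ζ ∈ (E₀ ∪ D).powerset, g (insert e ζ ∪ F) = g (ζ ∪ F) := by
      intro ζ _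
      rw [insert_union, insert_eq_of_mem (mem_union_right _ heF)]
    rw [sum_congr rfl h2, ih', card_insert_of_notMem he, pow_succ]
    ring

theorem P_sdiff (hq : 0 < q) (E F : Finset (Sym2 α)) (A : Finset (Sym2 α) → Prop) :
    P q (E \ F) F A = P q E F A := by
  classical
  have hU : E \ F ∪ F = E ∪ F := sdiff_union_self_eq_union
  have hE : E = (E \ F) ∪ (E ∩ F) := by
    ext x; simp only [mem_union, mem_sdiff, mem_inter]; tauto
  have hdis : Disjoint (E \ F) (E ∩ F) := by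
    rw [disjoint_left]
    intro x h1 h2
    exact (mem_sdiff.1 h1).2 (mem_inter.1 h2).2
  have key : ∀ B : Finset (Sym2 α) → Prop,
      ws (wt q E F) E (fun ζ => B (ζ ∪ F)) =
        2 ^ #(E ∩ F) * ws (wt q (E \ F) F) (E \ F) (fun ζ => B (ζ ∪ F)) := by
    intro B
    have h1 := sum_powerset_frozen F (E \ F) (E ∩ F) inter_subset_right hdis
      (fun η => if B η then W q (vts (E ∪ F)) η else 0)
    rw [← hE] at h1
    unfold ws fil wt
    rw [sum_filter, sum_filter, hU]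
    exact h1
  have k1 := key A
  have k2 := key (fun _ => True)
  unfold P
  rw [k1, k2, mul_div_mul_left _ _ (by positivity)]

end

end Pool.Agent.FKR
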