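import Pool.Agent.FKR.LocU

/-! # FKR/Move (MP_b3e76a_pr): moving an arm through a patch by a chain of circuits

Proof. `r' = r / 4 ≥ 1`, `r ≤ 7 r'`.
(1) Cover `bxx x y r` by the boxes of radius `r'` around `(x + i r', y + j r')`, `|i|, |j| ≤ 7`: `P_union` gives a box with
`P (Hit f s x0 y0 r') ≥ P (Hit f s x y r) / 225`, `|x0 - x|, |y0 - y| ≤ 7 r' ≤ 2 r`.
(2) Chain `z_0 = (x0, y0), ..., z_L`: first steps `(± r', 0)`, then steps `(0, ± r')`, until `|z_L - (x', y')| ≤ r'` in both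
coordinates, so `bxx z_L (2 r') ⊆ bxx x' y' r`; the number of steps is `≤ 14 (K + 2) + 2`. All centres stay at distance
`≥ 12 r ≥ 12 r'` from the sides of the rectangle.
(3) FKG (`P_fkg`, `P_fkg_fin`, `locU`): `Hit f s x0 y0 r'` and all `An z_i r'` occur with probability `≥ c ^ (L+1) * P (Hit f s x0 y0 r')`.
(4) Then `s` is connected to `f u_0` (`hit_hub`), `u_i` to `u_(i+1)` in `pull` (`Hub_right`, `Hub_up`, also with the roles
exchanged for steps to the left or down), `Cn_of_pull`; by `Hub_mem` `u_L` is connected to a point of `bxx z_L (2 r')`.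
(Below (3), (4) are done step by step, with the increasing event `HubC`: `s` is connected to a hub.) -/

namespace Pool.Agent.FKR

open Finset
open Pool.Agent.H95.Perc (Inc conn link rect hor ver eh ev mem_rect)
open Pool.Agent.H95.SumRule (edgesIn Z2)
open Pool.Agent.H95.Wedge (Vtx pt)

variable {q : ℝ}

theorem mv_inc_Hub (x y n : ℤ) (u : ℤ × ℤ) : Inc (fun κ => Hub x y n κ u) := by
  intro κ κ' hs h
  have key : ∀ {V : Finset (ℤ × ℤ)} {A B : ℤ × ℤ → Prop},
      link V (fun a => A a ∧ Cn κ a u) B κ → link V (fun a => A a ∧ Cn κ' a u) B κ' := by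
    intro V A B h
    have h' := Pool.Agent.H95.Perc.inc_link _ _ _ _ _ hs h
    obtain ⟨a, b, ha, hb, hA, hB, hc⟩ := h'
    exact ⟨a, b, ha, hb, ⟨hA.1, hA.2.mono hs⟩, hB, hc⟩
  exact ⟨key h.1, key h.2.1, key h.2.2.1, key h.2.2.2⟩

/-- `s` is connected to a hub at `(x, y)` -/
def HubC (f : ℤ × ℤ → Vtx) (V : Finset (ℤ × ℤ)) (s : Vtx) (n x y : ℤ) (ω : Finset (Sym2 Vtx)) :
    Prop := ∃ u, Hub x y n (pull f V ω) u ∧ Cn ω s (f u)

theorem inc_HubC (f : ℤ × ℤ → Vtx) (V : Finset (ℤ × ℤ)) (s : Vtx) (n x y : ℤ) :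
    Inc (HubC f V s n x y) := by
  rintro ω ω' hs ⟨u, h1, h2⟩
  exact ⟨u, mv_inc_Hub x y n u _ _ (pull_mono hs) h1, h2.mono hs⟩

/-- one step -/
theorem hubC_step (hq : 1 ≤ q) {c : ℝ} {E : Finset (Sym2 Vtx)}
    {f : ℤ × ℤ → Vtx} {V : Finset (ℤ × ℤ)} {s : Vtx} (hE : NL E) {n a b a' b' : ℤ} (hn : 1 ≤ n)
    (hc : c ≤ P q E ∅ (fun ω => An a' b' n (pull f V ω)))
    (hh : ∀ (κ : Finset (Sym2 (ℤ × ℤ))) (u u' : ℤ × ℤ), Hub a b n κ u → Hub a' b' n κ u' → Cn κ u u') :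
    c * P q E ∅ (HubC f V s n a b) ≤ P q E ∅ (HubC f V s n a' b') := by
  have hq0 : 0 < q := by linarith
  have hF : NL (∅ : Finset (Sym2 Vtx)) := fun e he => absurd he (notMem_empty e)
  have h1 := P_fkg hq hE hF (inc_HubC f V s n a b)
    (inc_pull (f := f) (V := V) (inc_An a' b' n))
  calc c * P q E ∅ (HubC f V s n a b)
      ≤ P q E ∅ (fun ω => An a' b' n (pull f V ω)) * P q E ∅ (HubC f V s n a b) :=
        mul_le_mul_of_nonneg_right hc (P_nonneg hq0 _ _ _)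
    _ = P q E ∅ (HubC f V s n a b) * P q E ∅ (fun ω => An a' b' n (pull f V ω)) := mul_comm _ _
    _ ≤ P q E ∅ (fun ω => HubC f V s n a b ω ∧ An a' b' n (pull f V ω)) := h1
    _ ≤ P q E ∅ (HubC f V s n a' b') := by
        apply P_mono hq0
        rintro ζ - ⟨⟨u, hu1, hu2⟩, hA⟩
        obtain ⟨u', hu'⟩ := An_hub hn hA
        exact ⟨u', hu', hu2.trans (Cn_of_pull (hh _ u u' hu1 hu'))⟩

/-- horizontal moves by `k` steps -/
theorem hubC_hor (hq : 1 ≤ q) {c : ℝ} (hc0 : 0 ≤ c) {E : Finset (Sym2 Vtx)}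
    {f : ℤ × ℤ → Vtx} {V : Finset (ℤ × ℤ)} {s : Vtx} (hE : NL E) {n lo hi b : ℤ} (hn : 1 ≤ n)
    (hc : ∀ a, lo ≤ a → a ≤ hi → c ≤ P q E ∅ (fun ω => An a b n (pull f V ω))) (k : ℕ) :
    ∀ a, lo ≤ a → a ≤ hi →
      (a + k * n ≤ hi → c ^ k * P q E ∅ (HubC f V s n a b) ≤ P q E ∅ (HubC f V s n (a + k * n) b)) ∧
      (lo ≤ a - k * n → c ^ k * P q E ∅ (HubC f V s n a b) ≤ P q E ∅ (HubC f V s n (a - k * n) b)) := by
  induction k with
  | zero =>
    intro a _ _
    constructor <;> intro _ <;> simp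
  | succ k ih =>
    intro a ha ha'
    have hkn : (0 : ℤ) ≤ k * n := by positivity
    obtain ⟨ih1, ih2⟩ := ih a ha ha'
    constructor
    · intro h
      have e : a + ((k + 1 : ℕ) : ℤ) * n = (a + k * n) + n := by push_cast; ring
      rw [e] at h ⊢
      have h1 := ih1 (by omega)
      have h2 := hubC_step (s := s) hq hE hn (a := a + k * n) (b := b) (hc (a + k * n + n) (by omega) h)
        (fun κ u u' hu hu' => Hub_right hn hu hu')
      calc c ^ (k + 1) * P q E ∅ (HubC f V s n a b)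
          = c * (c ^ k * P q E ∅ (HubC f V s n a b)) := by ring
        _ ≤ c * P q E ∅ (HubC f V s n (a + k * n) b) := mul_le_mul_of_nonneg_left h1 hc0
        _ ≤ _ := h2
    · intro h
      have e : a - ((k + 1 : ℕ) : ℤ) * n = (a - k * n) - n := by push_cast; ring
      rw [e] at h ⊢
      have h1 := ih2 (by omega)
      have h2 := hubC_step (s := s) hq hE hn (a := a - k * n) (b := b) (hc (a - k * n - n) h (by omega))
        (fun κ u u' hu hu' => by
          have hu2 : Hub (a - k * n - n + n) b n κ u := by rw [sub_add_cancel]; exact hu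
          exact (Hub_right hn hu' hu2).symm)
      calc c ^ (k + 1) * P q E ∅ (HubC f V s n a b)
          = c * (c ^ k * P q E ∅ (HubC f V s n a b)) := by ring
        _ ≤ c * P q E ∅ (HubC f V s n (a - k * n) b) := mul_le_mul_of_nonneg_left h1 hc0
        _ ≤ _ := h2

/-- vertical moves by `k` steps -/
theorem hubC_ver (hq : 1 ≤ q) {c : ℝ} (hc0 : 0 ≤ c) {E : Finset (Sym2 Vtx)}
    {f : ℤ × ℤ → Vtx} {V : Finset (ℤ × ℤ)} {s : Vtx} (hE : NL E) {n lo hi b : ℤ} (hn : 1 ≤ n)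
    (hc : ∀ a, lo ≤ a → a ≤ hi → c ≤ P q E ∅ (fun ω => An b a n (pull f V ω))) (k : ℕ) :
    ∀ a, lo ≤ a → a ≤ hi →
      (a + k * n ≤ hi → c ^ k * P q E ∅ (HubC f V s n b a) ≤ P q E ∅ (HubC f V s n b (a + k * n))) ∧
      (lo ≤ a - k * n → c ^ k * P q E ∅ (HubC f V s n b a) ≤ P q E ∅ (HubC f V s n b (a - k * n))) := by
  induction k with
  | zero =>
    intro a _ _
    constructor <;> intro _ <;> simp
  | succ k ih =>
    intro a ha ha'
    have hkn : (0 : ℤ) ≤ k * n := by positivity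
    obtain ⟨ih1, ih2⟩ := ih a ha ha'
    constructor
    · intro h
      have e : a + ((k + 1 : ℕ) : ℤ) * n = (a + k * n) + n := by push_cast; ring
      rw [e] at h ⊢
      have h1 := ih1 (by omega)
      have h2 := hubC_step (s := s) hq hE hn (a := b) (b := a + k * n) (hc (a + k * n + n) (by omega) h)
        (fun κ u u' hu hu' => Hub_up hn hu hu')
      calc c ^ (k + 1) * P q E ∅ (HubC f V s n b a)
          = c * (c ^ k * P q E ∅ (HubC f V s n b a)) := by ring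
        _ ≤ c * P q E ∅ (HubC f V s n b (a + k * n)) := mul_le_mul_of_nonneg_left h1 hc0
        _ ≤ _ := h2
    · intro h
      have e : a - ((k + 1 : ℕ) : ℤ) * n = (a - k * n) - n := by push_cast; ring
      rw [e] at h ⊢
      have h1 := ih2 (by omega)
      have h2 := hubC_step (s := s) hq hE hn (a := b) (b := a - k * n) (hc (a - k * n - n) h (by omega))
        (fun κ u u' hu hu' => by
          have hu2 : Hub b (a - k * n - n + n) n κ u := by rw [sub_add_cancel]; exact hu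
          exact (Hub_up hn hu' hu2).symm)
      calc c ^ (k + 1) * P q E ∅ (HubC f V s n b a)
          = c * (c ^ k * P q E ∅ (HubC f V s n b a)) := by ring
        _ ≤ c * P q E ∅ (HubC f V s n b (a - k * n)) := mul_le_mul_of_nonneg_left h1 hc0
        _ ≤ _ := h2

/-- choice of the number of steps -/
theorem mv_steps {n a a' : ℤ} (hn : 1 ≤ n) {M : ℕ} (h : |a - a'| ≤ M * n) :
    ∃ k : ℕ, k ≤ M ∧ ((a + k * n ≤ a' ∧ a' ≤ a + k * n + n) ∨ (a - k * n - n ≤ a' ∧ a' ≤ a - k * n)) := by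
  have hn0 : 0 < n := by omega
  rcases le_total a a' with h1 | h1
  · refine ⟨((a' - a) / n).toNat, ?_, Or.inl ?_⟩
    · have h2 : (a' - a) / n ≤ M := by
        apply Int.ediv_le_of_le_mul hn0
        rw [abs_le] at h; linarith
      omega
    · have h3 : 0 ≤ (a' - a) / n := Int.ediv_nonneg (by omega) hn0.le
      rw [Int.toNat_of_nonneg h3]
      have h4 := Int.emod_add_mul_ediv (a' - a) n
      have h5 := Int.emod_nonneg (a' - a) hn0.ne'
      have h6 := Int.emod_lt_of_pos (a' - a) hn0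
      constructor <;> nlinarith
  · refine ⟨((a - a') / n).toNat, ?_, Or.inr ?_⟩
    · have h2 : (a - a') / n ≤ M := by
        apply Int.ediv_le_of_le_mul hn0
        rw [abs_le] at h; linarith
      omega
    · have h3 : 0 ≤ (a - a') / n := Int.ediv_nonneg (by omega) hn0.le
      rw [Int.toNat_of_nonneg h3]
      have h4 := Int.emod_add_mul_ediv (a - a') n
      have h5 := Int.emod_nonneg (a - a') hn0.ne'
      have h6 := Int.emod_lt_of_pos (a - a') hn0
      constructor <;> nlinarith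

theorem move (hq : 1 ≤ q) (hu : UU q) (K : ℕ) : ∃ c : ℝ, 0 < c ∧ ∀ (E : Finset (Sym2 Vtx))
    (f : ℤ × ℤ → Vtx) (X0 X1 Y0 Y1 : ℤ) (s : Vtx) (x y x' y' r : ℤ), NL E → Patch f X0 X1 Y0 Y1 E →
    s ∉ (rect X0 X1 Y0 Y1).image f → 4 ≤ r → X0 + 14 * r ≤ x → x + 14 * r ≤ X1 → Y0 + 14 * r ≤ y →
    y + 14 * r ≤ Y1 → X0 + 14 * r ≤ x' → x' + 14 * r ≤ X1 → Y0 + 14 * r ≤ y' → y' + 14 * r ≤ Y1 →
    |x - x'| ≤ K * r → |y - y'| ≤ K * r →
    c * P q E ∅ (Hit f s x y r) ≤ P q E ∅ (Hit f s x' y' r) := by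
  obtain ⟨c, hc, hc1, hloc⟩ := locU hq hu
  have hq0 : 0 < q := by linarith
  set M : ℕ := 7 + 7 * K with hM
  refine ⟨c ^ M * (c ^ M * (c / 225)), by positivity, ?_⟩
  intro E f X0 X1 Y0 Y1 s x y x' y' r hE hP hs hr hx0 hx1 hy0 hy1 hx0' hx1' hy0' hy1' hxx hyy
  have hF : NL (∅ : Finset (Sym2 Vtx)) := fun e he => absurd he (notMem_empty e)
  set n : ℤ := r / 4 with hn
  have hn1 : 1 ≤ n := by omega
  have hn4 : 4 * n ≤ r := by omega
  have hn7 : r ≤ 7 * n := by omega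
  set V := rect X0 X1 Y0 Y1 with hV
  -- circuits
  have hAn : ∀ a b, X0 + 12 * n ≤ a → a + 12 * n ≤ X1 → Y0 + 12 * n ≤ b → b + 12 * n ≤ Y1 →
      c ≤ P q E ∅ (fun ω => An a b n (pull f V ω)) := fun a b h1 h2 h3 h4 =>
    hloc E f X0 X1 Y0 Y1 a b n hE hP hn1 h1 h2 h3 h4
  -- a small box
  obtain ⟨i, j, hi, hj, hij⟩ : ∃ i j : ℤ, |i| ≤ 7 ∧ |j| ≤ 7 ∧
      P q E ∅ (Hit f s x y r) / 225 ≤ P q E ∅ (Hit f s (x + i * n) (y + j * n) n) := by
    have h1 : P q E ∅ (Hit f s x y r) ≤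
        P q E ∅ (fun ω => ∃ z ∈ (Icc (-7 : ℤ) 7) ×ˢ (Icc (-7 : ℤ) 7),
          Hit f s (x + z.1 * n) (y + z.2 * n) n ω) := by
      apply P_mono hq0
      rintro ζ - ⟨p, hp, hcn⟩
      unfold bxx at hp
      rw [mem_rect] at hp
      have hn0 : 0 < n := by omega
      have a1 := Int.emod_add_mul_ediv (p.1 - x) n
      have a2 := Int.emod_nonneg (p.1 - x) hn0.ne'
      have a3 := Int.emod_lt_of_pos (p.1 - x) hn0
      have b1 := Int.emod_add_mul_ediv (p.2 - y) n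
      have b2 := Int.emod_nonneg (p.2 - y) hn0.ne'
      have b3 := Int.emod_lt_of_pos (p.2 - y) hn0
      have bound : ∀ t : ℤ, -r ≤ t → t ≤ r → -7 ≤ t / n ∧ t / n ≤ 7 := by
        intro t h1 h2
        constructor
        · apply Int.le_ediv_of_mul_le hn0
          linarith
        · apply Int.ediv_le_of_le_mul hn0
          linarith
      have c1 := bound (p.1 - x) (by omega) (by omega)
      have c2 := bound (p.2 - y) (by omega) (by omega)
      refine ⟨((p.1 - x) / n, (p.2 - y) / n), ?_, p, ?_, hcn⟩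
      · rw [mem_product, mem_Icc, mem_Icc]
        exact ⟨c1, c2⟩
      · unfold bxx
        rw [mem_rect]
        simp only
        have e1 : (p.1 - x) / n * n = n * ((p.1 - x) / n) := mul_comm _ _
        have e2 : (p.2 - y) / n * n = n * ((p.2 - y) / n) := mul_comm _ _
        rw [e1, e2]
        refine ⟨by linarith, by linarith, by linarith, by linarith⟩
    have h2 := h1.trans (P_union hq0 _ _)
    by_contra hcon
    push Not at hcon
    have h3 : ∑ z ∈ (Icc (-7 : ℤ) 7) ×ˢ (Icc (-7 : ℤ) 7),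
        P q E ∅ (Hit f s (x + z.1 * n) (y + z.2 * n) n) <
        ∑ z ∈ (Icc (-7 : ℤ) 7) ×ˢ (Icc (-7 : ℤ) 7), P q E ∅ (Hit f s x y r) / 225 := by
      apply sum_lt_sum_of_nonempty
      · exact ⟨(0, 0), by simp⟩
      · rintro ⟨z1, z2⟩ hz
        rw [mem_product, mem_Icc, mem_Icc] at hz
        exact hcon z1 z2 (abs_le.2 ⟨hz.1.1, hz.1.2⟩) (abs_le.2 ⟨hz.2.1, hz.2.2⟩)
    rw [sum_const, card_product, Int.card_Icc, show (7 + 1 - -7 : ℤ).toNat = 15 from rfl,
      nsmul_eq_mul] at h3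
    have h4 : ((15 * 15 : ℕ) : ℝ) * (P q E ∅ (Hit f s x y r) / 225) = P q E ∅ (Hit f s x y r) := by
      push_cast; ring
    rw [h4] at h3
    exact absurd h2 (not_le.2 h3)
  rw [abs_le] at hi hj
  set x0 := x + i * n with hx0d
  set y0 := y + j * n with hy0d
  have i1 : -7 * n ≤ i * n := by nlinarith
  have i2 : i * n ≤ 7 * n := by nlinarith
  have j1 : -7 * n ≤ j * n := by nlinarith
  have j2 : j * n ≤ 7 * n := by nlinarith
  -- start
  have hstart : c * P q E ∅ (Hit f s x0 y0 n) ≤ P q E ∅ (HubC f V s n x0 y0) := by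
    have h1 := P_fkg hq hE hF (inc_Hit f s x0 y0 n) (inc_pull (f := f) (V := V) (inc_An x0 y0 n))
    calc c * P q E ∅ (Hit f s x0 y0 n)
        ≤ P q E ∅ (fun ω => An x0 y0 n (pull f V ω)) * P q E ∅ (Hit f s x0 y0 n) :=
          mul_le_mul_of_nonneg_right (hAn x0 y0 (by omega) (by omega) (by omega) (by omega))
            (P_nonneg hq0 _ _ _)
      _ = P q E ∅ (Hit f s x0 y0 n) * P q E ∅ (fun ω => An x0 y0 n (pull f V ω)) := mul_comm _ _
      _ ≤ _ := h1
      _ ≤ _ := by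
          apply P_mono hq0
          rintro ζ hζ ⟨hH, hA⟩
          obtain ⟨u, hu⟩ := An_hub hn1 hA
          refine ⟨u, hu, ?_⟩
          exact hit_hub hP (by rw [union_empty]; exact hζ) hs hn1 (by omega) (by omega) (by omega)
            (by omega) hH hu
  -- horizontal part
  have hKr : (K : ℤ) * r ≤ 7 * K * n := by
    have : (0 : ℤ) ≤ K := Int.natCast_nonneg K
    nlinarith
  rw [abs_le] at hxx hyy
  have hMn : ((M : ℕ) : ℤ) * n = 7 * n + 7 * K * n := by rw [hM]; push_cast; ring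
  obtain ⟨k, hkM, hk⟩ := mv_steps (n := n) (a := x0) (a' := x') hn1 (M := M) (by
    rw [abs_le, hMn]; constructor <;> linarith)
  obtain ⟨l, hlM, hl⟩ := mv_steps (n := n) (a := y0) (a' := y') hn1 (M := M) (by
    rw [abs_le, hMn]; constructor <;> linarith)
  have hpow : ∀ m : ℕ, m ≤ M → c ^ M ≤ c ^ m := fun m hm => pow_le_pow_of_le_one hc.le hc1 hm
  obtain ⟨x1, hx1r, hx1P⟩ : ∃ x1 : ℤ, (x1 - n ≤ x' ∧ x' ≤ x1 + n) ∧
      c ^ M * P q E ∅ (HubC f V s n x0 y0) ≤ P q E ∅ (HubC f V s n x1 y0) := by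
    have H := hubC_hor (s := s) hq hc.le hE (f := f) (V := V) (n := n) (lo := X0 + 12 * n)
      (hi := X1 - 12 * n) (b := y0) hn1
      (fun a h1 h2 => hAn a y0 h1 (by omega) (by omega) (by omega)) k x0 (by omega) (by omega)
    have hmon : c ^ M * P q E ∅ (HubC f V s n x0 y0) ≤ c ^ k * P q E ∅ (HubC f V s n x0 y0) :=
      mul_le_mul_of_nonneg_right (hpow k hkM) (P_nonneg hq0 _ _ _)
    rcases hk with ⟨g1, g2⟩ | ⟨g1, g2⟩
    · exact ⟨x0 + k * n, ⟨by omega, by omega⟩, hmon.trans (H.1 (by omega))⟩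
    · exact ⟨x0 - k * n, ⟨by omega, by omega⟩, hmon.trans (H.2 (by omega))⟩
  obtain ⟨y1, hy1r, hy1P⟩ : ∃ y1 : ℤ, (y1 - n ≤ y' ∧ y' ≤ y1 + n) ∧
      c ^ M * P q E ∅ (HubC f V s n x1 y0) ≤ P q E ∅ (HubC f V s n x1 y1) := by
    have H := hubC_ver (s := s) hq hc.le hE (f := f) (V := V) (n := n) (lo := Y0 + 12 * n)
      (hi := Y1 - 12 * n) (b := x1) hn1
      (fun a h1 h2 => hAn x1 a (by omega) (by omega) h1 (by omega)) l y0 (by omega) (by omega)
    have hmon : c ^ M * P q E ∅ (HubC f V s n x1 y0) ≤ c ^ l * P q E ∅ (HubC f V s n x1 y0) :=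
      mul_le_mul_of_nonneg_right (hpow l hlM) (P_nonneg hq0 _ _ _)
    rcases hl with ⟨g1, g2⟩ | ⟨g1, g2⟩
    · exact ⟨y0 + l * n, ⟨by omega, by omega⟩, hmon.trans (H.1 (by omega))⟩
    · exact ⟨y0 - l * n, ⟨by omega, by omega⟩, hmon.trans (H.2 (by omega))⟩
  -- the end
  have hend : P q E ∅ (HubC f V s n x1 y1) ≤ P q E ∅ (Hit f s x' y' r) := by
    apply P_mono hq0
    rintro ζ - ⟨u, hu1, hu2⟩
    obtain ⟨a, ha, hau⟩ := Hub_mem hu1 (by omega)
    refine ⟨a, ?_, hu2.trans (Cn_of_pull hau).symm⟩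
    unfold bxx at ha ⊢
    rw [mem_rect] at ha ⊢
    omega
  have hcM : 0 ≤ c ^ M := pow_nonneg hc.le _
  calc c ^ M * (c ^ M * (c / 225)) * P q E ∅ (Hit f s x y r)
      = c ^ M * (c ^ M * (c * (P q E ∅ (Hit f s x y r) / 225))) := by ring
    _ ≤ c ^ M * (c ^ M * (c * P q E ∅ (Hit f s x0 y0 n))) := by gcongr
    _ ≤ c ^ M * (c ^ M * P q E ∅ (HubC f V s n x0 y0)) := by gcongr
    _ ≤ c ^ M * P q E ∅ (HubC f V s n x1 y0) := by gcongr
    _ ≤ P q E ∅ (HubC f V s n x1 y1) := hy1P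
    _ ≤ _ := hend

end Pool.Agent.FKR
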