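import Pool.Agent.FKR.Esc
import Pool.Agent.FKR.Move

/-! # FKR/BulkC (MP_b3e76a_pr): from the bulk to a fixed box

(1) Cover: if `Bulk m n (15 ρ)` occurs at `ch j (x, y)`, then `(x, y) ∈ bxx (i ρ) (l ρ) ρ` with `i = x / ρ`, `l = y / ρ` rounded towards zero,
`|i|, |l| ≤ 2 R`: `P_union` over `(j, i, l)` (only those with `n - ρ ≤ i ρ ≤ 2 n`, `|l ρ| ≤ 2 n`, `14 ρ ≤ l ρ` if `j = 0`, `l ρ ≤ -14 ρ` if `j = m`).
(2) `move` with `K = 3 R` in the chart `j`, in the rectangle `rect 1 (4n) Y0 Y1`, `Y0 = 0` if `j = 0`, else `-4n`; `Y1 = 0` if `j = m`, else `4n`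
(`patch_ch`; `tip` is not in its image by `nm_ch`) from `(i ρ, l ρ)` to `(n, n)` if `j < m` and to `(n, -n)` if `j = m`.
(3) `Hit (ch j) tip n (-n) ρ = Hit (ch (j-1)) tip n n ρ` for `1 ≤ j` (`ch_succ`), and `move` in the chart `j`, `1 ≤ j < m`, from `(n, n)` to
`(n, -n)`: so everything is bounded by `C ^ m * P (Hit (ch 0) tip n n ρ)`. -/

namespace Pool.Agent.FKR

open Finset
open Pool.Agent.H95.Perc (Inc conn link rect hor ver eh ev mem_rect)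
open Pool.Agent.H95.SumRule (edgesIn Z2)
open Pool.Agent.H95.Wedge (Vtx pt)

variable {q : ℝ}

private theorem bc_round (y ρ : ℤ) (hρ : 1 ≤ ρ) : ∃ l : ℤ, (0 ≤ y → 0 ≤ l * ρ ∧ l * ρ ≤ y ∧ y < l * ρ + ρ) ∧
    (y < 0 → l * ρ ≤ 0 ∧ y ≤ l * ρ ∧ l * ρ < y + ρ) := by
  rcases lt_or_ge y 0 with h | h
  · refine ⟨-((-y) / ρ), fun h' => absurd h (not_lt.2 h'), fun _ => ?_⟩
    have h1 := Int.emod_add_mul_ediv (-y) ρ
    have h2 := Int.emod_nonneg (-y) (show ρ ≠ 0 by omega)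
    have h3 := Int.emod_lt_of_pos (-y) (show 0 < ρ by omega)
    have h4 : 0 ≤ (-y) / ρ := Int.ediv_nonneg (by omega) (by omega)
    have e : -((-y) / ρ) * ρ = -(ρ * ((-y) / ρ)) := by ring
    rw [e]
    have h5 : 0 ≤ ρ * ((-y) / ρ) := mul_nonneg (by omega) h4
    refine ⟨by omega, by omega, by omega⟩
  · refine ⟨y / ρ, fun _ => ?_, fun h' => absurd h' (not_lt.2 h)⟩
    have h1 := Int.emod_add_mul_ediv y ρ
    have h2 := Int.emod_nonneg y (show ρ ≠ 0 by omega)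
    have h3 := Int.emod_lt_of_pos y (show 0 < ρ by omega)
    have h4 : 0 ≤ y / ρ := Int.ediv_nonneg (by omega) (by omega)
    have e : y / ρ * ρ = ρ * (y / ρ) := by ring
    rw [e]
    have h5 : 0 ≤ ρ * (y / ρ) := mul_nonneg (by omega) h4
    refine ⟨by omega, by omega, by omega⟩

private theorem bc_tip {m n : ℕ} {j Y0 Y1 : ℤ} : tip ∉ (rect 1 (4 * n) Y0 Y1).image (ch j) := by
  intro h
  rw [mem_image] at h
  obtain ⟨p, hp, he⟩ := h
  rw [mem_rect] at hp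
  have h1 := nm_ch j (p := p) (by omega)
  rw [he, nm_tip] at h1
  have h2 := le_max_left p.1 |p.2|
  rw [← h1] at h2
  push_cast at h2
  omega

private theorem bc_hit {j n ρ : ℤ} (hρ : 0 ≤ ρ) (h : ρ ≤ n) (ω : Finset (Sym2 Vtx)) :
    Hit (ch (j + 1)) tip n (-n) ρ ω ↔ Hit (ch j) tip n n ρ ω := by
  unfold Hit bxx
  constructor
  · rintro ⟨p, hp, hc⟩
    rw [mem_rect] at hp
    refine ⟨(-p.2, p.1), ?_, ?_⟩
    · rw [mem_rect]
      refine ⟨?_, ?_, ?_, ?_⟩ <;> dsimp only <;> omega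
    · have e := ch_succ j (x := -p.2) (y := p.1) (by omega) (by omega)
      rw [neg_neg] at e
      rw [e]
      exact hc
  · rintro ⟨p, hp, hc⟩
    rw [mem_rect] at hp
    refine ⟨(p.2, -p.1), ?_, ?_⟩
    · rw [mem_rect]
      refine ⟨?_, ?_, ?_, ?_⟩ <;> dsimp only <;> omega
    · have e := ch_succ j (x := p.1) (y := p.2) (by omega) (by omega)
      rw [← e]
      exact hc

theorem bulk_core (hq : 1 ≤ q) (hu : UU q) {m : ℕ} (hm : 1 ≤ m) (R : ℕ) : ∃ C : ℝ, 0 < C ∧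
    ∀ n ρ : ℕ, 4 ≤ ρ → 60 * ρ ≤ n → n ≤ R * ρ →
    P q (WE m (4 * n)) ∅ (Bulk m n (15 * ρ)) ≤ C * P q (WE m (4 * n)) ∅ (Hit (ch 0) tip n n ρ) := by
  obtain ⟨c, hc, hmv⟩ := move hq hu (3 * R)
  have hq0 : 0 < q := by linarith
  set C1 : ℝ := max 1 (1 / c) with hC1
  have hC1' : 1 ≤ C1 := le_max_left _ _
  have hC1c : 1 / c ≤ C1 := le_max_right _ _
  have hC10 : 0 < C1 := by linarith
  set S : Finset (ℤ × ℤ × ℤ) := (Icc (0 : ℤ) m) ×ˢ ((Icc (-2 * R : ℤ) (2 * R)) ×ˢ (Icc (-2 * R : ℤ) (2 * R)))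
    with hS
  refine ⟨(S.card + 1) * (C1 ^ (m + 1)), by positivity, ?_⟩
  intro n ρ hρ hn hR
  have hR' : (n : ℤ) ≤ R * ρ := by exact_mod_cast hR
  have hn' : 60 * (ρ : ℤ) ≤ n := by exact_mod_cast hn
  have hρ' : (4 : ℤ) ≤ ρ := by exact_mod_cast hρ
  set E := WE m (4 * n) with hE
  have hNL : NL E := WE_NL _ _
  have hcast : ((4 * n : ℕ) : ℤ) = 4 * n := by push_cast; ring
  -- one move in the chart `j`
  have key : ∀ j : ℤ, 0 ≤ j → j ≤ m → ∀ x y x' y' : ℤ, 1 + 14 * (ρ : ℤ) ≤ x → x + 14 * ρ ≤ 4 * n →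
      -(4 * n : ℤ) + 14 * ρ ≤ y → y + 14 * ρ ≤ 4 * n → (j = 0 → 14 * (ρ : ℤ) ≤ y) →
      (j = m → y ≤ -(14 * (ρ : ℤ))) → 1 + 14 * (ρ : ℤ) ≤ x' → x' + 14 * ρ ≤ 4 * n →
      -(4 * n : ℤ) + 14 * ρ ≤ y' → y' + 14 * ρ ≤ 4 * n → (j = 0 → 14 * (ρ : ℤ) ≤ y') →
      (j = m → y' ≤ -(14 * (ρ : ℤ))) → |x - x'| ≤ 3 * n → |y - y'| ≤ 3 * n →
      P q E ∅ (Hit (ch j) tip x y ρ) ≤ C1 * P q E ∅ (Hit (ch j) tip x' y' ρ) := by
    intro j hj hj' x y x' y' a1 a2 a3 a4 a5 a6 b1 b2 b3 b4 b5 b6 d1 d2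
    have hpatch : Patch (ch j) 1 (4 * n) (if j = 0 then 0 else -(4 * n : ℤ))
        (if j = m then 0 else (4 * n : ℤ)) E := by
      apply patch_ch (N := 4 * n) hm hj hj' le_rfl
      · rw [hcast]
      · rw [hcast]; split_ifs <;> omega
      · rw [hcast]; split_ifs <;> omega
      · intro h; rw [if_pos h]
      · intro h; rw [if_pos h]
    have h3 : (3 * n : ℤ) ≤ ((3 * R : ℕ) : ℤ) * ρ := by push_cast; linarith
    have h := hmv E (ch j) 1 (4 * n) (if j = 0 then 0 else -(4 * n : ℤ))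
      (if j = m then 0 else (4 * n : ℤ)) tip x y x' y' ρ hNL hpatch (bc_tip (m := m)) hρ' a1 a2
      (by split_ifs with h0
          · have := a5 h0; omega
          · omega)
      (by split_ifs with h0
          · have := a6 h0; omega
          · omega)
      b1 b2
      (by split_ifs with h0
          · have := b5 h0; omega
          · omega)
      (by split_ifs with h0
          · have := b6 h0; omega
          · omega)
      (d1.trans h3) (d2.trans h3)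
    have h4 : P q E ∅ (Hit (ch j) tip x y ρ) ≤ 1 / c * P q E ∅ (Hit (ch j) tip x' y' ρ) := by
      rw [one_div, inv_mul_eq_div, le_div_iff₀ hc, mul_comm]
      exact h
    exact h4.trans (mul_le_mul_of_nonneg_right hC1c (P_nonneg hq0 _ _ _))
  -- the boxes at the diagonals
  have hswap : ∀ j : ℤ, P q E ∅ (Hit (ch (j + 1)) tip n (-n) ρ) = P q E ∅ (Hit (ch j) tip n n ρ) := by
    intro j
    apply P_congr
    intro ζ _
    exact bc_hit (by omega) (by omega) _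
  have hdiag : ∀ k : ℕ, k < m → P q E ∅ (Hit (ch k) tip n n ρ) ≤
      C1 ^ k * P q E ∅ (Hit (ch 0) tip n n ρ) := by
    intro k
    induction k with
    | zero => intro _; simp
    | succ k ih =>
      intro hk
      have h1 := key ((k + 1 : ℕ) : ℤ) (by omega) (by omega) n n n (-n) (by omega) (by omega)
        (by omega) (by omega) (by omega) (by omega) (by omega) (by omega) (by omega) (by omega)
        (by omega) (by omega) (by rw [sub_self, abs_zero]; omega)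
        (by rw [abs_le]; constructor <;> omega)
      have h2 : ((k + 1 : ℕ) : ℤ) = (k : ℤ) + 1 := by push_cast; ring
      rw [h2, hswap] at h1
      rw [h2]
      calc P q E ∅ (Hit (ch (k + 1)) tip n n ρ) ≤ C1 * P q E ∅ (Hit (ch k) tip n n ρ) := h1
        _ ≤ C1 * (C1 ^ k * P q E ∅ (Hit (ch 0) tip n n ρ)) :=
            mul_le_mul_of_nonneg_left (ih (by omega)) hC10.le
        _ = C1 ^ (k + 1) * P q E ∅ (Hit (ch 0) tip n n ρ) := by ring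
  have hP0 : 0 ≤ P q E ∅ (Hit (ch 0) tip n n ρ) := P_nonneg hq0 _ _ _
  have hbox : ∀ j x y : ℤ, 0 ≤ j → j ≤ m → (n : ℤ) - ρ ≤ x → x ≤ 2 * n → -(2 * n : ℤ) ≤ y →
      y ≤ 2 * n → (j = 0 → 14 * (ρ : ℤ) ≤ y) → (j = m → y ≤ -(14 * (ρ : ℤ))) →
      P q E ∅ (Hit (ch j) tip x y ρ) ≤ C1 ^ (m + 1) * P q E ∅ (Hit (ch 0) tip n n ρ) := by
    intro j x y hj hj' hx1 hx2 hy1 hy2 h0 h0'
    rcases hj'.lt_or_eq with hlt | heq
    · have h1 := key j hj hj' x y n n (by omega) (by omega) (by omega) (by omega) h0 h0' (by omega)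
        (by omega) (by omega) (by omega) (by omega) (by omega)
        (by rw [abs_le]; constructor <;> omega) (by rw [abs_le]; constructor <;> omega)
      obtain ⟨k, rfl⟩ := Int.eq_ofNat_of_zero_le hj
      have hk : k < m := by exact_mod_cast hlt
      have h2 := hdiag k hk
      calc P q E ∅ (Hit (ch k) tip x y ρ) ≤ C1 * P q E ∅ (Hit (ch k) tip n n ρ) := h1
        _ ≤ C1 * (C1 ^ k * P q E ∅ (Hit (ch 0) tip n n ρ)) := mul_le_mul_of_nonneg_left h2 hC10.le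
        _ = C1 ^ (k + 1) * P q E ∅ (Hit (ch 0) tip n n ρ) := by ring
        _ ≤ C1 ^ (m + 1) * P q E ∅ (Hit (ch 0) tip n n ρ) :=
            mul_le_mul_of_nonneg_right (pow_le_pow_right₀ hC1' (by omega)) hP0
    · have h1 := key j hj hj' x y n (-n) (by omega) (by omega) (by omega) (by omega) h0 h0' (by omega)
        (by omega) (by omega) (by omega) (by omega) (by omega)
        (by rw [abs_le]; constructor <;> omega) (by rw [abs_le]; constructor <;> omega)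
      have e : j = ((m - 1 : ℕ) : ℤ) + 1 := by omega
      rw [e, hswap] at h1
      have h2 := hdiag (m - 1) (by omega)
      rw [e]
      calc P q E ∅ (Hit (ch (((m - 1 : ℕ) : ℤ) + 1)) tip x y ρ)
          ≤ C1 * P q E ∅ (Hit (ch ((m - 1 : ℕ) : ℤ)) tip n n ρ) := h1
        _ ≤ C1 * (C1 ^ (m - 1) * P q E ∅ (Hit (ch 0) tip n n ρ)) :=
            mul_le_mul_of_nonneg_left h2 hC10.le
        _ = C1 ^ (m - 1 + 1) * P q E ∅ (Hit (ch 0) tip n n ρ) := by ring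
        _ ≤ C1 ^ (m + 1) * P q E ∅ (Hit (ch 0) tip n n ρ) :=
            mul_le_mul_of_nonneg_right (pow_le_pow_right₀ hC1' (by omega)) hP0
  -- the cover
  have hcov : P q E ∅ (Bulk m n (15 * ρ)) ≤ P q E ∅ (fun ω => ∃ z ∈ S,
      ((n : ℤ) - ρ ≤ z.2.1 * ρ ∧ z.2.1 * ρ ≤ 2 * n ∧ -(2 * n : ℤ) ≤ z.2.2 * ρ ∧ z.2.2 * ρ ≤ 2 * n ∧
        (z.1 = 0 → 14 * (ρ : ℤ) ≤ z.2.2 * ρ) ∧ (z.1 = m → z.2.2 * ρ ≤ -(14 * (ρ : ℤ)))) ∧
      Hit (ch z.1) tip (z.2.1 * ρ) (z.2.2 * ρ) ρ ω) := by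
    apply P_mono hq0
    rintro ζ - ⟨j, x, y, hj, hj', hx1, hx2, hy, h0, h0', hcn⟩
    obtain ⟨i, hi, -⟩ := bc_round x ρ (by omega)
    obtain ⟨i1, i2, i3⟩ := hi (by omega)
    obtain ⟨l, hl1, hl2⟩ := bc_round y ρ (by omega)
    rw [abs_le] at hy
    have hρ0 : (0 : ℤ) < ρ := by omega
    have hl : -(2 * n : ℤ) ≤ l * ρ ∧ l * ρ ≤ 2 * n ∧ l * ρ - ρ ≤ y ∧ y ≤ l * ρ + ρ ∧
        (15 * (ρ : ℤ) < y → 14 * (ρ : ℤ) ≤ l * ρ) ∧ (y < -(15 * (ρ : ℤ)) → l * ρ ≤ -(14 * (ρ : ℤ))) := by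
      rcases lt_or_ge y 0 with h | h
      · obtain ⟨e1, e2, e3⟩ := hl2 h
        refine ⟨by omega, by omega, by omega, by omega, fun _ => by omega, fun _ => by omega⟩
      · obtain ⟨e1, e2, e3⟩ := hl1 h
        refine ⟨by omega, by omega, by omega, by omega, fun _ => by omega, fun _ => by omega⟩
    obtain ⟨l1, l2, l3, l4, l5, l6⟩ := hl
    refine ⟨(j, i, l), ?_, ⟨by dsimp only; omega, by dsimp only; omega, l1, l2,
      fun h => l5 (h0 h), fun h => l6 (h0' h)⟩, (x, y), ?_, hcn⟩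
    · rw [hS, mem_product, mem_product, mem_Icc, mem_Icc, mem_Icc]
      have g1 : i * ρ ≤ (2 * R) * ρ := by nlinarith
      have g2 : l * ρ ≤ (2 * R) * ρ := by nlinarith
      have g3 : (-2 * R) * (ρ : ℤ) ≤ l * ρ := by nlinarith
      have g4 : (-2 * R) * (ρ : ℤ) ≤ i * ρ := by nlinarith
      exact ⟨⟨hj, hj'⟩, ⟨le_of_mul_le_mul_right g4 hρ0, le_of_mul_le_mul_right g1 hρ0⟩,
        ⟨le_of_mul_le_mul_right g3 hρ0, le_of_mul_le_mul_right g2 hρ0⟩⟩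
    · unfold bxx
      rw [mem_rect]
      dsimp only
      omega
  refine (hcov.trans (P_union hq0 _ _)).trans ?_
  have hterm : ∀ z ∈ S, P q E ∅ (fun ω =>
      ((n : ℤ) - ρ ≤ z.2.1 * ρ ∧ z.2.1 * ρ ≤ 2 * n ∧ -(2 * n : ℤ) ≤ z.2.2 * ρ ∧ z.2.2 * ρ ≤ 2 * n ∧
        (z.1 = 0 → 14 * (ρ : ℤ) ≤ z.2.2 * ρ) ∧ (z.1 = m → z.2.2 * ρ ≤ -(14 * (ρ : ℤ)))) ∧
      Hit (ch z.1) tip (z.2.1 * ρ) (z.2.2 * ρ) ρ ω) ≤
      C1 ^ (m + 1) * P q E ∅ (Hit (ch 0) tip n n ρ) := by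
    intro z hz
    rw [hS, mem_product, mem_Icc] at hz
    by_cases hv : (n : ℤ) - ρ ≤ z.2.1 * ρ ∧ z.2.1 * ρ ≤ 2 * n ∧ -(2 * n : ℤ) ≤ z.2.2 * ρ ∧
        z.2.2 * ρ ≤ 2 * n ∧ (z.1 = 0 → 14 * (ρ : ℤ) ≤ z.2.2 * ρ) ∧
        (z.1 = m → z.2.2 * ρ ≤ -(14 * (ρ : ℤ)))
    · have h1 := hbox z.1 (z.2.1 * ρ) (z.2.2 * ρ) hz.1.1 hz.1.2 hv.1 hv.2.1 hv.2.2.1 hv.2.2.2.1
        hv.2.2.2.2.1 hv.2.2.2.2.2
      refine le_trans (P_mono hq0 ?_) h1
      rintro ζ - ⟨-, h⟩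
      exact h
    · have h1 : P q E ∅ (fun ω =>
          ((n : ℤ) - ρ ≤ z.2.1 * ρ ∧ z.2.1 * ρ ≤ 2 * n ∧ -(2 * n : ℤ) ≤ z.2.2 * ρ ∧ z.2.2 * ρ ≤ 2 * n ∧
            (z.1 = 0 → 14 * (ρ : ℤ) ≤ z.2.2 * ρ) ∧ (z.1 = m → z.2.2 * ρ ≤ -(14 * (ρ : ℤ)))) ∧
          Hit (ch z.1) tip (z.2.1 * ρ) (z.2.2 * ρ) ρ ω) ≤ P q E ∅ (fun _ => False) := by
        apply P_mono hq0
        rintro ζ - ⟨h, -⟩
        exact hv h
      rw [P_false] at h1
      exact h1.trans (mul_nonneg (by positivity) hP0)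
  refine (sum_le_sum hterm).trans ?_
  rw [sum_const, nsmul_eq_mul]
  have hX : 0 ≤ C1 ^ (m + 1) * P q E ∅ (Hit (ch 0) tip n n ρ) := mul_nonneg (by positivity) hP0
  nlinarith

end Pool.Agent.FKR
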