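import Pool.Agent.FKR.Fkg

/-! # FKR/Dom (MP_b3e76a_pr): comparison between boundary conditions

`P_le`: the measure with active edges `E` and frozen open edges `F` is dominated by the one with
`E'`, `F'` if `E ⊆ E' ∪ F'` and if endpoints of edges of `E` which are connected by `F` are connected
by `F'`. (`A` is an increasing event for the first, `B` for the second.)

Proof. Step 0 (`P_le_freeze`): the edges of `E ∩ F'` are made open (positive association).
Step 1: the four functions theorem for the weights `a ↦ W q V (a ∪ F₁)`, `b ↦ W q V (b ∪ F')`,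
`F₁ = F ∪ (E ∩ F')`, `a ⊆ E \ F'`, `b ⊆ E' \ F'` (`four_of_single`, `ws_four`).
-/

namespace Pool.Agent.FKR

open Finset
open Pool.Agent.H95.Wedge (openGraph W Good selfDual W_pos W_insert_of_reach
  W_insert_of_not_reach)
open Pool.Agent.H95.Susc (fil ws Lat mem_fil ws_congr ws_nonneg ws_fkg)
open Pool.Agent.H95.Perc (Inc)

section
variable {α : Type*} [DecidableEq α] {q : ℝ} {E F E' F' : Finset (Sym2 α)}

/-- the condition of the four functions theorem from single insertions -/
theorem four_of_single {β : Type*} [DecidableEq β] {w w' : Finset β → ℝ} (hw : ∀ ω, 0 < w ω)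
    (hw' : ∀ ω, 0 < w' ω) {E₁ E₂ : Finset β} (hE : E₁ ⊆ E₂)
    (h : ∀ a b e, a ⊆ b → a ⊆ E₁ → b ⊆ E₂ → e ∈ E₁ → e ∉ b →
      w (insert e a) * w' b ≤ w a * w' (insert e b)) :
    ∀ a ⊆ E₁, ∀ b ⊆ E₂, w a * w' b ≤ w (a ∩ b) * w' (a ∪ b) := by
  have key : ∀ D : Finset β, D ⊆ E₁ → ∀ a b, a ⊆ b → a ⊆ E₁ → b ⊆ E₂ → Disjoint D b →
      w (a ∪ D) * w' b ≤ w a * w' (b ∪ D) := by
    intro D
    induction D using Finset.induction_on with
    | empty => intro _ a b _ _ _ _; simp
    | insert e D he ih =>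
      intro hD a b hab ha hb hdis
      rw [disjoint_insert_left] at hdis
      have hDE : D ⊆ E₁ := fun x hx => hD (mem_insert_of_mem hx)
      have h1 := ih hDE a b hab ha hb hdis.2
      have h2 := h (a ∪ D) (b ∪ D) e (union_subset_union hab (Subset.refl _))
        (union_subset ha hDE) (union_subset hb (hDE.trans hE)) (hD (mem_insert_self _ _)) (by
          rw [mem_union, not_or]; exact ⟨hdis.1, he⟩)
      rw [union_insert, union_insert]
      have p1 := hw' (b ∪ D)
      have p2 := hw (a ∪ D)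
      have h3 : w (insert e (a ∪ D)) * w' b * (w' (b ∪ D) * w (a ∪ D))
          ≤ w a * w' (insert e (b ∪ D)) * (w' (b ∪ D) * w (a ∪ D)) := by
        calc w (insert e (a ∪ D)) * w' b * (w' (b ∪ D) * w (a ∪ D))
            = (w (insert e (a ∪ D)) * w' (b ∪ D)) * (w (a ∪ D) * w' b) := by ring
          _ ≤ (w (a ∪ D) * w' (insert e (b ∪ D))) * (w a * w' (b ∪ D)) :=
              mul_le_mul h2 h1 (mul_nonneg (hw _).le (hw' _).le)
                (mul_nonneg (hw _).le (hw' _).le)
          _ = _ := by ring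
      exact le_of_mul_le_mul_right h3 (mul_pos p1 p2)
  intro a ha b hb
  have h1 := key (a \ b) (sdiff_subset.trans ha) (a ∩ b) b inter_subset_right
    (inter_subset_left.trans ha) hb disjoint_sdiff_self_left
  have e1 : a ∩ b ∪ a \ b = a := by
    ext x; simp only [mem_union, mem_inter, mem_sdiff]; tauto
  have e2 : b ∪ a \ b = a ∪ b := by
    ext x; simp only [mem_union, mem_sdiff]; tauto
  rwa [e1, e2] at h1

/-- stochastic domination from the condition of the four functions theorem -/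
theorem ws_four {β : Type*} [DecidableEq β] {w w' : Finset β → ℝ} (hw : ∀ ω, 0 ≤ w ω)
    (hw' : ∀ ω, 0 ≤ w' ω) {E₁ E₂ : Finset β} (hE : E₁ ⊆ E₂)
    (h : ∀ a ⊆ E₁, ∀ b ⊆ E₂, w a * w' b ≤ w (a ∩ b) * w' (a ∪ b)) {A B : Finset β → Prop}
    (hAB : ∀ a ⊆ E₁, A a → ∀ b ⊆ E₂, B (a ∪ b)) :
    ws w E₁ A * ws w' E₂ (fun _ => True) ≤ ws w E₁ (fun _ => True) * ws w' E₂ B := by
  classical
  set f : Finset β → ℝ := fun a => if a ⊆ E₁ then w a else 0 with hf
  have hf0 : ∀ a, 0 ≤ f a := by
    intro a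
    simp only [hf]
    split_ifs
    · exact hw a
    · exact le_rfl
  have hfw : ∀ C : Finset β → Prop, ws w E₁ C = ∑ a ∈ fil E₁ C, f a := by
    intro C
    unfold ws
    apply sum_congr rfl
    intro a ha
    simp only [hf]
    rw [if_pos (mem_fil.mp ha).1]
  have h4 := Finset.four_functions_theorem (f₁ := f) (f₂ := w') (f₃ := f) (f₄ := w') E₂
    (fun a => hf0 a) (fun a => hw' a) (fun a => hf0 a) (fun a => hw' a)
    (by
      intro s _ t ht
      by_cases hs : s ⊆ E₁
      · simp only [hf]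
        rw [if_pos hs, if_pos (inter_subset_left.trans hs)]
        exact h s hs t ht
      · have : f s = 0 := by simp only [hf]; rw [if_neg hs]
        rw [this, zero_mul]
        exact mul_nonneg (hf0 _) (hw' _))
    (𝒜 := fil E₁ A) (ℬ := fil E₂ (fun _ => True))
    (by intro x hx; rw [mem_fil] at hx; rw [mem_powerset]; exact hx.1.trans hE)
    (by intro x hx; rw [mem_fil] at hx; rw [mem_powerset]; exact hx.1)
  rw [hfw, hfw]
  unfold ws
  refine h4.trans (mul_le_mul (sum_le_sum_of_subset_of_nonneg ?_ (fun _ _ _ => hf0 _))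
    (sum_le_sum_of_subset_of_nonneg ?_ (fun _ _ _ => hw' _))
    (sum_nonneg (fun i _ => hw' i)) (sum_nonneg (fun i _ => hf0 i)))
  · intro x hx
    rw [mem_infs] at hx
    obtain ⟨a, ha, b, hb, rfl⟩ := hx
    rw [mem_fil] at ha ⊢
    exact ⟨inter_subset_left.trans ha.1, trivial⟩
  · intro x hx
    rw [mem_sups] at hx
    obtain ⟨a, ha, b, hb, rfl⟩ := hx
    rw [mem_fil] at ha hb ⊢
    exact ⟨union_subset (ha.1.trans hE) hb.1, hAB a ha.1 ha.2 b hb.1⟩

lemma dom_wt_sum_pos (hq : 0 < q) (E F : Finset (Sym2 α)) : 0 < ws (wt q E F) E (fun _ => True) := by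
  unfold ws
  exact sum_pos (fun ω _ => wt_pos hq E F ω) ⟨∅, by rw [mem_fil]; simp⟩

/-- increasing events become more likely if some active edges are made open -/
theorem P_le_freeze (hq : 1 ≤ q) (hE : NL E) (hF : NL F) (G : Finset (Sym2 α))
    {A : Finset (Sym2 α) → Prop} (hA : Inc A) :
    P q E F A ≤ P q (E \ G) (F ∪ (E ∩ G)) A := by
  classical
  have hq0 : 0 < q := by linarith
  have hlat := wt_lat hq hE hF
  have hfkg := ws_fkg (w := wt q E F) (E := E) (fun ω => (wt_pos hq0 E F ω).le) hlat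
    (A := fun ζ => A (ζ ∪ F)) (B := fun ζ => E ∩ G ⊆ ζ)
    (fun ω ω' h h' => hA _ _ (union_subset_union h (Subset.refl _)) h')
    (fun ω ω' h h' => h'.trans h)
  have hvt : E \ G ∪ (F ∪ (E ∩ G)) = E ∪ F := by
    ext x; simp only [mem_union, mem_inter, mem_sdiff]; tauto
  have key : ∀ C : Finset (Sym2 α) → Prop,
      ws (wt q E F) E (fun ζ => C (ζ ∪ F) ∧ E ∩ G ⊆ ζ) =
        ws (wt q (E \ G) (F ∪ (E ∩ G))) (E \ G) (fun ζ => C (ζ ∪ (F ∪ (E ∩ G)))) := by
    intro C
    unfold ws
    apply sum_bij' (fun ζ _ => ζ \ G) (fun ζ _ => ζ ∪ (E ∩ G))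
    · intro ζ hζ
      rw [mem_fil] at hζ ⊢
      obtain ⟨h1, h2, h3⟩ := hζ
      refine ⟨sdiff_subset_sdiff h1 (Subset.refl _), ?_⟩
      have : ζ \ G ∪ (F ∪ (E ∩ G)) = ζ ∪ F := by
        ext x
        have h3' := @h3 x
        have h1' := @h1 x
        simp only [mem_union, mem_inter, mem_sdiff] at *
        tauto
      rw [this]; exact h2
    · intro ζ hζ
      rw [mem_fil] at hζ ⊢
      obtain ⟨h1, h2⟩ := hζ
      refine ⟨union_subset (h1.trans sdiff_subset) inter_subset_left, ?_, subset_union_right⟩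
      have : ζ ∪ (E ∩ G) ∪ F = ζ ∪ (F ∪ (E ∩ G)) := by
        ext x; simp only [mem_union, mem_inter]; tauto
      rw [this]; exact h2
    · intro ζ hζ
      rw [mem_fil] at hζ
      obtain ⟨h1, h2, h3⟩ := hζ
      ext x
      have h3' := @h3 x
      have h1' := @h1 x
      simp only [mem_union, mem_inter, mem_sdiff] at *
      tauto
    · intro ζ hζ
      rw [mem_fil] at hζ
      obtain ⟨h1, h2⟩ := hζ
      ext x
      have h1' := @h1 x
      simp only [mem_union, mem_inter, mem_sdiff] at *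
      tauto
    · intro ζ hζ
      rw [mem_fil] at hζ
      obtain ⟨h1, h2, h3⟩ := hζ
      unfold wt
      rw [hvt]
      congr 1
      ext x
      have h3' := @h3 x
      have h1' := @h1 x
      simp only [mem_union, mem_inter, mem_sdiff] at *
      tauto
  have k1 := key A
  have k2 := key (fun _ => True)
  have e2 : ws (wt q E F) E (fun ζ => True ∧ E ∩ G ⊆ ζ) = ws (wt q E F) E (fun ζ => E ∩ G ⊆ ζ) :=
    ws_congr (fun _ _ => by simp)
  rw [e2] at k2
  rw [k1, k2] at hfkg
  unfold P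
  rw [div_le_div_iff₀ (dom_wt_sum_pos hq0 _ _) (dom_wt_sum_pos hq0 _ _)]
  linarith

/-- connections between endpoints of `E` only use that of `F` which joins such endpoints -/
theorem Cn_union_of {a : Finset (Sym2 α)} (ha : a ⊆ E)
    (hc : ∀ u ∈ vts E, ∀ v ∈ vts E, Cn F u v → Cn F' u v) :
    ∀ u ∈ vts E, ∀ v ∈ vts E, Cn (a ∪ F) u v → Cn (a ∪ F') u v := by
  induction a using Finset.induction_on with
  | empty =>
    intro u hu v hv h
    rw [empty_union] at *
    exact hc u hu v hv h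
  | insert e a he ih =>
    have ih' := ih (fun x hx => ha (mem_insert_of_mem hx))
    have heE : e ∈ E := ha (mem_insert_self _ _)
    intro u hu v hv h
    rw [insert_union] at *
    induction e with
    | _ x y =>
      have hx : x ∈ vts E := mem_vts.mpr ⟨_, heE, Sym2.mem_mk_left x y⟩
      have hy : y ∈ vts E := mem_vts.mpr ⟨_, heE, Sym2.mem_mk_right x y⟩
      rw [Cn_insert] at h ⊢
      rcases h with h | ⟨h1, h2⟩ | ⟨h1, h2⟩
      · exact Or.inl (ih' u hu v hv h)
      · exact Or.inr (Or.inl ⟨ih' u hu x hx h1, ih' y hy v hv h2⟩)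
      · exact Or.inr (Or.inr ⟨ih' u hu y hy h1, ih' x hx v hv h2⟩)

/-- the comparison when the active edges are not frozen in the bigger measure -/
theorem P_le_aux (hq : 1 ≤ q) (hE : NL E) (hF : NL F) (hE' : NL E') (hF' : NL F') (h : E ⊆ E')
    (hd : Disjoint E' F')
    (hc : ∀ u ∈ vts E, ∀ v ∈ vts E, Cn F u v → Cn F' u v) {A B : Finset (Sym2 α) → Prop}
    (hB : Inc B) (hAB : ∀ ζ ⊆ E, A (ζ ∪ F) → B (ζ ∪ F')) :
    P q E F A ≤ P q E' F' B := by
  classical
  have hq0 : 0 < q := by linarith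
  have hs1 : 1 ≤ √q := Real.one_le_sqrt.mpr hq
  set V : Finset α := vts (E ∪ F) ∪ vts (E' ∪ F') with hV
  have hVE : vts (E ∪ F) ⊆ V := subset_union_left
  have hVE' : vts (E' ∪ F') ⊆ V := subset_union_right
  rw [P_eq_V hq0 hE hF hVE, P_eq_V hq0 hE' hF' hVE']
  have hpos : ∀ E₀ F₀ : Finset (Sym2 α), 0 < ws (fun ζ => W q V (ζ ∪ F₀)) E₀ (fun _ => True) := by
    intro E₀ F₀
    unfold ws
    exact sum_pos (fun ω _ => W_pos hq0 V _) ⟨∅, by rw [mem_fil]; simp⟩
  rw [div_le_div_iff₀ (hpos _ _) (hpos _ _)]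
  have hmain := ws_four (w := fun ζ => W q V (ζ ∪ F)) (w' := fun ζ => W q V (ζ ∪ F'))
    (fun ω => (W_pos hq0 V _).le) (fun ω => (W_pos hq0 V _).le) h ?_
    (A := fun ζ => A (ζ ∪ F)) (B := fun ζ => B (ζ ∪ F')) ?_
  · rw [mul_comm (ws (fun ζ => W q V (ζ ∪ F')) E' _)]; exact hmain
  · apply four_of_single (fun ω => W_pos hq0 V _) (fun ω => W_pos hq0 V _) h
    intro a b e hab ha hb he heb
    have heE' : e ∈ E' := h he
    have heF' : e ∉ F' := fun k => (disjoint_left.mp hd) heE' k
    have hbF : e ∉ b ∪ F' := by rw [mem_union, not_or]; exact ⟨heb, heF'⟩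
    simp only [insert_union]
    induction e with
    | _ x y =>
      have hne : x ≠ y := by
        intro k
        exact hE _ he (by rw [Sym2.mk_isDiag_iff]; exact k)
      have hx : x ∈ vts E := mem_vts.mpr ⟨_, he, Sym2.mem_mk_left x y⟩
      have hy : y ∈ vts E := mem_vts.mpr ⟨_, he, Sym2.mem_mk_right x y⟩
      have hxV : x ∈ V := hVE (vts_mono subset_union_left hx)
      have hyV : y ∈ V := hVE (vts_mono subset_union_left hy)
      have pa := W_pos hq0 V (a ∪ F)
      have pb := W_pos hq0 V (b ∪ F')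
      have hstep : Cn (a ∪ F) x y → Cn (b ∪ F') x y := by
        intro k
        exact (Cn_union_of ha hc x hx y hy k).mono (union_subset_union hab (Subset.refl _))
      by_cases heF : s(x, y) ∈ a ∪ F
      · rw [insert_eq_of_mem heF]
        have h2 : Cn (b ∪ F') x y := hstep (Cn_edge heF)
        rw [W_insert_of_reach hq0 hne hbF h2]
        nlinarith [mul_pos pa pb]
      · by_cases h1 : Cn (a ∪ F) x y
        · have h2 := hstep h1
          rw [W_insert_of_reach hq0 hne hbF h2, W_insert_of_reach hq0 hne heF h1]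
          apply le_of_eq; ring
        · have e1 := W_insert_of_not_reach (V := V) hq0 hne hxV hyV heF h1
          have pa' := W_pos hq0 V (insert s(x, y) (a ∪ F))
          have pb' := W_pos hq0 V (insert s(x, y) (b ∪ F'))
          by_cases h2 : Cn (b ∪ F') x y
          · have e2 := W_insert_of_reach (V := V) hq0 hne hbF h2
            rw [e1, e2]
            have : 1 ≤ √q * √q := by nlinarith
            nlinarith [mul_pos pa' pb]
          · have e2 := W_insert_of_not_reach (V := V) hq0 hne hxV hyV hbF h2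
            rw [e1, e2]
            apply le_of_eq; ring
  · intro a ha hAa b hb
    exact hB _ _ (union_subset_union subset_union_left (Subset.refl _)) (hAB a ha hAa)

theorem P_le (hq : 1 ≤ q) (hE : NL E) (hF : NL F) (hE' : NL E') (hF' : NL F') (h : E ⊆ E' ∪ F')
    (hc : ∀ u ∈ vts E, ∀ v ∈ vts E, Cn F u v → Cn F' u v) {A B : Finset (Sym2 α) → Prop}
    (hA : Inc A) (hB : Inc B) (hAB : ∀ ζ ⊆ E, A (ζ ∪ F) → B (ζ ∪ F')) :
    P q E F A ≤ P q E' F' B := by
  have hq0 : 0 < q := by linarith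
  rw [← P_sdiff hq0 E' F' B]
  refine (P_le_freeze hq hE hF F' hA).trans ?_
  apply P_le_aux hq (hE.mono sdiff_subset) (hF.union (hE.mono inter_subset_left))
    (hE'.mono sdiff_subset) hF' ?_ disjoint_sdiff_self_left ?_ hB ?_
  · intro e he
    rw [mem_sdiff] at he ⊢
    rcases mem_union.mp (h he.1) with k | k
    · exact ⟨k, he.2⟩
    · exact absurd k he.2
  · intro u hu v hv k
    have hu' : u ∈ vts E := vts_mono sdiff_subset hu
    have hv' : v ∈ vts E := vts_mono sdiff_subset hv
    rw [union_comm] at k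
    have := Cn_union_of (inter_subset_left : E ∩ F' ⊆ E) hc u hu' v hv' k
    rwa [union_eq_right.mpr inter_subset_right] at this
  · intro ζ hζ k
    have e1 : ζ ∪ (F ∪ (E ∩ F')) = (ζ ∪ (E ∩ F')) ∪ F := by
      ext x; simp only [mem_union, mem_inter]; tauto
    rw [e1] at k
    have := hAB (ζ ∪ (E ∩ F')) (union_subset (hζ.trans sdiff_subset) inter_subset_left) k
    rwa [union_assoc, union_eq_right.mpr (inter_subset_right : E ∩ F' ⊆ F')] at this

/-- monotonicity in active and frozen edges -/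
theorem P_mono_EF (hq : 1 ≤ q) (hE' : NL E') (hF' : NL F') (h : E ⊆ E' ∪ F') (h' : F ⊆ F')
    {A : Finset (Sym2 α) → Prop} (hA : Inc A) : P q E F A ≤ P q E' F' A :=
  P_le hq ((hE'.union hF').mono h) (hF'.mono h') hE' hF' h (fun _ _ _ _ k => k.mono h') hA hA
    (fun _ _ k => hA _ _ (union_subset_union (Subset.refl _) h') k)

/-- the same for decreasing events, different boundary connections -/
theorem P_ge (hq : 1 ≤ q) (hE : NL E) (hF : NL F) (hE' : NL E') (hF' : NL F') (h : E ⊆ E' ∪ F')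
    (hc : ∀ u ∈ vts E, ∀ v ∈ vts E, Cn F u v → Cn F' u v) {A B : Finset (Sym2 α) → Prop}
    (hA : Dcr A) (hB : Dcr B) (hAB : ∀ ζ ⊆ E, B (ζ ∪ F') → A (ζ ∪ F)) :
    P q E' F' B ≤ P q E F A := by
  have hq0 : 0 < q := by linarith
  have h1 := P_le hq hE hF hE' hF' h hc (A := fun ω => ¬ A ω) (B := fun ω => ¬ B ω)
    (fun ω ω' k k' k'' => k' (hA ω ω' k k'')) (fun ω ω' k k' k'' => k' (hB ω ω' k k''))
    (fun ζ hζ k k' => k (hAB ζ hζ k'))
  rw [P_not hq0, P_not hq0] at h1
  linarith

/-- the same for decreasing events -/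
theorem P_anti_EF (hq : 1 ≤ q) (hE' : NL E') (hF' : NL F') (h : E ⊆ E' ∪ F') (h' : F ⊆ F')
    {A : Finset (Sym2 α) → Prop} (hA : Dcr A) : P q E' F' A ≤ P q E F A :=
  P_ge hq ((hE'.union hF').mono h) (hF'.mono h') hE' hF' h (fun _ _ _ _ k => k.mono h') hA hA
    (fun _ _ k => hA _ _ (union_subset_union (Subset.refl _) h') k)

end

end Pool.Agent.FKR
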