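import Pool.Agent.FKR.R2exp
import Pool.Agent.FKR.Dom

/-! # FKR/FB (MP_b3e76a_pr): non-crossings with free boundary conditions

`FBv`: with free boundary conditions on an arbitrary finite vertex set `V`, a rectangle of height `≥ 3` has no
bottom-top crossing with probability `≥ c ^ k`, `width ≤ k * height`. Proof: choose a cylinder of height `h = (y1 - y0) + 2 t`
and circumference `2 m + 1` so large that, after a translation by `(a, b)` which maps `rect x0 x1 y0 y1` to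
`rect 1 (b' + 1) t (h - t)`... (more conveniently: to `rect (1 + s) (b' + 1 + s) t (h-t)`, `s` large, and rotate back with
`Pc_ver_shift` for the complementary event, `P_not`), `V` is mapped into `rect 0 (2 m) 1 h`; then `P_map`
(`Perc.trans`), `P_anti_EF` (`edgesIn (V shifted) ⊆ cylE`) and `R2nexp`.
`FBh`: transposition (`P_map` with `Perc.diag`). -/

namespace Pool.Agent.FKR

open Finset
open Pool.Agent.H95.Perc (Inc conn link rect hor ver eh ev sumE sepE Inci mem_rect)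
open Pool.Agent.H95.SumRule (edgesIn Z2)

variable {q : ℝ}

/-- transport of free crossing probabilities by a lattice automorphism -/
lemma FB_link_map (hq : 0 < q) {σ : (ℤ × ℤ) ≃ (ℤ × ℤ)} (hσ : Pool.Agent.H95.Perc.IsAut σ)
    (V R : Finset (ℤ × ℤ)) (A B : ℤ × ℤ → Prop) :
    P q (edgesIn (V.image σ)) ∅ (fun ω => ¬ link (R.image σ) A B ω) =
      P q (edgesIn V) ∅ (fun ω => ¬ link R (fun v => A (σ v)) (fun v => B (σ v)) ω) := by
  have h1 := P_map (E := edgesIn V) (F := ∅) hq (NL_edgesIn V) (fun e he => absurd he (notMem_empty e))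
    (f := σ) σ.injective.injOn (fun ω => ¬ link (R.image σ) A B ω)
  have e1 : img σ (edgesIn V) = edgesIn (V.image σ) := by
    rw [Pool.Agent.H95.Perc.edgesIn_image hσ]; rfl
  have e2 : img σ (∅ : Finset (Sym2 (ℤ × ℤ))) = ∅ := by
    unfold img; exact image_empty _
  rw [e1, e2] at h1
  rw [h1]
  apply P_congr
  intro ζ _
  exact not_congr (Pool.Agent.H95.Perc.link_act hσ)

/-- the edges of a rectangle above the bottom circle are active in the cylinder -/
lemma FB_edges_sub {M h : ℤ} {V : Finset (ℤ × ℤ)}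
    (hV : ∀ v ∈ V, 0 ≤ v.1 ∧ v.1 ≤ M - 1 ∧ 1 ≤ v.2 ∧ v.2 ≤ h) :
    edgesIn V ⊆ cylE M h ∪ cylF M := by
  intro e he
  induction e with
  | _ x y =>
    rw [Pool.Agent.H95.Perc.mem_edgesIn'] at he
    have hx := hV x he.1
    have hy := hV y he.2.1
    apply mem_union_left
    unfold cylE
    apply mem_union_left
    rw [mem_sdiff, Pool.Agent.H95.Perc.mem_edgesIn', Pool.Agent.H95.Perc.mem_edgesIn', mem_rect,
      mem_rect, mem_rect, mem_rect]
    refine ⟨⟨⟨hx.1, hx.2.1, by omega, hx.2.2.2⟩, ⟨hy.1, hy.2.1, by omega, hy.2.2.2⟩, he.2.2⟩, ?_⟩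
    rintro ⟨h1, -⟩
    omega

/-- coordinates of a finite set are bounded -/
lemma FB_bound (V : Finset (ℤ × ℤ)) : ∃ B : ℤ, 0 ≤ B ∧ ∀ v ∈ V, |v.1| ≤ B ∧ |v.2| ≤ B := by
  refine ⟨∑ v ∈ V, (|v.1| + |v.2|), sum_nonneg fun v _ => by positivity, ?_⟩
  intro v hv
  have h1 : |v.1| + |v.2| ≤ ∑ v ∈ V, (|v.1| + |v.2|) :=
    single_le_sum (f := fun v : ℤ × ℤ => |v.1| + |v.2|) (fun v _ => by positivity) hv
  have h2 := abs_nonneg v.1
  have h3 := abs_nonneg v.2
  constructor <;> linarith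

theorem FBv (hq : 1 ≤ q) : ∃ c : ℝ, 0 < c ∧ c ≤ 1 ∧ ∀ (k : ℕ) (V : Finset (ℤ × ℤ)) (x0 x1 y0 y1 : ℤ),
    1 ≤ k → x0 ≤ x1 → 3 ≤ y1 - y0 → x1 - x0 ≤ k * (y1 - y0) →
    c ^ k ≤ P q (edgesIn V) ∅ (fun ω => ¬ ver x0 x1 y0 y1 ω) := by
  have hq0 : 0 < q := by linarith
  obtain ⟨c, hc0, hc1, K, hK, hR⟩ := R2nexp hq
  refine ⟨c, hc0, hc1, ?_⟩
  intro k V x0 x1 y0 y1 hk hx hy hxy
  obtain ⟨B0, hB0, hB⟩ := FB_bound V
  obtain ⟨B, hBd⟩ : ∃ B, B = B0 + |x0| + |x1| + |y0| + |y1| := ⟨_, rfl⟩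
  have ax0 := abs_nonneg x0
  have ax1 := abs_nonneg x1
  have ay0 := abs_nonneg y0
  have ay1 := abs_nonneg y1
  have bx0 := abs_le.mp (le_refl |x0|)
  have bx1 := abs_le.mp (le_refl |x1|)
  have by0 := abs_le.mp (le_refl |y0|)
  have by1 := abs_le.mp (le_refl |y1|)
  set t : ℤ := 1 + 2 * B with ht
  set h : ℤ := y1 - y0 + 2 * t with hh
  have hhT : h - 2 * t = y1 - y0 := by rw [hh]; ring
  obtain ⟨G, hG⟩ : ∃ G, G = K * (k + 1) * (y1 - y0) := ⟨_, rfl⟩
  have hG0 : 0 ≤ G := by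
    rw [hG]
    have : (0 : ℤ) ≤ k := Int.natCast_nonneg k
    have h3 : (0 : ℤ) ≤ K * (k + 1) := by positivity
    exact mul_nonneg h3 (by omega)
  set m : ℤ := G + B + 1 with hm
  have hM : (3 : ℤ) ≤ 2 * m + 1 := by omega
  have hh0 : 0 ≤ h := by omega
  have h1 := hR k m h t (x1 - x0) hk (by omega) (by omega) (by rw [hhT, ← hG]; omega) (by omega)
    (by rw [hhT]; exact hxy)
  refine h1.trans ?_
  -- shift back
  set a : ℤ := B with ha
  set d : ℤ := t - y0 with hd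
  have hshift : Pc q (2 * m + 1) h (fun ω => ¬ ver 1 (x1 - x0 + 1) t (h - t) ω) =
      Pc q (2 * m + 1) h (fun ω => ¬ ver (x0 + a) (x1 + a) t (h - t) ω) := by
    have s1 := Pc_ver_shift (q := q) hq0 hM hh0 (x := 1) (b := x1 - x0) (y0 := t) (y1 := h - t)
      (by omega) (by omega) (by omega)
    have s2 := Pc_ver_shift (q := q) hq0 hM hh0 (x := x0 + a) (b := x1 - x0) (y0 := t) (y1 := h - t)
      (by omega) (by omega) (by omega)
    rw [show (1 : ℤ) + (x1 - x0) = x1 - x0 + 1 by ring] at s1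
    rw [show x0 + a + (x1 - x0) = x1 + a by ring] at s2
    unfold Pc at s1 s2 ⊢
    rw [P_not hq0, P_not hq0, s1, s2]
  rw [hshift]
  have hmap := FB_link_map (q := q) hq0 (Pool.Agent.H95.Perc.isAut_trans a d) V (rect x0 x1 y0 y1)
    (fun v => v.2 = t) (fun v => v.2 = h - t)
  have e1 : (fun ω => ¬ link (rect x0 x1 y0 y1)
      (fun v => (Pool.Agent.H95.Perc.trans a d v).2 = t)
      (fun v => (Pool.Agent.H95.Perc.trans a d v).2 = h - t) ω) =
      fun ω => ¬ ver x0 x1 y0 y1 ω := by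
    have f1 : (fun v : ℤ × ℤ => (Pool.Agent.H95.Perc.trans a d v).2 = t) = fun v => v.2 = y0 := by
      funext v
      have : (Pool.Agent.H95.Perc.trans a d v).2 = v.2 + d := rfl
      rw [this]
      exact propext ⟨fun k => by omega, fun k => by omega⟩
    have f2 : (fun v : ℤ × ℤ => (Pool.Agent.H95.Perc.trans a d v).2 = h - t) =
        fun v => v.2 = y1 := by
      funext v
      have : (Pool.Agent.H95.Perc.trans a d v).2 = v.2 + d := rfl
      rw [this]
      exact propext ⟨fun k => by omega, fun k => by omega⟩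
    rw [f1, f2]
    rfl
  rw [e1, Pool.Agent.H95.Perc.rect_trans] at hmap
  rw [← hmap, show y0 + d = t by omega, show y1 + d = h - t by omega]
  unfold Pc
  refine P_anti_EF hq (NL_cylE hM) (NL_cylF hM) (FB_edges_sub ?_) (empty_subset _) ?_
  · intro v hv
    rw [mem_image] at hv
    obtain ⟨w, hw, rfl⟩ := hv
    have hw1 := hB w hw
    have g1 := abs_le.mp hw1.1
    have g2 := abs_le.mp hw1.2
    have e2 : (Pool.Agent.H95.Perc.trans a d w).1 = w.1 + a := rfl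
    have e3 : (Pool.Agent.H95.Perc.trans a d w).2 = w.2 + d := rfl
    rw [e2, e3]
    refine ⟨by omega, by omega, by omega, by omega⟩
  · intro ω ω' hω hn hv
    exact hn (Pool.Agent.H95.Perc.inc_ver _ _ _ _ _ _ hω hv)

theorem FBh (hq : 1 ≤ q) : ∃ c : ℝ, 0 < c ∧ c ≤ 1 ∧ ∀ (k : ℕ) (V : Finset (ℤ × ℤ)) (x0 x1 y0 y1 : ℤ),
    1 ≤ k → y0 ≤ y1 → 3 ≤ x1 - x0 → y1 - y0 ≤ k * (x1 - x0) →
    c ^ k ≤ P q (edgesIn V) ∅ (fun ω => ¬ hor x0 x1 y0 y1 ω) := by
  have hq0 : 0 < q := by linarith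
  obtain ⟨c, hc0, hc1, h⟩ := FBv hq
  refine ⟨c, hc0, hc1, ?_⟩
  intro k V x0 x1 y0 y1 hk hy hx hxy
  have h1 := h k (V.image Pool.Agent.H95.Perc.diag) y0 y1 x0 x1 hk hy hx hxy
  have hmap := FB_link_map (q := q) hq0 Pool.Agent.H95.Perc.isAut_diag V (rect x0 x1 y0 y1)
    (fun v => v.2 = x0) (fun v => v.2 = x1)
  rw [Pool.Agent.H95.Perc.rect_diag] at hmap
  exact h1.trans (le_of_eq hmap)

end Pool.Agent.FKR
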