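import Pool.Agent.FKR.RectH1

/-! # FKR/RectDual (MP_b3e76a_pr): planar duality in a rectangle, Euler's formula and conclusion

`clusters_eq_card_image`: if `Cn ω u v ↔ r u = r v` for `u v ∈ V` then `clusters V ω = #(V.image r)`.
(`Wedge.clusters_eq` expresses `clusters` as the number of classes.)

Euler: with `w = x1 - x0`, `h = y1 - y0`: `clusters (rect x0 x1 y0 y1) ∅ = (w+1)(h+1)` (`r = id`),
`clusters _ (edgesIn _) = 1` (`r` constant), `clusters (rect (x0-1) x1 (y0-1) y1) ring = w h + 1`
(`r` maps all ring faces to one face and is the identity on inner faces, use `mem_ring`,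
`ring_connected`, and `Cn.closed`), `clusters _ ((edgesIn _).image star ∪ ring) = 1` (this is
`edgesIn` of the face rectangle), `#(edgesIn (rect x0 x1 y0 y1)) = w (h+1) + (w+1) h`. -/

namespace Pool.Agent.FKR

open Finset
open Pool.Agent.H95.Wedge (openGraph W Good selfDual clusters)
open Pool.Agent.H95.Perc (Inc conn link rect hor ver eh ev sumE sepE Inci mem_rect)
open Pool.Agent.H95.SumRule (edgesIn Z2)

theorem clusters_eq_card_image {α β : Type*} [DecidableEq α] [DecidableEq β] {V : Finset α}
    {ω : Finset (Sym2 α)} {r : α → β} (h : ∀ u ∈ V, ∀ v ∈ V, Cn ω u v ↔ r u = r v) :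
    clusters V ω = #(V.image r) := by
  classical
  rw [Pool.Agent.H95.Wedge.clusters_eq]
  let f : α → (openGraph ω).ConnectedComponent := fun v => (openGraph ω).connectedComponentMk v
  have hf : ∀ u ∈ V, ∀ v ∈ V, f u = f v ↔ r u = r v := by
    intro u hu v hv
    rw [← h u hu v hv]
    exact SimpleGraph.ConnectedComponent.eq
  have e1 : (V.image fun v => (f v, r v)).image Prod.fst = V.image f := by
    rw [image_image]; rfl
  have e2 : (V.image fun v => (f v, r v)).image Prod.snd = V.image r := by
    rw [image_image]; rfl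
  change #(V.image f) = _
  have c1 : #((V.image fun v => (f v, r v)).image Prod.fst) = #(V.image fun v => (f v, r v)) := by
    apply card_image_of_injOn
    intro a ha b hb hab
    simp only [coe_image, Set.mem_image, mem_coe] at ha hb
    obtain ⟨u, hu, rfl⟩ := ha
    obtain ⟨v, hv, rfl⟩ := hb
    simp only at hab
    rw [Prod.mk.injEq]
    exact ⟨hab, (hf u hu v hv).1 hab⟩
  have c2 : #((V.image fun v => (f v, r v)).image Prod.snd) = #(V.image fun v => (f v, r v)) := by
    apply card_image_of_injOn
    intro a ha b hb hab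
    simp only [coe_image, Set.mem_image, mem_coe] at ha hb
    obtain ⟨u, hu, rfl⟩ := ha
    obtain ⟨v, hv, rfl⟩ := hb
    simp only at hab
    rw [Prod.mk.injEq]
    exact ⟨(hf u hu v hv).2 hab, hab⟩
  rw [← e1, c1, ← e2, c2]

/-- a rectangle is connected -/
theorem rect_Cn {x0 x1 y0 y1 : ℤ} {u v : ℤ × ℤ} (hu : u ∈ rect x0 x1 y0 y1)
    (hv : v ∈ rect x0 x1 y0 y1) : Cn (edgesIn (rect x0 x1 y0 y1)) u v := by
  have key : ∀ w ∈ rect x0 x1 y0 y1, Cn (edgesIn (rect x0 x1 y0 y1)) (x0, y0) w := by
    rintro ⟨a, b⟩ hw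
    rw [mem_rect] at hw
    obtain ⟨h1, h2, h3, h4⟩ := hw
    simp only at h1 h2 h3 h4
    have hrow : ∀ a, x0 ≤ a → a ≤ x1 → Cn (edgesIn (rect x0 x1 y0 y1)) (x0, y0) (a, y0) := by
      intro a ha
      induction a, ha using Int.le_induction with
      | base => intro _; exact Cn_refl _ _
      | succ n hn ih =>
        intro hn1
        refine (ih (by omega)).trans (Cn_edge ?_)
        exact eh_mem_edgesIn_rect.2 ⟨by omega, by omega, by omega, by omega⟩
    have hcol : ∀ b, y0 ≤ b → b ≤ y1 → Cn (edgesIn (rect x0 x1 y0 y1)) (a, y0) (a, b) := by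
      intro b hb
      induction b, hb using Int.le_induction with
      | base => intro _; exact Cn_refl _ _
      | succ n hn ih =>
        intro hn1
        refine (ih (by omega)).trans (Cn_edge ?_)
        exact ev_mem_edgesIn_rect.2 ⟨by omega, by omega, by omega, by omega⟩
    exact (hrow a h1 h2).trans (hcol b h3 h4)
  exact (key u hu).symm.trans (key v hv)

theorem card_edgesIn_rect {w h : ℕ} (x0 y0 : ℤ) :
    #(edgesIn (rect x0 (x0 + w) y0 (y0 + h))) = w * (h + 1) + (w + 1) * h := by
  have e : edgesIn (rect x0 (x0 + w) y0 (y0 + h)) =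
      ((Ico x0 (x0 + w) ×ˢ Icc y0 (y0 + h)).image fun p => eh p.1 p.2) ∪
      ((Icc x0 (x0 + w) ×ˢ Ico y0 (y0 + h)).image fun p => ev p.1 p.2) := by
    ext e
    simp only [mem_union, mem_image, mem_product, mem_Ico, mem_Icc, Prod.exists]
    constructor
    · intro he
      obtain ⟨x, y, rfl | rfl⟩ := edgesIn_cases he
      · rw [eh_mem_edgesIn_rect] at he
        exact Or.inl ⟨x, y, ⟨⟨by omega, by omega⟩, by omega, by omega⟩, rfl⟩
      · rw [ev_mem_edgesIn_rect] at he
        exact Or.inr ⟨x, y, ⟨⟨by omega, by omega⟩, by omega, by omega⟩, rfl⟩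
    · rintro (⟨x, y, hxy, rfl⟩ | ⟨x, y, hxy, rfl⟩)
      · rw [eh_mem_edgesIn_rect]; omega
      · rw [ev_mem_edgesIn_rect]; omega
  rw [e, card_union_of_disjoint, card_image_of_injOn, card_image_of_injOn, card_product,
    card_product]
  · simp only [Int.card_Ico, Int.card_Icc]
    have h1 : (x0 + w - x0).toNat = w := by omega
    have h2 : (y0 + h + 1 - y0).toNat = h + 1 := by omega
    have h3 : (x0 + w + 1 - x0).toNat = w + 1 := by omega
    have h4 : (y0 + h - y0).toNat = h := by omega
    rw [h1, h2, h3, h4]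
  · rintro ⟨a, b⟩ - ⟨c, d⟩ - hab
    simp only [ev_inj] at hab
    rw [Prod.mk.injEq]; exact hab
  · rintro ⟨a, b⟩ - ⟨c, d⟩ - hab
    simp only [eh_inj] at hab
    rw [Prod.mk.injEq]; exact hab
  · rw [disjoint_left]
    intro e he he'
    simp only [mem_image, Prod.exists] at he he'
    obtain ⟨a, b, -, rfl⟩ := he
    obtain ⟨c, d, -, h'⟩ := he'
    exact eh_ne_ev h'.symm

variable {x0 x1 y0 y1 : ℤ} {q : ℝ}

private theorem card_rect (a b c d : ℤ) :
    #(rect a b c d) = (b + 1 - a).toNat * (d + 1 - c).toNat := by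
  rw [rect, card_product, Int.card_Icc, Int.card_Icc]

private theorem euler_ring (hx : x0 < x1) (hy : y0 < y1) :
    clusters (rect (x0 - 1) x1 (y0 - 1) y1) (ring x0 x1 y0 y1) =
      (x1 - x0).toNat * (y1 - y0).toNat + 1 := by
  classical
  let r : ℤ × ℤ → ℤ × ℤ := fun f => if Rg x0 x1 y0 y1 f then (x0 - 1, y0 - 1) else f
  have h0 : Rg x0 x1 y0 y1 (x0 - 1, y0 - 1) := by
    refine ⟨?_, Or.inl rfl⟩
    rw [mem_rect]; simp only; omega
  rw [clusters_eq_card_image (r := r)]
  · have himg : (rect (x0 - 1) x1 (y0 - 1) y1).image r =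
        insert (x0 - 1, y0 - 1) (rect x0 (x1 - 1) y0 (y1 - 1)) := by
      ext ⟨a, b⟩
      rw [mem_image, mem_insert]
      constructor
      · rintro ⟨f, hf, hfe⟩
        by_cases hR : Rg x0 x1 y0 y1 f
        · left; rw [← hfe]; simp only [r, if_pos hR]
        · right
          simp only [r, if_neg hR] at hfe
          subst hfe
          have : ¬ ((a, b).1 = x0 - 1 ∨ (a, b).1 = x1 ∨ (a, b).2 = y0 - 1 ∨ (a, b).2 = y1) :=
            fun h => hR ⟨hf, h⟩
          rw [mem_rect] at hf ⊢
          simp only at hf this ⊢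
          omega
      · rintro (h | h)
        · rw [h]
          exact ⟨(x0 - 1, y0 - 1), h0.1, by simp only [r, if_pos h0]⟩
        · rw [mem_rect] at h
          simp only at h
          refine ⟨(a, b), ?_, ?_⟩
          · rw [mem_rect]; simp only; omega
          · have hR : ¬ Rg x0 x1 y0 y1 (a, b) := by
              rintro ⟨-, h'⟩
              simp only at h'
              omega
            simp only [r, if_neg hR]
    rw [himg, card_insert_of_notMem, card_rect]
    · have e1 : x1 - 1 + 1 - x0 = x1 - x0 := by ring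
      have e2 : y1 - 1 + 1 - y0 = y1 - y0 := by ring
      rw [e1, e2]
    · rw [mem_rect]; simp only; omega
  · intro u hu v hv
    constructor
    · intro h
      refine (h.closed (S := fun z => r u = r z) rfl ?_)
      intro x y hx' hxy
      rw [mem_ring hx hy] at hxy
      rw [hx']
      simp only [r, if_pos hxy.1, if_pos hxy.2.1]
    · intro h
      by_cases hu' : Rg x0 x1 y0 y1 u
      · by_cases hv' : Rg x0 x1 y0 y1 v
        · exact ring_connected hx hy hu' hv'
        · simp only [r, if_pos hu', if_neg hv'] at h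
          rw [← h] at hv'
          exact absurd h0 hv'
      · by_cases hv' : Rg x0 x1 y0 y1 v
        · simp only [r, if_neg hu', if_pos hv'] at h
          rw [h] at hu'
          exact absurd h0 hu'
        · simp only [r, if_neg hu', if_neg hv'] at h
          rw [h]
          exact Cn_refl _ _

private theorem euler_empty {V : Finset (ℤ × ℤ)} : clusters V ∅ = #V := by
  rw [clusters_eq_card_image (r := id), image_id]
  intro u _ v _
  constructor
  · intro h
    exact h.closed (S := fun z => id u = id z) rfl (fun x y _ hxy => absurd hxy (by simp))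
  · intro h
    rw [id, id] at h
    rw [h]
    exact Cn_refl _ _

private theorem euler_full {V : Finset (ℤ × ℤ)} {ω : Finset (Sym2 (ℤ × ℤ))} (hV : V.Nonempty)
    (h : ∀ u ∈ V, ∀ v ∈ V, Cn ω u v) : clusters V ω = 1 := by
  rw [clusters_eq_card_image (r := fun _ => ()), image_const hV, card_singleton]
  intro u hu v hv
  exact ⟨fun _ => rfl, fun _ => h u hu v hv⟩

theorem star_union_ring :
    (edgesIn (rect x0 x1 y0 y1)).image star ∪ ring x0 x1 y0 y1 =
      edgesIn (rect (x0 - 1) x1 (y0 - 1) y1) := by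
  rw [ring]
  exact union_sdiff_of_subset star_edgesIn_subset

theorem rect_dualPair (hx : x0 < x1) (hy : y0 < y1) :
    DualPair (rect x0 x1 y0 y1) (edgesIn (rect x0 x1 y0 y1)) ∅ (rect (x0 - 1) x1 (y0 - 1) y1)
      (ring x0 x1 y0 y1) star where
  nl := by rw [union_empty]; exact NL_edgesIn _
  nl' := by rw [star_union_ring]; exact NL_edgesIn _
  hV := by rw [union_empty]; exact vts_edgesIn _
  hV' := by rw [star_union_ring]; exact vts_edgesIn _
  dis := disjoint_empty_right _
  dis' := disjoint_sdiff
  inj := star_injOn _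
  h1 := by
    intro ω hω x y he he' f g hfg hn
    rw [union_empty]
    exact rect_h1 hx hy hω he he' hfg hn
  euler := by
    have hne : (rect x0 x1 y0 y1).Nonempty := ⟨(x0, y0), by rw [mem_rect]; simp only; omega⟩
    have hne' : (rect (x0 - 1) x1 (y0 - 1) y1).Nonempty :=
      ⟨(x0, y0), by rw [mem_rect]; simp only; omega⟩
    rw [star_union_ring, union_empty, euler_empty, euler_ring hx hy,
      euler_full hne (fun u hu v hv => rect_Cn hu hv),
      euler_full hne' (fun u hu v hv => rect_Cn hu hv), card_rect]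
    obtain ⟨w, hw⟩ : ∃ w : ℕ, x1 = x0 + w := ⟨(x1 - x0).toNat, by omega⟩
    obtain ⟨h, hh⟩ : ∃ h : ℕ, y1 = y0 + h := ⟨(y1 - y0).toNat, by omega⟩
    subst hw hh
    rw [card_edgesIn_rect]
    have h1 : (x0 + w + 1 - x0).toNat = w + 1 := by omega
    have h2 : (y0 + h + 1 - y0).toNat = h + 1 := by omega
    have h3 : (x0 + w - x0).toNat = w := by omega
    have h4 : (y0 + h - y0).toNat = h := by omega
    rw [h1, h2, h3, h4]
    ring

/-- planar duality in a rectangle: free primal boundary, wired dual boundary -/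
theorem rect_dual (hq : 0 < q) (hx : x0 < x1) (hy : y0 < y1) {E F : Finset (Sym2 (ℤ × ℤ))}
    (hE : E ⊆ edgesIn (rect x0 x1 y0 y1)) (hF : F ⊆ edgesIn (rect x0 x1 y0 y1)) (hEF : Disjoint E F)
    (B : Finset (Sym2 (ℤ × ℤ)) → Prop) :
    P q E F (fun ω => B ((edgesIn (rect x0 x1 y0 y1) \ ω).image star ∪ ring x0 x1 y0 y1)) =
      P q (E.image star)
        ((edgesIn (rect x0 x1 y0 y1) \ (E ∪ F)).image star ∪ ring x0 x1 y0 y1) B := by
  have h := (rect_dualPair hx hy).adual hq hE hF hEF B
  rwa [union_empty] at h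

end Pool.Agent.FKR
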