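import Pool.Agent.FKR.Faces

/-! # FKR/Topo (MP_b3e76a_pr): crossings and dual crossings of rectangles

`ver_iff`: there is a bottom-top crossing of `rect x0 x1 y0 y1` by edges of `κ` iff no face of the left
column `x0 - 1` is connected to a face of the right column `x1` in the face graph `dG` on
`rect (x0-1) x1 y0 (y1-1)` with the edges of `κ` (inside the rectangle) blocked.
For `x0 = y0 = 0` this is `nodual_of_link` / `link_of_nodual` of `H95/Perc/Dual`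
(`dualG m n ω = dG (rect (-1) m 0 (n-1)) (ω ∩ edgesIn (rect 0 m 0 n))`; all faces of the left column are
joined to `(-1, 0)`, `U_left`); the general case by translation (`Perc.trans`, `Perc.act`, `conn_act`,
`sepE` commutes with translations). `hor_iff` from `ver_iff` by the diagonal reflection `Perc.diag`
(`sepE (diag f) (diag g) = Sym2.map diag (sepE f g)` for adjacent faces).

`ver_iff_star`, `hor_iff_star`: the same with the dual crossing expressed as a crossing by dual edges in the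
sense of `hor`, `ver`: a path in `dG` from column `x0 - 1` to column `x1` may be shortened to one which
only meets these columns at its ends (`hor`-crossings likewise), and then all the edges it crosses
are in `edgesIn (rect x0 x1 y0 y1)`. -/

namespace Pool.Agent.FKR

open Finset
open Pool.Agent.H95.Wedge (openGraph W Good selfDual clusters)
open Pool.Agent.H95.Perc (Inc conn link rect hor ver eh ev sumE sepE Inci mem_rect)
open Pool.Agent.H95.SumRule (edgesIn Z2)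

variable {x0 x1 y0 y1 : ℤ} {κ κ' : Finset (Sym2 (ℤ × ℤ))}

section aux

private lemma dG_dualG (m n : ℤ) (κ : Finset (Sym2 (ℤ × ℤ))) :
    dG (rect (-1) m 0 (n - 1)) (κ ∩ edgesIn (rect 0 m 0 n)) =
      Pool.Agent.H95.Perc.dualG m n κ := rfl

private lemma ver_iff0 {m n : ℤ} (hm : 0 ≤ m) (hn : 0 < n) (κ : Finset (Sym2 (ℤ × ℤ))) :
    ver 0 m 0 n κ ↔ ∀ f ∈ rect (-1) m 0 (n - 1), ∀ g ∈ rect (-1) m 0 (n - 1),
      f.1 = -1 → g.1 = m →
      ¬ (dG (rect (-1) m 0 (n - 1)) (κ ∩ edgesIn (rect 0 m 0 n))).Reachable f g := by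
  rw [dG_dualG]
  constructor
  · intro h f hf g hg hf1 hg1 hr
    have h1 := Pool.Agent.H95.Perc.nodual_of_link h
    obtain ⟨a, b⟩ := f
    obtain ⟨c, d⟩ := g
    simp only at hf1 hg1
    subst hf1 hg1
    rw [mem_rect] at hf hg
    simp only at hf hg
    have h2 := Pool.Agent.H95.Perc.U_left (ω := κ) hm b (by omega) (by omega : b < n)
    rw [Pool.Agent.H95.Perc.mem_U] at h2
    apply h1 d (by omega) (by omega)
    rw [Pool.Agent.H95.Perc.mem_U]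
    exact ⟨by rw [mem_rect]; simp only; omega, h2.2.trans hr⟩
  · intro h
    apply Pool.Agent.H95.Perc.link_of_nodual hn hm
    intro j h1 h2 hU
    rw [Pool.Agent.H95.Perc.mem_U] at hU
    exact h (-1, 0) (by rw [mem_rect]; simp only; omega) (m, j) hU.1 rfl rfl hU.2

private lemma dG_act {σ : (ℤ × ℤ) ≃ (ℤ × ℤ)} (hσ : Pool.Agent.H95.Perc.IsAut σ)
    (hsep : ∀ f g, Z2.Adj f g → sepE (σ f) (σ g) = Sym2.map σ (sepE f g))
    (Φ : Finset (ℤ × ℤ)) (κ : Finset (Sym2 (ℤ × ℤ))) (f g : ℤ × ℤ) :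
    (dG (Φ.image σ) (Pool.Agent.H95.Perc.act σ κ)).Reachable (σ f) (σ g) ↔
      (dG Φ κ).Reachable f g := by
  let e : dG Φ κ ≃g dG (Φ.image σ) (Pool.Agent.H95.Perc.act σ κ) :=
    { toEquiv := σ
      map_rel_iff' := by
        intro a b
        rw [dG_adj, dG_adj]
        have h1 : ∀ x, σ x ∈ Φ.image σ ↔ x ∈ Φ := fun x => by simp
        rw [h1, h1, hσ]
        constructor
        · rintro ⟨h2, h3, h4, h5⟩
          refine ⟨h2, h3, h4, fun h6 => h5 ?_⟩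
          rw [hsep _ _ h4]
          exact mem_image_of_mem _ h6
        · rintro ⟨h2, h3, h4, h5⟩
          refine ⟨h2, h3, h4, fun h6 => h5 ?_⟩
          rw [hsep _ _ h4] at h6
          obtain ⟨e, he, he2⟩ := mem_image.mp h6
          rwa [← Sym2.map.injective σ.injective he2] }
  exact SimpleGraph.Iso.reachable_iff (φ := e)

private lemma sepE_trans (a b : ℤ) (f g : ℤ × ℤ) :
    sepE (Pool.Agent.H95.Perc.trans a b f) (Pool.Agent.H95.Perc.trans a b g) =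
      Sym2.map (Pool.Agent.H95.Perc.trans a b) (sepE f g) := by
  obtain ⟨f1, f2⟩ := f
  obtain ⟨g1, g2⟩ := g
  unfold sepE
  simp only [Pool.Agent.H95.Perc.trans, Equiv.coe_fn_mk]
  by_cases h : f1 = g1
  · rw [if_pos (by omega), if_pos h, Sym2.map_mk]
    simp only
    rw [max_add_add_right, show f1 + a + 1 = f1 + 1 + a by ring]
  · rw [if_neg (by omega), if_neg h, Sym2.map_mk]
    simp only
    rw [max_add_add_right, show f2 + b + 1 = f2 + 1 + b by ring]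

private lemma sepE_diag (f g : ℤ × ℤ) (h : Z2.Adj f g) :
    sepE (Pool.Agent.H95.Perc.diag f) (Pool.Agent.H95.Perc.diag g) =
      Sym2.map Pool.Agent.H95.Perc.diag (sepE f g) := by
  obtain ⟨f1, f2⟩ := f
  obtain ⟨g1, g2⟩ := g
  rw [Z2_adj_iff] at h
  unfold sepE
  simp only [Pool.Agent.H95.Perc.diag, Equiv.coe_fn_mk]
  by_cases h1 : f1 = g1
  · rw [if_neg (by omega), if_pos h1, Sym2.map_mk]
  · rw [if_pos (by omega), if_neg h1, Sym2.map_mk]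

private lemma act_act {σ τ : (ℤ × ℤ) ≃ (ℤ × ℤ)} (h : ∀ x, σ (τ x) = x)
    (κ : Finset (Sym2 (ℤ × ℤ))) :
    Pool.Agent.H95.Perc.act σ (Pool.Agent.H95.Perc.act τ κ) = κ := by
  unfold Pool.Agent.H95.Perc.act
  rw [image_image]
  have : (Sym2.map σ ∘ Sym2.map τ) = (id : Sym2 (ℤ × ℤ) → Sym2 (ℤ × ℤ)) := by
    funext e
    induction e with
    | _ x y => simp [h]
  rw [this, image_id]

private lemma act_inter (σ : (ℤ × ℤ) ≃ (ℤ × ℤ)) (κ κ' : Finset (Sym2 (ℤ × ℤ))) :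
    Pool.Agent.H95.Perc.act σ (κ ∩ κ') =
      Pool.Agent.H95.Perc.act σ κ ∩ Pool.Agent.H95.Perc.act σ κ' := by
  unfold Pool.Agent.H95.Perc.act
  rw [image_inter _ _ (Sym2.map.injective σ.injective)]

/-- shortening of a connection between `L` and `R` -/
private lemma shorten {α : Type*} {G G' : SimpleGraph α} {L R : α → Prop}
    (h : ∀ a b, G.Adj a b → ¬ (L a ∧ L b) → ¬ (R a ∧ R b) → G'.Adj a b) {f g : α}
    (hf : L f) (hg : R g) (hr : G.Reachable f g) : ∃ f' g', L f' ∧ R g' ∧ G'.Reachable f' g' := by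
  obtain ⟨p⟩ := hr
  have key : ∀ {a b : α} (p : G.Walk a b), R b → (∃ g', R g' ∧ G'.Reachable a g') ∨
      (∃ f' g', L f' ∧ R g' ∧ G'.Reachable f' g') := by
    intro a b p
    induction p with
    | nil => intro hb; exact Or.inl ⟨_, hb, SimpleGraph.Reachable.refl _⟩
    | cons hadj p ih =>
      rename_i a c d
      intro hd
      rcases ih hd with ⟨g', hg', hr⟩ | h2
      · by_cases hL : L a ∧ L c
        · exact Or.inr ⟨c, g', hL.2, hg', hr⟩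
        · by_cases hR : R a ∧ R c
          · exact Or.inl ⟨a, hR.1, SimpleGraph.Reachable.refl _⟩
          · exact Or.inl ⟨g', hg', (h a c hadj hL hR).reachable.trans hr⟩
      · exact Or.inr h2
  rcases key p hg with ⟨g', hg', hr⟩ | h2
  · exact ⟨f, g', hf, hg', hr⟩
  · exact h2

end aux

theorem ver_iff (hx : x0 ≤ x1) (hy : y0 < y1) :
    ver x0 x1 y0 y1 κ ↔ ∀ f ∈ rect (x0 - 1) x1 y0 (y1 - 1), ∀ g ∈ rect (x0 - 1) x1 y0 (y1 - 1),
      f.1 = x0 - 1 → g.1 = x1 →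
      ¬ (dG (rect (x0 - 1) x1 y0 (y1 - 1)) (κ ∩ edgesIn (rect x0 x1 y0 y1))).Reachable f g := by
  set σ := Pool.Agent.H95.Perc.trans x0 y0 with hσ
  have hAut : Pool.Agent.H95.Perc.IsAut σ := Pool.Agent.H95.Perc.isAut_trans x0 y0
  set κ0 := Pool.Agent.H95.Perc.act (Pool.Agent.H95.Perc.trans (-x0) (-y0)) κ with hκ0
  have hκ : Pool.Agent.H95.Perc.act σ κ0 = κ := act_act (fun x => by
    simp [hσ, Pool.Agent.H95.Perc.trans]) κ
  have hR : (rect 0 (x1 - x0) 0 (y1 - y0)).image σ = rect x0 x1 y0 y1 := by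
    rw [hσ, Pool.Agent.H95.Perc.rect_trans]; simp
  have hΦ : (rect (-1) (x1 - x0) 0 ((y1 - y0) - 1)).image σ = rect (x0 - 1) x1 y0 (y1 - 1) := by
    rw [hσ, Pool.Agent.H95.Perc.rect_trans]
    rw [show -1 + x0 = x0 - 1 by ring, show x1 - x0 + x0 = x1 by ring, show 0 + y0 = y0 by ring,
      show y1 - y0 - 1 + y0 = y1 - 1 by ring]
  have hκE : κ ∩ edgesIn (rect x0 x1 y0 y1) =
      Pool.Agent.H95.Perc.act σ (κ0 ∩ edgesIn (rect 0 (x1 - x0) 0 (y1 - y0))) := by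
    rw [act_inter, hκ, ← Pool.Agent.H95.Perc.edgesIn_image hAut, hR]
  have h1 : ver x0 x1 y0 y1 κ ↔ ver 0 (x1 - x0) 0 (y1 - y0) κ0 := by
    unfold ver
    rw [← hR]
    conv_lhs => rw [← hκ]
    rw [Pool.Agent.H95.Perc.link_act hAut]
    have e1 : (fun v : ℤ × ℤ => (σ v).2 = y0) = (fun v => v.2 = 0) := by
      funext v; simp [hσ, Pool.Agent.H95.Perc.trans]
    have e2 : (fun v : ℤ × ℤ => (σ v).2 = y1) = (fun v => v.2 = y1 - y0) := by
      funext v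
      simp only [hσ, Pool.Agent.H95.Perc.trans, Equiv.coe_fn_mk, eq_iff_iff]
      omega
    rw [e1, e2]
  rw [h1, ver_iff0 (by omega) (by omega), hκE, ← hΦ]
  constructor
  · intro h f hf g hg hf1 hg1
    obtain ⟨f', hf', rfl⟩ := mem_image.mp hf
    obtain ⟨g', hg', rfl⟩ := mem_image.mp hg
    rw [dG_act hAut (fun f g _ => sepE_trans _ _ f g)]
    simp only [hσ, Pool.Agent.H95.Perc.trans, Equiv.coe_fn_mk] at hf1 hg1
    exact h f' hf' g' hg' (by omega) (by omega)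
  · intro h f hf g hg hf1 hg1
    rw [← dG_act hAut (fun f g _ => sepE_trans _ _ f g)]
    apply h (σ f) (mem_image_of_mem _ hf) (σ g) (mem_image_of_mem _ hg)
    · simp only [hσ, Pool.Agent.H95.Perc.trans, Equiv.coe_fn_mk]; omega
    · simp only [hσ, Pool.Agent.H95.Perc.trans, Equiv.coe_fn_mk]; omega

theorem hor_iff (hx : x0 < x1) (hy : y0 ≤ y1) :
    hor x0 x1 y0 y1 κ ↔ ∀ f ∈ rect x0 (x1 - 1) (y0 - 1) y1, ∀ g ∈ rect x0 (x1 - 1) (y0 - 1) y1,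
      f.2 = y0 - 1 → g.2 = y1 →
      ¬ (dG (rect x0 (x1 - 1) (y0 - 1) y1) (κ ∩ edgesIn (rect x0 x1 y0 y1))).Reachable f g := by
  set σ := Pool.Agent.H95.Perc.diag with hσ
  have hAut : Pool.Agent.H95.Perc.IsAut σ := Pool.Agent.H95.Perc.isAut_diag
  set κ0 := Pool.Agent.H95.Perc.act σ κ with hκ0
  have hκ : Pool.Agent.H95.Perc.act σ κ0 = κ := act_act (fun x => by
    simp [hσ, Pool.Agent.H95.Perc.diag]) κ
  have hR : (rect y0 y1 x0 x1).image σ = rect x0 x1 y0 y1 := by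
    rw [hσ, Pool.Agent.H95.Perc.rect_diag]
  have hΦ : (rect (y0 - 1) y1 x0 (x1 - 1)).image σ = rect x0 (x1 - 1) (y0 - 1) y1 := by
    rw [hσ, Pool.Agent.H95.Perc.rect_diag]
  have hκE : κ ∩ edgesIn (rect x0 x1 y0 y1) =
      Pool.Agent.H95.Perc.act σ (κ0 ∩ edgesIn (rect y0 y1 x0 x1)) := by
    rw [act_inter, hκ, ← Pool.Agent.H95.Perc.edgesIn_image hAut, hR]
  have h1 : hor x0 x1 y0 y1 κ ↔ ver y0 y1 x0 x1 κ0 := by
    unfold hor ver
    rw [← hR]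
    conv_lhs => rw [← hκ]
    rw [Pool.Agent.H95.Perc.link_act hAut]
    rfl
  rw [h1, ver_iff hy hx, hκE, ← hΦ]
  constructor
  · intro h f hf g hg hf1 hg1
    obtain ⟨f', hf', rfl⟩ := mem_image.mp hf
    obtain ⟨g', hg', rfl⟩ := mem_image.mp hg
    rw [dG_act hAut sepE_diag]
    exact h f' hf' g' hg' hf1 hg1
  · intro h f hf g hg hf1 hg1
    rw [← dG_act hAut sepE_diag]
    exact h (σ f) (mem_image_of_mem _ hf) (σ g) (mem_image_of_mem _ hg) hf1 hg1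

private lemma openGraph_adj' {ω : Finset (Sym2 (ℤ × ℤ))} {a b : ℤ × ℤ} :
    (Pool.Agent.H95.SumRule.openGraph ω).Adj a b ↔ s(a, b) ∈ ω ∧ a ≠ b := by
  simp [Pool.Agent.H95.SumRule.openGraph, SimpleGraph.fromEdgeSet_adj]

/-- `κ'` contains the duals of exactly those edges of the rectangle which are not in `κ` (only edges whose
dual is relevant for dual left-right crossings matter) -/
theorem ver_iff_star (hx : x0 ≤ x1) (hy : y0 < y1)
    (h : ∀ e ∈ edgesIn (rect x0 x1 y0 y1), star e ∈ edgesIn (rect (x0 - 1) x1 y0 (y1 - 1)) →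
      (e ∈ κ ↔ star e ∉ κ')) :
    ver x0 x1 y0 y1 κ ↔ ¬ hor (x0 - 1) x1 y0 (y1 - 1) κ' := by
  rw [ver_iff hx hy]
  set Φ := rect (x0 - 1) x1 y0 (y1 - 1) with hΦ
  -- adjacent faces, not both in a side column
  have hE : ∀ a b, a ∈ Φ → b ∈ Φ → Z2.Adj a b → ¬ (a.1 = x0 - 1 ∧ b.1 = x0 - 1) →
      ¬ (a.1 = x1 ∧ b.1 = x1) → sepE a b ∈ edgesIn (rect x0 x1 y0 y1) := by
    rintro ⟨a1, a2⟩ ⟨b1, b2⟩ ha hb hab hL hR
    rw [Z2_adj_iff] at hab
    rw [hΦ, mem_rect] at ha hb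
    simp only at ha hb hL hR
    unfold sepE
    simp only
    by_cases h1 : a1 = b1
    · rw [if_pos h1]
      have := @eh_mem_edgesIn_rect a1 (max a2 b2) x0 x1 y0 y1
      rw [show s((a1, max a2 b2), (a1 + 1, max a2 b2)) = eh a1 (max a2 b2) from rfl, this]
      omega
    · rw [if_neg h1]
      have := @ev_mem_edgesIn_rect (max a1 b1) a2 x0 x1 y0 y1
      rw [show s((max a1 b1, a2), (max a1 b1, a2 + 1)) = ev (max a1 b1) a2 from rfl, this]
      omega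
  have hS : ∀ a b, a ∈ Φ → b ∈ Φ → Z2.Adj a b → ¬ (a.1 = x0 - 1 ∧ b.1 = x0 - 1) →
      ¬ (a.1 = x1 ∧ b.1 = x1) →
      ((dG Φ (κ ∩ edgesIn (rect x0 x1 y0 y1))).Adj a b ↔
        (Pool.Agent.H95.SumRule.openGraph (κ' ∩ edgesIn Φ)).Adj a b) := by
    intro a b ha hb hab hL hR
    have h1 := hE a b ha hb hab hL hR
    have h2 : s(a, b) ∈ edgesIn Φ := Pool.Agent.H95.Perc.mem_edgesIn'.mpr ⟨ha, hb, hab⟩
    have h3 := h _ h1 (by rw [star_sepE hab]; exact h2)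
    rw [star_sepE hab] at h3
    rw [dG_adj, openGraph_adj', mem_inter, mem_inter]
    constructor
    · rintro ⟨_, _, _, h4⟩
      refine ⟨⟨?_, h2⟩, hab.ne⟩
      by_contra h5
      exact h4 ⟨h3.mpr h5, h1⟩
    · rintro ⟨⟨h4, _⟩, _⟩
      exact ⟨ha, hb, hab, fun h5 => h3.mp h5.1 h4⟩
  constructor
  · rintro h1 ⟨a, b, ha, hb, ha1, hb1, hc⟩
    obtain ⟨f', g', hf', hg', hr⟩ := shorten
      (G' := dG Φ (κ ∩ edgesIn (rect x0 x1 y0 y1)))
      (L := fun f : ℤ × ℤ => f ∈ Φ ∧ f.1 = x0 - 1) (R := fun f : ℤ × ℤ => f ∈ Φ ∧ f.1 = x1)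
      (fun a b hab hL hR => by
        have h2 := (openGraph_adj'.mp hab).1
        have h3 := Pool.Agent.H95.Perc.mem_edgesIn'.mp (mem_inter.mp h2).2
        exact (hS a b h3.1 h3.2.1 h3.2.2 (fun h => hL ⟨⟨h3.1, h.1⟩, ⟨h3.2.1, h.2⟩⟩)
          (fun h => hR ⟨⟨h3.1, h.1⟩, ⟨h3.2.1, h.2⟩⟩)).mpr hab) ⟨ha, ha1⟩ ⟨hb, hb1⟩ hc
    exact h1 f' hf'.1 g' hg'.1 hf'.2 hg'.2 hr
  · intro h1 f hf g hg hf1 hg1 hr
    apply h1
    obtain ⟨f', g', hf', hg', hr'⟩ := shorten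
      (G' := Pool.Agent.H95.SumRule.openGraph (κ' ∩ edgesIn Φ))
      (L := fun f : ℤ × ℤ => f ∈ Φ ∧ f.1 = x0 - 1) (R := fun f : ℤ × ℤ => f ∈ Φ ∧ f.1 = x1)
      (fun a b hab hL hR => by
        obtain ⟨h3, h4, h5, _⟩ := dG_adj.mp hab
        exact (hS a b h3 h4 h5 (fun h => hL ⟨⟨h3, h.1⟩, ⟨h4, h.2⟩⟩)
          (fun h => hR ⟨⟨h3, h.1⟩, ⟨h4, h.2⟩⟩)).mp hab) ⟨hf, hf1⟩ ⟨hg, hg1⟩ hr
    exact ⟨f', g', hf'.1, hg'.1, hf'.2, hg'.2, hr'⟩

theorem hor_iff_star (hx : x0 < x1) (hy : y0 ≤ y1)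
    (h : ∀ e ∈ edgesIn (rect x0 x1 y0 y1), star e ∈ edgesIn (rect x0 (x1 - 1) (y0 - 1) y1) →
      (e ∈ κ ↔ star e ∉ κ')) :
    hor x0 x1 y0 y1 κ ↔ ¬ ver x0 (x1 - 1) (y0 - 1) y1 κ' := by
  rw [hor_iff hx hy]
  set Φ := rect x0 (x1 - 1) (y0 - 1) y1 with hΦ
  -- adjacent faces, not both in the bottom or top row
  have hE : ∀ a b, a ∈ Φ → b ∈ Φ → Z2.Adj a b → ¬ (a.2 = y0 - 1 ∧ b.2 = y0 - 1) →
      ¬ (a.2 = y1 ∧ b.2 = y1) → sepE a b ∈ edgesIn (rect x0 x1 y0 y1) := by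
    rintro ⟨a1, a2⟩ ⟨b1, b2⟩ ha hb hab hL hR
    rw [Z2_adj_iff] at hab
    rw [hΦ, mem_rect] at ha hb
    simp only at ha hb hL hR
    unfold sepE
    simp only
    by_cases h1 : a1 = b1
    · rw [if_pos h1]
      have := @eh_mem_edgesIn_rect a1 (max a2 b2) x0 x1 y0 y1
      rw [show s((a1, max a2 b2), (a1 + 1, max a2 b2)) = eh a1 (max a2 b2) from rfl, this]
      omega
    · rw [if_neg h1]
      have := @ev_mem_edgesIn_rect (max a1 b1) a2 x0 x1 y0 y1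
      rw [show s((max a1 b1, a2), (max a1 b1, a2 + 1)) = ev (max a1 b1) a2 from rfl, this]
      omega
  have hS : ∀ a b, a ∈ Φ → b ∈ Φ → Z2.Adj a b → ¬ (a.2 = y0 - 1 ∧ b.2 = y0 - 1) →
      ¬ (a.2 = y1 ∧ b.2 = y1) →
      ((dG Φ (κ ∩ edgesIn (rect x0 x1 y0 y1))).Adj a b ↔
        (Pool.Agent.H95.SumRule.openGraph (κ' ∩ edgesIn Φ)).Adj a b) := by
    intro a b ha hb hab hL hR
    have h1 := hE a b ha hb hab hL hR
    have h2 : s(a, b) ∈ edgesIn Φ := Pool.Agent.H95.Perc.mem_edgesIn'.mpr ⟨ha, hb, hab⟩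
    have h3 := h _ h1 (by rw [star_sepE hab]; exact h2)
    rw [star_sepE hab] at h3
    rw [dG_adj, openGraph_adj', mem_inter, mem_inter]
    constructor
    · rintro ⟨_, _, _, h4⟩
      refine ⟨⟨?_, h2⟩, hab.ne⟩
      by_contra h5
      exact h4 ⟨h3.mpr h5, h1⟩
    · rintro ⟨⟨h4, _⟩, _⟩
      exact ⟨ha, hb, hab, fun h5 => h3.mp h5.1 h4⟩
  constructor
  · rintro h1 ⟨a, b, ha, hb, ha1, hb1, hc⟩
    obtain ⟨f', g', hf', hg', hr⟩ := shorten
      (G' := dG Φ (κ ∩ edgesIn (rect x0 x1 y0 y1)))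
      (L := fun f : ℤ × ℤ => f ∈ Φ ∧ f.2 = y0 - 1) (R := fun f : ℤ × ℤ => f ∈ Φ ∧ f.2 = y1)
      (fun a b hab hL hR => by
        have h2 := (openGraph_adj'.mp hab).1
        have h3 := Pool.Agent.H95.Perc.mem_edgesIn'.mp (mem_inter.mp h2).2
        exact (hS a b h3.1 h3.2.1 h3.2.2 (fun h => hL ⟨⟨h3.1, h.1⟩, ⟨h3.2.1, h.2⟩⟩)
          (fun h => hR ⟨⟨h3.1, h.1⟩, ⟨h3.2.1, h.2⟩⟩)).mpr hab) ⟨ha, ha1⟩ ⟨hb, hb1⟩ hc
    exact h1 f' hf'.1 g' hg'.1 hf'.2 hg'.2 hr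
  · intro h1 f hf g hg hf1 hg1 hr
    apply h1
    obtain ⟨f', g', hf', hg', hr'⟩ := shorten
      (G' := Pool.Agent.H95.SumRule.openGraph (κ' ∩ edgesIn Φ))
      (L := fun f : ℤ × ℤ => f ∈ Φ ∧ f.2 = y0 - 1) (R := fun f : ℤ × ℤ => f ∈ Φ ∧ f.2 = y1)
      (fun a b hab hL hR => by
        obtain ⟨h3, h4, h5, _⟩ := dG_adj.mp hab
        exact (hS a b h3 h4 h5 (fun h => hL ⟨⟨h3, h.1⟩, ⟨h4, h.2⟩⟩)
          (fun h => hR ⟨⟨h3, h.1⟩, ⟨h4, h.2⟩⟩)).mp hab) ⟨hf, hf1⟩ ⟨hg, hg1⟩ hr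
    exact ⟨f', g', hf'.1, hg'.1, hf'.2, hg'.2, hr'⟩

end Pool.Agent.FKR
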