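import Pool.Agent.FKR.AnDefs
import Pool.Agent.FKR.FB
import Pool.Agent.FKR.PE
import Pool.Agent.FKR.RectDual
import Pool.Agent.FKR.Topo

/-! # FKR/C1 (MP_b3e76a_pr): from one large annulus to many small ones

`An_dual`: for `R = bxx 0 0 N` containing the rectangles of `An x y n`, `1 ≤ n`:
`An x y n ω ↔ AnD x y n ((edgesIn R \ ω).image star ∪ ring)`: `hor_iff_star`, `ver_iff_star`.
`AnD_sep`: for `κ ⊆ edgesIn V`: `AnD 0 0 m κ` implies that no vertex of the inner region `I`, `-m ≤ v.1, v.2 ≤ m - 1`, is connected to a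
vertex of the outer region `S` (`v.1` or `v.2` `≥ 2 m` or `≤ -2 m - 1`): take a walk from `I` to `S`, cut it at the first vertex
in `S`, say with `v.2 = 2 m` (it has `-2 m ≤ v.1 ≤ 2 m - 1`, and so do all previous vertices); the part after the
last visit to the row `m - 1` is a crossing `ver (-2m) (2m-1) (m-1) (2m)`. The other three cases are similar (or by
symmetry).
`C1`: `m = LL * n`, `N = 12 m`. By `rect_dual` (`E = edgesIn R`, `F = ∅`), `P q (edgesIn R) ∅ (Ans n)` is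
`Q (fun κ => ∀ i, |i| ≤ kk → AnD (26 n i) 0 n κ)` for `Q = P q ((edgesIn R).image star) ring`, and `uu (LL n) = Q (AnD 0 0 m) ≤ Q (N)`,
`N`: no vertex in `I` is reached from `S`. `PE_ge` with `F = ring`, `F0 = ∅`, `R = True`, `A = ` the event above (decreasing; all the
rectangles are contained in `I` since `26 n kk + 2 n + 1 ≤ LL n`, so `A` does not depend on edges at reached vertices):
`P q (off S E) ∅ A * Q N ≤ Q A`. `off S E = edgesIn (rect (-2m) (2m-1) (-2m) (2m-1))`; by `P_fkg_dcr` and `FBv`, `FBh` (height `n + 1 ≥ 3`, width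
`4 n - 1 ≤ 4 (n + 1)`, `k = 4`) `P q (off S E) ∅ A ≥ (c ^ 4) ^ (4 * 41)`. -/

namespace Pool.Agent.FKR

open Finset
open Pool.Agent.H95.Perc (Inc conn link rect hor ver eh ev sumE sepE Inci mem_rect)
open Pool.Agent.H95.SumRule (edgesIn Z2)

variable {q : ℝ}

theorem inc_An (x y n : ℤ) : Inc (An x y n) := by
  rintro ω ω' hs ⟨h1, h2, h3, h4⟩
  exact ⟨Pool.Agent.H95.Perc.inc_link _ _ _ _ _ hs h1, Pool.Agent.H95.Perc.inc_link _ _ _ _ _ hs h2,
    Pool.Agent.H95.Perc.inc_link _ _ _ _ _ hs h3, Pool.Agent.H95.Perc.inc_link _ _ _ _ _ hs h4⟩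

theorem dcr_AnD (x y n : ℤ) : Dcr (AnD x y n) := by
  rintro ω ω' hs ⟨h1, h2, h3, h4⟩
  exact ⟨fun h => h1 (Pool.Agent.H95.Perc.inc_link _ _ _ _ _ hs h),
    fun h => h2 (Pool.Agent.H95.Perc.inc_link _ _ _ _ _ hs h),
    fun h => h3 (Pool.Agent.H95.Perc.inc_link _ _ _ _ _ hs h),
    fun h => h4 (Pool.Agent.H95.Perc.inc_link _ _ _ _ _ hs h)⟩

theorem An_dual {N x y n : ℤ} (hn : 1 ≤ n) (hx : -N ≤ x - 2 * n) (hx' : x + 2 * n ≤ N)
    (hy : -N ≤ y - 2 * n) (hy' : y + 2 * n ≤ N) {ω : Finset (Sym2 (ℤ × ℤ))}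
    (hω : ω ⊆ edgesIn (bxx 0 0 N)) :
    An x y n ω ↔ AnD x y n ((edgesIn (bxx 0 0 N) \ ω).image star ∪ ring (-N) N (-N) N) := by
  have hb : bxx 0 0 N = rect (-N) N (-N) N := by
    unfold bxx
    rw [zero_sub, zero_add]
  rw [hb] at hω ⊢
  have key : ∀ e ∈ edgesIn (rect (-N) N (-N) N),
      (e ∈ ω ↔ star e ∉ (edgesIn (rect (-N) N (-N) N) \ ω).image star ∪ ring (-N) N (-N) N) := by
    intro e he
    rw [mem_union, not_or]
    constructor
    · intro heω
      constructor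
      · intro h
        obtain ⟨e', he', hee⟩ := mem_image.1 h
        have := star_injOn (rect (-N) N (-N) N) (mem_coe.2 (mem_sdiff.1 he').1) (mem_coe.2 he) hee
        rw [this] at he'
        exact (mem_sdiff.1 he').2 heω
      · intro h
        unfold ring at h
        exact (mem_sdiff.1 h).2 (mem_image_of_mem _ he)
    · rintro ⟨h1, -⟩
      by_contra h
      exact h1 (mem_image_of_mem _ (mem_sdiff.2 ⟨he, h⟩))
  have sub : ∀ {a b c d : ℤ}, -N ≤ a → b ≤ N → -N ≤ c → d ≤ N →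
      edgesIn (rect a b c d) ⊆ edgesIn (rect (-N) N (-N) N) := fun h1 h2 h3 h4 =>
    Pool.Agent.H95.Perc.edgesIn_mono (Pool.Agent.H95.Perc.rect_mono h1 h2 h3 h4)
  unfold An AnD
  rw [hor_iff_star (by omega) (by omega) (fun e he _ => key e (sub (by omega) (by omega) (by omega) (by omega) he)),
    hor_iff_star (by omega) (by omega) (fun e he _ => key e (sub (by omega) (by omega) (by omega) (by omega) he)),
    ver_iff_star (by omega) (by omega) (fun e he _ => key e (sub (by omega) (by omega) (by omega) (by omega) he)),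
    ver_iff_star (by omega) (by omega) (fun e he _ => key e (sub (by omega) (by omega) (by omega) (by omega) he))]

/-- the part of a connection after the last visit to the level set `h = a` -/
private theorem last_exit {V V' : Finset (ℤ × ℤ)} {κ : Finset (Sym2 (ℤ × ℤ))} {h : ℤ × ℤ → ℤ}
    (hh : ∀ u w, Z2.Adj u w → h u ≤ h w + 1) {a : ℤ} {v w : ℤ × ℤ} (hc : conn V κ w v)
    (hw : w ∈ V) (hwa : a < h w) (hva : h v ≤ a) (hV' : ∀ u ∈ V, a ≤ h u → u ∈ V') :
    ∃ u, u ∈ V' ∧ w ∈ V' ∧ h u = a ∧ conn V' κ w u := by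
  classical
  obtain ⟨z, u, hzV, hz', huV, hu', hadj, hzu, hcz⟩ := Pool.Agent.H95.Perc.conn.exit
    (V' := V.filter fun f => a < h f) hc hw (mem_filter.2 ⟨hw, hwa⟩)
    (fun h' => absurd (mem_filter.1 h').2 (not_lt.2 hva))
  have hz1 : a < h z := (mem_filter.1 hz').2
  have hu1 : h u ≤ a := by
    by_contra h'
    exact hu' (mem_filter.2 ⟨huV, not_le.1 h'⟩)
  have hua : h u = a := by
    have := hh z u hadj
    omega
  refine ⟨u, hV' u huV hua.ge, hV' w hw hwa.le, hua, ?_⟩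
  refine (hcz.mono (V' := V') ?_ (Subset.refl _)).trans ?_
  · intro f hf
    have := mem_filter.1 (mem_inter.1 hf).2
    exact hV' f this.1 this.2.le
  · exact Pool.Agent.H95.Perc.conn_step (hV' z hzV hz1.le) (hV' u huV hua.ge) hadj hzu

theorem AnD_sep {m : ℤ} (hm : 1 ≤ m) {V : Finset (ℤ × ℤ)} {κ : Finset (Sym2 (ℤ × ℤ))}
    (hκ : κ ⊆ edgesIn V) (h : AnD 0 0 m κ) {v : ℤ × ℤ}
    (hv : -m ≤ v.1 ∧ v.1 ≤ m - 1 ∧ -m ≤ v.2 ∧ v.2 ≤ m - 1) :
    ¬ Reach (fun f : ℤ × ℤ => 2 * m ≤ f.1 ∨ f.1 ≤ -2 * m - 1 ∨ 2 * m ≤ f.2 ∨ f.2 ≤ -2 * m - 1) κ v := by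
  rintro ⟨s, hs, hsv⟩
  unfold AnD at h
  obtain ⟨h1, h2, h3, h4⟩ := h
  -- a connection from `v` to `s`
  have hκ' : κ ∩ edgesIn (insert v V) = κ :=
    inter_eq_left.2 (hκ.trans (Pool.Agent.H95.Perc.edgesIn_mono (subset_insert _ _)))
  have hc : conn (insert v V) κ v s := by
    have : Cn (κ ∩ edgesIn (insert v V)) v s := by rw [hκ']; exact hsv.symm
    exact this
  have hvB : v ∈ rect (-2 * m) (2 * m - 1) (-2 * m) (2 * m - 1) := by rw [mem_rect]; omega
  have hsB : s ∉ rect (-2 * m) (2 * m - 1) (-2 * m) (2 * m - 1) := by rw [mem_rect]; omega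
  obtain ⟨z, w, hzV, hzB, hwV, hwB, hadj, hzw, hcz⟩ :=
    Pool.Agent.H95.Perc.conn.exit hc (mem_insert_self _ _) hvB hsB
  have hcz' : ∀ {V' : Finset (ℤ × ℤ)}, rect (-2 * m) (2 * m - 1) (-2 * m) (2 * m - 1) ⊆ V' →
      w ∈ V' → conn V' κ w v := by
    intro V' hV' hw'
    refine Pool.Agent.H95.Perc.conn.symm ?_
    refine (hcz.mono (V' := V') (inter_subset_right.trans hV') (Subset.refl _)).trans ?_
    exact Pool.Agent.H95.Perc.conn_step (hV' hzB) hw' hadj hzw
  obtain ⟨z1, z2⟩ := z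
  obtain ⟨w1, w2⟩ := w
  obtain ⟨v1, v2⟩ := v
  rw [Z2_adj_iff] at hadj
  rw [mem_rect] at hzB hwB
  dsimp only at hzB hwB hv
  have hadj' : ∀ u w : ℤ × ℤ, Z2.Adj u w → u.1 ≤ w.1 + 1 ∧ w.1 ≤ u.1 + 1 ∧ u.2 ≤ w.2 + 1 ∧ w.2 ≤ u.2 + 1 := by
    rintro ⟨a, b⟩ ⟨c, d⟩ h
    rw [Z2_adj_iff] at h
    simp only
    omega
  have hcase : w2 = 2 * m ∧ -2 * m ≤ w1 ∧ w1 ≤ 2 * m - 1 ∨ w2 = -2 * m - 1 ∧ -2 * m ≤ w1 ∧ w1 ≤ 2 * m - 1 ∨
      w1 = -2 * m - 1 ∧ -2 * m ≤ w2 ∧ w2 ≤ 2 * m - 1 ∨ w1 = 2 * m ∧ -2 * m ≤ w2 ∧ w2 ≤ 2 * m - 1 := by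
    omega
  rcases hcase with ⟨hw1, hw2, hw3⟩ | ⟨hw1, hw2, hw3⟩ | ⟨hw1, hw2, hw3⟩ | ⟨hw1, hw2, hw3⟩
  · apply h1
    have hwV' : (w1, w2) ∈ rect (-2 * m) (2 * m - 1) (-2 * m) (2 * m) := by
      rw [mem_rect]; simp only; omega
    obtain ⟨u, hu, hw', hua, hcu⟩ := last_exit (h := fun f => f.2) (a := m - 1)
      (V' := rect (0 - 2 * m) (0 + 2 * m - 1) (0 + m - 1) (0 + 2 * m))
      (fun u w h => (hadj' u w h).2.2.1)
      (hcz' (Pool.Agent.H95.Perc.rect_mono (by omega) (by omega) (by omega) (by omega)) hwV')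
      hwV' (by simp only; omega) (by simp only; omega)
      (fun u hu hau => by rw [mem_rect] at hu ⊢; omega)
    exact ⟨u, _, hu, hw', by dsimp only at hua ⊢; omega, by dsimp only; omega, hcu.symm⟩
  · apply h2
    have hwV' : (w1, w2) ∈ rect (-2 * m) (2 * m - 1) (-2 * m - 1) (2 * m - 1) := by
      rw [mem_rect]; simp only; omega
    obtain ⟨u, hu, hw', hua, hcu⟩ := last_exit (h := fun f => -f.2) (a := m)
      (V' := rect (0 - 2 * m) (0 + 2 * m - 1) (0 - 2 * m - 1) (0 - m))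
      (fun u w h => by have := (hadj' u w h).2.2.2; omega)
      (hcz' (Pool.Agent.H95.Perc.rect_mono (by omega) (by omega) (by omega) (by omega)) hwV')
      hwV' (by simp only; omega) (by simp only; omega)
      (fun u hu hau => by rw [mem_rect] at hu ⊢; omega)
    exact ⟨_, u, hw', hu, by dsimp only; omega, by dsimp only at hua ⊢; omega, hcu⟩
  · apply h3
    have hwV' : (w1, w2) ∈ rect (-2 * m - 1) (2 * m - 1) (-2 * m) (2 * m - 1) := by
      rw [mem_rect]; simp only; omega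
    obtain ⟨u, hu, hw', hua, hcu⟩ := last_exit (h := fun f => -f.1) (a := m)
      (V' := rect (0 - 2 * m - 1) (0 - m) (0 - 2 * m) (0 + 2 * m - 1))
      (fun u w h => by have := (hadj' u w h).2.1; omega)
      (hcz' (Pool.Agent.H95.Perc.rect_mono (by omega) (by omega) (by omega) (by omega)) hwV')
      hwV' (by simp only; omega) (by simp only; omega)
      (fun u hu hau => by rw [mem_rect] at hu ⊢; omega)
    exact ⟨_, u, hw', hu, by dsimp only; omega, by dsimp only at hua ⊢; omega, hcu⟩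
  · apply h4
    have hwV' : (w1, w2) ∈ rect (-2 * m) (2 * m) (-2 * m) (2 * m - 1) := by
      rw [mem_rect]; simp only; omega
    obtain ⟨u, hu, hw', hua, hcu⟩ := last_exit (h := fun f => f.1) (a := m - 1)
      (V' := rect (0 + m - 1) (0 + 2 * m) (0 - 2 * m) (0 + 2 * m - 1))
      (fun u w h => (hadj' u w h).1)
      (hcz' (Pool.Agent.H95.Perc.rect_mono (by omega) (by omega) (by omega) (by omega)) hwV')
      hwV' (by simp only; omega) (by simp only; omega)
      (fun u hu hau => by rw [mem_rect] at hu ⊢; omega)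
    exact ⟨u, _, hu, hw', by dsimp only at hua ⊢; omega, by dsimp only; omega, hcu.symm⟩

/-- the FKG inequality for finitely many decreasing events -/
private theorem fkg_forall (hq : 1 ≤ q) {α ι : Type*} [DecidableEq α] {E : Finset (Sym2 α)} (hE : NL E)
    (s : Finset ι) (A : ι → Finset (Sym2 α) → Prop) (hA : ∀ i ∈ s, Dcr (A i)) {c : ℝ} (hc : 0 ≤ c)
    (h : ∀ i ∈ s, c ≤ P q E ∅ (A i)) : c ^ #s ≤ P q E ∅ (fun ω => ∀ i ∈ s, A i ω) := by
  classical
  have hF : NL (∅ : Finset (Sym2 α)) := fun e he => absurd he (notMem_empty e)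
  have hq0 : 0 < q := by linarith
  induction s using Finset.induction_on with
  | empty =>
    rw [card_empty, pow_zero, P_eq_one hq0]
    intro ζ _ i hi
    exact absurd hi (notMem_empty _)
  | insert a s ha ih =>
    have ih' := ih (fun i hi => hA i (mem_insert_of_mem hi)) (fun i hi => h i (mem_insert_of_mem hi))
    have ha' := h a (mem_insert_self _ _)
    have hf := P_fkg_dcr hq hE hF (hA a (mem_insert_self _ _))
      (B := fun ω => ∀ i ∈ s, A i ω)
      (fun ω ω' hs hall i hi => hA i (mem_insert_of_mem hi) ω ω' hs (hall i hi))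
    have e : P q E ∅ (fun ω => ∀ i ∈ insert a s, A i ω) =
        P q E ∅ (fun ω => A a ω ∧ ∀ i ∈ s, A i ω) := by
      apply P_congr
      intro ζ _
      constructor
      · intro h'
        exact ⟨h' a (mem_insert_self _ _), fun i hi => h' i (mem_insert_of_mem hi)⟩
      · rintro ⟨h1, h2⟩ i hi
        rcases mem_insert.1 hi with rfl | hi
        · exact h1
        · exact h2 i hi
    rw [e, card_insert_of_notMem ha, pow_succ, mul_comm]
    calc c * c ^ #s ≤ P q E ∅ (A a) * P q E ∅ (fun ω => ∀ i ∈ s, A i ω) :=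
          mul_le_mul ha' ih' (pow_nonneg hc _) (hc.trans ha')
      _ ≤ _ := hf

/-- non-crossings do not depend on the edges at reached vertices -/
private theorem dep_off {S : ℤ × ℤ → Prop} {ω : Finset (Sym2 (ℤ × ℤ))} {V : Finset (ℤ × ℤ)}
    (hV : ∀ v ∈ V, ¬ Reach S ω v) {A B : ℤ × ℤ → Prop} (h : ¬ link V A B (off (Reach S ω) ω)) :
    ¬ link V A B ω := by
  classical
  intro h'
  apply h
  rw [Pool.Agent.H95.Perc.dep_link V A B] at h' ⊢
  refine Pool.Agent.H95.Perc.inc_link _ _ _ _ _ ?_ h'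
  intro e he
  rw [mem_inter] at he ⊢
  refine ⟨?_, he.2⟩
  unfold off
  rw [mem_filter]
  refine ⟨he.1, ?_⟩
  intro v hv
  exact hV v (vts_edgesIn V (mem_vts.2 ⟨e, he.2, hv⟩))

theorem C1 (hq : 1 ≤ q) : ∃ c : ℝ, 0 < c ∧ ∀ n : ℤ, 2 ≤ n →
    c * uu q (LL * n) ≤ P q (edgesIn (bxx 0 0 (12 * LL * n))) ∅ (Ans n) := by
  classical
  have hq0 : 0 < q := by linarith
  obtain ⟨c1, hc1, -, hv⟩ := FBv hq
  obtain ⟨c2, hc2, -, hh⟩ := FBh hq
  have hc : 0 < c1 ^ 4 * c1 ^ 4 * (c2 ^ 4 * c2 ^ 4) := by positivity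
  refine ⟨(c1 ^ 4 * c1 ^ 4 * (c2 ^ 4 * c2 ^ 4)) ^ #(Icc (-kk) kk), pow_pos hc _, ?_⟩
  intro n hn
  set m : ℤ := LL * n with hm
  have hm' : m = 523 * n := rfl
  have hN : 12 * LL * n = 12 * m := by rw [hm]; ring
  rw [hN]
  unfold uu
  set N : ℤ := 12 * m with hNdef
  have hb : bxx 0 0 N = rect (-N) N (-N) N := by
    unfold bxx
    rw [zero_sub, zero_add]
  have hNN : -N < N := by omega
  set R := edgesIn (rect (-N) N (-N) N) with hR
  set E' := R.image star with hE'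
  set F' := ring (-N) N (-N) N with hF'
  have hEF : E' ∪ F' = edgesIn (rect (-N - 1) N (-N - 1) N) := star_union_ring
  have hnlE : NL E' := (NL_edgesIn _).mono (by rw [← hEF]; exact subset_union_left)
  have hnlF : NL F' := (NL_edgesIn _).mono (by rw [← hEF]; exact subset_union_right)
  have hF0 : NL (∅ : Finset (Sym2 (ℤ × ℤ))) := fun e he => absurd he (notMem_empty e)
  -- duality
  have hdual : ∀ (x y k : ℤ), 1 ≤ k → -N ≤ x - 2 * k → x + 2 * k ≤ N → -N ≤ y - 2 * k → y + 2 * k ≤ N →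
      ∀ ω ⊆ R, (An x y k ω ↔ AnD x y k ((R \ ω).image star ∪ F')) := by
    intro x y k h1 h2 h3 h4 h5 ω hω
    have := An_dual h1 h2 h3 h4 h5 (ω := ω) (by rw [hb]; exact hω)
    rw [hb] at this
    exact this
  have hrd : ∀ B : Finset (Sym2 (ℤ × ℤ)) → Prop,
      P q R ∅ (fun ω => B ((R \ ω).image star ∪ F')) = P q E' F' B := by
    intro B
    have := rect_dual (q := q) hq0 hNN hNN (E := R) (F := ∅) (Subset.refl _) (empty_subset _)
      (disjoint_empty_right _) B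
    rw [this, union_empty, sdiff_self]
    simp only [bot_eq_empty, image_empty, empty_union]
    rfl
  -- the event
  set A : Finset (Sym2 (ℤ × ℤ)) → Prop := fun κ => ∀ i : ℤ, -kk ≤ i → i ≤ kk → AnD (26 * n * i) 0 n κ
    with hA
  have hAdcr : Dcr A := fun ω ω' hs h i h1 h2 => dcr_AnD _ _ _ ω ω' hs (h i h1 h2)
  have hkk : kk = 20 := rfl
  have e1 : P q (edgesIn (bxx 0 0 N)) ∅ (Ans n) = P q E' F' A := by
    rw [hb, ← hrd A]
    apply P_congr
    intro ζ hζ
    rw [union_empty]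
    simp only [Ans, hA]
    refine forall_congr' fun i => forall_congr' fun h1 => forall_congr' fun h2 => ?_
    rw [hkk] at h1 h2
    have h3 : -(20 * n) ≤ n * i := by nlinarith
    have h4 : n * i ≤ 20 * n := by nlinarith
    have h5 : 26 * n * i = 26 * (n * i) := by ring
    exact hdual _ _ _ (by omega) (by omega) (by omega) (by omega) (by omega) ζ hζ
  have e2 : P q (edgesIn (bxx 0 0 N)) ∅ (An 0 0 m) = P q E' F' (AnD 0 0 m) := by
    rw [hb, ← hrd (AnD 0 0 m)]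
    apply P_congr
    intro ζ hζ
    rw [union_empty]
    exact hdual _ _ _ (by omega) (by omega) (by omega) (by omega) (by omega) ζ hζ
  rw [e1, e2]
  set S : ℤ × ℤ → Prop := fun f => 2 * m ≤ f.1 ∨ f.1 ≤ -2 * m - 1 ∨ 2 * m ≤ f.2 ∨ f.2 ≤ -2 * m - 1 with hS
  set I : ℤ × ℤ → Prop := fun v => -m ≤ v.1 ∧ v.1 ≤ m - 1 ∧ -m ≤ v.2 ∧ v.2 ≤ m - 1 with hI
  have hring : ∀ e ∈ F', ∀ v ∈ e, S v := by
    intro e he v hve
    induction e with
    | _ a b =>
      rw [hF', mem_ring hNN hNN] at he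
      obtain ⟨⟨-, ha⟩, ⟨-, hb'⟩, -⟩ := he
      rw [Sym2.mem_iff] at hve
      simp only [hS]
      rcases hve with rfl | rfl
      · omega
      · omega
  have e3 : P q E' F' (AnD 0 0 m) ≤ P q E' F' (fun ω => (∀ v, I v → ¬ Reach S ω v) ∧ True) := by
    apply P_mono hq0
    intro ζ hζ h
    refine ⟨fun v hv => ?_, trivial⟩
    exact AnD_sep (m := m) (by omega) (V := rect (-N - 1) N (-N - 1) N)
      (by rw [← hEF]; exact union_subset_union hζ (Subset.refl _)) h hv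
  have e4 := PE_ge hq hnlE hnlF (S := S) (I := I) (F0 := ∅) (A := A) (R := fun _ => True) (empty_subset _)
    (fun e he _ => by
      induction e with
      | _ a b => exact ⟨a, Sym2.mem_mk_left _ _, hring _ he a (Sym2.mem_mk_left _ _)⟩)
    (fun e he => absurd he (notMem_empty e)) hAdcr
    (by
      intro ω _ hN' hA' i h1 h2
      have hAi := hA' i h1 h2
      rw [hkk] at h1 h2
      have h3 : -(20 * n) ≤ n * i := by nlinarith
      have h4 : n * i ≤ 20 * n := by nlinarith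
      have h5 : 26 * n * i = 26 * (n * i) := by ring
      have hsub : ∀ {a b c d : ℤ}, -m ≤ a → b ≤ m - 1 → -m ≤ c → d ≤ m - 1 →
          ∀ v ∈ rect a b c d, ¬ Reach S ω v := by
        intro a b c d j1 j2 j3 j4 v hv'
        rw [mem_rect] at hv'
        apply hN'
        simp only [hI]
        omega
      exact ⟨dep_off (hsub (by omega) (by omega) (by omega) (by omega)) hAi.1,
        dep_off (hsub (by omega) (by omega) (by omega) (by omega)) hAi.2.1,
        dep_off (hsub (by omega) (by omega) (by omega) (by omega)) hAi.2.2.1,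
        dep_off (hsub (by omega) (by omega) (by omega) (by omega)) hAi.2.2.2⟩)
    (fun _ _ _ _ _ _ => trivial)
  have e5 : P q E' F' (fun ω => A ω ∧ (∀ v, I v → ¬ Reach S ω v) ∧ True) ≤ P q E' F' A :=
    P_mono hq0 (fun _ _ h => h.1)
  -- the unexplored edges
  have e6 : off S E' = edgesIn (rect (-2 * m) (2 * m - 1) (-2 * m) (2 * m - 1)) := by
    ext e
    unfold off
    rw [mem_filter]
    constructor
    · rintro ⟨he, hns⟩
      have he' : e ∈ edgesIn (rect (-N - 1) N (-N - 1) N) := by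
        rw [← hEF]; exact mem_union_left _ he
      induction e with
      | _ a b =>
        rw [Pool.Agent.H95.Perc.mem_edgesIn'] at he' ⊢
        have ha := hns a (Sym2.mem_mk_left _ _)
        have hb' := hns b (Sym2.mem_mk_right _ _)
        simp only [hS] at ha hb'
        refine ⟨?_, ?_, he'.2.2⟩
        · rw [mem_rect]; omega
        · rw [mem_rect]; omega
    · intro he
      have hns : ∀ v ∈ e, ¬ S v := by
        intro v hve
        have := vts_edgesIn _ (mem_vts.2 ⟨e, he, hve⟩)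
        rw [mem_rect] at this
        simp only [hS]
        omega
      refine ⟨?_, hns⟩
      have he' : e ∈ E' ∪ F' := by
        rw [hEF]
        exact Pool.Agent.H95.Perc.edgesIn_mono
          (Pool.Agent.H95.Perc.rect_mono (by omega) (by omega) (by omega) (by omega)) he
      rcases mem_union.1 he' with h | h
      · exact h
      · exfalso
        induction e with
        | _ a b => exact hns a (Sym2.mem_mk_left _ _) (hring _ h a (Sym2.mem_mk_left _ _))
  have e7 : (c1 ^ 4 * c1 ^ 4 * (c2 ^ 4 * c2 ^ 4)) ^ #(Icc (-kk) kk) ≤ P q (off S E') ∅ A := by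
    rw [e6]
    set V0 := rect (-2 * m) (2 * m - 1) (-2 * m) (2 * m - 1) with hV0
    have hnl0 : NL (edgesIn V0) := NL_edgesIn _
    have e8 : P q (edgesIn V0) ∅ A = P q (edgesIn V0) ∅ (fun ω => ∀ i ∈ Icc (-kk) kk, AnD (26 * n * i) 0 n ω) := by
      apply P_congr
      intro ζ _
      simp only [hA, mem_Icc]
      constructor
      · intro h i hi
        exact h i hi.1 hi.2
      · intro h i h1 h2
        exact h i ⟨h1, h2⟩
    rw [e8]
    apply fkg_forall hq hnl0 _ _ (fun i _ => dcr_AnD _ _ _) hc.le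
    intro i _
    set x := 26 * n * i with hx
    have dl : ∀ (V : Finset (ℤ × ℤ)) (A B : ℤ × ℤ → Prop), Dcr (fun ω => ¬ link V A B ω) :=
      fun V A B ω ω' hs h h' => h (Pool.Agent.H95.Perc.inc_link _ _ _ _ _ hs h')
    have dand : ∀ {A B : Finset (Sym2 (ℤ × ℤ)) → Prop}, Dcr A → Dcr B → Dcr (fun ω => A ω ∧ B ω) :=
      fun hA hB ω ω' hs h => ⟨hA _ _ hs h.1, hB _ _ hs h.2⟩
    have b1 := hv 4 V0 (x - 2 * n) (x + 2 * n - 1) (0 + n - 1) (0 + 2 * n) (by norm_num) (by omega) (by omega)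
      (by push_cast; omega)
    have b2 := hv 4 V0 (x - 2 * n) (x + 2 * n - 1) (0 - 2 * n - 1) (0 - n) (by norm_num) (by omega) (by omega)
      (by push_cast; omega)
    have b3 := hh 4 V0 (x - 2 * n - 1) (x - n) (0 - 2 * n) (0 + 2 * n - 1) (by norm_num) (by omega) (by omega)
      (by push_cast; omega)
    have b4 := hh 4 V0 (x + n - 1) (x + 2 * n) (0 - 2 * n) (0 + 2 * n - 1) (by norm_num) (by omega) (by omega)
      (by push_cast; omega)
    have f34 := P_fkg_dcr hq hnl0 hF0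
      (A := fun ω => ¬ hor (x - 2 * n - 1) (x - n) (0 - 2 * n) (0 + 2 * n - 1) ω)
      (B := fun ω => ¬ hor (x + n - 1) (x + 2 * n) (0 - 2 * n) (0 + 2 * n - 1) ω) (dl _ _ _) (dl _ _ _)
    have f234 := P_fkg_dcr hq hnl0 hF0
      (A := fun ω => ¬ ver (x - 2 * n) (x + 2 * n - 1) (0 - 2 * n - 1) (0 - n) ω)
      (B := fun ω => ¬ hor (x - 2 * n - 1) (x - n) (0 - 2 * n) (0 + 2 * n - 1) ω ∧
        ¬ hor (x + n - 1) (x + 2 * n) (0 - 2 * n) (0 + 2 * n - 1) ω) (dl _ _ _)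
      (dand (dl _ _ _) (dl _ _ _))
    have f1234 := P_fkg_dcr hq hnl0 hF0
      (A := fun ω => ¬ ver (x - 2 * n) (x + 2 * n - 1) (0 + n - 1) (0 + 2 * n) ω)
      (B := fun ω => ¬ ver (x - 2 * n) (x + 2 * n - 1) (0 - 2 * n - 1) (0 - n) ω ∧
        ¬ hor (x - 2 * n - 1) (x - n) (0 - 2 * n) (0 + 2 * n - 1) ω ∧
        ¬ hor (x + n - 1) (x + 2 * n) (0 - 2 * n) (0 + 2 * n - 1) ω) (dl _ _ _)
      (dand (dl _ _ _) (dand (dl _ _ _) (dl _ _ _)))
    have p1 : 0 ≤ c1 ^ 4 := by positivity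
    have p2 : 0 ≤ c2 ^ 4 := by positivity
    have g34 := (mul_le_mul b3 b4 p2 (p2.trans b3)).trans f34
    have g234 := (mul_le_mul b2 g34 (mul_nonneg p2 p2) (p1.trans b2)).trans f234
    have g1234 := (mul_le_mul b1 g234 (mul_nonneg p1 (mul_nonneg p2 p2)) (p1.trans b1)).trans f1234
    calc c1 ^ 4 * c1 ^ 4 * (c2 ^ 4 * c2 ^ 4) = c1 ^ 4 * (c1 ^ 4 * (c2 ^ 4 * c2 ^ 4)) := by ring
      _ ≤ _ := g1234
      _ = _ := rfl
  calc (c1 ^ 4 * c1 ^ 4 * (c2 ^ 4 * c2 ^ 4)) ^ #(Icc (-kk) kk) * P q E' F' (AnD 0 0 m)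
      ≤ P q (off S E') ∅ A * P q E' F' (fun ω => (∀ v, I v → ¬ Reach S ω v) ∧ True) :=
        mul_le_mul e7 e3 (P_nonneg hq0 _ _ _) (P_nonneg hq0 _ _ _)
    _ ≤ _ := e4
    _ ≤ _ := e5

end Pool.Agent.FKR
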