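import Pool.Agent.FKR.C2a
import Pool.Agent.FKR.C1

/-! # FKR/C2 (MP_b3e76a_pr): many small annuli cost a power of one small annulus

`E = edgesIn (bxx 0 0 (12 LL n))`, no frozen edges.
(1) `P(Ans n) ≤ C P(Ans n ∧ ∀ i, Iso n i)`: `explore_ge` with `X = frz n` (constant), `B = Ans n` (all the rectangles are in the frozen
boxes); conditional probability of `∀ i, Iso n i`: `P q (E \ frz n) (ω ∩ frz n) (∀ i, Iso) ≥ P q (E \ frz n) (frz n) (∀ i, Iso) ≥ c` (`P_anti_EF`, `C2a`).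
(2) For a finite set `s` of indices in `[-kk, kk]` and `i0 ∈ s`: `P(∀ i ∈ s, An_i ∧ ∀ i, Iso_i) ≤ uu n * P(∀ i ∈ s \ {i0}, An_i ∧ ∀ i, Iso_i)`:
`PE_le` with `S v = (v ∉ bxx (26 n i0) 0 (12 n))`, `I v = (v ∈ bxx (26 n i0) 0 (2 n))`, `F0 = F = ∅`, `A = An (26 n i0) 0 n` (only depends on edges with
both ends in `I`), `R = (∀ i ∈ s \ {i0}, An_i) ∧ (∀ i ≠ i0, Iso_i)`; `off S E = edgesIn (bxx (26 n i0) 0 (12 n))`, and
`P q (edgesIn (bxx (26 n i0) 0 (12 n))) ∅ (An (26 n i0) 0 n) = uu n` by translation. `hR`: the rectangles of `An_i`, `i ≠ i0`, are outside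
`bxx (26 n i0) 0 (12 n)`; `Iso_i`: a connection from the box `i` to the outside of `bxx (26 n i) 0 (12 n)` may be cut at the
first vertex outside; all its edges have an end in `bxx (26 n i) 0 (12 n)`, which is disjoint from
`bxx (26 n i0) 0 (12 n)`, so they have an end in `S`.
Iterating, `P(Ans n ∧ ∀ i, Iso_i) ≤ (uu n) ^ 41`. -/

namespace Pool.Agent.FKR

open Finset
open Pool.Agent.H95.Perc (Inc conn link rect hor ver eh ev sumE sepE Inci mem_rect)
open Pool.Agent.H95.SumRule (edgesIn Z2)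

variable {q : ℝ}

private theorem c2_mem_bxx {x y n : ℤ} {v : ℤ × ℤ} :
    v ∈ bxx x y n ↔ x - n ≤ v.1 ∧ v.1 ≤ x + n ∧ y - n ≤ v.2 ∧ v.2 ≤ y + n := by
  unfold bxx; exact mem_rect

private theorem c2_link_mono {V V' : Finset (ℤ × ℤ)} (hV : V ⊆ V') {A B : ℤ × ℤ → Prop}
    {ω ω' : Finset (Sym2 (ℤ × ℤ))} (h : ∀ e ∈ edgesIn V', e ∈ ω → e ∈ ω') (hl : link V A B ω) :
    link V A B ω' := by
  obtain ⟨a, b, ha, hb, hA, hB, hc⟩ := hl
  refine ⟨a, b, ha, hb, hA, hB, ?_⟩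
  have h1 := (Pool.Agent.H95.Perc.dep_conn V a b ω).mp hc
  refine h1.mono (Subset.refl _) (fun e he => ?_)
  rw [mem_inter] at he
  exact h e (Pool.Agent.H95.Perc.edgesIn_mono hV he.2) he.1

/-- `An x y n` only depends on the edges of the box of radius `2 n` -/
private theorem c2_An_mono {x y n : ℤ} (hn : 0 ≤ n) {ω ω' : Finset (Sym2 (ℤ × ℤ))}
    (h : ∀ e ∈ edgesIn (bxx x y (2 * n)), e ∈ ω → e ∈ ω') (hA : An x y n ω) : An x y n ω' := by
  obtain ⟨h1, h2, h3, h4⟩ := hA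
  refine ⟨c2_link_mono ?_ h h1, c2_link_mono ?_ h h2, c2_link_mono ?_ h h3, c2_link_mono ?_ h h4⟩ <;>
  · intro v hv
    rw [c2_mem_bxx]
    rw [mem_rect] at hv
    omega

private theorem c2_inc_An {x y n : ℤ} (hn : 0 ≤ n) : Inc (An x y n) :=
  fun _ _ hs h => c2_An_mono hn (fun _ _ he => hs he) h

private theorem c2_dcr_Iso (n i : ℤ) : Dcr (Iso n i) :=
  fun _ _ hs h v hv hR => h v hv (Reach_mono hs hR)

/-- a connection to the outside of a set may be cut at the first vertex outside -/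
private theorem c2_cut {Bx : Finset (ℤ × ℤ)} {ω ω' : Finset (Sym2 (ℤ × ℤ))}
    (h : ∀ e ∈ ω, (∃ w ∈ e, w ∈ Bx) → e ∈ ω') {v : ℤ × ℤ} (hv : v ∈ Bx)
    (hR : Reach (fun w => w ∉ Bx) ω v) : Reach (fun w => w ∉ Bx) ω' v := by
  obtain ⟨s, hs, hc⟩ := hR
  have key := hc.symm.closed
    (S := fun y => (y ∈ Bx ∧ Cn ω' v y) ∨ ∃ s', s' ∉ Bx ∧ Cn ω' v s') (Or.inl ⟨hv, Cn_refl _ _⟩) (by
      rintro x y (⟨hx, hxc⟩ | hx) hxy
      · have h1 : Cn ω' v y := hxc.trans (Cn_edge (h _ hxy ⟨x, by simp, hx⟩))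
        by_cases hy : y ∈ Bx
        · exact Or.inl ⟨hy, h1⟩
        · exact Or.inr ⟨y, hy, h1⟩
      · exact Or.inr hx)
  rcases key with ⟨h1, _⟩ | ⟨s', h1, h2⟩
  · exact absurd h1 hs
  · exact ⟨s', h1, h2.symm⟩

private theorem c2_frz_sub {n : ℤ} (hn : 0 ≤ n) : frz n ⊆ edgesIn (bxx 0 0 (12 * LL * n)) := by
  intro e he
  unfold frz at he
  rw [mem_biUnion] at he
  obtain ⟨i, hi, he⟩ := he
  rw [mem_Icc] at hi
  refine Pool.Agent.H95.Perc.edgesIn_mono ?_ he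
  intro v hv
  rw [c2_mem_bxx] at hv ⊢
  unfold kk at hi
  unfold LL
  have h1 : -20 * n ≤ i * n := by nlinarith
  have h2 : i * n ≤ 20 * n := by nlinarith
  have h3 : 26 * n * i = 26 * (i * n) := by ring
  rw [h3] at hv
  omega

private theorem c2_frz_mem {n i : ℤ} (hi : -kk ≤ i ∧ i ≤ kk) :
    edgesIn (bxx (26 * n * i) 0 (2 * n)) ⊆ frz n := by
  intro e he
  unfold frz
  rw [mem_biUnion]
  exact ⟨i, mem_Icc.2 hi, he⟩

/-- two different boxes are disjoint -/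
private theorem c2_sep {n i j : ℤ} (hn : 4 ≤ n) (hij : i ≠ j) {v : ℤ × ℤ}
    (hv : v ∈ bxx (26 * n * i) 0 (12 * n)) : v ∉ bxx (26 * n * j) 0 (12 * n) := by
  rw [c2_mem_bxx] at hv ⊢
  intro h
  rcases lt_or_gt_of_ne hij with h1 | h1
  · have h2 : 26 * n * (i + 1) ≤ 26 * n * j := by nlinarith
    nlinarith
  · have h2 : 26 * n * (j + 1) ≤ 26 * n * i := by nlinarith
    nlinarith

private theorem c2_sub {n x y : ℤ} (hn : 4 ≤ n) {v : ℤ × ℤ} (hv : v ∈ bxx x y (2 * n)) :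
    v ∈ bxx x y (12 * n) := by
  rw [c2_mem_bxx] at hv ⊢
  omega

private theorem c2_mem_off {S : ℤ × ℤ → Prop} {E : Finset (Sym2 (ℤ × ℤ))} {e : Sym2 (ℤ × ℤ)} :
    e ∈ off S E ↔ e ∈ E ∧ ∀ v ∈ e, ¬ S v := by
  classical
  unfold off
  rw [mem_filter]

private theorem c2_off {n i : ℤ} (hn : 4 ≤ n) (hi : -kk ≤ i ∧ i ≤ kk) :
    off (fun v => v ∉ bxx (26 * n * i) 0 (12 * n)) (edgesIn (bxx 0 0 (12 * LL * n))) =
      edgesIn (bxx (26 * n * i) 0 (12 * n)) := by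
  have hsub : bxx (26 * n * i) 0 (12 * n) ⊆ bxx 0 0 (12 * LL * n) := by
    intro v hv
    rw [c2_mem_bxx] at hv ⊢
    unfold kk at hi
    unfold LL
    have h1 : -20 * n ≤ i * n := by nlinarith
    have h2 : i * n ≤ 20 * n := by nlinarith
    have h3 : 26 * n * i = 26 * (i * n) := by ring
    rw [h3] at hv
    omega
  ext e
  rw [c2_mem_off]
  induction e with
  | _ x y =>
    rw [Pool.Agent.H95.Perc.mem_edgesIn', Pool.Agent.H95.Perc.mem_edgesIn']
    constructor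
    · rintro ⟨⟨_, _, h3⟩, h4⟩
      exact ⟨by_contra fun h => h4 x (by simp) h, by_contra fun h => h4 y (by simp) h, h3⟩
    · rintro ⟨h1, h2, h3⟩
      refine ⟨⟨hsub h1, hsub h2, h3⟩, fun v hv hv' => hv' ?_⟩
      rcases Sym2.mem_iff.1 hv with rfl | rfl
      · exact h1
      · exact h2

private theorem c2_An_trans {a n : ℤ} {ω : Finset (Sym2 (ℤ × ℤ))} :
    An a 0 n (Pool.Agent.H95.Perc.act (Pool.Agent.H95.Perc.trans a 0) ω) ↔ An 0 0 n ω := by
  have haut := Pool.Agent.H95.Perc.isAut_trans a 0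
  have hh : ∀ x0 x1 y0 y1 : ℤ, hor (x0 + a) (x1 + a) y0 y1
      (Pool.Agent.H95.Perc.act (Pool.Agent.H95.Perc.trans a 0) ω) ↔ hor x0 x1 y0 y1 ω := by
    intro x0 x1 y0 y1
    unfold Pool.Agent.H95.Perc.hor
    have h := Pool.Agent.H95.Perc.link_act haut (V := rect x0 x1 y0 y1) (ω := ω)
      (A := fun v => v.1 = x0 + a) (B := fun v => v.1 = x1 + a)
    rw [Pool.Agent.H95.Perc.rect_trans, add_zero, add_zero] at h
    rw [h]
    simp only [Pool.Agent.H95.Perc.trans, Equiv.coe_fn_mk, add_left_inj]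
  have hv : ∀ x0 x1 y0 y1 : ℤ, ver (x0 + a) (x1 + a) y0 y1
      (Pool.Agent.H95.Perc.act (Pool.Agent.H95.Perc.trans a 0) ω) ↔ ver x0 x1 y0 y1 ω := by
    intro x0 x1 y0 y1
    unfold Pool.Agent.H95.Perc.ver
    have h := Pool.Agent.H95.Perc.link_act haut (V := rect x0 x1 y0 y1) (ω := ω)
      (A := fun v => v.2 = y0) (B := fun v => v.2 = y1)
    rw [Pool.Agent.H95.Perc.rect_trans, add_zero, add_zero] at h
    rw [h]
    simp only [Pool.Agent.H95.Perc.trans, Equiv.coe_fn_mk, add_zero]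
  have e1 : a - 2 * n = (0 - 2 * n) + a := by ring
  have e2 : a + 2 * n = (0 + 2 * n) + a := by ring
  have e3 : a - n = (0 - n) + a := by ring
  have e4 : a + n = (0 + n) + a := by ring
  unfold An
  rw [e1, e2, e3, e4, hh, hh, hv, hv]

private theorem c2_uu (hq : 1 ≤ q) (a n : ℤ) :
    P q (edgesIn (bxx a 0 (12 * n))) ∅ (An a 0 n) = uu q n := by
  have hq0 : 0 < q := by linarith
  have haut := Pool.Agent.H95.Perc.isAut_trans a 0
  have h := P_map (q := q) hq0 (NL_edgesIn (bxx 0 0 (12 * n))) (F := ∅)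
    (fun e he => absurd he (notMem_empty e)) (f := Pool.Agent.H95.Perc.trans a 0)
    ((Pool.Agent.H95.Perc.trans a 0).injective.injOn) (An a 0 n)
  have e1 : img (Pool.Agent.H95.Perc.trans a 0) (edgesIn (bxx 0 0 (12 * n))) =
      edgesIn (bxx a 0 (12 * n)) := by
    have h1 := Pool.Agent.H95.Perc.edgesIn_image haut (bxx 0 0 (12 * n))
    have h2 : (bxx 0 0 (12 * n)).image (Pool.Agent.H95.Perc.trans a 0) = bxx a 0 (12 * n) := by
      unfold bxx
      rw [Pool.Agent.H95.Perc.rect_trans]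
      congr 1 <;> ring
    rw [h2] at h1
    exact h1.symm
  have e2 : img (Pool.Agent.H95.Perc.trans a 0) (∅ : Finset (Sym2 (ℤ × ℤ))) = ∅ := by
    unfold img; exact image_empty _
  rw [e1, e2] at h
  rw [h]
  unfold uu
  exact P_congr fun ζ _ => c2_An_trans

private theorem c2_uu_nonneg (hq : 1 ≤ q) (n : ℤ) : 0 ≤ uu q n :=
  P_nonneg (by linarith) _ _ _

private theorem c2_step (hq : 1 ≤ q) {n : ℤ} (hn : 4 ≤ n) (s : Finset ℤ)
    (hs : ∀ i ∈ s, -kk ≤ i ∧ i ≤ kk) :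
    P q (edgesIn (bxx 0 0 (12 * LL * n))) ∅
      (fun ω => (∀ i ∈ s, An (26 * n * i) 0 n ω) ∧ ∀ i, -kk ≤ i → i ≤ kk → Iso n i ω) ≤
        (uu q n) ^ #s := by
  have hq0 : 0 < q := by linarith
  induction s using Finset.induction_on with
  | empty =>
    rw [card_empty, pow_zero]
    exact P_le_one hq0 _ _ _
  | insert i0 s hi0 ih =>
    have ih' := ih (fun i hi => hs i (mem_insert_of_mem hi))
    have hi0' := hs i0 (mem_insert_self _ _)
    rw [card_insert_of_notMem hi0, pow_succ, mul_comm (uu q n ^ #s) (uu q n)]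
    have hPE := PE_le (q := q) hq (NL_edgesIn (bxx 0 0 (12 * LL * n))) (F := ∅) (F0 := ∅)
      (fun e he => absurd he (notMem_empty e))
      (S := fun v => v ∉ bxx (26 * n * i0) 0 (12 * n))
      (I := fun v => v ∈ bxx (26 * n * i0) 0 (2 * n)) (Subset.refl _)
      (fun e he => absurd he (notMem_empty e)) (fun e he => absurd he (notMem_empty e))
      (A := An (26 * n * i0) 0 n)
      (R := fun ω => (∀ i ∈ s, An (26 * n * i) 0 n ω) ∧
        ∀ i, i ≠ i0 → -kk ≤ i → i ≤ kk → Iso n i ω)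
      (c2_inc_An (by omega)) (by
        intro ω _ hN hA
        refine c2_An_mono (by omega) (fun e he heω => ?_) hA
        rw [c2_mem_off]
        exact ⟨heω, fun v hv => hN v (vts_edgesIn _ (mem_vts.2 ⟨e, he, hv⟩))⟩) (by
        rintro ζ hζ ζ' hζ' hcoin ⟨h1, h2⟩
        rw [union_empty] at h1 h2 ⊢
        refine ⟨fun i hi => ?_, fun i hi hi1 hi2 => ?_⟩
        · have hne : i ≠ i0 := fun h => hi0 (h ▸ hi)
          refine c2_An_mono (by omega) (fun e he heζ => ?_) (h1 i hi)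
          have heE := hζ heζ
          refine (hcoin e heE ?_).1 heζ
          induction e with
          | _ x y =>
            rw [Pool.Agent.H95.Perc.mem_edgesIn'] at he
            exact ⟨x, by simp, c2_sep hn hne (c2_sub hn he.1)⟩
        · intro v hv hR
          refine h2 i hi hi1 hi2 v hv ?_
          refine c2_cut (fun e he hw => ?_) (c2_sub hn hv) hR
          obtain ⟨w, hwe, hw⟩ := hw
          exact (hcoin e (hζ' he) ⟨w, hwe, c2_sep hn hi hw⟩).2 he)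
    rw [c2_off hn hi0', c2_uu hq] at hPE
    have e1 : P q (edgesIn (bxx 0 0 (12 * LL * n))) ∅
        (fun ω => (∀ i ∈ insert i0 s, An (26 * n * i) 0 n ω) ∧
          ∀ i, -kk ≤ i → i ≤ kk → Iso n i ω) ≤
        P q (edgesIn (bxx 0 0 (12 * LL * n))) ∅ (fun ω => An (26 * n * i0) 0 n ω ∧
          (∀ v, v ∈ bxx (26 * n * i0) 0 (2 * n) →
            ¬ Reach (fun v => v ∉ bxx (26 * n * i0) 0 (12 * n)) ω v) ∧
          (∀ i ∈ s, An (26 * n * i) 0 n ω) ∧
            ∀ i, i ≠ i0 → -kk ≤ i → i ≤ kk → Iso n i ω) := by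
      apply P_mono hq0
      rintro ζ _ ⟨h1, h2⟩
      exact ⟨h1 i0 (mem_insert_self _ _), h2 i0 hi0'.1 hi0'.2,
        fun i hi => h1 i (mem_insert_of_mem hi), fun i _ hi1 hi2 => h2 i hi1 hi2⟩
    have e2 : P q (edgesIn (bxx 0 0 (12 * LL * n))) ∅ (fun ω =>
          (∀ v, v ∈ bxx (26 * n * i0) 0 (2 * n) →
            ¬ Reach (fun v => v ∉ bxx (26 * n * i0) 0 (12 * n)) ω v) ∧
          (∀ i ∈ s, An (26 * n * i) 0 n ω) ∧
            ∀ i, i ≠ i0 → -kk ≤ i → i ≤ kk → Iso n i ω) ≤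
        P q (edgesIn (bxx 0 0 (12 * LL * n))) ∅
          (fun ω => (∀ i ∈ s, An (26 * n * i) 0 n ω) ∧
            ∀ i, -kk ≤ i → i ≤ kk → Iso n i ω) := by
      apply P_mono hq0
      rintro ζ _ ⟨h1, h2, h3⟩
      refine ⟨h2, fun i hi1 hi2 => ?_⟩
      by_cases h : i = i0
      · rw [h]; exact h1
      · exact h3 i h hi1 hi2
    refine e1.trans (hPE.trans ?_)
    exact mul_le_mul_of_nonneg_left (e2.trans ih') (c2_uu_nonneg hq n)

theorem C2 (hq : 1 ≤ q) : ∃ C : ℝ, 0 < C ∧ ∀ n : ℤ, 4 ≤ n →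
    P q (edgesIn (bxx 0 0 (12 * LL * n))) ∅ (Ans n) ≤ C * (uu q n) ^ 41 := by
  have hq0 : 0 < q := by linarith
  obtain ⟨c, hc, hc2⟩ := C2a hq
  refine ⟨1 / c, by positivity, fun n hn => ?_⟩
  have hE := NL_edgesIn (bxx 0 0 (12 * LL * n))
  have hex := explore_ge (q := q) hq0 hE (F := ∅) (fun e he => absurd he (notMem_empty e))
    (B := Ans n) (X := fun _ => frz n) (fun _ _ => c2_frz_sub (by omega)) (by
      intro ω ω' hB h
      refine ⟨fun i hi1 hi2 => ?_, rfl⟩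
      refine c2_An_mono (by omega) (fun e he heω => ?_) (hB i hi1 hi2)
      have h1 : e ∈ ω ∩ frz n := mem_inter.2 ⟨heω, c2_frz_mem ⟨hi1, hi2⟩ he⟩
      rw [← h] at h1
      exact (mem_inter.1 h1).1)
    (A := fun ω => ∀ i, -kk ≤ i → i ≤ kk → Iso n i ω) (c := c) (by
      intro ω _ _ _
      refine (hc2 n hn).trans ?_
      refine P_anti_EF hq (hE.mono sdiff_subset) (hE.mono (c2_frz_sub (by omega)))
        subset_union_left ?_ ?_
      · intro e he
        rcases mem_union.1 he with h | h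
        · exact absurd h (notMem_empty e)
        · exact (mem_inter.1 h).2
      · exact fun ω ω' hs h i hi1 hi2 => c2_dcr_Iso n i ω ω' hs (h i hi1 hi2))
  have hst := c2_step hq hn (Icc (-kk) kk) (fun i hi => mem_Icc.1 hi)
  have hcard : #(Icc (-kk) kk) = 41 := by
    unfold kk; rfl
  rw [hcard] at hst
  have e1 : P q (edgesIn (bxx 0 0 (12 * LL * n))) ∅
      (fun ω => (∀ i, -kk ≤ i → i ≤ kk → Iso n i ω) ∧ Ans n ω) ≤
      P q (edgesIn (bxx 0 0 (12 * LL * n))) ∅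
        (fun ω => (∀ i ∈ Icc (-kk) kk, An (26 * n * i) 0 n ω) ∧
          ∀ i, -kk ≤ i → i ≤ kk → Iso n i ω) := by
    apply P_mono hq0
    rintro ζ _ ⟨h1, h2⟩
    exact ⟨fun i hi => h2 i (mem_Icc.1 hi).1 (mem_Icc.1 hi).2, h1⟩
  have h1 := hex.trans (e1.trans hst)
  rw [one_div, inv_mul_eq_div, le_div_iff₀ hc, mul_comm]
  exact h1

/-- the recursive inequality -/
theorem uu_rec (hq : 1 ≤ q) : ∃ C : ℝ, 0 < C ∧ ∀ n : ℤ, 4 ≤ n → uu q (LL * n) ≤ C * (uu q n) ^ 41 := by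
  have hq0 : 0 < q := by linarith
  obtain ⟨c, hc, hc1⟩ := C1 hq
  obtain ⟨C, hC, hC2⟩ := C2 hq
  refine ⟨C / c, by positivity, fun n hn => ?_⟩
  have h1 := (hc1 n (by omega)).trans (hC2 n hn)
  rw [div_mul_eq_mul_div, le_div_iff₀ hc, mul_comm]
  exact h1

end Pool.Agent.FKR
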