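import Pool.Agent.FKR.FB
import Pool.Agent.FKR.PE

/-! # FKR/Push (MP_b3e76a_pr): pushing a dual crossing towards a wired side

Rectangle `rect x0 x1 y0 (y0 + H)` with wired (frozen) bottom row and free other sides. With probability at
least `c ^ k`, where `(x1 - x0) + H ≤ k s`, the bottom row is not connected to the row `y0 + s`.
Let `W = x1 - x0`, `p (s, H)` this probability (`p (s, H) ≥ ...` uniformly in `x0, y0`).
One step (`push1`): for `4 ≤ H`, `t = H / 4 ≥ 1`, `H - 2 t ≥ 3` (needs `H ≥ 5` or so; we only use `H ≥ 8`): `p (H - t, H) ≥ c1 ^ j` if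
`W ≤ j (H - 2 t)`, `1 ≤ j`: compare with the cylinder of height `H` (translate by `P_map`; active edges of the rectangle are active
in the cylinder, the frozen bottom row is contained in `cylF`: `P_anti_EF`), `R2nexp` and `Pc_ver_shift`: no crossing
from the row `t` to the row `H - t`, so none from the row `0` to the row `H - t` (`ver_shrink`).
Iteration: `p (s, H) ≥ p (H', H) * p (s, H')` for `s ≤ H' = H - t`: `PE_ge` with `S v = (v.2 ≥ y0 + H')`, `I v = (v.2 = y0)`,
`F0 = F =` bottom row, `A = ¬ ver x0 x1 y0 (y0 + s)`, `R = True`; `¬ ver x0 x1 y0 (y0 + H')` implies that no vertex of the bottom row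
is reached by `S`; `hA2`: a crossing from the bottom row consists of vertices connected to the bottom row, hence not
reached; `off S E` and `F0` are the edges of the rectangle of height `H' - 1`; use `P_anti_EF` to pass to height `H'`, or
note that the height is `H' - 1 ≥ s`, treat `s ≥ H' - 1` separately.
Total cost: heights `H_i` decreasing by factors `≤ 7/8` until `≤ s`; exponents `∑ (2 W / H_i + 1) ≤ C (W / s + H / s + 1)`.
A convenient induction hypothesis: `p (s, H) ≥ exp (-a * (W * (2 / s - 1 / H) + Real.log (H / s) + 1))` with `a` large. -/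

namespace Pool.Agent.FKR

open Finset
open Pool.Agent.H95.Perc (Inc conn link rect hor ver eh ev sumE sepE Inci mem_rect)
open Pool.Agent.H95.SumRule (edgesIn Z2)

variable {q : ℝ}

/-- edges of `rect x0 x1 y0 y1` except those of the bottom row -/
noncomputable def upE (x0 x1 y0 y1 : ℤ) : Finset (Sym2 (ℤ × ℤ)) :=
  edgesIn (rect x0 x1 y0 y1) \ edgesIn (rect x0 x1 y0 y0)

/-- probability that the bottom row is not connected to the row `y0 + s` -/
private noncomputable def pp (q : ℝ) (x0 x1 y0 s H : ℤ) : ℝ :=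
  P q (upE x0 x1 y0 (y0 + H)) (edgesIn (rect x0 x1 y0 y0)) (fun ω => ¬ ver x0 x1 y0 (y0 + s) ω)

private lemma NL_upE {x0 x1 y0 y1 : ℤ} : NL (upE x0 x1 y0 y1) :=
  (NL_edgesIn _).mono sdiff_subset

private lemma dcr_nver {x0 x1 y0 y1 : ℤ} : Dcr (fun ω => ¬ ver x0 x1 y0 y1 ω) :=
  fun ω ω' h h' h'' => h' (Pool.Agent.H95.Perc.inc_link _ _ _ ω ω' h h'')

private lemma pp_mono (hq : 1 ≤ q) {x0 x1 y0 s s' H : ℤ} (hs : 0 ≤ s) (hss : s ≤ s') :
    pp q x0 x1 y0 s H ≤ pp q x0 x1 y0 s' H := by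
  unfold pp
  exact P_mono (by linarith) fun ζ _ h h' => h (ver_shrink le_rfl (by omega) (by omega) h')

private lemma upE_sub {x0 x1 y0 y1 : ℤ} (h : y0 ≤ y1) :
    upE x0 x1 y0 y1 ∪ edgesIn (rect x0 x1 y0 y0) = edgesIn (rect x0 x1 y0 y1) := by
  unfold upE
  exact sdiff_union_of_subset (Pool.Agent.H95.Perc.edgesIn_mono
    (Pool.Agent.H95.Perc.rect_mono le_rfl le_rfl le_rfl h))

/-- one step: comparison with the cylinder -/
private lemma push1 (hq : 1 ≤ q) : ∃ c : ℝ, 0 < c ∧ c ≤ 1 ∧ ∀ (j : ℕ) (x0 x1 y0 H t : ℤ), 1 ≤ j →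
    x0 ≤ x1 → 1 ≤ t → 3 ≤ H - 2 * t → (x1 - x0) ≤ j * (H - 2 * t) →
    c ^ j ≤ pp q x0 x1 y0 (H - t) H := by
  obtain ⟨c, hc0, hc1, K, hK, hR⟩ := R2nexp hq
  refine ⟨c, hc0, hc1, fun j x0 x1 y0 H t hj hx ht hH hW => ?_⟩
  have hq0 : 0 < q := by linarith
  have hj' : (1 : ℤ) ≤ j := by exact_mod_cast hj
  set m : ℤ := K * (j + 1) * (H - 2 * t) with hm
  have hm1 : (j + 1) * (H - 2 * t) ≤ m := by
    have h1 : 0 ≤ ((j : ℤ) + 1) * (H - 2 * t) := by positivity
    calc (j + 1) * (H - 2 * t) = 1 * ((j + 1) * (H - 2 * t)) := by ring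
      _ ≤ K * ((j + 1) * (H - 2 * t)) := mul_le_mul_of_nonneg_right hK h1
      _ = m := by rw [hm]; ring
  have hm2 : (x1 - x0) + 3 ≤ m := by
    have : ((j : ℤ) + 1) * (H - 2 * t) = j * (H - 2 * t) + (H - 2 * t) := by ring
    omega
  have hM : (3 : ℤ) ≤ 2 * m + 1 := by omega
  have hH0 : 0 ≤ H := by omega
  have h1 := hR j m H t (x1 - x0) hj ht hH le_rfl (by omega) hW
  refine h1.trans ?_
  have h2 : Pc q (2 * m + 1) H (fun ω => ¬ ver 1 (x1 - x0 + 1) t (H - t) ω) ≤
      Pc q (2 * m + 1) H (fun ω => ¬ ver 1 (x1 - x0 + 1) 0 (H - t) ω) := by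
    unfold Pc
    exact P_mono hq0 fun ζ _ h h' => h (ver_shrink (by omega) (by omega) le_rfl h')
  refine h2.trans ?_
  set f := Pool.Agent.H95.Perc.trans (-(x0 - 1)) (-y0) with hf
  have himg : ∀ V : Finset (ℤ × ℤ), img f (edgesIn V) = edgesIn (V.image f) := fun V =>
    (Pool.Agent.H95.Perc.edgesIn_image (Pool.Agent.H95.Perc.isAut_trans _ _) V).symm
  have hr : ∀ y1 : ℤ, (rect x0 x1 y0 y1).image f = rect 1 (x1 - x0 + 1) 0 (y1 - y0) := by
    intro y1
    rw [hf, Pool.Agent.H95.Perc.rect_trans]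
    congr 1 <;> ring
  have hFs : img f (edgesIn (rect x0 x1 y0 y0)) ⊆ cylF (2 * m + 1) := by
    rw [himg, hr]
    refine Subset.trans ?_ (subset_insert _ _)
    exact Pool.Agent.H95.Perc.edgesIn_mono
      (Pool.Agent.H95.Perc.rect_mono (by omega) (by omega) le_rfl (by omega))
  have hEs : img f (upE x0 x1 y0 (y0 + H)) ⊆ cylE (2 * m + 1) H ∪ cylF (2 * m + 1) := by
    have h3 : img f (upE x0 x1 y0 (y0 + H)) ⊆ edgesIn (rect 0 (2 * m + 1 - 1) 0 H) := by
      refine Subset.trans (image_subset_image (f := Sym2.map f) (sdiff_subset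
        (s := edgesIn (rect x0 x1 y0 (y0 + H))))) ?_
      change img f (edgesIn (rect x0 x1 y0 (y0 + H))) ⊆ _
      rw [himg, hr]
      exact Pool.Agent.H95.Perc.edgesIn_mono
        (Pool.Agent.H95.Perc.rect_mono (by omega) (by omega) le_rfl (by omega))
    intro e he
    have he' := h3 he
    rw [mem_union]
    unfold cylE cylF
    by_cases h4 : e ∈ edgesIn (rect 0 (2 * m + 1 - 1) 0 0)
    · right
      exact mem_insert_of_mem h4
    · left
      rw [mem_union, mem_sdiff]
      exact Or.inl ⟨he', h4⟩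
  have h5 : Pc q (2 * m + 1) H (fun ω => ¬ ver 1 (x1 - x0 + 1) 0 (H - t) ω) ≤
      P q (img f (upE x0 x1 y0 (y0 + H))) (img f (edgesIn (rect x0 x1 y0 y0)))
        (fun ω => ¬ ver 1 (x1 - x0 + 1) 0 (H - t) ω) := by
    unfold Pc
    exact P_anti_EF hq (NL_cylE hM) (NL_cylF hM) hEs hFs dcr_nver
  refine h5.trans ?_
  rw [P_map hq0 NL_upE (NL_edgesIn _) f.injective.injOn]
  unfold pp
  apply le_of_eq
  apply P_congr
  intro ζ _
  rw [hf, nar_trans_ver]
  rw [show (1 : ℤ) + (x0 - 1) = x0 by ring, show x1 - x0 + 1 + (x0 - 1) = x1 by ring,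
    show (0 : ℤ) + y0 = y0 by ring, show H - t + y0 = y0 + (H - t) by ring]

/-- deleting the edges at reached vertices does not change the connections of vertices which are not
reached -/
private lemma conn_off {V : Finset (ℤ × ℤ)} {ω : Finset (Sym2 (ℤ × ℤ))} {S : ℤ × ℤ → Prop}
    {a b : ℤ × ℤ} (ha : ¬ Reach S ω a) (h : conn V ω a b) : conn V (off (Reach S ω) ω) a b := by
  classical
  have hstep : ∀ x y, ¬ Reach S ω x → s(x, y) ∈ ω → ¬ Reach S ω y := by
    rintro x y hx hxy ⟨s, hs, hc⟩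
    exact hx ⟨s, hs, hc.trans (Cn_edge hxy).symm⟩
  unfold conn at h ⊢
  obtain ⟨p⟩ := h
  induction p with
  | nil => exact SimpleGraph.Reachable.refl _
  | @cons x y z hadj p ih =>
    rw [Pool.Agent.H95.SumRule.openGraph_adj, mem_inter] at hadj
    have hy := hstep x y ha hadj.1.1
    refine SimpleGraph.Reachable.trans (SimpleGraph.Adj.reachable ?_) (ih hy)
    rw [Pool.Agent.H95.SumRule.openGraph_adj, mem_inter]
    refine ⟨⟨?_, hadj.1.2⟩, hadj.2⟩
    unfold off
    rw [mem_filter]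
    refine ⟨hadj.1.1, fun v hv => ?_⟩
    rw [Sym2.mem_iff] at hv
    rcases hv with rfl | rfl
    · exact ha
    · exact hy

/-- exploration from the top -/
private lemma push2 (hq : 1 ≤ q) {x0 x1 y0 s H H' : ℤ} (h1 : 1 ≤ H') (h2 : H' ≤ H) :
    pp q x0 x1 y0 s H' * pp q x0 x1 y0 H' H ≤ pp q x0 x1 y0 s H := by
  classical
  have hq0 : 0 < q := by linarith
  set E := upE x0 x1 y0 (y0 + H) with hE
  set F := edgesIn (rect x0 x1 y0 y0) with hF
  have hEF : E ∪ F = edgesIn (rect x0 x1 y0 (y0 + H)) := upE_sub (by omega)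
  have key := PE_ge (q := q) hq (E := E) (F := F) (F0 := F) NL_upE (NL_edgesIn _)
    (S := fun v : ℤ × ℤ => y0 + H' ≤ v.2) (I := fun v : ℤ × ℤ => v.2 = y0) (Subset.refl _)
    (fun e he he' => absurd he he')
    (fun e he v hv => by
      obtain ⟨x, y, rfl | rfl⟩ := edgesIn_cases he
      · rw [hF, eh_mem_edgesIn_rect] at he
        rw [mem_eh] at hv
        rcases hv with rfl | rfl <;> simp only <;> omega
      · rw [hF, ev_mem_edgesIn_rect] at he
        omega)
    (A := fun ω => ¬ ver x0 x1 y0 (y0 + s) ω) (R := fun _ => True) dcr_nver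
    (fun ω _ hI hA hver => by
      obtain ⟨a, b, ha, hb, ha2, hb2, hc⟩ := hver
      exact hA ⟨a, b, ha, hb, ha2, hb2, conn_off (hI a ha2) hc⟩)
    (fun _ _ _ _ _ _ => trivial)
  have hA1 : pp q x0 x1 y0 s H' ≤ P q (off (fun v : ℤ × ℤ => y0 + H' ≤ v.2) E) F
      (fun ω => ¬ ver x0 x1 y0 (y0 + s) ω) := by
    unfold pp
    refine P_anti_EF hq NL_upE (NL_edgesIn _) ?_ (Subset.refl _) dcr_nver
    intro e he
    rw [upE_sub (by omega)]
    unfold off at he
    rw [mem_filter] at he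
    obtain ⟨he1, he2⟩ := he
    have he3 : e ∈ edgesIn (rect x0 x1 y0 (y0 + H)) := hEF ▸ mem_union_left _ he1
    obtain ⟨x, y, rfl | rfl⟩ := edgesIn_cases he3
    · rw [eh_mem_edgesIn_rect] at he3 ⊢
      have := he2 (x, y) (by rw [mem_eh]; exact Or.inl rfl)
      simp only at this
      omega
    · rw [ev_mem_edgesIn_rect] at he3 ⊢
      have := he2 (x, y + 1) (by rw [mem_ev]; exact Or.inr rfl)
      simp only at this
      omega
  have hA2 : pp q x0 x1 y0 H' H ≤ P q E F
      (fun ω => (∀ v : ℤ × ℤ, v.2 = y0 → ¬ Reach (fun v : ℤ × ℤ => y0 + H' ≤ v.2) ω v) ∧ True) := by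
    unfold pp
    refine P_mono hq0 ?_
    intro ζ hζ hn
    refine ⟨?_, trivial⟩
    rintro v hv ⟨s', hs', hc⟩
    apply hn
    have hωE : ζ ∪ F ⊆ edgesIn (rect x0 x1 y0 (y0 + H)) := by
      rw [← hEF]
      exact union_subset_union hζ (Subset.refl _)
    have hne : s' ≠ v := by
      rintro rfl
      omega
    have hvts : ∀ z, z ∈ vts (ζ ∪ F) → z ∈ rect x0 x1 y0 (y0 + H) := by
      intro z hz
      obtain ⟨e, he, hze⟩ := mem_vts.1 hz
      have he' := hωE he
      induction e with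
      | _ a b =>
        rw [Pool.Agent.H95.Perc.mem_edgesIn'] at he'
        rw [Sym2.mem_iff] at hze
        rcases hze with rfl | rfl
        · exact he'.1
        · exact he'.2.1
    obtain ⟨m1, m2⟩ := hc.mem_vts hne
    have hs'V := hvts s' m1
    have hvV := hvts v m2
    have hconn : conn (rect x0 x1 y0 (y0 + H)) (ζ ∪ F) v s' := by
      unfold conn
      rw [inter_eq_left.2 hωE]
      exact hc.symm
    have hvV' : v ∈ rect x0 x1 y0 (y0 + H' - 1) := by
      rw [mem_rect] at hvV ⊢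
      omega
    have hs'V' : s' ∉ rect x0 x1 y0 (y0 + H' - 1) := by
      rw [mem_rect]
      omega
    obtain ⟨z, w, z1, z2, w1, w2, hadj, hzw, hc'⟩ := hconn.exit hvV hvV' hs'V'
    have hadj' : Pool.Agent.H95.SumRule.IsUnit2 (w - z) := hadj
    simp only [Pool.Agent.H95.SumRule.IsUnit2, Prod.fst_sub, Prod.snd_sub] at hadj'
    rw [mem_rect] at z1 z2 w1 w2
    have hw2 : w.2 = y0 + H' := by omega
    have hzr : z ∈ rect x0 x1 y0 (y0 + H') := by rw [mem_rect]; omega
    have hwr : w ∈ rect x0 x1 y0 (y0 + H') := by rw [mem_rect]; omega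
    refine ⟨v, w, by rw [mem_rect] at hvV ⊢; omega, hwr, hv, hw2, ?_⟩
    refine (hc'.mono (inter_subset_right.trans (Pool.Agent.H95.Perc.rect_mono le_rfl le_rfl le_rfl
      (by omega))) (Subset.refl _)).trans ?_
    exact Pool.Agent.H95.Perc.conn_step hzr hwr hadj hzw
  have hA3 : P q E F (fun ω => (¬ ver x0 x1 y0 (y0 + s) ω) ∧
      (∀ v : ℤ × ℤ, v.2 = y0 → ¬ Reach (fun v : ℤ × ℤ => y0 + H' ≤ v.2) ω v) ∧ True) ≤
      pp q x0 x1 y0 s H := by
    unfold pp
    exact P_mono hq0 fun ζ _ h => h.1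
  refine le_trans ?_ (key.trans hA3)
  exact mul_le_mul hA1 hA2 (P_nonneg hq0 _ _ _) (P_nonneg hq0 _ _ _)

theorem push (hq : 1 ≤ q) : ∃ c : ℝ, 0 < c ∧ c ≤ 1 ∧ ∀ (k : ℕ) (x0 x1 y0 H s : ℤ), x0 ≤ x1 → 8 ≤ s →
    s ≤ H → (x1 - x0) + H ≤ k * s →
    c ^ k ≤ P q (upE x0 x1 y0 (y0 + H)) (edgesIn (rect x0 x1 y0 y0))
      (fun ω => ¬ ver x0 x1 y0 (y0 + s) ω) := by
  obtain ⟨c, hc0, hc1, hp⟩ := push1 hq
  have hq0 : 0 < q := by linarith
  refine ⟨c ^ 13, by positivity, pow_le_one₀ hc0.le hc1, ?_⟩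
  intro k x0 x1 y0 H s hx hs hsH hk
  have main : ∀ (N : ℕ) (H : ℤ), H = N → s ≤ H → ∀ n : ℕ,
      ((x1 - x0 : ℤ) : ℝ) * (13 / s - 11 / H) + 7 * H / s ≤ n → c ^ n ≤ pp q x0 x1 y0 s H := by
    intro N
    induction N using Nat.strong_induction_on with
    | _ N ih =>
      intro H hN hsH n hn
      set w : ℤ := x1 - x0 with hw
      have hw0 : 0 ≤ w := by omega
      have hH8 : 8 ≤ H := by omega
      obtain ⟨t, ht⟩ : ∃ t, t = H / 4 := ⟨_, rfl⟩
      obtain ⟨g, hg⟩ : ∃ g, g = (2 * w) / H := ⟨_, rfl⟩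
      have hg0 : 0 ≤ g := by rw [hg]; positivity
      have hg1 : H * g ≤ 2 * w := by rw [hg]; exact Int.mul_ediv_self_le (by omega)
      have hg2 : 2 * w < H * (g + 1) := by
        have := Int.lt_ediv_add_one_mul_self (2 * w) (show 0 < H by omega)
        rw [← hg] at this
        linarith
      obtain ⟨j, hj⟩ : ∃ j : ℕ, j = g.toNat + 1 := ⟨_, rfl⟩
      have hj1 : (j : ℤ) = g + 1 := by rw [hj]; omega
      have hjW : w ≤ j * (H - 2 * t) := by
        have h3 : (j : ℤ) * H ≤ j * (2 * (H - 2 * t)) :=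
          mul_le_mul_of_nonneg_left (by omega) (by omega)
        have h4 : (j : ℤ) * H = H * (g + 1) := by rw [hj1]; ring
        have h5 : (j : ℤ) * (2 * (H - 2 * t)) = 2 * (j * (H - 2 * t)) := by ring
        omega
      have hstep := hp j x0 x1 y0 H t (by omega) hx (by omega) (by omega) hjW
      have hsR : (0 : ℝ) < s := by exact_mod_cast (show 0 < s by omega)
      have hHR : (0 : ℝ) < H := by exact_mod_cast (show 0 < H by omega)
      have hwR : (0 : ℝ) ≤ (w : ℝ) := by exact_mod_cast hw0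
      have hsHR : (s : ℝ) ≤ H := by exact_mod_cast hsH
      have hjR : (j : ℝ) ≤ 2 * w / H + 1 := by
        have h3 : (j : ℝ) = (g : ℝ) + 1 := by exact_mod_cast hj1
        have h4 : (H : ℝ) * g ≤ 2 * w := by exact_mod_cast hg1
        have h5 : (g : ℝ) ≤ 2 * w / H := by
          rw [le_div_iff₀ hHR]
          linarith
        linarith
      have hinv : (1 : ℝ) / H ≤ 1 / s := one_div_le_one_div_of_le hsR hsHR
      have hHs : (1 : ℝ) ≤ H / s := by rw [le_div_iff₀ hsR]; linarith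
      by_cases hcase : H - t ≤ s
      · have hjn : j ≤ n := by
          have h3 : (j : ℝ) ≤ n := by
            refine le_trans hjR (le_trans ?_ hn)
            have h4 : (w : ℝ) * (1 / H) ≤ w * (1 / s) := mul_le_mul_of_nonneg_left hinv hwR
            have e1 : (w : ℝ) * (13 / s - 11 / H) = 13 * (w * (1 / s)) - 11 * (w * (1 / H)) := by
              ring
            have e2 : 2 * (w : ℝ) / H = 2 * (w * (1 / H)) := by ring
            have e3 : 7 * (H : ℝ) / s = 7 * (H / s) := by ring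
            rw [e1, e2, e3]
            linarith
          exact_mod_cast h3
        calc c ^ n ≤ c ^ j := pow_le_pow_of_le_one hc0.le hc1 hjn
          _ ≤ pp q x0 x1 y0 (H - t) H := hstep
          _ ≤ pp q x0 x1 y0 s H := pp_mono hq (by omega) hcase
      · push Not at hcase
        have hH'R : (0 : ℝ) < ((H - t : ℤ) : ℝ) := by exact_mod_cast (show 0 < H - t by omega)
        have hstep2 : ((w : ℝ)) * (13 / s - 11 / ((H - t : ℤ) : ℝ)) + 7 * ((H - t : ℤ) : ℝ) / s + j ≤
            n := by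
          refine le_trans ?_ hn
          have h3 : (13 : ℝ) / H ≤ 11 / ((H - t : ℤ) : ℝ) := by
            rw [div_le_div_iff₀ hHR hH'R]
            exact_mod_cast (show 13 * (H - t) ≤ 11 * H by omega)
          have h4 : (w : ℝ) * (13 / H) ≤ w * (11 / ((H - t : ℤ) : ℝ)) :=
            mul_le_mul_of_nonneg_left h3 hwR
          have h5 : (1 : ℝ) ≤ 7 * t / s := by
            rw [le_div_iff₀ hsR, one_mul]
            exact_mod_cast (show s ≤ 7 * t by omega)
          have e1 : (w : ℝ) * (13 / s - 11 / ((H - t : ℤ) : ℝ)) =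
              w * (13 / s) - w * (11 / ((H - t : ℤ) : ℝ)) := by ring
          have e2 : (w : ℝ) * (13 / s - 11 / H) = w * (13 / s) - w * (13 / H) + 2 * w / H := by ring
          have e3 : 7 * ((H - t : ℤ) : ℝ) / s = 7 * H / s - 7 * t / s := by push_cast; ring
          rw [e1, e2, e3]
          linarith
        have hpos : 0 ≤ ((w : ℝ)) * (13 / s - 11 / ((H - t : ℤ) : ℝ)) +
            7 * ((H - t : ℤ) : ℝ) / s := by
          have h3 : (1 : ℝ) / ((H - t : ℤ) : ℝ) ≤ 1 / s :=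
            one_div_le_one_div_of_le hsR (by exact_mod_cast hcase.le)
          have h4 : (w : ℝ) * (1 / ((H - t : ℤ) : ℝ)) ≤ w * (1 / s) :=
            mul_le_mul_of_nonneg_left h3 hwR
          have h5 : 0 ≤ (w : ℝ) * (1 / s) := by positivity
          have e1 : (w : ℝ) * (13 / s - 11 / ((H - t : ℤ) : ℝ)) =
              13 * (w * (1 / s)) - 11 * (w * (1 / ((H - t : ℤ) : ℝ))) := by ring
          have h6 : 0 ≤ 7 * ((H - t : ℤ) : ℝ) / s := by positivity
          rw [e1]
          linarith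
        have hjn : j ≤ n := by
          have h3 : (j : ℝ) ≤ n := by linarith
          exact_mod_cast h3
        have hih := ih (N - t.toNat) (by omega) (H - t) (by omega) (by omega) (n - j) (by
          rw [Nat.cast_sub hjn]
          linarith)
        calc c ^ n = c ^ (n - j) * c ^ j := by rw [← pow_add, Nat.sub_add_cancel hjn]
          _ ≤ pp q x0 x1 y0 s (H - t) * pp q x0 x1 y0 (H - t) H :=
            mul_le_mul hih hstep (by positivity) (P_nonneg hq0 _ _ _)
          _ ≤ pp q x0 x1 y0 s H := push2 hq (by omega) (by omega)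
  rw [← pow_mul]
  refine main H.toNat H (by omega) hsH (13 * k) ?_
  have hsR : (0 : ℝ) < s := by exact_mod_cast (show 0 < s by omega)
  have hHR : (0 : ℝ) < H := by exact_mod_cast (show 0 < H by omega)
  have hwR : (0 : ℝ) ≤ ((x1 - x0 : ℤ) : ℝ) := by exact_mod_cast (show 0 ≤ x1 - x0 by omega)
  have hkR : ((x1 - x0 : ℤ) : ℝ) + H ≤ k * s := by exact_mod_cast hk
  have h3 : (((x1 - x0 : ℤ) : ℝ) + H) / s ≤ k := by rw [div_le_iff₀ hsR]; exact hkR
  have h4 : 0 ≤ ((x1 - x0 : ℤ) : ℝ) * (11 / H) := by positivity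
  have h5 : 0 ≤ (H : ℝ) / s := by positivity
  have e1 : ((x1 - x0 : ℤ) : ℝ) * (13 / s - 11 / H) + 7 * H / s =
      13 * ((((x1 - x0 : ℤ) : ℝ) + H) / s) - 6 * (H / s) - ((x1 - x0 : ℤ) : ℝ) * (11 / H) := by
    ring
  rw [e1]
  push_cast at *
  linarith

end Pool.Agent.FKR
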