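import Pool.Agent.FKR.Sq

/-! # FKR/SqBd (MP_b3e76a_pr): non-crossing of a square in a strip, worst boundary conditions

All edges (active and frozen) are in the rows `y, ..., y + w - 1`, and no frozen edge has an end with first
coordinate strictly between `x` and `x + w`. Then with probability at least `1 / (1 + √q)` the square
`rect x (x+w) y (y+w-1)` has no left-right crossing.
Proof. Translate to `x = y = 0` (`P_map`). Let `z` be far away, `sq_joined`: `P q sqE (sqF ∪ jn (0,0) (w,0) z) (¬ hor) = 1/(1+√q)`.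
Let `F'` be the union of `sqF w`, `jn (0,0) (w,0) z`, all edges of `edgesIn (rect a b 0 (w-1))` with `x ≤ 0` (both ends) and those
with `x ≥ w` (both ends). `P_ge` twice: (1) from `(E, F)` to `(sqE, F')`: `E ⊆ sqE ∪ F'`, connections in `F` between ends of edges
of `E` are connections in `F'` (`F ⊆ F'`); (2) from `(sqE, F')` to `(sqE, sqF ∪ jn)`: ends of edges of `sqE` which are
connected by `F'` are connected by `sqF ∪ jn`: such ends are in the column `0` or `w` (if distinct), all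
vertices of the two columns are connected by `sqF ∪ jn`. Events: for `ζ ⊆ sqE`, `hor 0 w 0 (w-1)` of `ζ ∪ F'` and of
`ζ ∪ (sqF ∪ jn)` agree (only edges inside the square matter). -/

namespace Pool.Agent.FKR

open Finset
open Pool.Agent.H95.Perc (Inc conn link rect hor ver eh ev sumE sepE Inci mem_rect)
open Pool.Agent.H95.SumRule (edgesIn Z2)

variable {q : ℝ} {E F : Finset (Sym2 (ℤ × ℤ))} {x y w a b : ℤ}

section
variable {x0 y0 : ℤ}

private noncomputable def sqbF (a b w : ℤ) : Finset (Sym2 (ℤ × ℤ)) :=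
  edgesIn (rect (min a 0) 0 0 (w - 1)) ∪ edgesIn (rect w (max b w) 0 (w - 1))

private theorem sqb_eh {a b w : ℤ} {x y : ℤ} : eh x y ∈ sqbF a b w ↔
    ((min a 0 ≤ x ∧ x + 1 ≤ 0) ∨ (w ≤ x ∧ x + 1 ≤ max b w)) ∧ 0 ≤ y ∧ y ≤ w - 1 := by
  unfold sqbF
  rw [mem_union, eh_mem_edgesIn_rect, eh_mem_edgesIn_rect]
  omega

private theorem sqb_ev {a b w : ℤ} {x y : ℤ} : ev x y ∈ sqbF a b w ↔
    ((min a 0 ≤ x ∧ x ≤ 0) ∨ (w ≤ x ∧ x ≤ max b w)) ∧ 0 ≤ y ∧ y + 1 ≤ w - 1 := by
  unfold sqbF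
  rw [mem_union, ev_mem_edgesIn_rect, ev_mem_edgesIn_rect]
  omega

private theorem sqb_NL {a b w : ℤ} : NL (sqbF a b w) :=
  (NL_edgesIn _).union (NL_edgesIn _)

private theorem sqb_vts {a b w : ℤ} {u : ℤ × ℤ} (h : u ∈ vts (sqbF a b w)) :
    u.1 ≤ 0 ∨ w ≤ u.1 := by
  unfold sqbF at h
  rw [vts_union, mem_union] at h
  rcases h with h | h
  · left
    exact (mem_rect.1 (vts_edgesIn _ h)).2.1
  · right
    exact (mem_rect.1 (vts_edgesIn _ h)).1

private theorem sqb_inter {a b w : ℤ} (hw : 2 ≤ w) {ζ : Finset (Sym2 (ℤ × ℤ))} (hζ : ζ ⊆ sqE w) :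
    (ζ ∪ sqbF a b w) ∩ edgesIn (rect 0 w 0 (w - 1)) = ζ ∪ sqF w := by
  ext e
  rw [mem_inter, mem_union, mem_union]
  constructor
  · rintro ⟨h1 | h1, h2⟩
    · exact Or.inl h1
    · right
      obtain ⟨x, y, h3 | h3⟩ := edgesIn_cases h2
      · subst h3
        rw [sqb_eh] at h1
        rw [eh_mem_edgesIn_rect] at h2
        omega
      · subst h3
        rw [sqb_ev] at h1
        rw [ev_mem_edgesIn_rect] at h2
        rw [SqAux.ev_mem_sqF]
        omega
  · rintro (h1 | h1)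
    · exact ⟨Or.inl h1, (hζ.trans sdiff_subset) h1⟩
    · refine ⟨Or.inr ?_, SqAux.sqF_sub hw h1⟩
      obtain ⟨x, y, h3 | h3⟩ := edgesIn_cases (SqAux.sqF_sub hw h1)
      · subst h3
        exact absurd h1 SqAux.eh_mem_sqF
      · subst h3
        rw [SqAux.ev_mem_sqF] at h1
        rw [sqb_ev]
        omega

private theorem sqb_zero {q : ℝ} {E F : Finset (Sym2 (ℤ × ℤ))} {a b w : ℤ}
    (hq : 1 ≤ q) (hw : 2 ≤ w) (hE : E ⊆ edgesIn (rect a b 0 (w - 1)))
    (hF : F ⊆ edgesIn (rect a b 0 (w - 1)))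
    (hF' : ∀ e ∈ F, ∀ v ∈ e, ¬ (0 < v.1 ∧ v.1 < w)) :
    P q E F (hor 0 w 0 (w - 1)) ≤ √q / (1 + √q) := by
  have hz : ((-1, 0) : ℤ × ℤ) ∉ rect 0 w 0 (w - 1) := by
    rw [mem_rect]; simp only; omega
  have hinc : Inc (hor 0 w 0 (w - 1)) := Pool.Agent.H95.Perc.inc_link _ _ _
  rw [← sq_joined hq hw hz]
  have h1 : E ⊆ sqE w ∪ sqbF a b w := by
    intro e he
    have he' := hE he
    rw [mem_union]
    obtain ⟨x, y, h3 | h3⟩ := edgesIn_cases he'
    · subst h3
      rw [eh_mem_edgesIn_rect] at he'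
      rw [SqAux.eh_mem_sqE, sqb_eh]
      omega
    · subst h3
      rw [ev_mem_edgesIn_rect] at he'
      rw [SqAux.ev_mem_sqE, sqb_ev]
      omega
  have h2 : F ⊆ sqbF a b w := by
    intro e he
    have he' := hF he
    have hv := hF' e he
    obtain ⟨x, y, h3 | h3⟩ := edgesIn_cases he'
    · subst h3
      rw [eh_mem_edgesIn_rect] at he'
      have v1 := hv (x, y) (mem_eh.2 (Or.inl rfl))
      have v2 := hv (x + 1, y) (mem_eh.2 (Or.inr rfl))
      simp only at v1 v2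
      rw [sqb_eh]
      omega
    · subst h3
      rw [ev_mem_edgesIn_rect] at he'
      have v1 := hv (x, y) (mem_ev.2 (Or.inl rfl))
      simp only at v1
      rw [sqb_ev]
      omega
  refine (P_mono_EF hq SqAux.NL_sqE sqb_NL h1 h2 hinc).trans ?_
  have hNLj : NL (sqF w ∪ jn ((0, 0) : ℤ × ℤ) (w, 0) (-1, 0)) := by
    refine (SqAux.NL_sqF hw).union (NL_jn ?_ ?_)
    · intro h; rw [Prod.mk.injEq] at h; omega
    · intro h; rw [Prod.mk.injEq] at h; omega
  refine P_le hq SqAux.NL_sqE sqb_NL SqAux.NL_sqE hNLj subset_union_left ?_ hinc hinc ?_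
  · intro u hu v hv huv
    by_cases huv' : u = v
    · subst huv'; exact Cn_refl _ _
    · have hu1 := SqAux.vts_sqE hu
      have hv1 := SqAux.vts_sqE hv
      obtain ⟨h3, h4⟩ := huv.mem_vts huv'
      have hu2 := sqb_vts h3
      have hv2 := sqb_vts h4
      have hu3 : u.1 = 0 ∨ u.1 = w := by
        rw [mem_rect] at hu1; omega
      have hv3 : v.1 = 0 ∨ v.1 = w := by
        rw [mem_rect] at hv1; omega
      exact (SqAux.col_Cn hu1 hu3).symm.trans (SqAux.col_Cn hv1 hv3)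
  · intro ζ hζ h
    refine (SqAux.hor_dep ?_).1 h
    rw [sqb_inter hw hζ, SqAux.inter_j hw hz hζ]

end

theorem sq_bound (hq : 1 ≤ q) (hw : 2 ≤ w) (hE : E ⊆ edgesIn (rect a b y (y + w - 1)))
    (hF : F ⊆ edgesIn (rect a b y (y + w - 1)))
    (hF' : ∀ e ∈ F, ∀ v ∈ e, ¬ (x < v.1 ∧ v.1 < x + w)) :
    1 / (1 + √q) ≤ P q E F (fun ω => ¬ hor x (x + w) y (y + w - 1) ω) := by
  have hq0 : 0 < q := by linarith
  set σ := Pool.Agent.H95.Perc.trans (-x) (-y) with hσ
  have hσa : Pool.Agent.H95.Perc.IsAut σ := Pool.Agent.H95.Perc.isAut_trans _ _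
  have hEN : NL E := (NL_edgesIn _).mono hE
  have hFN : NL F := (NL_edgesIn _).mono hF
  have key : ∀ G : Finset (Sym2 (ℤ × ℤ)), G ⊆ edgesIn (rect a b y (y + w - 1)) →
      img σ G ⊆ edgesIn (rect (a - x) (b - x) 0 (w - 1)) := by
    intro G hG
    have h1 : rect (a - x) (b - x) 0 (w - 1) = (rect a b y (y + w - 1)).image σ := by
      rw [hσ, Pool.Agent.H95.Perc.rect_trans]
      congr 1 <;> ring
    rw [h1, Pool.Agent.H95.Perc.edgesIn_image hσa]
    exact image_subset_image hG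
  have hmap := P_map (f := σ) hq0 hEN hFN (fun _ _ _ _ h => σ.injective h)
    (fun ω => ¬ hor 0 w 0 (w - 1) ω)
  have hev : ∀ ω : Finset (Sym2 (ℤ × ℤ)), hor 0 w 0 (w - 1) (img σ ω) ↔
      hor x (x + w) y (y + w - 1) ω := by
    intro ω
    have h1 : rect 0 w 0 (w - 1) = (rect x (x + w) y (y + w - 1)).image σ := by
      rw [hσ, Pool.Agent.H95.Perc.rect_trans]
      congr 1 <;> ring
    unfold hor
    rw [h1]
    change link _ _ _ (Pool.Agent.H95.Perc.act σ ω) ↔ _
    rw [Pool.Agent.H95.Perc.link_act hσa]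
    have e1 : ∀ v : ℤ × ℤ, (σ v).1 = v.1 + -x := fun v => rfl
    constructor
    · intro h
      refine h.mono (Subset.refl _) (fun c _ h2 => ?_) (fun c _ h2 => ?_)
      · rw [e1] at h2; linarith
      · rw [e1] at h2; linarith
    · intro h
      refine h.mono (Subset.refl _) (fun c _ h2 => ?_) (fun c _ h2 => ?_)
      · rw [e1]; linarith
      · rw [e1]; linarith
  have h2 : P q E F (fun ω => ¬ hor x (x + w) y (y + w - 1) ω) =
      P q (img σ E) (img σ F) (fun ω => ¬ hor 0 w 0 (w - 1) ω) := by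
    rw [hmap]
    exact P_congr (fun ζ _ => not_congr (hev _).symm)
  rw [h2, P_not hq0]
  have h3 := sqb_zero (q := q) (E := img σ E) (F := img σ F) hq hw (key E hE) (key F hF) (by
    intro e he v hv
    unfold img at he
    rw [mem_image] at he
    obtain ⟨e', he', rfl⟩ := he
    rw [Sym2.mem_map] at hv
    obtain ⟨v', hv', rfl⟩ := hv
    have h4 := hF' e' he' v' hv'
    have e1 : (σ v').1 = v'.1 + -x := rfl
    rw [e1]
    omega)
  have hs : 0 < 1 + √q := by positivity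
  have h5 : √q / (1 + √q) = 1 - 1 / (1 + √q) := by
    field_simp
    ring
  rw [h5] at h3
  linarith

end Pool.Agent.FKR
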