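import Pool.Agent.FKR.AnDefs
import Pool.Agent.FKR.Push
import Pool.Agent.FKR.SqBd

/-! # FKR/C2a (MP_b3e76a_pr): isolating many frozen boxes from each other

`B = 12 LL n`; frozen boxes `bxx (26 n i) 0 (2 n)`, `|i| ≤ kk` (`frz n` = all their edges), free box of radius `B`.
`Iso n i ω`: no vertex of the `i`-th frozen box is connected to a vertex outside `bxx (26 n i) 0 (12 n)`.
`C2a`: all the `Iso` occur simultaneously with probability `≥ c`. Let `E = edgesIn (bxx 0 0 B) \ frz n`, `F = frz n`.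
(1) `NT = ¬ ver (-B) B (2n) (4n)`, `NB = ¬ ver (-B) B (-4n) (-2n)`: `P q E F NT ≥ P q (upE (-B) B (2n) B) (edgesIn (rect (-B) B (2n) (2n))) NT ≥ c ^ k` by
`P_ge` (via the measure with `upE (-B) B (2n) B` active and ALL edges of `bxx 0 0 B` in the rows `≤ 2 n` frozen) and `push` with
`y0 = 2 n`, `H = B - 2 n`, `s = 2 n ≥ 8`, `k = 24 LL`. `NB`: reflection (`P_map` with `Perc.reflY 0`). `P_fkg_dcr`: `P (NT ∧ NB) ≥ c1`.
(2) `PE_ge` with `S v = (4 n ≤ v.2 ∨ v.2 ≤ -4 n)`, `I v = (-2n ≤ v.2 ∧ v.2 ≤ 2n)`, `F0 = F`, `R = True`, `A = ∀ i, Iso n i`. `NT ∧ NB` implies that no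
vertex of `I` is reached from `S` (part of the connection between its last visit to `{v.2 ≤ 2n}` and its first
visit to `{v.2 ≥ 4n}`). `hA2`: connections starting in a frozen box (in `I`) only use edges with non-reached ends.
So it remains to bound `P q (off S E) F A` below.
(3) `off S E ∪ F ⊆` edges of the rows `-4n+1..4n-1`. `A` contains the intersection over `i` of
`¬ hor (26ni+2n) (26ni+10n) (-4n+1) (4n)` and `¬ hor (26ni-10n) (26ni-2n) (-4n+1) (4n)` (within these rows a connection from the box `i` to a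
vertex at distance `> 12 n` has to cross one of the two squares): `sq_bound` with `w = 8 n`, `y = -4n+1`, `y + w - 1 = 4n`; no frozen
edge has an end strictly inside (the frozen boxes are in `|x - 26 n i| ≤ 2 n`). `P_fkg_dcr` for the `2 * 41` events. -/

namespace Pool.Agent.FKR

open Finset
open Pool.Agent.H95.Perc (Inc conn link rect hor ver eh ev sumE sepE Inci mem_rect conn_step)
open Pool.Agent.H95.SumRule (edgesIn Z2)

variable {q : ℝ}

/-- edges of the frozen boxes -/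
noncomputable def frz (n : ℤ) : Finset (Sym2 (ℤ × ℤ)) :=
  (Icc (-kk) kk).biUnion fun i => edgesIn (bxx (26 * n * i) 0 (2 * n))

/-- the `i`-th frozen box is isolated -/
def Iso (n i : ℤ) (ω : Finset (Sym2 (ℤ × ℤ))) : Prop :=
  ∀ v ∈ bxx (26 * n * i) 0 (2 * n), ¬ Reach (fun w => w ∉ bxx (26 * n * i) 0 (12 * n)) ω v

theorem row_Cn' {ω : Finset (Sym2 (ℤ × ℤ))} {a b y : ℤ} (hab : a ≤ b)
    (h : ∀ i, a ≤ i → i < b → s((i, y), (i + 1, y)) ∈ ω) : Cn ω (a, y) (b, y) := by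
  induction b, hab using Int.leInduction with
  | base => exact Cn_refl _ _
  | succ n hn ih =>
    refine (ih fun i h1 h2 => h i h1 (by omega)).trans ?_
    exact Cn_edge (h n hn (by omega))

theorem Z2_adj {a b : ℤ × ℤ} : Z2.Adj a b ↔
    (a.1 = b.1 ∧ (a.2 = b.2 + 1 ∨ b.2 = a.2 + 1)) ∨ (a.2 = b.2 ∧ (a.1 = b.1 + 1 ∨ b.1 = a.1 + 1)) := by
  simp only [Z2, Pool.Agent.H95.SumRule.IsUnit2, Prod.fst_sub, Prod.snd_sub]
  omega

/-- a connection which meets both horizontal sides of a rectangle crosses it -/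
theorem ver_of_conn_lt {x0 x1 Y0 Y1 y0 y1 : ℤ} {ω : Finset (Sym2 (ℤ × ℤ))} {a b : ℤ × ℤ}
    (h : conn (rect x0 x1 Y0 Y1) ω a b) (ha : a ∈ rect x0 x1 Y0 Y1) (hy : y0 < y1) (ha2 : a.2 ≤ y0)
    (hb2 : y1 ≤ b.2) : ver x0 x1 y0 y1 ω := by
  have hb := h.mem ha
  -- last part above `y0`
  obtain ⟨z, w, hz, hz', hw, hw', hadj, hzw, hc⟩ := h.symm.exit (V' := rect x0 x1 (y0 + 1) Y1) hb
    (by rw [mem_rect] at hb ⊢; omega) (by rw [mem_rect]; omega)
  have hz2 : z.2 = y0 + 1 ∧ w.2 = y0 := by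
    rw [mem_rect] at hz hz' hw hw'
    rw [Z2_adj] at hadj
    omega
  have hz0 : z ∈ rect x0 x1 y0 Y1 := by rw [mem_rect] at hz' ⊢; omega
  have hw0 : w ∈ rect x0 x1 y0 Y1 := by rw [mem_rect] at hw ⊢; rw [mem_rect] at hz'; omega
  have hc' : conn (rect x0 x1 y0 Y1) ω w b := by
    refine (conn_step hw0 hz0 hadj.symm (by rw [Sym2.eq_swap]; exact hzw)).trans (hc.symm.mono ?_
      (Subset.refl _))
    intro v hv
    rw [mem_inter, mem_rect, mem_rect] at hv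
    rw [mem_rect]
    omega
  -- first part below `y1`
  obtain ⟨z', w', hz1, hz1', hw1, hw1', hadj', hzw', hc2⟩ := hc'.exit (V' := rect x0 x1 y0 (y1 - 1)) hw0
    (by rw [mem_rect] at hw0 ⊢; omega) (by rw [mem_rect]; omega)
  have hz3 : z'.2 = y1 - 1 ∧ w'.2 = y1 := by
    rw [mem_rect] at hz1 hz1' hw1 hw1'
    rw [Z2_adj] at hadj'
    omega
  have hz4 : z' ∈ rect x0 x1 y0 y1 := by rw [mem_rect] at hz1' ⊢; omega
  have hw4 : w' ∈ rect x0 x1 y0 y1 := by rw [mem_rect] at hw1 ⊢; omega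
  refine ⟨w, w', by rw [mem_rect] at hw0 ⊢; omega, hw4, hz2.2, hz3.2, ?_⟩
  refine (hc2.mono ?_ (Subset.refl _)).trans (conn_step hz4 hw4 hadj' hzw')
  intro v hv
  rw [mem_inter, mem_rect, mem_rect] at hv
  rw [mem_rect]
  omega

/-- a connection which meets both vertical sides of a rectangle crosses it -/
theorem hor_of_conn_lt {X0 X1 x0 x1 y0 y1 : ℤ} {ω : Finset (Sym2 (ℤ × ℤ))} {a b : ℤ × ℤ}
    (h : conn (rect X0 X1 y0 y1) ω a b) (ha : a ∈ rect X0 X1 y0 y1) (hx : x0 < x1) (ha1 : a.1 ≤ x0)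
    (hb1 : x1 ≤ b.1) : hor x0 x1 y0 y1 ω := by
  have hb := h.mem ha
  obtain ⟨z, w, hz, hz', hw, hw', hadj, hzw, hc⟩ := h.symm.exit (V' := rect (x0 + 1) X1 y0 y1) hb
    (by rw [mem_rect] at hb ⊢; omega) (by rw [mem_rect]; omega)
  have hz2 : z.1 = x0 + 1 ∧ w.1 = x0 := by
    rw [mem_rect] at hz hz' hw hw'
    rw [Z2_adj] at hadj
    omega
  have hz0 : z ∈ rect x0 X1 y0 y1 := by rw [mem_rect] at hz' ⊢; omega
  have hw0 : w ∈ rect x0 X1 y0 y1 := by rw [mem_rect] at hw ⊢; rw [mem_rect] at hz'; omega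
  have hc' : conn (rect x0 X1 y0 y1) ω w b := by
    refine (conn_step hw0 hz0 hadj.symm (by rw [Sym2.eq_swap]; exact hzw)).trans (hc.symm.mono ?_
      (Subset.refl _))
    intro v hv
    rw [mem_inter, mem_rect, mem_rect] at hv
    rw [mem_rect]
    omega
  obtain ⟨z', w', hz1, hz1', hw1, hw1', hadj', hzw', hc2⟩ := hc'.exit (V' := rect x0 (x1 - 1) y0 y1) hw0
    (by rw [mem_rect] at hw0 ⊢; omega) (by rw [mem_rect]; omega)
  have hz3 : z'.1 = x1 - 1 ∧ w'.1 = x1 := by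
    rw [mem_rect] at hz1 hz1' hw1 hw1'
    rw [Z2_adj] at hadj'
    omega
  have hz4 : z' ∈ rect x0 x1 y0 y1 := by rw [mem_rect] at hz1' ⊢; omega
  have hw4 : w' ∈ rect x0 x1 y0 y1 := by rw [mem_rect] at hw1 ⊢; omega
  refine ⟨w, w', by rw [mem_rect] at hw0 ⊢; omega, hw4, hz2.2, hz3.2, ?_⟩
  refine (hc2.mono ?_ (Subset.refl _)).trans (conn_step hz4 hw4 hadj' hzw')
  intro v hv
  rw [mem_inter, mem_rect, mem_rect] at hv
  rw [mem_rect]
  omega

theorem mem_frz {n : ℤ} {x y : ℤ × ℤ} : s(x, y) ∈ frz n ↔ ∃ i, -kk ≤ i ∧ i ≤ kk ∧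
    x ∈ bxx (26 * n * i) 0 (2 * n) ∧ y ∈ bxx (26 * n * i) 0 (2 * n) ∧ Z2.Adj x y := by
  unfold frz
  simp only [mem_biUnion, mem_Icc, Pool.Agent.H95.Perc.mem_edgesIn', and_assoc]

theorem mem_bxx {x y n : ℤ} {v : ℤ × ℤ} : v ∈ bxx x y n ↔
    x - n ≤ v.1 ∧ v.1 ≤ x + n ∧ y - n ≤ v.2 ∧ v.2 ≤ y + n := mem_rect

theorem mul_bd {n i : ℤ} (hn : 4 ≤ n) (h1 : -kk ≤ i) (h2 : i ≤ kk) :
    -(20 * n) ≤ n * i ∧ n * i ≤ 20 * n := by
  unfold kk at h1 h2
  constructor <;> nlinarith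

theorem frz_box {n : ℤ} (hn : 4 ≤ n) {e : Sym2 (ℤ × ℤ)} (he : e ∈ frz n) :
    e ∈ edgesIn (rect (-(12 * LL * n)) (12 * LL * n) (-(2 * n)) (2 * n)) := by
  induction e with
  | _ x y =>
    obtain ⟨i, h1, h2, hx, hy, hadj⟩ := mem_frz.1 he
    have h3 := mul_bd hn h1 h2
    rw [mem_bxx] at hx hy
    rw [Pool.Agent.H95.Perc.mem_edgesIn', mem_rect, mem_rect]
    have h4 : 26 * n * i = 26 * (n * i) := by ring
    rw [h4] at hx hy
    unfold LL
    refine ⟨?_, ?_, hadj⟩ <;> omega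

theorem frz_sub {n : ℤ} (hn : 4 ≤ n) : frz n ⊆ edgesIn (bxx 0 0 (12 * LL * n)) := by
  intro e he
  refine Pool.Agent.H95.Perc.edgesIn_mono (Pool.Agent.H95.Perc.rect_mono ?_ ?_ ?_ ?_) (frz_box hn he) <;>
    unfold LL <;> omega

/-- no vertical crossing just above the frozen boxes -/
theorem NT_bound (hq : 1 ≤ q) {c : ℝ} (hc : ∀ (k : ℕ) (x0 x1 y0 H s : ℤ), x0 ≤ x1 → 8 ≤ s →
    s ≤ H → (x1 - x0) + H ≤ k * s →
    c ^ k ≤ P q (upE x0 x1 y0 (y0 + H)) (edgesIn (rect x0 x1 y0 y0))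
      (fun ω => ¬ ver x0 x1 y0 (y0 + s) ω)) {n : ℤ} (hn : 4 ≤ n) :
    c ^ 12552 ≤ P q (edgesIn (bxx 0 0 (12 * LL * n)) \ frz n) (frz n)
      (fun ω => ¬ ver (-(12 * LL * n)) (12 * LL * n) (2 * n) (4 * n) ω) := by
  set B : ℤ := 12 * LL * n with hB
  have hB' : B = 6276 * n := by rw [hB]; unfold LL; ring
  have h1 := hc 12552 (-B) B (2 * n) (B - 2 * n) (2 * n) (by omega) (by omega) (by omega) (by
    push_cast; omega)
  rw [show 2 * n + (B - 2 * n) = B by ring, show 2 * n + 2 * n = 4 * n by ring] at h1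
  refine h1.trans ?_
  have hdcr : Dcr (fun ω => ¬ ver (-B) B (2 * n) (4 * n) ω) :=
    fun ω ω' h k k' => k (Pool.Agent.H95.Perc.inc_ver _ _ _ _ _ _ h k')
  -- freeze all edges below
  have h2 : P q (upE (-B) B (2 * n) B) (edgesIn (rect (-B) B (2 * n) (2 * n)))
      (fun ω => ¬ ver (-B) B (2 * n) (4 * n) ω) ≤ P q (upE (-B) B (2 * n) B)
      (edgesIn (rect (-B) B (-B) (2 * n))) (fun ω => ¬ ver (-B) B (2 * n) (4 * n) ω) := by
    refine P_ge hq ((NL_edgesIn _).mono sdiff_subset) (NL_edgesIn _) ((NL_edgesIn _).mono sdiff_subset)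
      (NL_edgesIn _) subset_union_left ?_ hdcr hdcr ?_
    · intro u hu v hv huv
      by_cases hne : u = v
      · rw [hne]; exact Cn_refl _ _
      have hvts : ∀ w, w ∈ vts (upE (-B) B (2 * n) B) →
          w ∈ vts (edgesIn (rect (-B) B (-B) (2 * n))) → -B ≤ w.1 ∧ w.1 ≤ B ∧ w.2 = 2 * n := by
        intro w h3 h4
        obtain ⟨e, he, hwe⟩ := mem_vts.1 h3
        obtain ⟨e', he', hwe'⟩ := mem_vts.1 h4
        obtain ⟨w2, rfl⟩ := hwe
        obtain ⟨w3, rfl⟩ := hwe'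
        unfold upE at he
        rw [mem_sdiff, Pool.Agent.H95.Perc.mem_edgesIn', mem_rect] at he
        rw [Pool.Agent.H95.Perc.mem_edgesIn', mem_rect] at he'
        omega
      have hu' := hvts u hu (huv.mem_vts hne).1
      have hv' := hvts v hv (huv.mem_vts hne).2
      have key : ∀ a b : ℤ, -B ≤ a → a ≤ b → b ≤ B →
          Cn (edgesIn (rect (-B) B (2 * n) (2 * n))) (a, 2 * n) (b, 2 * n) := by
        intro a b ha hab hb
        refine row_Cn' hab fun i h3 h4 => ?_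
        rw [Pool.Agent.H95.Perc.mem_edgesIn', mem_rect, mem_rect, Z2_adj]
        refine ⟨⟨?_, ?_, ?_, ?_⟩, ⟨?_, ?_, ?_, ?_⟩, Or.inr ⟨rfl, Or.inr rfl⟩⟩ <;> simp only <;> omega
      have eu : u = (u.1, 2 * n) := by rw [← hu'.2.2]
      have ev' : v = (v.1, 2 * n) := by rw [← hv'.2.2]
      rw [eu, ev']
      rcases le_total u.1 v.1 with h | h
      · exact key _ _ hu'.1 h hv'.2.1
      · exact (key _ _ hv'.1 h hu'.2.1).symm
    · intro ζ hζ h3 h4
      apply h3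
      obtain ⟨a, b, ha, hb, ha2, hb2, hab⟩ := h4
      refine ⟨a, b, ha, hb, ha2, hb2, ?_⟩
      unfold conn at hab ⊢
      refine hab.mono (Pool.Agent.H95.Wedge.openGraph_mono ?_)
      intro e he
      rw [mem_inter, mem_union] at he ⊢
      refine ⟨?_, he.2⟩
      rcases he.1 with h | h
      · exact Or.inl h
      · right
        have h5 := he.2
        induction e with
        | _ x y =>
          rw [Pool.Agent.H95.Perc.mem_edgesIn', mem_rect, mem_rect] at h h5 ⊢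
          refine ⟨?_, ?_, h.2.2⟩ <;> omega
  refine h2.trans ?_
  refine P_anti_EF hq ((NL_edgesIn _).mono sdiff_subset) (NL_edgesIn _) ?_ ?_ hdcr
  · intro e he
    rw [mem_sdiff] at he
    have h3 := he.1
    induction e with
    | _ x y =>
      rw [mem_union, mem_sdiff, Pool.Agent.H95.Perc.mem_edgesIn', Pool.Agent.H95.Perc.mem_edgesIn',
        Pool.Agent.H95.Perc.mem_edgesIn', mem_rect, mem_rect, mem_rect, mem_rect, mem_rect, mem_rect]
      rw [Pool.Agent.H95.Perc.mem_edgesIn', mem_bxx, mem_bxx] at h3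
      have h4 := h3.2.2
      rw [Z2_adj] at h4
      have h5 := h3.2.2
      by_cases h6 : x.2 ≤ 2 * n ∧ y.2 ≤ 2 * n
      · right
        refine ⟨?_, ?_, h5⟩ <;> omega
      · left
        refine ⟨⟨?_, ?_, h5⟩, fun h7 => h6 ?_⟩ <;> omega
  · intro e he
    exact Pool.Agent.H95.Perc.edgesIn_mono (Pool.Agent.H95.Perc.rect_mono le_rfl le_rfl (by omega) le_rfl)
      (frz_box hn he)

theorem img_eq_self2 {f : ℤ × ℤ → ℤ × ℤ} (hf : ∀ x, f (f x) = x) {G : Finset (Sym2 (ℤ × ℤ))}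
    (h : ∀ x y, s(x, y) ∈ G → s(f x, f y) ∈ G) : img f G = G := by
  ext e
  induction e with
  | _ x y =>
    constructor
    · intro he
      unfold img at he
      rw [mem_image] at he
      obtain ⟨e', he', h2⟩ := he
      induction e' with
      | _ a b =>
        rw [Sym2.map_mk] at h2
        rw [← h2]
        exact h a b he'
    · intro he
      have := mem_img_of_mem (f := f) (h x y he)
      rwa [hf, hf] at this

/-- no vertical crossing just below the frozen boxes -/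
theorem NB_bound (hq : 1 ≤ q) {c : ℝ} (hc : ∀ (k : ℕ) (x0 x1 y0 H s : ℤ), x0 ≤ x1 → 8 ≤ s →
    s ≤ H → (x1 - x0) + H ≤ k * s →
    c ^ k ≤ P q (upE x0 x1 y0 (y0 + H)) (edgesIn (rect x0 x1 y0 y0))
      (fun ω => ¬ ver x0 x1 y0 (y0 + s) ω)) {n : ℤ} (hn : 4 ≤ n) :
    c ^ 12552 ≤ P q (edgesIn (bxx 0 0 (12 * LL * n)) \ frz n) (frz n)
      (fun ω => ¬ ver (-(12 * LL * n)) (12 * LL * n) (-(4 * n)) (-(2 * n)) ω) := by
  set B : ℤ := 12 * LL * n with hB
  refine (NT_bound hq hc hn).trans (le_of_eq ?_)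
  have hq0 : 0 < q := by linarith
  have hff : ∀ x : ℤ × ℤ, Pool.Agent.H95.Perc.reflY 0 (Pool.Agent.H95.Perc.reflY 0 x) = x := by
    intro x; simp [Pool.Agent.H95.Perc.reflY]
  have hfr : ∀ x y : ℤ × ℤ, s(x, y) ∈ frz n →
      s(Pool.Agent.H95.Perc.reflY 0 x, Pool.Agent.H95.Perc.reflY 0 y) ∈ frz n := by
    intro x y h
    obtain ⟨i, h1, h2, hx, hy, hadj⟩ := mem_frz.1 h
    rw [mem_bxx] at hx hy
    refine mem_frz.2 ⟨i, h1, h2, ?_, ?_, (Pool.Agent.H95.Perc.isAut_reflY 0 x y).2 hadj⟩ <;>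
      rw [mem_bxx] <;> simp only [Pool.Agent.H95.Perc.reflY, Equiv.coe_fn_mk] <;> omega
  have hfE : ∀ x y : ℤ × ℤ, s(x, y) ∈ edgesIn (bxx 0 0 B) →
      s(Pool.Agent.H95.Perc.reflY 0 x, Pool.Agent.H95.Perc.reflY 0 y) ∈ edgesIn (bxx 0 0 B) := by
    intro x y h
    rw [Pool.Agent.H95.Perc.mem_edgesIn'] at h ⊢
    obtain ⟨hx, hy, hadj⟩ := h
    rw [mem_bxx] at hx hy
    refine ⟨?_, ?_, (Pool.Agent.H95.Perc.isAut_reflY 0 x y).2 hadj⟩ <;>
      rw [mem_bxx] <;> simp only [Pool.Agent.H95.Perc.reflY, Equiv.coe_fn_mk] <;> omega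
  have e1 : img (Pool.Agent.H95.Perc.reflY 0) (frz n) = frz n := img_eq_self2 hff hfr
  have e2 : img (Pool.Agent.H95.Perc.reflY 0) (edgesIn (bxx 0 0 B) \ frz n) =
      edgesIn (bxx 0 0 B) \ frz n := by
    refine img_eq_self2 hff fun x y h => ?_
    rw [mem_sdiff] at h ⊢
    refine ⟨hfE x y h.1, fun h' => h.2 ?_⟩
    have := hfr _ _ h'
    rwa [hff, hff] at this
  have h3 := P_map (f := Pool.Agent.H95.Perc.reflY 0) hq0
    ((NL_edgesIn (bxx 0 0 B)).mono (sdiff_subset (t := frz n)))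
    ((NL_edgesIn (bxx 0 0 B)).mono (frz_sub hn))
    ((Pool.Agent.H95.Perc.reflY 0).injective.injOn) (fun ω => ¬ ver (-B) B (-(4 * n)) (-(2 * n)) ω)
  rw [e1, e2] at h3
  rw [h3]
  refine P_congr fun ζ _ => not_congr ?_
  have h4 := Pool.Agent.H95.Perc.link_act (Pool.Agent.H95.Perc.isAut_reflY 0)
    (V := rect (-B) B (2 * n) (4 * n)) (ω := ζ ∪ frz n) (A := fun v => v.2 = -(4 * n))
    (B := fun v => v.2 = -(2 * n))
  rw [Pool.Agent.H95.Perc.rect_reflY, show (0 : ℤ) - 4 * n = -(4 * n) by ring,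
    show (0 : ℤ) - 2 * n = -(2 * n) by ring] at h4
  refine Iff.trans ?_ h4.symm
  unfold ver
  constructor
  · intro h
    refine h.symm'.mono (Subset.refl _) ?_ ?_ <;> intro a _ ha <;>
      simp only [Pool.Agent.H95.Perc.reflY, Equiv.coe_fn_mk] <;> omega
  · intro h
    refine h.symm'.mono (Subset.refl _) ?_ ?_ <;> intro a _ ha <;>
      simp only [Pool.Agent.H95.Perc.reflY, Equiv.coe_fn_mk] at ha <;> omega

theorem conn_of_Cn {V : Finset (ℤ × ℤ)} {ω : Finset (Sym2 (ℤ × ℤ))} (h : ω ⊆ edgesIn V)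
    {a b : ℤ × ℤ} (hc : Cn ω a b) : conn V ω a b := by
  unfold conn
  rw [inter_eq_left.2 h]
  exact hc

theorem mem_of_Cn {V : Finset (ℤ × ℤ)} {ω : Finset (Sym2 (ℤ × ℤ))} (h : ω ⊆ edgesIn V)
    {a b : ℤ × ℤ} (hc : Cn ω a b) (hab : a ≠ b) : a ∈ V ∧ b ∈ V := by
  have h1 := hc.mem_vts hab
  have h2 : ∀ w, w ∈ vts ω → w ∈ V := by
    intro w hw
    obtain ⟨e, he, hwe⟩ := mem_vts.1 hw
    obtain ⟨w2, rfl⟩ := hwe
    exact (Pool.Agent.H95.Perc.mem_edgesIn'.1 (h he)).1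
  exact ⟨h2 _ h1.1, h2 _ h1.2⟩

/-- the boxes are not reached from the rows `≥ 4 n` and `≤ -4 n` -/
theorem not_reach {n B : ℤ} (hn : 4 ≤ n) {ω : Finset (Sym2 (ℤ × ℤ))} (hω : ω ⊆ edgesIn (bxx 0 0 B))
    (h1 : ¬ ver (-B) B (2 * n) (4 * n) ω) (h2 : ¬ ver (-B) B (-(4 * n)) (-(2 * n)) ω) (v : ℤ × ℤ)
    (hv : -(2 * n) ≤ v.2 ∧ v.2 ≤ 2 * n) :
    ¬ Reach (fun w : ℤ × ℤ => 4 * n ≤ w.2 ∨ w.2 ≤ -(4 * n)) ω v := by
  rintro ⟨s, hs, hc⟩
  have hne : s ≠ v := by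
    rintro rfl
    omega
  have hV : bxx 0 0 B = rect (-B) B (-B) B := by unfold bxx; simp
  rw [hV] at hω
  have hm := mem_of_Cn hω hc hne
  have hcc := conn_of_Cn hω hc
  rcases hs with hs | hs
  · exact h1 (ver_of_conn_lt hcc.symm hm.2 (by omega) hv.2 hs)
  · exact h2 (ver_of_conn_lt hcc hm.1 (by omega) hs hv.1)

theorem Cn_off {S : ℤ × ℤ → Prop} {ω : Finset (Sym2 (ℤ × ℤ))} {v s : ℤ × ℤ} (hv : ¬ Reach S ω v)
    (hc : Cn ω v s) : Cn (off (Reach S ω) ω) v s := by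
  refine (hc.closed (S := fun w => Cn (off (Reach S ω) ω) v w ∧ ¬ Reach S ω w) ⟨Cn_refl _ _, hv⟩ ?_).1
  rintro x y ⟨hx, hx'⟩ hxy
  have hy : ¬ Reach S ω y := by
    rintro ⟨t, ht, htc⟩
    exact hx' ⟨t, ht, htc.trans (Cn_edge hxy).symm⟩
  refine ⟨hx.trans (Cn_edge ?_), hy⟩
  unfold off
  classical
  rw [mem_filter]
  refine ⟨hxy, fun w hw => ?_⟩
  rw [Sym2.mem_iff] at hw
  rcases hw with rfl | rfl
  · exact hx'
  · exact hy

theorem P_all_ge (hq : 1 ≤ q) {E F : Finset (Sym2 (ℤ × ℤ))} (hE : NL E) (hF : NL F) {β : Type*}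
    [DecidableEq β] (s : Finset β) (A : β → Finset (Sym2 (ℤ × ℤ)) → Prop) (hA : ∀ i ∈ s, Dcr (A i))
    {c : ℝ} (hc : 0 ≤ c) (h : ∀ i ∈ s, c ≤ P q E F (A i)) :
    c ^ s.card ≤ P q E F (fun ω => ∀ i ∈ s, A i ω) := by
  have hq0 : 0 < q := by linarith
  induction s using Finset.induction_on with
  | empty =>
    rw [card_empty, pow_zero]
    exact (P_eq_one hq0 (fun ζ _ i hi => absurd hi (notMem_empty i))).ge
  | insert a s ha ih =>
    rw [card_insert_of_notMem ha, pow_succ]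
    have h1 := ih (fun i hi => hA i (mem_insert_of_mem hi)) (fun i hi => h i (mem_insert_of_mem hi))
    have h2 := h a (mem_insert_self _ _)
    have hd : Dcr (fun ω => ∀ i ∈ s, A i ω) := fun ω ω' hs k i hi =>
      hA i (mem_insert_of_mem hi) _ _ hs (k i hi)
    have h3 := P_fkg_dcr hq hE hF hd (hA a (mem_insert_self _ _))
    refine (mul_le_mul h1 h2 hc (P_nonneg hq0 _ _ _)).trans (h3.trans ?_)
    refine P_mono hq0 fun ζ _ h4 i hi => ?_
    rw [mem_insert] at hi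
    rcases hi with rfl | hi
    · exact h4.2
    · exact h4.1 i hi

theorem C2a (hq : 1 ≤ q) : ∃ c : ℝ, 0 < c ∧ ∀ n : ℤ, 4 ≤ n →
    c ≤ P q (edgesIn (bxx 0 0 (12 * LL * n)) \ frz n) (frz n)
      (fun ω => ∀ i, -kk ≤ i → i ≤ kk → Iso n i ω) := by
  classical
  have hq0 : 0 < q := by linarith
  obtain ⟨c, hc0, -, hc⟩ := push hq
  set d : ℝ := 1 / (1 + √q) with hd
  have hd0 : 0 < d := by rw [hd]; positivity
  refine ⟨(d * d) ^ (Icc (-kk) kk).card * (c ^ 12552 * c ^ 12552), by positivity, fun n hn => ?_⟩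
  set B : ℤ := 12 * LL * n with hB
  have hB' : B = 6276 * n := by rw [hB]; unfold LL; ring
  set E := edgesIn (bxx 0 0 B) \ frz n with hE
  have hNE : NL E := (NL_edgesIn _).mono sdiff_subset
  have hNF : NL (frz n) := (NL_edgesIn _).mono (frz_sub hn)
  have hsub : E ∪ frz n ⊆ edgesIn (bxx 0 0 B) := union_subset sdiff_subset (frz_sub hn)
  set S : ℤ × ℤ → Prop := fun w => 4 * n ≤ w.2 ∨ w.2 ≤ -(4 * n) with hS
  set I : ℤ × ℤ → Prop := fun w => -(2 * n) ≤ w.2 ∧ w.2 ≤ 2 * n with hI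
  set A : Finset (Sym2 (ℤ × ℤ)) → Prop := fun ω => ∀ i, -kk ≤ i → i ≤ kk → Iso n i ω with hA
  have hinc : ∀ (x0 x1 y0 y1 : ℤ), Dcr (fun ω => ¬ ver x0 x1 y0 y1 ω) :=
    fun _ _ _ _ ω ω' h k k' => k (Pool.Agent.H95.Perc.inc_ver _ _ _ _ _ _ h k')
  have hinc' : ∀ (x0 x1 y0 y1 : ℤ), Dcr (fun ω => ¬ hor x0 x1 y0 y1 ω) :=
    fun _ _ _ _ ω ω' h k k' => k (Pool.Agent.H95.Perc.inc_hor _ _ _ _ _ _ h k')
  -- (1)
  have h1 : c ^ 12552 * c ^ 12552 ≤ P q E (frz n) (fun ω => (∀ v, I v → ¬ Reach S ω v) ∧ True) := by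
    refine (mul_le_mul (NT_bound hq hc hn) (NB_bound hq hc hn) (by positivity)
      (P_nonneg hq0 _ _ _)).trans ((P_fkg_dcr hq hNE hNF (hinc _ _ _ _) (hinc _ _ _ _)).trans ?_)
    refine P_mono hq0 fun ζ hζ h => ⟨fun v hv => ?_, trivial⟩
    exact not_reach hn ((union_subset_union hζ (Subset.refl _)).trans hsub) h.1 h.2 v hv
  -- (2)
  have hAd : Dcr A := by
    intro ω ω' h k i h2 h3 v hv hr
    exact k i h2 h3 v hv (Reach_mono h hr)
  have h2 := PE_ge (S := S) (I := I) (F0 := frz n) (A := A) (R := fun _ => True) hq hNE hNF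
    (Subset.refl _) (fun e he he' => absurd he he') (by
      intro e he v hv
      obtain ⟨w2, rfl⟩ := hv
      have h3 := frz_box hn he
      rw [Pool.Agent.H95.Perc.mem_edgesIn', mem_rect] at h3
      exact ⟨h3.1.2.2.1, h3.1.2.2.2⟩) hAd (by
      intro ω _ hN hA' i h3 h4 v hv hr
      obtain ⟨t, ht, htc⟩ := hr
      have hv' := mem_bxx.1 hv
      exact hA' i h3 h4 v hv ⟨t, ht, (Cn_off (hN v ⟨by omega, by omega⟩) htc.symm).symm⟩)
      (fun _ _ _ _ _ _ => trivial)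
  -- (3)
  have hoff : off S E ⊆ edgesIn (rect (-B) B (-(4 * n) + 1) (-(4 * n) + 1 + 8 * n - 1)) := by
    intro e he
    unfold off at he
    rw [mem_filter, hE, mem_sdiff] at he
    obtain ⟨⟨h3, -⟩, h4⟩ := he
    induction e with
    | _ x y =>
      have h5 := h4 x (Sym2.mem_mk_left _ _)
      have h6 := h4 y (Sym2.mem_mk_right _ _)
      rw [Pool.Agent.H95.Perc.mem_edgesIn', mem_bxx, mem_bxx] at h3
      rw [Pool.Agent.H95.Perc.mem_edgesIn', mem_rect, mem_rect]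
      simp only [hS] at h5 h6
      refine ⟨?_, ?_, h3.2.2⟩ <;> omega
  have hfrr : frz n ⊆ edgesIn (rect (-B) B (-(4 * n) + 1) (-(4 * n) + 1 + 8 * n - 1)) := by
    intro e he
    exact Pool.Agent.H95.Perc.edgesIn_mono (Pool.Agent.H95.Perc.rect_mono le_rfl le_rfl (by omega)
      (by omega)) (frz_box hn he)
  have hNo : NL (off S E) := hNE.mono (filter_subset _ _)
  have hsq : ∀ i, -kk ≤ i → i ≤ kk → ∀ x, (x = 26 * (n * i) + 2 * n ∨ x = 26 * (n * i) - 10 * n) →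
      d ≤ P q (off S E) (frz n) (fun ω => ¬ hor x (x + 8 * n) (-(4 * n) + 1)
        (-(4 * n) + 1 + 8 * n - 1) ω) := by
    intro i hi1 hi2 x hx
    refine sq_bound hq (by omega) hoff hfrr ?_
    intro e he v hv
    obtain ⟨w2, rfl⟩ := hv
    obtain ⟨j, h3, h4, h5, h6, -⟩ := mem_frz.1 he
    rw [mem_bxx] at h5
    have h7 : 26 * n * j = 26 * (n * j) := by ring
    rw [h7] at h5
    rintro ⟨h8, h9⟩
    rcases lt_trichotomy i j with h | h | h
    · have h10 : n * i + n ≤ n * j := by nlinarith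
      omega
    · subst h
      omega
    · have h10 : n * j + n ≤ n * i := by nlinarith
      omega
  have h3 : (d * d) ^ (Icc (-kk) kk).card ≤ P q (off S E) (frz n) A := by
    refine (P_all_ge hq hNo hNF (Icc (-kk) kk) (fun i ω =>
      ¬ hor (26 * (n * i) + 2 * n) (26 * (n * i) + 2 * n + 8 * n) (-(4 * n) + 1)
        (-(4 * n) + 1 + 8 * n - 1) ω ∧
      ¬ hor (26 * (n * i) - 10 * n) (26 * (n * i) - 10 * n + 8 * n) (-(4 * n) + 1)
        (-(4 * n) + 1 + 8 * n - 1) ω)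
      (fun i _ ω ω' h k => ⟨hinc' _ _ _ _ _ _ h k.1, hinc' _ _ _ _ _ _ h k.2⟩)
      (by positivity) (fun i hi => ?_)).trans ?_
    · rw [mem_Icc] at hi
      exact (mul_le_mul (hsq i hi.1 hi.2 _ (Or.inl rfl)) (hsq i hi.1 hi.2 _ (Or.inr rfl)) hd0.le
        (P_nonneg hq0 _ _ _)).trans (P_fkg_dcr hq hNo hNF (hinc' _ _ _ _) (hinc' _ _ _ _))
    · refine P_mono hq0 fun ζ hζ h i h4 h5 v hv hr => ?_
      obtain ⟨hR, hL⟩ := h i (mem_Icc.2 ⟨h4, h5⟩)
      obtain ⟨t, ht, hc'⟩ := hr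
      have hω : ζ ∪ frz n ⊆ edgesIn (rect (-B) B (-(4 * n) + 1) (-(4 * n) + 1 + 8 * n - 1)) :=
        union_subset (hζ.trans hoff) hfrr
      have hne : t ≠ v := by
        rintro rfl
        apply ht
        rw [mem_bxx] at hv ⊢
        omega
      have hm := mem_of_Cn hω hc' hne
      have hcc := conn_of_Cn hω hc'
      have ht1 := mem_rect.1 hm.1
      rw [mem_bxx] at hv
      simp only [mem_bxx] at ht
      have h7 : 26 * n * i = 26 * (n * i) := by ring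
      rw [h7] at hv ht
      rcases le_total v.1 t.1 with h8 | h8
      · exact hR (hor_of_conn_lt hcc.symm hm.2 (by omega) (by omega) (by omega))
      · exact hL (hor_of_conn_lt hcc hm.1 (by omega) (by omega) (by omega))
  calc (d * d) ^ (Icc (-kk) kk).card * (c ^ 12552 * c ^ 12552)
      ≤ P q (off S E) (frz n) A * P q E (frz n) (fun ω => (∀ v, I v → ¬ Reach S ω v) ∧ True) :=
        mul_le_mul h3 h1 (by positivity) (P_nonneg hq0 _ _ _)
    _ ≤ _ := h2.trans (P_mono hq0 fun ζ _ h => h.1)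

end Pool.Agent.FKR
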