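import Pool.Agent.FKR.Basic

/-! # FKR/Fkg (MP_b3e76a_pr): positive association for `P q E F`

`Lat (wt q E F) E`: use `Susc.lat_of_single`; for `a ⊆ b ⊆ E`, `e ∈ E`, `e ∉ b`: if `e ∈ F` all four
weights are equal in pairs; otherwise `W_insert_of_reach` / `W_insert_of_not_reach` for `a ∪ F`, `b ∪ F`
exactly as in `Wedge.W_lat`. Then `Susc.ws_fkg` for the events `fun ζ => A (ζ ∪ F)` (increasing in
`ζ`). Decreasing and mixed versions: `P_not`. -/

namespace Pool.Agent.FKR

open Finset
open Pool.Agent.H95.Wedge (openGraph W Good selfDual)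
open Pool.Agent.H95.Susc (fil ws Lat)
open Pool.Agent.H95.Perc (Inc)

section
variable {α : Type*} [DecidableEq α] {q : ℝ} {E F : Finset (Sym2 α)}

theorem wt_lat (hq : 1 ≤ q) (hE : NL E) (hF : NL F) : Lat (wt q E F) E := by
  have hq0 : 0 < q := by linarith
  have hs1 : 1 ≤ √q := Real.one_le_sqrt.mpr hq
  apply Pool.Agent.H95.Susc.lat_of_single (fun ω => wt_pos hq0 E F ω)
  intro a b e hab hb he heb
  by_cases heF : e ∈ F
  · have e1 : insert e a ∪ F = a ∪ F := by
      rw [insert_union]; exact insert_eq_of_mem (mem_union_right _ heF)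
    have e2 : insert e b ∪ F = b ∪ F := by
      rw [insert_union]; exact insert_eq_of_mem (mem_union_right _ heF)
    unfold wt
    rw [e1, e2]
  · have hgood : Good (vts (E ∪ F)) (E ∪ F) := good_of_NL (NL.union hE hF) (Subset.refl _)
    unfold wt
    rw [insert_union, insert_union]
    have hab' : a ∪ F ⊆ b ∪ F := union_subset_union hab (Subset.refl _)
    have hea : e ∉ a ∪ F := by
      rw [mem_union, not_or]; exact ⟨fun h => heb (hab h), heF⟩
    have heb' : e ∉ b ∪ F := by
      rw [mem_union, not_or]; exact ⟨heb, heF⟩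
    generalize vts (E ∪ F) = V at hgood ⊢
    generalize a ∪ F = a' at hab' hea ⊢
    generalize b ∪ F = b' at hab' heb' ⊢
    induction e with
    | _ x y =>
      obtain ⟨hx, hy, hne⟩ := hgood x y (mem_union_left _ he)
      have pa := Pool.Agent.H95.Wedge.W_pos hq0 V a'
      have pb := Pool.Agent.H95.Wedge.W_pos hq0 V b'
      by_cases h1 : (openGraph a').Reachable x y
      · have h2 : (openGraph b').Reachable x y :=
          h1.mono (Pool.Agent.H95.Wedge.openGraph_mono hab')
        rw [Pool.Agent.H95.Wedge.W_insert_of_reach hq0 hne hea h1,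
          Pool.Agent.H95.Wedge.W_insert_of_reach hq0 hne heb' h2]
        apply le_of_eq; ring
      · have e1 := Pool.Agent.H95.Wedge.W_insert_of_not_reach (V := V) hq0 hne hx hy hea h1
        have pa' := Pool.Agent.H95.Wedge.W_pos hq0 V (insert s(x, y) a')
        have pb' := Pool.Agent.H95.Wedge.W_pos hq0 V (insert s(x, y) b')
        by_cases h2 : (openGraph b').Reachable x y
        · have e2 := Pool.Agent.H95.Wedge.W_insert_of_reach (V := V) hq0 hne heb' h2
          rw [e1, e2]
          have : 1 ≤ √q * √q := by nlinarith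
          nlinarith [mul_pos pa' pb]
        · have e2 := Pool.Agent.H95.Wedge.W_insert_of_not_reach (V := V) hq0 hne hx hy heb' h2
          rw [e1, e2]
          apply le_of_eq; ring

theorem P_fkg (hq : 1 ≤ q) (hE : NL E) (hF : NL F) {A B : Finset (Sym2 α) → Prop} (hA : Inc A)
    (hB : Inc B) : P q E F A * P q E F B ≤ P q E F (fun ω => A ω ∧ B ω) := by
  have hq0 : 0 < q := by linarith
  have hA' : Inc (fun ζ : Finset (Sym2 α) => A (ζ ∪ F)) := fun s t hst h =>
    hA _ _ (union_subset_union hst (Subset.refl _)) h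
  have hB' : Inc (fun ζ : Finset (Sym2 α) => B (ζ ∪ F)) := fun s t hst h =>
    hB _ _ (union_subset_union hst (Subset.refl _)) h
  have h := Pool.Agent.H95.Susc.ws_fkg (fun ω => (wt_pos hq0 E F ω).le) (wt_lat hq hE hF) hA' hB'
  have hZ : 0 < ws (wt q E F) E (fun _ => True) := by
    unfold ws
    exact sum_pos (fun ω _ => wt_pos hq0 E F ω) ⟨∅, by rw [Pool.Agent.H95.Susc.mem_fil]; simp⟩
  unfold P
  rw [div_mul_div_comm, div_le_div_iff₀ (by positivity) hZ]
  nlinarith

theorem P_fkg_dcr (hq : 1 ≤ q) (hE : NL E) (hF : NL F) {A B : Finset (Sym2 α) → Prop} (hA : Dcr A)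
    (hB : Dcr B) : P q E F A * P q E F B ≤ P q E F (fun ω => A ω ∧ B ω) := by
  have hq0 : 0 < q := by linarith
  have hA' : Inc (fun ω => ¬ A ω) := fun s t hst h h' => h (hA _ _ hst h')
  have hB' : Inc (fun ω => ¬ B ω) := fun s t hst h h' => h (hB _ _ hst h')
  have h := P_fkg hq hE hF hA' hB'
  rw [P_not hq0, P_not hq0] at h
  -- P(¬A ∧ ¬B) = P(¬A) - P(¬A ∧ B) = 1 - P A - (P B - P(A ∧ B))
  have s1 := P_split hq0 E F (fun ω => ¬ A ω) B
  have s2 := P_split hq0 E F B A
  rw [P_not hq0] at s1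
  have c1 : P q E F (fun ω => ¬ A ω ∧ B ω) = P q E F (fun ω => B ω ∧ ¬ A ω) :=
    P_congr (fun ζ _ => and_comm)
  have c2 : P q E F (fun ω => B ω ∧ A ω) = P q E F (fun ω => A ω ∧ B ω) :=
    P_congr (fun ζ _ => and_comm)
  rw [c2] at s2
  nlinarith

theorem P_fkg_mixed (hq : 1 ≤ q) (hE : NL E) (hF : NL F) {A B : Finset (Sym2 α) → Prop}
    (hA : Inc A) (hB : Dcr B) : P q E F (fun ω => A ω ∧ B ω) ≤ P q E F A * P q E F B := by
  have hq0 : 0 < q := by linarith
  have hB' : Inc (fun ω => ¬ B ω) := fun s t hst h h' => h (hB _ _ hst h')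
  have h := P_fkg hq hE hF hA hB'
  rw [P_not hq0] at h
  have s1 := P_split hq0 E F A B
  nlinarith

end

end Pool.Agent.FKR
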