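import Pool.Agent.FKR.Faces
import Pool.Agent.H95.Perc.RSW2

/-! # FKR/Glue (MP_b3e76a_pr): deterministic gluing of crossings

Planarity: `Perc.cross_BT_LR` (a bottom-top walk and a left-right walk in a rectangle have a common
vertex), with `conn.walk` to get walks from connections. `hor_shrink` (in `H95/Perc/Duality`): a left-right crossing
contains one of any narrower rectangle.
`hor_glue`: the crossing of `rect x0 x1` contains a left-right crossing of `rect x1' x1` ... more precisely: the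
part of the first crossing after its last visit to the column `x1'` is a crossing of `rect x1' x1 y0 y1`, which
meets the vertical crossing; the part of the second crossing (of `rect x1' x2`) up to its first visit to
the column `x1` is a crossing of `rect x1' x1 y0 y1`, which meets the vertical crossing as well. So the left
side of `rect x0 x1` is connected to the right side of `rect x1' x2`.
`hor_glue_conn` : variant where the vertical crossing is given as a connection of two vertices. -/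

namespace Pool.Agent.FKR

open Finset
open Pool.Agent.H95.Perc (Inc conn link rect hor ver eh ev sumE sepE Inci mem_rect)
open Pool.Agent.H95.SumRule (edgesIn Z2)

variable {x0 x1 x1' x2 y0 y1 : ℤ} {ω : Finset (Sym2 (ℤ × ℤ))}

/-- a left-right connection and a bottom-top connection of the same rectangle are connected -/
theorem cross_conn (hy : y0 < y1) {l r b t : ℤ × ℤ} (hl : l ∈ rect x0 x1 y0 y1)
    (hr : r ∈ rect x0 x1 y0 y1) (hb : b ∈ rect x0 x1 y0 y1) (ht : t ∈ rect x0 x1 y0 y1) (hl1 : l.1 = x0)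
    (hr1 : r.1 = x1) (hb2 : b.2 = y0) (ht2 : t.2 = y1) (hlr : conn (rect x0 x1 y0 y1) ω l r)
    (hbt : conn (rect x0 x1 y0 y1) ω b t) : conn (rect x0 x1 y0 y1) ω l b :=
  (Pool.Agent.H95.Perc.conn_cross hy hb hl hb2 ht2 hl1 hr1 hbt hlr).symm

theorem hor_glue (h01 : x0 ≤ x1') (h11 : x1' < x1) (h12 : x1 ≤ x2) (hy : y0 < y1)
    (h1 : hor x0 x1 y0 y1 ω) (hv : ver x1' x1 y0 y1 ω) (h2 : hor x1' x2 y0 y1 ω) :
    hor x0 x2 y0 y1 ω :=
  Pool.Agent.H95.Perc.hor_glue h01 h11.le h12 hy h1 h2 hv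

/-- a vertex `u` of the column `x0` connected to a bottom-top crossing of `rect x1' x2` and a left-right crossing of
`rect x1' x2` -/
theorem hor_glue_conn (h01 : x0 ≤ x1') (h12 : x1' < x2) (hy : y0 < y1) {u b t : ℤ × ℤ}
    (hu : u ∈ rect x0 x2 y0 y1) (hb : b ∈ rect x1' x2 y0 y1) (ht : t ∈ rect x1' x2 y0 y1) (hu1 : u.1 = x0)
    (hb2 : b.2 = y0) (ht2 : t.2 = y1) (hub : conn (rect x0 x2 y0 y1) ω u b)
    (hbt : conn (rect x1' x2 y0 y1) ω b t) (h2 : hor x1' x2 y0 y1 ω) : hor x0 x2 y0 y1 ω := by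
  obtain ⟨c, d, hc, hd, hc1, hd1, hcd⟩ := h2
  have k := cross_conn hy hc hd hb ht hc1 hd1 hb2 ht2 hcd hbt
  have hsub : rect x1' x2 y0 y1 ⊆ rect x0 x2 y0 y1 := Pool.Agent.H95.Perc.rect_mono h01 le_rfl le_rfl le_rfl
  exact ⟨u, d, hu, hsub hd, hu1, hd1, (hub.trans (k.symm.mono hsub (Subset.refl _))).trans
    (hcd.mono hsub (Subset.refl _))⟩

theorem ver_narrow {x0' x1'' : ℤ} (h0 : x0' ≤ x0) (h1 : x1 ≤ x1'') (h : ver x0 x1 y0 y1 ω) :
    ver x0' x1'' y0 y1 ω :=
  h.mono (Pool.Agent.H95.Perc.rect_mono h0 h1 le_rfl le_rfl) (fun _ _ h => h) (fun _ _ h => h)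

theorem ver_shrink {y0' y1' : ℤ} (h0 : y0 ≤ y0') (h01 : y0' ≤ y1') (h1 : y1' ≤ y1)
    (h : ver x0 x1 y0 y1 ω) : ver x0 x1 y0' y1' ω := by
  -- first cut the top side
  have step : ∀ {y0 y1 y1' : ℤ}, y0 ≤ y1' → y1' ≤ y1 → ver x0 x1 y0 y1 ω → ver x0 x1 y0 y1' ω := by
    rintro y0 y1 y1' h01 h1 ⟨a, b, ha, hb, ha0, hb1, hc⟩
    have ha' : a ∈ rect x0 x1 y0 y1' := by rw [mem_rect] at ha ⊢; omega
    by_cases hb' : b ∈ rect x0 x1 y0 y1'
    · have hx : y1 = y1' := by rw [mem_rect] at hb'; omega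
      subst hx
      exact ⟨a, b, ha, hb, ha0, hb1, hc⟩
    · obtain ⟨z, w, z1, z2, w1, w2, hadj, _, hc'⟩ := hc.exit ha ha' hb'
      refine ⟨a, z, ha', z2, ha0, ?_, hc'.mono inter_subset_right (Subset.refl _)⟩
      have hadj' : Pool.Agent.H95.SumRule.IsUnit2 (w - z) := hadj
      simp only [Pool.Agent.H95.SumRule.IsUnit2, Prod.fst_sub, Prod.snd_sub] at hadj'
      rw [mem_rect] at z1 z2 w1 w2
      omega
  have step2 : ∀ {y0 y1 y0' : ℤ}, y0 ≤ y0' → y0' ≤ y1 → ver x0 x1 y0 y1 ω → ver x0 x1 y0' y1 ω := by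
    rintro y0 y1 y0' h01 h1 ⟨b, a, hb, ha, hb1, ha0, hc⟩
    have ha' : a ∈ rect x0 x1 y0' y1 := by rw [mem_rect] at ha ⊢; omega
    by_cases hb' : b ∈ rect x0 x1 y0' y1
    · have hx : y0 = y0' := by rw [mem_rect] at hb'; omega
      subst hx
      exact ⟨b, a, hb, ha, hb1, ha0, hc⟩
    · obtain ⟨z, w, z1, z2, w1, w2, hadj, _, hc'⟩ := hc.symm.exit ha ha' hb'
      refine ⟨z, a, z2, ha', ?_, ha0, (hc'.mono inter_subset_right (Subset.refl _)).symm⟩
      have hadj' : Pool.Agent.H95.SumRule.IsUnit2 (w - z) := hadj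
      simp only [Pool.Agent.H95.SumRule.IsUnit2, Prod.fst_sub, Prod.snd_sub] at hadj'
      rw [mem_rect] at z1 z2 w1 w2
      omega
  exact step2 h0 h01 (step (by omega) h1 h)

/-- adding one edge makes a crossing longer; `y` only depends on the edges of `rect x0 x1 y0 y1` -/
theorem hor_extend (h01 : x0 ≤ x1) (h : hor x0 x1 y0 y1 ω) :
    ∃ y, y0 ≤ y ∧ y ≤ y1 ∧ hor x0 (x1 + 1) y0 y1 (insert (eh x1 y) ω) := by
  obtain ⟨a, ⟨bx, b⟩, ha, hb, ha0, hb1, hc⟩ := h
  simp only at hb1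
  subst hb1
  have hsub : rect x0 bx y0 y1 ⊆ rect x0 (bx + 1) y0 y1 :=
    Pool.Agent.H95.Perc.rect_mono le_rfl (by omega) le_rfl le_rfl
  have hb' : b ∈ Set.Icc y0 y1 := by rw [mem_rect] at hb; exact ⟨hb.2.2.1, hb.2.2.2⟩
  have hbb : (bx + 1, b) ∈ rect x0 (bx + 1) y0 y1 := by
    rw [mem_rect] at hb ⊢; simp only at hb ⊢; omega
  refine ⟨b, hb'.1, hb'.2, a, (bx + 1, b), hsub ha, hbb, ha0, rfl, ?_⟩
  refine (hc.mono hsub (subset_insert _ _)).trans ?_
  refine Pool.Agent.H95.Perc.conn_step (hsub hb) hbb ?_ (mem_insert_self _ _)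
  simp [Z2, Pool.Agent.H95.SumRule.IsUnit2]

end Pool.Agent.FKR
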