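import Pool.Agent.FKR.Basic

/-! # FKR/MapP (MP_b3e76a_pr): transport of structure

`f` is injective on the vertices of `E ∪ F`. Proof as for `Wedge.W_act`, `Wedge.fil_act`,
`Wedge.PP_act`, with `Set.InjOn` in place of an equivalence:
* `Cn_map`: `Cn (ω.image (Sym2.map f)) (f u) (f v) ↔ Cn ω u v` if `f` is injective on a set of vertices
  containing `vts ω`, `u`, `v` (`→`: use `Cn.closed` with `S y = ∃ x ∈ insert u (vts ω), f x = y ∧ Cn ω u x`);
* `W q (vts (image)) (image of ω) * K = W q (vts (E ∪ F)) ω * K'` by induction on `ω ⊆ E ∪ F`;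
* `ζ ↦ ζ.image (Sym2.map f)` is a bijection from the subsets of `E` to those of the image (`Sym2.map f`
  is injective on `E ∪ F`). -/

namespace Pool.Agent.FKR

open Finset
open Pool.Agent.H95.Wedge (openGraph W Good selfDual)
open Pool.Agent.H95.Susc (fil ws Lat)
open Pool.Agent.H95.Perc (Inc)

section
variable {α β : Type*} [DecidableEq α] [DecidableEq β] {q : ℝ} {E F : Finset (Sym2 α)}

/-- image of an edge set -/
def img (f : α → β) (E : Finset (Sym2 α)) : Finset (Sym2 β) := E.image (Sym2.map f)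

theorem mem_img_of_mem {f : α → β} {E : Finset (Sym2 α)} {x y : α} (h : s(x, y) ∈ E) :
    s(f x, f y) ∈ img f E := by
  unfold img
  rw [mem_image]
  exact ⟨s(x, y), h, rfl⟩

theorem img_union (f : α → β) (E F : Finset (Sym2 α)) : img f (E ∪ F) = img f E ∪ img f F := by
  unfold img
  exact image_union _ _

theorem vts_img (f : α → β) (E : Finset (Sym2 α)) : vts (img f E) = (vts E).image f := by
  ext v
  rw [mem_vts, mem_image]
  constructor
  · rintro ⟨e, he, hv⟩
    unfold img at he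
    rw [mem_image] at he
    obtain ⟨e', he', rfl⟩ := he
    rw [Sym2.mem_map] at hv
    obtain ⟨a, ha, rfl⟩ := hv
    exact ⟨a, mem_vts.mpr ⟨e', he', ha⟩, rfl⟩
  · rintro ⟨a, ha, rfl⟩
    rw [mem_vts] at ha
    obtain ⟨e, he, ha⟩ := ha
    exact ⟨Sym2.map f e, mem_image_of_mem _ he, Sym2.mem_map.mpr ⟨a, ha, rfl⟩⟩

theorem NL_img {f : α → β} (hf : Set.InjOn f (vts E : Set α)) (hE : NL E) : NL (img f E) := by
  intro e he
  unfold img at he
  rw [mem_image] at he
  obtain ⟨e', he', rfl⟩ := he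
  have h1 := hE e' he'
  induction e' with
  | _ x y =>
    rw [Sym2.map_mk, Sym2.mk_isDiag_iff]
    rw [Sym2.mk_isDiag_iff] at h1
    intro h
    apply h1
    exact hf (mem_coe.mpr (mem_vts.mpr ⟨_, he', Sym2.mem_mk_left _ _⟩))
      (mem_coe.mpr (mem_vts.mpr ⟨_, he', Sym2.mem_mk_right _ _⟩)) h

theorem Cn_img {f : α → β} {ω : Finset (Sym2 α)} {u v : α} (h : Cn ω u v) :
    Cn (img f ω) (f u) (f v) := by
  exact h.closed (S := fun y => Cn (img f ω) (f u) (f y)) (Cn_refl _ _)
    (fun x y hx hxy => hx.trans (Cn_edge (mem_img_of_mem hxy)))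

theorem Cn_img_iff {f : α → β} {ω : Finset (Sym2 α)} {S : Set α} (hf : Set.InjOn f S)
    (hS : (vts ω : Set α) ⊆ S) {u v : α} (hu : u ∈ S) (hv : v ∈ S) :
    Cn (img f ω) (f u) (f v) ↔ Cn ω u v := by
  refine ⟨fun h => ?_, Cn_img⟩
  have key := h.closed (S := fun y => ∃ x ∈ S, f x = y ∧ Cn ω u x) ⟨u, hu, rfl, Cn_refl _ _⟩ (by
    rintro y z ⟨x, hx, rfl, hc⟩ hyz
    unfold img at hyz
    rw [mem_image] at hyz
    obtain ⟨e, he, hyz⟩ := hyz
    induction e with
    | _ a b =>
      have ha : a ∈ S := hS (mem_coe.mpr (mem_vts.mpr ⟨_, he, Sym2.mem_mk_left _ _⟩))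
      have hb : b ∈ S := hS (mem_coe.mpr (mem_vts.mpr ⟨_, he, Sym2.mem_mk_right _ _⟩))
      rw [Sym2.map_mk, Sym2.eq_iff] at hyz
      rcases hyz with ⟨h1, h2⟩ | ⟨h1, h2⟩
      · have : a = x := hf ha hx h1
        subst this
        exact ⟨b, hb, h2, hc.trans (Cn_edge he)⟩
      · have : b = x := hf hb hx h2
        subst this
        exact ⟨a, ha, h1, hc.trans (Cn_edge he).symm⟩)
  obtain ⟨x, hx, hxv, hc⟩ := key
  have : x = v := hf hx hv hxv
  rwa [this] at hc

lemma map_injOn {f : α → β} {D : Finset (Sym2 α)} (hf : Set.InjOn f (vts D : Set α)) :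
    Set.InjOn (Sym2.map f) (D : Set (Sym2 α)) := by
  intro e he e' he' h
  rw [mem_coe] at he he'
  induction e with
  | _ a b =>
    induction e' with
    | _ c d =>
      have ha : a ∈ (vts D : Set α) := mem_coe.mpr (mem_vts.mpr ⟨_, he, Sym2.mem_mk_left _ _⟩)
      have hb : b ∈ (vts D : Set α) := mem_coe.mpr (mem_vts.mpr ⟨_, he, Sym2.mem_mk_right _ _⟩)
      have hc : c ∈ (vts D : Set α) := mem_coe.mpr (mem_vts.mpr ⟨_, he', Sym2.mem_mk_left _ _⟩)
      have hd : d ∈ (vts D : Set α) := mem_coe.mpr (mem_vts.mpr ⟨_, he', Sym2.mem_mk_right _ _⟩)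
      rw [Sym2.map_mk, Sym2.map_mk, Sym2.eq_iff] at h
      rcases h with ⟨h1, h2⟩ | ⟨h1, h2⟩
      · rw [hf ha hc h1, hf hb hd h2]
      · rw [hf ha hd h1, hf hb hc h2, Sym2.eq_swap]

lemma W_img (hq : 0 < q) {D : Finset (Sym2 α)} (hD : NL D) {f : α → β}
    (hf : Set.InjOn f (vts D : Set α)) {ω : Finset (Sym2 α)} (hω : ω ⊆ D) :
    W q (vts (img f D)) (img f ω) * W q (vts D) ∅ = W q (vts D) ω * W q (vts (img f D)) ∅ := by
  induction ω using Finset.induction_on with
  | empty => unfold img; rw [image_empty]; ring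
  | insert e ω he ih =>
    have hω' : ω ⊆ D := fun x hx => hω (mem_insert_of_mem hx)
    have ih' := ih hω'
    have heD : e ∈ D := hω (mem_insert_self _ _)
    have hmi := map_injOn hf
    induction e with
    | _ x y =>
      have hxy : x ≠ y := by
        have := hD _ heD
        rwa [Sym2.mk_isDiag_iff] at this
      have hx : x ∈ vts D := mem_vts.mpr ⟨_, heD, Sym2.mem_mk_left _ _⟩
      have hy : y ∈ vts D := mem_vts.mpr ⟨_, heD, Sym2.mem_mk_right _ _⟩
      have hne : f x ≠ f y := fun h => hxy (hf (mem_coe.mpr hx) (mem_coe.mpr hy) h)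
      have he2 : s(f x, f y) ∉ img f ω := by
        intro h
        unfold img at h
        rw [mem_image] at h
        obtain ⟨e', he', h⟩ := h
        have h2 : e' = s(x, y) := hmi (mem_coe.mpr (hω' he')) (mem_coe.mpr heD) h
        rw [h2] at he'
        exact he he'
      have hins : img f (insert s(x, y) ω) = insert s(f x, f y) (img f ω) := by
        unfold img; rw [image_insert]; rfl
      have hcn : (openGraph (img f ω)).Reachable (f x) (f y) ↔ (openGraph ω).Reachable x y :=
        Cn_img_iff hf (coe_subset.mpr (vts_mono hω')) (mem_coe.mpr hx) (mem_coe.mpr hy)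
      have hfx : f x ∈ vts (img f D) := by rw [vts_img]; exact mem_image_of_mem _ hx
      have hfy : f y ∈ vts (img f D) := by rw [vts_img]; exact mem_image_of_mem _ hy
      rw [hins]
      by_cases h1 : (openGraph ω).Reachable x y
      · rw [Pool.Agent.H95.Wedge.W_insert_of_reach hq hxy he h1,
          Pool.Agent.H95.Wedge.W_insert_of_reach hq hne he2 (hcn.mpr h1)]
        linear_combination √q * ih'
      · have e1 := Pool.Agent.H95.Wedge.W_insert_of_not_reach (V := vts D) hq hxy hx hy he h1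
        have e2 := Pool.Agent.H95.Wedge.W_insert_of_not_reach (V := vts (img f D)) hq hne hfx hfy he2
          (fun h => h1 (hcn.mp h))
        rw [e1, e2] at ih'
        have hs : 0 < √q := Real.sqrt_pos.mpr hq
        have : √q * (W q (vts (img f D)) (insert s(f x, f y) (img f ω)) * W q (vts D) ∅)
            = √q * (W q (vts D) (insert s(x, y) ω) * W q (vts (img f D)) ∅) := by
          linarith
        exact mul_left_cancel₀ hs.ne' this

lemma img_injOn {f : α → β} {D : Finset (Sym2 α)} (hf : Set.InjOn f (vts D : Set α))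
    {ζ ζ' : Finset (Sym2 α)} (h1 : ζ ⊆ D) (h2 : ζ' ⊆ D) (h : img f ζ = img f ζ') : ζ = ζ' := by
  have hmi := map_injOn hf
  unfold img at h
  apply Subset.antisymm
  · intro e he
    have h3 : Sym2.map f e ∈ ζ.image (Sym2.map f) := mem_image_of_mem _ he
    rw [h, mem_image] at h3
    obtain ⟨e', he', h4⟩ := h3
    rwa [← hmi (mem_coe.mpr (h2 he')) (mem_coe.mpr (h1 he)) h4]
  · intro e he
    have h3 : Sym2.map f e ∈ ζ'.image (Sym2.map f) := mem_image_of_mem _ he
    rw [← h, mem_image] at h3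
    obtain ⟨e', he', h4⟩ := h3
    rwa [← hmi (mem_coe.mpr (h1 he')) (mem_coe.mpr (h2 he)) h4]

theorem P_map (hq : 0 < q) (hE : NL E) (hF : NL F) {f : α → β}
    (hf : Set.InjOn f (vts (E ∪ F) : Set α)) (A : Finset (Sym2 β) → Prop) :
    P q (img f E) (img f F) A = P q E F (fun ω => A (img f ω)) := by
  have hD : NL (E ∪ F) := hE.union hF
  have hfE : Set.InjOn f (vts E : Set α) := hf.mono (coe_subset.mpr (vts_mono subset_union_left))
  have key : ∀ B : Finset (Sym2 β) → Prop,
      ws (wt q (img f E) (img f F)) (img f E) (fun ζ => B (ζ ∪ img f F)) * W q (vts (E ∪ F)) ∅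
        = ws (wt q E F) E (fun ζ => B (img f (ζ ∪ F))) * W q (vts (img f (E ∪ F))) ∅ := by
    intro B
    have hfil : fil (img f E) (fun ζ => B (ζ ∪ img f F)) =
        (fil E (fun ζ => B (img f (ζ ∪ F)))).image (img f) := by
      ext ζ
      rw [Pool.Agent.H95.Susc.mem_fil, mem_image]
      constructor
      · rintro ⟨h1, h2⟩
        obtain ⟨ζ', h3, rfl⟩ := subset_image_iff.mp h1
        refine ⟨ζ', Pool.Agent.H95.Susc.mem_fil.mpr ⟨h3, ?_⟩, rfl⟩
        rw [img_union]; exact h2
      · rintro ⟨ζ', h1, rfl⟩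
        obtain ⟨h1, h2⟩ := Pool.Agent.H95.Susc.mem_fil.mp h1
        refine ⟨image_subset_image h1, ?_⟩
        rw [img_union] at h2; exact h2
    unfold ws
    rw [hfil, sum_image (fun a ha b hb h => img_injOn hfE (Pool.Agent.H95.Susc.mem_fil.mp ha).1
      (Pool.Agent.H95.Susc.mem_fil.mp hb).1 h), sum_mul, sum_mul]
    apply sum_congr rfl
    intro ζ hζ
    have h1 := (Pool.Agent.H95.Susc.mem_fil.mp hζ).1
    have h2 := W_img hq hD hf (ω := ζ ∪ F) (union_subset_union h1 (Subset.refl _))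
    unfold wt
    rw [← img_union, ← img_union]
    exact h2
  have p1 := Pool.Agent.H95.Wedge.W_pos hq (vts (E ∪ F)) ∅
  have p2 := Pool.Agent.H95.Wedge.W_pos hq (vts (img f (E ∪ F))) ∅
  have z1 : 0 < ws (wt q (img f E) (img f F)) (img f E) (fun _ => True) := by
    unfold ws
    exact sum_pos (fun ζ _ => wt_pos hq _ _ _) ⟨∅, by rw [Pool.Agent.H95.Susc.mem_fil]; simp⟩
  have z2 : 0 < ws (wt q E F) E (fun _ => True) := by
    unfold ws
    exact sum_pos (fun ζ _ => wt_pos hq _ _ _) ⟨∅, by rw [Pool.Agent.H95.Susc.mem_fil]; simp⟩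
  unfold P
  rw [div_eq_div_iff z1.ne' z2.ne']
  have k1 := key A
  have k2 := key (fun _ => True)
  have : (ws (wt q (img f E) (img f F)) (img f E) (fun ζ => A (ζ ∪ img f F)) *
        ws (wt q E F) E (fun _ => True)) * (W q (vts (E ∪ F)) ∅ * W q (vts (img f (E ∪ F))) ∅)
      = (ws (wt q E F) E (fun ζ => A (img f (ζ ∪ F))) *
          ws (wt q (img f E) (img f F)) (img f E) (fun _ => True)) *
          (W q (vts (E ∪ F)) ∅ * W q (vts (img f (E ∪ F))) ∅) := by
    calc _ = (ws (wt q (img f E) (img f F)) (img f E) (fun ζ => A (ζ ∪ img f F)) *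
          W q (vts (E ∪ F)) ∅) * (ws (wt q E F) E (fun _ => True) *
          W q (vts (img f (E ∪ F))) ∅) := by ring
      _ = (ws (wt q E F) E (fun ζ => A (img f (ζ ∪ F))) * W q (vts (img f (E ∪ F))) ∅) *
          (ws (wt q (img f E) (img f F)) (img f E) (fun _ => True) * W q (vts (E ∪ F)) ∅) := by
          rw [k1, ← k2]
      _ = _ := by ring
  exact mul_right_cancel₀ (mul_pos p1 p2).ne' this

end

end Pool.Agent.FKR
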