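import Pool.Agent.FKR.AnDefs
import Pool.Agent.FKR.MapP
import Pool.Agent.FKR.Fkg
import Pool.Agent.FKR.Dom
import Pool.Agent.FKR.Glue

/-! # FKR/Chain (MP_b3e76a_pr): chains of planar connections

Hypothesis: `P q (edgesIn (bxx 0 0 N)) ∅ (fun ω => Cn ω (a, 1) (b, N)) ≥ p`, `|a|, |b| ≤ N`; let `δ = b - a`, `h = N - 1 ≥ 7`.
For `ω ⊆ edgesIn (bxx 0 0 N)` `Cn ω u v` is `conn (bxx 0 0 N) ω u v`. By translation (`P_map` with `Perc.trans`, `conn_act`) and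
`P_mono_EF` (`inc_conn`): `chain_step`: for `bxx (x - a) (y - 1) N ⊆ V`: `p ≤ P q (edgesIn V) ∅ (fun ω => conn (bxx (x - a) (y - 1) N) ω (x, y) (x + δ, y + h))`; by
reflection (`Perc.reflX 0`) for `bxx (x + a) (y - 1) N ⊆ V`: `p ≤ P q (edgesIn V) ∅ (fun ω => conn (bxx (x + a) (y - 1) N) ω (x, y) (x - δ, y + h))`.
Two steps: from `(x, y)` to `(x, y + 2 h)` inside `rect (x - 2 N) (x + 2 N) (y - N - 1) (y + 2 N)` with probability `≥ p ^ 2` (FKG; the second box is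
centred at `(x + δ + a, y + h - 1)`, `x + δ + a = x + b`).
`chain_ver`: by induction on the number `i` of double steps, `(x, y)` is connected to `(x, y + 2 h i)` inside
`rect (x - 2 N) (x + 2 N) (y - N - 1) (y + 2 h i + N)` with probability `≥ p ^ (2 i)` in any `edgesIn V`, `V ⊇` this rectangle.
`chain`: `4 N ≤ n ≤ 6 N`, `8 ≤ N`. `P q (edgesIn (bxx 0 0 (12 n))) ∅ (ver x0 (x0 + n) (-2n) (2n)) ≥ p ^ 100` for `x0 = -2n` and `x0 = n`: take `x = x0 + 2 N`, `y = -2n`,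
`2 h i ≥ 4 n`, `i = 16` works: `2 h i = 32 (N - 1) ≥ 28 N ≥ 4 n`; everything is inside `bxx 0 0 (12 n)` (`-2n + 32 N + N ≤ 12 n`); cut with
`ver_of_conn`. Transposition (`Perc.diag`, `bxx 0 0 (12 n)` is invariant) gives the same for
`hor (-2n) (2n) x0 (x0 + n)`. FKG: `uu q n ≥ p ^ (4 * 32)`. -/

namespace Pool.Agent.FKR

open Finset
open Pool.Agent.H95.Perc (Inc conn link rect hor ver eh ev sumE sepE Inci mem_rect)
open Pool.Agent.H95.SumRule (edgesIn Z2)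

variable {q : ℝ} {N a b : ℤ} {p : ℝ}

/-- a connection between two rows inside a vertical strip contains a bottom-top crossing: the part between the last
visit to `{v.2 ≤ y0}` before the first visit to `{y1 ≤ v.2}`, and this first visit. (Formally: among the vertices of
`rect x0 x1 Y0 Y1` let `B v = v.2 < y1`; `WArm.Cn_exit` or `Perc.conn.exit` give the part before the first visit to `{y1 ≤ v.2}`; reverse it and
repeat with `B v = y0 < v.2`.) -/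
theorem ver_of_conn {x0 x1 y0 y1 Y0 Y1 : ℤ} (h01 : y0 ≤ y1) {ω : Finset (Sym2 (ℤ × ℤ))} {u v : ℤ × ℤ}
    (hu : u ∈ rect x0 x1 Y0 Y1) (hu' : u.2 ≤ y0) (hv' : y1 ≤ v.2) (h : conn (rect x0 x1 Y0 Y1) ω u v) :
    ver x0 x1 y0 y1 ω := by
  -- the first visit to the upper row
  obtain ⟨w, hw, hw2, hc⟩ : ∃ w, w ∈ rect x0 x1 Y0 y1 ∧ w.2 = y1 ∧ conn (rect x0 x1 Y0 y1) ω u w := by
    rcases lt_or_ge u.2 y1 with h1 | h1
    · have hu1 : u ∈ rect x0 x1 Y0 (y1 - 1) := by rw [mem_rect] at hu ⊢; omega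
      have hv1 : v ∉ rect x0 x1 Y0 (y1 - 1) := by rw [mem_rect]; omega
      obtain ⟨z, w, z1, z2, w1, w2, hadj, hzw, hc⟩ := h.exit hu hu1 hv1
      have hadj' : Pool.Agent.H95.SumRule.IsUnit2 (w - z) := hadj
      simp only [Pool.Agent.H95.SumRule.IsUnit2, Prod.fst_sub, Prod.snd_sub] at hadj'
      have hz3 : z ∈ rect x0 x1 Y0 y1 := by rw [mem_rect] at z1 z2 ⊢; omega
      have hw3 : w ∈ rect x0 x1 Y0 y1 := by rw [mem_rect] at w1 w2 z1 z2 ⊢; omega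
      refine ⟨w, hw3, ?_, ?_⟩
      · rw [mem_rect] at w1 w2 z1 z2; omega
      · refine (hc.mono ?_ (Subset.refl _)).trans (Pool.Agent.H95.Perc.conn_step hz3 hw3 hadj hzw)
        exact inter_subset_right.trans
          (Pool.Agent.H95.Perc.rect_mono le_rfl le_rfl le_rfl (by omega))
    · have hu3 : u ∈ rect x0 x1 Y0 y1 := by rw [mem_rect] at hu ⊢; omega
      exact ⟨u, hu3, by omega, Pool.Agent.H95.Perc.conn_refl _ _ _⟩
  rcases lt_or_ge y0 y1 with h1 | h1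
  · have hw1 : w ∈ rect x0 x1 (y0 + 1) y1 := by rw [mem_rect] at hw ⊢; omega
    have hu1 : u ∉ rect x0 x1 (y0 + 1) y1 := by rw [mem_rect]; omega
    obtain ⟨z, w', z1, z2, w1, w2, hadj, hzw, hc'⟩ := hc.symm.exit hw hw1 hu1
    have hadj' : Pool.Agent.H95.SumRule.IsUnit2 (w' - z) := hadj
    simp only [Pool.Agent.H95.SumRule.IsUnit2, Prod.fst_sub, Prod.snd_sub] at hadj'
    have hz3 : z ∈ rect x0 x1 y0 y1 := by rw [mem_rect] at z1 z2 ⊢; omega
    have hw3 : w' ∈ rect x0 x1 y0 y1 := by rw [mem_rect] at w1 w2 z1 z2 ⊢; omega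
    have hw4 : w ∈ rect x0 x1 y0 y1 := by rw [mem_rect] at hw1 ⊢; omega
    refine ⟨w', w, hw3, hw4, ?_, hw2, ?_⟩
    · show w'.2 = y0
      rw [mem_rect] at w1 w2 z1 z2; omega
    · refine ((hc'.mono ?_ (Subset.refl _)).trans
        (Pool.Agent.H95.Perc.conn_step hz3 hw3 hadj hzw)).symm
      exact inter_subset_right.trans
        (Pool.Agent.H95.Perc.rect_mono le_rfl le_rfl (by omega) le_rfl)
  · have hw4 : w ∈ rect x0 x1 y0 y1 := by rw [mem_rect] at hw ⊢; omega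
    exact ⟨w, w, hw4, hw4, by show w.2 = y0; omega, hw2, Pool.Agent.H95.Perc.conn_refl _ _ _⟩

private theorem NL_empty : NL (∅ : Finset (Sym2 (ℤ × ℤ))) := fun e he => absurd he (notMem_empty e)

/-- transport of the connection by a lattice automorphism -/
private theorem step_gen (hq : 1 ≤ q)
    (h : p ≤ P q (edgesIn (bxx 0 0 N)) ∅ (fun ω => Cn ω (a, 1) (b, N)))
    {σ : (ℤ × ℤ) ≃ (ℤ × ℤ)} (hσ : Pool.Agent.H95.Perc.IsAut σ) {B V : Finset (ℤ × ℤ)}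
    (hB : (bxx 0 0 N).image σ = B) (hV : B ⊆ V) {u v : ℤ × ℤ} (hu : σ (a, 1) = u) (hv : σ (b, N) = v) :
    p ≤ P q (edgesIn V) ∅ (fun ω => conn B ω u v) := by
  have hq0 : 0 < q := by linarith
  refine h.trans ?_
  have e1 : P q (edgesIn (bxx 0 0 N)) ∅ (fun ω => Cn ω (a, 1) (b, N)) =
      P q (edgesIn (bxx 0 0 N)) ∅ (fun ω => conn B (img σ ω) u v) := by
    apply P_congr
    intro ζ hζ
    rw [← hB, ← hu, ← hv]
    have h1 : conn ((bxx 0 0 N).image σ) (img σ (ζ ∪ ∅)) (σ (a, 1)) (σ (b, N)) ↔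
        conn (bxx 0 0 N) (ζ ∪ ∅) (a, 1) (b, N) := Pool.Agent.H95.Perc.conn_act hσ
    rw [h1, union_empty]
    have h2 : ζ ∩ edgesIn (bxx 0 0 N) = ζ := inter_eq_left.2 hζ
    show Cn ζ (a, 1) (b, N) ↔ Cn (ζ ∩ edgesIn (bxx 0 0 N)) (a, 1) (b, N)
    rw [h2]
  have e2 := P_map (q := q) hq0 (NL_edgesIn (bxx 0 0 N)) (F := ∅) NL_empty (f := σ)
    (σ.injective.injOn) (fun ω => conn B ω u v)
  have e3 : img σ (edgesIn (bxx 0 0 N)) = edgesIn B := by
    rw [← hB]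
    exact (Pool.Agent.H95.Perc.edgesIn_image hσ _).symm
  have e4 : img σ (∅ : Finset (Sym2 (ℤ × ℤ))) = ∅ := image_empty _
  rw [e3, e4] at e2
  rw [e1, ← e2]
  exact P_mono_EF hq (NL_edgesIn V) NL_empty
    ((Pool.Agent.H95.Perc.edgesIn_mono hV).trans subset_union_left) (Subset.refl _)
    (Pool.Agent.H95.Perc.inc_conn _ _ _)

theorem chain_step (hq : 1 ≤ q) (h : p ≤ P q (edgesIn (bxx 0 0 N)) ∅ (fun ω => Cn ω (a, 1) (b, N)))
    {V : Finset (ℤ × ℤ)} {x y : ℤ} (hV : bxx (x - a) (y - 1) N ⊆ V) :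
    p ≤ P q (edgesIn V) ∅ (fun ω => conn (bxx (x - a) (y - 1) N) ω (x, y) (x + (b - a), y + (N - 1))) := by
  refine step_gen hq h (σ := Pool.Agent.H95.Perc.trans (x - a) (y - 1))
    (Pool.Agent.H95.Perc.isAut_trans _ _) ?_ hV ?_ ?_
  · unfold bxx
    rw [Pool.Agent.H95.Perc.rect_trans]
    congr 1 <;> ring
  · simp [Pool.Agent.H95.Perc.trans]
  · simp only [Pool.Agent.H95.Perc.trans, Equiv.coe_fn_mk, Prod.mk.injEq]
    constructor <;> ring

theorem chain_step' (hq : 1 ≤ q) (h : p ≤ P q (edgesIn (bxx 0 0 N)) ∅ (fun ω => Cn ω (a, 1) (b, N)))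
    {V : Finset (ℤ × ℤ)} {x y : ℤ} (hV : bxx (x + a) (y - 1) N ⊆ V) :
    p ≤ P q (edgesIn V) ∅ (fun ω => conn (bxx (x + a) (y - 1) N) ω (x, y) (x - (b - a), y + (N - 1))) := by
  refine step_gen hq h (σ := (Pool.Agent.H95.Perc.reflX (x + a)).trans
    (Pool.Agent.H95.Perc.trans 0 (y - 1))) ?_ ?_ hV ?_ ?_
  · intro u v
    exact (Pool.Agent.H95.Perc.isAut_trans 0 (y - 1) _ _).trans
      (Pool.Agent.H95.Perc.isAut_reflX (x + a) u v)
  · have h1 : (bxx 0 0 N).image ((Pool.Agent.H95.Perc.reflX (x + a)).trans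
        (Pool.Agent.H95.Perc.trans 0 (y - 1))) =
        ((bxx 0 0 N).image (Pool.Agent.H95.Perc.reflX (x + a))).image
          (Pool.Agent.H95.Perc.trans 0 (y - 1)) := by
      rw [image_image]; rfl
    rw [h1]
    unfold bxx
    rw [Pool.Agent.H95.Perc.rect_reflX, Pool.Agent.H95.Perc.rect_trans]
    congr 1 <;> ring
  · simp [Pool.Agent.H95.Perc.trans, Pool.Agent.H95.Perc.reflX]
  · simp only [Pool.Agent.H95.Perc.trans, Pool.Agent.H95.Perc.reflX, Equiv.coe_trans, Function.comp,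
      Equiv.coe_fn_mk, Prod.mk.injEq]
    constructor <;> ring

theorem chain_ver (hq : 1 ≤ q) (hN : 2 ≤ N) (ha : |a| ≤ N) (hb : |b| ≤ N) (hp : 0 ≤ p)
    (h : p ≤ P q (edgesIn (bxx 0 0 N)) ∅ (fun ω => Cn ω (a, 1) (b, N))) (i : ℕ) {V : Finset (ℤ × ℤ)}
    {x y : ℤ} (hV : rect (x - 2 * N) (x + 2 * N) (y - N - 1) (y + 2 * (N - 1) * i + N) ⊆ V) :
    p ^ (2 * i) ≤ P q (edgesIn V) ∅ (fun ω =>
      conn (rect (x - 2 * N) (x + 2 * N) (y - N - 1) (y + 2 * (N - 1) * i + N)) ω (x, y)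
        (x, y + 2 * (N - 1) * i)) := by
  have hq0 : 0 < q := by linarith
  rw [abs_le] at ha hb
  induction i with
  | zero =>
    have h1 : P q (edgesIn V) ∅ (fun ω =>
      conn (rect (x - 2 * N) (x + 2 * N) (y - N - 1) (y + 2 * (N - 1) * ((0 : ℕ) : ℤ) + N)) ω (x, y)
        (x, y + 2 * (N - 1) * ((0 : ℕ) : ℤ))) = 1 := by
      apply P_eq_one hq0
      intro ζ _
      have e : y + 2 * (N - 1) * ((0 : ℕ) : ℤ) = y := by simp
      rw [e]
      exact Pool.Agent.H95.Perc.conn_refl _ _ _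
    rw [h1]
    simp
  | succ i ih =>
    have hi : (0 : ℤ) ≤ (N - 1) * i := mul_nonneg (by omega) (by positivity)
    have hcast : y + 2 * (N - 1) * ((i + 1 : ℕ) : ℤ) = y + 2 * (N - 1) * i + 2 * (N - 1) := by
      push_cast; ring
    have hle : y + 2 * (N - 1) * (i : ℤ) = y + 2 * ((N - 1) * i) := by ring
    rw [hcast] at hV ⊢
    have hsub0 : rect (x - 2 * N) (x + 2 * N) (y - N - 1) (y + 2 * (N - 1) * i + N) ⊆
        rect (x - 2 * N) (x + 2 * N) (y - N - 1) (y + 2 * (N - 1) * i + 2 * (N - 1) + N) :=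
      Pool.Agent.H95.Perc.rect_mono le_rfl le_rfl le_rfl (by omega)
    have ih' := ih (hsub0.trans hV)
    set y' := y + 2 * (N - 1) * i with hy'
    have hsub1 : bxx (x - a) (y' - 1) N ⊆
        rect (x - 2 * N) (x + 2 * N) (y - N - 1) (y' + 2 * (N - 1) + N) := by
      unfold bxx
      apply Pool.Agent.H95.Perc.rect_mono <;> omega
    have hsub2 : bxx (x + (b - a) + a) (y' + (N - 1) - 1) N ⊆
        rect (x - 2 * N) (x + 2 * N) (y - N - 1) (y' + 2 * (N - 1) + N) := by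
      unfold bxx
      apply Pool.Agent.H95.Perc.rect_mono <;> omega
    have s1 := chain_step hq h (x := x) (y := y') (hsub1.trans hV)
    have s2 := chain_step' hq h (x := x + (b - a)) (y := y' + (N - 1)) (hsub2.trans hV)
    have i1 := Pool.Agent.H95.Perc.inc_conn
      (rect (x - 2 * N) (x + 2 * N) (y - N - 1) (y' + N)) (x, y) (x, y')
    have i2 := Pool.Agent.H95.Perc.inc_conn (bxx (x - a) (y' - 1) N) (x, y')
      (x + (b - a), y' + (N - 1))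
    have i3 := Pool.Agent.H95.Perc.inc_conn (bxx (x + (b - a) + a) (y' + (N - 1) - 1) N)
      (x + (b - a), y' + (N - 1)) (x + (b - a) - (b - a), y' + (N - 1) + (N - 1))
    have f1 := P_fkg (F := ∅) hq (NL_edgesIn V) NL_empty i1 i2
    have f2 := P_fkg (F := ∅) hq (NL_edgesIn V) NL_empty
      (A := fun ω => conn (rect (x - 2 * N) (x + 2 * N) (y - N - 1) (y' + N)) ω (x, y) (x, y') ∧
        conn (bxx (x - a) (y' - 1) N) ω (x, y') (x + (b - a), y' + (N - 1)))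
      (fun s t hst hs => ⟨i1 _ _ hst hs.1, i2 _ _ hst hs.2⟩) i3
    have hpow : 0 ≤ p ^ (2 * i) := pow_nonneg hp _
    calc p ^ (2 * (i + 1)) = p ^ (2 * i) * p * p := by ring
      _ ≤ P q (edgesIn V) ∅ (fun ω =>
          conn (rect (x - 2 * N) (x + 2 * N) (y - N - 1) (y' + N)) ω (x, y) (x, y') ∧
          conn (bxx (x - a) (y' - 1) N) ω (x, y') (x + (b - a), y' + (N - 1))) *
          P q (edgesIn V) ∅ (fun ω => conn (bxx (x + (b - a) + a) (y' + (N - 1) - 1) N) ω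
            (x + (b - a), y' + (N - 1)) (x + (b - a) - (b - a), y' + (N - 1) + (N - 1))) := by
          apply mul_le_mul _ s2 hp (P_nonneg hq0 _ _ _)
          refine le_trans ?_ f1
          exact mul_le_mul ih' s1 hp (P_nonneg hq0 _ _ _)
      _ ≤ _ := f2
      _ ≤ _ := by
          apply P_mono hq0
          rintro ζ _ ⟨⟨c1, c2⟩, c3⟩
          have e1 : x + (b - a) - (b - a) = x := by ring
          have e2 : y' + (N - 1) + (N - 1) = y' + 2 * (N - 1) := by ring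
          rw [e1, e2] at c3
          exact ((c1.mono hsub0 (Subset.refl _)).trans (c2.mono hsub1 (Subset.refl _))).trans
            (c3.mono hsub2 (Subset.refl _))

/-- invariance of the box under transposition -/
theorem P_box_diag (hq : 1 ≤ q) {n x0 x1 y0 y1 : ℤ} :
    P q (edgesIn (bxx 0 0 n)) ∅ (hor x0 x1 y0 y1) = P q (edgesIn (bxx 0 0 n)) ∅ (ver y0 y1 x0 x1) := by
  have hq0 : 0 < q := by linarith
  have e2 := P_map (q := q) hq0 (NL_edgesIn (bxx 0 0 n)) (F := ∅) NL_empty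
    (f := Pool.Agent.H95.Perc.diag) (Pool.Agent.H95.Perc.diag.injective.injOn) (hor x0 x1 y0 y1)
  have e3 : img Pool.Agent.H95.Perc.diag (edgesIn (bxx 0 0 n)) = edgesIn (bxx 0 0 n) := by
    have h1 := Pool.Agent.H95.Perc.edgesIn_image Pool.Agent.H95.Perc.isAut_diag (bxx 0 0 n)
    have h2 : (bxx 0 0 n).image Pool.Agent.H95.Perc.diag = bxx 0 0 n := by
      unfold bxx
      rw [Pool.Agent.H95.Perc.rect_diag]
    rw [h2] at h1
    exact h1.symm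
  have e4 : img Pool.Agent.H95.Perc.diag (∅ : Finset (Sym2 (ℤ × ℤ))) = ∅ := image_empty _
  rw [e3, e4] at e2
  rw [e2]
  apply P_congr
  intro ζ _
  have h1 := Pool.Agent.H95.Perc.link_act Pool.Agent.H95.Perc.isAut_diag
    (V := rect y0 y1 x0 x1) (ω := ζ ∪ ∅) (A := fun v => v.1 = x0) (B := fun v => v.1 = x1)
  rw [Pool.Agent.H95.Perc.rect_diag] at h1
  exact h1

/-- one vertical crossing of the annulus -/
private theorem chain_one (hq : 1 ≤ q) {n : ℤ} (hN : 8 ≤ N) (h1 : 4 * N ≤ n) (h2 : n ≤ 6 * N)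
    (ha : |a| ≤ N) (hb : |b| ≤ N) (hp : 0 ≤ p)
    (h : p ≤ P q (edgesIn (bxx 0 0 N)) ∅ (fun ω => Cn ω (a, 1) (b, N))) {x0 x1 : ℤ}
    (hx0 : -(2 * n) ≤ x0) (hx0' : x0 ≤ n) (hx1 : x0 + n ≤ x1) :
    p ^ 32 ≤ P q (edgesIn (bxx 0 0 (12 * n))) ∅ (ver x0 x1 (-(2 * n)) (2 * n)) := by
  have hq0 : 0 < q := by linarith
  have hsub : rect (x0 + 2 * N - 2 * N) (x0 + 2 * N + 2 * N) (-(2 * n) - N - 1)
      (-(2 * n) + 2 * (N - 1) * ((16 : ℕ) : ℤ) + N) ⊆ bxx 0 0 (12 * n) := by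
    unfold bxx
    apply Pool.Agent.H95.Perc.rect_mono <;> push_cast <;> omega
  have key := chain_ver hq (by omega) ha hb hp h 16 (x := x0 + 2 * N) (y := -(2 * n)) hsub
  refine le_trans key (P_mono hq0 ?_)
  intro ζ _ hc
  have hv := ver_of_conn (y0 := -(2 * n)) (y1 := 2 * n) (by omega) (u := (x0 + 2 * N, -(2 * n))) ?_
    le_rfl ?_ hc
  · refine ver_narrow (x0 := x0 + 2 * N - 2 * N) (x1 := x0 + 2 * N + 2 * N) ?_ ?_ hv
    · omega
    · omega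
  · rw [mem_rect]; push_cast; omega
  · push_cast; omega

theorem chain (hq : 1 ≤ q) {n : ℤ} (hN : 8 ≤ N) (h1 : 4 * N ≤ n) (h2 : n ≤ 6 * N) (ha : |a| ≤ N)
    (hb : |b| ≤ N) (hp : 0 ≤ p) (hp1 : p ≤ 1)
    (h : p ≤ P q (edgesIn (bxx 0 0 N)) ∅ (fun ω => Cn ω (a, 1) (b, N))) : p ^ 128 ≤ uu q n := by
  have hq0 : 0 < q := by linarith
  have v1 := chain_one hq hN h1 h2 ha hb hp h (x0 := -(2 * n)) (x1 := -n) le_rfl (by omega)
    (by omega)
  have v2 := chain_one hq hN h1 h2 ha hb hp h (x0 := n) (x1 := 2 * n) (by omega) le_rfl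
    (by omega)
  have w1 : p ^ 32 ≤ P q (edgesIn (bxx 0 0 (12 * n))) ∅ (hor (-(2 * n)) (2 * n) (-(2 * n)) (-n)) := by
    rw [P_box_diag hq]; exact v1
  have w2 : p ^ 32 ≤ P q (edgesIn (bxx 0 0 (12 * n))) ∅ (hor (-(2 * n)) (2 * n) n (2 * n)) := by
    rw [P_box_diag hq]; exact v2
  have i1 := Pool.Agent.H95.Perc.inc_hor (-(2 * n)) (2 * n) n (2 * n)
  have i2 := Pool.Agent.H95.Perc.inc_hor (-(2 * n)) (2 * n) (-(2 * n)) (-n)
  have i3 := Pool.Agent.H95.Perc.inc_ver (-(2 * n)) (-n) (-(2 * n)) (2 * n)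
  have i4 := Pool.Agent.H95.Perc.inc_ver n (2 * n) (-(2 * n)) (2 * n)
  have hE := NL_edgesIn (bxx 0 0 (12 * n))
  have f1 := P_fkg (F := ∅) hq hE NL_empty i3 i4
  have f2 := P_fkg (F := ∅) hq hE NL_empty i2
    (B := fun ω => ver (-(2 * n)) (-n) (-(2 * n)) (2 * n) ω ∧ ver n (2 * n) (-(2 * n)) (2 * n) ω)
    (fun s t hst hs => ⟨i3 _ _ hst hs.1, i4 _ _ hst hs.2⟩)
  have f3 := P_fkg (F := ∅) hq hE NL_empty i1
    (B := fun ω => hor (-(2 * n)) (2 * n) (-(2 * n)) (-n) ω ∧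
      ver (-(2 * n)) (-n) (-(2 * n)) (2 * n) ω ∧ ver n (2 * n) (-(2 * n)) (2 * n) ω)
    (fun s t hst hs => ⟨i2 _ _ hst hs.1, i3 _ _ hst hs.2.1, i4 _ _ hst hs.2.2⟩)
  have hpow : 0 ≤ p ^ 32 := pow_nonneg hp _
  have g1 : p ^ 32 * p ^ 32 ≤ P q (edgesIn (bxx 0 0 (12 * n))) ∅ (fun ω =>
      ver (-(2 * n)) (-n) (-(2 * n)) (2 * n) ω ∧ ver n (2 * n) (-(2 * n)) (2 * n) ω) :=
    (mul_le_mul v1 v2 hpow (P_nonneg hq0 _ _ _)).trans f1
  have g2 : p ^ 32 * (p ^ 32 * p ^ 32) ≤ P q (edgesIn (bxx 0 0 (12 * n))) ∅ (fun ω =>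
      hor (-(2 * n)) (2 * n) (-(2 * n)) (-n) ω ∧
      ver (-(2 * n)) (-n) (-(2 * n)) (2 * n) ω ∧ ver n (2 * n) (-(2 * n)) (2 * n) ω) :=
    (mul_le_mul w1 g1 (by positivity) (P_nonneg hq0 _ _ _)).trans f2
  have g3 : p ^ 32 * (p ^ 32 * (p ^ 32 * p ^ 32)) ≤ P q (edgesIn (bxx 0 0 (12 * n))) ∅ (fun ω =>
      hor (-(2 * n)) (2 * n) n (2 * n) ω ∧ hor (-(2 * n)) (2 * n) (-(2 * n)) (-n) ω ∧
      ver (-(2 * n)) (-n) (-(2 * n)) (2 * n) ω ∧ ver n (2 * n) (-(2 * n)) (2 * n) ω) :=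
    (mul_le_mul w2 g2 (by positivity) (P_nonneg hq0 _ _ _)).trans f3
  calc p ^ 128 = p ^ 32 * (p ^ 32 * (p ^ 32 * p ^ 32)) := by ring
    _ ≤ _ := g3
    _ ≤ uu q n := by
        unfold uu
        apply P_mono hq0
        rintro ζ _ ⟨c1, c2, c3, c4⟩
        unfold An
        simp only [zero_sub, zero_add]
        exact ⟨c1, c2, c3, c4⟩

end Pool.Agent.FKR
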