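import Pool.Agent.FKR.WNum
import Pool.Agent.FKR.Chain

/-! # FKR/C3 (MP_b3e76a_pr): free boundary conditions, `q < 4`: the annulus event has a uniformly positive probability

`uu_pos`: the configuration with all edges open satisfies `An 0 0 n` (`rect_Cn`), and has a positive weight (`W_pos`).
`uu_low`: for `n ≥ 384` use `plane_arm` and `chain` with `N = n / 5` (`5 N ≤ n ≤ 5 N + 4 ≤ 6 N`, `N ≥ 64`); for `1 ≤ n < 384` the minimum of finitely
many positive numbers. -/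

namespace Pool.Agent.FKR

open Finset
open Pool.Agent.H95.Perc (Inc conn link rect hor ver eh ev sumE sepE Inci mem_rect)
open Pool.Agent.H95.SumRule (edgesIn Z2)

variable {q : ℝ}

private theorem P_pos_of {α : Type*} [DecidableEq α] (hq : 0 < q) {E F : Finset (Sym2 α)}
    {A : Finset (Sym2 α) → Prop} (h : A (E ∪ F)) : 0 < P q E F A := by
  unfold P
  apply div_pos _ (ws_wt_true_pos hq _ _)
  unfold Pool.Agent.H95.Susc.ws
  exact sum_pos (fun ω _ => wt_pos hq E F ω)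
    ⟨E, by rw [Pool.Agent.H95.Susc.mem_fil]; exact ⟨Subset.refl _, h⟩⟩

private theorem link_full {V : Finset (ℤ × ℤ)} {x0 x1 y0 y1 : ℤ} (hV : rect x0 x1 y0 y1 ⊆ V)
    {A B : ℤ × ℤ → Prop} {a b : ℤ × ℤ} (ha : a ∈ rect x0 x1 y0 y1) (hb : b ∈ rect x0 x1 y0 y1)
    (hA : A a) (hB : B b) : link (rect x0 x1 y0 y1) A B (edgesIn V) := by
  refine ⟨a, b, ha, hb, hA, hB, ?_⟩
  unfold conn
  rw [inter_eq_right.2 (Pool.Agent.H95.Perc.edgesIn_mono hV)]
  exact rect_Cn ha hb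

theorem uu_pos (hq : 1 ≤ q) {n : ℤ} (hn : 1 ≤ n) : 0 < uu q n := by
  unfold uu
  apply P_pos_of (by linarith)
  rw [union_empty]
  have hsub : ∀ {x0 x1 y0 y1 : ℤ}, -(12 * n) ≤ x0 → x1 ≤ 12 * n → -(12 * n) ≤ y0 → y1 ≤ 12 * n →
      rect x0 x1 y0 y1 ⊆ bxx 0 0 (12 * n) := by
    intro x0 x1 y0 y1 h1 h2 h3 h4
    unfold bxx
    exact Pool.Agent.H95.Perc.rect_mono (by omega) (by omega) (by omega) (by omega)
  refine ⟨?_, ?_, ?_, ?_⟩
  · exact link_full (hsub (by omega) (by omega) (by omega) (by omega))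
      (a := (0 - 2 * n, 0 + n)) (b := (0 + 2 * n, 0 + n))
      (by rw [mem_rect]; refine ⟨?_, ?_, ?_, ?_⟩ <;> simp only <;> omega)
      (by rw [mem_rect]; refine ⟨?_, ?_, ?_, ?_⟩ <;> simp only <;> omega) rfl rfl
  · exact link_full (hsub (by omega) (by omega) (by omega) (by omega))
      (a := (0 - 2 * n, 0 - n)) (b := (0 + 2 * n, 0 - n))
      (by rw [mem_rect]; refine ⟨?_, ?_, ?_, ?_⟩ <;> simp only <;> omega)
      (by rw [mem_rect]; refine ⟨?_, ?_, ?_, ?_⟩ <;> simp only <;> omega) rfl rfl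
  · exact link_full (hsub (by omega) (by omega) (by omega) (by omega))
      (a := (0 - n, 0 - 2 * n)) (b := (0 - n, 0 + 2 * n))
      (by rw [mem_rect]; refine ⟨?_, ?_, ?_, ?_⟩ <;> simp only <;> omega)
      (by rw [mem_rect]; refine ⟨?_, ?_, ?_, ?_⟩ <;> simp only <;> omega) rfl rfl
  · exact link_full (hsub (by omega) (by omega) (by omega) (by omega))
      (a := (0 + n, 0 - 2 * n)) (b := (0 + n, 0 + 2 * n))
      (by rw [mem_rect]; refine ⟨?_, ?_, ?_, ?_⟩ <;> simp only <;> omega)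
      (by rw [mem_rect]; refine ⟨?_, ?_, ?_, ?_⟩ <;> simp only <;> omega) rfl rfl

theorem uu_low (hq : 1 ≤ q) (hq4 : q < 4) : ∃ C : ℝ, 0 < C ∧ ∀ n : ℤ, 1 ≤ n →
    Real.exp (-C * √n) ≤ uu q n := by
  obtain ⟨C0, hC0, h0⟩ := plane_arm hq hq4
  set D : ℝ := ∑ n ∈ Icc (1 : ℤ) 383, |Real.log (uu q n)| with hD
  have hD0 : 0 ≤ D := sum_nonneg fun _ _ => abs_nonneg _
  refine ⟨128 * C0 + D, by positivity, fun n hn => ?_⟩
  have hn' : (1 : ℝ) ≤ (n : ℝ) := by exact_mod_cast hn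
  have hsq : 1 ≤ √(n : ℝ) := Real.one_le_sqrt.2 hn'
  by_cases hbig : 384 ≤ n
  · set N : ℤ := n / 5 with hN
    have hN1 : 5 * N ≤ n := by omega
    have hN2 : n ≤ 5 * N + 4 := by omega
    obtain ⟨a, b, ha, hb, hp⟩ := h0 N (by omega)
    set p : ℝ := Real.exp (-C0 * √N) with hpdef
    have hp0 : 0 ≤ p := (Real.exp_pos _).le
    have hp1 : p ≤ 1 := by
      apply Real.exp_le_one_iff.2
      have : 0 ≤ √(N : ℝ) := Real.sqrt_nonneg _
      nlinarith
    have hc := chain hq (n := n) (N := N) (a := a) (b := b) (by omega) (by omega) (by omega) ha hb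
      hp0 hp1 hp
    refine le_trans ?_ hc
    have e : p ^ 128 = Real.exp (-(128 * C0) * √N) := by
      rw [hpdef, ← Real.exp_nat_mul]
      congr 1
      push_cast
      ring
    rw [e]
    apply Real.exp_le_exp.2
    have hNn : √(N : ℝ) ≤ √(n : ℝ) := by
      apply Real.sqrt_le_sqrt
      have : N ≤ n := by omega
      exact_mod_cast this
    have h1 : 0 ≤ √(n : ℝ) := Real.sqrt_nonneg _
    have h2 : 128 * C0 * √(N : ℝ) ≤ 128 * C0 * √(n : ℝ) :=
      mul_le_mul_of_nonneg_left hNn (by positivity)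
    have h3 : 0 ≤ D * √(n : ℝ) := mul_nonneg hD0 h1
    nlinarith
  · have hu := uu_pos hq hn
    have hmem : n ∈ Icc (1 : ℤ) 383 := by rw [mem_Icc]; omega
    have h1 : |Real.log (uu q n)| ≤ D :=
      single_le_sum (f := fun n : ℤ => |Real.log (uu q n)|) (fun _ _ => abs_nonneg _) hmem
    rw [← Real.le_log_iff_exp_le hu]
    have h2 : -|Real.log (uu q n)| ≤ Real.log (uu q n) := neg_abs_le _
    have h3 : D ≤ D * √(n : ℝ) := le_mul_of_one_le_right hD0 hsq
    have h4 : 0 ≤ 128 * C0 * √(n : ℝ) := by positivity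
    nlinarith

end Pool.Agent.FKR
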