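import Pool.Agent.FKR.C3
import Pool.Agent.FKR.C2

/-! # FKR/C4 (MP_b3e76a_pr): free boundary conditions, `q < 4`: the annulus event has a uniformly positive probability

`uu_ge`: with `C ≥ 1` from `uu_rec`: `uu (LL ^ i * n) ≤ C ^ ((41 ^ i - 1) / 40) * (uu n) ^ (41 ^ i) ≤ (C * uu n) ^ (41 ^ i)` (induction on `i`, `C ≥ 1`). If
`C * uu n ≤ exp (-1)` for some `n ≥ 4` then `exp (-C' * √(523 ^ i * n)) ≤ exp (-41 ^ i)`, i.e. `41 ^ i ≤ C' * √n * (√523) ^ i`, impossible for large `i`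
since `√523 < 23 < 41`. So `uu n ≥ exp (-1) / C` for `n ≥ 4`; `n = 1, 2, 3` by `uu_pos`. -/

namespace Pool.Agent.FKR

open Finset
open Pool.Agent.H95.Perc (Inc conn link rect hor ver eh ev sumE sepE Inci mem_rect)
open Pool.Agent.H95.SumRule (edgesIn Z2)

variable {q : ℝ}

private theorem uu_iter (hq : 1 ≤ q) {C : ℝ} (hC : 1 ≤ C)
    (hr : ∀ n : ℤ, 4 ≤ n → uu q (LL * n) ≤ C * (uu q n) ^ 41) {n : ℤ} (hn : 4 ≤ n) :
    ∀ i : ℕ, C * uu q (LL ^ i * n) ≤ (C * uu q n) ^ (41 ^ i) := by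
  intro i
  induction i with
  | zero => simp
  | succ i ih =>
    have hL : (1 : ℤ) ≤ LL ^ i := one_le_pow₀ (by unfold LL; norm_num)
    have hm : (4 : ℤ) ≤ LL ^ i * n := by nlinarith
    have h0 : 0 < uu q (LL ^ i * n) := uu_pos hq (by linarith)
    have h1 := hr _ hm
    have h2 : LL ^ (i + 1) * n = LL * (LL ^ i * n) := by ring
    have h3 : C * (C * uu q (LL ^ i * n) ^ 41) ≤ (C * uu q (LL ^ i * n)) ^ 41 := by
      rw [mul_pow, ← mul_assoc]
      refine mul_le_mul_of_nonneg_right ?_ (by positivity)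
      calc C * C = C ^ 2 := by ring
        _ ≤ C ^ 41 := pow_le_pow_right₀ hC (by norm_num)
    calc C * uu q (LL ^ (i + 1) * n) = C * uu q (LL * (LL ^ i * n)) := by rw [h2]
      _ ≤ C * (C * uu q (LL ^ i * n) ^ 41) := mul_le_mul_of_nonneg_left h1 (by linarith)
      _ ≤ (C * uu q (LL ^ i * n)) ^ 41 := h3
      _ ≤ ((C * uu q n) ^ (41 ^ i)) ^ 41 :=
          pow_le_pow_left₀ (by positivity) ih _
      _ = (C * uu q n) ^ (41 ^ (i + 1)) := by rw [← pow_mul, pow_succ]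

private theorem uu_ge4 (hq : 1 ≤ q) (hq4 : q < 4) :
    ∃ c : ℝ, 0 < c ∧ ∀ n : ℤ, 4 ≤ n → c ≤ uu q n := by
  obtain ⟨C0, hC0, hr0⟩ := uu_rec (q := q) hq
  obtain ⟨C', hC', hlow⟩ := uu_low (q := q) hq hq4
  have hC : (1 : ℝ) ≤ max C0 1 := le_max_right _ _
  have hr : ∀ n : ℤ, 4 ≤ n → uu q (LL * n) ≤ max C0 1 * (uu q n) ^ 41 := by
    intro n hn
    have h0 : 0 < uu q n := uu_pos hq (by linarith)
    exact (hr0 n hn).trans (mul_le_mul_of_nonneg_right (le_max_left _ _) (by positivity))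
  set C := max C0 1 with hCdef
  refine ⟨Real.exp (-1) / C, by positivity, fun n hn => ?_⟩
  by_contra hlt
  rw [not_le, lt_div_iff₀ (by linarith)] at hlt
  have hn0 : (0 : ℝ) ≤ (n : ℝ) := by
    have : (4 : ℝ) ≤ (n : ℝ) := by exact_mod_cast hn
    linarith
  have key : ∀ i : ℕ, (41 / 23 : ℝ) ^ i ≤ C' * √(n : ℝ) := by
    intro i
    have hL : (1 : ℤ) ≤ LL ^ i := one_le_pow₀ (by unfold LL; norm_num)
    have hm : (4 : ℤ) ≤ LL ^ i * n := by nlinarith
    have h0 : 0 < uu q (LL ^ i * n) := uu_pos hq (by linarith)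
    have h00 : 0 < uu q n := uu_pos hq (by linarith)
    have h1 := uu_iter hq hC hr hn i
    have h2 := hlow (LL ^ i * n) (by linarith)
    have h3 : (C * uu q n) ^ (41 ^ i) ≤ Real.exp (-(41 : ℝ) ^ i) := by
      calc (C * uu q n) ^ (41 ^ i) ≤ (Real.exp (-1)) ^ (41 ^ i) :=
            pow_le_pow_left₀ (mul_nonneg (zero_le_one.trans hC) h00.le)
              (by linarith [mul_comm C (uu q n)]) _
        _ = Real.exp (-(41 : ℝ) ^ i) := by
            rw [← Real.exp_nat_mul]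
            congr 1
            push_cast
            ring
    have h4 : uu q (LL ^ i * n) ≤ C * uu q (LL ^ i * n) := le_mul_of_one_le_left h0.le hC
    have h5 : Real.exp (-C' * √((LL ^ i * n : ℤ) : ℝ)) ≤ Real.exp (-(41 : ℝ) ^ i) :=
      h2.trans (h4.trans (h1.trans h3))
    have h6 := Real.exp_le_exp.1 h5
    have h7 : √((LL ^ i * n : ℤ) : ℝ) ≤ 23 ^ i * √(n : ℝ) := by
      have h8 : ((LL ^ i * n : ℤ) : ℝ) ≤ ((23 : ℝ) ^ i) ^ 2 * n := by
        push_cast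
        refine mul_le_mul_of_nonneg_right ?_ hn0
        rw [← pow_mul, mul_comm i 2, pow_mul]
        refine pow_le_pow_left₀ ?_ ?_ _
        · unfold LL; norm_num
        · unfold LL; norm_num
      calc √((LL ^ i * n : ℤ) : ℝ) ≤ √(((23 : ℝ) ^ i) ^ 2 * n) := Real.sqrt_le_sqrt h8
        _ = 23 ^ i * √(n : ℝ) := by
            rw [Real.sqrt_mul (by positivity), Real.sqrt_sq (by positivity)]
    have h9 : (41 : ℝ) ^ i ≤ C' * (23 ^ i * √(n : ℝ)) := by
      have := mul_le_mul_of_nonneg_left h7 hC'.le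
      linarith
    rw [div_pow, div_le_iff₀ (by positivity)]
    linarith [mul_comm ((23 : ℝ) ^ i) (√(n : ℝ)), mul_left_comm C' ((23 : ℝ) ^ i) (√(n : ℝ)),
      mul_comm ((23 : ℝ) ^ i) (C' * √(n : ℝ))]
  obtain ⟨i, hi⟩ := pow_unbounded_of_one_lt (C' * √(n : ℝ)) (show (1 : ℝ) < 41 / 23 by norm_num)
  exact absurd (key i) (not_le.2 hi)

theorem uu_ge (hq : 1 ≤ q) (hq4 : q < 4) : ∃ c : ℝ, 0 < c ∧ ∀ n : ℤ, 1 ≤ n → c ≤ uu q n := by
  obtain ⟨c, hc, h⟩ := uu_ge4 hq hq4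
  refine ⟨min c (min (uu q 1) (min (uu q 2) (uu q 3))), ?_, fun n hn => ?_⟩
  · exact lt_min hc (lt_min (uu_pos hq (by norm_num)) (lt_min (uu_pos hq (by norm_num))
      (uu_pos hq (by norm_num))))
  · by_cases h4 : 4 ≤ n
    · exact (min_le_left _ _).trans (h n h4)
    · have h5 : n = 1 ∨ n = 2 ∨ n = 3 := by omega
      rcases h5 with rfl | rfl | rfl
      · exact (min_le_right _ _).trans (min_le_left _ _)
      · exact (min_le_right _ _).trans ((min_le_right _ _).trans (min_le_left _ _))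
      · exact (min_le_right _ _).trans ((min_le_right _ _).trans (min_le_right _ _))

end Pool.Agent.FKR
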