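import Pool.Agent.FKR.C4
import Pool.Agent.FKR.Glue

/-! # FKR/C5 (MP_b3e76a_pr): crossings of long rectangles with free boundary conditions, `1 ≤ q < 4`

`An_le`: `uu q n ≤ P q (edgesIn V) ∅ (An x y n)` if `bxx x y (12 n) ⊆ V` (`P_map` with `Perc.trans x y`, `link_act`, `P_mono_EF`, `inc_link`).
`hor_of_An`: if `An (x + 3 n i) y n ω` for `i = 0, ..., K` then `hor (x - 2 n) (x + 3 n K + 2 n) (y + n) (y + 2 n) ω`: induction on `K`: the left vertical crossing
`ver (x' - 2 n) (x' - n) (y - 2 n) (y + 2 n)` of the annulus around `x' = x + 3 n (K + 1)` is shortened by `ver_shrink` to the rows `y + n .. y + 2 n`; its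
columns are `x + 3 n K + n .. x + 3 n K + 2 n`, the last `n` columns of the previous horizontal crossing; `hor_glue` with `x1' = x' - 2 n`,
`x1 = x' - n`... (`hor x0 x1` and `ver x1' x1` and `hor x1' x2`).
`free_hor`: `K = k / 3` (`3 K ≤ k`, `3 n K + 2 n ≥ k n`), centres `(x + 3 n i, y - n)`, FKG (`P_fkg`, induction on `K`, `inc_link`) gives
`P (∀ i ≤ K, An ..) ≥ (min c 1) ^ (K + 1) ≥ c ^ (k + 1)`; `hor_of_An`, `hor_shrink` to `[x, x + k n]`.
`free_ver`: transposition (`P_map` with `Perc.diag`). -/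

namespace Pool.Agent.FKR

open Finset
open Pool.Agent.H95.Perc (Inc conn link rect hor ver eh ev sumE sepE Inci mem_rect)
open Pool.Agent.H95.SumRule (edgesIn Z2)

variable {q : ℝ}

private theorem c5_inc_An (x y n : ℤ) : Inc (An x y n) := by
  rintro ω ω' hs ⟨h1, h2, h3, h4⟩
  exact ⟨Pool.Agent.H95.Perc.inc_hor _ _ _ _ _ _ hs h1, Pool.Agent.H95.Perc.inc_hor _ _ _ _ _ _ hs h2,
    Pool.Agent.H95.Perc.inc_ver _ _ _ _ _ _ hs h3, Pool.Agent.H95.Perc.inc_ver _ _ _ _ _ _ hs h4⟩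

private theorem c5_An_trans {a b n : ℤ} {ω : Finset (Sym2 (ℤ × ℤ))} :
    An a b n (Pool.Agent.H95.Perc.act (Pool.Agent.H95.Perc.trans a b) ω) ↔ An 0 0 n ω := by
  have haut := Pool.Agent.H95.Perc.isAut_trans a b
  have hh : ∀ x0 x1 y0 y1 : ℤ, hor (x0 + a) (x1 + a) (y0 + b) (y1 + b)
      (Pool.Agent.H95.Perc.act (Pool.Agent.H95.Perc.trans a b) ω) ↔ hor x0 x1 y0 y1 ω := by
    intro x0 x1 y0 y1
    unfold Pool.Agent.H95.Perc.hor
    have h := Pool.Agent.H95.Perc.link_act haut (V := rect x0 x1 y0 y1) (ω := ω)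
      (A := fun v => v.1 = x0 + a) (B := fun v => v.1 = x1 + a)
    rw [Pool.Agent.H95.Perc.rect_trans] at h
    rw [h]
    simp only [Pool.Agent.H95.Perc.trans, Equiv.coe_fn_mk, add_left_inj]
  have hv : ∀ x0 x1 y0 y1 : ℤ, ver (x0 + a) (x1 + a) (y0 + b) (y1 + b)
      (Pool.Agent.H95.Perc.act (Pool.Agent.H95.Perc.trans a b) ω) ↔ ver x0 x1 y0 y1 ω := by
    intro x0 x1 y0 y1
    unfold Pool.Agent.H95.Perc.ver
    have h := Pool.Agent.H95.Perc.link_act haut (V := rect x0 x1 y0 y1) (ω := ω)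
      (A := fun v => v.2 = y0 + b) (B := fun v => v.2 = y1 + b)
    rw [Pool.Agent.H95.Perc.rect_trans] at h
    rw [h]
    simp only [Pool.Agent.H95.Perc.trans, Equiv.coe_fn_mk, add_left_inj]
  have e1 : a - 2 * n = (0 - 2 * n) + a := by ring
  have e2 : a + 2 * n = (0 + 2 * n) + a := by ring
  have e3 : a - n = (0 - n) + a := by ring
  have e4 : a + n = (0 + n) + a := by ring
  have f1 : b - 2 * n = (0 - 2 * n) + b := by ring
  have f2 : b + 2 * n = (0 + 2 * n) + b := by ring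
  have f3 : b - n = (0 - n) + b := by ring
  have f4 : b + n = (0 + n) + b := by ring
  unfold An
  rw [e1, e2, e3, e4, f1, f2, f3, f4, hh, hh, hv, hv]

private theorem c5_uu (hq : 1 ≤ q) (a b n : ℤ) :
    P q (edgesIn (bxx a b (12 * n))) ∅ (An a b n) = uu q n := by
  have hq0 : 0 < q := by linarith
  have haut := Pool.Agent.H95.Perc.isAut_trans a b
  have h := P_map (q := q) hq0 (NL_edgesIn (bxx 0 0 (12 * n))) (F := ∅)
    (fun e he => absurd he (notMem_empty e)) (f := Pool.Agent.H95.Perc.trans a b)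
    ((Pool.Agent.H95.Perc.trans a b).injective.injOn) (An a b n)
  have e1 : img (Pool.Agent.H95.Perc.trans a b) (edgesIn (bxx 0 0 (12 * n))) =
      edgesIn (bxx a b (12 * n)) := by
    have h1 := Pool.Agent.H95.Perc.edgesIn_image haut (bxx 0 0 (12 * n))
    have h2 : (bxx 0 0 (12 * n)).image (Pool.Agent.H95.Perc.trans a b) = bxx a b (12 * n) := by
      unfold bxx
      rw [Pool.Agent.H95.Perc.rect_trans]
      congr 1 <;> ring
    rw [h2] at h1
    exact h1.symm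
  have e2 : img (Pool.Agent.H95.Perc.trans a b) (∅ : Finset (Sym2 (ℤ × ℤ))) = ∅ := by
    unfold img; exact image_empty _
  rw [e1, e2] at h
  rw [h]
  unfold uu
  exact P_congr fun ζ _ => c5_An_trans

theorem An_le (hq : 1 ≤ q) {V : Finset (ℤ × ℤ)} {x y n : ℤ} (hV : bxx x y (12 * n) ⊆ V) :
    uu q n ≤ P q (edgesIn V) ∅ (An x y n) := by
  rw [← c5_uu hq x y n]
  exact P_mono_EF hq (NL_edgesIn V) (fun e he => absurd he (notMem_empty e))
    ((Pool.Agent.H95.Perc.edgesIn_mono hV).trans subset_union_left) (Subset.refl _) (c5_inc_An x y n)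

theorem hor_of_An {x y n : ℤ} (hn : 1 ≤ n) (K : ℕ) {ω : Finset (Sym2 (ℤ × ℤ))}
    (h : ∀ i : ℕ, i ≤ K → An (x + 3 * n * i) y n ω) :
    hor (x - 2 * n) (x + 3 * n * K + 2 * n) (y + n) (y + 2 * n) ω := by
  induction K with
  | zero =>
    have h0 := (h 0 le_rfl).1
    simp only [Nat.cast_zero, mul_zero, add_zero] at h0 ⊢
    exact h0
  | succ K ih =>
    have h1 := ih (fun i hi => h i (hi.trans (Nat.le_succ K)))
    obtain ⟨h2, -, h3, -⟩ := h (K + 1) le_rfl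
    have hK : (0 : ℤ) ≤ 3 * n * (K : ℤ) := by positivity
    have e1 : x + 3 * n * ((K + 1 : ℕ) : ℤ) - 2 * n = x + 3 * n * (K : ℤ) + n := by
      push_cast; ring
    have e2 : x + 3 * n * ((K + 1 : ℕ) : ℤ) - n = x + 3 * n * (K : ℤ) + 2 * n := by
      push_cast; ring
    have e3 : x + 3 * n * ((K + 1 : ℕ) : ℤ) + 2 * n = x + 3 * n * (K : ℤ) + 5 * n := by
      push_cast; ring
    rw [e1, e3] at h2
    rw [e1, e2] at h3
    rw [e3]
    have h4 := ver_shrink (y0' := y + n) (y1' := y + 2 * n) (by omega) (by omega) le_rfl h3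
    exact hor_glue (by omega) (by omega) (by omega) (by omega) h1 h4 h2

private theorem c5_fkg (hq : 1 ≤ q) {c : ℝ} (hc0 : 0 ≤ c) (V : Finset (ℤ × ℤ)) (y n : ℤ) (f : ℕ → ℤ)
    (K : ℕ) (h : ∀ i ≤ K, c ≤ P q (edgesIn V) ∅ (An (f i) y n)) :
    c ^ (K + 1) ≤ P q (edgesIn V) ∅ (fun ω => ∀ i : ℕ, i ≤ K → An (f i) y n ω) := by
  have hq0 : 0 < q := by linarith
  induction K with
  | zero =>
    rw [zero_add, pow_one]
    refine (h 0 le_rfl).trans (P_mono hq0 fun ζ _ hA i hi => ?_)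
    obtain rfl : i = 0 := by omega
    exact hA
  | succ K ih =>
    have h1 := ih (fun i hi => h i (hi.trans (Nat.le_succ K)))
    have h2 := h (K + 1) le_rfl
    have hinc : Inc (fun ω : Finset (Sym2 (ℤ × ℤ)) => ∀ i : ℕ, i ≤ K → An (f i) y n ω) :=
      fun ω ω' hs hA i hi => c5_inc_An _ _ _ _ _ hs (hA i hi)
    have h3 := P_fkg (q := q) hq (NL_edgesIn V) (F := ∅) (fun e he => absurd he (notMem_empty e))
      hinc (c5_inc_An (f (K + 1)) y n)
    rw [pow_succ]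
    refine (mul_le_mul h1 h2 hc0 (P_nonneg hq0 _ _ _)).trans (h3.trans (P_mono hq0 fun ζ _ hA i hi => ?_))
    rcases Nat.lt_or_ge i (K + 1) with hi' | hi'
    · exact hA.1 i (Nat.lt_succ_iff.mp hi')
    · obtain rfl : i = K + 1 := by omega
      exact hA.2

theorem free_hor (hq : 1 ≤ q) (hq4 : q < 4) : ∃ c : ℝ, 0 < c ∧ c ≤ 1 ∧ ∀ (k : ℕ)
    (V : Finset (ℤ × ℤ)) (x y n : ℤ), 1 ≤ n →
    rect (x - 16 * n) (x + k * n + 16 * n) (y - 16 * n) (y + 16 * n) ⊆ V →
    c ^ (k + 1) ≤ P q (edgesIn V) ∅ (hor x (x + k * n) y (y + n)) := by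
  have hq0 : 0 < q := by linarith
  obtain ⟨c0, hc0, h0⟩ := uu_ge hq hq4
  have hcpos : 0 < min c0 1 := lt_min hc0 one_pos
  have hcle : min c0 1 ≤ 1 := min_le_right _ _
  refine ⟨min c0 1, hcpos, hcle, ?_⟩
  intro k V x y n hn hV
  obtain ⟨K, hK1, hK2⟩ : ∃ K : ℕ, 3 * K ≤ k ∧ k ≤ 3 * K + 2 := ⟨k / 3, by omega, by omega⟩
  have hK1' : 3 * (K : ℤ) ≤ k := by exact_mod_cast hK1
  have hK2' : (k : ℤ) ≤ 3 * K + 2 := by exact_mod_cast hK2
  have h1 : ∀ i ≤ K, min c0 1 ≤ P q (edgesIn V) ∅ (An (x + 3 * n * (i : ℤ)) (y - n) n) := by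
    intro i hi
    have hi' : (i : ℤ) ≤ K := by exact_mod_cast hi
    have hi0 : (0 : ℤ) ≤ i := by positivity
    refine (min_le_left _ _).trans ((h0 n hn).trans (An_le hq ?_))
    refine Subset.trans ?_ hV
    intro v hv
    unfold bxx at hv
    rw [mem_rect] at hv ⊢
    have h2 : 0 ≤ 3 * n * (i : ℤ) := by positivity
    have h3 : 3 * n * (i : ℤ) ≤ k * n := by nlinarith
    omega
  have h2 := c5_fkg hq hcpos.le V (y - n) n (fun i => x + 3 * n * (i : ℤ)) K h1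
  have h3 : min c0 1 ^ (k + 1) ≤ min c0 1 ^ (K + 1) :=
    pow_le_pow_of_le_one hcpos.le hcle (by omega)
  refine h3.trans (h2.trans (P_mono hq0 fun ζ _ hA => ?_))
  have h4 := hor_of_An hn K hA
  have e1 : y - n + n = y := by ring
  have e2 : y - n + 2 * n = y + n := by ring
  rw [e1, e2] at h4
  have h5 : (k : ℤ) * n ≤ 3 * n * K + 2 * n := by nlinarith
  have h6 : (0 : ℤ) ≤ k * n := by positivity
  exact Pool.Agent.H95.Perc.hor_shrink (by omega) (by omega) (by omega) h4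

/-- transport of free crossing probabilities by a lattice automorphism -/
private theorem c5_link_map (hq : 0 < q) {σ : (ℤ × ℤ) ≃ (ℤ × ℤ)} (hσ : Pool.Agent.H95.Perc.IsAut σ)
    (V R : Finset (ℤ × ℤ)) (A B : ℤ × ℤ → Prop) :
    P q (edgesIn (V.image σ)) ∅ (link (R.image σ) A B) =
      P q (edgesIn V) ∅ (link R (fun v => A (σ v)) (fun v => B (σ v))) := by
  have h1 := P_map (E := edgesIn V) (F := ∅) hq (NL_edgesIn V) (fun e he => absurd he (notMem_empty e))
    (f := σ) σ.injective.injOn (link (R.image σ) A B)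
  have e1 : img σ (edgesIn V) = edgesIn (V.image σ) := by
    rw [Pool.Agent.H95.Perc.edgesIn_image hσ]; rfl
  have e2 : img σ (∅ : Finset (Sym2 (ℤ × ℤ))) = ∅ := by
    unfold img; exact image_empty _
  rw [e1, e2] at h1
  rw [h1]
  apply P_congr
  intro ζ _
  exact Pool.Agent.H95.Perc.link_act hσ

theorem free_ver (hq : 1 ≤ q) (hq4 : q < 4) : ∃ c : ℝ, 0 < c ∧ c ≤ 1 ∧ ∀ (k : ℕ)
    (V : Finset (ℤ × ℤ)) (x y n : ℤ), 1 ≤ n →
    rect (x - 16 * n) (x + 16 * n) (y - 16 * n) (y + k * n + 16 * n) ⊆ V →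
    c ^ (k + 1) ≤ P q (edgesIn V) ∅ (ver x (x + n) y (y + k * n)) := by
  have hq0 : 0 < q := by linarith
  obtain ⟨c, hc0, hc1, h⟩ := free_hor hq hq4
  refine ⟨c, hc0, hc1, ?_⟩
  intro k V x y n hn hV
  have hsub : rect (y - 16 * n) (y + k * n + 16 * n) (x - 16 * n) (x + 16 * n) ⊆
      V.image Pool.Agent.H95.Perc.diag := by
    rw [← Pool.Agent.H95.Perc.rect_diag]
    exact image_subset_image hV
  have h1 := h k (V.image Pool.Agent.H95.Perc.diag) y x n hn hsub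
  have hmap := c5_link_map (q := q) hq0 Pool.Agent.H95.Perc.isAut_diag V
    (rect x (x + n) y (y + k * n)) (fun v => v.1 = y) (fun v => v.1 = y + k * n)
  rw [Pool.Agent.H95.Perc.rect_diag] at hmap
  exact h1.trans (le_of_eq hmap)

end Pool.Agent.FKR
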