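import Pool.Agent.FKR.Basic

/-! # FKR/Tol (MP_b3e76a_pr): insertion and deletion tolerance

For `e ∈ E \ F` and a configuration `ω = ζ ∪ F` without `e`: `W (insert e ω)` is `√q * W ω` or `W ω / √q`
(`W_insert_of_reach`, `W_insert_of_not_reach`), so both `W ω ≤ √q * W (insert e ω)` and
`W (insert e ω) ≤ √q * W ω` (`1 ≤ q`). Hence `P A = P(A, e ∈ ω) + P(A, e ∉ ω)`,
`P(A, e ∈ ω) ≤ P(B)` as `insert e ω = ω`, and `P(A, e ∉ ω) ≤ √q P(B)` by the injection
`ω ↦ insert e ω` (see `Wedge.PP_edge`). If `e ∈ F` the statements are trivial for insertion.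
The versions for a set `S` of edges are by induction on `S`. -/

namespace Pool.Agent.FKR

open Finset
open Pool.Agent.H95.Wedge (openGraph W Good selfDual)
open Pool.Agent.H95.Susc (fil ws Lat)
open Pool.Agent.H95.Perc (Inc)

section
variable {α : Type*} [DecidableEq α] {q : ℝ} {E F : Finset (Sym2 α)}

/-- both comparisons of the weights with and without the edge `e` -/
private lemma wt_insert (hq : 1 ≤ q) (hE : NL E) (hF : NL F) {e : Sym2 α} (he : e ∈ E) (heF : e ∉ F)
    {ζ : Finset (Sym2 α)} (heζ : e ∉ ζ) :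
    wt q E F ζ ≤ √q * wt q E F (insert e ζ) ∧ wt q E F (insert e ζ) ≤ √q * wt q E F ζ := by
  have hq0 : 0 < q := by linarith
  have hs1 : 1 ≤ √q := Real.one_le_sqrt.mpr hq
  have hgood : Good (vts (E ∪ F)) (E ∪ F) := good_of_NL (NL.union hE hF) (Subset.refl _)
  unfold wt
  rw [insert_union]
  have hea : e ∉ ζ ∪ F := by
    rw [mem_union, not_or]; exact ⟨heζ, heF⟩
  generalize vts (E ∪ F) = V at hgood ⊢
  generalize ζ ∪ F = a at hea ⊢
  induction e with
  | _ x y =>
    obtain ⟨hx, hy, hne⟩ := hgood x y (mem_union_left _ he)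
    have pa := Pool.Agent.H95.Wedge.W_pos hq0 V a
    have pa' := Pool.Agent.H95.Wedge.W_pos hq0 V (insert s(x, y) a)
    have h11 : 1 ≤ √q * √q := by nlinarith
    by_cases h1 : (openGraph a).Reachable x y
    · rw [Pool.Agent.H95.Wedge.W_insert_of_reach hq0 hne hea h1]
      refine ⟨?_, le_refl _⟩
      nlinarith
    · have e1 := Pool.Agent.H95.Wedge.W_insert_of_not_reach (V := V) hq0 hne hx hy hea h1
      rw [e1]
      refine ⟨le_refl _, ?_⟩
      nlinarith

private lemma ws_pos' (hq : 0 < q) : 0 < ws (wt q E F) E (fun _ => True) := by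
  unfold ws
  exact sum_pos (fun ω _ => wt_pos hq E F ω) ⟨∅, by rw [Pool.Agent.H95.Susc.mem_fil]; simp⟩

theorem P_insert (hq : 1 ≤ q) (hE : NL E) (hF : NL F) {e : Sym2 α} (he : e ∈ E ∪ F)
    {A B : Finset (Sym2 α) → Prop} (h : ∀ ω, A ω → B (insert e ω)) :
    P q E F A ≤ (1 + √q) * P q E F B := by
  have hq0 : 0 < q := by linarith
  have hs1 : 1 ≤ √q := Real.one_le_sqrt.mpr hq
  have hPB := P_nonneg hq0 E F B
  by_cases heF : e ∈ F
  · have h1 : P q E F A ≤ P q E F B := by
      apply P_mono hq0
      intro ζ _ hA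
      have := h _ hA
      rwa [insert_eq_of_mem (mem_union_right _ heF)] at this
    nlinarith
  · have heE : e ∈ E := by
      rcases mem_union.mp he with h1 | h1
      · exact h1
      · exact absurd h1 heF
    have h1 : P q E F (fun ω => A ω ∧ e ∈ ω) ≤ P q E F B := by
      apply P_mono hq0
      intro ζ _ hA
      have := h _ hA.1
      rwa [insert_eq_of_mem hA.2] at this
    have h2 : P q E F (fun ω => A ω ∧ ¬ e ∈ ω) ≤ √q * P q E F B := by
      unfold P
      rw [← mul_div_assoc]
      apply div_le_div_of_nonneg_right _ (ws_pos' hq0).le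
      unfold ws
      rw [mul_sum]
      calc ∑ ω ∈ fil E (fun ζ => A (ζ ∪ F) ∧ ¬ e ∈ ζ ∪ F), wt q E F ω
          ≤ ∑ ω ∈ fil E (fun ζ => A (ζ ∪ F) ∧ ¬ e ∈ ζ ∪ F), √q * wt q E F (insert e ω) := by
            apply sum_le_sum
            intro ω hω
            rw [Pool.Agent.H95.Susc.mem_fil] at hω
            exact (wt_insert hq hE hF heE heF
              (fun h' => hω.2.2 (mem_union_left _ h'))).1
        _ = ∑ ω ∈ (fil E (fun ζ => A (ζ ∪ F) ∧ ¬ e ∈ ζ ∪ F)).image (insert e), √q * wt q E F ω := by
            rw [sum_image]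
            intro a ha b hb hab
            rw [mem_coe, Pool.Agent.H95.Susc.mem_fil] at ha hb
            have ha' : e ∉ a := fun h' => ha.2.2 (mem_union_left _ h')
            have hb' : e ∉ b := fun h' => hb.2.2 (mem_union_left _ h')
            rw [← erase_insert ha', ← erase_insert hb', hab]
        _ ≤ _ := by
            apply sum_le_sum_of_subset_of_nonneg
            · intro ω hω
              rw [mem_image] at hω
              obtain ⟨a, ha, rfl⟩ := hω
              rw [Pool.Agent.H95.Susc.mem_fil] at ha ⊢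
              refine ⟨insert_subset heE ha.1, ?_⟩
              rw [insert_union]
              exact h _ ha.2.1
            · intro ω _ _
              exact mul_nonneg (Real.sqrt_nonneg _) (wt_pos hq0 E F ω).le
    rw [P_split hq0 E F A (fun ω => e ∈ ω)]
    nlinarith

theorem P_erase (hq : 1 ≤ q) (hE : NL E) (hF : NL F) {e : Sym2 α} (he : e ∉ F)
    {A B : Finset (Sym2 α) → Prop} (h : ∀ ω, A ω → B (ω.erase e)) :
    P q E F A ≤ (1 + √q) * P q E F B := by
  have hq0 : 0 < q := by linarith
  have hs1 : 1 ≤ √q := Real.one_le_sqrt.mpr hq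
  have hPB := P_nonneg hq0 E F B
  by_cases heE : e ∈ E
  · have h1 : P q E F (fun ω => A ω ∧ ¬ e ∈ ω) ≤ P q E F B := by
      apply P_mono hq0
      intro ζ _ hA
      have := h _ hA.1
      rwa [erase_eq_of_notMem hA.2] at this
    have h2 : P q E F (fun ω => A ω ∧ e ∈ ω) ≤ √q * P q E F B := by
      unfold P
      rw [← mul_div_assoc]
      apply div_le_div_of_nonneg_right _ (ws_pos' hq0).le
      unfold ws
      rw [mul_sum]
      have hmem : ∀ ω ∈ fil E (fun ζ => A (ζ ∪ F) ∧ e ∈ ζ ∪ F), e ∈ ω := by
        intro ω hω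
        rw [Pool.Agent.H95.Susc.mem_fil] at hω
        rcases mem_union.mp hω.2.2 with h' | h'
        · exact h'
        · exact absurd h' he
      calc ∑ ω ∈ fil E (fun ζ => A (ζ ∪ F) ∧ e ∈ ζ ∪ F), wt q E F ω
          ≤ ∑ ω ∈ fil E (fun ζ => A (ζ ∪ F) ∧ e ∈ ζ ∪ F), √q * wt q E F (ω.erase e) := by
            apply sum_le_sum
            intro ω hω
            have h3 := (wt_insert hq hE hF heE he (ζ := ω.erase e) (notMem_erase e ω)).2
            rwa [insert_erase (hmem ω hω)] at h3
        _ = ∑ ω ∈ (fil E (fun ζ => A (ζ ∪ F) ∧ e ∈ ζ ∪ F)).image (fun ω => ω.erase e),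
              √q * wt q E F ω := by
            rw [sum_image]
            intro a ha b hb hab
            have ha' := hmem a (mem_coe.mp ha)
            have hb' := hmem b (mem_coe.mp hb)
            have hab' : a.erase e = b.erase e := hab
            rw [← insert_erase ha', ← insert_erase hb', hab']
        _ ≤ _ := by
            apply sum_le_sum_of_subset_of_nonneg
            · intro ω hω
              rw [mem_image] at hω
              obtain ⟨a, ha, rfl⟩ := hω
              rw [Pool.Agent.H95.Susc.mem_fil] at ha ⊢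
              refine ⟨(erase_subset _ _).trans ha.1, ?_⟩
              have e1 : a.erase e ∪ F = (a ∪ F).erase e := by
                rw [erase_union_distrib, erase_eq_of_notMem he]
              rw [e1]
              exact h _ ha.2.1
            · intro ω _ _
              exact mul_nonneg (Real.sqrt_nonneg _) (wt_pos hq0 E F ω).le
    rw [P_split hq0 E F A (fun ω => e ∈ ω)]
    nlinarith
  · have h1 : P q E F A ≤ P q E F B := by
      apply P_mono hq0
      intro ζ hζ hA
      have := h _ hA
      rwa [erase_eq_of_notMem (by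
        rw [mem_union, not_or]; exact ⟨fun h' => heE (hζ h'), he⟩)] at this
    nlinarith

theorem P_insert_set (hq : 1 ≤ q) (hE : NL E) (hF : NL F) {S : Finset (Sym2 α)} (hS : S ⊆ E ∪ F)
    {A B : Finset (Sym2 α) → Prop} (h : ∀ ω, A ω → B (ω ∪ S)) :
    P q E F A ≤ (1 + √q) ^ #S * P q E F B := by
  have hq0 : 0 < q := by linarith
  induction S using Finset.induction_on generalizing B with
  | empty =>
    rw [card_empty, pow_zero, one_mul]
    apply P_mono hq0
    intro ζ _ hA
    have := h _ hA
    rwa [union_empty] at this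
  | insert e S heS ih =>
    have h1 := ih (fun x hx => hS (mem_insert_of_mem hx)) (B := fun ω => B (insert e ω)) (by
      intro ω hA
      have := h _ hA
      rwa [union_insert] at this)
    have h2 : P q E F (fun ω => B (insert e ω)) ≤ (1 + √q) * P q E F B :=
      P_insert hq hE hF (hS (mem_insert_self _ _)) (fun ω hω => hω)
    rw [card_insert_of_notMem heS, pow_succ]
    have hpos : 0 ≤ (1 + √q) ^ #S := by positivity
    calc P q E F A ≤ (1 + √q) ^ #S * P q E F (fun ω => B (insert e ω)) := h1
      _ ≤ (1 + √q) ^ #S * ((1 + √q) * P q E F B) := mul_le_mul_of_nonneg_left h2 hpos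
      _ = _ := by ring

theorem P_erase_set (hq : 1 ≤ q) (hE : NL E) (hF : NL F) {S : Finset (Sym2 α)} (hS : Disjoint S F)
    {A B : Finset (Sym2 α) → Prop} (h : ∀ ω, A ω → B (ω \ S)) :
    P q E F A ≤ (1 + √q) ^ #S * P q E F B := by
  have hq0 : 0 < q := by linarith
  induction S using Finset.induction_on generalizing B with
  | empty =>
    rw [card_empty, pow_zero, one_mul]
    apply P_mono hq0
    intro ζ _ hA
    have := h _ hA
    rwa [sdiff_empty] at this
  | insert e S heS ih =>
    rw [disjoint_insert_left] at hS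
    have h1 := ih hS.2 (B := fun ω => B (ω.erase e)) (by
      intro ω hA
      have := h _ hA
      rwa [sdiff_insert] at this)
    have h2 : P q E F (fun ω => B (ω.erase e)) ≤ (1 + √q) * P q E F B :=
      P_erase hq hE hF hS.1 (fun ω hω => hω)
    rw [card_insert_of_notMem heS, pow_succ]
    have hpos : 0 ≤ (1 + √q) ^ #S := by positivity
    calc P q E F A ≤ (1 + √q) ^ #S * P q E F (fun ω => B (ω.erase e)) := h1
      _ ≤ (1 + √q) ^ #S * ((1 + √q) * P q E F B) := mul_le_mul_of_nonneg_left h2 hpos
      _ = _ := by ring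

end

end Pool.Agent.FKR
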