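import Pool.Agent.FKR.C5
import Pool.Agent.FKR.RectDual
import Pool.Agent.FKR.Topo
import Pool.Agent.FKR.PE
import Pool.Agent.FKR.Tol
import Pool.Agent.FKR.Chain

/-! # FKR/C6 (MP_b3e76a_pr): isolation of a box inside a wired box, `1 ≤ q < 4`

`O = rect (x - 4n + 1) (x + 4n - 1) (y - 4n + 1) (y + 4n - 1)` is the open box of radius `4 n`; no frozen edge has an end in `O`.
`nver_wired`, `nhor_wired` (worst boundary conditions outside of `O`). Let `R = rect (x - 4n + 1) (x + 4n) (y - 4n + 1) (y + 4n)`,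
`E0 = (edgesIn R).image star`, `rg = ring` of `R`, `E0 ∪ rg = edgesIn (rect (x - 4n) (x + 4n) (y - 4n) (y + 4n)) = edgesIn B` (`star_union_ring`), `rg` = the edges on
the boundary of `B`. (1) `rect_dual` (`E = edgesIn R`, `F = ∅`) and `hor_iff_star`:
`P q E0 rg (¬ ver x0 (x1 - 1) (y0 - 1) y1) = P q (edgesIn R) ∅ (hor x0 x1 y0 y1)`, bounded below by hypothesis.
(2) `P q E0 G A ≤ P q E F A` with `G = edgesIn (V ∪ B) \ E0`, `A` the non-crossing event: `P_anti_EF` (`F ⊆ G`: an edge of `F` in `E0` would have an end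
in `O`, since every edge of `E0` has an end in `O`).
(3) `P q E0 rg A ≤ P q E0 G A` by `P_ge`: vertices in `O` are not ends of edges of `G`; vertices of the boundary of `B` are
connected in `rg` (`ring_connected`); the rectangle of `A` is contained in `B` and `G ∩ edgesIn B = rg`.
`sep_four` (deterministic): if a vertex of `bxx x y n` is connected to a vertex outside `bxx x y (3 n)` then, by `Cn_exit`-type cutting at the
first vertex outside and `ver_of_conn` (for the four sides; add the last edge or use rows up to `3 n`), one of the four rectangles is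
crossed.
`wired_box`: `n ≥ 32`: `w = n / 32`; the four events are `¬ ver (x - 3n) (x + 3n) (y + 2n - 1) (y + 2n + w)`, `¬ ver (x - 3n) (x + 3n) (y - 2n - w - 1) (y - 2n)` and their
transposes; the primal crossings are `hor (x - 3n) (x + 3n + 1) (y + 2n) (y + 2n + w)` etc., contained in crossings of length `k w`,
`6 n + 1 ≤ k w ≤ 6 n + 1 + w`, `k ≤ 400`, and `free_hor` applies with `V = R` (`3 n + 1 + 17 w ≤ 4 n`). FKG (`P_fkg_dcr`).
`1 ≤ n < 32`: `P_erase_set` with `A = True`, `S = edgesIn (bxx x y (3 n))`, at most `2 * 193 ^ 2` edges. -/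

namespace Pool.Agent.FKR

open Finset
open Pool.Agent.H95.Perc (Inc conn link rect hor ver eh ev sumE sepE Inci mem_rect)
open Pool.Agent.H95.SumRule (edgesIn Z2)

variable {q : ℝ} {x y n x0 x1 y0 y1 : ℤ} {V : Finset (ℤ × ℤ)} {E F : Finset (Sym2 (ℤ × ℤ))}

private theorem c6_nver_dcr (a b c d : ℤ) : Dcr (fun ω => ¬ ver a b c d ω) :=
  fun _ _ h h1 h2 => h1 (Pool.Agent.H95.Perc.inc_ver a b c d _ _ h h2)

private theorem c6_nhor_dcr (a b c d : ℤ) : Dcr (fun ω => ¬ hor a b c d ω) :=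
  fun _ _ h h1 h2 => h1 (Pool.Agent.H95.Perc.inc_hor a b c d _ _ h h2)

/-- an edge of the image of `star` has an end in the open box -/
private theorem c6_end (_hn : 1 ≤ n) {e : Sym2 (ℤ × ℤ)}
    (he : e ∈ (edgesIn (rect (x - 4 * n + 1) (x + 4 * n) (y - 4 * n + 1) (y + 4 * n))).image star) :
    ∃ v ∈ e, v ∈ rect (x - 4 * n + 1) (x + 4 * n - 1) (y - 4 * n + 1) (y + 4 * n - 1) := by
  obtain ⟨e', he', rfl⟩ := mem_image.1 he
  obtain ⟨a, b, rfl | rfl⟩ := edgesIn_cases he'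
  · rw [eh_mem_edgesIn_rect] at he'
    rw [star_eh]
    by_cases hb : b = y + 4 * n
    · refine ⟨(a, b - 1), mem_ev.2 (Or.inl rfl), ?_⟩
      rw [mem_rect]; simp only; omega
    · refine ⟨(a, b), mem_ev.2 (Or.inr (by simp)), ?_⟩
      rw [mem_rect]; simp only; omega
  · rw [ev_mem_edgesIn_rect] at he'
    rw [star_ev]
    by_cases ha : a = x + 4 * n
    · refine ⟨(a - 1, b), mem_eh.2 (Or.inl rfl), ?_⟩
      rw [mem_rect]; simp only; omega
    · refine ⟨(a, b), mem_eh.2 (Or.inr (by simp)), ?_⟩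
      rw [mem_rect]; simp only; omega

private theorem c6_gen (hq : 1 ≤ q) (hn : 1 ≤ n) (hE : E ⊆ edgesIn V) (hF : F ⊆ edgesIn V)
    (hF' : ∀ e ∈ F, ∀ v ∈ e, v ∉ rect (x - 4 * n + 1) (x + 4 * n - 1) (y - 4 * n + 1) (y + 4 * n - 1))
    {A : Finset (Sym2 (ℤ × ℤ)) → Prop} (hA : Dcr A)
    (hA' : ∀ ω ω', ω ∩ edgesIn (rect (x - 4 * n) (x + 4 * n) (y - 4 * n) (y + 4 * n)) =
      ω' ∩ edgesIn (rect (x - 4 * n) (x + 4 * n) (y - 4 * n) (y + 4 * n)) → A ω → A ω') :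
    P q (edgesIn (rect (x - 4 * n + 1) (x + 4 * n) (y - 4 * n + 1) (y + 4 * n))) ∅
      (fun ω => A ((edgesIn (rect (x - 4 * n + 1) (x + 4 * n) (y - 4 * n + 1) (y + 4 * n)) \ ω).image
        star ∪ ring (x - 4 * n + 1) (x + 4 * n) (y - 4 * n + 1) (y + 4 * n))) ≤ P q E F A := by
  have hq0 : 0 < q := by linarith
  set R := rect (x - 4 * n + 1) (x + 4 * n) (y - 4 * n + 1) (y + 4 * n) with hR
  set rg := ring (x - 4 * n + 1) (x + 4 * n) (y - 4 * n + 1) (y + 4 * n) with hrg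
  set B := rect (x - 4 * n) (x + 4 * n) (y - 4 * n) (y + 4 * n) with hB
  set E0 := (edgesIn R).image star with hE0
  have hx' : x - 4 * n + 1 < x + 4 * n := by omega
  have hy' : y - 4 * n + 1 < y + 4 * n := by omega
  have h1 := rect_dual hq0 hx' hy' (E := edgesIn R) (F := ∅) (subset_refl _) (empty_subset _)
    (disjoint_empty_right _) A
  have h2 : (edgesIn R \ (edgesIn R ∪ ∅)).image star ∪ rg = rg := by
    simp
  rw [h1, h2]
  have hsr : E0 ∪ rg = edgesIn B := by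
    rw [hE0, hrg, star_union_ring]
    congr 2 <;> ring
  have hNLB : NL (edgesIn B) := NL_edgesIn B
  have hNLE0 : NL E0 := hNLB.mono (by rw [← hsr]; exact subset_union_left)
  have hNLrg : NL rg := hNLB.mono (by rw [← hsr]; exact subset_union_right)
  set G := edgesIn (V ∪ B) \ E0 with hG
  have hNLG : NL G := (NL_edgesIn (V ∪ B)).mono sdiff_subset
  have hstep2 : P q E0 G A ≤ P q E F A := by
    refine P_anti_EF hq hNLE0 hNLG ?_ ?_ hA
    · intro e he
      rw [hG, mem_union, mem_sdiff]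
      have := Pool.Agent.H95.Perc.edgesIn_mono (subset_union_left : V ⊆ V ∪ B) (hE he)
      tauto
    · intro e he
      rw [hG, mem_sdiff]
      refine ⟨Pool.Agent.H95.Perc.edgesIn_mono (subset_union_left : V ⊆ V ∪ B) (hF he), ?_⟩
      intro he0
      obtain ⟨v, hv, hvO⟩ := c6_end hn he0
      exact hF' e he v hv hvO
  refine le_trans ?_ hstep2
  have hGB : ∀ e ∈ edgesIn B, e ∈ G ↔ e ∈ rg := by
    intro e he
    have h3 : e ∈ rg ↔ e ∉ E0 := by
      have h4 : rg = edgesIn B \ E0 := by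
        rw [hrg, ring, hE0, hR, hB]
        congr 3 <;> ring
      rw [h4, mem_sdiff]
      tauto
    rw [h3, hG, mem_sdiff]
    have := Pool.Agent.H95.Perc.edgesIn_mono (subset_union_right : B ⊆ V ∪ B) he
    tauto
  have hvB : ∀ v ∈ vts E0, v ∈ B := by
    intro v hv
    have h3 : v ∈ vts (edgesIn B) := vts_mono (by rw [← hsr]; exact subset_union_left) hv
    exact vts_edgesIn B h3
  have hRg : ∀ v ∈ B, v ∉ rect (x - 4 * n + 1) (x + 4 * n - 1) (y - 4 * n + 1) (y + 4 * n - 1) →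
      Rg (x - 4 * n + 1) (x + 4 * n) (y - 4 * n + 1) (y + 4 * n) v := by
    intro v hv hv'
    rw [hB, mem_rect] at hv
    rw [mem_rect] at hv'
    refine ⟨?_, ?_⟩
    · rw [mem_rect]; omega
    · omega
  have hGO : ∀ v ∈ rect (x - 4 * n + 1) (x + 4 * n - 1) (y - 4 * n + 1) (y + 4 * n - 1),
      v ∉ vts G := by
    intro v hv hvG
    obtain ⟨e, he, hve⟩ := mem_vts.1 hvG
    obtain ⟨w, rfl⟩ := Sym2.mem_iff_exists.1 hve
    have he1 := (mem_sdiff.1 he).1
    rw [Pool.Agent.H95.Perc.mem_edgesIn'] at he1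
    have hadj := he1.2.2
    obtain ⟨a, b⟩ := v
    obtain ⟨c, d⟩ := w
    rw [Z2_adj_iff] at hadj
    rw [mem_rect] at hv
    simp only at hv
    have he2 : s((a, b), (c, d)) ∈ edgesIn B := by
      rw [Pool.Agent.H95.Perc.mem_edgesIn', hB, mem_rect, mem_rect]
      refine ⟨by simp only; omega, by simp only; omega, he1.2.2⟩
    have he3 := (hGB _ he2).1 he
    rw [hrg, mem_ring hx' hy'] at he3
    have h5 := he3.1.2
    simp only at h5
    omega
  refine P_ge hq hNLE0 hNLG hNLE0 hNLrg subset_union_left ?_ hA hA ?_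
  · intro u hu v hv hc
    by_cases huv : u = v
    · rw [huv]; exact Cn_refl _ _
    · obtain ⟨h3, h4⟩ := hc.mem_vts huv
      have hu' := hRg u (hvB u hu) (fun h => hGO u h h3)
      have hv' := hRg v (hvB v hv) (fun h => hGO v h h4)
      exact ring_connected hx' hy' hu' hv'
  · intro ζ _ hζ
    refine hA' _ _ ?_ hζ
    ext e
    simp only [mem_inter, mem_union]
    constructor
    · rintro ⟨h3 | h3, h4⟩
      · exact ⟨Or.inl h3, h4⟩
      · exact ⟨Or.inr ((hGB e h4).2 h3), h4⟩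
    · rintro ⟨h3 | h3, h4⟩
      · exact ⟨Or.inl h3, h4⟩
      · exact ⟨Or.inr ((hGB e h4).1 h3), h4⟩

private theorem c6_star {x0' x1' y0' y1' : ℤ} {ω : Finset (Sym2 (ℤ × ℤ))} {e : Sym2 (ℤ × ℤ)}
    (he : e ∈ edgesIn (rect x0' x1' y0' y1')) :
    e ∈ ω ∩ edgesIn (rect x0' x1' y0' y1') ↔ star e ∉
      (edgesIn (rect x0' x1' y0' y1') \ ω).image star ∪ ring x0' x1' y0' y1' := by
  have h1 : star e ∉ ring x0' x1' y0' y1' := by
    rw [ring, mem_sdiff]
    intro h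
    exact h.2 (mem_image_of_mem _ he)
  rw [mem_union, mem_inter, not_or]
  constructor
  · intro h2
    refine ⟨?_, h1⟩
    intro h3
    obtain ⟨e', he', he''⟩ := mem_image.1 h3
    have h4 := star_injOn (rect x0' x1' y0' y1') (mem_sdiff.1 he').1 he he''
    rw [h4] at he'
    exact (mem_sdiff.1 he').2 h2.1
  · rintro ⟨h2, -⟩
    refine ⟨?_, he⟩
    by_contra h3
    exact h2 (mem_image_of_mem _ (mem_sdiff.2 ⟨he, h3⟩))

private theorem c6_dep {A : Finset (Sym2 (ℤ × ℤ)) → Prop} {S S' : Finset (Sym2 (ℤ × ℤ))}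
    (h : Pool.Agent.H95.Perc.Dep S A) (hS : S ⊆ S') (ω ω' : Finset (Sym2 (ℤ × ℤ)))
    (h' : ω ∩ S' = ω' ∩ S') : A ω ↔ A ω' := by
  have h1 := h.mono hS
  rw [h1 ω, h1 ω', h']

theorem nver_wired (hq : 1 ≤ q) (hn : 1 ≤ n) (hE : E ⊆ edgesIn V) (hF : F ⊆ edgesIn V)
    (hF' : ∀ e ∈ F, ∀ v ∈ e, v ∉ rect (x - 4 * n + 1) (x + 4 * n - 1) (y - 4 * n + 1) (y + 4 * n - 1))
    (h1 : x - 4 * n + 1 ≤ x0) (h2 : x0 < x1) (h3 : x1 ≤ x + 4 * n) (h4 : y - 4 * n + 1 ≤ y0)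
    (h5 : y0 ≤ y1) (h6 : y1 ≤ y + 4 * n) :
    P q (edgesIn (rect (x - 4 * n + 1) (x + 4 * n) (y - 4 * n + 1) (y + 4 * n))) ∅ (hor x0 x1 y0 y1) ≤
      P q E F (fun ω => ¬ ver x0 (x1 - 1) (y0 - 1) y1 ω) := by
  refine le_trans (le_of_eq ?_) (c6_gen hq hn hE hF hF' (c6_nver_dcr x0 (x1 - 1) (y0 - 1) y1) ?_)
  · refine P_congr ?_
    intro ζ hζ
    rw [union_empty]
    apply hor_iff_star h2 h5
    intro e he _
    have he' : e ∈ edgesIn (rect (x - 4 * n + 1) (x + 4 * n) (y - 4 * n + 1) (y + 4 * n)) :=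
      Pool.Agent.H95.Perc.edgesIn_mono
        (Pool.Agent.H95.Perc.rect_mono (by omega) (by omega) (by omega) (by omega)) he
    rw [← c6_star he', mem_inter]
    exact ⟨fun h => ⟨h, he'⟩, fun h => h.1⟩
  · intro ω ω' h h'
    exact fun hv => h' ((c6_dep (A := ver x0 (x1 - 1) (y0 - 1) y1)
      (Pool.Agent.H95.Perc.dep_link _ _ _) (Pool.Agent.H95.Perc.edgesIn_mono
        (Pool.Agent.H95.Perc.rect_mono (by omega) (by omega) (by omega) (by omega))) ω ω' h).2 hv)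

theorem nhor_wired (hq : 1 ≤ q) (hn : 1 ≤ n) (hE : E ⊆ edgesIn V) (hF : F ⊆ edgesIn V)
    (hF' : ∀ e ∈ F, ∀ v ∈ e, v ∉ rect (x - 4 * n + 1) (x + 4 * n - 1) (y - 4 * n + 1) (y + 4 * n - 1))
    (h1 : x - 4 * n + 1 ≤ x0) (h2 : x0 ≤ x1) (h3 : x1 ≤ x + 4 * n) (h4 : y - 4 * n + 1 ≤ y0)
    (h5 : y0 < y1) (h6 : y1 ≤ y + 4 * n) :
    P q (edgesIn (rect (x - 4 * n + 1) (x + 4 * n) (y - 4 * n + 1) (y + 4 * n))) ∅ (ver x0 x1 y0 y1) ≤
      P q E F (fun ω => ¬ hor (x0 - 1) x1 y0 (y1 - 1) ω) := by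
  refine le_trans (le_of_eq ?_) (c6_gen hq hn hE hF hF' (c6_nhor_dcr (x0 - 1) x1 y0 (y1 - 1)) ?_)
  · refine P_congr ?_
    intro ζ hζ
    rw [union_empty]
    apply ver_iff_star h2 h5
    intro e he _
    have he' : e ∈ edgesIn (rect (x - 4 * n + 1) (x + 4 * n) (y - 4 * n + 1) (y + 4 * n)) :=
      Pool.Agent.H95.Perc.edgesIn_mono
        (Pool.Agent.H95.Perc.rect_mono (by omega) (by omega) (by omega) (by omega)) he
    rw [← c6_star he', mem_inter]
    exact ⟨fun h => ⟨h, he'⟩, fun h => h.1⟩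
  · intro ω ω' h h'
    exact fun hv => h' ((c6_dep (A := hor (x0 - 1) x1 y0 (y1 - 1))
      (Pool.Agent.H95.Perc.dep_link _ _ _) (Pool.Agent.H95.Perc.edgesIn_mono
        (Pool.Agent.H95.Perc.rect_mono (by omega) (by omega) (by omega) (by omega))) ω ω' h).2 hv)

private theorem c6_hor_of_conn {x0 x1 y0 y1 X0 X1 : ℤ} (h01 : x0 ≤ x1) {ω : Finset (Sym2 (ℤ × ℤ))}
    {u v : ℤ × ℤ} (hu : u ∈ rect X0 X1 y0 y1) (hu' : u.1 ≤ x0) (hv' : x1 ≤ v.1)
    (h : conn (rect X0 X1 y0 y1) ω u v) : hor x0 x1 y0 y1 ω := by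
  have h1 := (Pool.Agent.H95.Perc.conn_act Pool.Agent.H95.Perc.isAut_diag).2 h
  rw [Pool.Agent.H95.Perc.rect_diag] at h1
  have h2 : ver y0 y1 x0 x1 (Pool.Agent.H95.Perc.act Pool.Agent.H95.Perc.diag ω) := by
    refine ver_of_conn h01 (Y0 := X0) (Y1 := X1) ?_ ?_ ?_ h1
    · rw [mem_rect] at hu ⊢
      simp only [Pool.Agent.H95.Perc.diag, Equiv.coe_fn_mk]
      omega
    · simpa [Pool.Agent.H95.Perc.diag] using hu'
    · simpa [Pool.Agent.H95.Perc.diag] using hv'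
  have h3 : link ((rect x0 x1 y0 y1).image Pool.Agent.H95.Perc.diag) (fun v => v.2 = x0)
      (fun v => v.2 = x1) (Pool.Agent.H95.Perc.act Pool.Agent.H95.Perc.diag ω) := by
    rw [Pool.Agent.H95.Perc.rect_diag]
    exact h2
  exact (Pool.Agent.H95.Perc.link_act Pool.Agent.H95.Perc.isAut_diag).1 h3

theorem sep_four {w : ℤ} (hw : 0 ≤ w) (hwn : w ≤ n) {ω : Finset (Sym2 (ℤ × ℤ))} (hω : ω ⊆ edgesIn V)
    (hn : 1 ≤ n)
    (h1 : ¬ ver (x - 3 * n) (x + 3 * n) (y + 2 * n - 1) (y + 2 * n + w) ω)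
    (h2 : ¬ ver (x - 3 * n) (x + 3 * n) (y - 2 * n - w - 1) (y - 2 * n) ω)
    (h3 : ¬ hor (x + 2 * n - 1) (x + 2 * n + w) (y - 3 * n) (y + 3 * n) ω)
    (h4 : ¬ hor (x - 2 * n - w - 1) (x - 2 * n) (y - 3 * n) (y + 3 * n) ω) :
    ∀ v ∈ bxx x y n, ¬ Reach (fun w => w ∉ bxx x y (3 * n)) ω v := by
  classical
  rintro v hv ⟨s, hs, hc⟩
  have hv' := hv
  rw [bxx, mem_rect] at hv'
  have hvB : v ∈ bxx x y (3 * n) := by
    rw [bxx, mem_rect]; omega
  obtain ⟨a, b, hab, ha, hb, hva⟩ := Cn_exit hc.symm (B := fun u => u ∈ bxx x y (3 * n)) hvB hs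
  have hconn : conn (bxx x y (3 * n)) ω v a := by
    refine hva.mono ?_
    intro e he
    rw [mem_filter] at he
    rw [mem_inter]
    refine ⟨he.1, ?_⟩
    induction e with
    | _ p r =>
      have h5 := hω he.1
      rw [Pool.Agent.H95.Perc.mem_edgesIn'] at h5 ⊢
      exact ⟨he.2 p (Sym2.mem_mk_left _ _), he.2 r (Sym2.mem_mk_right _ _), h5.2.2⟩
  have hadj := hω hab
  rw [Pool.Agent.H95.Perc.mem_edgesIn'] at hadj
  have hadj' := hadj.2.2
  obtain ⟨a1, a2⟩ := a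
  obtain ⟨b1, b2⟩ := b
  rw [Z2_adj_iff] at hadj'
  have ha' := ha
  rw [bxx, mem_rect] at ha' hb
  simp only at ha' hb
  -- connection of `v` and `b` in a larger rectangle
  have key : ∀ X0 X1 Y0 Y1 : ℤ, X0 ≤ x - 3 * n → x + 3 * n ≤ X1 → Y0 ≤ y - 3 * n →
      y + 3 * n ≤ Y1 → (b1, b2) ∈ rect X0 X1 Y0 Y1 → conn (rect X0 X1 Y0 Y1) ω v (b1, b2) := by
    intro X0 X1 Y0 Y1 hX0 hX1 hY0 hY1 hbR
    refine (hconn.mono ?_ (subset_refl _)).trans ?_
    · exact Pool.Agent.H95.Perc.rect_mono hX0 hX1 hY0 hY1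
    · refine Pool.Agent.H95.Perc.conn_step ?_ hbR hadj.2.2 hab
      rw [mem_rect]; simp only; omega
  have hcase : b2 = y + 3 * n + 1 ∨ b2 = y - 3 * n - 1 ∨ b1 = x + 3 * n + 1 ∨ b1 = x - 3 * n - 1 := by
    omega
  rcases hcase with h | h | h | h
  · refine h1 (ver_of_conn (by omega) (Y0 := y - 3 * n) (Y1 := y + 3 * n + 1) (u := v) (v := (b1, b2))
      ?_ ?_ ?_ (key _ _ _ _ le_rfl le_rfl le_rfl (by omega) ?_))
    · rw [mem_rect]; omega
    · omega
    · simp only; omega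
    · rw [mem_rect]; simp only; omega
  · refine h2 (ver_of_conn (by omega) (Y0 := y - 3 * n - 1) (Y1 := y + 3 * n) (u := (b1, b2)) (v := v)
      ?_ ?_ ?_ (key _ _ _ _ le_rfl le_rfl (by omega) le_rfl ?_).symm)
    · rw [mem_rect]; simp only; omega
    · simp only; omega
    · omega
    · rw [mem_rect]; simp only; omega
  · refine h3 (c6_hor_of_conn (by omega) (X0 := x - 3 * n) (X1 := x + 3 * n + 1) (u := v)
      (v := (b1, b2)) ?_ ?_ ?_ (key _ _ _ _ le_rfl (by omega) le_rfl le_rfl ?_))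
    · rw [mem_rect]; omega
    · omega
    · simp only; omega
    · rw [mem_rect]; simp only; omega
  · refine h4 (c6_hor_of_conn (by omega) (X0 := x - 3 * n - 1) (X1 := x + 3 * n) (u := (b1, b2))
      (v := v) ?_ ?_ ?_ (key _ _ _ _ (by omega) le_rfl le_rfl le_rfl ?_).symm)
    · rw [mem_rect]; simp only; omega
    · simp only; omega
    · omega
    · rw [mem_rect]; simp only; omega

private theorem c6_small (hq : 1 ≤ q) (hn : 1 ≤ n) (hn' : n < 32) (hE : E ⊆ edgesIn V)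
    (hF : F ⊆ edgesIn V)
    (hF' : ∀ e ∈ F, ∀ v ∈ e, v ∉ rect (x - 4 * n + 1) (x + 4 * n - 1) (y - 4 * n + 1) (y + 4 * n - 1)) :
    1 / (1 + √q) ^ 70000 ≤
      P q E F (fun ω => ∀ v ∈ bxx x y n, ¬ Reach (fun w => w ∉ bxx x y (3 * n)) ω v) := by
  have hq0 : 0 < q := by linarith
  set B : Finset (Sym2 (ℤ × ℤ)) → Prop := fun ω =>
    ∀ v ∈ bxx x y n, ¬ Reach (fun w => w ∉ bxx x y (3 * n)) ω v with hB
  have hNLE := (NL_edgesIn V).mono hE
  have hNLF := (NL_edgesIn V).mono hF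
  have hS : Disjoint (edgesIn (bxx x y (3 * n))) F := by
    rw [disjoint_left]
    intro e he heF
    induction e with
    | _ p r =>
      rw [Pool.Agent.H95.Perc.mem_edgesIn'] at he
      refine hF' _ heF p (Sym2.mem_mk_left _ _) ?_
      have h1 := he.1
      rw [bxx, mem_rect] at h1
      rw [mem_rect]
      omega
  have h1 := P_erase_set hq hNLE hNLF hS (A := fun _ => True)
    (B := fun ω => ω ⊆ edgesIn V → B ω) (by
      rintro ω - hω v hv ⟨s, hs, hc⟩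
      have hv' := hv
      rw [bxx, mem_rect] at hv'
      have hsv : s ≠ v := by
        rintro rfl
        apply hs
        rw [bxx, mem_rect]; omega
      obtain ⟨e, he, hve⟩ := mem_vts.1 (hc.mem_vts hsv).2
      obtain ⟨w, rfl⟩ := Sym2.mem_iff_exists.1 hve
      have h2 := hω he
      rw [Pool.Agent.H95.Perc.mem_edgesIn'] at h2
      apply (mem_sdiff.1 he).2
      rw [Pool.Agent.H95.Perc.mem_edgesIn']
      have hadj := h2.2.2
      obtain ⟨a, b⟩ := v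
      obtain ⟨c, d⟩ := w
      rw [Z2_adj_iff] at hadj
      simp only at hv'
      refine ⟨?_, ?_, h2.2.2⟩
      · rw [bxx, mem_rect]; simp only; omega
      · rw [bxx, mem_rect]; simp only; omega)
  rw [P_true hq0] at h1
  have h2 : P q E F (fun ω => ω ⊆ edgesIn V → B ω) ≤ P q E F B := by
    refine P_mono hq0 ?_
    intro ζ hζ h
    exact h (union_subset (hζ.trans hE) hF)
  have hcard : #(edgesIn (bxx x y (3 * n))) ≤ 70000 := by
    obtain ⟨m, hm⟩ : ∃ m : ℕ, (m : ℤ) = 6 * n := ⟨(6 * n).toNat, by omega⟩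
    have h3 : bxx x y (3 * n) = rect (x - 3 * n) (x - 3 * n + m) (y - 3 * n) (y - 3 * n + m) := by
      rw [bxx, hm]
      congr 1 <;> ring
    rw [h3, card_edgesIn_rect]
    have hm' : m ≤ 186 := by omega
    nlinarith
  have hs0 : 0 ≤ √q := Real.sqrt_nonneg q
  have h4 : (1 + √q) ^ #(edgesIn (bxx x y (3 * n))) ≤ (1 + √q) ^ 70000 :=
    pow_le_pow_right₀ (by linarith) hcard
  have hP0 : 0 ≤ P q E F B := P_nonneg hq0 _ _ _
  rw [div_le_iff₀ (by positivity)]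
  calc 1 ≤ (1 + √q) ^ #(edgesIn (bxx x y (3 * n))) * P q E F (fun ω => ω ⊆ edgesIn V → B ω) := h1
    _ ≤ (1 + √q) ^ #(edgesIn (bxx x y (3 * n))) * P q E F B := by
      apply mul_le_mul_of_nonneg_left h2 (by positivity)
    _ ≤ (1 + √q) ^ 70000 * P q E F B := mul_le_mul_of_nonneg_right h4 hP0
    _ = P q E F B * (1 + √q) ^ 70000 := mul_comm _ _

private theorem c6_k {n w : ℤ} (hw : w = n / 32) (hn : 32 ≤ n) :
    ∃ k : ℕ, 6 * n + 1 ≤ k * w ∧ k * w ≤ 6 * n + 1 + w ∧ k ≤ 400 := by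
  have hw1 : 1 ≤ w := by omega
  have hw2 : n < 32 * (w + 1) := by omega
  set j : ℤ := (6 * n) / w + 1 with hj
  have h1 : (6 * n) / w * w ≤ 6 * n := Int.ediv_mul_le _ (by omega)
  have h2 : 6 * n < ((6 * n) / w + 1) * w := Int.lt_ediv_add_one_mul_self _ (by omega)
  have h3 : 0 ≤ (6 * n) / w := Int.ediv_nonneg (by omega) (by omega)
  have h4 : (6 * n) / w ≤ 399 := by
    have : (6 * n) / w < 400 := by
      rw [Int.ediv_lt_iff_lt_mul (by omega)]
      nlinarith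
    omega
  refine ⟨((6 * n) / w + 1).toNat, ?_, ?_, by omega⟩
  · rw [Int.toNat_of_nonneg (by omega)]
    omega
  · rw [Int.toNat_of_nonneg (by omega)]
    nlinarith

private theorem c6_mul {a b p1 p2 p3 p4 : ℝ} (ha : 0 ≤ a) (hb : 0 ≤ b) (h1 : a ≤ p1)
    (h2 : a ≤ p2) (h3 : b ≤ p3) (h4 : b ≤ p4) : (a * a) * (b * b) ≤ (p1 * p2) * (p3 * p4) :=
  mul_le_mul (mul_le_mul h1 h2 ha (ha.trans h1)) (mul_le_mul h3 h4 hb (hb.trans h3))
    (mul_nonneg hb hb) (mul_nonneg (ha.trans h1) (ha.trans h2))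

theorem wired_box (hq : 1 ≤ q) (hq4 : q < 4) : ∃ c : ℝ, 0 < c ∧ ∀ (x y n : ℤ) (V : Finset (ℤ × ℤ))
    (E F : Finset (Sym2 (ℤ × ℤ))), 1 ≤ n → E ⊆ edgesIn V → F ⊆ edgesIn V →
    (∀ e ∈ F, ∀ v ∈ e, v ∉ rect (x - 4 * n + 1) (x + 4 * n - 1) (y - 4 * n + 1) (y + 4 * n - 1)) →
    c ≤ P q E F (fun ω => ∀ v ∈ bxx x y n, ¬ Reach (fun w => w ∉ bxx x y (3 * n)) ω v) := by
  have hq0 : 0 < q := by linarith
  obtain ⟨c1, hc1, hc1', hfh⟩ := free_hor hq hq4
  obtain ⟨c2, hc2, hc2', hfv⟩ := free_ver hq hq4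
  have hs0 : 0 ≤ √q := Real.sqrt_nonneg q
  refine ⟨min ((c1 ^ 401 * c1 ^ 401) * (c2 ^ 401 * c2 ^ 401)) (1 / (1 + √q) ^ 70000),
    lt_min (by positivity) (by positivity), ?_⟩
  intro x y n V E F hn hE hF hF'
  by_cases hn' : n < 32
  · exact le_trans (min_le_right _ _) (c6_small hq hn hn' hE hF hF')
  refine le_trans (min_le_left _ _) ?_
  have hn32 : 32 ≤ n := by omega
  obtain ⟨w, hw⟩ : ∃ w, w = n / 32 := ⟨_, rfl⟩
  have hw1 : 1 ≤ w := by omega
  have hw2 : 32 * w ≤ n := by omega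
  obtain ⟨k, hk1, hk2, hk3⟩ := c6_k hw hn32
  have hp1 : c1 ^ 401 ≤ c1 ^ (k + 1) := pow_le_pow_of_le_one hc1.le hc1' (by omega)
  have hp2 : c2 ^ 401 ≤ c2 ^ (k + 1) := pow_le_pow_of_le_one hc2.le hc2' (by omega)
  set R := rect (x - 4 * n + 1) (x + 4 * n) (y - 4 * n + 1) (y + 4 * n) with hR
  have hNLE := (NL_edgesIn V).mono hE
  have hNLF := (NL_edgesIn V).mono hF
  -- top
  have hT : c1 ^ 401 ≤ P q E F (fun ω =>
      ¬ ver (x - 3 * n) (x + 3 * n) (y + 2 * n - 1) (y + 2 * n + w) ω) := by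
    have h1 := nver_wired (x0 := x - 3 * n) (x1 := x + 3 * n + 1) (y0 := y + 2 * n)
      (y1 := y + 2 * n + w) hq hn hE hF hF' (by omega) (by omega) (by omega) (by omega) (by omega)
      (by omega)
    rw [show x + 3 * n + 1 - 1 = x + 3 * n by ring] at h1
    refine le_trans (le_trans hp1 ?_) h1
    refine le_trans (hfh k R (x - 3 * n) (y + 2 * n) w hw1
      (Pool.Agent.H95.Perc.rect_mono (by omega) (by omega) (by omega) (by omega))) ?_
    refine P_mono hq0 ?_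
    intro ζ _ h
    exact Pool.Agent.H95.Perc.hor_shrink le_rfl (by omega) (by omega) h
  have hBt : c1 ^ 401 ≤ P q E F (fun ω =>
      ¬ ver (x - 3 * n) (x + 3 * n) (y - 2 * n - w - 1) (y - 2 * n) ω) := by
    have h1 := nver_wired (x0 := x - 3 * n) (x1 := x + 3 * n + 1) (y0 := y - 2 * n - w)
      (y1 := y - 2 * n) hq hn hE hF hF' (by omega) (by omega) (by omega) (by omega) (by omega)
      (by omega)
    rw [show x + 3 * n + 1 - 1 = x + 3 * n by ring] at h1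
    refine le_trans (le_trans hp1 ?_) h1
    refine le_trans (hfh k R (x - 3 * n) (y - 2 * n - w) w hw1
      (Pool.Agent.H95.Perc.rect_mono (by omega) (by omega) (by omega) (by omega))) ?_
    refine P_mono hq0 ?_
    intro ζ _ h
    rw [show y - 2 * n - w + w = y - 2 * n by ring] at h
    exact Pool.Agent.H95.Perc.hor_shrink le_rfl (by omega) (by omega) h
  have hRt : c2 ^ 401 ≤ P q E F (fun ω =>
      ¬ hor (x + 2 * n - 1) (x + 2 * n + w) (y - 3 * n) (y + 3 * n) ω) := by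
    have h1 := nhor_wired (x0 := x + 2 * n) (x1 := x + 2 * n + w) (y0 := y - 3 * n)
      (y1 := y + 3 * n + 1) hq hn hE hF hF' (by omega) (by omega) (by omega) (by omega) (by omega)
      (by omega)
    rw [show y + 3 * n + 1 - 1 = y + 3 * n by ring] at h1
    refine le_trans (le_trans hp2 ?_) h1
    refine le_trans (hfv k R (x + 2 * n) (y - 3 * n) w hw1
      (Pool.Agent.H95.Perc.rect_mono (by omega) (by omega) (by omega) (by omega))) ?_
    refine P_mono hq0 ?_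
    intro ζ _ h
    exact ver_shrink le_rfl (by omega) (by omega) h
  have hLt : c2 ^ 401 ≤ P q E F (fun ω =>
      ¬ hor (x - 2 * n - w - 1) (x - 2 * n) (y - 3 * n) (y + 3 * n) ω) := by
    have h1 := nhor_wired (x0 := x - 2 * n - w) (x1 := x - 2 * n) (y0 := y - 3 * n)
      (y1 := y + 3 * n + 1) hq hn hE hF hF' (by omega) (by omega) (by omega) (by omega) (by omega)
      (by omega)
    rw [show y + 3 * n + 1 - 1 = y + 3 * n by ring] at h1
    refine le_trans (le_trans hp2 ?_) h1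
    refine le_trans (hfv k R (x - 2 * n - w) (y - 3 * n) w hw1
      (Pool.Agent.H95.Perc.rect_mono (by omega) (by omega) (by omega) (by omega))) ?_
    refine P_mono hq0 ?_
    intro ζ _ h
    rw [show x - 2 * n - w + w = x - 2 * n by ring] at h
    exact ver_shrink le_rfl (by omega) (by omega) h
  have dT := c6_nver_dcr (x - 3 * n) (x + 3 * n) (y + 2 * n - 1) (y + 2 * n + w)
  have dB := c6_nver_dcr (x - 3 * n) (x + 3 * n) (y - 2 * n - w - 1) (y - 2 * n)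
  have dR := c6_nhor_dcr (x + 2 * n - 1) (x + 2 * n + w) (y - 3 * n) (y + 3 * n)
  have dL := c6_nhor_dcr (x - 2 * n - w - 1) (x - 2 * n) (y - 3 * n) (y + 3 * n)
  have hTB := P_fkg_dcr hq hNLE hNLF dT dB
  have hRL := P_fkg_dcr hq hNLE hNLF dR dL
  have hall := P_fkg_dcr hq hNLE hNLF
    (A := fun ω => ¬ ver (x - 3 * n) (x + 3 * n) (y + 2 * n - 1) (y + 2 * n + w) ω ∧
      ¬ ver (x - 3 * n) (x + 3 * n) (y - 2 * n - w - 1) (y - 2 * n) ω)
    (B := fun ω => ¬ hor (x + 2 * n - 1) (x + 2 * n + w) (y - 3 * n) (y + 3 * n) ω ∧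
      ¬ hor (x - 2 * n - w - 1) (x - 2 * n) (y - 3 * n) (y + 3 * n) ω)
    (fun _ _ h h' => ⟨dT _ _ h h'.1, dB _ _ h h'.2⟩)
    (fun _ _ h h' => ⟨dR _ _ h h'.1, dL _ _ h h'.2⟩)
  calc (c1 ^ 401 * c1 ^ 401) * (c2 ^ 401 * c2 ^ 401)
      ≤ (P q E F (fun ω => ¬ ver (x - 3 * n) (x + 3 * n) (y + 2 * n - 1) (y + 2 * n + w) ω) *
          P q E F (fun ω => ¬ ver (x - 3 * n) (x + 3 * n) (y - 2 * n - w - 1) (y - 2 * n) ω)) *
        (P q E F (fun ω => ¬ hor (x + 2 * n - 1) (x + 2 * n + w) (y - 3 * n) (y + 3 * n) ω) *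
          P q E F (fun ω => ¬ hor (x - 2 * n - w - 1) (x - 2 * n) (y - 3 * n) (y + 3 * n) ω)) := by
        exact c6_mul (pow_nonneg hc1.le _) (pow_nonneg hc2.le _) hT hBt hRt hLt
    _ ≤ _ := mul_le_mul hTB hRL (mul_nonneg (P_nonneg hq0 _ _ _) (P_nonneg hq0 _ _ _))
        (P_nonneg hq0 _ _ _)
    _ ≤ _ := hall
    _ ≤ _ := by
        refine P_mono hq0 ?_
        rintro ζ hζ ⟨⟨h1, h2⟩, h3, h4⟩
        exact sep_four (V := V) (by omega) (by omega) (union_subset (hζ.trans hE) hF) hn h1 h2 h3 h4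

end Pool.Agent.FKR
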