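import Pool.Agent.FKR.Basic

/-! # FKR/CnPath (MP_b3e76a_pr): cutting connections

Tools for general graphs. All proofs by induction on a walk, or with `Cn.closed`. -/

namespace Pool.Agent.FKR

open Finset

section
variable {α : Type*} [DecidableEq α] {ω : Finset (Sym2 α)} {u v : α}

open Classical in
/-- the edges of `E` with an end satisfying `I` -/
noncomputable def tc (I : α → Prop) (E : Finset (Sym2 α)) : Finset (Sym2 α) :=
  E.filter fun e => ∃ v ∈ e, I v

open Classical in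
/-- the edges of `E` with both ends satisfying `I` -/
noncomputable def ins (I : α → Prop) (E : Finset (Sym2 α)) : Finset (Sym2 α) :=
  E.filter fun e => ∀ v ∈ e, I v

omit [DecidableEq α] in
theorem mem_ins' {I : α → Prop} {E : Finset (Sym2 α)} {e : Sym2 α} :
    e ∈ ins I E ↔ e ∈ E ∧ ∀ v ∈ e, I v := by
  classical
  unfold ins
  simp only [mem_filter]

omit [DecidableEq α] in
theorem mem_tc' {I : α → Prop} {E : Finset (Sym2 α)} {e : Sym2 α} :
    e ∈ tc I E ↔ e ∈ E ∧ ∃ v ∈ e, I v := by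
  classical
  unfold tc
  simp only [mem_filter]

/-- a connection leaving `S`: first exit -/
theorem Cn.exit (h : Cn ω u v) {S : α → Prop} (hu : S u) (hv : ¬ S v) :
    ∃ x y, S x ∧ ¬ S y ∧ s(x, y) ∈ ω ∧ Cn (ins S ω) u x := by
  obtain ⟨p⟩ := h
  induction p with
  | nil => exact absurd hu hv
  | @cons a b c hadj _ ih =>
    rw [Pool.Agent.H95.Wedge.openGraph_adj] at hadj
    by_cases hb : S b
    · obtain ⟨x, y, hx, hy, hxy, hc⟩ := ih hb hv
      refine ⟨x, y, hx, hy, hxy, Cn.trans (Cn_edge ?_) hc⟩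
      rw [mem_ins']
      refine ⟨hadj.1, ?_⟩
      intro z hz
      rw [Sym2.mem_iff] at hz
      rcases hz with rfl | rfl
      · exact hu
      · exact hb
    · exact ⟨a, b, hu, hb, hadj.1, Cn_refl _ _⟩

omit [DecidableEq α] in
theorem ins_subset_tc (I : α → Prop) (E : Finset (Sym2 α)) : ins I E ⊆ tc I E := by
  intro e he
  rw [mem_ins'] at he
  rw [mem_tc']
  refine ⟨he.1, ?_⟩
  induction e using Sym2.inductionOn with
  | hf x y => exact ⟨x, by simp, he.2 x (by simp)⟩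

omit [DecidableEq α] in
theorem tc_subset (I : α → Prop) (E : Finset (Sym2 α)) : tc I E ⊆ E :=
  fun _ he => (mem_tc'.1 he).1

omit [DecidableEq α] in
theorem ins_subset (I : α → Prop) (E : Finset (Sym2 α)) : ins I E ⊆ E :=
  fun _ he => (mem_ins'.1 he).1

/-- hence the part of a connection up to the first exit only uses edges touching `S` -/
theorem Cn.exit_tc (h : Cn ω u v) {S : α → Prop} (hu : S u) (hv : ¬ S v) :
    ∃ y, ¬ S y ∧ Cn (tc S ω) u y := by
  obtain ⟨x, y, hx, hy, hxy, hc⟩ := h.exit hu hv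
  refine ⟨y, hy, (hc.mono (ins_subset_tc S ω)).trans (Cn_edge ?_)⟩
  rw [mem_tc']
  exact ⟨hxy, x, by simp, hx⟩

/-- auxiliary form of `Cn.middle` for the induction -/
theorem Cn.middle_aux (h : Cn ω u v) {f : α → ℤ} (hf : ∀ x y, s(x, y) ∈ ω → f y ≤ f x + 1)
    {a b : ℤ} (hu : f u ≤ b) (hv : b ≤ f v) :
    (∃ x y, f x = a ∧ f y = b ∧ Cn ω u x ∧ Cn (ins (fun z => a ≤ f z ∧ f z ≤ b) ω) x y) ∨
      (a ≤ f u ∧ ∃ y, f y = b ∧ Cn (ins (fun z => a ≤ f z ∧ f z ≤ b) ω) u y) ∨ b < a := by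
  obtain ⟨p⟩ := h
  induction p with
  | @nil c =>
    by_cases hab : b < a
    · exact Or.inr (Or.inr hab)
    · refine Or.inr (Or.inl ⟨by omega, c, by omega, Cn_refl _ _⟩)
  | @cons c w d hadj _ ih =>
    rw [Pool.Agent.H95.Wedge.openGraph_adj] at hadj
    by_cases hab : b < a
    · exact Or.inr (Or.inr hab)
    by_cases hcb : f c = b
    · exact Or.inr (Or.inl ⟨by omega, c, hcb, Cn_refl _ _⟩)
    have h1 := hf c w hadj.1
    rcases ih (by omega) hv with ⟨x, y, hx, hy, hc, hi⟩ | ⟨hw, y, hy, hi⟩ | h3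
    · exact Or.inl ⟨x, y, hx, hy, (Cn_edge hadj.1).trans hc, hi⟩
    · by_cases hac : a ≤ f c
      · refine Or.inr (Or.inl ⟨hac, y, hy, Cn.trans (Cn_edge ?_) hi⟩)
        rw [mem_ins']
        refine ⟨hadj.1, ?_⟩
        intro z hz
        rw [Sym2.mem_iff] at hz
        rcases hz with rfl | rfl
        · exact ⟨hac, hu⟩
        · exact ⟨hw, by omega⟩
      · exact Or.inl ⟨w, y, by omega, hy, Cn_edge hadj.1, hi⟩
    · exact absurd h3 hab

/-- a connection between the levels `≤ a` and `≥ b` of a function changing by at most one along edges: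
there is a piece between the levels `a` and `b` -/
theorem Cn.middle (h : Cn ω u v) {f : α → ℤ} (hf : ∀ x y, s(x, y) ∈ ω → f y ≤ f x + 1) {a b : ℤ}
    (hab : a < b) (hu : f u ≤ a) (hv : b ≤ f v) :
    ∃ x y, f x = a ∧ f y = b ∧ Cn ω u x ∧ Cn (ins (fun z => a ≤ f z ∧ f z ≤ b) ω) x y := by
  rcases h.middle_aux (a := a) hf (by omega : f u ≤ b) hv with h1 | ⟨h1, y, hy, hc⟩ | h1
  · exact h1
  · exact ⟨u, y, by omega, hy, Cn_refl _ _, hc⟩
  · omega

/-- a connection from level `≤ a` to level `≥ a` passes through level `a` -/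
theorem Cn.level (h : Cn ω u v) {f : α → ℤ} (hf : ∀ x y, s(x, y) ∈ ω → f y ≤ f x + 1) {a : ℤ}
    (hu : f u ≤ a) (hv : a ≤ f v) : ∃ x, f x = a ∧ Cn ω u x := by
  obtain ⟨p⟩ := h
  induction p with
  | @nil c => exact ⟨c, by omega, Cn_refl _ _⟩
  | @cons c w d hadj _ ih =>
    rw [Pool.Agent.H95.Wedge.openGraph_adj] at hadj
    by_cases hca : f c = a
    · exact ⟨c, hca, Cn_refl _ _⟩
    have h1 := hf c w hadj.1
    obtain ⟨x, hx, hc⟩ := ih (by omega) hv
    exact ⟨x, hx, (Cn_edge hadj.1).trans hc⟩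

/-- connections only depend on edges touching the set that has to be left -/
theorem Cn_tc_iff {S : α → Prop} (hu : S u) :
    (∃ v, ¬ S v ∧ Cn ω u v) ↔ ∃ v, ¬ S v ∧ Cn (tc S ω) u v := by
  constructor
  · rintro ⟨v, hv, h⟩
    exact h.exit_tc hu hv
  · rintro ⟨v, hv, h⟩
    exact ⟨v, hv, h.mono (tc_subset S ω)⟩

end

end Pool.Agent.FKR
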