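import Pool.Agent.FKR.Faces

/-! # FKR/CylDefs (MP_b3e76a_pr): the cylinder with mixed boundary conditions (definitions)

Vertices `rect 0 (M-1) 0 h`, the columns `M-1` and `0` are adjacent (`wrapE`). The bottom circle (row `0`) is
wired, the top circle (row `h`) is free. The planar dual, turned upside down by `(i, j) ↦ (i, h - j)`,
is the same graph; `delta M h` is the resulting map on edges:
`delta (eh x y) = ev x (h - y)`, `delta (wrapE M y) = ev (M-1) (h - y)`, `delta (ev x y) = eh (x-1) (h - y)` for `x ≥ 1`,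
`delta (ev 0 y) = wrapE M (h - y)`. -/

namespace Pool.Agent.FKR

open Finset
open Pool.Agent.H95.Perc (Inc conn link rect hor ver eh ev sumE sepE Inci mem_rect)
open Pool.Agent.H95.SumRule (edgesIn Z2)

/-- edge closing up the cylinder at height `y` -/
def wrapE (M y : ℤ) : Sym2 (ℤ × ℤ) := s((M - 1, y), (0, y))

/-- active edges -/
noncomputable def cylE (M h : ℤ) : Finset (Sym2 (ℤ × ℤ)) :=
  (edgesIn (rect 0 (M - 1) 0 h) \ edgesIn (rect 0 (M - 1) 0 0)) ∪ (Icc 1 h).image (wrapE M)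

/-- frozen edges: the bottom circle -/
noncomputable def cylF (M : ℤ) : Finset (Sym2 (ℤ × ℤ)) :=
  insert (wrapE M 0) (edgesIn (rect 0 (M - 1) 0 0))

/-- probability in the cylinder -/
noncomputable def Pc (q : ℝ) (M h : ℤ) (A : Finset (Sym2 (ℤ × ℤ)) → Prop) : ℝ :=
  P q (cylE M h) (cylF M) A

/-- duality on edges of the cylinder -/
def delta (M h : ℤ) (e : Sym2 (ℤ × ℤ)) : Sym2 (ℤ × ℤ) :=
  if e = wrapE M ((sumE e).2 / 2) then ev (M - 1) (h - (sumE e).2 / 2)
  else if (sumE e).1 % 2 = 1 then ev ((sumE e).1 / 2) (h - (sumE e).2 / 2)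
  else if (sumE e).1 = 0 then wrapE M (h - (sumE e).2 / 2)
  else eh ((sumE e).1 / 2 - 1) (h - (sumE e).2 / 2)

/-- rotation of the cylinder by one step -/
def rotf (M : ℤ) (v : ℤ × ℤ) : ℤ × ℤ := ((v.1 + 1) % M, v.2)

end Pool.Agent.FKR
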