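import Pool.Agent.FKR.CylH1
import Pool.Agent.FKR.RectDual

/-! # FKR/CylDual (MP_b3e76a_pr): self-duality of the cylinder with mixed boundary conditions

Euler's formula: `clusters V cylF = M h + 1`, `clusters V (cylE ∪ cylF) = 1`, `#cylE = 2 M h` (`V = rect 0 (M-1) 0 h`;
`clusters_eq_card_image` from `RectDual`: `r` maps the row `0` to one point and is the identity elsewhere).
`cyl_dual`: `DualPair.adual` with `E = cylE`, `F = ∅`, `cylE.image delta = cylE`. -/

namespace Pool.Agent.FKR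

open Finset
open Pool.Agent.H95.Wedge (openGraph W Good selfDual clusters)
open Pool.Agent.H95.Perc (Inc conn link rect hor ver eh ev sumE sepE Inci mem_rect)
open Pool.Agent.H95.SumRule (edgesIn Z2)

variable {M h : ℤ} {q : ℝ}

lemma edgesIn_row0_subset (hh : 0 ≤ h) :
    edgesIn (rect 0 (M - 1) 0 0) ⊆ edgesIn (rect 0 (M - 1) 0 h) := by
  intro e he
  obtain ⟨x, y, rfl | rfl⟩ := edgesIn_cases he
  · rw [eh_mem_edgesIn_rect] at he ⊢
    omega
  · rw [ev_mem_edgesIn_rect] at he ⊢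
    omega

lemma wrapE_notMem_edgesIn (hM : 3 ≤ M) (y : ℤ) (V : Finset (ℤ × ℤ)) : wrapE M y ∉ edgesIn V := by
  intro he
  have h1 : (M - 1, y) ∈ wrapE M y := Sym2.mem_mk_left _ _
  have h2 : ((0 : ℤ), y) ∈ wrapE M y := Sym2.mem_mk_right _ _
  obtain ⟨a, b, h | h⟩ := edgesIn_cases he
  · rw [h, mem_eh] at h1 h2
    simp only [Prod.mk.injEq] at h1 h2
    omega
  · rw [h, mem_ev] at h1 h2
    simp only [Prod.mk.injEq] at h1 h2
    omega

lemma wrapE_injective (hM : 3 ≤ M) : Function.Injective (wrapE M) := by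
  intro y y' h
  unfold wrapE at h
  rw [Sym2.eq_iff] at h
  simp only [Prod.mk.injEq] at h
  omega

lemma edgesIn_subset_cylEF :
    edgesIn (rect 0 (M - 1) 0 h) ⊆ cylE M h ∪ cylF M := by
  intro e he
  rw [mem_union]
  by_cases h0 : e ∈ edgesIn (rect 0 (M - 1) 0 0)
  · right
    exact mem_insert_of_mem h0
  · left
    exact mem_union_left _ (mem_sdiff.mpr ⟨he, h0⟩)

theorem card_cylE {m n : ℕ} (hm : 3 ≤ m) : #(cylE m n) = 2 * m * n := by
  obtain ⟨k, rfl⟩ : ∃ k, m = k + 1 := ⟨m - 1, by omega⟩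
  have c1 : #(edgesIn (rect 0 (((k + 1 : ℕ) : ℤ) - 1) 0 (n : ℤ))) = k * (n + 1) + (k + 1) * n := by
    have := card_edgesIn_rect (w := k) (h := n) 0 0
    rw [show (0 : ℤ) + (k : ℤ) = ((k + 1 : ℕ) : ℤ) - 1 by push_cast; ring, zero_add] at this
    exact this
  have c2 : #(edgesIn (rect 0 (((k + 1 : ℕ) : ℤ) - 1) 0 0)) = k := by
    have := card_edgesIn_rect (w := k) (h := 0) 0 0
    rw [show (0 : ℤ) + (k : ℤ) = ((k + 1 : ℕ) : ℤ) - 1 by push_cast; ring] at this
    simpa using this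
  have hd : Disjoint (edgesIn (rect 0 (((k + 1 : ℕ) : ℤ) - 1) 0 (n : ℤ)) \
      edgesIn (rect 0 (((k + 1 : ℕ) : ℤ) - 1) 0 0)) ((Icc 1 (n : ℤ)).image (wrapE ((k + 1 : ℕ) : ℤ))) := by
    rw [Finset.disjoint_left]
    intro e he he'
    rw [mem_image] at he'
    obtain ⟨y, _, rfl⟩ := he'
    exact wrapE_notMem_edgesIn (by exact_mod_cast hm) y _ (mem_sdiff.mp he).1
  unfold cylE
  rw [card_union_of_disjoint hd, card_sdiff_of_subset (edgesIn_row0_subset (by positivity)), c1, c2,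
    card_image_of_injective _ (wrapE_injective (by exact_mod_cast hm)), Int.card_Icc]
  have e1 : ((n : ℤ) + 1 - 1).toNat = n := by simp
  rw [e1]
  have e2 : k * (n + 1) + (k + 1) * n - k = 2 * k * n + n := by
    rw [show k * (n + 1) + (k + 1) * n = (2 * k * n + n) + k by ring]
    omega
  rw [e2]
  ring

lemma vts_cylE (hM : 3 ≤ M) (hh : 0 ≤ h) : vts (cylE M h) ⊆ rect 0 (M - 1) 0 h := by
  intro v hv
  rw [mem_vts] at hv
  obtain ⟨e, he, hve⟩ := hv
  rw [cylE_cases hM hh] at he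
  rw [mem_rect]
  rcases he with ⟨x, y, rfl, h1⟩ | ⟨x, y, rfl, h1⟩ | ⟨y, rfl, h1⟩
  · rw [mem_eh] at hve
    rcases hve with rfl | rfl <;> simp only <;> omega
  · rw [mem_ev] at hve
    rcases hve with rfl | rfl <;> simp only <;> omega
  · unfold wrapE at hve
    rw [Sym2.mem_iff] at hve
    rcases hve with rfl | rfl <;> simp only <;> omega

lemma cylF_row {M : ℤ} (hM : 3 ≤ M) {v : ℤ × ℤ} {e : Sym2 (ℤ × ℤ)} (he : e ∈ cylF M) (hv : v ∈ e) :
    0 ≤ v.1 ∧ v.1 ≤ M - 1 ∧ v.2 = 0 := by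
  rw [cylF_cases hM] at he
  rcases he with ⟨x, rfl, h1⟩ | rfl
  · rw [mem_eh] at hv
    rcases hv with rfl | rfl <;> exact ⟨by simp only; omega, by simp only; omega, rfl⟩
  · unfold wrapE at hv
    rw [Sym2.mem_iff] at hv
    rcases hv with rfl | rfl <;> exact ⟨by simp only; omega, by simp only; omega, rfl⟩

lemma vts_cylF (hM : 3 ≤ M) (hh : 0 ≤ h) : vts (cylF M) ⊆ rect 0 (M - 1) 0 h := by
  intro v hv
  rw [mem_vts] at hv
  obtain ⟨e, he, hve⟩ := hv
  have := cylF_row hM he hve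
  rw [mem_rect]
  omega

lemma disj_cyl (hM : 3 ≤ M) (hh : 0 ≤ h) : Disjoint (cylE M h) (cylF M) := by
  rw [Finset.disjoint_left]
  intro e he he'
  rw [cylE_cases hM hh] at he
  rcases he with ⟨x, y, rfl, h1⟩ | ⟨x, y, rfl, h1⟩ | ⟨y, rfl, h1⟩
  · have := cylF_row hM he' (v := (x, y)) (mem_eh.mpr (Or.inl rfl))
    simp only at this
    omega
  · have := cylF_row hM he' (v := (x, y + 1)) (mem_ev.mpr (Or.inr rfl))
    simp only at this
    omega
  · have := cylF_row hM he' (v := ((0 : ℤ), y)) (Sym2.mem_mk_right _ _)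
    simp only at this
    omega

lemma clusters_cylF (hM : 3 ≤ M) (hh : 1 ≤ h) :
    ((clusters (rect 0 (M - 1) 0 h) (cylF M) : ℕ) : ℤ) = M * h + 1 := by
  have key : ∀ u ∈ rect 0 (M - 1) 0 h, ∀ v ∈ rect 0 (M - 1) 0 h, Cn (cylF M) u v ↔
      (fun w : ℤ × ℤ => if w.2 = 0 then ((0 : ℤ), (0 : ℤ)) else w) u =
      (fun w : ℤ × ℤ => if w.2 = 0 then ((0 : ℤ), (0 : ℤ)) else w) v := by
    intro u hu v hv
    constructor
    · intro hc
      refine hc.closed (S := fun w => (fun w : ℤ × ℤ => if w.2 = 0 then ((0 : ℤ), (0 : ℤ)) else w) u =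
        (fun w : ℤ × ℤ => if w.2 = 0 then ((0 : ℤ), (0 : ℤ)) else w) w) rfl ?_
      intro x y hx hxy
      have h1 := cylF_row hM hxy (Sym2.mem_mk_left x y)
      have h2 := cylF_row hM hxy (Sym2.mem_mk_right x y)
      simp only at hx ⊢
      rw [hx, if_pos h1.2.2, if_pos h2.2.2]
    · intro heq
      rw [mem_rect] at hu hv
      simp only at heq
      by_cases hu2 : u.2 = 0
      · rw [if_pos hu2] at heq
        by_cases hv2 : v.2 = 0
        · exact cylF_Cn hM (by rw [mem_rect]; omega) (by rw [mem_rect]; omega)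
        · rw [if_neg hv2] at heq
          rw [← heq] at hv2
          exact absurd rfl hv2
      · rw [if_neg hu2] at heq
        by_cases hv2 : v.2 = 0
        · rw [if_pos hv2] at heq
          rw [heq] at hu2
          exact absurd rfl hu2
        · rw [if_neg hv2] at heq
          rw [heq]
          exact Cn_refl _ _
  rw [clusters_eq_card_image key]
  have himg : (rect 0 (M - 1) 0 h).image (fun w : ℤ × ℤ => if w.2 = 0 then ((0 : ℤ), (0 : ℤ)) else w) =
      insert ((0 : ℤ), (0 : ℤ)) (rect 0 (M - 1) 1 h) := by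
    ext ⟨a, b⟩
    rw [mem_image, mem_insert, mem_rect]
    constructor
    · rintro ⟨w, hw, hwe⟩
      rw [mem_rect] at hw
      by_cases hw2 : w.2 = 0
      · rw [if_pos hw2] at hwe
        exact Or.inl hwe.symm
      · rw [if_neg hw2] at hwe
        right
        rw [hwe] at hw hw2
        simp only at hw hw2 ⊢
        omega
    · rintro (hab | hab)
      · refine ⟨(0, 0), ?_, ?_⟩
        · rw [mem_rect]
          simp only
          omega
        · rw [if_pos rfl, hab]
      · simp only at hab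
        refine ⟨(a, b), ?_, ?_⟩
        · rw [mem_rect]
          simp only
          omega
        · rw [if_neg]
          simp only
          omega
  rw [himg, card_insert_of_notMem]
  · unfold rect
    rw [card_product, Int.card_Icc, Int.card_Icc]
    push_cast
    rw [Int.toNat_of_nonneg (by omega), Int.toNat_of_nonneg (by omega)]
    ring
  · rw [mem_rect]
    simp only
    omega

lemma clusters_cylEF (hM : 3 ≤ M) (hh : 1 ≤ h) :
    clusters (rect 0 (M - 1) 0 h) (cylE M h ∪ cylF M) = 1 := by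
  have key : ∀ u ∈ rect 0 (M - 1) 0 h, ∀ v ∈ rect 0 (M - 1) 0 h, Cn (cylE M h ∪ cylF M) u v ↔
      (fun _ : ℤ × ℤ => (0 : ℕ)) u = (fun _ : ℤ × ℤ => (0 : ℕ)) v := by
    intro u hu v hv
    constructor
    · intro _; rfl
    · intro _
      exact (rect_Cn hu hv).mono edgesIn_subset_cylEF
  rw [clusters_eq_card_image key, image_const, card_singleton]
  refine ⟨(0, 0), ?_⟩
  rw [mem_rect]
  simp only
  omega

theorem cyl_dualPair (hM : 3 ≤ M) (hh : 1 ≤ h) :
    DualPair (rect 0 (M - 1) 0 h) (cylE M h) (cylF M) (rect 0 (M - 1) 0 h) (cylF M) (delta M h) := by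
  have hh0 : 0 ≤ h := by omega
  have himg := delta_image (M := M) (h := h) hM hh0
  refine ⟨(NL_cylE hM).union (NL_cylF hM), ?_, ?_, ?_, disj_cyl hM hh0, ?_, delta_injOn hM hh0, ?_, ?_⟩
  · rw [himg]; exact (NL_cylE hM).union (NL_cylF hM)
  · rw [vts_union]; exact union_subset (vts_cylE hM hh0) (vts_cylF hM hh0)
  · rw [himg, vts_union]; exact union_subset (vts_cylE hM hh0) (vts_cylF hM hh0)
  · rw [himg]; exact disj_cyl hM hh0
  · intro ω hω x y he he' f g hfg hn
    exact cyl_h1 hM hh hω he he' hfg hn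
  · rw [himg, clusters_cylEF hM hh]
    have h1 := clusters_cylF hM hh
    obtain ⟨m, rfl⟩ : ∃ m : ℕ, M = m := ⟨M.toNat, by omega⟩
    obtain ⟨n, rfl⟩ : ∃ n : ℕ, h = n := ⟨h.toNat, by omega⟩
    rw [card_cylE (by omega)]
    have h2 : clusters (rect 0 ((m : ℤ) - 1) 0 (n : ℤ)) (cylF (m : ℤ)) = m * n + 1 := by
      exact_mod_cast h1
    rw [h2]
    ring

theorem cyl_dual (hq : 0 < q) (hM : 3 ≤ M) (hh : 1 ≤ h) (B : Finset (Sym2 (ℤ × ℤ)) → Prop) :
    Pc q M h (fun ω => B ((cylE M h \ ω).image (delta M h) ∪ cylF M)) = Pc q M h B := by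
  have h1 := (cyl_dualPair hM hh).adual hq (Subset.refl (cylE M h)) (empty_subset _)
    (disjoint_empty_right _) B
  have himg := delta_image (M := M) (h := h) hM (by omega)
  unfold Pc
  rw [empty_union, union_empty, sdiff_self, himg] at h1
  rw [h1]
  congr 1
  ext e
  simp

end Pool.Agent.FKR
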