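import Pool.Agent.FKR.Basic

/-! # FKR/EvenGraph (MP_b3e76a_pr): in an even edge set, an edge is never a bridge

`G` finite set of edges without loops in which all vertices have even degree; `s(x, y) ∈ G`; then `x`
and `y` are connected by the other edges. Proof: let `C` be the set of `v ∈ vts G` with
`Cn (G.erase s(x, y)) x v`; suppose `y ∉ C`. Count pairs `(v, e)`, `v ∈ C`, `e ∈ G`, `v ∈ e`: the sum over
`v ∈ C` of the degrees is even; every edge `e ∈ G`, `e ≠ s(x, y)` has `0` or `2` endpoints in `C`, and
`s(x, y)` has exactly one. Contradiction. (Work with `∑ e ∈ G, #(C.filter (· ∈ e))`,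
`Finset.sum_comm'`, or in `ZMod 2`.) -/

namespace Pool.Agent.FKR

open Finset

section
variable {α : Type*} [DecidableEq α]

open Classical in
theorem even_connect {G : Finset (Sym2 α)} (hG : NL G)
    (heven : ∀ v, Even (#(G.filter fun e => v ∈ e))) {x y : α} (he : s(x, y) ∈ G) :
    Cn (G.erase s(x, y)) x y := by
  by_contra hcon
  have hxy : x ≠ y := by
    intro h
    exact hG _ he (by rw [Sym2.mk_isDiag_iff]; exact h)
  obtain ⟨C, hC⟩ : ∃ C : Finset α, C = (vts G).filter fun v => Cn (G.erase s(x, y)) x v := ⟨_, rfl⟩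
  have hmemC : ∀ v, v ∈ C ↔ v ∈ vts G ∧ Cn (G.erase s(x, y)) x v := by
    intro v; rw [hC, mem_filter]
  have hxC : x ∈ C := (hmemC x).2 ⟨mem_vts.2 ⟨_, he, Sym2.mem_mk_left x y⟩, Cn_refl _ _⟩
  have hyC : y ∉ C := fun h => hcon ((hmemC y).1 h).2
  have h1 : ∑ v ∈ C, #(G.filter fun e => v ∈ e) = ∑ e ∈ G, #(C.filter fun v => v ∈ e) :=
    sum_card_bipartiteAbove_eq_sum_card_bipartiteBelow (fun (v : α) (e : Sym2 α) => v ∈ e)
  have h2 : Even (∑ v ∈ C, #(G.filter fun e => v ∈ e)) :=
    Finset.even_sum _ (fun v _ => heven v)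
  -- other edges have an even number of ends in `C`
  have h3 : ∀ e ∈ G.erase s(x, y), Even (#(C.filter fun v => v ∈ e)) := by
    intro e heG
    have heG' := mem_of_mem_erase heG
    induction e with
    | _ a b =>
      have hab : a ≠ b := by
        intro h
        exact hG _ heG' (by rw [Sym2.mk_isDiag_iff]; exact h)
      have ha : a ∈ vts G := mem_vts.2 ⟨_, heG', Sym2.mem_mk_left a b⟩
      have hb : b ∈ vts G := mem_vts.2 ⟨_, heG', Sym2.mem_mk_right a b⟩
      have hcn : Cn (G.erase s(x, y)) a b := Cn_edge heG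
      by_cases haC : a ∈ C
      · have hbC : b ∈ C := (hmemC b).2 ⟨hb, ((hmemC a).1 haC).2.trans hcn⟩
        have : C.filter (fun v => v ∈ s(a, b)) = {a, b} := by
          ext v
          rw [mem_filter, Sym2.mem_iff, mem_insert, mem_singleton]
          constructor
          · exact fun h => h.2
          · rintro (rfl | rfl)
            · exact ⟨haC, Or.inl rfl⟩
            · exact ⟨hbC, Or.inr rfl⟩
        rw [this, card_pair hab]
        exact even_two
      · have hbC : b ∉ C := fun h => haC ((hmemC a).2 ⟨ha, ((hmemC b).1 h).2.trans hcn.symm⟩)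
        have : C.filter (fun v => v ∈ s(a, b)) = ∅ := by
          ext v
          rw [mem_filter, Sym2.mem_iff]
          constructor
          · rintro ⟨h1, rfl | rfl⟩
            · exact absurd h1 haC
            · exact absurd h1 hbC
          · intro h; simp at h
        rw [this, card_empty]
        exact Even.zero
  have h4 : #(C.filter fun v => v ∈ s(x, y)) = 1 := by
    rw [card_eq_one]
    refine ⟨x, ?_⟩
    ext v
    rw [mem_filter, Sym2.mem_iff, mem_singleton]
    constructor
    · rintro ⟨h1, rfl | rfl⟩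
      · rfl
      · exact absurd h1 hyC
    · rintro rfl
      exact ⟨hxC, Or.inl rfl⟩
  rw [h1, ← add_sum_erase G _ he, h4] at h2
  have h5 : Even (∑ e ∈ G.erase s(x, y), #(C.filter fun v => v ∈ e)) :=
    Finset.even_sum _ (fun e he' => h3 e he')
  rw [Nat.even_add] at h2
  exact absurd (h2.2 h5) (by decide)

end

end Pool.Agent.FKR
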