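import Pool.Agent.FKR.CylDefs
import Pool.Agent.FKR.EvenGraph
import Pool.Agent.FKR.ADual

/-! # FKR/CylH1 (MP_b3e76a_pr): self-duality of the cylinder, topological half

`cyl_h1` (see `RectH1` for the analogue in a rectangle): `ω ⊆ A := cylE M h`, `e = s(x, y) ∈ A \ ω`,
`delta e = s(f, g)`, `f`, `g` not connected in `D := ((A \ ω).erase e).image delta ∪ cylF`. The circle at height `0` is
connected by `cylF`, so the component `U` of one of `f`, `g` contains no vertex of the row `0`; `U ⊆ rect 0 (M-1) 1 h`. Let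
`G` be the set of `e' ∈ cylE ∪ cylF` such that exactly one end of `delta e'` is in `U`. (The formula for `delta` also
applies to `cylF`: `delta (eh x 0) = ev x h`, `delta (wrapE M 0) = ev (M-1) h`, whose upper end `(·, h+1)` is not in `U`.)
All vertices have even degree in `G`: the edges at `(x, y)` are (indices mod `M`) `eh x y`, `ev x y`, `eh (x-1) y`, `ev x (y-1)`,
their images are the sides of the square with the corners `(x, h-y), (x-1, h-y), (x-1, h-y+1), (x, h-y+1)` (for
`y = h` the edge `ev x h` is missing in `cylE`, its image is in the row `0`, no end in `U`; for `y = 0` the edge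
`ev x (-1)` is missing, its image would be in the row `h + 1`). `e ∈ G`, all other edges of `G` are in `ω ∪ cylF`
(if `e' ∈ cylE \ ω`, `e' ≠ e`, then `delta e' ∈ D` has both or no ends in `U`). `even_connect` gives `Cn (ω ∪ cylF) x y`. -/

namespace Pool.Agent.FKR

open Finset
open Pool.Agent.H95.Wedge (openGraph W Good selfDual clusters)
open Pool.Agent.H95.Perc (Inc conn link rect hor ver eh ev sumE sepE Inci mem_rect)
open Pool.Agent.H95.SumRule (edgesIn Z2)

variable {M h : ℤ} {q : ℝ}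

/-! ### the edges `wrapE` -/

private lemma wrapE_ne_eh (hM : 3 ≤ M) {y a b : ℤ} : wrapE M y ≠ eh a b := by
  intro hc
  unfold wrapE eh at hc
  rw [Sym2.eq_iff, Prod.mk.injEq, Prod.mk.injEq, Prod.mk.injEq, Prod.mk.injEq] at hc
  omega

private lemma wrapE_ne_ev (hM : 3 ≤ M) {y a b : ℤ} : wrapE M y ≠ ev a b := by
  intro hc
  unfold wrapE ev at hc
  rw [Sym2.eq_iff, Prod.mk.injEq, Prod.mk.injEq, Prod.mk.injEq, Prod.mk.injEq] at hc
  omega

private lemma wrapE_inj {y b : ℤ} : wrapE M y = wrapE M b ↔ y = b := by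
  constructor
  · intro hc
    unfold wrapE at hc
    rw [Sym2.eq_iff, Prod.mk.injEq, Prod.mk.injEq, Prod.mk.injEq, Prod.mk.injEq] at hc
    omega
  · rintro rfl; rfl

private lemma mem_wrapE {v : ℤ × ℤ} {y : ℤ} : v ∈ wrapE M y ↔ v = (M - 1, y) ∨ v = (0, y) := by
  unfold wrapE; exact Sym2.mem_iff

private lemma sumE_wrapE (y : ℤ) : sumE (wrapE M y) = (M - 1, 2 * y) := by
  simp only [sumE, wrapE, Sym2.lift_mk, Prod.mk_add_mk]; ext <;> simp only <;> ring

/-- the edges of the cylinder -/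
theorem cylE_cases (hM : 3 ≤ M) (hh : 0 ≤ h) {e : Sym2 (ℤ × ℤ)} : e ∈ cylE M h ↔
    (∃ x y, e = eh x y ∧ 0 ≤ x ∧ x ≤ M - 2 ∧ 1 ≤ y ∧ y ≤ h) ∨
    (∃ x y, e = ev x y ∧ 0 ≤ x ∧ x ≤ M - 1 ∧ 0 ≤ y ∧ y ≤ h - 1) ∨
    (∃ y, e = wrapE M y ∧ 1 ≤ y ∧ y ≤ h) := by
  unfold cylE
  rw [mem_union, mem_sdiff, mem_image]
  constructor
  · rintro (⟨h1, h2⟩ | ⟨y, h1, rfl⟩)
    · obtain ⟨x, y, rfl | rfl⟩ := edgesIn_cases h1
      · left
        rw [eh_mem_edgesIn_rect] at h1 h2
        exact ⟨x, y, rfl, by omega⟩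
      · right; left
        rw [ev_mem_edgesIn_rect] at h1 h2
        exact ⟨x, y, rfl, by omega⟩
    · right; right
      rw [mem_Icc] at h1
      exact ⟨y, rfl, h1⟩
  · rintro (⟨x, y, rfl, h1⟩ | ⟨x, y, rfl, h1⟩ | ⟨y, rfl, h1⟩)
    · left
      rw [eh_mem_edgesIn_rect, eh_mem_edgesIn_rect]
      omega
    · left
      rw [ev_mem_edgesIn_rect, ev_mem_edgesIn_rect]
      omega
    · right
      exact ⟨y, mem_Icc.2 h1, rfl⟩

theorem cylF_cases (hM : 3 ≤ M) {e : Sym2 (ℤ × ℤ)} : e ∈ cylF M ↔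
    (∃ x, e = eh x 0 ∧ 0 ≤ x ∧ x ≤ M - 2) ∨ e = wrapE M 0 := by
  unfold cylF
  rw [mem_insert]
  constructor
  · rintro (rfl | h1)
    · right; rfl
    · left
      obtain ⟨x, y, rfl | rfl⟩ := edgesIn_cases h1
      · rw [eh_mem_edgesIn_rect] at h1
        obtain rfl : y = 0 := by omega
        exact ⟨x, rfl, by omega⟩
      · rw [ev_mem_edgesIn_rect] at h1
        omega
  · rintro (⟨x, rfl, h1⟩ | rfl)
    · right
      rw [eh_mem_edgesIn_rect]
      omega
    · left; rfl

theorem NL_cylE (hM : 3 ≤ M) : NL (cylE M h) := by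
  intro e he
  unfold cylE at he
  rw [mem_union, mem_sdiff, mem_image] at he
  rcases he with ⟨h1, _⟩ | ⟨y, _, rfl⟩
  · exact NL_edgesIn _ e h1
  · unfold wrapE
    rw [Sym2.mk_isDiag_iff, Prod.mk.injEq]
    omega

theorem NL_cylF (hM : 3 ≤ M) : NL (cylF M) := by
  intro e he
  unfold cylF at he
  rw [mem_insert] at he
  rcases he with rfl | h1
  · unfold wrapE
    rw [Sym2.mk_isDiag_iff, Prod.mk.injEq]
    omega
  · exact NL_edgesIn _ e h1

open Pool.Agent.H95.Perc (sumE_eh sumE_ev)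

theorem delta_eh (hM : 3 ≤ M) (x y : ℤ) : delta M h (eh x y) = ev x (h - y) := by
  unfold delta
  rw [sumE_eh]
  simp only
  rw [if_neg (wrapE_ne_eh hM).symm, if_pos (by omega), show (2 * x + 1) / 2 = x by omega,
    show 2 * y / 2 = y by omega]

theorem delta_ev (hM : 3 ≤ M) {x : ℤ} (hx : x ≠ 0) (y : ℤ) : delta M h (ev x y) = eh (x - 1) (h - y) := by
  unfold delta
  rw [sumE_ev]
  simp only
  rw [if_neg (wrapE_ne_ev hM).symm, if_neg (by omega), if_neg (by omega),
    show (2 * y + 1) / 2 = y by omega, show 2 * x / 2 = x by omega]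

theorem delta_ev0 (hM : 3 ≤ M) (y : ℤ) : delta M h (ev 0 y) = wrapE M (h - y) := by
  unfold delta
  rw [sumE_ev]
  simp only
  rw [if_neg (wrapE_ne_ev hM).symm, if_neg (by omega), if_pos (by omega),
    show (2 * y + 1) / 2 = y by omega]

theorem delta_wrap (hM : 3 ≤ M) (y : ℤ) : delta M h (wrapE M y) = ev (M - 1) (h - y) := by
  unfold delta
  rw [sumE_wrapE]
  simp only
  rw [show 2 * y / 2 = y by omega, if_pos rfl]

/-- horizontal edge with left end in the column `x` (mod `M`) -/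
private def Hc (M x y : ℤ) : Sym2 (ℤ × ℤ) := if x = M - 1 then wrapE M y else eh x y

/-- the column to the left of `x` (mod `M`) -/
private def pc (M x : ℤ) : ℤ := if x = 0 then M - 1 else x - 1

private lemma delta_Hc (hM : 3 ≤ M) (x y : ℤ) : delta M h (Hc M x y) = ev x (h - y) := by
  unfold Hc
  split_ifs with h1
  · rw [delta_wrap hM, h1]
  · rw [delta_eh hM]

private lemma delta_ev' (hM : 3 ≤ M) {x : ℤ} (hx : x ≤ M - 1) (y : ℤ) :
    delta M h (ev x y) = Hc M (pc M x) (h - y) := by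
  unfold Hc pc
  by_cases h1 : x = 0
  · subst h1
    rw [if_pos rfl, if_pos rfl, delta_ev0 hM]
  · rw [if_neg h1, if_neg (by omega), delta_ev hM h1]

private lemma Hc_pc (hM : 3 ≤ M) {x : ℤ} (hx : x ≤ M - 1) (z : ℤ) : Hc M (pc M x) z = s((pc M x, z), (x, z)) := by
  unfold Hc pc
  by_cases h1 : x = 0
  · subst h1
    rw [if_pos rfl, if_pos rfl]; rfl
  · rw [if_neg h1, if_neg (by omega)]
    unfold eh
    rw [show x - 1 + 1 = x by ring]

private theorem delta_mem (hM : 3 ≤ M) (hh : 0 ≤ h) {e : Sym2 (ℤ × ℤ)} (he : e ∈ cylE M h) :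
    delta M h e ∈ cylE M h := by
  rw [cylE_cases hM hh] at he
  rcases he with ⟨x, y, rfl, h1⟩ | ⟨x, y, rfl, h1⟩ | ⟨y, rfl, h1⟩
  · rw [delta_eh hM, cylE_cases hM hh]
    right; left
    exact ⟨x, h - y, rfl, by omega⟩
  · by_cases hx : x = 0
    · subst hx
      rw [delta_ev0 hM, cylE_cases hM hh]
      right; right
      exact ⟨h - y, rfl, by omega⟩
    · rw [delta_ev hM hx, cylE_cases hM hh]
      left
      exact ⟨x - 1, h - y, rfl, by omega⟩
  · rw [delta_wrap hM, cylE_cases hM hh]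
    right; left
    exact ⟨M - 1, h - y, rfl, by omega⟩

theorem delta_image (hM : 3 ≤ M) (hh : 0 ≤ h) : (cylE M h).image (delta M h) = cylE M h := by
  apply Subset.antisymm
  · intro e he
    obtain ⟨e', h1, rfl⟩ := mem_image.1 he
    exact delta_mem hM hh h1
  · intro e he
    rw [cylE_cases hM hh] at he
    rw [mem_image]
    rcases he with ⟨x, y, rfl, h1⟩ | ⟨x, y, rfl, h1⟩ | ⟨y, rfl, h1⟩
    · refine ⟨ev (x + 1) (h - y), ?_, ?_⟩
      · rw [cylE_cases hM hh]
        right; left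
        exact ⟨_, _, rfl, by omega⟩
      · rw [delta_ev hM (by omega), show x + 1 - 1 = x by ring, show h - (h - y) = y by ring]
    · by_cases hx : x = M - 1
      · subst hx
        refine ⟨wrapE M (h - y), ?_, ?_⟩
        · rw [cylE_cases hM hh]
          right; right
          exact ⟨_, rfl, by omega⟩
        · rw [delta_wrap hM, show h - (h - y) = y by ring]
      · refine ⟨eh x (h - y), ?_, ?_⟩
        · rw [cylE_cases hM hh]
          left
          exact ⟨_, _, rfl, by omega⟩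
        · rw [delta_eh hM, show h - (h - y) = y by ring]
    · refine ⟨ev 0 (h - y), ?_, ?_⟩
      · rw [cylE_cases hM hh]
        right; left
        exact ⟨_, _, rfl, by omega⟩
      · rw [delta_ev0 hM, show h - (h - y) = y by ring]

theorem delta_injOn (hM : 3 ≤ M) (hh : 0 ≤ h) :
    Set.InjOn (delta M h) (cylE M h : Set (Sym2 (ℤ × ℤ))) := by
  have h1 : #((cylE M h).image (delta M h)) = #(cylE M h) := by rw [delta_image hM hh]
  exact card_image_iff.1 h1

theorem cylF_Cn (hM : 3 ≤ M) {u v : ℤ × ℤ} (hu : u ∈ rect 0 (M - 1) 0 0) (hv : v ∈ rect 0 (M - 1) 0 0) :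
    Cn (cylF M) u v := by
  have key : ∀ n : ℕ, (n : ℤ) ≤ M - 1 → Cn (cylF M) (0, 0) ((n : ℤ), 0) := by
    intro n
    induction n with
    | zero => intro _; exact Cn_refl _ _
    | succ k ih =>
      intro hk
      push_cast at hk ⊢
      refine (ih (by omega)).trans (Cn_edge ?_)
      rw [cylF_cases hM]
      left
      exact ⟨k, rfl, by omega, by omega⟩
  have key2 : ∀ w : ℤ × ℤ, w ∈ rect 0 (M - 1) 0 0 → Cn (cylF M) (0, 0) w := by
    intro w hw
    obtain ⟨a, b⟩ := w
    rw [mem_rect] at hw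
    simp only at hw
    obtain rfl : b = 0 := by omega
    have := key a.toNat (by omega)
    rwa [Int.toNat_of_nonneg (by omega)] at this
  exact (key2 u hu).symm.trans (key2 v hv)

/-- the ends of the edges of the cylinder -/
private lemma cyl_ends (hM : 3 ≤ M) (hh : 0 ≤ h) {e : Sym2 (ℤ × ℤ)} (he : e ∈ cylE M h ∪ cylF M)
    {v : ℤ × ℤ} (hv : v ∈ e) : v ∈ rect 0 (M - 1) 0 h := by
  rw [mem_union, cylE_cases hM hh, cylF_cases hM] at he
  rw [mem_rect]
  rcases he with (⟨x, y, rfl, h1⟩ | ⟨x, y, rfl, h1⟩ | ⟨y, rfl, h1⟩) | (⟨x, rfl, h1⟩ | rfl)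
  · rw [mem_eh] at hv
    rcases hv with rfl | rfl <;> simp only <;> omega
  · rw [mem_ev] at hv
    rcases hv with rfl | rfl <;> simp only <;> omega
  · rw [mem_wrapE] at hv
    rcases hv with rfl | rfl <;> simp only <;> omega
  · rw [mem_eh] at hv
    rcases hv with rfl | rfl <;> simp only <;> omega
  · rw [mem_wrapE] at hv
    rcases hv with rfl | rfl <;> simp only <;> omega

/-- the edges at a vertex -/
private lemma cyl_star (hM : 3 ≤ M) (hh : 0 ≤ h) {e : Sym2 (ℤ × ℤ)} (he : e ∈ cylE M h ∪ cylF M)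
    {x y : ℤ} (hv : (x, y) ∈ e) :
    e = Hc M x y ∨ e = Hc M (pc M x) y ∨ e = ev x y ∨ e = ev x (y - 1) := by
  rw [mem_union, cylE_cases hM hh, cylF_cases hM] at he
  rcases he with (⟨a, b, rfl, h1⟩ | ⟨a, b, rfl, h1⟩ | ⟨b, rfl, h1⟩) | (⟨a, rfl, h1⟩ | rfl)
  · rw [mem_eh, Prod.mk.injEq, Prod.mk.injEq] at hv
    rcases hv with ⟨rfl, rfl⟩ | ⟨rfl, rfl⟩
    · left; unfold Hc; rw [if_neg (by omega)]
    · right; left; unfold Hc pc; rw [if_neg (by omega), if_neg (by omega), show a + 1 - 1 = a by ring]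
  · rw [mem_ev, Prod.mk.injEq, Prod.mk.injEq] at hv
    rcases hv with ⟨rfl, rfl⟩ | ⟨rfl, rfl⟩
    · right; right; left; rfl
    · right; right; right; rw [show b + 1 - 1 = b by ring]
  · rw [mem_wrapE, Prod.mk.injEq, Prod.mk.injEq] at hv
    rcases hv with ⟨rfl, rfl⟩ | ⟨rfl, rfl⟩
    · left; unfold Hc; rw [if_pos rfl]
    · right; left; unfold Hc pc; rw [if_pos rfl, if_pos rfl]
  · rw [mem_eh, Prod.mk.injEq, Prod.mk.injEq] at hv
    rcases hv with ⟨rfl, rfl⟩ | ⟨rfl, rfl⟩
    · left; unfold Hc; rw [if_neg (by omega)]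
    · right; left; unfold Hc pc; rw [if_neg (by omega), if_neg (by omega), show a + 1 - 1 = a by ring]
  · rw [mem_wrapE, Prod.mk.injEq, Prod.mk.injEq] at hv
    rcases hv with ⟨rfl, rfl⟩ | ⟨rfl, rfl⟩
    · left; unfold Hc; rw [if_pos rfl]
    · right; left; unfold Hc pc; rw [if_pos rfl, if_pos rfl]

private lemma Hc_mem (hM : 3 ≤ M) (hh : 0 ≤ h) {x y : ℤ} (h1 : 0 ≤ x) (h2 : x ≤ M - 1) (h3 : 0 ≤ y)
    (h4 : y ≤ h) : Hc M x y ∈ cylE M h ∪ cylF M := by
  rw [mem_union, cylE_cases hM hh, cylF_cases hM]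
  unfold Hc
  by_cases h5 : y = 0
  · subst h5
    right
    split_ifs with h6
    · right; rfl
    · left; exact ⟨x, rfl, by omega⟩
  · left
    split_ifs with h6
    · right; right; exact ⟨y, rfl, by omega⟩
    · left; exact ⟨x, y, rfl, by omega⟩

private lemma ev_mem (hM : 3 ≤ M) (hh : 0 ≤ h) {x y : ℤ} (h1 : 0 ≤ x) (h2 : x ≤ M - 1) :
    ev x y ∈ cylE M h ∪ cylF M ↔ 0 ≤ y ∧ y ≤ h - 1 := by
  rw [mem_union, cylE_cases hM hh, cylF_cases hM]
  constructor
  · rintro ((⟨a, b, h3, h4⟩ | ⟨a, b, h3, h4⟩ | ⟨b, h3, h4⟩) | (⟨a, h3, h4⟩ | h3))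
    · exact absurd h3.symm eh_ne_ev
    · rw [ev_inj] at h3; omega
    · exact absurd h3.symm (wrapE_ne_ev hM)
    · exact absurd h3.symm eh_ne_ev
    · exact absurd h3.symm (wrapE_ne_ev hM)
  · intro h3
    left; right; left
    exact ⟨x, y, rfl, by omega⟩

private lemma change_iff {U : ℤ × ℤ → Prop} {e : Sym2 (ℤ × ℤ)} {a b : ℤ × ℤ} (h1 : e = s(a, b)) :
    (∃ a' b', e = s(a', b') ∧ U a' ∧ ¬ U b') ↔ ¬ (U a ↔ U b) := by
  subst h1
  constructor
  · rintro ⟨a', b', h2, h3, h4⟩
    rw [Sym2.eq_iff] at h2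
    rcases h2 with ⟨rfl, rfl⟩ | ⟨rfl, rfl⟩
    · intro h5; exact h4 (h5.1 h3)
    · intro h5; exact h4 (h5.2 h3)
  · intro h2
    by_cases h3 : U a
    · refine ⟨a, b, rfl, h3, fun h4 => h2 ⟨fun _ => h4, fun _ => h3⟩⟩
    · refine ⟨b, a, Sym2.eq_swap, ?_, h3⟩
      by_contra h4
      exact h2 ⟨fun h5 => absurd h5 h3, fun h5 => absurd h5 h4⟩

/-- number of changes around a square -/
private lemma even_four (a b c d : Prop) [Decidable (¬ (a ↔ b))] [Decidable (¬ (d ↔ c))]
    [Decidable (¬ (d ↔ a))] [Decidable (¬ (c ↔ b))] :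
    Even ((if ¬ (a ↔ b) then 1 else 0) + ((if ¬ (d ↔ c) then 1 else 0) +
      ((if ¬ (d ↔ a) then 1 else 0) + (if ¬ (c ↔ b) then 1 else 0))) : ℕ) := by
  by_cases ha : a <;> by_cases hb : b <;> by_cases hc : c <;> by_cases hd : d <;>
    simp [ha, hb, hc, hd] <;> decide

open Classical in
private theorem cyl_even (hM : 3 ≤ M) (hh : 1 ≤ h) {U : ℤ × ℤ → Prop}
    (hU : ∀ v, U v → 0 ≤ v.1 ∧ v.1 ≤ M - 1 ∧ 1 ≤ v.2 ∧ v.2 ≤ h) (v : ℤ × ℤ) :
    Even (#(((cylE M h ∪ cylF M).filter fun e' =>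
      ∃ a b, delta M h e' = s(a, b) ∧ U a ∧ ¬ U b).filter fun e => v ∈ e)) := by
  by_cases hv : v ∈ rect 0 (M - 1) 0 h
  · obtain ⟨x, y⟩ := v
    rw [mem_rect] at hv
    simp only at hv
    have hp : 0 ≤ pc M x ∧ pc M x ≤ M - 1 := by
      unfold pc; split_ifs <;> omega
    have e1 : ∀ (c : ℤ), (∃ a b, delta M h (Hc M c y) = s(a, b) ∧ U a ∧ ¬ U b) ↔
        ¬ (U (c, h - y) ↔ U (c, h - y + 1)) := by
      intro c
      exact change_iff (delta_Hc hM c y)
    have e2 : ∀ (z : ℤ), (∃ a b, delta M h (ev x z) = s(a, b) ∧ U a ∧ ¬ U b) ↔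
        ¬ (U (pc M x, h - z) ↔ U (x, h - z)) := by
      intro z
      refine change_iff ?_
      rw [delta_ev' hM hv.2.1, Hc_pc hM hv.2.1]
    have key : (((cylE M h ∪ cylF M).filter fun e' =>
        ∃ a b, delta M h e' = s(a, b) ∧ U a ∧ ¬ U b).filter fun e => (x, y) ∈ e) =
        ({Hc M x y, Hc M (pc M x) y, ev x y, ev x (y - 1)} : Finset (Sym2 (ℤ × ℤ))).filter
          fun e' => ∃ a b, delta M h e' = s(a, b) ∧ U a ∧ ¬ U b := by
      ext e'
      rw [mem_filter, mem_filter, mem_filter, mem_insert, mem_insert, mem_insert, mem_singleton]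
      constructor
      · rintro ⟨⟨h1, h2⟩, h3⟩
        exact ⟨cyl_star hM (by omega) h1 h3, h2⟩
      · rintro ⟨h1, h2⟩
        refine ⟨⟨?_, h2⟩, ?_⟩
        · rcases h1 with rfl | rfl | rfl | rfl
          · exact Hc_mem hM (by omega) (by omega) (by omega) (by omega) (by omega)
          · exact Hc_mem hM (by omega) (by omega) (by omega) (by omega) (by omega)
          · rw [ev_mem hM (by omega) (by omega) (by omega)]
            refine ⟨by omega, ?_⟩
            by_contra h3
            rw [e2] at h2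
            apply h2
            obtain rfl : y = h := by omega
            constructor
            · intro h4; have := hU _ h4; simp only at this; omega
            · intro h4; have := hU _ h4; simp only at this; omega
          · rw [ev_mem hM (by omega) (by omega) (by omega)]
            refine ⟨?_, by omega⟩
            by_contra h3
            rw [e2] at h2
            apply h2
            obtain rfl : y = 0 := by omega
            constructor
            · intro h4; have := hU _ h4; simp only at this; omega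
            · intro h4; have := hU _ h4; simp only at this; omega
        · rcases h1 with rfl | rfl | rfl | rfl
          · unfold Hc
            split_ifs with h3
            · rw [mem_wrapE, h3]; left; rfl
            · rw [mem_eh]; left; rfl
          · rw [Hc_pc hM hv.2.1]
            exact Sym2.mem_mk_right _ _
          · rw [mem_ev]; left; rfl
          · rw [mem_ev]; right; rw [show y - 1 + 1 = y by ring]
    rw [key, card_filter]
    have d1 : Hc M x y ∉ ({Hc M (pc M x) y, ev x y, ev x (y - 1)} : Finset (Sym2 (ℤ × ℤ))) := by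
      rw [mem_insert, mem_insert, mem_singleton]
      rintro (h1 | h1 | h1)
      · unfold Hc pc at h1
        by_cases h2 : x = M - 1
        · subst h2
          rw [if_pos rfl, if_neg (show ¬ (M - 1 = 0) by omega), if_neg (by omega)] at h1
          exact wrapE_ne_eh hM h1
        · rw [if_neg h2] at h1
          by_cases h3 : x = 0
          · rw [if_pos h3, if_pos rfl] at h1
            exact wrapE_ne_eh hM h1.symm
          · rw [if_neg h3, if_neg (by omega), eh_inj] at h1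
            omega
      · unfold Hc at h1
        split_ifs at h1
        · exact wrapE_ne_ev hM h1
        · exact eh_ne_ev h1
      · unfold Hc at h1
        split_ifs at h1
        · exact wrapE_ne_ev hM h1
        · exact eh_ne_ev h1
    have d2 : Hc M (pc M x) y ∉ ({ev x y, ev x (y - 1)} : Finset (Sym2 (ℤ × ℤ))) := by
      rw [mem_insert, mem_singleton]
      rintro (h1 | h1)
      · unfold Hc at h1
        split_ifs at h1
        · exact wrapE_ne_ev hM h1
        · exact eh_ne_ev h1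
      · unfold Hc at h1
        split_ifs at h1
        · exact wrapE_ne_ev hM h1
        · exact eh_ne_ev h1
    have d3 : ev x y ∉ ({ev x (y - 1)} : Finset (Sym2 (ℤ × ℤ))) := by
      rw [mem_singleton, ev_inj]
      omega
    rw [sum_insert d1, sum_insert d2, sum_insert d3, sum_singleton]
    simp only [e1, e2]
    rw [show h - (y - 1) = h - y + 1 by ring]
    exact even_four _ _ _ _
  · have : (((cylE M h ∪ cylF M).filter fun e' =>
        ∃ a b, delta M h e' = s(a, b) ∧ U a ∧ ¬ U b).filter fun e => v ∈ e) = ∅ := by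
      rw [filter_eq_empty_iff]
      intro e he hve
      rw [mem_filter] at he
      exact hv (cyl_ends hM (by omega) he.1 hve)
    rw [this, card_empty]
    exact Even.zero

private theorem cyl_aux (hM : 3 ≤ M) (hh : 1 ≤ h) {ω : Finset (Sym2 (ℤ × ℤ))} {x y : ℤ × ℤ}
    (he : s(x, y) ∈ cylE M h) {f g : ℤ × ℤ} (hfg : delta M h s(x, y) = s(f, g))
    (hn : ¬ Cn (((cylE M h \ ω).erase s(x, y)).image (delta M h) ∪ cylF M) f g)
    (h0 : ∀ v : ℤ × ℤ, v.2 = 0 →
      ¬ Cn (((cylE M h \ ω).erase s(x, y)).image (delta M h) ∪ cylF M) f v) :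
    Cn (ω ∪ cylF M) x y := by
  classical
  set D := ((cylE M h \ ω).erase s(x, y)).image (delta M h) ∪ cylF M with hD
  have hDs : D ⊆ cylE M h ∪ cylF M := by
    intro e' h1
    rw [hD, mem_union] at h1
    rw [mem_union]
    rcases h1 with h1 | h1
    · left
      obtain ⟨e'', h2, rfl⟩ := mem_image.1 h1
      exact delta_mem hM (by omega) (mem_sdiff.1 (mem_of_mem_erase h2)).1
    · right; exact h1
  have hf : f ∈ rect 0 (M - 1) 0 h := by
    have h1 : delta M h s(x, y) ∈ cylE M h := delta_mem hM (by omega) he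
    refine cyl_ends hM (by omega) (mem_union_left _ h1) ?_
    rw [hfg]; exact Sym2.mem_mk_left _ _
  have hUr : ∀ v, Cn D f v → v ∈ rect 0 (M - 1) 0 h := by
    intro v hv
    refine Cn.closed hv (S := fun v => v ∈ rect 0 (M - 1) 0 h) hf ?_
    intro a b _ h2
    exact cyl_ends hM (by omega) (hDs h2) (Sym2.mem_mk_right _ _)
  have hU : ∀ v, Cn D f v → 0 ≤ v.1 ∧ v.1 ≤ M - 1 ∧ 1 ≤ v.2 ∧ v.2 ≤ h := by
    intro v hv
    have h1 := hUr v hv
    rw [mem_rect] at h1
    have h2 : v.2 ≠ 0 := fun h3 => h0 v h3 hv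
    omega
  set G := (cylE M h ∪ cylF M).filter fun e' =>
      ∃ a b, delta M h e' = s(a, b) ∧ Cn D f a ∧ ¬ Cn D f b with hG
  have hGN : NL G := by
    intro e' h1
    rw [hG, mem_filter, mem_union] at h1
    rcases h1.1 with h2 | h2
    · exact NL_cylE hM e' h2
    · exact NL_cylF hM e' h2
  have heG : s(x, y) ∈ G := by
    rw [hG, mem_filter]
    exact ⟨mem_union_left _ he, f, g, hfg, Cn_refl _ _, hn⟩
  have hev := even_connect hGN (fun v => cyl_even hM hh hU v) heG
  refine hev.mono ?_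
  intro e' h1
  rw [mem_erase, hG, mem_filter, mem_union] at h1
  obtain ⟨h2, h3 | h3, a, b, h4, h5, h6⟩ := h1
  · rw [mem_union]
    by_contra h7
    have h8 : e' ∉ ω := fun h => h7 (Or.inl h)
    apply h6
    refine h5.trans (Cn_edge ?_)
    rw [← h4, hD, mem_union]
    left
    exact mem_image_of_mem _ (mem_erase.2 ⟨h2, mem_sdiff.2 ⟨h3, h8⟩⟩)
  · exact mem_union_right _ h3

theorem cyl_h1 (hM : 3 ≤ M) (hh : 1 ≤ h) {ω : Finset (Sym2 (ℤ × ℤ))} (hω : ω ⊆ cylE M h) {x y : ℤ × ℤ}
    (he : s(x, y) ∈ cylE M h) (he' : s(x, y) ∉ ω) {f g : ℤ × ℤ} (hfg : delta M h s(x, y) = s(f, g))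
    (hn : ¬ Cn (((cylE M h \ ω).erase s(x, y)).image (delta M h) ∪ cylF M) f g) :
    Cn (ω ∪ cylF M) x y := by
  by_cases h0 : ∀ v : ℤ × ℤ, v.2 = 0 →
      ¬ Cn (((cylE M h \ ω).erase s(x, y)).image (delta M h) ∪ cylF M) f v
  · exact cyl_aux hM hh he hfg hn h0
  · push Not at h0
    obtain ⟨v, hv, hfv⟩ := h0
    refine cyl_aux hM hh he (hfg.trans Sym2.eq_swap) (fun h => hn h.symm) ?_
    intro w hw hgw
    apply hn
    have hDs : ((cylE M h \ ω).erase s(x, y)).image (delta M h) ∪ cylF M ⊆ cylE M h ∪ cylF M := by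
      intro e' h1
      rw [mem_union] at h1
      rw [mem_union]
      rcases h1 with h1 | h1
      · left
        obtain ⟨e'', h2, rfl⟩ := mem_image.1 h1
        exact delta_mem hM (by omega) (mem_sdiff.1 (mem_of_mem_erase h2)).1
      · right; exact h1
    have hfgr : ∀ z, z ∈ s(f, g) → z ∈ rect 0 (M - 1) 0 h := by
      intro z hz
      have h1 : delta M h s(x, y) ∈ cylE M h := delta_mem hM (by omega) he
      refine cyl_ends hM (by omega) (mem_union_left _ h1) ?_
      rw [hfg]; exact hz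
    have hcl : ∀ z z', z ∈ rect 0 (M - 1) 0 h →
        Cn (((cylE M h \ ω).erase s(x, y)).image (delta M h) ∪ cylF M) z z' →
        z' ∈ rect 0 (M - 1) 0 h := by
      intro z z' hz hzz
      refine Cn.closed hzz (S := fun v => v ∈ rect 0 (M - 1) 0 h) hz ?_
      intro a b _ h2
      exact cyl_ends hM (by omega) (hDs h2) (Sym2.mem_mk_right _ _)
    have hvr := hcl _ _ (hfgr f (Sym2.mem_mk_left _ _)) hfv
    have hwr := hcl _ _ (hfgr g (Sym2.mem_mk_right _ _)) hgw
    rw [mem_rect] at hvr hwr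
    have h5 : Cn (cylF M) v w := by
      apply cylF_Cn hM
      · rw [mem_rect]; omega
      · rw [mem_rect]; omega
    exact (hfv.trans (h5.mono subset_union_right)).trans hgw.symm

end Pool.Agent.FKR
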