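import Pool.Agent.FKR.CylDual
import Pool.Agent.FKR.Topo
import Pool.Agent.FKR.Glue

/-! # FKR/CylHV (MP_b3e76a_pr): duality of crossings in the cylinder

For a configuration `ω` let `cd ω = (cylE M h \ ω).image (delta M h) ∪ cylF M`.
`cyl_hv`: if there is no crossing `hor 0 (b+1) t (h-t) ω`, then by `hor_iff` there is a path of faces in
`rect 0 b (t-1) (h-t)` from the row `t-1` to the row `h-t`; after its last visit to the row `t-1` and up to the first
visit to the row `h-t` it crosses edges of `rect 0 (b+1) t (h-t)` not in `ω`. Apply `(i, j) ↦ (i, h-j)`: the path goes from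
the row `h-t+1` to the row `t`, its steps after the first one are edges of `cd ω`: crossing `eh i j`, `1 ≤ t ≤ j`, gives
`ev i (h-j) = delta (eh i j)`, crossing `ev i j` (`1 ≤ i ≤ b ≤ M - 2`) gives `eh (i-1) (h-j) = delta (ev i j)`. So it contains
a crossing `ver 0 b t (h-t) (cd ω)`. Hence `1 - Pc (hor 0 (b+1) t (h-t)) ≤ Pc (fun ω => ver 0 b t (h-t) (cd ω)) = Pc (ver 0 b t (h-t))` by
`cyl_dual`. (If `t = h - t`, `ver` of a rectangle of height `0` always holds.)
`cyl_nver`: if `cd ω` has a crossing `hor 0 (b+1) (t+1) (h-t)`, then it gives a path of faces `(i, h-j)` from column `0` to column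
`b+1` in `rect 0 (b+1) t (h-t-1)` crossing no edge of `ω ∩ edgesIn (rect 1 (b+1) t (h-t))`: so there is no crossing
`ver 1 (b+1) t (h-t) ω` (`ver_iff` with `x0 = 1, x1 = b+1`). And `hor 0 (b+1) (t+1) (h-t-1)` implies `hor 0 (b+1) (t+1) (h-t)`
(`Perc.hor_mono`). -/

namespace Pool.Agent.FKR

open Finset
open Pool.Agent.H95.Wedge (openGraph W Good selfDual clusters)
open Pool.Agent.H95.Perc (Inc conn link rect hor ver eh ev sumE sepE Inci mem_rect)
open Pool.Agent.H95.SumRule (edgesIn Z2)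

variable {M h : ℤ} {q : ℝ}

open Pool.Agent.H95.Perc (act reflY) in
private lemma hor_reflY (c : ℤ) {x0 x1 y0 y1 : ℤ} {κ : Finset (Sym2 (ℤ × ℤ))}
    (hk : hor x0 x1 y0 y1 κ) : hor x0 x1 (c - y1) (c - y0) (act (reflY c) κ) := by
  have h1 := (Pool.Agent.H95.Perc.link_act (Pool.Agent.H95.Perc.isAut_reflY c)
    (V := rect x0 x1 y0 y1) (ω := κ) (A := fun v => v.1 = x0) (B := fun v => v.1 = x1)).2 hk
  rw [Pool.Agent.H95.Perc.rect_reflY] at h1
  exact h1

open Pool.Agent.H95.Perc (act reflY) in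
private lemma ver_reflY (c : ℤ) {x0 x1 y0 y1 : ℤ} {κ : Finset (Sym2 (ℤ × ℤ))}
    (hk : ver x0 x1 y0 y1 κ) : ver x0 x1 (c - y1) (c - y0) (act (reflY c) κ) := by
  obtain ⟨u, v, hu, hv, hu2, hv2, hc⟩ := hk
  have h2 : link (rect x0 x1 y0 y1) (fun v => (reflY c v).2 = c - y1)
      (fun v => (reflY c v).2 = c - y0) κ := by
    refine ⟨v, u, hv, hu, ?_, ?_, hc.symm⟩
    · change c - v.2 = c - y1
      rw [hv2]
    · change c - u.2 = c - y0
      rw [hu2]
  have h1 := (Pool.Agent.H95.Perc.link_act (Pool.Agent.H95.Perc.isAut_reflY c)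
    (V := rect x0 x1 y0 y1) (ω := κ) (A := fun v => v.2 = c - y1) (B := fun v => v.2 = c - y0)).2 h2
  rw [Pool.Agent.H95.Perc.rect_reflY] at h1
  exact h1

open Pool.Agent.H95.Perc (act reflY) in
private lemma act_reflY_reflY (c : ℤ) (κ : Finset (Sym2 (ℤ × ℤ))) :
    act (reflY c) (act (reflY c) κ) = κ := by
  unfold Pool.Agent.H95.Perc.act
  rw [image_image]
  have : (Sym2.map (reflY c) ∘ Sym2.map (reflY c)) = (id : Sym2 (ℤ × ℤ) → Sym2 (ℤ × ℤ)) := by
    funext e
    induction e with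
    | _ x y => simp [Pool.Agent.H95.Perc.reflY]
  rw [this, image_id]

/-- the dual configuration in the cylinder -/
private noncomputable def cd (M h : ℤ) (ω : Finset (Sym2 (ℤ × ℤ))) : Finset (Sym2 (ℤ × ℤ)) :=
  (cylE M h \ ω).image (delta M h) ∪ cylF M

private lemma map_delta_eh (hM : 3 ≤ M) (x y : ℤ) :
    Sym2.map (Pool.Agent.H95.Perc.reflY h) (delta M h (eh x y)) = star (eh x y) := by
  rw [delta_eh hM, star_eh]
  simp only [ev, Sym2.map_mk, Pool.Agent.H95.Perc.reflY, Equiv.coe_fn_mk]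
  rw [show h - (h - y) = y - 1 + 1 by ring, show h - (h - y + 1) = y - 1 by ring, Sym2.eq_swap]

private lemma map_delta_ev (hM : 3 ≤ M) {x : ℤ} (hx : x ≠ 0) (y : ℤ) :
    Sym2.map (Pool.Agent.H95.Perc.reflY h) (delta M h (ev x y)) = star (ev x y) := by
  rw [delta_ev hM hx, star_ev]
  simp only [eh, Sym2.map_mk, Pool.Agent.H95.Perc.reflY, Equiv.coe_fn_mk]
  rw [show h - (h - y) = y by ring]

private lemma star_mem_iff (hM : 3 ≤ M) (hh : 0 ≤ h) {ω : Finset (Sym2 (ℤ × ℤ))}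
    {x0 x1 y0 y1 x0' x1' y0' y1' : ℤ} (hx0 : 0 ≤ x0) (hx1 : x1 ≤ M - 1) (hy0 : 1 ≤ y0)
    (hy1 : y1 ≤ h) (hx0' : 0 ≤ x0') {e : Sym2 (ℤ × ℤ)} (he : e ∈ edgesIn (rect x0 x1 y0 y1))
    (hes : star e ∈ edgesIn (rect x0' x1' y0' y1')) :
    e ∈ ω ↔ star e ∉ Pool.Agent.H95.Perc.act (Pool.Agent.H95.Perc.reflY h) (cd M h ω) := by
  have hcyl : e ∈ cylE M h ∧ Sym2.map (Pool.Agent.H95.Perc.reflY h) (delta M h e) = star e ∧
      delta M h e ∉ cylF M := by
    obtain ⟨x, y, rfl | rfl⟩ := edgesIn_cases he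
    · rw [eh_mem_edgesIn_rect] at he
      refine ⟨?_, map_delta_eh hM x y, ?_⟩
      · rw [cylE_cases hM hh]
        exact Or.inl ⟨x, y, rfl, by omega, by omega, by omega, by omega⟩
      · rw [delta_eh hM, cylF_cases hM]
        rintro (⟨a, h1, _⟩ | h1)
        · exact eh_ne_ev h1.symm
        · have h2 : (M - 1, (0 : ℤ)) ∈ ev x (h - y) := by
            rw [h1]
            exact Sym2.mem_mk_left _ _
          have h3 : ((0 : ℤ), (0 : ℤ)) ∈ ev x (h - y) := by
            rw [h1]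
            exact Sym2.mem_mk_right _ _
          rw [mem_ev, Prod.mk.injEq, Prod.mk.injEq] at h2 h3
          omega
    · rw [ev_mem_edgesIn_rect] at he
      rw [star_ev, eh_mem_edgesIn_rect] at hes
      have hx : x ≠ 0 := by omega
      refine ⟨?_, map_delta_ev hM hx y, ?_⟩
      · rw [cylE_cases hM hh]
        exact Or.inr (Or.inl ⟨x, y, rfl, by omega, by omega, by omega, by omega⟩)
      · rw [delta_ev hM hx, cylF_cases hM]
        rintro (⟨a, h1, _⟩ | h1)
        · rw [eh_inj] at h1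
          omega
        · have h2 : (M - 1, (0 : ℤ)) ∈ eh (x - 1) (h - y) := by
            rw [h1]
            exact Sym2.mem_mk_left _ _
          rw [mem_eh, Prod.mk.injEq, Prod.mk.injEq] at h2
          omega
  obtain ⟨h1, h2, h3⟩ := hcyl
  have h4 : star e ∈ Pool.Agent.H95.Perc.act (Pool.Agent.H95.Perc.reflY h) (cd M h ω) ↔
      delta M h e ∈ cd M h ω := by
    rw [← h2]
    unfold Pool.Agent.H95.Perc.act
    exact (Sym2.map.injective (Pool.Agent.H95.Perc.reflY h).injective).mem_finset_image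
  rw [h4]
  unfold cd
  rw [mem_union, mem_image]
  constructor
  · rintro h5 (⟨e', he', h6⟩ | h6)
    · rw [mem_sdiff] at he'
      have : e' = e := delta_injOn hM hh (mem_coe.2 he'.1) (mem_coe.2 h1) h6
      subst this
      exact he'.2 h5
    · exact h3 h6
  · intro h5
    by_contra h6
    exact h5 (Or.inl ⟨e, mem_sdiff.2 ⟨h1, h6⟩, rfl⟩)

theorem cyl_hv (hq : 0 < q) (hM : 3 ≤ M) {t b : ℤ} (ht : 1 ≤ t) (hth : t ≤ h - t) (hb : 0 ≤ b)
    (hbM : b + 1 ≤ M - 1) :
    1 ≤ Pc q M h (ver 0 b t (h - t)) + Pc q M h (hor 0 (b + 1) t (h - t)) := by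
  have hh : 0 ≤ h := by omega
  have key : ∀ ω : Finset (Sym2 (ℤ × ℤ)), ¬ hor 0 (b + 1) t (h - t) ω →
      ver 0 b t (h - t) (cd M h ω) := by
    intro ω hω
    have h1 := hor_iff_star (x0 := 0) (x1 := b + 1) (y0 := t) (y1 := h - t) (κ := ω)
      (κ' := Pool.Agent.H95.Perc.act (Pool.Agent.H95.Perc.reflY h) (cd M h ω)) (by omega) hth
      (fun e he hes => star_mem_iff hM hh le_rfl hbM ht (by omega) le_rfl he hes)
    rw [h1, not_not] at hω
    have h2 := ver_reflY h hω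
    rw [act_reflY_reflY, show b + 1 - 1 = b by ring] at h2
    exact ver_shrink (by omega) (by omega) (by omega) h2
  have h1 : Pc q M h (fun ω => ¬ hor 0 (b + 1) t (h - t) ω) =
      1 - Pc q M h (hor 0 (b + 1) t (h - t)) := P_not hq _ _ _
  have h2 : Pc q M h (fun ω => ¬ hor 0 (b + 1) t (h - t) ω) ≤
      Pc q M h (fun ω => ver 0 b t (h - t) ((cylE M h \ ω).image (delta M h) ∪ cylF M)) :=
    P_mono hq fun ζ _ h3 => key _ h3
  rw [cyl_dual hq hM (by omega : 1 ≤ h) (ver 0 b t (h - t)), h1] at h2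
  linarith

theorem cyl_nver (hq : 0 < q) (hM : 3 ≤ M) {t b : ℤ} (ht : 1 ≤ t) (hth : t + 3 ≤ h - t) (hb : 0 ≤ b)
    (hbM : b + 1 ≤ M - 1) :
    Pc q M h (hor 0 (b + 1) (t + 1) (h - t - 1)) ≤ 1 - Pc q M h (ver 1 (b + 1) t (h - t)) := by
  have hh : 0 ≤ h := by omega
  have key : ∀ ω : Finset (Sym2 (ℤ × ℤ)), hor 0 (b + 1) (t + 1) (h - t - 1) (cd M h ω) →
      ¬ ver 1 (b + 1) t (h - t) ω := by
    intro ω hω hv
    have h1 := ver_iff_star (x0 := 1) (x1 := b + 1) (y0 := t) (y1 := h - t) (κ := ω)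
      (κ' := Pool.Agent.H95.Perc.act (Pool.Agent.H95.Perc.reflY h) (cd M h ω)) (by omega)
      (by omega) (fun e he hes => star_mem_iff (x0' := 1 - 1) hM hh (by omega) hbM ht (by omega)
        (by omega) he hes)
    rw [h1] at hv
    apply hv
    have h2 := hor_reflY h hω
    rw [show (1 : ℤ) - 1 = 0 by ring]
    exact Pool.Agent.H95.Perc.hor_mono (by omega) (by omega) h2
  have h1 : Pc q M h (fun ω => ¬ ver 1 (b + 1) t (h - t) ω) =
      1 - Pc q M h (ver 1 (b + 1) t (h - t)) := P_not hq _ _ _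
  have h2 : Pc q M h (fun ω => hor 0 (b + 1) (t + 1) (h - t - 1)
      ((cylE M h \ ω).image (delta M h) ∪ cylF M)) ≤
      Pc q M h (fun ω => ¬ ver 1 (b + 1) t (h - t) ω) :=
    P_mono hq fun ζ _ h3 => key _ h3
  rw [cyl_dual hq hM (by omega : 1 ≤ h) (hor 0 (b + 1) (t + 1) (h - t - 1)), h1] at h2
  exact h2

end Pool.Agent.FKR
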