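import Pool.Agent.FKR.CylDual
import Pool.Agent.FKR.MapP
import Pool.Agent.FKR.Topo

/-! # FKR/CylSym (MP_b3e76a_pr): symmetries of the cylinder measure

`Pc_rot`: `P_map` for `rotf M` (injective on `rect 0 (M-1) 0 h`, maps `cylE` onto `cylE` and `cylF` onto `cylF`).
`Pc_refl`: `P_map` for `Perc.reflX (M-1)`.
`Pc_hor_shift`, `Pc_ver_shift`: rectangles not crossing the seam; one step at a time with `Pc_rot` (for `ω ⊆ cylE ∪ cylF`,
`hor (x+1) (x+1+b) y0 y1 (img (rotf M) ω) ↔ hor x (x+b) y0 y1 ω`, `0 ≤ x`, `x + b ≤ M - 2`; the edges of the image inside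
`rect (x+1) (x+1+b) y0 y1` are exactly the translates of those of `ω` inside `rect x (x+b) y0 y1`: the edge `wrapE`
is mapped to `eh 0 y`, which is outside).
`Pc_foot`: `M = 2 m + 1`, the reflection `reflX (2 m)` maps `rect (m-a) (m+a) y0 y1` to itself and feet `≤ m` to
feet `≥ m`. -/

namespace Pool.Agent.FKR

open Finset
open Pool.Agent.H95.Wedge (openGraph W Good selfDual clusters)
open Pool.Agent.H95.Perc (Inc conn link rect hor ver eh ev sumE sepE Inci mem_rect)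
open Pool.Agent.H95.SumRule (edgesIn Z2)

variable {M h : ℤ} {q : ℝ}

/-- the vertices of the cylinder -/
lemma cyl_mem_rect (hM : 3 ≤ M) (hh : 0 ≤ h) {e : Sym2 (ℤ × ℤ)} (he : e ∈ cylE M h ∪ cylF M)
    {v : ℤ × ℤ} (hv : v ∈ e) : v ∈ rect 0 (M - 1) 0 h := by
  rw [mem_union, cylE_cases hM hh, cylF_cases hM] at he
  rw [mem_rect]
  rcases he with (⟨x, y, rfl, h1, h2, h3, h4⟩ | ⟨x, y, rfl, h1, h2, h3, h4⟩ | ⟨y, rfl, h1, h2⟩) |
    (⟨x, rfl, h1, h2⟩ | rfl)
  · rw [mem_eh] at hv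
    rcases hv with rfl | rfl <;> simp only <;> omega
  · rw [mem_ev] at hv
    rcases hv with rfl | rfl <;> simp only <;> omega
  · unfold wrapE at hv
    rw [Sym2.mem_iff] at hv
    rcases hv with rfl | rfl <;> simp only <;> omega
  · rw [mem_eh] at hv
    rcases hv with rfl | rfl <;> simp only <;> omega
  · unfold wrapE at hv
    rw [Sym2.mem_iff] at hv
    rcases hv with rfl | rfl <;> simp only <;> omega

lemma cyl_vts (hM : 3 ≤ M) (hh : 0 ≤ h) {v : ℤ × ℤ} (hv : v ∈ vts (cylE M h ∪ cylF M)) :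
    v ∈ rect 0 (M - 1) 0 h := by
  rw [mem_vts] at hv
  obtain ⟨e, he, hv⟩ := hv
  exact cyl_mem_rect hM hh he hv

lemma rotf_lt {v : ℤ × ℤ} (h0 : 0 ≤ v.1) (h1 : v.1 < M - 1) : rotf M v = (v.1 + 1, v.2) := by
  unfold rotf
  rw [Int.emod_eq_of_lt (by omega) (by omega)]

lemma rotf_last {v : ℤ × ℤ} (h1 : v.1 = M - 1) : rotf M v = (0, v.2) := by
  unfold rotf
  rw [h1, show M - 1 + 1 = M by ring, Int.emod_self]

lemma rotf_injOn (hM : 3 ≤ M) {S : Set (ℤ × ℤ)} (hS : ∀ v ∈ S, 0 ≤ v.1 ∧ v.1 ≤ M - 1) :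
    Set.InjOn (rotf M) S := by
  intro u hu v hv huv
  obtain ⟨u1, u2⟩ := hS u hu
  obtain ⟨v1, v2⟩ := hS v hv
  rcases lt_or_eq_of_le u2 with u3 | u3 <;> rcases lt_or_eq_of_le v2 with v3 | v3
  · rw [rotf_lt u1 u3, rotf_lt v1 v3, Prod.mk.injEq] at huv
    ext <;> omega
  · rw [rotf_lt u1 u3, rotf_last v3, Prod.mk.injEq] at huv
    omega
  · rw [rotf_last u3, rotf_lt v1 v3, Prod.mk.injEq] at huv
    omega
  · rw [rotf_last u3, rotf_last v3, Prod.mk.injEq] at huv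
    ext <;> omega

lemma img_eq_self {f : ℤ × ℤ → ℤ × ℤ} {D : Finset (Sym2 (ℤ × ℤ))}
    (hf : Set.InjOn f (vts D : Set (ℤ × ℤ))) (h : img f D ⊆ D) : img f D = D := by
  apply eq_of_subset_of_card_le h
  unfold img
  rw [card_image_of_injOn (map_injOn hf)]

lemma map_rotf_eh (hM : 3 ≤ M) {x y : ℤ} (h0 : 0 ≤ x) (h1 : x ≤ M - 2) :
    Sym2.map (rotf M) (eh x y) = if x = M - 2 then wrapE M y else eh (x + 1) y := by
  unfold eh
  rw [Sym2.map_mk]
  by_cases hx : x = M - 2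
  · rw [if_pos hx, rotf_lt (v := (x, y)) h0 (by simp only; omega),
      rotf_last (v := (x + 1, y)) (by simp only; omega)]
    unfold wrapE
    subst hx
    rw [show M - 2 + 1 = M - 1 by ring]
  · rw [if_neg hx, rotf_lt (v := (x, y)) h0 (by simp only; omega),
      rotf_lt (v := (x + 1, y)) (by simp only; omega) (by simp only; omega)]

lemma map_rotf_ev {x y : ℤ} (h0 : 0 ≤ x) (h1 : x ≤ M - 1) :
    Sym2.map (rotf M) (ev x y) = if x = M - 1 then ev 0 y else ev (x + 1) y := by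
  unfold ev
  rw [Sym2.map_mk]
  by_cases hx : x = M - 1
  · rw [if_pos hx, rotf_last (v := (x, y)) hx, rotf_last (v := (x, y + 1)) hx]
  · rw [if_neg hx, rotf_lt (v := (x, y)) h0 (by simp only; omega),
      rotf_lt (v := (x, y + 1)) h0 (by simp only; omega)]

lemma map_rotf_wrap (hM : 3 ≤ M) {y : ℤ} : Sym2.map (rotf M) (wrapE M y) = eh 0 y := by
  unfold wrapE eh
  rw [Sym2.map_mk, rotf_last (v := (M - 1, y)) rfl, rotf_lt (v := (0, y)) le_rfl (by simp only; omega)]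

lemma img_rot_cylE (hM : 3 ≤ M) (hh : 0 ≤ h) : img (rotf M) (cylE M h) = cylE M h := by
  apply img_eq_self
  · apply rotf_injOn hM
    intro v hv
    have := cyl_vts hM hh (vts_mono subset_union_left (mem_coe.mp hv))
    rw [mem_rect] at this
    omega
  · intro e he
    unfold img at he
    rw [mem_image] at he
    obtain ⟨e', he', rfl⟩ := he
    rw [cylE_cases hM hh] at he'
    rcases he' with ⟨x, y, rfl, h1, h2, h3, h4⟩ | ⟨x, y, rfl, h1, h2, h3, h4⟩ | ⟨y, rfl, h1, h2⟩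
    · rw [map_rotf_eh hM h1 h2, cylE_cases hM hh]
      split_ifs with hx
      · exact Or.inr (Or.inr ⟨y, rfl, h3, h4⟩)
      · exact Or.inl ⟨x + 1, y, rfl, by omega, by omega, h3, h4⟩
    · rw [map_rotf_ev h1 h2, cylE_cases hM hh]
      split_ifs with hx
      · exact Or.inr (Or.inl ⟨0, y, rfl, by omega, by omega, h3, h4⟩)
      · exact Or.inr (Or.inl ⟨x + 1, y, rfl, by omega, by omega, h3, h4⟩)
    · rw [map_rotf_wrap hM, cylE_cases hM hh]
      exact Or.inl ⟨0, y, rfl, by omega, by omega, h1, h2⟩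

lemma img_rot_cylF (hM : 3 ≤ M) : img (rotf M) (cylF M) = cylF M := by
  apply img_eq_self
  · apply rotf_injOn hM
    intro v hv
    have := cyl_vts hM (le_refl 0) (vts_mono subset_union_right (mem_coe.mp hv))
    rw [mem_rect] at this
    omega
  · intro e he
    unfold img at he
    rw [mem_image] at he
    obtain ⟨e', he', rfl⟩ := he
    rw [cylF_cases hM] at he'
    rcases he' with ⟨x, rfl, h1, h2⟩ | rfl
    · rw [map_rotf_eh hM h1 h2, cylF_cases hM]
      split_ifs with hx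
      · exact Or.inr rfl
      · exact Or.inl ⟨x + 1, rfl, by omega, by omega⟩
    · rw [map_rotf_wrap hM, cylF_cases hM]
      exact Or.inl ⟨0, rfl, by omega, by omega⟩

theorem Pc_rot (hq : 0 < q) (hM : 3 ≤ M) (hh : 0 ≤ h) (A : Finset (Sym2 (ℤ × ℤ)) → Prop) :
    Pc q M h (fun ω => A (img (rotf M) ω)) = Pc q M h A := by
  unfold Pc
  have h1 := P_map (E := cylE M h) (F := cylF M) hq (NL_cylE hM) (NL_cylF hM) (f := rotf M)
    (rotf_injOn hM (fun v hv => by
      have := cyl_vts hM hh (mem_coe.mp hv)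
      rw [mem_rect] at this
      omega)) A
  rw [← h1, img_rot_cylE hM hh, img_rot_cylF hM]

lemma map_refl_eh {x y : ℤ} :
    Sym2.map (Pool.Agent.H95.Perc.reflX (M - 1)) (eh x y) = eh (M - 2 - x) y := by
  unfold eh Pool.Agent.H95.Perc.reflX
  rw [Sym2.map_mk]
  simp only [Equiv.coe_fn_mk]
  rw [Sym2.eq_swap, show M - 1 - (x + 1) = M - 2 - x by ring, show M - 1 - x = M - 2 - x + 1 by ring]

lemma map_refl_ev {x y : ℤ} :
    Sym2.map (Pool.Agent.H95.Perc.reflX (M - 1)) (ev x y) = ev (M - 1 - x) y := by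
  unfold ev Pool.Agent.H95.Perc.reflX
  rw [Sym2.map_mk]
  simp only [Equiv.coe_fn_mk]

lemma map_refl_wrap {y : ℤ} :
    Sym2.map (Pool.Agent.H95.Perc.reflX (M - 1)) (wrapE M y) = wrapE M y := by
  unfold wrapE Pool.Agent.H95.Perc.reflX
  rw [Sym2.map_mk]
  simp only [Equiv.coe_fn_mk]
  rw [Sym2.eq_swap, sub_self, sub_zero]

theorem Pc_refl (hq : 0 < q) (hM : 3 ≤ M) (hh : 0 ≤ h) (A : Finset (Sym2 (ℤ × ℤ)) → Prop) :
    Pc q M h (fun ω => A (img (Pool.Agent.H95.Perc.reflX (M - 1)) ω)) = Pc q M h A := by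
  unfold Pc
  have h1 := P_map (E := cylE M h) (F := cylF M) hq (NL_cylE hM) (NL_cylF hM)
    (f := Pool.Agent.H95.Perc.reflX (M - 1))
    (Pool.Agent.H95.Perc.reflX (M - 1)).injective.injOn A
  rw [← h1]
  have e1 : img (Pool.Agent.H95.Perc.reflX (M - 1)) (cylE M h) = cylE M h := by
    apply img_eq_self (Pool.Agent.H95.Perc.reflX (M - 1)).injective.injOn
    intro e he
    unfold img at he
    rw [mem_image] at he
    obtain ⟨e', he', rfl⟩ := he
    rw [cylE_cases hM hh] at he'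
    rcases he' with ⟨x, y, rfl, h1, h2, h3, h4⟩ | ⟨x, y, rfl, h1, h2, h3, h4⟩ | ⟨y, rfl, h1, h2⟩
    · rw [map_refl_eh, cylE_cases hM hh]
      exact Or.inl ⟨M - 2 - x, y, rfl, by omega, by omega, h3, h4⟩
    · rw [map_refl_ev, cylE_cases hM hh]
      exact Or.inr (Or.inl ⟨M - 1 - x, y, rfl, by omega, by omega, h3, h4⟩)
    · rw [map_refl_wrap, cylE_cases hM hh]
      exact Or.inr (Or.inr ⟨y, rfl, h1, h2⟩)
  have e2 : img (Pool.Agent.H95.Perc.reflX (M - 1)) (cylF M) = cylF M := by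
    apply img_eq_self (Pool.Agent.H95.Perc.reflX (M - 1)).injective.injOn
    intro e he
    unfold img at he
    rw [mem_image] at he
    obtain ⟨e', he', rfl⟩ := he
    rw [cylF_cases hM] at he'
    rcases he' with ⟨x, rfl, h1, h2⟩ | rfl
    · rw [map_refl_eh, cylF_cases hM]
      exact Or.inl ⟨M - 2 - x, rfl, by omega, by omega⟩
    · rw [map_refl_wrap, cylF_cases hM]
      exact Or.inr rfl
  rw [e1, e2]

/-- the rotated configuration is the translated configuration away from the seam -/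
lemma rot_inter (hM : 3 ≤ M) (hh : 0 ≤ h) {V : Finset (ℤ × ℤ)}
    (hV : ∀ v ∈ V, 0 ≤ v.1 ∧ v.1 ≤ M - 2) {ω : Finset (Sym2 (ℤ × ℤ))} (hω : ω ⊆ cylE M h ∪ cylF M) :
    img (rotf M) ω ∩ edgesIn (V.image (Pool.Agent.H95.Perc.trans 1 0)) =
      Pool.Agent.H95.Perc.act (Pool.Agent.H95.Perc.trans 1 0) ω ∩
        edgesIn (V.image (Pool.Agent.H95.Perc.trans 1 0)) := by
  have htr : ∀ v : ℤ × ℤ, 0 ≤ v.1 → v.1 < M - 1 → rotf M v = Pool.Agent.H95.Perc.trans 1 0 v := by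
    intro v h0 h1
    rw [rotf_lt h0 h1]
    unfold Pool.Agent.H95.Perc.trans
    simp
  have htr1 : ∀ v : ℤ × ℤ, (Pool.Agent.H95.Perc.trans 1 0 v).1 = v.1 + 1 := fun v => rfl
  have himg : ∀ v ∈ V.image (Pool.Agent.H95.Perc.trans 1 0), 1 ≤ v.1 ∧ v.1 ≤ M - 1 := by
    intro v hv
    rw [mem_image] at hv
    obtain ⟨w, hw, rfl⟩ := hv
    have := hV w hw
    rw [htr1]
    omega
  have hr : ∀ v : ℤ × ℤ, v ∈ rect 0 (M - 1) 0 h → 1 ≤ (rotf M v).1 → v.1 < M - 1 := by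
    intro v hv h1
    rw [mem_rect] at hv
    by_contra hc
    rw [rotf_last (by omega)] at h1
    simp only at h1
    omega
  ext e
  rw [mem_inter, mem_inter]
  refine and_congr_left fun he => ?_
  unfold img Pool.Agent.H95.Perc.act
  rw [mem_image, mem_image]
  constructor
  · rintro ⟨e', he', h1⟩
    refine ⟨e', he', ?_⟩
    induction e' with
    | _ a b =>
      have ha := cyl_mem_rect hM hh (hω he') (Sym2.mem_mk_left a b)
      have hb := cyl_mem_rect hM hh (hω he') (Sym2.mem_mk_right a b)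
      rw [Sym2.map_mk] at h1
      rw [← h1, Pool.Agent.H95.Perc.mem_edgesIn'] at he
      have h2 := hr a ha (himg _ he.1).1
      have h3 := hr b hb (himg _ he.2.1).1
      rw [mem_rect] at ha hb
      rw [← h1, Sym2.map_mk, htr a ha.1 h2, htr b hb.1 h3]
  · rintro ⟨e', he', h1⟩
    refine ⟨e', he', ?_⟩
    induction e' with
    | _ a b =>
      have ha := cyl_mem_rect hM hh (hω he') (Sym2.mem_mk_left a b)
      have hb := cyl_mem_rect hM hh (hω he') (Sym2.mem_mk_right a b)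
      rw [Sym2.map_mk] at h1
      rw [← h1, Pool.Agent.H95.Perc.mem_edgesIn'] at he
      have h2 := (himg _ he.1).2
      have h3 := (himg _ he.2.1).2
      rw [htr1] at h2 h3
      rw [mem_rect] at ha hb
      rw [← h1, Sym2.map_mk, htr a ha.1 (by omega), htr b hb.1 (by omega)]

/-- one step of the shift -/
lemma Pc_link_step (hq : 0 < q) (hM : 3 ≤ M) (hh : 0 ≤ h) {V : Finset (ℤ × ℤ)}
    (hV : ∀ v ∈ V, 0 ≤ v.1 ∧ v.1 ≤ M - 2) (A B : ℤ × ℤ → Prop) :
    Pc q M h (link (V.image (Pool.Agent.H95.Perc.trans 1 0)) A B) =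
      Pc q M h (link V (fun v => A (Pool.Agent.H95.Perc.trans 1 0 v))
        (fun v => B (Pool.Agent.H95.Perc.trans 1 0 v))) := by
  rw [← Pc_rot hq hM hh]
  unfold Pc
  apply P_congr
  intro ζ hζ
  have hω : ζ ∪ cylF M ⊆ cylE M h ∪ cylF M := union_subset_union hζ (Subset.refl _)
  have h1 := rot_inter hM hh hV hω
  rw [← Pool.Agent.H95.Perc.link_act (Pool.Agent.H95.Perc.isAut_trans 1 0)]
  unfold link conn
  rw [h1]

lemma Pc_link_shift (hq : 0 < q) (hM : 3 ≤ M) (hh : 0 ≤ h) {b y0 y1 : ℤ} (hb : 0 ≤ b)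
    {A B : ℤ → ℤ × ℤ → Prop}
    (hA : ∀ x v, A (x + 1) (v.1 + 1, v.2) ↔ A x v)
    (hB : ∀ x v, B (x + 1) (v.1 + 1, v.2) ↔ B x v) (n : ℕ)
    (hn : (n : ℤ) + b ≤ M - 1) :
    Pc q M h (link (rect n (n + b) y0 y1) (A n) (B n)) = Pc q M h (link (rect 0 b y0 y1) (A 0) (B 0)) := by
  induction n with
  | zero => simp
  | succ n ih =>
    have ih' := ih (by push_cast at hn; omega)
    rw [← ih']
    have h1 := Pc_link_step hq hM hh (V := rect (n : ℤ) (n + b) y0 y1) (by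
      intro v hv
      rw [mem_rect] at hv
      push_cast at hn
      omega) (A ((n : ℤ) + 1)) (B ((n : ℤ) + 1))
    rw [Pool.Agent.H95.Perc.rect_trans] at h1
    have e1 : (fun v => A ((n : ℤ) + 1) (Pool.Agent.H95.Perc.trans 1 0 v)) = A n := by
      funext v
      have : Pool.Agent.H95.Perc.trans 1 0 v = (v.1 + 1, v.2) := by
        unfold Pool.Agent.H95.Perc.trans; simp
      rw [this]
      exact propext (hA n v)
    have e2 : (fun v => B ((n : ℤ) + 1) (Pool.Agent.H95.Perc.trans 1 0 v)) = B n := by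
      funext v
      have : Pool.Agent.H95.Perc.trans 1 0 v = (v.1 + 1, v.2) := by
        unfold Pool.Agent.H95.Perc.trans; simp
      rw [this]
      exact propext (hB n v)
    rw [e1, e2, add_zero, add_zero] at h1
    push_cast
    rw [← h1, show (n : ℤ) + 1 + b = n + b + 1 by ring]

theorem Pc_hor_shift (hq : 0 < q) (hM : 3 ≤ M) (hh : 0 ≤ h) {x b y0 y1 : ℤ} (hx : 0 ≤ x) (hb : 0 ≤ b)
    (hxb : x + b ≤ M - 1) : Pc q M h (hor x (x + b) y0 y1) = Pc q M h (hor 0 b y0 y1) := by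
  obtain ⟨n, rfl⟩ := Int.eq_ofNat_of_zero_le hx
  have h1 := Pc_link_shift hq hM hh (y0 := y0) (y1 := y1) hb (A := fun x v => v.1 = x)
    (B := fun x v => v.1 = x + b) (fun x v => by simp) (fun x v => by simp only; omega) n hxb
  unfold hor
  rw [h1, zero_add]

theorem Pc_ver_shift (hq : 0 < q) (hM : 3 ≤ M) (hh : 0 ≤ h) {x b y0 y1 : ℤ} (hx : 0 ≤ x) (hb : 0 ≤ b)
    (hxb : x + b ≤ M - 1) : Pc q M h (ver x (x + b) y0 y1) = Pc q M h (ver 0 b y0 y1) := by
  obtain ⟨n, rfl⟩ := Int.eq_ofNat_of_zero_le hx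
  exact Pc_link_shift hq hM hh (y0 := y0) (y1 := y1) hb (A := fun _ v => v.2 = y0)
    (B := fun _ v => v.2 = y1) (fun x v => Iff.rfl) (fun x v => Iff.rfl) n hxb

theorem Pc_foot (hq : 0 < q) {m : ℤ} (hm : 1 ≤ m) (hh : 0 ≤ h) {a y0 y1 : ℤ} (ha : 0 ≤ a) (ham : a ≤ m) :
    Pc q (2 * m + 1) h (ver (m - a) (m + a) y0 y1) ≤
      2 * Pc q (2 * m + 1) h (link (rect (m - a) (m + a) y0 y1) (fun v => v.2 = y0 ∧ v.1 ≤ m)
        (fun v => v.2 = y1)) := by
  set V := rect (m - a) (m + a) y0 y1 with hV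
  have hM : (3 : ℤ) ≤ 2 * m + 1 := by omega
  have h1 : Pc q (2 * m + 1) h (link V (fun v => v.2 = y0 ∧ m ≤ v.1) (fun v => v.2 = y1)) =
      Pc q (2 * m + 1) h (link V (fun v => v.2 = y0 ∧ v.1 ≤ m) (fun v => v.2 = y1)) := by
    rw [← Pc_refl hq hM hh]
    unfold Pc
    apply P_congr
    intro ζ hζ
    have hVi : V.image (Pool.Agent.H95.Perc.reflX (2 * m + 1 - 1)) = V := by
      rw [hV, Pool.Agent.H95.Perc.rect_reflX]
      congr 1 <;> ring
    have h2 := Pool.Agent.H95.Perc.link_act (Pool.Agent.H95.Perc.isAut_reflX (2 * m + 1 - 1))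
      (V := V) (ω := ζ ∪ cylF (2 * m + 1)) (A := fun v => v.2 = y0 ∧ m ≤ v.1)
      (B := fun v => v.2 = y1)
    rw [hVi] at h2
    refine Iff.trans h2 ?_
    constructor
    · intro hl
      refine hl.mono (Subset.refl _) (fun v _ hv => ?_) (fun v _ hv => hv)
      simp only [Pool.Agent.H95.Perc.reflX, Equiv.coe_fn_mk] at hv
      omega
    · intro hl
      refine hl.mono (Subset.refl _) (fun v _ hv => ?_) (fun v _ hv => hv)
      simp only [Pool.Agent.H95.Perc.reflX, Equiv.coe_fn_mk]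
      omega
  have h2 : Pc q (2 * m + 1) h (ver (m - a) (m + a) y0 y1) ≤
      Pc q (2 * m + 1) h (fun ω => link V (fun v => v.2 = y0 ∧ v.1 ≤ m) (fun v => v.2 = y1) ω ∨
        link V (fun v => v.2 = y0 ∧ m ≤ v.1) (fun v => v.2 = y1) ω) := by
    unfold Pc
    apply P_mono hq
    rintro ζ _ ⟨u, v, hu, hv, hu2, hv2, hc⟩
    rcases le_total u.1 m with hm' | hm'
    · exact Or.inl ⟨u, v, hu, hv, ⟨hu2, hm'⟩, hv2, hc⟩
    · exact Or.inr ⟨u, v, hu, hv, ⟨hu2, hm'⟩, hv2, hc⟩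
  have h3 : Pc q (2 * m + 1) h (fun ω => link V (fun v => v.2 = y0 ∧ v.1 ≤ m) (fun v => v.2 = y1) ω ∨
        link V (fun v => v.2 = y0 ∧ m ≤ v.1) (fun v => v.2 = y1) ω) ≤
      Pc q (2 * m + 1) h (link V (fun v => v.2 = y0 ∧ v.1 ≤ m) (fun v => v.2 = y1)) +
      Pc q (2 * m + 1) h (link V (fun v => v.2 = y0 ∧ m ≤ v.1) (fun v => v.2 = y1)) := by
    unfold Pc
    exact P_or_le hq _ _ _ _
  rw [h1] at h3
  linarith

end Pool.Agent.FKR
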