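import Pool.Agent.H95.Wedge.FK
import Pool.Agent.H95.Perc.Duality

/-!
# FKR (MP_b3e76a_pr): definitions of stage 1

Crossing estimates (Russo-Seymour-Welsh) for the self-dual random-cluster model with cluster weight
`q ≥ 1` on the square lattice, in a cylinder with mixed boundary conditions.
See `BLUEPRINT.md` in this folder.
-/

namespace Pool.Agent.FKR

open Finset
open Pool.Agent.H95.Wedge (openGraph W Good selfDual)
open Pool.Agent.H95.Susc (fil ws Lat)
open Pool.Agent.H95.Perc (Inc conn link rect hor ver eh ev sumE sepE Inci)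
open Pool.Agent.H95.SumRule (edgesIn Z2)

/-! ### random-cluster measures on a finite graph -/

section general
variable {α : Type*} [DecidableEq α]

/-- no loops -/
def NL (E : Finset (Sym2 α)) : Prop := ∀ e ∈ E, ¬ e.IsDiag

/-- endpoints of the edges of `E` -/
def vts (E : Finset (Sym2 α)) : Finset α := E.biUnion Sym2.toFinset

/-- `u` and `v` are connected by edges of `ω` -/
def Cn (ω : Finset (Sym2 α)) (u v : α) : Prop := (openGraph ω).Reachable u v

/-- decreasing event -/
def Dcr (A : Finset (Sym2 α) → Prop) : Prop := ∀ ω ω', ω ⊆ ω' → A ω' → A ω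

/-- weight of the configuration `ζ ∪ F` -/
noncomputable def wt (q : ℝ) (E F ζ : Finset (Sym2 α)) : ℝ := W q (vts (E ∪ F)) (ζ ∪ F)

/-- Self-dual random-cluster probability. `E`: active edges; `F`: edges which are always open; all
other edges are closed. The event is evaluated at the full configuration `ζ ∪ F`, `ζ ⊆ E`. -/
noncomputable def P (q : ℝ) (E F : Finset (Sym2 α)) (A : Finset (Sym2 α) → Prop) : ℝ :=
  ws (wt q E F) E (fun ζ => A (ζ ∪ F)) / ws (wt q E F) E (fun _ => True)

end general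

/-! ### faces and dual edges of the square lattice

The face with lower left corner `(i, j)` is denoted by `(i, j) : ℤ × ℤ`. `eh x y` is the horizontal
edge from `(x, y)` to `(x + 1, y)`, `ev x y` the vertical edge from `(x, y)` to `(x, y + 1)`. -/

/-- the dual edge, joining the two faces adjacent to a lattice edge:
`star (eh x y) = ev x (y - 1)`, `star (ev x y) = eh (x - 1) y` -/
def star (e : Sym2 (ℤ × ℤ)) : Sym2 (ℤ × ℤ) :=
  if (sumE e).1 % 2 = 1 then ev ((sumE e).1 / 2) ((sumE e).2 / 2 - 1)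
  else eh ((sumE e).1 / 2 - 1) ((sumE e).2 / 2)

/-- the edge `e` has a side in the set of faces `N` -/
def touch (N : Finset (ℤ × ℤ)) (e : Sym2 (ℤ × ℤ)) : Prop := ∃ f ∈ N, f ∈ star e

/-- graph of the faces in `Φ`, adjacent faces being joined unless the edge between them is in `κ` -/
def dG (Φ : Finset (ℤ × ℤ)) (κ : Finset (Sym2 (ℤ × ℤ))) : SimpleGraph (ℤ × ℤ) where
  Adj f g := f ∈ Φ ∧ g ∈ Φ ∧ Z2.Adj f g ∧ sepE f g ∉ κ
  symm := ⟨fun _ _ ⟨h1, h2, h3, h4⟩ => ⟨h2, h1, h3.symm, by
    rwa [Pool.Agent.H95.Perc.sepE_comm h3.symm]⟩⟩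
  loopless := ⟨fun _ ⟨_, _, h, _⟩ => h.ne rfl⟩

open Classical in
/-- the faces of `Φ` connected to a face satisfying `S` -/
noncomputable def Ucl (Φ : Finset (ℤ × ℤ)) (κ : Finset (Sym2 (ℤ × ℤ))) (S : ℤ × ℤ → Prop) :
    Finset (ℤ × ℤ) :=
  Φ.filter fun f => ∃ g ∈ Φ, S g ∧ (dG Φ κ).Reachable g f

/-- the faces which are separated from `S'` by the cluster of `S`, together with this cluster -/
noncomputable def Nx (Φ : Finset (ℤ × ℤ)) (κ : Finset (Sym2 (ℤ × ℤ))) (S S' : ℤ × ℤ → Prop) :
    Finset (ℤ × ℤ) :=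
  Φ \ Ucl (Φ \ Ucl Φ κ S) ∅ S'

open Classical in
/-- the edges between `N` and `Φ \ N` -/
noncomputable def bdN (Φ N : Finset (ℤ × ℤ)) : Finset (Sym2 (ℤ × ℤ)) :=
  ((N ×ˢ (Φ \ N)).filter fun p => Z2.Adj p.1 p.2).image fun p => sepE p.1 p.2

end Pool.Agent.FKR
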