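import Pool.Agent.FKR.Thin

/-! # FKR/Esc (MP_b3e76a_pr): an arm crosses a thin strip or visits the bulk (deterministic)

`Cn.middle` with `f = nm`, `a = n`, `b = 2 n` gives `u`, `v` with `nm u = n`, `nm v = 2 n`, `Cn ω tip u`, `Cn (ins (n ≤ nm ≤ 2n) ω) u v`. If a vertex `z` of
this connected set (`Cn (ins ..) u z`) is not in `strip0 = (ch 0) '' rect n (2n) 0 r` and not in `stripm = (ch m) '' rect n (2n) (-r) 0`,
then `Bulk` by `WE_chart`. Otherwise all these vertices are in the strips; there is no edge between the two strips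
(`WE_elim` with `j = 0`, `ch_inj`, `ch_succ` for `m = 1`; `2 r + 2 ≤ n`), so all are in one strip (`Cn.closed`), and the connection
pulls back to a connection inside the rectangle: `hor`. -/

namespace Pool.Agent.FKR

open Finset
open Pool.Agent.H95.Perc (Inc conn link rect hor ver eh ev mem_rect)
open Pool.Agent.H95.SumRule (edgesIn Z2)
open Pool.Agent.H95.Wedge (Vtx pt)

/-- the tip is connected to a vertex between the norms `n` and `2 n`, at distance `> r` from the boundary rays -/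
def Bulk (m n : ℕ) (r : ℤ) (ω : Finset (Sym2 Vtx)) : Prop :=
  ∃ j x y : ℤ, 0 ≤ j ∧ j ≤ m ∧ n ≤ x ∧ x ≤ 2 * n ∧ |y| ≤ x ∧ (j = 0 → r < y) ∧ (j = m → y < -r) ∧
    Cn ω tip (ch j (x, y))

/-- a connection all of whose vertices are in a strip pulls back to the strip -/
private theorem esc_pull {m N : ℕ} {j : ℤ} {V : Finset (ℤ × ℤ)} (hV : ∀ p ∈ V, 1 ≤ p.1)
    {ω ω' : Finset (Sym2 Vtx)} (hω : ω ⊆ WE m N) (hs : ω' ⊆ ω) {a : ℤ × ℤ} (ha : a ∈ V) {v : Vtx}
    (h : Cn ω' (ch j a) v) (hall : ∀ z, Cn ω' (ch j a) z → ∃ p ∈ V, z = ch j p) :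
    ∃ b ∈ V, v = ch j b ∧ conn V (pull (ch j) V ω) a b := by
  have key := h.closed (S := fun z => Cn ω' (ch j a) z ∧
    ∃ b ∈ V, z = ch j b ∧ conn V (pull (ch j) V ω) a b)
    ⟨Cn_refl _ _, a, ha, rfl, Pool.Agent.H95.Perc.conn_refl _ _ _⟩ ?_
  · exact key.2
  rintro x y ⟨hcx, b, hb, rfl, hconn⟩ hxy
  have hcy : Cn ω' (ch j a) y := hcx.trans (Cn_edge hxy)
  refine ⟨hcy, ?_⟩
  obtain ⟨b', hb', rfl⟩ := hall y hcy
  obtain ⟨p', hadj, hp', he, -, -, -, -⟩ := WE_elim (hω (hs hxy)) (hV b hb) (Sym2.mem_mk_left _ _)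
  have h1 : ch j b' = ch j p' := Sym2.congr_right.1 he
  have h2 : b' = p' := ch_inj j (by have := hV b' hb'; show 0 ≤ b'.1; omega) hp' h1
  subst h2
  refine ⟨b', hb', rfl, hconn.trans (Pool.Agent.H95.Perc.conn_step hb hb' hadj ?_)⟩
  classical
  unfold pull
  rw [mem_filter]
  exact ⟨Pool.Agent.H95.Perc.mem_edgesIn'.mpr ⟨hb, hb', hadj⟩, by simpa using hs hxy⟩

/-- there is no edge between the two strips -/
private theorem esc_sep {m n N : ℕ} (hm : 1 ≤ m) (hn : 1 ≤ n) {r : ℤ} (hr : 0 ≤ r)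
    (hr' : 2 * r + 2 ≤ n) {p p' : ℤ × ℤ} (hp : p ∈ rect n (2 * n) 0 r)
    (hp' : p' ∈ rect n (2 * n) (-r) 0) (h : s(ch 0 p, ch m p') ∈ WE m N) : False := by
  rw [mem_rect] at hp hp'
  obtain ⟨t, hadj, ht, he, -, -, h0, -⟩ := WE_elim h (p := p) (j := 0) (by omega)
    (Sym2.mem_mk_left _ _)
  have h1 : ch m p' = ch 0 t := Sym2.congr_right.1 he
  obtain ⟨-, ht2⟩ := h0 rfl
  obtain ⟨a, b⟩ := p
  obtain ⟨c, d⟩ := p'
  obtain ⟨x, y⟩ := t
  rw [Z2_adj_iff] at hadj
  dsimp only at hp hp' ht ht2 hadj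
  unfold ch pt at h1
  dsimp only at h1
  rw [if_pos ht2, if_neg (by omega : ¬ x.toNat = 0)] at h1
  split_ifs at h1 <;> simp only [Prod.mk.injEq] at h1 <;> omega

theorem esc {m n N : ℕ} (hm : 1 ≤ m) (hn : 1 ≤ n) {r : ℤ} (hr : 0 ≤ r) (hr' : 2 * r + 2 ≤ n)
    {ω : Finset (Sym2 Vtx)} (hω : ω ⊆ WE m N) (h : Arm (2 * n) ω) : Th m n r ω ∨ Bulk m n r ω := by
  by_cases hB : Bulk m n r ω
  · exact Or.inr hB
  left
  obtain ⟨v0, hv0, hc0⟩ := h
  have hstep : ∀ x y, s(x, y) ∈ ω → (nm y : ℤ) ≤ nm x + 1 := by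
    intro x y hxy
    have := (WE_nm (hω hxy)).1
    exact_mod_cast this
  obtain ⟨u, v, hu, hv, hcu, huv⟩ := hc0.middle (f := fun z => (nm z : ℤ)) hstep
    (a := n) (b := 2 * n) (by omega) (by rw [nm_tip]; omega) (by exact_mod_cast hv0)
  set ω' := ins (fun z => (n : ℤ) ≤ (nm z : ℤ) ∧ (nm z : ℤ) ≤ 2 * n) ω with hω'
  have hs : ω' ⊆ ω := ins_subset _ _
  have hne : u ≠ v := by
    rintro rfl
    omega
  have hnt : ∀ z : Vtx, (n : ℤ) ≤ nm z → z ≠ tip := by
    rintro z hz rfl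
    rw [nm_tip] at hz
    omega
  -- every vertex is in one of the strips
  have hcl : ∀ z, Cn ω' u z → (n : ℤ) ≤ nm z ∧ (nm z : ℤ) ≤ 2 * n := by
    intro z hz
    refine hz.closed (S := fun z => (n : ℤ) ≤ nm z ∧ (nm z : ℤ) ≤ 2 * n) (by omega) ?_
    intro x y _ hxy
    rw [hω', mem_ins'] at hxy
    exact hxy.2 y (Sym2.mem_mk_right _ _)
  have hst : ∀ z, Cn ω' u z → (∃ p ∈ rect n (2 * n) 0 r, z = ch 0 p) ∨
      (∃ p ∈ rect n (2 * n) (-r) 0, z = ch m p) := by
    intro z hz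
    obtain ⟨h1, h2⟩ := hcl z hz
    have hzv : z ∈ vts (WE m N) := by
      by_cases hzu : u = z
      · subst hzu
        exact vts_mono (hs.trans hω) (huv.mem_vts hne).1
      · exact vts_mono (hs.trans hω) (hz.mem_vts hzu).2
    obtain ⟨j, hj0, hjm, y, hy, hzj, hy0, hym⟩ := WE_chart hzv (hnt z h1)
    by_contra hcon
    push Not at hcon
    refine hB ⟨j, nm z, y, hj0, hjm, h1, h2, hy, ?_, ?_, ?_⟩
    · intro hj
      by_contra hyr
      subst hj
      have := hy0 rfl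
      exact hcon.1 ((nm z : ℤ), y) (by rw [mem_rect]; dsimp only; omega) hzj
    · intro hj
      by_contra hyr
      subst hj
      have := hym rfl
      exact hcon.2 ((nm z : ℤ), y) (by rw [mem_rect]; dsimp only; omega) hzj
    · rw [← hzj]
      exact hcu.trans (hz.mono hs)
  rcases hst u (Cn_refl _ _) with ⟨a, ha, hua⟩ | ⟨a, ha, hua⟩
  · left
    subst hua
    have hall : ∀ z, Cn ω' (ch 0 a) z → ∃ p ∈ rect n (2 * n) 0 r, z = ch 0 p := by
      intro z hz
      have := hz.closed (S := fun z => Cn ω' (ch 0 a) z ∧ ∃ p ∈ rect n (2 * n) 0 r, z = ch 0 p)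
        ⟨Cn_refl _ _, a, ha, rfl⟩ ?_
      · exact this.2
      rintro x y ⟨hcx, p, hp, rfl⟩ hxy
      have hcy : Cn ω' (ch 0 a) y := hcx.trans (Cn_edge hxy)
      refine ⟨hcy, ?_⟩
      rcases hst y hcy with h1 | ⟨p', hp', rfl⟩
      · exact h1
      · exact (esc_sep hm hn hr hr' hp hp' (hω (hs hxy))).elim
    obtain ⟨b, hb, hvb, hconn⟩ := esc_pull (V := rect n (2 * n) 0 r)
      (fun p hp => by rw [mem_rect] at hp; omega) hω hs ha huv hall
    refine ⟨a, b, ha, hb, ?_, ?_, hconn⟩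
    · rw [mem_rect] at ha
      have h1 := nm_ch 0 (p := a) (by omega)
      rw [hu, abs_of_nonneg (by omega), max_eq_left (by omega)] at h1
      exact h1.symm
    · rw [mem_rect] at hb
      have h1 := nm_ch 0 (p := b) (by omega)
      rw [← hvb, hv, abs_of_nonneg (by omega), max_eq_left (by omega)] at h1
      exact h1.symm
  · right
    subst hua
    have hall : ∀ z, Cn ω' (ch m a) z → ∃ p ∈ rect n (2 * n) (-r) 0, z = ch m p := by
      intro z hz
      have := hz.closed (S := fun z => Cn ω' (ch m a) z ∧ ∃ p ∈ rect n (2 * n) (-r) 0, z = ch m p)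
        ⟨Cn_refl _ _, a, ha, rfl⟩ ?_
      · exact this.2
      rintro x y ⟨hcx, p, hp, rfl⟩ hxy
      have hcy : Cn ω' (ch m a) y := hcx.trans (Cn_edge hxy)
      refine ⟨hcy, ?_⟩
      rcases hst y hcy with ⟨p', hp', rfl⟩ | h1
      · have h2 := hω (hs hxy)
        rw [Sym2.eq_swap] at h2
        exact (esc_sep hm hn hr hr' hp' hp h2).elim
      · exact h1
    obtain ⟨b, hb, hvb, hconn⟩ := esc_pull (V := rect n (2 * n) (-r) 0)
      (fun p hp => by rw [mem_rect] at hp; omega) hω hs ha huv hall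
    refine ⟨a, b, ha, hb, ?_, ?_, hconn⟩
    · rw [mem_rect] at ha
      have h1 := nm_ch m (p := a) (by omega)
      rw [hu, abs_of_nonpos (by omega), max_eq_left (by omega)] at h1
      exact h1.symm
    · rw [mem_rect] at hb
      have h1 := nm_ch m (p := b) (by omega)
      rw [← hvb, hv, abs_of_nonpos (by omega), max_eq_left (by omega)] at h1
      exact h1.symm

end Pool.Agent.FKR
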