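import Pool.Agent.FKR.Faces

/-! # FKR/Expl (MP_b3e76a_pr): exploration of a dual cluster

`U = Ucl Φ κ S`: the faces of `Φ` connected to the seeds `S` without crossing an edge of `κ`.
`N = Nx Φ κ S S'`: the complement in `Φ` of the part of `Φ \ U` which is connected (in the face lattice)
to the seeds `S'`. Facts: faces of `N` adjacent to `W = Φ \ N` are in `U`, separated from `W` by edges of
`κ`; `N` only depends on the states of the edges `sepE f g`, `f ∈ N`. -/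

namespace Pool.Agent.FKR

open Finset
open Pool.Agent.H95.Wedge (openGraph W Good selfDual clusters)
open Pool.Agent.H95.Perc (Inc conn link rect hor ver eh ev sumE sepE Inci mem_rect)
open Pool.Agent.H95.SumRule (edgesIn Z2)

variable {Φ : Finset (ℤ × ℤ)} {κ κ' : Finset (Sym2 (ℤ × ℤ))} {S S' : ℤ × ℤ → Prop}

theorem mem_Ucl {f : ℤ × ℤ} : f ∈ Ucl Φ κ S ↔ f ∈ Φ ∧ ∃ g ∈ Φ, S g ∧ (dG Φ κ).Reachable g f := by
  simp [Ucl]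

theorem Ucl_seed {f : ℤ × ℤ} (hf : f ∈ Φ) (hS : S f) : f ∈ Ucl Φ κ S :=
  mem_Ucl.2 ⟨hf, f, hf, hS, SimpleGraph.Reachable.refl f⟩

theorem Ucl_step {f g : ℤ × ℤ} (hf : f ∈ Ucl Φ κ S) (hg : g ∈ Φ) (h : Z2.Adj f g)
    (he : sepE f g ∉ κ) : g ∈ Ucl Φ κ S := by
  obtain ⟨hf', s, hs, hS, hr⟩ := mem_Ucl.1 hf
  exact mem_Ucl.2 ⟨hg, s, hs, hS, hr.trans (SimpleGraph.Adj.reachable (dG_adj.2 ⟨hf', hg, h, he⟩))⟩

private theorem Ucl_sub : Ucl Φ κ S ⊆ Φ := fun _ hf => (mem_Ucl.1 hf).1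

private theorem mem_Nx {f : ℤ × ℤ} :
    f ∈ Nx Φ κ S S' ↔ f ∈ Φ ∧ f ∉ Ucl (Φ \ Ucl Φ κ S) ∅ S' := by
  rw [Nx, mem_sdiff]

theorem Ucl_subset_Nx : Ucl Φ κ S ⊆ Nx Φ κ S S' := by
  intro f hf
  refine mem_Nx.2 ⟨Ucl_sub hf, fun h => ?_⟩
  exact (mem_sdiff.1 (Ucl_sub h)).2 hf

theorem Nx_subset : Nx Φ κ S S' ⊆ Φ := fun _ hf => (mem_Nx.1 hf).1

theorem Nx_seed {f : ℤ × ℤ} (hf : f ∈ Φ) (hS : S f) : f ∈ Nx Φ κ S S' :=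
  Ucl_subset_Nx (Ucl_seed hf hS)

/-- boundary of `N` -/
theorem Nx_bdry {f g : ℤ × ℤ} (hf : f ∈ Nx Φ κ S S') (hg : g ∈ Φ) (hg' : g ∉ Nx Φ κ S S')
    (h : Z2.Adj f g) : f ∈ Ucl Φ κ S ∧ g ∉ Ucl Φ κ S ∧ sepE f g ∈ κ := by
  have hgV : g ∈ Ucl (Φ \ Ucl Φ κ S) ∅ S' := by
    by_contra hc
    exact hg' (mem_Nx.2 ⟨hg, hc⟩)
  have hgU : g ∉ Ucl Φ κ S := (mem_sdiff.1 (Ucl_sub hgV)).2
  have hfU : f ∈ Ucl Φ κ S := by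
    by_contra hc
    exact (mem_Nx.1 hf).2 (Ucl_step hgV (mem_sdiff.2 ⟨(mem_Nx.1 hf).1, hc⟩) h.symm (by simp))
  refine ⟨hfU, hgU, ?_⟩
  by_contra hc
  exact hgU (Ucl_step hfU hg h hc)

theorem bdN_Nx_subset : bdN Φ (Nx Φ κ S S') ⊆ κ := by
  intro e he
  obtain ⟨f, g, hf, hg, hg', h, rfl⟩ := mem_bdN.1 he
  exact (Nx_bdry hf hg hg' h).2.2

/-- seeds `S'` not reached from `S` are outside `N` -/
theorem Nx_other {f : ℤ × ℤ} (hf : f ∈ Φ) (hS' : S' f) (h : f ∉ Ucl Φ κ S) : f ∉ Nx Φ κ S S' := by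
  intro hN
  exact (mem_Nx.1 hN).2 (Ucl_seed (mem_sdiff.2 ⟨hf, h⟩) hS')

/-- an edge with both sides in the same class is not in the boundary -/
private theorem not_mem_bdN {Φ N : Finset (ℤ × ℤ)} {f g : ℤ × ℤ} (h : Z2.Adj f g)
    (hfg : f ∈ N ↔ g ∈ N) : sepE f g ∉ bdN Φ N := by
  intro he
  obtain ⟨x, y, hx, -, hy, hxy, e⟩ := mem_bdN.1 he
  have h1 : s(f, g) = s(x, y) := by rw [← star_sepE h, ← star_sepE hxy, e]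
  rcases Sym2.eq_iff.1 h1 with ⟨rfl, rfl⟩ | ⟨rfl, rfl⟩
  · exact hy (hfg.1 hx)
  · exact hy (hfg.2 hx)

/-- walking inside a closed class -/
private theorem walk_in {Φ' Φ : Finset (ℤ × ℤ)} {κ κ' : Finset (Sym2 (ℤ × ℤ))} {K : ℤ × ℤ → Prop}
    (hst : ∀ a b, K a → (dG Φ' κ).Adj a b → K b ∧ (dG Φ κ').Adj a b) {g f : ℤ × ℤ} (hg : K g)
    (h : (dG Φ' κ).Reachable g f) : K f ∧ (dG Φ κ').Reachable g f := by
  rw [SimpleGraph.reachable_iff_reflTransGen] at h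
  induction h with
  | refl => exact ⟨hg, SimpleGraph.Reachable.refl _⟩
  | tail _ hbc ih =>
    obtain ⟨h1, h2⟩ := ih
    obtain ⟨h3, h4⟩ := hst _ _ h1 hbc
    exact ⟨h3, h2.trans h4.reachable⟩

/-- faces outside `N` are connected to a seed `S'` without crossing the boundary of `N` -/
theorem Nx_conn' {f : ℤ × ℤ} (hf : f ∈ Φ) (hf' : f ∉ Nx Φ κ S S') :
    ∃ g ∈ Φ, S' g ∧ g ∉ Nx Φ κ S S' ∧ (dG Φ (bdN Φ (Nx Φ κ S S'))).Reachable g f := by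
  have hfV : f ∈ Ucl (Φ \ Ucl Φ κ S) ∅ S' := by
    by_contra hc
    exact hf' (mem_Nx.2 ⟨hf, hc⟩)
  obtain ⟨-, g, hg, hS, hr⟩ := mem_Ucl.1 hfV
  have hgV : g ∈ Ucl (Φ \ Ucl Φ κ S) ∅ S' := Ucl_seed hg hS
  refine ⟨g, (mem_sdiff.1 hg).1, hS, fun h => (mem_Nx.1 h).2 hgV, ?_⟩
  refine (walk_in (K := fun x => x ∈ Ucl (Φ \ Ucl Φ κ S) ∅ S') ?_ hgV hr).2
  intro a b ha hab
  obtain ⟨h1, h2, h3, h4⟩ := dG_adj.1 hab
  have hb : b ∈ Ucl (Φ \ Ucl Φ κ S) ∅ S' := Ucl_step ha h2 h3 h4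
  refine ⟨hb, dG_adj.2 ⟨(mem_sdiff.1 h1).1, (mem_sdiff.1 h2).1, h3, not_mem_bdN h3 ?_⟩⟩
  constructor
  · intro h; exact absurd ha (mem_Nx.1 h).2
  · intro h; exact absurd hb (mem_Nx.1 h).2

/-- faces of `N` next to the boundary are connected to a seed `S` without crossing the boundary -/
theorem Nx_conn {f g : ℤ × ℤ} (hf : f ∈ Nx Φ κ S S') (hg : g ∈ Φ) (hg' : g ∉ Nx Φ κ S S')
    (h : Z2.Adj f g) :
    ∃ f' ∈ Φ, S f' ∧ (dG Φ (bdN Φ (Nx Φ κ S S'))).Reachable f' f := by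
  obtain ⟨-, s, hs, hS, hr⟩ := mem_Ucl.1 (Nx_bdry hf hg hg' h).1
  refine ⟨s, hs, hS, ?_⟩
  refine (walk_in (K := fun x => x ∈ Ucl Φ κ S) ?_ (Ucl_seed hs hS) hr).2
  intro a b ha hab
  obtain ⟨h1, h2, h3, h4⟩ := dG_adj.1 hab
  have hb : b ∈ Ucl Φ κ S := Ucl_step ha h2 h3 h4
  exact ⟨hb, dG_adj.2 ⟨h1, h2, h3, not_mem_bdN h3
    ⟨fun _ => Ucl_subset_Nx hb, fun _ => Ucl_subset_Nx ha⟩⟩⟩

/-- stopping property -/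
theorem Nx_stop (h : ∀ f ∈ Nx Φ κ S S', ∀ g ∈ Φ, Z2.Adj f g → (sepE f g ∈ κ ↔ sepE f g ∈ κ')) :
    Ucl Φ κ' S = Ucl Φ κ S ∧ Nx Φ κ' S S' = Nx Φ κ S S' := by
  have hU : Ucl Φ κ' S = Ucl Φ κ S := by
    ext f
    constructor
    · intro hf
      obtain ⟨-, s, hs, hS, hr⟩ := mem_Ucl.1 hf
      refine (walk_in (Φ := Φ) (κ' := κ) (K := fun x => x ∈ Ucl Φ κ S) ?_ (Ucl_seed hs hS) hr).1
      intro a b ha hab
      obtain ⟨h1, h2, h3, h4⟩ := dG_adj.1 hab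
      have h5 : sepE a b ∉ κ := fun h6 => h4 ((h a (Ucl_subset_Nx ha) b h2 h3).1 h6)
      exact ⟨Ucl_step ha h2 h3 h5, dG_adj.2 ⟨h1, h2, h3, h5⟩⟩
    · intro hf
      obtain ⟨hfΦ, s, hs, hS, hr⟩ := mem_Ucl.1 hf
      refine mem_Ucl.2 ⟨hfΦ, s, hs, hS, ?_⟩
      refine (walk_in (K := fun x => x ∈ Ucl Φ κ S) ?_ (Ucl_seed hs hS) hr).2
      intro a b ha hab
      obtain ⟨h1, h2, h3, h4⟩ := dG_adj.1 hab
      have h5 : sepE a b ∉ κ' := fun h6 => h4 ((h a (Ucl_subset_Nx ha) b h2 h3).2 h6)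
      exact ⟨Ucl_step ha h2 h3 h4, dG_adj.2 ⟨h1, h2, h3, h5⟩⟩
  refine ⟨hU, ?_⟩
  rw [Nx, Nx, hU]

end Pool.Agent.FKR
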