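import Pool.Agent.FKR.Basic

/-! # FKR/Faces (MP_b3e76a_pr): faces, dual edges, boundary of a set of faces

Elementary facts about `star`, `sepE`, `touch`, `dG`, `Ucl`, and the fact that the boundary `bd U` of a
finite set `U` of faces is an even edge set: at the vertex `(a, b)` the four edges
`eh a b, ev a b, eh (a-1) b, ev a (b-1)` have as sides consecutive faces in the cyclic sequence
`(a, b-1), (a, b), (a-1, b), (a-1, b-1)`; a cyclic sequence of four truth values changes an even number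
of times. (`decide` on four Booleans after rewriting the filter as a subset of the four edges.)
See `H95/Perc/Duality` (`sumE_eh`, `sumE_ev`, `edge_cases`) and `H95/Perc/Dual` (`sepE_h` etc.). -/

namespace Pool.Agent.FKR

open Finset
open Pool.Agent.H95.Wedge (openGraph W Good selfDual clusters)
open Pool.Agent.H95.Perc (Inc conn link rect hor ver eh ev sumE sepE Inci mem_rect)
open Pool.Agent.H95.SumRule (edgesIn Z2)

theorem star_eh (x y : ℤ) : star (eh x y) = ev x (y - 1) := by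
  unfold star
  rw [Pool.Agent.H95.Perc.sumE_eh]
  simp only
  rw [if_pos (by omega)]
  congr 1 <;> omega

theorem star_ev (x y : ℤ) : star (ev x y) = eh (x - 1) y := by
  unfold star
  rw [Pool.Agent.H95.Perc.sumE_ev]
  simp only
  rw [if_neg (by omega)]
  congr 1 <;> omega

theorem eh_inj {x y x' y' : ℤ} : eh x y = eh x' y' ↔ x = x' ∧ y = y' := by
  constructor
  · intro h
    have := congrArg sumE h
    rw [Pool.Agent.H95.Perc.sumE_eh, Pool.Agent.H95.Perc.sumE_eh, Prod.mk.injEq] at this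
    omega
  · rintro ⟨rfl, rfl⟩; rfl

theorem ev_inj {x y x' y' : ℤ} : ev x y = ev x' y' ↔ x = x' ∧ y = y' := by
  constructor
  · intro h
    have := congrArg sumE h
    rw [Pool.Agent.H95.Perc.sumE_ev, Pool.Agent.H95.Perc.sumE_ev, Prod.mk.injEq] at this
    omega
  · rintro ⟨rfl, rfl⟩; rfl

theorem eh_ne_ev {x y x' y' : ℤ} : eh x y ≠ ev x' y' := by
  intro h
  have := congrArg sumE h
  rw [Pool.Agent.H95.Perc.sumE_eh, Pool.Agent.H95.Perc.sumE_ev, Prod.mk.injEq] at this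
  omega

theorem mem_eh {v : ℤ × ℤ} {x y : ℤ} : v ∈ eh x y ↔ v = (x, y) ∨ v = (x + 1, y) := by
  unfold eh
  exact Sym2.mem_iff

theorem mem_ev {v : ℤ × ℤ} {x y : ℤ} : v ∈ ev x y ↔ v = (x, y) ∨ v = (x, y + 1) := by
  unfold ev
  exact Sym2.mem_iff

theorem Z2_adj_iff {a b c d : ℤ} : Z2.Adj (a, b) (c, d) ↔
    (a = c ∧ (b = d + 1 ∨ d = b + 1)) ∨ (b = d ∧ (a = c + 1 ∨ c = a + 1)) := by
  simp only [Z2, Pool.Agent.H95.SumRule.IsUnit2, Prod.fst_sub, Prod.snd_sub]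
  omega

/-- adjacent vertices are the ends of a horizontal or vertical edge -/
theorem adj_cases {u v : ℤ × ℤ} (h : Z2.Adj u v) : ∃ x y, s(u, v) = eh x y ∨ s(u, v) = ev x y := by
  obtain ⟨a, b⟩ := u
  obtain ⟨c, d⟩ := v
  rw [Z2_adj_iff] at h
  rcases h with ⟨rfl, rfl | rfl⟩ | ⟨rfl, rfl | rfl⟩
  · exact ⟨a, d, Or.inr (by rw [ev, Sym2.eq_swap])⟩
  · exact ⟨a, b, Or.inr rfl⟩
  · exact ⟨c, b, Or.inl (by rw [eh, Sym2.eq_swap])⟩
  · exact ⟨a, b, Or.inl rfl⟩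

theorem eh_mem_edgesIn_rect {x y x0 x1 y0 y1 : ℤ} :
    eh x y ∈ edgesIn (rect x0 x1 y0 y1) ↔ x0 ≤ x ∧ x + 1 ≤ x1 ∧ y0 ≤ y ∧ y ≤ y1 := by
  unfold eh
  rw [Pool.Agent.H95.Perc.mem_edgesIn', mem_rect, mem_rect, Z2_adj_iff]
  constructor
  · rintro ⟨h1, h2, h3⟩; dsimp only at h1 h2; omega
  · intro h; refine ⟨?_, ?_, ?_⟩
    · dsimp only; omega
    · dsimp only; omega
    · right; exact ⟨rfl, Or.inr rfl⟩

theorem ev_mem_edgesIn_rect {x y x0 x1 y0 y1 : ℤ} :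
    ev x y ∈ edgesIn (rect x0 x1 y0 y1) ↔ x0 ≤ x ∧ x ≤ x1 ∧ y0 ≤ y ∧ y + 1 ≤ y1 := by
  unfold ev
  rw [Pool.Agent.H95.Perc.mem_edgesIn', mem_rect, mem_rect, Z2_adj_iff]
  constructor
  · rintro ⟨h1, h2, h3⟩; dsimp only at h1 h2; omega
  · intro h; refine ⟨?_, ?_, ?_⟩
    · dsimp only; omega
    · dsimp only; omega
    · left; exact ⟨rfl, Or.inr rfl⟩

theorem edgesIn_cases {V : Finset (ℤ × ℤ)} {e : Sym2 (ℤ × ℤ)} (he : e ∈ edgesIn V) :
    ∃ x y, e = eh x y ∨ e = ev x y := Pool.Agent.H95.Perc.edge_cases he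

theorem NL_edgesIn (V : Finset (ℤ × ℤ)) : NL (edgesIn V) := by
  intro e he
  induction e with
  | _ x y =>
    rw [Pool.Agent.H95.Perc.mem_edgesIn'] at he
    rw [Sym2.mk_isDiag_iff]
    exact he.2.2.ne

theorem vts_edgesIn (V : Finset (ℤ × ℤ)) : vts (edgesIn V) ⊆ V := by
  intro v hv
  rw [mem_vts] at hv
  obtain ⟨e, he, hve⟩ := hv
  induction e with
  | _ x y =>
    rw [Pool.Agent.H95.Perc.mem_edgesIn'] at he
    rw [Sym2.mem_iff] at hve
    rcases hve with rfl | rfl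
    · exact he.1
    · exact he.2.1

theorem star_injOn (V : Finset (ℤ × ℤ)) : Set.InjOn star (edgesIn V : Set (Sym2 (ℤ × ℤ))) := by
  intro e he e' he' h
  obtain ⟨x, y, rfl | rfl⟩ := edgesIn_cases (mem_coe.mp he) <;>
  obtain ⟨x', y', rfl | rfl⟩ := edgesIn_cases (mem_coe.mp he')
  · rw [star_eh, star_eh, ev_inj] at h
    rw [eh_inj]; omega
  · rw [star_eh, star_ev] at h
    exact absurd h.symm eh_ne_ev
  · rw [star_eh, star_ev] at h
    exact absurd h eh_ne_ev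
  · rw [star_ev, star_ev, eh_inj] at h
    rw [ev_inj]; omega

/-- the edge between two adjacent faces -/
private theorem adj_split {f g : ℤ × ℤ} (h : Z2.Adj f g) : ∃ x y,
    (s(f, g) = ev x (y - 1) ∧ sepE f g = eh x y) ∨ (s(f, g) = eh (x - 1) y ∧ sepE f g = ev x y) := by
  obtain ⟨a, b⟩ := f
  obtain ⟨c, d⟩ := g
  rw [Z2_adj_iff] at h
  rcases h with ⟨rfl, rfl | rfl⟩ | ⟨rfl, rfl | rfl⟩
  · refine ⟨a, d + 1, Or.inl ⟨?_, ?_⟩⟩
    · rw [ev, Sym2.eq_swap]; congr 2 <;> simp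
    · have := Pool.Agent.H95.Perc.sepE_h' (a := a) (b := d + 1)
      rw [add_sub_cancel_right] at this
      rw [this, eh]
  · refine ⟨a, b + 1, Or.inl ⟨?_, ?_⟩⟩
    · rw [ev]; congr 2 <;> simp
    · have := Pool.Agent.H95.Perc.sepE_h (a := a) (b := b + 1)
      rw [add_sub_cancel_right] at this
      rw [this, eh]
  · refine ⟨c + 1, b, Or.inr ⟨?_, ?_⟩⟩
    · rw [eh, Sym2.eq_swap]; congr 2 <;> simp
    · have := Pool.Agent.H95.Perc.sepE_v (a := c + 1) (b := b)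
      rw [add_sub_cancel_right] at this
      rw [this, ev]
  · refine ⟨a + 1, b, Or.inr ⟨?_, ?_⟩⟩
    · rw [eh]; congr 2 <;> simp
    · have := Pool.Agent.H95.Perc.sepE_v' (a := a + 1) (b := b)
      rw [add_sub_cancel_right] at this
      rw [this, ev]

theorem star_sepE {f g : ℤ × ℤ} (h : Z2.Adj f g) : star (sepE f g) = s(f, g) := by
  obtain ⟨x, y, ⟨h1, h2⟩ | ⟨h1, h2⟩⟩ := adj_split h
  · rw [h2, h1, star_eh]
  · rw [h2, h1, star_ev]

/-- the ends of an edge and its sides: `sepE` recovers the edge -/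
theorem sepE_of_star {e : Sym2 (ℤ × ℤ)} {V : Finset (ℤ × ℤ)} (he : e ∈ edgesIn V) {f g : ℤ × ℤ}
    (h : star e = s(f, g)) : Z2.Adj f g ∧ sepE f g = e := by
  have hadj : Z2.Adj f g := by
    obtain ⟨x, y, rfl | rfl⟩ := edgesIn_cases he
    · rw [star_eh, ev, Sym2.eq_iff] at h
      rcases h with ⟨rfl, rfl⟩ | ⟨rfl, rfl⟩ <;> rw [Z2_adj_iff] <;> omega
    · rw [star_ev, eh, Sym2.eq_iff] at h
      rcases h with ⟨rfl, rfl⟩ | ⟨rfl, rfl⟩ <;> rw [Z2_adj_iff] <;> omega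
  refine ⟨hadj, ?_⟩
  obtain ⟨x, y, ⟨h1, h2⟩ | ⟨h1, h2⟩⟩ := adj_split hadj <;>
  obtain ⟨x', y', rfl | rfl⟩ := edgesIn_cases he
  · rw [h1, star_eh, ev_inj] at h
    rw [h2, eh_inj]; omega
  · rw [h1, star_ev] at h
    exact absurd h eh_ne_ev
  · rw [h1, star_eh] at h
    exact absurd h.symm eh_ne_ev
  · rw [h1, star_ev, eh_inj] at h
    rw [h2, ev_inj]; omega

/-- a side of an edge is incident to both its ends -/
theorem inci_of_side {e : Sym2 (ℤ × ℤ)} {V : Finset (ℤ × ℤ)} (he : e ∈ edgesIn V) {f v : ℤ × ℤ}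
    (hf : f ∈ star e) (hv : v ∈ e) : Inci f v := by
  obtain ⟨x, y, rfl | rfl⟩ := edgesIn_cases he
  · rw [star_eh, mem_ev] at hf
    rw [mem_eh] at hv
    rcases hf with rfl | rfl <;> rcases hv with rfl | rfl <;> unfold Inci <;> simp only <;> omega
  · rw [star_ev, mem_eh] at hf
    rw [mem_ev] at hv
    rcases hf with rfl | rfl <;> rcases hv with rfl | rfl <;> unfold Inci <;> simp only <;> omega

theorem dG_adj {Φ : Finset (ℤ × ℤ)} {κ : Finset (Sym2 (ℤ × ℤ))} {f g : ℤ × ℤ} :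
    (dG Φ κ).Adj f g ↔ f ∈ Φ ∧ g ∈ Φ ∧ Z2.Adj f g ∧ sepE f g ∉ κ := Iff.rfl

theorem dG_mono {Φ Φ' : Finset (ℤ × ℤ)} {κ κ' : Finset (Sym2 (ℤ × ℤ))} (h : Φ ⊆ Φ') (h' : κ' ⊆ κ) :
    dG Φ κ ≤ dG Φ' κ' := by
  intro f g hfg
  rw [dG_adj] at hfg ⊢
  exact ⟨h hfg.1, h hfg.2.1, hfg.2.2.1, fun hh => hfg.2.2.2 (h' hh)⟩

theorem mem_bdN {Φ N : Finset (ℤ × ℤ)} {e : Sym2 (ℤ × ℤ)} :
    e ∈ bdN Φ N ↔ ∃ f g, f ∈ N ∧ g ∈ Φ ∧ g ∉ N ∧ Z2.Adj f g ∧ e = sepE f g := by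
  classical
  unfold bdN
  rw [mem_image]
  constructor
  · rintro ⟨p, hp, rfl⟩
    rw [mem_filter, mem_product, mem_sdiff] at hp
    exact ⟨p.1, p.2, hp.1.1, hp.1.2.1, hp.1.2.2, hp.2, rfl⟩
  · rintro ⟨f, g, h1, h2, h3, h4, rfl⟩
    refine ⟨(f, g), ?_, rfl⟩
    rw [mem_filter, mem_product, mem_sdiff]
    exact ⟨⟨h1, h2, h3⟩, h4⟩

open Classical in
/-- all lattice edges with exactly one side in `U` -/
noncomputable def bd (U : Finset (ℤ × ℤ)) : Finset (Sym2 (ℤ × ℤ)) :=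
  (U.biUnion fun f => {eh f.1 f.2, eh f.1 (f.2 + 1), ev f.1 f.2, ev (f.1 + 1) f.2}).filter
    fun e => ∃ f g, star e = s(f, g) ∧ f ∈ U ∧ g ∉ U

theorem eh_mem_bd {U : Finset (ℤ × ℤ)} {x y : ℤ} :
    eh x y ∈ bd U ↔ ¬ ((x, y - 1) ∈ U ↔ (x, y) ∈ U) := by
  classical
  unfold bd
  rw [mem_filter, star_eh, mem_biUnion]
  constructor
  · rintro ⟨_, f, g, h, hf, hg⟩
    rw [ev, Sym2.eq_iff, sub_add_cancel] at h
    rcases h with ⟨rfl, rfl⟩ | ⟨rfl, rfl⟩ <;> tauto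
  · intro h
    by_cases h1 : (x, y - 1) ∈ U
    · have h2 : (x, y) ∉ U := by tauto
      refine ⟨⟨(x, y - 1), h1, ?_⟩, (x, y - 1), (x, y), ?_, h1, h2⟩
      · simp
      · rw [ev, sub_add_cancel]
    · have h2 : (x, y) ∈ U := by tauto
      refine ⟨⟨(x, y), h2, ?_⟩, (x, y), (x, y - 1), ?_, h2, h1⟩
      · simp
      · rw [ev, sub_add_cancel, Sym2.eq_swap]

theorem ev_mem_bd {U : Finset (ℤ × ℤ)} {x y : ℤ} :
    ev x y ∈ bd U ↔ ¬ ((x - 1, y) ∈ U ↔ (x, y) ∈ U) := by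
  classical
  unfold bd
  rw [mem_filter, star_ev, mem_biUnion]
  constructor
  · rintro ⟨_, f, g, h, hf, hg⟩
    rw [eh, Sym2.eq_iff, sub_add_cancel] at h
    rcases h with ⟨rfl, rfl⟩ | ⟨rfl, rfl⟩ <;> tauto
  · intro h
    by_cases h1 : (x - 1, y) ∈ U
    · have h2 : (x, y) ∉ U := by tauto
      refine ⟨⟨(x - 1, y), h1, ?_⟩, (x - 1, y), (x, y), ?_, h1, h2⟩
      · simp
      · rw [eh, sub_add_cancel]
    · have h2 : (x, y) ∈ U := by tauto
      refine ⟨⟨(x, y), h2, ?_⟩, (x, y), (x - 1, y), ?_, h2, h1⟩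
      · simp
      · rw [eh, sub_add_cancel, Sym2.eq_swap]

theorem bd_cases {U : Finset (ℤ × ℤ)} {e : Sym2 (ℤ × ℤ)} (he : e ∈ bd U) :
    ∃ x y, e = eh x y ∨ e = ev x y := by
  classical
  unfold bd at he
  rw [mem_filter, mem_biUnion] at he
  obtain ⟨⟨f, _, h⟩, _⟩ := he
  simp only [mem_insert, mem_singleton] at h
  rcases h with rfl | rfl | rfl | rfl
  · exact ⟨_, _, Or.inl rfl⟩
  · exact ⟨_, _, Or.inl rfl⟩
  · exact ⟨_, _, Or.inr rfl⟩
  · exact ⟨_, _, Or.inr rfl⟩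

theorem NL_bd (U : Finset (ℤ × ℤ)) : NL (bd U) := by
  intro e he
  obtain ⟨x, y, rfl | rfl⟩ := bd_cases he
  · rw [eh, Sym2.mk_isDiag_iff, Prod.mk.injEq]; omega
  · rw [ev, Sym2.mk_isDiag_iff, Prod.mk.injEq]; omega

open Classical in
theorem even_bd (U : Finset (ℤ × ℤ)) (v : ℤ × ℤ) : Even (#((bd U).filter fun e => v ∈ e)) := by
  obtain ⟨a, b⟩ := v
  have hF : (bd U).filter (fun e => (a, b) ∈ e) =
      ({eh a b, ev a b, eh (a - 1) b, ev a (b - 1)} : Finset (Sym2 (ℤ × ℤ))).filter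
        (fun e => e ∈ bd U) := by
    ext e
    rw [mem_filter, mem_filter]
    constructor
    · rintro ⟨he, hv⟩
      refine ⟨?_, he⟩
      obtain ⟨x, y, rfl | rfl⟩ := bd_cases he
      · rw [mem_eh, Prod.mk.injEq, Prod.mk.injEq] at hv
        simp only [mem_insert, mem_singleton, eh_inj]
        omega
      · rw [mem_ev, Prod.mk.injEq, Prod.mk.injEq] at hv
        simp only [mem_insert, mem_singleton, ev_inj]
        omega
    · rintro ⟨he, hb⟩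
      refine ⟨hb, ?_⟩
      simp only [mem_insert, mem_singleton] at he
      rcases he with rfl | rfl | rfl | rfl
      · rw [mem_eh]; simp
      · rw [mem_ev]; simp
      · rw [mem_eh]; simp
      · rw [mem_ev]; simp
  rw [hF]
  have n1 : eh a b ∉ ({ev a b, eh (a - 1) b, ev a (b - 1)} : Finset (Sym2 (ℤ × ℤ))) := by
    simp only [mem_insert, mem_singleton, eh_inj, eh_ne_ev, false_or, or_false]
    omega
  have n2 : ev a b ∉ ({eh (a - 1) b, ev a (b - 1)} : Finset (Sym2 (ℤ × ℤ))) := by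
    simp only [mem_insert, mem_singleton, ev_inj, Ne.symm eh_ne_ev, false_or]
    omega
  have n3 : eh (a - 1) b ∉ ({ev a (b - 1)} : Finset (Sym2 (ℤ × ℤ))) := by
    simp only [mem_singleton, eh_ne_ev, not_false_iff]
  rw [card_filter, sum_insert n1, sum_insert n2, sum_insert n3, sum_singleton]
  simp only [eh_mem_bd, ev_mem_bd]
  by_cases h1 : (a, b - 1) ∈ U <;> by_cases h2 : (a, b) ∈ U <;> by_cases h3 : (a - 1, b) ∈ U <;>
    by_cases h4 : (a - 1, b - 1) ∈ U <;> simp [h1, h2, h3, h4] <;> decide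

end Pool.Agent.FKR
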