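import Pool.Agent.FKR.ArmUp

/-! # FKR/FlatP (MP_b3e76a_pr): half-plane patches of the wedge, upper bounds of two-point functions

The four patches: `ch_inj`, `WE_intro`, `WE_elim`.
`two_up`: if `Cn ω tip (f (0, 0))` then `Arm n ω` and `FArm f n ω`. `P_indep_le` with `D = tc (nm < n) (WE m N)`, `A = Arm n` (`arm_up` with `F = η`),
`B = FArm f n`, which only depends on the edges touching `(rect 0 (n-1) (-n+1) (n-1)).image f` (`Cn_tc_iff`), none of which is in
`D` by `hsep`; `farm_up` with `F = ∅`. -/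

namespace Pool.Agent.FKR

open Finset
open Pool.Agent.H95.Perc (Inc conn link rect hor ver eh ev mem_rect)
open Pool.Agent.H95.SumRule (edgesIn Z2)
open Pool.Agent.H95.Wedge (Vtx pt)

variable {q : ℝ} {m n N k : ℕ}

private theorem flp_adj {p p' : ℤ × ℤ} (h : Z2.Adj p p') :
    p.1 - 1 ≤ p'.1 ∧ p'.1 ≤ p.1 + 1 ∧ p.2 - 1 ≤ p'.2 ∧ p'.2 ≤ p.2 + 1 := by
  obtain ⟨a, b⟩ := p
  obtain ⟨c, d⟩ := p'
  rw [Z2_adj_iff] at h
  simp only
  omega

private theorem flp_inj_ray (h : n < k) :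
    Set.InjOn (fun p : ℤ × ℤ => ch 0 ((k : ℤ) + p.2, p.1)) (rect 0 n (-n) n : Set (ℤ × ℤ)) := by
  intro p hp p' hp' hpp
  rw [mem_coe, mem_rect] at hp hp'
  have h1 := ch_inj 0 (show ((k : ℤ) + p.2, p.1) ∈ {p : ℤ × ℤ | 0 ≤ p.1} by
    show 0 ≤ (k : ℤ) + p.2; omega) (show ((k : ℤ) + p'.2, p'.1) ∈ {p : ℤ × ℤ | 0 ≤ p.1} by
    show 0 ≤ (k : ℤ) + p'.2; omega) hpp
  rw [Prod.mk.injEq] at h1
  apply Prod.ext
  · exact h1.2
  · omega

private theorem flp_inj_out {j y : ℤ} (h : n < N) :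
    Set.InjOn (fun p : ℤ × ℤ => ch j ((N : ℤ) - p.1, y + p.2)) (rect 0 n (-n) n : Set (ℤ × ℤ)) := by
  intro p hp p' hp' hpp
  rw [mem_coe, mem_rect] at hp hp'
  have h1 := ch_inj j (show ((N : ℤ) - p.1, y + p.2) ∈ {p : ℤ × ℤ | 0 ≤ p.1} by
    show 0 ≤ (N : ℤ) - p.1; omega) (show ((N : ℤ) - p'.1, y + p'.2) ∈ {p : ℤ × ℤ | 0 ≤ p.1} by
    show 0 ≤ (N : ℤ) - p'.1; omega) hpp
  rw [Prod.mk.injEq] at h1
  apply Prod.ext
  · omega
  · omega

theorem flatLoc_ray (hn : 1 ≤ n) (h : n < k) :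
    FlatLoc (fun p => ch 0 (k + p.2, p.1)) n (WE m N) := by
  refine ⟨flp_inj_ray h, ?_⟩
  intro e he p hp hpe
  rw [mem_rect] at hp
  obtain ⟨p', hadj, hp0, rfl, _, _, h0, _⟩ := WE_elim he (show 1 ≤ ((k : ℤ) + p.2, p.1).1 by
    show 1 ≤ (k : ℤ) + p.2; omega) hpe
  have h7 := flp_adj hadj
  have h8 := h0 rfl
  simp only at h7 h8
  have e1 : ch 0 p' = (fun p : ℤ × ℤ => ch 0 ((k : ℤ) + p.2, p.1)) (p'.2, p'.1 - k) := by
    simp only
    congr 1
    apply Prod.ext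
    · simp only; omega
    · rfl
  rw [e1]
  refine mem_img_of_mem (f := fun p : ℤ × ℤ => ch 0 ((k : ℤ) + p.2, p.1)) ?_
  rw [Pool.Agent.H95.Perc.mem_edgesIn', mem_rect, mem_rect]
  refine ⟨?_, ?_, ?_⟩
  · omega
  · simp only; omega
  · obtain ⟨a, b⟩ := p
    obtain ⟨c, d⟩ := p'
    rw [Z2_adj_iff] at hadj ⊢
    simp only at hadj ⊢
    omega

theorem flatSub_ray (hm : 1 ≤ m) (h : n < k) (hN : k + n ≤ N) :
    FlatSub (fun p => ch 0 (k + p.2, p.1)) n (WE m N) := by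
  refine ⟨flp_inj_ray h, ?_⟩
  intro e he
  unfold img at he
  rw [mem_image] at he
  obtain ⟨e', he', rfl⟩ := he
  induction e' with
  | _ a b =>
    rw [Pool.Agent.H95.Perc.mem_edgesIn', mem_rect, mem_rect] at he'
    rw [Sym2.map_mk]
    obtain ⟨ha, hb, hab⟩ := he'
    refine WE_intro hm le_rfl (by omega) ?_ ?_ ?_ ?_ ?_
    · obtain ⟨a1, a2⟩ := a
      obtain ⟨b1, b2⟩ := b
      rw [Z2_adj_iff] at hab ⊢
      simp only at hab ⊢
      omega
    · rw [mem_rect]; simp only; omega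
    · rw [mem_rect]; simp only; omega
    · intro _; simp only; omega
    · intro h; omega

theorem flatLoc_out (hn : 1 ≤ n) {j y : ℤ} (h : n < N) :
    FlatLoc (fun p => ch j (N - p.1, y + p.2)) n (WE m N) := by
  refine ⟨flp_inj_out h, ?_⟩
  intro e he p hp hpe
  rw [mem_rect] at hp
  obtain ⟨p', hadj, hp0, rfl, _, hN', _, _⟩ := WE_elim he (show 1 ≤ ((N : ℤ) - p.1, y + p.2).1 by
    show 1 ≤ (N : ℤ) - p.1; omega) hpe
  have h7 := flp_adj hadj
  simp only at h7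
  have h9 := nm_ch j hp0
  have h10 : p'.1 ≤ N := by
    have := le_max_left p'.1 |p'.2|
    omega
  have e1 : ch j p' = (fun p : ℤ × ℤ => ch j ((N : ℤ) - p.1, y + p.2)) (N - p'.1, p'.2 - y) := by
    simp only
    congr 1
    apply Prod.ext
    · simp only; omega
    · simp only; omega
  rw [e1]
  refine mem_img_of_mem (f := fun p : ℤ × ℤ => ch j ((N : ℤ) - p.1, y + p.2)) ?_
  rw [Pool.Agent.H95.Perc.mem_edgesIn', mem_rect, mem_rect]
  refine ⟨?_, ?_, ?_⟩
  · omega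
  · simp only; omega
  · obtain ⟨a, b⟩ := p
    obtain ⟨c, d⟩ := p'
    rw [Z2_adj_iff] at hadj ⊢
    simp only at hadj ⊢
    omega

theorem flatSub_out (hm : 1 ≤ m) {y : ℤ} (h : n < N) (hy : n ≤ y) (hy' : y + n ≤ N) :
    FlatSub (fun p => ch 0 (N - p.1, y + p.2)) n (WE m N) := by
  refine ⟨flp_inj_out h, ?_⟩
  intro e he
  unfold img at he
  rw [mem_image] at he
  obtain ⟨e', he', rfl⟩ := he
  induction e' with
  | _ a b =>
    rw [Pool.Agent.H95.Perc.mem_edgesIn', mem_rect, mem_rect] at he'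
    rw [Sym2.map_mk]
    obtain ⟨ha, hb, hab⟩ := he'
    refine WE_intro hm le_rfl (by omega) ?_ ?_ ?_ ?_ ?_
    · obtain ⟨a1, a2⟩ := a
      obtain ⟨b1, b2⟩ := b
      rw [Z2_adj_iff] at hab ⊢
      simp only at hab ⊢
      omega
    · rw [mem_rect]; simp only; omega
    · rw [mem_rect]; simp only; omega
    · intro _; simp only; omega
    · intro h; omega

theorem two_up (hq : 1 ≤ q) (hn : 1 ≤ n) {f : ℤ × ℤ → Vtx} (hf : FlatLoc f n (WE m N))
    (hsep : ∀ p ∈ rect 0 (n - 1) (-n + 1) (n - 1), n + 1 ≤ nm (f p)) :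
    P q (WE m N) ∅ (fun ω => Cn ω tip (f (0, 0))) ≤ wA q m n * wA q 2 n := by
  have hq0 : 0 < q := by linarith
  have hNL : NL (∅ : Finset (Sym2 Vtx)) := fun e he => absurd he (notMem_empty e)
  have h00 : ((0 : ℤ), (0 : ℤ)) ∈ rect 0 (n - 1) (-n + 1) (n - 1) := by
    rw [mem_rect]; simp only; omega
  have hD : tc (fun v : Vtx => nm v < n) (WE m N) ⊆ WE m N := tc_subset _ _
  have h1 : P q (WE m N) ∅ (fun ω => Cn ω tip (f (0, 0))) ≤
      P q (WE m N) ∅ (fun ω => Arm n ω ∧ FArm f n ω) := by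
    refine P_mono hq0 ?_
    intro ζ _ hc
    refine ⟨⟨_, ?_, hc⟩, tip, ?_, hc.symm⟩
    · have := hsep _ h00
      omega
    · intro hmem
      obtain ⟨p, hp, hpt⟩ := mem_image.1 hmem
      have h2 := hsep p hp
      rw [hpt, nm_tip] at h2
      omega
  refine h1.trans ?_
  have h2 : P q (WE m N) ∅ (fun ω => Arm n ω ∧ FArm f n ω) ≤
      wA q m n * P q (WE m N) ∅ (FArm f n) := by
    refine P_indep_le hq0 (WE_NL m N) hNL hD (A := Arm n) (B := FArm f n) ?_ ?_
    · intro ω ω' hω _ hωω hB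
      have h3 := (Cn_tc_iff (ω := ω) (S := fun v => v ∈ (rect 0 ((n : ℤ) - 1) (-n + 1) (n - 1)).image f)
        (u := f (0, 0)) (mem_image_of_mem f h00)).1 hB
      obtain ⟨v, hv, hc⟩ := h3
      refine ⟨v, hv, hc.mono ?_⟩
      intro e he
      rw [mem_tc'] at he
      obtain ⟨heω, w, hwe, hw⟩ := he
      obtain ⟨p, hp, rfl⟩ := mem_image.1 hw
      have h4 := hsep p hp
      have h5 : e ∈ ω \ tc (fun v : Vtx => nm v < n) (WE m N) := by
        rw [mem_sdiff, mem_tc']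
        refine ⟨heω, ?_⟩
        rintro ⟨he', z, hze, hz⟩
        have h6 : s(z, f p) ∈ WE m N ∨ z = f p := by
          by_cases hzp : z = f p
          · exact Or.inr hzp
          · left
            have := (Sym2.mem_and_mem_iff hzp).1 ⟨hze, hwe⟩
            rwa [← this]
        rcases h6 with h6 | h6
        · have h7 := (WE_nm h6).1
          omega
        · rw [h6] at hz
          omega
      rw [hωω] at h5
      exact (mem_sdiff.1 h5).1
    · intro η hη
      refine arm_up hq hn hD ?_ ?_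
      · rw [empty_union]
        exact hη.trans sdiff_subset
      · intro e he v hv
        rw [empty_union] at he
        have h3 := hη he
        rw [mem_sdiff, mem_tc'] at h3
        by_contra hlt
        exact h3.2 ⟨h3.1, v, hv, by omega⟩
  refine h2.trans ?_
  refine mul_le_mul_of_nonneg_left ?_ (P_nonneg hq0 _ _ _)
  refine farm_up hq hn (WE_NL m N) hNL hf ?_
  intro e he
  exact absurd he (notMem_empty e)

theorem ray_up (hq : 1 ≤ q) (hn : 1 ≤ n) (h : 2 * n ≤ k) :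
    P q (WE m N) ∅ (fun ω => Cn ω tip (ch 0 (k, 0))) ≤ wA q m n * wA q 2 n := by
  have h1 := two_up (m := m) (N := N) hq hn (flatLoc_ray (m := m) (N := N) hn (by omega : n < k)) (by
    intro p hp
    rw [mem_rect] at hp
    have h2 := nm_ch 0 (p := ((k : ℤ) + p.2, p.1)) (by simp only; omega)
    have h3 := le_max_left ((k : ℤ) + p.2) |p.1|
    simp only at h2
    omega)
  simpa using h1

theorem out_up (hq : 1 ≤ q) (hn : 1 ≤ n) (h : 2 * n ≤ N) (j y : ℤ) :
    P q (WE m N) ∅ (fun ω => Cn ω tip (ch j (N, y))) ≤ wA q m n * wA q 2 n := by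
  have h1 := two_up (m := m) (N := N) hq hn (flatLoc_out (m := m) (j := j) (y := y) hn
    (by omega : n < N)) (by
    intro p hp
    rw [mem_rect] at hp
    have h2 := nm_ch j (p := ((N : ℤ) - p.1, y + p.2)) (by simp only; omega)
    have h3 := le_max_left ((N : ℤ) - p.1) |y + p.2|
    simp only at h2
    omega)
  simpa using h1

end Pool.Agent.FKR
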