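import Pool.Agent.FKR.AnDefs
import Pool.Agent.FKR.CnPath
import Pool.Agent.FKR.Glue

/-! # FKR/Hub (MP_b3e76a_pr): circuits as hubs (deterministic, planar)

`Hub x y n κ u`: `u` is connected to the four crossings which form the circuit in the annulus of radii `n`, `2 n`.
`An_hub`: the four crossings of `An` intersect pairwise in the corner squares (e.g. `hor (x-2n) (x+2n) (y+n) (y+2n)` and
`ver (x+n) (x+2n) (y-2n) (y+2n)` both cross the square `rect (x+n) (x+2n) (y+n) (y+2n)`; shrink them to this square, with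
a version of `ver_shrink`/`hor_shrink` which keeps a connection to the original end points, and use
`cross_conn`), so they are all connected to each other; take for `u` the left end of the first one.
`Hub_cross`: a connection from the box of radius `n` to the outside of the open box of radius `2 n`: up to its first
exit from `bxx x y (2n-1)` (`Cn.exit`) it stays in this box, the exit vertex has (say) second coordinate `y + 2n`; the part
after the last visit to the row `y + n` is a bottom-top crossing of `rect (x-2n) (x+2n) (y+n) (y+2n)`: `cross_conn`.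
(`Cn.middle` with `f = Prod.snd` applied to the connection inside the box gives this part.)
`Hub_right`: right vertical crossing of the first hub and upper horizontal crossing of the second one in the
square `rect (x+n) (x+2n) (y+n) (y+2n)`. `Hub_up`: right vertical crossing of the SECOND hub (rows `y-n..y+3n`) and upper
horizontal crossing of the FIRST one (columns `x-2n..x+2n`, rows `y+n..y+2n`), in the same square; or by symmetry. -/

namespace Pool.Agent.FKR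

open Finset
open Pool.Agent.H95.Perc (Inc conn link rect hor ver eh ev sumE sepE Inci mem_rect)
open Pool.Agent.H95.SumRule (edgesIn Z2)

variable {x y n : ℤ} {κ : Finset (Sym2 (ℤ × ℤ))} {u u' : ℤ × ℤ}

/-- `u` is connected to crossings of the four rectangles of `An x y n` -/
def Hub (x y n : ℤ) (κ : Finset (Sym2 (ℤ × ℤ))) (u : ℤ × ℤ) : Prop :=
  link (rect (x - 2 * n) (x + 2 * n) (y + n) (y + 2 * n)) (fun a => a.1 = x - 2 * n ∧ Cn κ a u)
    (fun b => b.1 = x + 2 * n) κ ∧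
  link (rect (x - 2 * n) (x + 2 * n) (y - 2 * n) (y - n)) (fun a => a.1 = x - 2 * n ∧ Cn κ a u)
    (fun b => b.1 = x + 2 * n) κ ∧
  link (rect (x - 2 * n) (x - n) (y - 2 * n) (y + 2 * n)) (fun a => a.2 = y - 2 * n ∧ Cn κ a u)
    (fun b => b.2 = y + 2 * n) κ ∧
  link (rect (x + n) (x + 2 * n) (y - 2 * n) (y + 2 * n)) (fun a => a.2 = y - 2 * n ∧ Cn κ a u)
    (fun b => b.2 = y + 2 * n) κ

/-- the edges change the first coordinate by at most one -/
theorem hub_step_fst {V : Finset (ℤ × ℤ)} (hκ : κ ⊆ edgesIn V) (a b : ℤ × ℤ) (h : s(a, b) ∈ κ) :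
    b.1 ≤ a.1 + 1 ∧ a.1 ≤ b.1 + 1 ∧ b.2 ≤ a.2 + 1 ∧ a.2 ≤ b.2 + 1 ∧ (a.1 = b.1 ∨ a.2 = b.2) := by
  have h1 := (Pool.Agent.H95.Perc.mem_edgesIn'.1 (hκ h)).2.2
  have h2 : Pool.Agent.H95.SumRule.IsUnit2 (b - a) := h1
  simp only [Pool.Agent.H95.SumRule.IsUnit2, Prod.fst_sub, Prod.snd_sub] at h2
  omega

/-- edges with both ends in a rectangle -/
theorem hub_ins_subset {V : Finset (ℤ × ℤ)} (hκ : κ ⊆ edgesIn V) {I : ℤ × ℤ → Prop}
    {W : Finset (ℤ × ℤ)} (hI : ∀ a, I a → a ∈ W) : ins I κ ⊆ κ ∩ edgesIn W := by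
  intro e
  induction e with
  | _ a b =>
    intro he
    rw [mem_ins'] at he
    obtain ⟨h1, h2⟩ := he
    rw [mem_inter]
    refine ⟨h1, ?_⟩
    rw [Pool.Agent.H95.Perc.mem_edgesIn']
    exact ⟨hI _ (h2 a (by simp)), hI _ (h2 b (by simp)),
      (Pool.Agent.H95.Perc.mem_edgesIn'.1 (hκ h1)).2.2⟩

theorem hub_conn_Cn {V : Finset (ℤ × ℤ)} {a b : ℤ × ℤ} (h : conn V κ a b) : Cn κ a b :=
  Cn.mono (ω := κ ∩ edgesIn V) h inter_subset_left

/-- a horizontal crossing contains a crossing of a narrower rectangle, connected to the start -/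
theorem hor_piece {X0 X1 x0 x1 y0 y1 : ℤ} (h0 : X0 ≤ x0) (h01 : x0 < x1) (h1 : x1 ≤ X1)
    {a b : ℤ × ℤ} (ha : a ∈ rect X0 X1 y0 y1) (ha1 : a.1 = X0) (hb1 : b.1 = X1)
    (h : conn (rect X0 X1 y0 y1) κ a b) : ∃ c d, c ∈ rect x0 x1 y0 y1 ∧ d ∈ rect x0 x1 y0 y1 ∧
      c.1 = x0 ∧ d.1 = x1 ∧ conn (rect x0 x1 y0 y1) κ c d ∧ Cn κ a c := by
  have hsub : κ ∩ edgesIn (rect X0 X1 y0 y1) ⊆ edgesIn (rect X0 X1 y0 y1) := inter_subset_right
  have h' : Cn (κ ∩ edgesIn (rect X0 X1 y0 y1)) a b := h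
  obtain ⟨c, d, hc, hd, hac, hcd⟩ := h'.middle (f := Prod.fst)
    (fun u v huv => (hub_step_fst hsub u v huv).1) h01 (by omega) (by omega)
  have hc' : c ∈ rect X0 X1 y0 y1 := Pool.Agent.H95.Perc.conn.mem (ω := κ) hac ha
  have hcd' : conn (rect x0 x1 y0 y1) κ c d := by
    refine Cn.mono hcd ?_
    intro e
    induction e with
    | _ u v =>
      intro he
      rw [mem_ins'] at he
      obtain ⟨h3, h4⟩ := he
      have h5 := h4 u (by simp)
      have h6 := h4 v (by simp)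
      rw [mem_inter] at h3 ⊢
      refine ⟨h3.1, ?_⟩
      obtain ⟨h7, h8, h9⟩ := Pool.Agent.H95.Perc.mem_edgesIn'.1 h3.2
      rw [Pool.Agent.H95.Perc.mem_edgesIn']
      rw [mem_rect] at h7 h8 ⊢
      rw [mem_rect]
      exact ⟨⟨h5.1, h5.2, h7.2.2.1, h7.2.2.2⟩, ⟨h6.1, h6.2, h8.2.2.1, h8.2.2.2⟩, h9⟩
  have hc'' : c ∈ rect x0 x1 y0 y1 := by
    rw [mem_rect] at hc' ⊢
    omega
  exact ⟨c, d, hc'', hcd'.mem hc'', hc, hd, hcd', Cn.mono hac inter_subset_left⟩

/-- a vertical crossing contains a crossing of a lower rectangle, connected to the start -/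
theorem ver_piece {x0 x1 Y0 Y1 y0 y1 : ℤ} (h0 : Y0 ≤ y0) (h01 : y0 < y1) (h1 : y1 ≤ Y1)
    {a b : ℤ × ℤ} (ha : a ∈ rect x0 x1 Y0 Y1) (ha1 : a.2 = Y0) (hb1 : b.2 = Y1)
    (h : conn (rect x0 x1 Y0 Y1) κ a b) : ∃ c d, c ∈ rect x0 x1 y0 y1 ∧ d ∈ rect x0 x1 y0 y1 ∧
      c.2 = y0 ∧ d.2 = y1 ∧ conn (rect x0 x1 y0 y1) κ c d ∧ Cn κ a c := by
  have hsub : κ ∩ edgesIn (rect x0 x1 Y0 Y1) ⊆ edgesIn (rect x0 x1 Y0 Y1) := inter_subset_right
  have h' : Cn (κ ∩ edgesIn (rect x0 x1 Y0 Y1)) a b := h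
  obtain ⟨c, d, hc, hd, hac, hcd⟩ := h'.middle (f := Prod.snd)
    (fun u v huv => (hub_step_fst hsub u v huv).2.2.1) h01 (by omega) (by omega)
  have hc' : c ∈ rect x0 x1 Y0 Y1 := Pool.Agent.H95.Perc.conn.mem (ω := κ) hac ha
  have hcd' : conn (rect x0 x1 y0 y1) κ c d := by
    refine Cn.mono hcd ?_
    intro e
    induction e with
    | _ u v =>
      intro he
      rw [mem_ins'] at he
      obtain ⟨h3, h4⟩ := he
      have h5 := h4 u (by simp)
      have h6 := h4 v (by simp)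
      rw [mem_inter] at h3 ⊢
      refine ⟨h3.1, ?_⟩
      obtain ⟨h7, h8, h9⟩ := Pool.Agent.H95.Perc.mem_edgesIn'.1 h3.2
      rw [Pool.Agent.H95.Perc.mem_edgesIn']
      rw [mem_rect] at h7 h8 ⊢
      rw [mem_rect]
      exact ⟨⟨h7.1, h7.2.1, h5.1, h5.2⟩, ⟨h8.1, h8.2.1, h6.1, h6.2⟩, h9⟩
  have hc'' : c ∈ rect x0 x1 y0 y1 := by
    rw [mem_rect] at hc' ⊢
    omega
  exact ⟨c, d, hc'', hcd'.mem hc'', hc, hd, hcd', Cn.mono hac inter_subset_left⟩

/-- a horizontal crossing of `rect X0 X1 y0 y1` and a vertical crossing of `rect x0 x1 Y0 Y1` are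
connected -/
theorem hv_cross {X0 X1 x0 x1 Y0 Y1 y0 y1 : ℤ} (hX0 : X0 ≤ x0) (hx : x0 < x1) (hX1 : x1 ≤ X1)
    (hY0 : Y0 ≤ y0) (hy : y0 < y1) (hY1 : y1 ≤ Y1) {a b c d : ℤ × ℤ}
    (ha : a ∈ rect X0 X1 y0 y1) (ha1 : a.1 = X0) (hb1 : b.1 = X1)
    (hab : conn (rect X0 X1 y0 y1) κ a b) (hc : c ∈ rect x0 x1 Y0 Y1) (hc2 : c.2 = Y0)
    (hd2 : d.2 = Y1) (hcd : conn (rect x0 x1 Y0 Y1) κ c d) : Cn κ a c := by
  obtain ⟨l, r, hl, hr, hl1, hr1, hlr, hal⟩ := hor_piece hX0 hx hX1 ha ha1 hb1 hab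
  obtain ⟨s, t, hs, ht, hs1, ht1, hst, hcs⟩ := ver_piece hY0 hy hY1 hc hc2 hd2 hcd
  have k := cross_conn hy hl hr hs ht hl1 hr1 hs1 ht1 hlr hst
  exact (hal.trans (hub_conn_Cn k)).trans hcs.symm

theorem An_hub (hn : 1 ≤ n) (h : An x y n κ) : ∃ u, Hub x y n κ u := by
  obtain ⟨⟨a1, b1, ha1, hb1, ha1', hb1', hab1⟩, ⟨a2, b2, ha2, hb2, ha2', hb2', hab2⟩,
    ⟨c1, d1, hc1, hd1, hc1', hd1', hcd1⟩, ⟨c2, d2, hc2, hd2, hc2', hd2', hcd2⟩⟩ := h
  have k1 : Cn κ a1 c1 := hv_cross (by omega) (by omega) (by omega) (by omega) (by omega)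
    (by omega) ha1 ha1' hb1' hab1 hc1 hc1' hd1' hcd1
  have k2 : Cn κ a1 c2 := hv_cross (by omega) (by omega) (by omega) (by omega) (by omega)
    (by omega) ha1 ha1' hb1' hab1 hc2 hc2' hd2' hcd2
  have k3 : Cn κ a2 c1 := hv_cross (by omega) (by omega) (by omega) (by omega) (by omega)
    (by omega) ha2 ha2' hb2' hab2 hc1 hc1' hd1' hcd1
  exact ⟨a1, ⟨a1, b1, ha1, hb1, ⟨ha1', Cn_refl _ _⟩, hb1', hab1⟩,
    ⟨a2, b2, ha2, hb2, ⟨ha2', k3.trans k1.symm⟩, hb2', hab2⟩,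
    ⟨c1, d1, hc1, hd1, ⟨hc1', k1.symm⟩, hd1', hcd1⟩,
    ⟨c2, d2, hc2, hd2, ⟨hc2', k2.symm⟩, hd2', hcd2⟩⟩

/-- a piece of a connection inside `bxx x y (2 n)` between two levels of `f` gives a connection in
the rectangle `W` -/
theorem hub_middle {V : Finset (ℤ × ℤ)} (hκ : κ ⊆ edgesIn V) {S : ℤ × ℤ → Prop} {p z : ℤ × ℤ}
    (hc : Cn (ins S κ) p z) {f : ℤ × ℤ → ℤ} (hf : ∀ a b, s(a, b) ∈ κ → f b ≤ f a + 1)
    {s t : ℤ} (hst : s < t) (hp : f p ≤ s) (hz : t ≤ f z) {W : Finset (ℤ × ℤ)}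
    (hW : ∀ a, S a → s ≤ f a → f a ≤ t → a ∈ W) :
    ∃ c d, f c = s ∧ f d = t ∧ Cn κ p c ∧ conn W κ c d := by
  obtain ⟨c, d, hc1, hd1, hpc, hcd⟩ := hc.middle (f := f)
    (fun a b hab => hf a b ((mem_ins'.1 hab).1)) hst hp hz
  refine ⟨c, d, hc1, hd1, hpc.mono (ins_subset _ _), ?_⟩
  refine Cn.mono hcd ?_
  intro e
  induction e with
  | _ u v =>
    intro he
    rw [mem_ins'] at he
    obtain ⟨h3, h4⟩ := he
    have h5 := h4 u (by simp)
    have h6 := h4 v (by simp)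
    rw [mem_ins'] at h3
    obtain ⟨h7, h8⟩ := h3
    have h9 := h8 u (by simp)
    have h10 := h8 v (by simp)
    rw [mem_inter]
    refine ⟨h7, ?_⟩
    rw [Pool.Agent.H95.Perc.mem_edgesIn']
    exact ⟨hW u h9 h5.1 h5.2, hW v h10 h6.1 h6.2,
      (Pool.Agent.H95.Perc.mem_edgesIn'.1 (hκ h7)).2.2⟩

theorem Hub_cross (hn : 1 ≤ n) {V : Finset (ℤ × ℤ)} (hκ : κ ⊆ edgesIn V) (h : Hub x y n κ u)
    {p w : ℤ × ℤ} (hp : p ∈ bxx x y n) (hw : w ∉ bxx x y (2 * n - 1)) (hpw : Cn κ p w) : Cn κ p u := by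
  have hp' : p ∈ bxx x y (2 * n - 1) := by
    unfold bxx at hp ⊢
    rw [mem_rect] at hp ⊢
    omega
  obtain ⟨z, z', hz, hz', hzz, hpz⟩ := hpw.exit (S := fun v => v ∈ bxx x y (2 * n - 1)) hp' hw
  have hstep := hub_step_fst hκ z z' hzz
  have hpz' : Cn (ins (fun v => v ∈ bxx x y (2 * n)) κ) p z' := by
    refine Cn.trans (hpz.mono ?_) (Cn_edge ?_)
    · intro e he
      rw [mem_ins'] at he ⊢
      refine ⟨he.1, fun v hv => ?_⟩
      have := he.2 v hv
      unfold bxx at this ⊢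
      rw [mem_rect] at this ⊢
      omega
    · rw [mem_ins']
      refine ⟨hzz, fun v hv => ?_⟩
      rw [Sym2.mem_iff] at hv
      unfold bxx at hz ⊢
      rw [mem_rect] at hz ⊢
      rcases hv with rfl | rfl
      · omega
      · omega
  obtain ⟨⟨a1, b1, ha1, hb1, ⟨ha1', hu1⟩, hb1', hab1⟩, ⟨a2, b2, ha2, hb2, ⟨ha2', hu2⟩, hb2', hab2⟩,
    ⟨c1, d1, hc1, hd1, ⟨hc1', hu3⟩, hd1', hcd1⟩, ⟨c2, d2, hc2, hd2, ⟨hc2', hu4⟩, hd2', hcd2⟩⟩ := h
  have hcase : z'.2 = y + 2 * n ∨ z'.2 = y - 2 * n ∨ z'.1 = x + 2 * n ∨ z'.1 = x - 2 * n := by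
    unfold bxx at hz hz'
    simp only [mem_rect] at hz hz'
    omega
  have hpb : x - n ≤ p.1 ∧ p.1 ≤ x + n ∧ y - n ≤ p.2 ∧ p.2 ≤ y + n := by
    unfold bxx at hp
    rw [mem_rect] at hp
    exact hp
  rcases hcase with h1 | h1 | h1 | h1
  · obtain ⟨c, d, hc, hd, hpc, hcd⟩ := hub_middle hκ hpz' (f := Prod.snd)
      (W := rect (x - 2 * n) (x + 2 * n) (y + n) (y + 2 * n)) (s := y + n) (t := y + 2 * n)
      (fun a b hab => (hub_step_fst hκ a b hab).2.2.1) (by omega) (by omega) (by omega)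
      (by
        intro a ha h2 h3
        unfold bxx at ha
        rw [mem_rect] at ha ⊢
        omega)
    have hcW : c ∈ rect (x - 2 * n) (x + 2 * n) (y + n) (y + 2 * n) := by
      by_cases hcd' : c = d
      · subst hcd'; omega
      · have := Cn.mem_vts hcd hcd'
        obtain ⟨e, he, hce⟩ := mem_vts.1 this.1
        induction e with
        | _ a b =>
          have he' := Pool.Agent.H95.Perc.mem_edgesIn'.1 (mem_inter.1 he).2
          rw [Sym2.mem_iff] at hce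
          rcases hce with rfl | rfl
          · exact he'.1
          · exact he'.2.1
    have k := cross_conn (by omega) ha1 hb1 hcW (hcd.mem hcW) ha1' hb1' hc hd hab1 hcd
    exact (hpc.trans (hub_conn_Cn k).symm).trans hu1
  · obtain ⟨c, d, hc, hd, hpc, hcd⟩ := hub_middle hκ hpz' (f := fun v => -v.2)
      (W := rect (x - 2 * n) (x + 2 * n) (y - 2 * n) (y - n)) (s := -(y - n)) (t := -(y - 2 * n))
      (fun a b hab => by have := (hub_step_fst hκ a b hab).2.2.2.1; omega)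
      (by omega) (by omega) (by omega)
      (by
        intro a ha h2 h3
        unfold bxx at ha
        rw [mem_rect] at ha ⊢
        omega)
    have hcW : c ∈ rect (x - 2 * n) (x + 2 * n) (y - 2 * n) (y - n) := by
      by_cases hcd' : c = d
      · subst hcd'; omega
      · have := Cn.mem_vts hcd hcd'
        obtain ⟨e, he, hce⟩ := mem_vts.1 this.1
        induction e with
        | _ a b =>
          have he' := Pool.Agent.H95.Perc.mem_edgesIn'.1 (mem_inter.1 he).2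
          rw [Sym2.mem_iff] at hce
          rcases hce with rfl | rfl
          · exact he'.1
          · exact he'.2.1
    have k := cross_conn (by omega) ha2 hb2 (hcd.mem hcW) hcW ha2' hb2' (by omega) (by omega) hab2
      hcd.symm
    exact ((hpc.trans (hub_conn_Cn hcd)).trans (hub_conn_Cn k).symm).trans hu2
  · obtain ⟨c, d, hc, hd, hpc, hcd⟩ := hub_middle hκ hpz' (f := Prod.fst)
      (W := rect (x + n) (x + 2 * n) (y - 2 * n) (y + 2 * n)) (s := x + n) (t := x + 2 * n)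
      (fun a b hab => (hub_step_fst hκ a b hab).1) (by omega) (by omega) (by omega)
      (by
        intro a ha h2 h3
        unfold bxx at ha
        rw [mem_rect] at ha ⊢
        omega)
    have hcW : c ∈ rect (x + n) (x + 2 * n) (y - 2 * n) (y + 2 * n) := by
      by_cases hcd' : c = d
      · subst hcd'; omega
      · have := Cn.mem_vts hcd hcd'
        obtain ⟨e, he, hce⟩ := mem_vts.1 this.1
        induction e with
        | _ a b =>
          have he' := Pool.Agent.H95.Perc.mem_edgesIn'.1 (mem_inter.1 he).2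
          rw [Sym2.mem_iff] at hce
          rcases hce with rfl | rfl
          · exact he'.1
          · exact he'.2.1
    have k := cross_conn (by omega) hcW (hcd.mem hcW) hc2 hd2 hc hd hc2' hd2' hcd hcd2
    exact (hpc.trans (hub_conn_Cn k)).trans hu4
  · obtain ⟨c, d, hc, hd, hpc, hcd⟩ := hub_middle hκ hpz' (f := fun v => -v.1)
      (W := rect (x - 2 * n) (x - n) (y - 2 * n) (y + 2 * n)) (s := -(x - n)) (t := -(x - 2 * n))
      (fun a b hab => by have := (hub_step_fst hκ a b hab).2.1; omega)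
      (by omega) (by omega) (by omega)
      (by
        intro a ha h2 h3
        unfold bxx at ha
        rw [mem_rect] at ha ⊢
        omega)
    have hcW : c ∈ rect (x - 2 * n) (x - n) (y - 2 * n) (y + 2 * n) := by
      by_cases hcd' : c = d
      · subst hcd'; omega
      · have := Cn.mem_vts hcd hcd'
        obtain ⟨e, he, hce⟩ := mem_vts.1 this.1
        induction e with
        | _ a b =>
          have he' := Pool.Agent.H95.Perc.mem_edgesIn'.1 (mem_inter.1 he).2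
          rw [Sym2.mem_iff] at hce
          rcases hce with rfl | rfl
          · exact he'.1
          · exact he'.2.1
    have k := cross_conn (by omega) (hcd.mem hcW) hcW hc1 hd1 (by omega) (by omega) hc1' hd1'
      hcd.symm hcd1
    exact ((hpc.trans (hub_conn_Cn hcd)).trans (hub_conn_Cn k)).trans hu3

theorem Hub_right (hn : 1 ≤ n) (h : Hub x y n κ u) (h' : Hub (x + n) y n κ u') : Cn κ u u' := by
  obtain ⟨-, -, -, ⟨c2, d2, hc2, hd2, ⟨hc2', hu4⟩, hd2', hcd2⟩⟩ := h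
  obtain ⟨⟨a1, b1, ha1, hb1, ⟨ha1', hu1⟩, hb1', hab1⟩, -, -, -⟩ := h'
  have k : Cn κ a1 c2 := hv_cross (by omega) (by omega) (by omega) (by omega) (by omega)
    (by omega) ha1 ha1' hb1' hab1 hc2 hc2' hd2' hcd2
  exact (hu4.symm.trans k.symm).trans hu1

theorem Hub_up (hn : 1 ≤ n) (h : Hub x y n κ u) (h' : Hub x (y + n) n κ u') : Cn κ u u' := by
  obtain ⟨⟨a1, b1, ha1, hb1, ⟨ha1', hu1⟩, hb1', hab1⟩, -, -, -⟩ := h
  obtain ⟨-, -, -, ⟨c2, d2, hc2, hd2, ⟨hc2', hu4⟩, hd2', hcd2⟩⟩ := h'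
  have k : Cn κ a1 c2 := hv_cross (by omega) (by omega) (by omega) (by omega) (by omega)
    (by omega) ha1 ha1' hb1' hab1 hc2 hc2' hd2' hcd2
  exact (hu1.symm.trans k).trans hu4

theorem Hub_mem (h : Hub x y n κ u) (hn : 0 ≤ n) : ∃ a ∈ bxx x y (2 * n), Cn κ a u := by
  obtain ⟨⟨a1, b1, ha1, hb1, ⟨ha1', hu1⟩, hb1', hab1⟩, -, -, -⟩ := h
  refine ⟨a1, ?_, hu1⟩
  unfold bxx
  rw [mem_rect] at ha1 ⊢
  omega

end Pool.Agent.FKR
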