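import Pool.Agent.FKR.CnPath
import Pool.Agent.FKR.Fkg
import Pool.Agent.FKR.Dom
import Pool.Agent.FKR.Explore

/-! # FKR/Localize (MP_b3e76a_pr): comparison with a local wired measure; finite families of events

`localize_le`: `I` = inside. The frozen edges do not touch the inside; `E'` contains the active edges touching the
inside; the outer ends of edges of `E'` are all connected by `F'`. Proof: `P_le` with
`(E, F) → (tc I E, F ∪ (E \ tc I E))` (`P_mono_EF`) and then `P_le` again: if two vertices of `vts (tc I E)` are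
connected by `F ∪ (E \ tc I E)` and distinct, they are not inside (`Cn.mem_vts`), so they are connected by `F'`.
The event: for `ζ ⊆ tc I E`, `ω = ζ ∪ (F ∪ (E \ tc I E))` satisfies `tc I ω = ζ`.
`localize_ge`: the same for decreasing events (`P_not`). -/

namespace Pool.Agent.FKR

open Finset
open Pool.Agent.H95.Perc (Inc)

section
variable {α : Type*} [DecidableEq α] {q : ℝ} {E F E' F' : Finset (Sym2 α)}

omit [DecidableEq α] in
private theorem loc_mem_tc {I : α → Prop} {E : Finset (Sym2 α)} {e : Sym2 α} :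
    e ∈ tc I E ↔ e ∈ E ∧ ∃ v ∈ e, I v := by
  classical
  unfold tc
  exact mem_filter

theorem localize_le (hq : 1 ≤ q) (hE : NL E) (hF : NL F) (hE' : NL E') (hF' : NL F') {I : α → Prop}
    (h1 : ∀ e ∈ E, (∃ v ∈ e, I v) → e ∈ E') (h2 : ∀ e ∈ F, ∀ v ∈ e, ¬ I v)
    (h3 : ∀ u ∈ vts E', ∀ v ∈ vts E', ¬ I u → ¬ I v → Cn F' u v)
    {A B : Finset (Sym2 α) → Prop} (hA : Inc A) (hB : Inc B)
    (hAB : ∀ ω ⊆ E ∪ F, A ω → B (tc I ω ∪ F')) : P q E F A ≤ P q E' F' B := by
  have hsub : tc I E ⊆ E := fun e he => (loc_mem_tc.1 he).1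
  have hE₁ : NL (tc I E) := hE.mono hsub
  have hF₁ : NL (F ∪ (E \ tc I E)) := hF.union (hE.mono sdiff_subset)
  have hEs : E ⊆ tc I E ∪ (F ∪ (E \ tc I E)) := by
    intro e he
    by_cases h : e ∈ tc I E
    · exact mem_union_left _ h
    · exact mem_union_right _ (mem_union_right _ (mem_sdiff.2 ⟨he, h⟩))
  refine (P_mono_EF hq hE₁ hF₁ hEs subset_union_left hA).trans ?_
  have hnot : ∀ u, u ∈ vts (F ∪ (E \ tc I E)) → ¬ I u := by
    intro u hu hI
    obtain ⟨e, he, hue⟩ := mem_vts.1 hu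
    rcases mem_union.1 he with he | he
    · exact h2 e he u hue hI
    · rw [mem_sdiff, loc_mem_tc] at he
      exact he.2 ⟨he.1, u, hue, hI⟩
  have hsub' : tc I E ⊆ E' := fun e he => h1 e (loc_mem_tc.1 he).1 (loc_mem_tc.1 he).2
  refine P_le hq hE₁ hF₁ hE' hF' (hsub'.trans subset_union_left) ?_ hA hB ?_
  · intro u hu v hv huv
    by_cases huv' : u = v
    · subst huv'; exact Cn_refl _ _
    · obtain ⟨k1, k2⟩ := huv.mem_vts huv'
      exact h3 u (vts_mono hsub' hu) v (vts_mono hsub' hv) (hnot u k1) (hnot v k2)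
  · intro ζ hζ hAζ
    have hω : ζ ∪ (F ∪ (E \ tc I E)) ⊆ E ∪ F := by
      intro e he
      rw [mem_union, mem_union] at he
      rcases he with he | he | he
      · exact mem_union_left _ (hsub (hζ he))
      · exact mem_union_right _ he
      · exact mem_union_left _ (mem_sdiff.1 he).1
    have h4 := hAB _ hω hAζ
    have h5 : tc I (ζ ∪ (F ∪ (E \ tc I E))) = ζ := by
      ext e
      rw [loc_mem_tc]
      constructor
      · rintro ⟨he, v, hv, hI⟩
        rcases mem_union.1 he with he | he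
        · exact he
        · exact absurd hI (hnot v (mem_vts.2 ⟨e, he, hv⟩))
      · intro he
        exact ⟨mem_union_left _ he, (loc_mem_tc.1 (hζ he)).2⟩
    rwa [h5] at h4

theorem localize_ge (hq : 1 ≤ q) (hE : NL E) (hF : NL F) (hE' : NL E') (hF' : NL F') {I : α → Prop}
    (h1 : ∀ e ∈ E, (∃ v ∈ e, I v) → e ∈ E') (h2 : ∀ e ∈ F, ∀ v ∈ e, ¬ I v)
    (h3 : ∀ u ∈ vts E', ∀ v ∈ vts E', ¬ I u → ¬ I v → Cn F' u v)
    {A B : Finset (Sym2 α) → Prop} (hA : Dcr A) (hB : Dcr B)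
    (hAB : ∀ ω ⊆ E ∪ F, B (tc I ω ∪ F') → A ω) : P q E' F' B ≤ P q E F A := by
  have hq0 : 0 < q := by linarith
  have h := localize_le hq hE hF hE' hF' h1 h2 h3 (A := fun ω => ¬ A ω) (B := fun ω => ¬ B ω)
    (fun ω ω' k k' k'' => k' (hA ω ω' k k'')) (fun ω ω' k k' k'' => k' (hB ω ω' k k''))
    (fun ω hω k k' => k (hAB ω hω k'))
  rw [P_not hq0, P_not hq0] at h
  linarith

theorem P_fkg_fin (hq : 1 ≤ q) (hE : NL E) (hF : NL F) {ι : Type*} (s : Finset ι)
    {A : ι → Finset (Sym2 α) → Prop} (hA : ∀ i ∈ s, Inc (A i)) {c : ℝ} (hc : 0 ≤ c)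
    (h : ∀ i ∈ s, c ≤ P q E F (A i)) : c ^ #s ≤ P q E F (fun ω => ∀ i ∈ s, A i ω) := by
  classical
  have hq0 : 0 < q := by linarith
  induction s using Finset.induction_on with
  | empty =>
    rw [card_empty, pow_zero, ← P_true hq0 E F]
    apply P_mono hq0
    intro ζ _ _ i hi
    exact absurd hi (notMem_empty i)
  | insert j s hj ih =>
    have ih' := ih (fun i hi => hA i (mem_insert_of_mem hi)) (fun i hi => h i (mem_insert_of_mem hi))
    have h1 := h j (mem_insert_self _ _)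
    have h2 := P_fkg hq hE hF (hA j (mem_insert_self _ _)) (B := fun ω => ∀ i ∈ s, A i ω)
      (fun ω ω' k k' i hi => hA i (mem_insert_of_mem hi) ω ω' k (k' i hi))
    have h3 : P q E F (fun ω => A j ω ∧ ∀ i ∈ s, A i ω) ≤
        P q E F (fun ω => ∀ i ∈ insert j s, A i ω) := by
      apply P_mono hq0
      rintro ζ _ ⟨k1, k2⟩ i hi
      rcases mem_insert.1 hi with rfl | hi
      · exact k1
      · exact k2 i hi
    rw [card_insert_of_notMem hj, pow_succ, mul_comm]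
    exact ((mul_le_mul h1 ih' (pow_nonneg hc _) (P_nonneg hq0 _ _ _)).trans h2).trans h3

theorem P_fkg_dcr_fin (hq : 1 ≤ q) (hE : NL E) (hF : NL F) {ι : Type*} (s : Finset ι)
    {A : ι → Finset (Sym2 α) → Prop} (hA : ∀ i ∈ s, Dcr (A i)) {c : ℝ} (hc : 0 ≤ c)
    (h : ∀ i ∈ s, c ≤ P q E F (A i)) : c ^ #s ≤ P q E F (fun ω => ∀ i ∈ s, A i ω) := by
  classical
  have hq0 : 0 < q := by linarith
  induction s using Finset.induction_on with
  | empty =>
    rw [card_empty, pow_zero, ← P_true hq0 E F]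
    apply P_mono hq0
    intro ζ _ _ i hi
    exact absurd hi (notMem_empty i)
  | insert j s hj ih =>
    have ih' := ih (fun i hi => hA i (mem_insert_of_mem hi)) (fun i hi => h i (mem_insert_of_mem hi))
    have h1 := h j (mem_insert_self _ _)
    have h2 := P_fkg_dcr hq hE hF (hA j (mem_insert_self _ _)) (B := fun ω => ∀ i ∈ s, A i ω)
      (fun ω ω' k k' i hi => hA i (mem_insert_of_mem hi) ω ω' k (k' i hi))
    have h3 : P q E F (fun ω => A j ω ∧ ∀ i ∈ s, A i ω) ≤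
        P q E F (fun ω => ∀ i ∈ insert j s, A i ω) := by
      apply P_mono hq0
      rintro ζ _ ⟨k1, k2⟩ i hi
      rcases mem_insert.1 hi with rfl | hi
      · exact k1
      · exact k2 i hi
    rw [card_insert_of_notMem hj, pow_succ, mul_comm]
    exact ((mul_le_mul h1 ih' (pow_nonneg hc _) (P_nonneg hq0 _ _ _)).trans h2).trans h3

/-- union bound -/
theorem P_union (hq : 0 < q) {ι : Type*} (s : Finset ι) (A : ι → Finset (Sym2 α) → Prop) :
    P q E F (fun ω => ∃ i ∈ s, A i ω) ≤ ∑ i ∈ s, P q E F (A i) :=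
  P_exists_le hq E F s A

private theorem loc_sdiff {D ζ : Finset (Sym2 α)} (hζ : ζ ⊆ E) :
    ((ζ ∪ F) ∩ (E \ D) ∪ F) \ D = (ζ ∪ F) \ D := by
  ext x
  have := @hζ x
  simp only [mem_sdiff, mem_union, mem_inter]
  tauto

private theorem loc_sub {D ζ : Finset (Sym2 α)} : (ζ ∪ F) ∩ (E \ D) ∪ F ⊆ E ∪ F := by
  intro x hx
  simp only [mem_sdiff, mem_union, mem_inter] at hx ⊢
  tauto

private theorem loc_iff {D : Finset (Sym2 α)} {B : Finset (Sym2 α) → Prop}
    (hB : ∀ ω ω', ω ⊆ E ∪ F → ω' ⊆ E ∪ F → ω \ D = ω' \ D → B ω → B ω') {ζ : Finset (Sym2 α)}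
    (hζ : ζ ⊆ E) : B (ζ ∪ F) ↔ B ((ζ ∪ F) ∩ (E \ D) ∪ F) := by
  have h1 : ζ ∪ F ⊆ E ∪ F := union_subset_union hζ (Subset.refl _)
  exact ⟨hB _ _ h1 loc_sub (loc_sdiff hζ).symm, hB _ _ loc_sub h1 (loc_sdiff hζ)⟩

/-- conditioning on the edges outside a fixed set `D`: `B` only depends on the edges outside `D`. (`explore_le` with
the constant `X = E \ D`, `E \ X = D`; replace `B` by an event which is determined by `ω ∩ X` for all `ω`.) -/
theorem P_indep_le (hq : 0 < q) (hE : NL E) (hF : NL F) {D : Finset (Sym2 α)} (hD : D ⊆ E)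
    {A B : Finset (Sym2 α) → Prop}
    (hB : ∀ ω ω', ω ⊆ E ∪ F → ω' ⊆ E ∪ F → ω \ D = ω' \ D → B ω → B ω') {a : ℝ}
    (ha : ∀ η ⊆ E \ D, P q D (F ∪ η) A ≤ a) :
    P q E F (fun ω => A ω ∧ B ω) ≤ a * P q E F B := by
  have e1 : P q E F (fun ω => A ω ∧ B ω) =
      P q E F (fun ω => A ω ∧ (fun ω => B (ω ∩ (E \ D) ∪ F)) ω) :=
    P_congr (fun ζ hζ => and_congr Iff.rfl (loc_iff hB hζ))
  have e2 : P q E F B = P q E F (fun ω => B (ω ∩ (E \ D) ∪ F)) :=
    P_congr (fun ζ hζ => loc_iff hB hζ)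
  rw [e1, e2]
  apply explore_le hq hE hF (X := fun _ => E \ D) (fun _ _ => sdiff_subset)
  · intro ω ω' h h'
    refine ⟨?_, rfl⟩
    rw [h']
    exact h
  · intro ω _ _ _
    rw [Finset.sdiff_sdiff_eq_self hD]
    exact ha _ inter_subset_right

theorem P_indep_ge (hq : 0 < q) (hE : NL E) (hF : NL F) {D : Finset (Sym2 α)} (hD : D ⊆ E)
    {A B : Finset (Sym2 α) → Prop}
    (hB : ∀ ω ω', ω ⊆ E ∪ F → ω' ⊆ E ∪ F → ω \ D = ω' \ D → B ω → B ω') {a : ℝ}
    (ha : ∀ η ⊆ E \ D, a ≤ P q D (F ∪ η) A) :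
    a * P q E F B ≤ P q E F (fun ω => A ω ∧ B ω) := by
  have e1 : P q E F (fun ω => A ω ∧ B ω) =
      P q E F (fun ω => A ω ∧ (fun ω => B (ω ∩ (E \ D) ∪ F)) ω) :=
    P_congr (fun ζ hζ => and_congr Iff.rfl (loc_iff hB hζ))
  have e2 : P q E F B = P q E F (fun ω => B (ω ∩ (E \ D) ∪ F)) :=
    P_congr (fun ζ hζ => loc_iff hB hζ)
  rw [e1, e2]
  apply explore_ge hq hE hF (X := fun _ => E \ D) (fun _ _ => sdiff_subset)
  · intro ω ω' h h'
    refine ⟨?_, rfl⟩
    rw [h']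
    exact h
  · intro ω _ _ _
    rw [Finset.sdiff_sdiff_eq_self hD]
    exact ha _ inter_subset_right

end

end Pool.Agent.FKR
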