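import Pool.Agent.FKR.SFactsDef
import Pool.Agent.FKR.C1
import Pool.Agent.FKR.Localize

/-! # FKR/I2 (MP_b3e76a_pr): dual circuits with wired boundary conditions

From `UU q` by duality: for `n = r + 1`, `rect_dual` in the box `bxx 0 0 (12 n)` (`E = edgesIn`, `F = ∅`) and `An_dual` give
`uu q n = P q ((edgesIn (bxx 0 0 (12 n))).image star) ring (AnD 0 0 n)`; `AnD_sep`: on `AnD 0 0 n` no vertex with `-n ≤ v.1, v.2 ≤ n - 1` (so no
vertex of `bxx 0 0 r`) is connected to a vertex with `v.1` or `v.2` `≥ 2 n` or `≤ -2n-1`. Let `N` be this (decreasing)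
event. The dual box is `rect (-12n-1) (12n) (-12n-1) (12n) ⊆ bxx 0 0 (32 r - 1)` (`12 n + 1 = 12 r + 13 ≤ 32 r - 1` for `r ≥ 1`).
Centre `(x, y)`: translate (`P_map`). Compare with the wired box of radius `32 r` by `localize_ge`/`P_ge`: `I` = interior of the dual box
(not on `ring`), `E' = (edgesIn ..).image star`, `F' = ring`, `h3`: all vertices of `ring` are connected in `ring`. -/

namespace Pool.Agent.FKR

open Finset
open Pool.Agent.H95.Perc (Inc conn link rect hor ver eh ev mem_rect)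
open Pool.Agent.H95.SumRule (edgesIn Z2)

variable {q : ℝ}

/-- boundary edges of the box of radius `n` around `(x, y)` -/
noncomputable def bdE (x y n : ℤ) : Finset (Sym2 (ℤ × ℤ)) :=
  ins (fun v => v ∉ bxx x y (n - 1)) (edgesIn (bxx x y n))

theorem bdE_conn {x y n : ℤ} (hn : 1 ≤ n) {u v : ℤ × ℤ} (hu : u ∈ bxx x y n) (hu' : u ∉ bxx x y (n - 1))
    (hv : v ∈ bxx x y n) (hv' : v ∉ bxx x y (n - 1)) : Cn (bdE x y n) u v := by
  have key : ∀ w, w ∈ bxx x y n → w ∉ bxx x y (n - 1) →
      Rg (x - n + 1) (x + n) (y - n + 1) (y + n) w := by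
    intro w hw hw'
    unfold bxx at hw hw'
    unfold Rg
    rw [mem_rect] at hw hw' ⊢
    omega
  refine (ring_connected (x0 := x - n + 1) (x1 := x + n) (y0 := y - n + 1) (y1 := y + n) (by omega)
    (by omega) (key u hu hu') (key v hv hv')).mono ?_
  intro e he
  induction e with
  | _ a b =>
    rw [mem_ring (by omega) (by omega)] at he
    obtain ⟨⟨ha, ha'⟩, ⟨hb, hb'⟩, hadj⟩ := he
    rw [mem_rect] at ha hb
    unfold bdE
    rw [mem_ins', Pool.Agent.H95.Perc.mem_edgesIn']
    unfold bxx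
    refine ⟨⟨?_, ?_, hadj⟩, ?_⟩
    · rw [mem_rect]; omega
    · rw [mem_rect]; omega
    · intro z hz
      rw [Sym2.mem_iff] at hz
      rcases hz with rfl | rfl
      · rw [mem_rect]; omega
      · rw [mem_rect]; omega

/-- `uu` as the probability of the dual event in the dual box -/
theorem i2_dual (hq : 1 ≤ q) {n : ℤ} (hn : 1 ≤ n) : uu q n =
    P q ((edgesIn (rect (-(12 * n)) (12 * n) (-(12 * n)) (12 * n))).image star)
      (ring (-(12 * n)) (12 * n) (-(12 * n)) (12 * n)) (AnD 0 0 n) := by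
  have hq0 : 0 < q := by linarith
  unfold uu
  have hb : bxx 0 0 (12 * n) = rect (-(12 * n)) (12 * n) (-(12 * n)) (12 * n) := by
    unfold bxx
    rw [zero_sub, zero_add]
  have hrd := rect_dual (q := q) hq0 (x0 := -(12 * n)) (x1 := 12 * n) (y0 := -(12 * n)) (y1 := 12 * n)
    (by omega) (by omega) (E := edgesIn (rect (-(12 * n)) (12 * n) (-(12 * n)) (12 * n))) (F := ∅)
    (Subset.refl _) (empty_subset _) (disjoint_empty_right _) (AnD 0 0 n)
  rw [union_empty, sdiff_self] at hrd
  simp only [bot_eq_empty, image_empty, empty_union] at hrd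
  rw [← hrd, hb]
  apply P_congr
  intro ζ hζ
  rw [union_empty]
  have := An_dual (N := 12 * n) (x := 0) (y := 0) hn (by omega) (by omega) (by omega) (by omega)
    (ω := ζ) (by rw [hb]; exact hζ)
  rw [hb] at this
  exact this

theorem I2 (hq : 1 ≤ q) (hu : UU q) : ∃ c : ℝ, 0 < c ∧ ∀ x y r : ℤ, 1 ≤ r →
    c ≤ P q (edgesIn (bxx x y (32 * r)) \ bdE x y (32 * r)) (bdE x y (32 * r))
      (fun ω => ∀ p ∈ bxx x y r, ∀ v, v ∉ bxx x y (32 * r - 1) → ¬ Cn ω p v) := by
  obtain ⟨c, hc, hcu⟩ := hu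
  refine ⟨c, hc, fun x y r hr => ?_⟩
  have hq0 : 0 < q := by linarith
  set n : ℤ := r + 1 with hn
  have h0 := hcu n (by omega)
  rw [i2_dual hq (by omega)] at h0
  set N : ℤ := 12 * n with hN
  set R := rect (-N) N (-N) N with hR
  set E' := (edgesIn R).image star with hE'
  set F' := ring (-N) N (-N) N with hF'
  have hEF : E' ∪ F' = edgesIn (rect (-N - 1) N (-N - 1) N) := star_union_ring
  have hnlE : NL E' := (NL_edgesIn _).mono (by rw [← hEF]; exact subset_union_left)
  have hnlF : NL F' := (NL_edgesIn _).mono (by rw [← hEF]; exact subset_union_right)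
  -- the translation
  set f : ℤ × ℤ → ℤ × ℤ := fun p => (p.1 + x, p.2 + y) with hf
  have hfinj : Function.Injective f := by
    rintro ⟨a, b⟩ ⟨a', b'⟩ h
    simp only [hf, Prod.mk.injEq] at h
    rw [Prod.mk.injEq]; omega
  have hfsurj : ∀ p : ℤ × ℤ, ∃ p', f p' = p := fun p => ⟨(p.1 - x, p.2 - y), by simp [hf]⟩
  -- the decreasing event
  set S : ℤ × ℤ → Prop := fun f => 2 * n ≤ f.1 - x ∨ f.1 - x ≤ -2 * n - 1 ∨ 2 * n ≤ f.2 - y ∨
    f.2 - y ≤ -2 * n - 1 with hS
  set B : Finset (Sym2 (ℤ × ℤ)) → Prop := fun κ => ∀ p ∈ bxx x y r, ∀ w, S w → ¬ Cn κ p w with hB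
  have hBd : Dcr B := fun ω ω' hs h p hp w hw hc => h p hp w hw (hc.mono hs)
  have h1 : c ≤ P q (img f E') (img f F') B := by
    rw [P_map hq0 hnlE hnlF hfinj.injOn]
    refine h0.trans (P_mono hq0 ?_)
    intro ζ hζ hAn p hp w hw hcn
    obtain ⟨p', rfl⟩ := hfsurj p
    obtain ⟨w', rfl⟩ := hfsurj w
    have hcn' : Cn (ζ ∪ F') p' w' :=
      (Cn_img_iff (S := Set.univ) hfinj.injOn (Set.subset_univ _) (Set.mem_univ _)
        (Set.mem_univ _)).1 hcn
    refine AnD_sep (m := n) (by omega) (V := rect (-N - 1) N (-N - 1) N)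
      (by rw [← hEF]; exact union_subset_union hζ (Subset.refl _)) hAn (v := p') ?_
      ⟨w', ?_, hcn'.symm⟩
    · unfold bxx at hp
      rw [mem_rect] at hp
      simp only [hf] at hp
      omega
    · simp only [hS, hf] at hw
      simp only
      omega
  refine h1.trans ?_
  -- comparison
  set I : ℤ × ℤ → Prop := fun v => -N ≤ v.1 - x ∧ v.1 - x ≤ N - 1 ∧ -N ≤ v.2 - y ∧ v.2 - y ≤ N - 1
    with hI
  have hnlfE : NL (img f E') := NL_img hfinj.injOn hnlE
  have hnlfF : NL (img f F') := NL_img hfinj.injOn hnlF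
  have hadjf : ∀ a b : ℤ × ℤ, Z2.Adj (f a) (f b) ↔ Z2.Adj a b := by
    rintro ⟨a, b⟩ ⟨a', b'⟩
    simp only [hf]
    rw [Z2_adj_iff, Z2_adj_iff]
    omega
  refine localize_ge hq ((NL_edgesIn _).mono sdiff_subset) ((NL_edgesIn _).mono (ins_subset _ _))
    hnlfE hnlfF (I := I) ?_ ?_ ?_ (A := _) (B := B) ?_ hBd ?_
  · -- active edges touching the inside
    intro e he hI'
    have he1 := (mem_sdiff.1 he).1
    induction e with
    | _ a b =>
      obtain ⟨a', rfl⟩ := hfsurj a
      obtain ⟨b', rfl⟩ := hfsurj b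
      rw [Pool.Agent.H95.Perc.mem_edgesIn', hadjf] at he1
      obtain ⟨-, -, hadj⟩ := he1
      have hmem : s(a', b') ∈ E' ∪ F' := by
        rw [hEF, Pool.Agent.H95.Perc.mem_edgesIn', mem_rect, mem_rect]
        obtain ⟨v, hv, hIv⟩ := hI'
        rw [Sym2.mem_iff] at hv
        obtain ⟨a1, a2⟩ := a'
        obtain ⟨b1, b2⟩ := b'
        refine ⟨?_, ?_, hadj⟩ <;>
        · rw [Z2_adj_iff] at hadj
          rcases hv with rfl | rfl <;>
          · simp only [hI, hf] at hIv
            simp only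
            omega
      have hnF : s(a', b') ∉ F' := by
        intro hF
        rw [hF', mem_ring (by omega) (by omega)] at hF
        obtain ⟨⟨g1, g2⟩, ⟨g3, g4⟩, -⟩ := hF
        obtain ⟨v, hv, hIv⟩ := hI'
        rw [Sym2.mem_iff] at hv
        rcases hv with rfl | rfl <;>
        · simp only [hI, hf] at hIv
          omega
      have hE1 : s(a', b') ∈ E' := (mem_union.1 hmem).resolve_right hnF
      exact mem_img_of_mem hE1
  · -- frozen edges
    intro e he v hv hIv
    have := (mem_ins'.1 he).2 v hv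
    apply this
    unfold bxx
    rw [mem_rect]
    simp only [hI] at hIv
    omega
  · -- the outside of the interior is connected
    intro u hu v hv hIu hIv
    obtain ⟨u', rfl⟩ := hfsurj u
    obtain ⟨v', rfl⟩ := hfsurj v
    have key : ∀ w, f w ∈ vts (img f E') → ¬ I (f w) → Rg (-N) N (-N) N w := by
      intro w hw hIw
      rw [vts_img, mem_image] at hw
      obtain ⟨w', hw', hww⟩ := hw
      rw [hfinj hww] at hw'
      have h2 : w ∈ rect (-N - 1) N (-N - 1) N := by
        apply vts_edgesIn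
        rw [← hEF]
        exact vts_mono subset_union_left hw'
      refine ⟨h2, ?_⟩
      rw [mem_rect] at h2
      simp only [hI, hf] at hIw
      omega
    exact Cn_img (ring_connected (by omega) (by omega) (key u' hu hIu) (key v' hv hIv))
  · intro ω ω' hs h p hp v hv hc'
    exact h p hp v hv (hc'.mono hs)
  · intro ω _ hBω p hp v hv hcn
    have hIp : I p := by
      unfold bxx at hp
      rw [mem_rect] at hp
      simp only [hI]
      omega
    have hIv : ¬ I v := by
      intro h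
      apply hv
      unfold bxx
      rw [mem_rect]
      simp only [hI] at h
      omega
    obtain ⟨w, hw, hcw⟩ := hcn.exit_tc hIp hIv
    refine hBω p hp w ?_ (hcw.mono subset_union_left)
    simp only [hI] at hw
    simp only [hS]
    omega

end Pool.Agent.FKR
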