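import Pool.Agent.FKR.Basic

/-! # FKR/Join (MP_b3e76a_pr): joining two vertices

`z` is a fresh vertex; freezing the edges `{c1, z}` and `{z, c2}` open identifies `c1` and `c2`.
For `ω = ζ ∪ F` (no edge at `z`), and `V ∋ z`: `W (insert s(z,c2) (insert s(c1,z) ω))` equals
`W (insert s(c1,z) ω) * √q` if `Cn ω c1 c2` and `W (insert s(c1,z) ω) / √q` otherwise
(`z` is connected to `c2` in `insert s(c1,z) ω` iff `Cn ω c1 c2`: `Cn_insert`), and
`W (insert s(c1,z) ω) = W ω / √q` always. So with `x = P q E F (Cn c1 c2)`, the probability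
of the same event for the joined measure is `√q x / (√q x + (1 - x) / √q) = q x / (1 + (q - 1) x)`.
`Cn_join`: connections in the joined graph. -/

namespace Pool.Agent.FKR

open Finset
open Pool.Agent.H95.Wedge (openGraph W Good selfDual)
open Pool.Agent.H95.Susc (fil ws Lat)
open Pool.Agent.H95.Perc (Inc)

section
variable {α : Type*} [DecidableEq α] {q : ℝ} {E F : Finset (Sym2 α)}

/-- the two edges through the fresh vertex `z` -/
def jn (c1 c2 z : α) : Finset (Sym2 α) := {s(c1, z), s(z, c2)}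

theorem NL_jn {c1 c2 z : α} (h1 : c1 ≠ z) (h2 : c2 ≠ z) : NL (jn c1 c2 z) := by
  intro e he
  rw [jn, mem_insert, mem_singleton] at he
  rcases he with rfl | rfl
  · rw [Sym2.isDiag_iff_proj_eq]
    exact h1
  · rw [Sym2.isDiag_iff_proj_eq]
    exact fun h => h2 h.symm

private lemma union_jn (ω : Finset (Sym2 α)) (c1 c2 z : α) :
    ω ∪ jn c1 c2 z = insert s(z, c2) (insert s(c1, z) ω) := by
  ext e
  simp only [jn, mem_union, mem_insert, mem_singleton]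
  tauto

private lemma Cn_iso {ω : Finset (Sym2 α)} {z w : α} (hz : z ∉ vts ω) : Cn ω w z ↔ w = z := by
  constructor
  · intro h
    by_contra hne
    exact hz (Cn.mem_vts h hne).2
  · rintro rfl
    exact Cn_refl _ _

private lemma Cn_comm {ω : Finset (Sym2 α)} {u v : α} : Cn ω u v ↔ Cn ω v u :=
  ⟨Cn.symm, Cn.symm⟩

theorem Cn_join {ω : Finset (Sym2 α)} {c1 c2 z u v : α} (hz : z ∉ vts ω) (hu : u ≠ z) (hv : v ≠ z)
    (h1 : c1 ≠ z) (h2 : c2 ≠ z) :
    Cn (ω ∪ jn c1 c2 z) u v ↔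
      Cn ω u v ∨ (Cn ω u c1 ∧ Cn ω c2 v) ∨ (Cn ω u c2 ∧ Cn ω c1 v) := by
  have hiso : ∀ w, Cn ω w z ↔ w = z := fun w => Cn_iso hz
  have hiso' : ∀ w, Cn ω z w ↔ w = z := fun w => by rw [Cn_comm]; exact hiso w
  have e1 : ∀ a b, a ≠ z → b ≠ z → (Cn (insert s(c1, z) ω) a b ↔ Cn ω a b) := by
    intro a b ha hb
    rw [Cn_insert, hiso' b, hiso a]
    tauto
  have e2 : ∀ a, a ≠ z → (Cn (insert s(c1, z) ω) a z ↔ Cn ω a c1) := by
    intro a ha
    rw [Cn_insert, hiso a, hiso' z, hiso c1]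
    tauto
  have e3 : ∀ b, b ≠ z → (Cn (insert s(c1, z) ω) z b ↔ Cn ω c1 b) := by
    intro b hb
    rw [Cn_comm, e2 b hb, Cn_comm]
  rw [union_jn, Cn_insert, e1 u v hu hv, e2 u hu, e1 c2 v h2 hv, e1 u c2 hu h2, e3 v hv]

private lemma W_jn (hq : 0 < q) {ω : Finset (Sym2 α)} {V : Finset α} {c1 c2 z : α}
    (hz : z ∉ vts ω) (h1 : c1 ≠ z)
    (h2 : c2 ≠ z) (h12 : c1 ≠ c2) (hc1 : c1 ∈ V) (hc2 : c2 ∈ V) (hzV : z ∈ V) :
    (Cn ω c1 c2 → W q V (ω ∪ jn c1 c2 z) = W q V ω) ∧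
    (¬ Cn ω c1 c2 → W q V (ω ∪ jn c1 c2 z) = W q V ω / q) := by
  have hs : 0 < √q := Real.sqrt_pos.mpr hq
  have hss : √q * √q = q := Real.mul_self_sqrt hq.le
  have hn1 : s(c1, z) ∉ ω := fun h => hz (mem_vts.2 ⟨_, h, Sym2.mem_mk_right _ _⟩)
  have hn2 : s(z, c2) ∉ insert s(c1, z) ω := by
    rw [mem_insert, not_or]
    refine ⟨?_, fun h => hz (mem_vts.2 ⟨_, h, Sym2.mem_mk_left _ _⟩)⟩
    rw [Sym2.eq_iff]
    rintro (⟨h3, _⟩ | ⟨_, h4⟩)
    · exact h1 h3.symm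
    · exact h12 h4.symm
  have hA : W q V ω = √q * W q V (insert s(c1, z) ω) := by
    refine Pool.Agent.H95.Wedge.W_insert_of_not_reach hq h1 hc1 hzV hn1 ?_
    intro h
    exact h1 ((Cn_iso hz).1 h)
  have e2 : ∀ a, a ≠ z → (Cn (insert s(c1, z) ω) z a ↔ Cn ω c1 a) := by
    intro a ha
    rw [Cn_comm, Cn_insert, Cn_iso hz]
    have := Cn_comm (ω := ω) (u := a) (v := c1)
    have h3 : Cn ω z z := Cn_refl _ _
    tauto
  rw [union_jn]
  constructor
  · intro h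
    rw [Pool.Agent.H95.Wedge.W_insert_of_reach hq (Ne.symm h2) hn2 ((e2 c2 h2).2 h), hA]
  · intro h
    have h3 := Pool.Agent.H95.Wedge.W_insert_of_not_reach hq (Ne.symm h2) hzV hc2 hn2
      (fun h4 => h ((e2 c2 h2).1 h4))
    rw [hA, h3, ← mul_assoc, hss]
    field_simp

private lemma fil_eq (w : Finset (Sym2 α) → ℝ) (E : Finset (Sym2 α))
    (A : Finset (Sym2 α) → Prop) :
    ws w E (fun _ => True) = ws w E A + ws w E (fun ζ => ¬ A ζ) := by
  classical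
  unfold ws fil
  rw [filter_true, ← sum_filter_add_sum_filter_not E.powerset A]
  congr!

theorem P_join (hq : 0 < q) (hE : NL E) (hF : NL F) {c1 c2 z : α} (hz : z ∉ vts (E ∪ F))
    (h1 : c1 ∈ vts (E ∪ F)) (h2 : c2 ∈ vts (E ∪ F)) (h12 : c1 ≠ c2) :
    P q E (F ∪ jn c1 c2 z) (fun ω => Cn (ω \ jn c1 c2 z) c1 c2) *
        (1 + (q - 1) * P q E F (fun ω => Cn ω c1 c2)) =
      q * P q E F (fun ω => Cn ω c1 c2) := by
  have h1z : c1 ≠ z := fun h => hz (h ▸ h1)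
  have h2z : c2 ≠ z := fun h => hz (h ▸ h2)
  have hFj : NL (F ∪ jn c1 c2 z) := NL.union hF (NL_jn h1z h2z)
  set V : Finset α := vts (E ∪ (F ∪ jn c1 c2 z)) with hV
  have hsub : vts (E ∪ F) ⊆ V := by
    rw [hV]
    apply vts_mono
    rw [← union_assoc]
    exact subset_union_left
  have hzV : z ∈ V := by
    rw [hV, mem_vts]
    refine ⟨s(c1, z), ?_, Sym2.mem_mk_right _ _⟩
    rw [mem_union, mem_union]
    right; right
    exact mem_insert_self _ _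
  rw [P_eq_V hq hE hFj (le_refl V), P_eq_V hq hE hF hsub]
  set w : Finset (Sym2 α) → ℝ := fun ζ => W q V (ζ ∪ F) with hw
  have hzζ : ∀ ζ ⊆ E, z ∉ vts (ζ ∪ F) := fun ζ hζ h =>
    hz (vts_mono (union_subset_union_left hζ) h)
  have hdis : ∀ ζ ⊆ E, (ζ ∪ (F ∪ jn c1 c2 z)) \ jn c1 c2 z = ζ ∪ F := by
    intro ζ hζ
    rw [← union_assoc, union_sdiff_right, Finset.sdiff_eq_self_iff_disjoint, disjoint_left]
    intro e he1 he2
    refine hzζ ζ hζ (mem_vts.2 ⟨e, he1, ?_⟩)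
    rw [jn, mem_insert, mem_singleton] at he2
    rcases he2 with rfl | rfl
    · exact Sym2.mem_mk_right _ _
    · exact Sym2.mem_mk_left _ _
  set a : ℝ := ws w E (fun ζ => Cn (ζ ∪ F) c1 c2) with ha
  set b : ℝ := ws w E (fun ζ => ¬ Cn (ζ ∪ F) c1 c2) with hb
  have hwpos : ∀ ζ, 0 < w ζ := fun ζ => Pool.Agent.H95.Wedge.W_pos hq _ _
  have ha0 : 0 ≤ a := Pool.Agent.H95.Susc.ws_nonneg (fun ζ => (hwpos ζ).le) _ _
  have hb0 : 0 ≤ b := Pool.Agent.H95.Susc.ws_nonneg (fun ζ => (hwpos ζ).le) _ _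
  have htot : ws w E (fun _ => True) = a + b := fil_eq w E _
  have htot0 : 0 < a + b := by
    rw [← htot]
    unfold ws
    exact sum_pos (fun ζ _ => hwpos ζ) ⟨∅, by rw [Pool.Agent.H95.Susc.mem_fil]; simp⟩
  set w' : Finset (Sym2 α) → ℝ := fun ζ => W q V (ζ ∪ (F ∪ jn c1 c2 z)) with hw'
  have hW : ∀ ζ ⊆ E, (Cn (ζ ∪ F) c1 c2 → w' ζ = w ζ) ∧ (¬ Cn (ζ ∪ F) c1 c2 → w' ζ = w ζ / q) := by
    intro ζ hζ
    have := W_jn (V := V) hq (hzζ ζ hζ) h1z h2z h12 (hsub h1) (hsub h2) hzV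
    rw [hw', hw]
    simp only [← union_assoc]
    exact this
  have ha' : ws w' E (fun ζ => Cn (ζ ∪ F) c1 c2) = a := by
    rw [ha]
    unfold ws
    refine sum_congr rfl fun ζ hζ => ?_
    rw [Pool.Agent.H95.Susc.mem_fil] at hζ
    exact (hW ζ hζ.1).1 hζ.2
  have hb' : ws w' E (fun ζ => ¬ Cn (ζ ∪ F) c1 c2) = b / q := by
    rw [hb]
    unfold ws
    rw [sum_div]
    refine sum_congr rfl fun ζ hζ => ?_
    rw [Pool.Agent.H95.Susc.mem_fil] at hζ
    exact (hW ζ hζ.1).2 hζ.2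
  have hnum : ws w' E (fun ζ => Cn ((ζ ∪ (F ∪ jn c1 c2 z)) \ jn c1 c2 z) c1 c2) = a := by
    rw [← ha']
    refine Pool.Agent.H95.Susc.ws_congr fun ζ hζ => ?_
    rw [hdis ζ hζ]
  have htot' : ws w' E (fun _ => True) = a + b / q := by
    rw [fil_eq w' E (fun ζ => Cn (ζ ∪ F) c1 c2), ha', hb']
  rw [hnum, htot', htot]
  have hd : 0 < a + b / q := by
    rcases lt_or_eq_of_le ha0 with h | h
    · have : 0 ≤ b / q := div_nonneg hb0 hq.le
      linarith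
    · have : 0 < b / q := div_pos (by linarith) hq
      linarith
  have hd' : 0 < q * a + b := by
    have := mul_pos hq hd
    rw [mul_add, mul_div_cancel₀ _ hq.ne'] at this
    exact this
  have e1 : a + b / q = (q * a + b) / q := by
    field_simp
  have e2 : 1 + (q - 1) * (a / (a + b)) = (q * a + b) / (a + b) := by
    field_simp
    ring
  rw [e1, e2]
  generalize q * a + b = t at hd'
  field_simp

end

end Pool.Agent.FKR
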