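import Pool.Agent.FKR.KLM1

/-! # FKR/KLM2 (MP_b3e76a_pr): the key topological lemma, dual case and conclusion

`KLM_dual`: suppose there is no crossing `ver (-a) a (-1) (T+1) (kap ζ)`. By `ver_iff` there is a path of faces
`f_0, ..., f_n` in `rect (-a-1) a (-1) T` from the column `-a-1` to the column `a`, consecutive ones
adjacent and separated by an edge `e_k = sepE f_k f_{k+1}` which is not in `kap ζ ∩ edgesIn R'`, where
`R' = rect (-a) a (-1) (T+1)`. Start at the last visit to the column `-a-1`: then `e_0` is a vertical edge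
`ev (-a) j`, `f_0 = (-a-1, j)`, and `j ≠ T` since `ev (-a) T ∈ kap ζ`. So `-1 ≤ j ≤ T-1`, and all `e_k` which are
crossed before reaching column `a` are in `edgesIn R'`, so not in `kap ζ`.
Let `v_k = tauV f_k`; `v_k`, `v_{k+1}` are the ends of `tau e_k`. Let `t` be the first index with `v_t` incident to a face
of `n1`. Claim: for `k ≤ min t n`, `f_k ∈ Phi2 \ n2`, `f_k ∉ n1`. (So `t` exists and `t < n`, since column `a` faces are in
`n2` or in the row `T`, not in `Phi2`.) Induction: true for `k = 0` (`left`; if `f_0 ∈ n1` then `e_0 = ev (-a) j` is explored,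
hence in `kap` (it is in `ES1`, not in `Mset`), unless `j = -1`, but the row `-1` is not in `n1`). Step
`k → k+1` for `k < t`: `v_k` is not incident to `n1`, so `tau e_k` has no side in `n1` and `e_k ∉ Mset`. Cases:
- `e_k ∈ ES2`: `e_k ∉ kap`, so `e_k ∉ XX` (as `e_k ∉ Mset`) and `e_k ∉ ζ`. Not in `Xs (ES2) n2`: `f_{k+1} ∉ n2`. If `f_{k+1} ∈ n1 ⊆ Phi1`, then
  `e_k ∈ ES1` would be explored: so `f_{k+1} ∉ n1`. If `f_{k+1} ∉ Phi2`: `f_{k+1} = (i, T)`, `f_k = (i, T-1)`, `e_k = eh i T`;
  if `i ≤ -1` then `(i, T) ∈ n1` contradicts `f_{k+1} ∉ n1`; if `i ≥ 0` then `v_k = (-1-i, T)` is incident to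
  `(-1-i, T) ∈ n1` (`-1-i ≤ -1`, `≥ -a ≥ -L`), contradiction with `k < t`.
- `e_k = ev x (-1)`, `f_k, f_{k+1}` = `(x-1, -1), (x, -1)` in some order; not in `kap`, so `x < xf`, so both are not in `n2`
  (`bot`), and in `Phi2`; not in `n1` (`bot`).
- `e_k = ev x T`: `f_k` in the row `T`, not in `Phi2`: excluded.
Now `v_0 = (a, j+1)` is incident to `(a, j) ∈ n2`; let `s ≤ t` be the last index `≤ t` with `v_s` incident to a face of `n2`.
For `s ≤ k < t`: `v_{k+1}` is not incident to `n2` and `v_k` is not incident to `n1`. `e_k = ev x (-1)` (`x < xf ≤ 0`) is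
impossible: `v_k, v_{k+1}` are `(-x, 0), (-1-x, 0)`, incident to the faces `(-x, -1)` or `(-1-x, -1)` with
first coordinate `≥ 0 ≥ xf`, in `n2` (first coordinate `≤ a`). So `e_k ∈ ES2`, `e_k ∉ XX`, `e_k ∉ ζ`: `e_k ∈ E0`. `tau e_k ∈ ES2`:
otherwise (`tau_eh`, `tau_ev`) `e_k = eh x T` (then `f_k` or `f_{k+1}` is in the row `T`, excluded) or `e_k = ev a y` (then
`f_k` or `f_{k+1}` is `(a, y) ∈ n2`, excluded). `tau e_k ∉ XX` by `inci_of_Xs`. So `e_k ∈ Em \ ζ`, `tau e_k ∈ (Em \ ζ).image tau`.
If `s < t`: `v_s ∈ C2` (`V1b`, `tau e_s ∈ Ec ⊆ EG`), `v_t ∈ C1` (`V1a`), connected. If `s = t`: claim `v_t ∈ C1`, then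
`trace` gives `C1 ∩ C2 ≠ ∅`. (`v_t ∈ S2`: as `f_t ∈ Phi2`, `v_t = (-1-i, j+1)` with `0 ≤ j+1 ≤ T`, `-a-1 ≤ -1-i ≤ a`; `i < a` as
column `a` of `Phi2` is in `n2`, so `-a ≤ -1-i`.) `t ≥ 1` as `v_0 = (a, _)` is not incident to `n1`. Suppose `v_t = (x, y) ∉ C1`;
all faces of `Phi1` around `v_t` are in `n1` (`x ≤ 0`). The edge `g = tau e_{t-1}` joins `v_{t-1}` to `v_t` and has no side in
`n1`. So `x = 0` and `g = eh 0 y` (as in `KLM_primal`), so `e_{t-1} = ev (-1) (y-1)`, which has the side
`(-1, y-1)`: if `y ≥ 1`, it is in `n1` and `e_{t-1} ∈ ES1` is explored, so in `kap`, contradiction; if `y = 0`, `(-1, -1)` is a face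
of `Phi1` around `v_t` which is not in `n1`, contradiction.

`hM`: for SDL. -/

namespace Pool.Agent.FKR

open Finset
open Pool.Agent.H95.Wedge (openGraph W Good selfDual clusters)
open Pool.Agent.H95.Perc (Inc conn link rect hor ver eh ev sumE sepE Inci mem_rect)
open Pool.Agent.H95.SumRule (edgesIn Z2)

variable {L a T : ℤ} {n1 n2 : Finset (ℤ × ℤ)} {ω : Finset (Sym2 (ℤ × ℤ))} {C1 C2 : Finset (ℤ × ℤ)}

/-- a side of the edge between two adjacent vertices is incident to both -/
private lemma side_inc2 {u v h : ℤ × ℤ} (huv : Z2.Adj u v) (hh : h ∈ star s(u, v)) :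
    Inci h u ∧ Inci h v := by
  have he : s(u, v) ∈ edgesIn ({u, v} : Finset (ℤ × ℤ)) :=
    Pool.Agent.H95.Perc.mem_edgesIn'.mpr ⟨by simp, by simp, huv⟩
  exact ⟨inci_of_side he hh (by simp), inci_of_side he hh (by simp)⟩

private lemma tau_sepE2 {f g : ℤ × ℤ} (h : Z2.Adj f g) : tau (sepE f g) = s(tauV f, tauV g) := by
  unfold tau
  rw [star_sepE h, Sym2.map_mk]

private lemma adj_tauV2 {f g : ℤ × ℤ} (h : Z2.Adj f g) : Z2.Adj (tauV f) (tauV g) := by
  obtain ⟨i, j⟩ := f
  obtain ⟨i', j'⟩ := g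
  rw [Z2_adj_iff] at h
  simp only [tauV, Equiv.coe_fn_mk]
  rw [Z2_adj_iff]
  omega

private lemma sepE_col2 {i j j' : ℤ} : sepE (i, j) (i, j') = eh i (max j j') := by
  unfold sepE eh
  simp

private lemma sepE_row2 {i i' j : ℤ} (h : i ≠ i') : sepE (i, j) (i', j) = ev (max i i') j := by
  unfold sepE ev
  simp [h]

private lemma mem_Xs2 {E : Finset (Sym2 (ℤ × ℤ))} {n : Finset (ℤ × ℤ)} {e : Sym2 (ℤ × ℤ)} :
    e ∈ Xs E n ↔ e ∈ E ∧ touch n e := by
  classical
  unfold Xs
  rw [mem_filter]

theorem KLM_dual (h1 : KLF1 L T n1 ω C1) (h2 : KLF2 a T n2 ω C2) (haL : a ≤ L) {xf : ℤ}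
    (hxf : -a ≤ xf ∧ xf ≤ 0 ∧ ∀ i, -a - 1 ≤ i → i ≤ a → ((i, -1) ∈ n2 ↔ xf ≤ i))
    {ζ : Finset (Sym2 (ℤ × ℤ))} (hζ : ζ ⊆ EG L a T n1 n2)
    (hv : ¬ ver (-a) a (-1) (T + 1) (kap L a T n1 n2 xf ζ)) :
    (∃ v ∈ C1, v ∈ C2) ∨
      ∃ u ∈ C1, ∃ v ∈ C2, Cn ((Em L a T n1 n2 \ ζ).image tau) u v := by
  classical
  by_contra hcon
  have hcon1 : ¬ ∃ v ∈ C1, v ∈ C2 := fun h => hcon (Or.inl h)
  have hcon2 : ¬ ∃ u ∈ C1, ∃ v ∈ C2, Cn ((Em L a T n1 n2 \ ζ).image tau) u v :=
    fun h => hcon (Or.inr h)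
  have ha := h2.ha
  have hT := h2.hT
  obtain ⟨hx1, hx2, hx3⟩ := hxf
  rw [ver_iff (by omega) (by omega)] at hv
  push Not at hv
  obtain ⟨A, hA, B, hB, hA1, hB1, hc⟩ := hv
  rw [show T + 1 - 1 = T by ring] at hA hB hc
  set ζ' : Finset (Sym2 (ℤ × ℤ)) := (Em L a T n1 n2 \ ζ).image tau with hζ'
  set G2 : ℤ × ℤ → Prop := fun z => (∃ f ∈ n2, Inci f z) ∨ ∃ v ∈ C2, Cn ζ' v z with hG2
  have key : ∀ w : ℤ × ℤ, w ∈ rect (-a) a 0 T → w ∈ C1 → G2 w → False := by
    intro w hw hwC hG
    rcases hG with hG | ⟨v, hv, hG⟩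
    · exact hcon1 (trace h1 h2 haL hwC hw hG)
    · exact hcon2 ⟨w, hwC, v, hv, hG.symm⟩
  have hn1 : ∀ {f : ℤ × ℤ}, f ∈ n1 → -L ≤ f.1 ∧ f.1 ≤ -1 ∧ -1 ≤ f.2 ∧ f.2 ≤ T := by
    intro f hf
    have := h1.sub hf
    rwa [Phi1, mem_rect] at this
  have hn2 : ∀ {f : ℤ × ℤ}, f ∈ n2 → -a - 1 ≤ f.1 ∧ f.1 ≤ a ∧ -1 ≤ f.2 ∧ f.2 ≤ T - 1 := by
    intro f hf
    have := h2.sub hf
    rwa [Phi2, mem_rect] at this
  -- edges of the auxiliary configuration
  have kap_x : ∀ {e : Sym2 (ℤ × ℤ)}, e ∈ ES2 a T → e ∈ XX L a T n1 n2 → e ∉ Mset L a T n1 →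
      e ∈ kap L a T n1 n2 xf ζ := by
    intro e h3 h4 h5
    unfold kap
    rw [mem_union, mem_union, mem_inter, mem_union, mem_sdiff]
    exact Or.inl (Or.inl ⟨Or.inr ⟨h4, h5⟩, h3⟩)
  have kap_z : ∀ {e : Sym2 (ℤ × ℤ)}, e ∈ ES2 a T → e ∈ ζ → e ∈ kap L a T n1 n2 xf ζ := by
    intro e h3 h4
    unfold kap
    rw [mem_union, mem_union, mem_inter, mem_union]
    exact Or.inl (Or.inl ⟨Or.inl h4, h3⟩)
  have kap_b : ∀ {x : ℤ}, xf ≤ x → x ≤ a → ev x (-1) ∈ kap L a T n1 n2 xf ζ := by
    intro x h3 h4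
    unfold kap
    rw [mem_union, mem_union]
    exact Or.inl (Or.inr (mem_image_of_mem _ (mem_Icc.mpr ⟨h3, h4⟩)))
  have kap_t : ∀ {x : ℤ}, -a ≤ x → x ≤ -1 → ev x T ∈ kap L a T n1 n2 xf ζ := by
    intro x h3 h4
    unfold kap
    rw [mem_union]
    exact Or.inr (mem_image_of_mem (fun x => ev x T) (mem_Icc.mpr ⟨h3, h4⟩))
  -- the main invariant
  set Inv2 : ℤ × ℤ → Prop := fun f => f ∈ Phi2 a T ∧ f ∉ n2 ∧ f ∉ n1 ∧ G2 (tauV f) ∧
    ¬ ∃ h ∈ n1, Inci h (tauV f) with hInv2
  -- the step
  have step : ∀ f g : ℤ × ℤ, Inv2 f → g ∈ rect (-a - 1) a (-1) T → Z2.Adj f g →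
      sepE f g ∉ kap L a T n1 n2 xf ζ ∩ edgesIn (rect (-a) a (-1) (T + 1)) → -a ≤ g.1 →
      Inv2 g := by
    rintro ⟨i, j⟩ ⟨i', j'⟩ ⟨hfP, hfn2, hfn1, hfG, hfi⟩ hg hadj hsep hgx
    have hfP' := hfP
    rw [Phi2, mem_rect] at hfP'
    rw [mem_rect] at hg
    simp only at hfP' hg hgx
    have hfa : i ≤ a - 1 := by
      by_contra h
      have : i = a := by omega
      subst this
      exact hfn2 (h2.right j hfP'.2.2.1 hfP'.2.2.2)
    have hadj' := hadj
    rw [Z2_adj_iff] at hadj'
    have hseq := tau_sepE2 hadj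
    have hadjt := adj_tauV2 hadj
    have htf : tauV (i, j) = (-1 - i, j + 1) := rfl
    have htg : tauV (i', j') = (-1 - i', j' + 1) := rfl
    -- the edge is in the rectangle
    have hin : sepE (i, j) (i', j') ∈ edgesIn (rect (-a) a (-1) (T + 1)) := by
      rcases hadj' with ⟨h3, h4⟩ | ⟨h3, h4⟩
      · subst h3
        rw [sepE_col2, eh_mem_edgesIn_rect]
        omega
      · subst h3
        rw [sepE_row2 (by omega), ev_mem_edgesIn_rect]
        omega
    have hk : sepE (i, j) (i', j') ∉ kap L a T n1 n2 xf ζ := fun h => hsep (mem_inter.mpr ⟨h, hin⟩)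
    by_cases hbot : j = -1 ∧ j' = -1
    · -- horizontal step in the row `-1`
      obtain ⟨rfl, rfl⟩ := hbot
      have hne : i ≠ i' := by omega
      rw [sepE_row2 hne] at hk
      have hxx : max i i' < xf := by
        by_contra h
        exact hk (kap_b (by omega) (by omega))
      have hgP : ((i', -1) : ℤ × ℤ) ∈ Phi2 a T := by
        rw [Phi2, mem_rect]; simp only; omega
      have hgn2 : ((i', -1) : ℤ × ℤ) ∉ n2 := by
        rw [hx3 i' (by omega) (by omega)]
        omega
      have hgn1 : ((i', -1) : ℤ × ℤ) ∉ n1 := h1.bot _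
      have hgG : G2 (tauV (i', -1)) := by
        left
        refine ⟨(-1 - i', -1), (hx3 _ (by omega) (by omega)).mpr (by omega), ?_⟩
        rw [htg]
        simp only [Inci]
        omega
      refine ⟨hgP, hgn2, hgn1, hgG, ?_⟩
      rintro ⟨h, hh, hhi⟩
      have hh1 := hn1 hh
      rw [htg] at hhi hgG
      simp only [Inci] at hhi
      have hi' : i' = -1 := by omega
      subst hi'
      refine key _ ?_ ?_ hgG
      · rw [mem_rect]; simp only; omega
      · by_contra hC
        have hL := h1.hL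
        have : ((-1, -1) : ℤ × ℤ) ∈ n1 := by
          apply class1 h1 (u := (-1 - -1, -1 + 1)) _ hC ⟨h, hh, by simp only [Inci]; omega⟩
          · rw [Phi1, mem_rect]; simp only; omega
          · simp only [Inci]; omega
          · rw [mem_rect]; simp only; omega
        exact h1.bot _ this
    · -- the edge is in `ES2`
      have hE2 : sepE (i, j) (i', j') ∈ ES2 a T := by
        unfold ES2
        rcases hadj' with ⟨h3, h4⟩ | ⟨h3, h4⟩
        · subst h3
          rw [sepE_col2, eh_mem_edgesIn_rect]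
          omega
        · subst h3
          rw [sepE_row2 (by omega), ev_mem_edgesIn_rect]
          omega
      have hzeta : sepE (i, j) (i', j') ∉ ζ := fun h => hk (kap_z hE2 h)
      have hside : ∀ h ∈ n1, h ∉ star (tau (sepE (i, j) (i', j'))) := by
        intro h hh hs
        rw [hseq] at hs
        exact hfi ⟨h, hh, (side_inc2 hadjt hs).1⟩
      have hM : sepE (i, j) (i', j') ∉ Mset L a T n1 := by
        intro h
        unfold Mset at h
        rw [mem_filter] at h
        obtain ⟨h', hh', hs'⟩ := h.2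
        exact hside h' hh' hs'
      have hXX : sepE (i, j) (i', j') ∉ XX L a T n1 n2 := fun h => hk (kap_x hE2 h hM)
      have hgs : ((i', j') : ℤ × ℤ) ∈ star (sepE (i, j) (i', j')) := by
        rw [star_sepE hadj]; simp
      have hgn2 : ((i', j') : ℤ × ℤ) ∉ n2 := by
        intro h
        apply hXX
        unfold XX
        rw [mem_union]
        exact Or.inr (mem_Xs2.mpr ⟨hE2, _, h, hgs⟩)
      have hgn1 : ((i', j') : ℤ × ℤ) ∉ n1 := by
        intro h
        apply hXX
        unfold XX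
        rw [mem_union]
        refine Or.inl (mem_Xs2.mpr ⟨?_, _, h, hgs⟩)
        have hh := hn1 h
        simp only at hh
        unfold ES1
        rcases hadj' with ⟨h3, h4⟩ | ⟨h3, h4⟩
        · subst h3
          rw [sepE_col2, eh_mem_edgesIn_rect]
          omega
        · subst h3
          rw [sepE_row2 (by omega), ev_mem_edgesIn_rect]
          omega
      have hgT : j' ≤ T - 1 := by
        by_contra h
        have hi : i = i' ∧ j' = T ∧ j = T - 1 := by omega
        obtain ⟨rfl, rfl, rfl⟩ := hi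
        by_cases hi : i ≤ -1
        · exact hgn1 (h1.top i (by omega) hi)
        · apply hfi
          refine ⟨(-1 - i, j'), h1.top _ (by omega) (by omega), ?_⟩
          rw [htf]
          simp only [Inci]
          omega
      have hga : i' ≤ a - 1 := by
        by_contra h
        have : i' = a := by omega
        subst this
        exact hgn2 (h2.right j' (by omega) (by omega))
      have hgP : ((i', j') : ℤ × ℤ) ∈ Phi2 a T := by
        rw [Phi2, mem_rect]; simp only; omega
      have hgG : G2 (tauV (i', j')) := by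
        by_cases hgi : ∃ h ∈ n2, Inci h (tauV (i', j'))
        · exact Or.inl hgi
        · right
          have hside2 : ∀ h ∈ n2, h ∉ star (tau (sepE (i, j) (i', j'))) := by
            intro h hh hs
            rw [hseq] at hs
            exact hgi ⟨h, hh, (side_inc2 hadjt hs).2⟩
          have htE2 : tau (sepE (i, j) (i', j')) ∈ ES2 a T := by
            unfold ES2
            rcases hadj' with ⟨h3, h4⟩ | ⟨h3, h4⟩
            · subst h3
              rw [sepE_col2, tau_eh, ev_mem_edgesIn_rect]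
              omega
            · subst h3
              rw [sepE_row2 (by omega), tau_ev, eh_mem_edgesIn_rect]
              omega
          have htXX : tau (sepE (i, j) (i', j')) ∉ XX L a T n1 n2 := by
            intro h
            unfold XX at h
            rw [mem_union, mem_Xs2, mem_Xs2] at h
            rcases h with ⟨_, h', hh', hs'⟩ | ⟨_, h', hh', hs'⟩
            · exact hside h' hh' hs'
            · exact hside2 h' hh' hs'
          have hEm : sepE (i, j) (i', j') ∈ Em L a T n1 n2 := by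
            unfold Em E0
            rw [mem_filter, mem_sdiff, mem_sdiff]
            exact ⟨⟨hE2, hXX⟩, htE2, htXX⟩
          have hz' : s(tauV (i, j), tauV (i', j')) ∈ ζ' := by
            rw [← hseq]
            exact mem_image_of_mem _ (mem_sdiff.mpr ⟨hEm, hzeta⟩)
          rcases hfG with hfG | ⟨v, hv, hfG⟩
          · refine ⟨tauV (i, j), ?_, Cn_edge hz'⟩
            refine V1b (L := L) (n1 := n1) h2 (e := tau (sepE (i, j) (i', j'))) ?_ ?_ hfG
            · unfold EG Ec
              exact mem_union_right _ (mem_image_of_mem _ hEm)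
            · rw [hseq]; simp
          · exact ⟨v, hv, hfG.trans (Cn_edge hz')⟩
      refine ⟨hgP, hgn2, hgn1, hgG, ?_⟩
      rintro ⟨h, hh, hhi⟩
      have hh1 := hn1 hh
      have hw2 : tauV (i', j') ∈ rect (-a) a 0 T := by
        rw [htg, mem_rect]; simp only; omega
      refine key _ hw2 ?_ hgG
      by_contra hC
      have hhi' := hhi
      rw [htg] at hhi'
      simp only [Inci] at hhi'
      have hw1 : tauV (i', j') ∈ rect (-L) 0 0 T := by
        rw [htg, mem_rect]; simp only; omega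
      have hall : ∀ g ∈ Phi1 L T, Inci g (tauV (i', j')) → g ∈ n1 := fun g hg hgw =>
        class1 h1 hw1 hC ⟨h, hh, hhi⟩ hg hgw
      have hno : ∀ g ∈ Phi1 L T, Inci g (tauV (i', j')) → Inci g (tauV (i, j)) → False :=
        fun g hg hgw hgz => hfi ⟨g, hall g hg hgw, hgz⟩
      have hL := h1.hL
      rw [htf, htg] at hno
      rw [htg] at hall
      rcases hadj' with ⟨h3, h4⟩ | ⟨h3, h4⟩
      · subst h3
        refine hno (min (-1 - i) (-1), min (j + 1) (j' + 1)) ?_ ?_ ?_
        · rw [Phi1, mem_rect]; simp only; omega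
        · simp only [Inci]; omega
        · simp only [Inci]; omega
      · subst h3
        by_cases hi' : i' = -1 ∧ i = -2
        · obtain ⟨rfl, rfl⟩ := hi'
          apply hgn1
          apply hall
          · rw [Phi1, mem_rect]; simp only; omega
          · simp only [Inci]; omega
        · refine hno (min (-1 - i) (-1 - i'), j + 1) ?_ ?_ ?_
          · rw [Phi1, mem_rect]; simp only; omega
          · simp only [Inci]; omega
          · simp only [Inci]; omega
  -- the induction
  have main : ∀ f g : ℤ × ℤ, (dG (rect (-a - 1) a (-1) T)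
      (kap L a T n1 n2 xf ζ ∩ edgesIn (rect (-a) a (-1) (T + 1)))).Reachable f g →
      (f.1 = -a - 1 ∨ Inv2 f) → (g.1 = -a - 1 ∨ Inv2 g) := by
    rintro f g ⟨p⟩
    induction p with
    | nil => exact id
    | cons hfg p ih =>
      rename_i f h g
      intro hf
      apply ih
      rw [dG_adj] at hfg
      obtain ⟨hfP, hhP, hadj, hsep⟩ := hfg
      by_cases hh : h.1 = -a - 1
      · exact Or.inl hh
      · right
        have hhP' := mem_rect.mp hhP
        refine step f h ?_ hhP hadj hsep (by omega)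
        rcases hf with hf | hf
        · -- the first step
          obtain ⟨i, j⟩ := f
          obtain ⟨i', j'⟩ := h
          simp only at hf hh hhP'
          subst hf
          have hadj' := hadj
          rw [Z2_adj_iff] at hadj'
          obtain ⟨rfl, rfl⟩ : j' = j ∧ i' = -a := by omega
          rw [sepE_row2 (by omega), show max (-a - 1) (-a) = -a by omega] at hsep
          have hin : ev (-a) j' ∈ edgesIn (rect (-a) a (-1) (T + 1)) := by
            rw [ev_mem_edgesIn_rect]; omega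
          have hk : ev (-a) j' ∉ kap L a T n1 n2 xf ζ := fun h => hsep (mem_inter.mpr ⟨h, hin⟩)
          have hjT : j' ≤ T - 1 := by
            by_contra h
            have : j' = T := by omega
            subst this
            exact hk (kap_t le_rfl (by omega))
          have htf : tauV (-a - 1, j') = (a, j' + 1) := by
            simp only [tauV, Equiv.coe_fn_mk]
            rw [show -1 - (-a - 1) = a by ring]
          refine ⟨?_, h2.left _, ?_, ?_, ?_⟩
          · rw [Phi2, mem_rect]; simp only; omega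
          · intro hmem
            by_cases hj : j' = -1
            · subst hj
              exact h1.bot _ hmem
            · apply hk
              have hE1 : ev (-a) j' ∈ ES1 L T := by
                unfold ES1
                rw [ev_mem_edgesIn_rect]; omega
              apply kap_x
              · unfold ES2
                rw [ev_mem_edgesIn_rect]; omega
              · unfold XX
                rw [mem_union]
                refine Or.inl (mem_Xs2.mpr ⟨hE1, _, hmem, ?_⟩)
                rw [star_ev, mem_eh]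
                exact Or.inl rfl
              · unfold Mset
                rw [mem_filter, mem_sdiff]
                exact fun h => h.1.2 hE1
          · left
            refine ⟨(a, j'), h2.right _ (by omega) hjT, ?_⟩
            rw [htf]
            simp only [Inci]; omega
          · rintro ⟨h, hh, hhi⟩
            have := hn1 hh
            rw [htf] at hhi
            simp only [Inci] at hhi
            omega
        · exact hf
  rcases main A B hc (Or.inl hA1) with h3 | ⟨h3, h4, _⟩
  · omega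
  · apply h4
    rw [Phi2, mem_rect] at h3
    have : B = (a, B.2) := by
      rw [← hB1]
    rw [this]
    exact h2.right _ h3.2.2.1 h3.2.2.2

theorem hM (h1 : KLF1 L T n1 ω C1) (h2 : KLF2 a T n2 ω C2) (haL : a ≤ L)
    {ζ : Finset (Sym2 (ℤ × ℤ))} (hζ : ζ ⊆ EG L a T n1 n2) :
    (∃ v ∈ C1, v ∈ C2) ∨ (∃ u ∈ C1, ∃ v ∈ C2, Cn ζ u v) ∨
      ∃ u ∈ C1, ∃ v ∈ C2, Cn ((Em L a T n1 n2 \ ζ).image tau) u v := by
  obtain ⟨xf, hxf⟩ := h2.bot
  by_cases hv : ver (-a) a (-1) (T + 1) (kap L a T n1 n2 xf ζ)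
  · rcases KLM_primal h1 h2 haL hxf hζ hv with h | h
    · exact Or.inl h
    · exact Or.inr (Or.inl h)
  · rcases KLM_dual h1 h2 haL hxf hζ hv with h | h
    · exact Or.inl h
    · exact Or.inr (Or.inr h)

end Pool.Agent.FKR
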