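import Pool.Agent.FKR.Dom
import Pool.Agent.FKR.Join

/-! # FKR/SDL (MP_b3e76a_pr): connection probability in a self-dual or better domain

Abstract version of: in a symmetric domain with two wired arcs, the two arcs are connected with
probability at least `1 / (1 + √q)`.
Let `x = P q EG η (Cn · c1 c2)`, and suppose `c1 ≠ c2` (otherwise `x = 1`).
`1 - x = P q EG η (¬ Cn c1 c2) ≤ P q EG η (fun ω => Cn (θ ω ∪ η) c1 c2)` by `hM`
`≤ P q Em η (same)` by `P_anti_EF` (decreasing event as `θ` is antitone)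
`= P q Ec η' (fun ω => Cn ((ω ∩ Ec) ∪ η) c1 c2)` by `hdual`
`≤ P q EG (η ∪ jn c1 c2 z) (fun ω => Cn (ω \ jn c1 c2 z) c1 c2)` by `P_le` with `hV`
(for `ζ ⊆ Ec`: `(ζ ∪ η') ∩ Ec = ζ` by `hdis`, and `ζ ∪ η ⊆ (ζ ∪ (η ∪ jn)) \ jn` as `z ∉ vts`)
`= q x / (1 + (q - 1) x)` by `P_join`.
So `(1 - x) (1 + (q - 1) x) ≤ q x`, i.e. `(q - 1) x ^ 2 + 2 x - 1 ≥ 0`, and `x ≥ 0` gives
`x ≥ 1 / (1 + √q)` (which is the positive root: `(q-1)/(1+√q)^2 + 2/(1+√q) - 1 = 0`; with `s = √q`,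
`(q - 1) x ^ 2 + 2 x - 1 = ((1 + s) x - 1) * ((s - 1) x + 1)`). -/

namespace Pool.Agent.FKR

open Finset
open Pool.Agent.H95.Wedge (openGraph W Good selfDual)
open Pool.Agent.H95.Susc (fil ws Lat)
open Pool.Agent.H95.Perc (Inc)

section
variable {α : Type*} [DecidableEq α] {q : ℝ}

theorem SDL (hq : 1 ≤ q) {EG Ec Em η η' : Finset (Sym2 α)} {c1 c2 z : α} (hE : NL EG) (hη : NL η)
    (hη' : NL η') (hz : z ∉ vts (EG ∪ η)) (h1 : c1 ∈ vts (EG ∪ η)) (h2 : c2 ∈ vts (EG ∪ η))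
    (hEm : Em ⊆ EG) (hEc : Ec ⊆ EG) (hdis : Disjoint η' Ec)
    {θ : Finset (Sym2 α) → Finset (Sym2 α)} (hθ : ∀ ω ω', ω ⊆ ω' → θ ω' ⊆ θ ω)
    (hdual : ∀ B : Finset (Sym2 α) → Prop,
      P q Em η (fun ω => B (θ ω)) = P q Ec η' (fun ω => B (ω ∩ Ec)))
    (hV : ∀ u ∈ vts Ec, ∀ v ∈ vts Ec, Cn η' u v → Cn (η ∪ jn c1 c2 z) u v)
    (hM : ∀ ζ ⊆ EG, Cn (ζ ∪ η) c1 c2 ∨ Cn (θ (ζ ∪ η) ∪ η) c1 c2) :
    1 / (1 + √q) ≤ P q EG η (fun ω => Cn ω c1 c2) := by
  have hq0 : 0 < q := by linarith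
  have hs1 : 1 ≤ √q := Real.one_le_sqrt.2 hq
  have hs2 : √q ^ 2 = q := Real.sq_sqrt hq0.le
  set x : ℝ := P q EG η (fun ω => Cn ω c1 c2) with hx
  have hx0 : 0 ≤ x := P_nonneg hq0 _ _ _
  by_cases h12 : c1 = c2
  · have hx1 : x = 1 := by
      rw [hx]
      refine P_eq_one hq0 fun ζ _ => ?_
      rw [h12]
      exact Cn_refl _ _
    rw [hx1, div_le_one (by linarith)]
    linarith
  have h1z : c1 ≠ z := by
    rintro rfl
    exact hz h1
  have h2z : c2 ≠ z := by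
    rintro rfl
    exact hz h2
  have hEmNL : NL Em := hE.mono hEm
  have hEcNL : NL Ec := hE.mono hEc
  have hjn : NL (jn c1 c2 z) := NL_jn h1z h2z
  -- step 1
  have s1 : 1 - x ≤ P q EG η (fun ω => Cn (θ ω ∪ η) c1 c2) := by
    rw [hx, ← P_not hq0]
    refine P_mono hq0 fun ζ hζ hn => ?_
    exact (hM ζ hζ).resolve_left hn
  -- step 2
  have hD : Dcr (fun ω : Finset (Sym2 α) => Cn (θ ω ∪ η) c1 c2) := by
    intro ω ω' hs h
    exact h.mono (Finset.union_subset_union_left (hθ ω ω' hs))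
  have s2 : P q EG η (fun ω => Cn (θ ω ∪ η) c1 c2) ≤ P q Em η (fun ω => Cn (θ ω ∪ η) c1 c2) :=
    P_anti_EF hq hE hη (hEm.trans Finset.subset_union_left) (Finset.Subset.refl _) hD
  -- step 3
  have s3 : P q Em η (fun ω => Cn (θ ω ∪ η) c1 c2) =
      P q Ec η' (fun ω => Cn (ω ∩ Ec ∪ η) c1 c2) := hdual (fun ω => Cn (ω ∪ η) c1 c2)
  -- step 4
  have s4 : P q Ec η' (fun ω => Cn (ω ∩ Ec ∪ η) c1 c2) ≤
      P q EG (η ∪ jn c1 c2 z) (fun ω => Cn (ω \ jn c1 c2 z) c1 c2) := by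
    refine P_le hq hEcNL hη' hE (hη.union hjn) (hEc.trans Finset.subset_union_left) hV ?_ ?_ ?_
    · intro ω ω' hs h
      exact h.mono (Finset.union_subset_union_left (Finset.inter_subset_inter_right hs))
    · intro ω ω' hs h
      exact h.mono (Finset.sdiff_subset_sdiff hs (Finset.Subset.refl _))
    · intro ζ hζ h
      refine h.mono ?_
      intro e he
      have hjne : ∀ e ∈ EG ∪ η, e ∉ jn c1 c2 z := by
        intro e he hj
        refine hz (mem_vts.2 ⟨e, he, ?_⟩)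
        unfold jn at hj
        rw [Finset.mem_insert, Finset.mem_singleton] at hj
        rcases hj with rfl | rfl
        · exact Sym2.mem_mk_right _ _
        · exact Sym2.mem_mk_left _ _
      rcases Finset.mem_union.1 he with he | he
      · obtain ⟨he1, he2⟩ := Finset.mem_inter.1 he
        have he3 : e ∈ ζ := by
          rcases Finset.mem_union.1 he1 with h3 | h3
          · exact h3
          · exact absurd he2 (Finset.disjoint_left.1 hdis h3)
        refine Finset.mem_sdiff.2 ⟨Finset.mem_union_left _ he3, ?_⟩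
        exact hjne e (Finset.mem_union_left _ (hEc he2))
      · refine Finset.mem_sdiff.2 ⟨Finset.mem_union_right _ (Finset.mem_union_left _ he), ?_⟩
        exact hjne e (Finset.mem_union_right _ he)
  -- step 5
  have s5 := P_join (q := q) hq0 hE hη hz h1 h2 h12
  rw [← hx] at s5
  set y : ℝ := P q EG (η ∪ jn c1 c2 z) (fun ω => Cn (ω \ jn c1 c2 z) c1 c2) with hy
  have s6 : 1 - x ≤ y := by linarith [s1, s2, s3.le, s4]
  have s7 : (1 - x) * (1 + (q - 1) * x) ≤ q * x := by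
    rw [← s5]
    refine mul_le_mul_of_nonneg_right s6 ?_
    have : 0 ≤ (q - 1) * x := mul_nonneg (by linarith) hx0
    linarith
  -- conclusion
  rw [div_le_iff₀ (by linarith)]
  have s8 : 0 ≤ ((1 + √q) * x - 1) * ((√q - 1) * x + 1) := by
    have : ((1 + √q) * x - 1) * ((√q - 1) * x + 1) = (√q ^ 2 - 1) * x ^ 2 + 2 * x - 1 := by ring
    rw [this, hs2]
    nlinarith
  have s9 : 0 < (√q - 1) * x + 1 := by
    have : 0 ≤ (√q - 1) * x := mul_nonneg (by linarith) hx0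
    linarith
  have s10 : 0 ≤ (1 + √q) * x - 1 := by
    by_contra hneg
    push Not at hneg
    have := mul_neg_of_neg_of_pos hneg s9
    linarith
  linarith

end

end Pool.Agent.FKR
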