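import Pool.Agent.FKR.KLV2
import Pool.Agent.FKR.KLM2
import Pool.Agent.FKR.SDL
import Pool.Agent.FKR.RectDual

/-! # FKR/KLCond (MP_b3e76a_pr): conditional connection probability

If `C1` and `C2` have a common vertex `v`, take `c1 = c2 = v` (`P_eq_one`). Otherwise take any `c1 ∈ C1`, `c2 ∈ C2`
(`h1.ne`, `h2.c_bot`) and apply `SDL` with `η = ω ∩ XX`, `η' = etaD`, `Em`, `Ec`, `EG`,
`θ κ = (Em \ κ).image tau`, `z = (a + 1, 0)` (all edges are in `ED`, whose vertices are in `rect (-L) a 0 T`).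
`hdual`: `rect_dual` for `rect (-L) a 0 T`, `E = Em`, `F = η` (`η ⊆ ED`; disjoint from `Em ⊆ E0`), with
`B' κ' = B (img tauV κ' ∩ Ec)`, then `P_map` for `tauV`: `img tauV (S.image star) = S.image tau`, so
`img tauV` of the dual frozen set is `etaD`. For `κ = ζ ∪ η`, `ζ ⊆ Em`:
`img tauV ((ED \ κ).image star ∪ ring) ∩ Ec = (Em \ κ).image tau` since `tau` is injective on `ED` and
`ring` is disjoint from `ED.image star`. The same argument gives `hdis`.
`hV`: `hV` of `KLV2`. `hM`: `hM` of `KLM2`, with `h1.conn`, `h2.conn` to pass from `u ∈ C1`, `v ∈ C2` to `c1`, `c2`;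
`(Em \ (ζ ∪ η)).image tau = (Em \ ζ).image tau`. -/

namespace Pool.Agent.FKR

open Finset
open Pool.Agent.H95.Wedge (openGraph W Good selfDual clusters)
open Pool.Agent.H95.Perc (Inc conn link rect hor ver eh ev sumE sepE Inci mem_rect)
open Pool.Agent.H95.SumRule (edgesIn Z2)

variable {L a T : ℤ} {n1 n2 : Finset (ℤ × ℤ)} {ω : Finset (Sym2 (ℤ × ℤ))} {C1 C2 : Finset (ℤ × ℤ)}
  {q : ℝ}

private lemma ES1_sub_ED (haL : 0 ≤ a) : ES1 L T ⊆ ED L a T :=
  Pool.Agent.H95.Perc.edgesIn_mono (Pool.Agent.H95.Perc.rect_mono le_rfl haL le_rfl le_rfl)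

private lemma ES2_sub_ED (haL : a ≤ L) : ES2 a T ⊆ ED L a T :=
  Pool.Agent.H95.Perc.edgesIn_mono
    (Pool.Agent.H95.Perc.rect_mono (by linarith) le_rfl le_rfl le_rfl)

private lemma XX_sub_ED (ha : 0 ≤ a) (haL : a ≤ L) : XX L a T n1 n2 ⊆ ED L a T := by
  intro e he
  rw [mem_XX'] at he
  rcases he with h | h
  · exact ES1_sub_ED ha h.1
  · exact ES2_sub_ED haL h.1

private lemma Em_sub_ED (haL : a ≤ L) : Em L a T n1 n2 ⊆ ED L a T := fun _ he =>
  ES2_sub_ED haL (E0_subset_ES2 (Em_subset_E0 he))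

private lemma EG_sub_ED (haL : a ≤ L) : EG L a T n1 n2 ⊆ ED L a T := fun _ he =>
  ES2_sub_ED haL (E0_subset_ES2 (EG_subset_E0 he))

private lemma NL_ED : NL (ED L a T) := NL_edgesIn _

private lemma NL_img_tauV {S : Finset (Sym2 (ℤ × ℤ))} (h : NL S) : NL (img tauV S) := by
  intro e he
  unfold img at he
  rw [mem_image] at he
  obtain ⟨e', he', rfl⟩ := he
  have := h e' he'
  induction e' with
  | _ x y =>
    rw [Sym2.mk_isDiag_iff] at this
    rw [Sym2.map_mk, Sym2.mk_isDiag_iff]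
    exact fun h => this (tauV.injective h)

private lemma img_image_star (S : Finset (Sym2 (ℤ × ℤ))) :
    img tauV (S.image star) = S.image tau := by
  unfold img
  rw [image_image]
  rfl

private lemma tau_not_ring {e : Sym2 (ℤ × ℤ)} (he : e ∈ ED L a T) :
    tau e ∉ img tauV (ring (-L) a 0 T) := by
  intro h
  unfold img at h
  rw [mem_image] at h
  obtain ⟨e', he', h⟩ := h
  have h2 : e' = star e := Sym2.map.injective tauV.injective h
  rw [h2] at he'
  unfold ring at he'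
  rw [mem_sdiff] at he'
  exact he'.2 (mem_image_of_mem _ he)

private lemma Em_disj_XX : ∀ e ∈ Em L a T n1 n2, e ∉ XX L a T n1 n2 := fun _ he =>
  (mem_E0'.1 (Em_subset_E0 he)).2

/-- the image of the dual configuration inside `Ec` -/
private lemma theta_eq (haL : a ≤ L) {κ : Finset (Sym2 (ℤ × ℤ))} :
    img tauV ((ED L a T \ κ).image star ∪ ring (-L) a 0 T) ∩ Ec L a T n1 n2 =
      (Em L a T n1 n2 \ κ).image tau := by
  ext e
  rw [mem_inter, img_union, img_image_star, mem_union, mem_image, mem_image]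
  constructor
  · rintro ⟨h1, h2⟩
    unfold Ec at h2
    rw [mem_image] at h2
    obtain ⟨e2, he2, rfl⟩ := h2
    have he2D := Em_sub_ED haL he2
    rcases h1 with ⟨e1, he1, h1⟩ | h1
    · rw [mem_sdiff] at he1
      have : e1 = e2 := tau_injOn _ he1.1 he2D h1
      subst this
      exact ⟨e1, mem_sdiff.2 ⟨he2, he1.2⟩, rfl⟩
    · exact absurd h1 (tau_not_ring he2D)
  · rintro ⟨e1, he1, rfl⟩
    rw [mem_sdiff] at he1
    refine ⟨Or.inl ⟨e1, mem_sdiff.2 ⟨Em_sub_ED haL he1.1, he1.2⟩, rfl⟩, ?_⟩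
    unfold Ec
    exact mem_image_of_mem _ he1.1

theorem klcond (hq : 1 ≤ q) (h1 : KLF1 L T n1 ω C1) (h2 : KLF2 a T n2 ω C2) (haL : a ≤ L) :
    ∃ c1 ∈ C1, ∃ c2 ∈ C2,
      1 / (1 + √q) ≤ P q (EG L a T n1 n2) (ω ∩ XX L a T n1 n2) (fun κ => Cn κ c1 c2) := by
  have hq0 : 0 < q := by linarith
  have hs : 0 ≤ √q := Real.sqrt_nonneg q
  have ha := h2.ha
  have hT := h2.hT
  by_cases hcom : ∃ v ∈ C1, v ∈ C2
  · obtain ⟨v, hv1, hv2⟩ := hcom
    refine ⟨v, hv1, v, hv2, ?_⟩
    rw [P_eq_one hq0 (fun ζ _ => Cn_refl _ _), div_le_one (by linarith)]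
    linarith
  obtain ⟨c1, hc1⟩ := h1.ne
  obtain ⟨c2, hc2, _⟩ := h2.c_bot
  refine ⟨c1, hc1, c2, hc2, ?_⟩
  have hXs1 : ω ∩ Xs (ES1 L T) n1 ⊆ ω ∩ XX L a T n1 n2 :=
    inter_subset_inter_left subset_union_left
  have hXs2 : ω ∩ Xs (ES2 a T) n2 ⊆ ω ∩ XX L a T n1 n2 :=
    inter_subset_inter_left subset_union_right
  have hηD : ω ∩ XX L a T n1 n2 ⊆ ED L a T :=
    inter_subset_right.trans (XX_sub_ED (by linarith) haL)
  have hdisj : Disjoint (Em L a T n1 n2) (ω ∩ XX L a T n1 n2) := by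
    rw [disjoint_left]
    intro e he he'
    exact Em_disj_XX e he (mem_inter.1 he').2
  refine SDL (η' := etaD L a T n1 n2 ω) (Ec := Ec L a T n1 n2) (Em := Em L a T n1 n2)
    (z := (a + 1, 0)) (θ := fun κ => (Em L a T n1 n2 \ κ).image tau) hq
    (NL_ED.mono (EG_sub_ED haL)) (NL_ED.mono hηD) ?_ ?_ ?_ ?_ subset_union_left
    subset_union_right ?_ ?_ ?_ ?_ ?_
  · -- `etaD` has no loops
    unfold etaD
    refine NL.union ?_ ?_
    · rw [← img_image_star]
      refine NL_img_tauV ?_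
      exact (NL_edgesIn _).mono ((image_subset_image sdiff_subset).trans star_edgesIn_subset)
    · refine NL_img_tauV ?_
      unfold ring
      exact (NL_edgesIn _).mono sdiff_subset
  · -- `z` is fresh
    intro h
    have h3 : vts (EG L a T n1 n2 ∪ ω ∩ XX L a T n1 n2) ⊆ rect (-L) a 0 T :=
      (vts_mono (union_subset (EG_sub_ED haL) hηD)).trans (vts_edgesIn _)
    have h4 := h3 h
    rw [mem_rect] at h4
    dsimp only at h4
    omega
  · exact vts_mono (hXs1.trans subset_union_right) (h1.vt c1 hc1)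
  · exact vts_mono (hXs2.trans subset_union_right) (h2.vt c2 hc2)
  · -- disjointness
    rw [disjoint_left]
    intro e he he'
    unfold etaD at he
    unfold Ec at he'
    rw [mem_image] at he'
    obtain ⟨e2, he2, rfl⟩ := he'
    have he2D := Em_sub_ED haL he2
    rw [mem_union, mem_image] at he
    rcases he with ⟨e1, he1, h3⟩ | he
    · rw [mem_sdiff, mem_union] at he1
      have : e1 = e2 := tau_injOn _ he1.1 he2D h3
      subst this
      exact he1.2 (Or.inl he2)
    · exact tau_not_ring he2D he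
  · intro κ κ' hκ
    exact image_subset_image (sdiff_subset_sdiff (Subset.refl _) hκ)
  · -- duality
    intro B
    have h3 := rect_dual (q := q) (x0 := -L) (x1 := a) (y0 := 0) (y1 := T) hq0 (by linarith)
      (by linarith) (E := Em L a T n1 n2) (F := ω ∩ XX L a T n1 n2) (Em_sub_ED haL) hηD hdisj
      (fun κ' => B (img tauV κ' ∩ Ec L a T n1 n2))
    have h4 : P q (Em L a T n1 n2) (ω ∩ XX L a T n1 n2)
        (fun κ => B ((Em L a T n1 n2 \ κ).image tau)) =
        P q (Em L a T n1 n2) (ω ∩ XX L a T n1 n2) (fun κ => (fun κ' => B (img tauV κ' ∩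
          Ec L a T n1 n2)) ((edgesIn (rect (-L) a 0 T) \ κ).image star ∪ ring (-L) a 0 T)) := by
      refine P_congr fun ζ _ => ?_
      have := theta_eq (n1 := n1) (n2 := n2) (T := T) haL (κ := ζ ∪ ω ∩ XX L a T n1 n2)
      unfold ED at this
      simp only [this]
    rw [h4, h3]
    have hNLs : NL ((Em L a T n1 n2).image star) :=
      (NL_edgesIn _).mono ((image_subset_image (Em_sub_ED haL)).trans star_edgesIn_subset)
    have hNLr : NL ((edgesIn (rect (-L) a 0 T) \ (Em L a T n1 n2 ∪ ω ∩ XX L a T n1 n2)).image star ∪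
        ring (-L) a 0 T) := by
      refine NL.union ?_ ?_
      · exact (NL_edgesIn _).mono ((image_subset_image sdiff_subset).trans star_edgesIn_subset)
      · unfold ring
        exact (NL_edgesIn _).mono sdiff_subset
    have h5 := P_map (q := q) hq0 hNLs hNLr (f := tauV) (tauV.injective.injOn)
      (fun κ => B (κ ∩ Ec L a T n1 n2))
    rw [← h5, img_union, img_image_star, img_image_star]
    rfl
  · intro u hu v hv huv
    exact hV h1 h2 haL hc1 hc2 hu hv huv
  · intro ζ hζ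
    have hsub : ω ∩ XX L a T n1 n2 ⊆ ζ ∪ ω ∩ XX L a T n1 n2 := subset_union_right
    have key : ∀ κ : Finset (Sym2 (ℤ × ℤ)), ω ∩ XX L a T n1 n2 ⊆ κ → ∀ u ∈ C1, ∀ v ∈ C2,
        Cn κ u v → Cn κ c1 c2 := by
      intro κ hκ u hu v hv huv
      have e1 : Cn κ c1 u := (h1.conn c1 hc1 u hu).mono (hXs1.trans hκ)
      have e2 : Cn κ v c2 := (h2.conn v hv c2 hc2).mono (hXs2.trans hκ)
      exact (e1.trans huv).trans e2
    rcases hM h1 h2 haL hζ with h3 | ⟨u, hu, v, hv, h3⟩ | ⟨u, hu, v, hv, h3⟩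
    · exact absurd h3 hcom
    · left
      exact key _ hsub u hu v hv (h3.mono subset_union_left)
    · right
      have h4 : Em L a T n1 n2 \ (ζ ∪ ω ∩ XX L a T n1 n2) = Em L a T n1 n2 \ ζ := by
        ext e
        rw [mem_sdiff, mem_sdiff, mem_union, not_or]
        constructor
        · rintro ⟨h5, h6, _⟩
          exact ⟨h5, h6⟩
        · rintro ⟨h5, h6⟩
          exact ⟨h5, h6, fun h7 => disjoint_left.1 hdisj h5 h7⟩
      rw [h4]
      exact key _ subset_union_right u hu v hv (h3.mono subset_union_left)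

end Pool.Agent.FKR
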