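import Pool.Agent.FKR.KLProb
import Pool.Agent.FKR.CylSym
import Pool.Agent.FKR.CylHV
import Pool.Agent.FKR.Glue
import Pool.Agent.FKR.Tol

/-! # FKR/KLCyl (MP_b3e76a_pr): recursion for the crossing probabilities in the cylinder

`hor_extend_prob`: `explore_ge` with the constant set `X = edgesIn (rect x0 x1 y0 y1)`, `B = hor x0 x1 y0 y1`
(use `dep_link`): given the configuration in `X` there is `y` as in `hor_extend`; the edge `eh x1 y ∉ X` is open with
conditional probability `≥ 1 / (1 + √q)` (`P_insert` with `A = True`, `B = (eh x1 y ∈ ·)`).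
`KL_cyl`: `M = 2 m + 1`, in the rectangle `D = rect (m-L) (m+a) t (h-t)`:
`hor (m-L) m`, `link (foot ≤ m)` and `hor (m-a) (m+a)` (all in the rows `t..h-t`) are increasing;
`P(hor (m-L) m) P(foot) ≤ P(both) ≤ (1 + √q) P(KLgoal m t L a (h-2t))` (`P_fkg`, `KLProb` with `x = m`, `y = t`, `T = h - 2 t`;
`D ⊆` active edges since `t ≥ 1`), `P(KLgoal) P(hor (m-a) (m+a)) ≤ P(both) ≤ P(hor (m-L) (m+a))` (`hor_glue_conn`);
`Pc_foot`, `Pc_hor_shift`, `Pc_ver_shift`. -/

namespace Pool.Agent.FKR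

open Finset
open Pool.Agent.H95.Perc (Inc conn link rect hor ver eh ev sumE sepE Inci mem_rect)
open Pool.Agent.H95.SumRule (edgesIn Z2)

variable {q : ℝ} {E F : Finset (Sym2 (ℤ × ℤ))} {h : ℤ}

theorem hor_extend_prob (hq : 1 ≤ q) (hE : NL E) (hF : NL F) {x0 x1 y0 y1 : ℤ} (h01 : x0 ≤ x1)
    (hD : edgesIn (rect x0 (x1 + 1) y0 y1) ⊆ E) :
    P q E F (hor x0 x1 y0 y1) ≤ (1 + √q) * P q E F (hor x0 (x1 + 1) y0 y1) := by
  have hq0 : 0 < q := by linarith
  have hs1 : 1 ≤ √q := Real.one_le_sqrt.2 hq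
  have hpos : 0 < 1 + √q := by linarith
  set X : Finset (Sym2 (ℤ × ℤ)) := edgesIn (rect x0 x1 y0 y1) with hX
  have hXE : X ⊆ E := (Pool.Agent.H95.Perc.edgesIn_mono
    (Pool.Agent.H95.Perc.rect_mono le_rfl (by omega) le_rfl le_rfl)).trans hD
  have hdep : ∀ ω, hor x0 x1 y0 y1 ω ↔ hor x0 x1 y0 y1 (ω ∩ X) :=
    Pool.Agent.H95.Perc.dep_link _ _ _
  have key : (1 / (1 + √q)) * P q E F (hor x0 x1 y0 y1) ≤
      P q E F (fun ω => hor x0 (x1 + 1) y0 y1 ω ∧ hor x0 x1 y0 y1 ω) := by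
    refine explore_ge (B := hor x0 x1 y0 y1) (X := fun _ => X) hq0 hE hF (fun _ _ => hXE) ?_ ?_
    · intro ω ω' hB hω
      refine ⟨?_, rfl⟩
      rw [hdep, hω, ← hdep]
      exact hB
    · intro ω _ _ hB
      have hB' : hor x0 x1 y0 y1 (ω ∩ X) := (hdep ω).1 hB
      obtain ⟨y, hy0, hy1, hy⟩ := hor_extend h01 hB'
      set e : Sym2 (ℤ × ℤ) := eh x1 y with he
      have heE : e ∈ E := by
        refine hD ?_
        rw [he]
        unfold eh
        rw [Pool.Agent.H95.Perc.mem_edgesIn']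
        have hadj : Z2.Adj ((x1, y) : ℤ × ℤ) (x1 + 1, y) := by
          show Pool.Agent.H95.SumRule.IsUnit2 _
          simp only [Pool.Agent.H95.SumRule.IsUnit2, Prod.fst_sub, Prod.snd_sub]
          omega
        exact ⟨mem_rect.2 ⟨by dsimp only; omega, by dsimp only; omega, hy0, hy1⟩,
          mem_rect.2 ⟨by dsimp only; omega, by dsimp only; omega, hy0, hy1⟩, hadj⟩
      have heX : e ∉ X := by
        rw [hX, he]
        unfold eh
        rw [Pool.Agent.H95.Perc.mem_edgesIn']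
        rintro ⟨_, h2, _⟩
        have := (mem_rect.1 h2).2.1
        dsimp only at this
        omega
      have hEX : NL (E \ X) := hE.mono Finset.sdiff_subset
      have hFX : NL (F ∪ ω ∩ X) := hF.union (hE.mono (Finset.inter_subset_right.trans hXE))
      have h1 : P q (E \ X) (F ∪ ω ∩ X) (fun _ => True) ≤
          (1 + √q) * P q (E \ X) (F ∪ ω ∩ X) (fun κ => e ∈ κ) :=
        P_insert (e := e) hq hEX hFX (Finset.mem_union_left _ (Finset.mem_sdiff.2 ⟨heE, heX⟩))
          (fun κ _ => Finset.mem_insert_self e κ)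
      rw [P_true hq0] at h1
      have h2 : P q (E \ X) (F ∪ ω ∩ X) (fun κ => e ∈ κ) ≤
          P q (E \ X) (F ∪ ω ∩ X) (hor x0 (x1 + 1) y0 y1) := by
        refine P_mono hq0 fun ζ _ hκ => ?_
        refine Pool.Agent.H95.Perc.inc_hor x0 (x1 + 1) y0 y1 _ _ ?_ hy
        refine Finset.insert_subset hκ ?_
        intro a ha
        exact Finset.mem_union_right _ (Finset.mem_union_right _ ha)
      rw [div_le_iff₀ hpos]
      nlinarith
  have h3 : P q E F (fun ω => hor x0 (x1 + 1) y0 y1 ω ∧ hor x0 x1 y0 y1 ω) ≤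
      P q E F (hor x0 (x1 + 1) y0 y1) := P_mono hq0 fun ζ _ h => h.1
  have h4 := key.trans h3
  rw [one_div, inv_mul_le_iff₀ hpos] at h4
  exact h4

theorem KL_cyl (hq : 1 ≤ q) {m L a t : ℤ} (ht : 1 ≤ t) (hT : 1 ≤ h - 2 * t) (ha : 1 ≤ a) (haL : a ≤ L)
    (hLm : L ≤ m) :
    Pc q (2 * m + 1) h (hor 0 L t (h - t)) * (Pc q (2 * m + 1) h (ver 0 (2 * a) t (h - t)) *
      Pc q (2 * m + 1) h (hor 0 (2 * a) t (h - t))) ≤
      2 * (1 + √q) * Pc q (2 * m + 1) h (hor 0 (L + a) t (h - t)) := by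
  have hq0 : 0 < q := by linarith
  have hs1 : 1 ≤ √q := Real.one_le_sqrt.2 hq
  have hM : 3 ≤ 2 * m + 1 := by omega
  have hh : 0 ≤ h := by omega
  have hE : NL (cylE (2 * m + 1) h) := NL_cylE hM
  have hF : NL (cylF (2 * m + 1)) := NL_cylF hM
  -- shifts
  have e1 : Pc q (2 * m + 1) h (hor 0 L t (h - t)) =
      Pc q (2 * m + 1) h (hor (m - L) m t (h - t)) := by
    have := Pc_hor_shift (q := q) (M := 2 * m + 1) (h := h) (y0 := t) (y1 := h - t) hq0 hM hh
      (x := m - L) (b := L) (by omega) (by omega) (by omega)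
    rw [sub_add_cancel] at this
    exact this.symm
  have e2 : Pc q (2 * m + 1) h (ver 0 (2 * a) t (h - t)) =
      Pc q (2 * m + 1) h (ver (m - a) (m + a) t (h - t)) := by
    have := Pc_ver_shift (q := q) (M := 2 * m + 1) (h := h) (y0 := t) (y1 := h - t) hq0 hM hh
      (x := m - a) (b := 2 * a) (by omega) (by omega) (by omega)
    rw [show m - a + 2 * a = m + a by ring] at this
    exact this.symm
  have e3 : Pc q (2 * m + 1) h (hor 0 (2 * a) t (h - t)) =
      Pc q (2 * m + 1) h (hor (m - a) (m + a) t (h - t)) := by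
    have := Pc_hor_shift (q := q) (M := 2 * m + 1) (h := h) (y0 := t) (y1 := h - t) hq0 hM hh
      (x := m - a) (b := 2 * a) (by omega) (by omega) (by omega)
    rw [show m - a + 2 * a = m + a by ring] at this
    exact this.symm
  have e4 : Pc q (2 * m + 1) h (hor 0 (L + a) t (h - t)) =
      Pc q (2 * m + 1) h (hor (m - L) (m + a) t (h - t)) := by
    have := Pc_hor_shift (q := q) (M := 2 * m + 1) (h := h) (y0 := t) (y1 := h - t) hq0 hM hh
      (x := m - L) (b := L + a) (by omega) (by omega) (by omega)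
    rw [show m - L + (L + a) = m + a by ring] at this
    exact this.symm
  have e5 := Pc_foot (q := q) (h := h) (y0 := t) (y1 := h - t) hq0 (m := m) (by omega) hh (a := a)
    (by omega) (by omega)
  -- the rectangle consists of active edges
  have hD : edgesIn (rect (m - L) (m + a) t (t + (h - 2 * t))) ⊆ cylE (2 * m + 1) h := by
    intro e he
    refine Finset.mem_union_left _ (Finset.mem_sdiff.2 ⟨?_, ?_⟩)
    · refine Pool.Agent.H95.Perc.edgesIn_mono
        (Pool.Agent.H95.Perc.rect_mono ?_ ?_ ?_ ?_) he <;> omega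
    · induction e with
      | _ u v =>
        rw [Pool.Agent.H95.Perc.mem_edgesIn'] at he ⊢
        rintro ⟨h1, _, _⟩
        have h2 := (mem_rect.1 h1).2.2.2
        have h3 := (mem_rect.1 he.1).2.2.1
        omega
  have k1 := KLProb (q := q) hq hE hF ha haL hT hD
  rw [show t + (h - 2 * t) = h - t by ring] at k1
  set Ft : Finset (Sym2 (ℤ × ℤ)) → Prop := link (rect (m - a) (m + a) t (h - t))
    (fun v => v.2 = t ∧ v.1 ≤ m) (fun v => v.2 = h - t) with hFt
  set H1 : ℝ := Pc q (2 * m + 1) h (hor (m - L) m t (h - t)) with hH1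
  set V1 : ℝ := Pc q (2 * m + 1) h (ver (m - a) (m + a) t (h - t)) with hV1
  set H2 : ℝ := Pc q (2 * m + 1) h (hor (m - a) (m + a) t (h - t)) with hH2
  set H3 : ℝ := Pc q (2 * m + 1) h (hor (m - L) (m + a) t (h - t)) with hH3
  set FF : ℝ := Pc q (2 * m + 1) h Ft with hFF
  set GG : ℝ := Pc q (2 * m + 1) h (KLgoal m t L a (h - 2 * t)) with hGG
  have f1 : H1 * FF ≤ (1 + √q) * GG := by
    have h1 : H1 * FF ≤ P q (cylE (2 * m + 1) h) (cylF (2 * m + 1))
        (fun ω => hor (m - L) m t (h - t) ω ∧ Ft ω) :=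
      P_fkg hq hE hF (Pool.Agent.H95.Perc.inc_hor _ _ _ _) (Pool.Agent.H95.Perc.inc_link _ _ _)
    exact h1.trans k1
  have f2 : GG * H2 ≤ H3 := by
    have h1 : GG * H2 ≤ P q (cylE (2 * m + 1) h) (cylF (2 * m + 1))
        (fun ω => KLgoal m t L a (h - 2 * t) ω ∧ hor (m - a) (m + a) t (h - t) ω) :=
      P_fkg hq hE hF inc_KLgoal (Pool.Agent.H95.Perc.inc_hor _ _ _ _)
    refine h1.trans (P_mono hq0 fun ζ _ hζ => ?_)
    obtain ⟨⟨u, b, tt, hu, hb, htt, hu1, hb2, ht2, hub, hbt⟩, hh2⟩ := hζ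
    rw [show t + (h - 2 * t) = h - t by ring] at hu hb htt ht2 hub hbt
    exact hor_glue_conn (x0 := m - L) (x1' := m - a) (x2 := m + a) (by omega) (by omega) (by omega)
      hu hb htt hu1 hb2 ht2 hub hbt hh2
  have hH1n : 0 ≤ H1 := P_nonneg hq0 _ _ _
  have hH2n : 0 ≤ H2 := P_nonneg hq0 _ _ _
  have hV1n : 0 ≤ V1 := P_nonneg hq0 _ _ _
  have hFFn : 0 ≤ FF := P_nonneg hq0 _ _ _
  rw [e1, e2, e3, e4]
  have e5' : V1 ≤ 2 * FF := e5
  calc H1 * (V1 * H2) ≤ H1 * (2 * FF * H2) := by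
        refine mul_le_mul_of_nonneg_left ?_ hH1n
        exact mul_le_mul_of_nonneg_right e5' hH2n
    _ = 2 * (H1 * FF) * H2 := by ring
    _ ≤ 2 * ((1 + √q) * GG) * H2 := by
        refine mul_le_mul_of_nonneg_right ?_ hH2n
        linarith
    _ = 2 * (1 + √q) * (GG * H2) := by ring
    _ ≤ 2 * (1 + √q) * H3 := by
        refine mul_le_mul_of_nonneg_left f2 ?_
        positivity

end Pool.Agent.FKR
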