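import Pool.Agent.FKR.Faces

/-! # FKR/KLDefs (MP_b3e76a_pr): the explored region in the main lemma (definitions)

Coordinates: `D = rect (-L) a 0 T`, `S1 = rect (-L) 0 0 T`, `S2 = rect (-a) a 0 T`, `1 ≤ a ≤ L`, `1 ≤ T`.
`N1`: region above the highest left-right crossing of `S1` (faces in `Φ1 = rect (-L) (-1) (-1) T`).
`N2`: region to the right of the right-most bottom-top crossing of `S2` whose foot `(x, 0)` has
`x ≤ 0` (faces in `Φ2 = rect (-a-1) a (-1) (T-1)`; the vertical edges below `(x, 0)`, `-a ≤ x ≤ 0`, are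
added to the configuration).
`τ` maps the face `(i, j)` to the vertex `(-1-i, j+1)` and an edge `e` to the `τ`-image of its dual:
`tau (eh x y) = ev (-1-x) y`, `tau (ev x y) = eh (-1-x) (y+1)`. -/

namespace Pool.Agent.FKR

open Finset
open Pool.Agent.H95.Wedge (openGraph W Good selfDual clusters)
open Pool.Agent.H95.Perc (Inc conn link rect hor ver eh ev sumE sepE Inci mem_rect)
open Pool.Agent.H95.SumRule (edgesIn Z2)

/-- face `(i, j)` to vertex `(-1-i, j+1)` -/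
def tauV : (ℤ × ℤ) ≃ (ℤ × ℤ) where
  toFun f := (-1 - f.1, f.2 + 1)
  invFun v := (-1 - v.1, v.2 - 1)
  left_inv f := by simp
  right_inv f := by simp

/-- image of the dual edge -/
def tau (e : Sym2 (ℤ × ℤ)) : Sym2 (ℤ × ℤ) := Sym2.map tauV (star e)

variable (L a T : ℤ)

/-- faces for the crossing of `S1` -/
noncomputable def Phi1 : Finset (ℤ × ℤ) := rect (-L) (-1) (-1) T
/-- faces for the crossing of `S2` -/
noncomputable def Phi2 : Finset (ℤ × ℤ) := rect (-a - 1) a (-1) (T - 1)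

/-- edges of `D`, `S1`, `S2` -/
noncomputable def ED : Finset (Sym2 (ℤ × ℤ)) := edgesIn (rect (-L) a 0 T)
noncomputable def ES1 : Finset (Sym2 (ℤ × ℤ)) := edgesIn (rect (-L) 0 0 T)
noncomputable def ES2 : Finset (Sym2 (ℤ × ℤ)) := edgesIn (rect (-a) a 0 T)

/-- the vertical edges below the part `x ≤ 0` of the bottom side of `S2` -/
noncomputable def feet : Finset (Sym2 (ℤ × ℤ)) := (Icc (-a) 0).image fun x => ev x (-1)

/-- region above the highest crossing of `S1` -/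
noncomputable def N1 (ω : Finset (Sym2 (ℤ × ℤ))) : Finset (ℤ × ℤ) :=
  Nx (Phi1 L T) (ω ∩ ES1 L T) (fun f => f.2 = T) (fun f => f.2 = -1)

/-- region to the right of the right-most crossing of `S2` with foot `≤ 0` -/
noncomputable def N2 (ω : Finset (Sym2 (ℤ × ℤ))) : Finset (ℤ × ℤ) :=
  Nx (Phi2 a T) (ω ∩ ES2 a T ∪ feet a) (fun f => f.1 = a) (fun f => f.1 = -a - 1)

/-- event: left-right crossing of `S1` -/
def A1 : Finset (Sym2 (ℤ × ℤ)) → Prop := hor (-L) 0 0 T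

/-- event: bottom-top crossing of `S2` starting at `(x, 0)`, `x ≤ 0` -/
def A2 : Finset (Sym2 (ℤ × ℤ)) → Prop :=
  link (rect (-a) a 0 T) (fun v => v.2 = 0 ∧ v.1 ≤ 0) (fun v => v.2 = T)

open Classical in
/-- the edges of `E` with a side in `n` -/
noncomputable def Xs (E : Finset (Sym2 (ℤ × ℤ))) (n : Finset (ℤ × ℤ)) : Finset (Sym2 (ℤ × ℤ)) :=
  E.filter (touch n)

variable (n1 n2 : Finset (ℤ × ℤ))

/-- explored edges, for the explored sets of faces `n1`, `n2` -/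
noncomputable def XX : Finset (Sym2 (ℤ × ℤ)) := Xs (ES1 L T) n1 ∪ Xs (ES2 a T) n2

/-- unexplored edges of `S2` -/
noncomputable def E0 : Finset (Sym2 (ℤ × ℤ)) := ES2 a T \ XX L a T n1 n2

/-- `{e ∈ E0 : τ e ∈ E0}` -/
noncomputable def Em : Finset (Sym2 (ℤ × ℤ)) :=
  (E0 L a T n1 n2).filter fun e => tau e ∈ E0 L a T n1 n2

/-- `{e ∈ E0 : τ⁻¹ e ∈ E0}` -/
noncomputable def Ec : Finset (Sym2 (ℤ × ℤ)) := (Em L a T n1 n2).image tau

/-- active edges of the comparison domain -/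
noncomputable def EG : Finset (Sym2 (ℤ × ℤ)) := Em L a T n1 n2 ∪ Ec L a T n1 n2

/-- What the topology of the exploration of `S1` gives, for a configuration `ω` and the explored set of
faces `n1 = N1 L T ω`; `C1` is the set of vertices of the highest crossing of `S1`. -/
structure KLF1 (ω : Finset (Sym2 (ℤ × ℤ))) (C1 : Finset (ℤ × ℤ)) : Prop where
  hL : 1 ≤ L
  hT : 1 ≤ T
  sub : n1 ⊆ Phi1 L T
  top : ∀ i, -L ≤ i → i ≤ -1 → (i, T) ∈ n1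
  bot : ∀ i, (i, -1) ∉ n1
  opn : ∀ f ∈ n1, ∀ g ∈ Phi1 L T, g ∉ n1 → Z2.Adj f g → sepE f g ∈ ω ∩ ES1 L T
  mem_C : ∀ v, v ∈ C1 ↔ v ∈ rect (-L) 0 0 T ∧ (∃ f ∈ n1, Inci f v) ∧
    ∃ g ∈ Phi1 L T, g ∉ n1 ∧ Inci g v
  conn : ∀ u ∈ C1, ∀ v ∈ C1, Cn (ω ∩ Xs (ES1 L T) n1) u v
  vt : ∀ u ∈ C1, u ∈ vts (ω ∩ Xs (ES1 L T) n1)
  walk : ∀ u ∈ C1, ∃ v ∈ C1, v.1 = -L ∧ ∃ p : Z2.Walk u v, ∀ z ∈ p.support, z ∈ C1
  ne : C1.Nonempty

/-- The same for the exploration of `S2`: `n2 = N2 a T ω`, `C2` is the set of vertices of the right-most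
crossing of `S2` with foot `≤ 0`. -/
structure KLF2 (ω : Finset (Sym2 (ℤ × ℤ))) (C2 : Finset (ℤ × ℤ)) : Prop where
  ha : 1 ≤ a
  hT : 1 ≤ T
  sub : n2 ⊆ Phi2 a T
  right : ∀ j, -1 ≤ j → j ≤ T - 1 → (a, j) ∈ n2
  left : ∀ j, (-a - 1, j) ∉ n2
  bot : ∃ xf, -a ≤ xf ∧ xf ≤ 0 ∧ ∀ i, -a - 1 ≤ i → i ≤ a → ((i, -1) ∈ n2 ↔ xf ≤ i)
  opn : ∀ f ∈ n2, ∀ g ∈ Phi2 a T, g ∉ n2 → Z2.Adj f g →
    sepE f g ∈ ω ∩ ES2 a T ∨ ∃ x, sepE f g = ev x (-1)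
  mem_C : ∀ v, v ∈ C2 ↔ v ∈ rect (-a) a 0 T ∧ (∃ f ∈ n2, Inci f v) ∧
    ∃ g ∈ Phi2 a T, g ∉ n2 ∧ Inci g v
  conn : ∀ u ∈ C2, ∀ v ∈ C2, Cn (ω ∩ Xs (ES2 a T) n2) u v
  vt : ∀ u ∈ C2, u ∈ vts (ω ∩ Xs (ES2 a T) n2)
  c_bot : ∃ v ∈ C2, v.2 = 0
  c_top : ∃ v ∈ C2, v.2 = T

end Pool.Agent.FKR
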