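import Pool.Agent.FKR.Topo

/-! # FKR/MinCut (MP_b3e76a_pr): a minimal cut between opposite sides is a simple crossing

`N` is a set of faces containing the top row `y1` and not the bottom row `y0 - 1` of
`Φ = rect x0 (x1-1) (y0-1) y1`; every face outside `N` is connected to the bottom row, and every face of
`N` which is adjacent to a face of `Φ \ N` is connected to the top row, in the face graph with the
edges of `bdN Φ N` blocked. Then the edges of `bdN Φ N` are exactly the edges of a simple left-right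
crossing.
Proof. Adjacent faces of `Φ` in different classes are separated by an edge of
`bdN Φ N ∩ edgesIn (rect x0 x1 y0 y1)` (two faces in the bottom row, or two in the top row, are in the
same class). So the bottom and top rows are not connected in `dG Φ (bdN Φ N ∩ edgesIn _)`, and by
`hor_iff` there is a crossing; take a walk and make it a path `p` (`SimpleGraph.Walk.toPath`, or
`bypass`). Suppose `e = sepE f g ∈ bdN Φ N` (`g ∈ N`, `f ∈ Φ \ N`) is not an edge of `p`. Let `κ` be the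
set of edges of `p`; `hor x0 x1 y0 y1 κ`. But bottom row → `f` (avoiding `bdN`), `f → g` (crossing `e ∉ κ`),
`g →` top row (avoiding `bdN ⊇ κ`) is a connection in `dG Φ (κ ∩ edgesIn _)`, contradicting `hor_iff`.
`minCut_ver` is the same statement with rows and columns exchanged (`N` contains the right
column); same proof with `ver_iff`. -/

namespace Pool.Agent.FKR

open Finset
open Pool.Agent.H95.Wedge (openGraph W Good selfDual clusters)
open Pool.Agent.H95.Perc (Inc conn link rect hor ver eh ev sumE sepE Inci mem_rect)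
open Pool.Agent.H95.SumRule (edgesIn Z2)

variable {x0 x1 y0 y1 : ℤ} {N : Finset (ℤ × ℤ)}

private lemma N_inv {Φ N : Finset (ℤ × ℤ)} {f g : ℤ × ℤ}
    (hr : (dG Φ (bdN Φ N)).Reachable f g) : f ∈ N ↔ g ∈ N := by
  obtain ⟨p⟩ := hr
  induction p with
  | nil => exact Iff.rfl
  | cons hadj p ih =>
    rename_i a b c
    rw [← ih]
    obtain ⟨ha, hb, hab, hn⟩ := dG_adj.mp hadj
    constructor
    · intro h
      by_contra hb2
      exact hn (mem_bdN.mpr ⟨a, b, h, hb, hb2, hab, rfl⟩)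
    · intro h
      by_contra ha2
      exact hn (mem_bdN.mpr ⟨b, a, h, ha, ha2, hab.symm, Pool.Agent.H95.Perc.sepE_comm hab⟩)

/-- a walk inside `V` gives a connection by its edges -/
private lemma conn_of_walk {V : Finset (ℤ × ℤ)} {u v : ℤ × ℤ} (p : Z2.Walk u v)
    (hp : ∀ z ∈ p.support, z ∈ V) {κ : Finset (Sym2 (ℤ × ℤ))} (hκ : ∀ e ∈ p.edges, e ∈ κ) :
    conn V κ u v := by
  induction p with
  | nil => exact Pool.Agent.H95.Perc.conn_refl _ _ _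
  | cons hadj p ih =>
    rename_i a b c
    have h1 : a ∈ V := hp a (by simp)
    have h2 : b ∈ V := hp b (by simp)
    exact (Pool.Agent.H95.Perc.conn_step h1 h2 hadj (hκ _ (by simp))).trans
      (ih (fun z hz => hp z (by simp [hz])) (fun e he => hκ e (by simp [he])))

theorem bdN_subset_hor (hx : x0 < x1) (hy : y0 ≤ y1) (hN : N ⊆ rect x0 (x1 - 1) (y0 - 1) y1)
    (htop : ∀ i, x0 ≤ i → i < x1 → (i, y1) ∈ N) (hbot : ∀ i, (i, y0 - 1) ∉ N) :
    bdN (rect x0 (x1 - 1) (y0 - 1) y1) N ⊆ edgesIn (rect x0 x1 y0 y1) := by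
  intro e he
  obtain ⟨⟨a1, a2⟩, ⟨b1, b2⟩, hf, hg, hgN, hadj, rfl⟩ := mem_bdN.mp he
  have hf' := hN hf
  rw [mem_rect] at hf' hg
  simp only at hf' hg
  have h0 := (Z2_adj_iff).mp hadj
  have hb : a2 ≠ y0 - 1 := by rintro rfl; exact hbot _ hf
  have ht : b2 ≠ y1 := by rintro rfl; exact hgN (htop _ hg.1 (by omega))
  unfold sepE
  simp only
  by_cases h1 : a1 = b1
  · rw [if_pos h1]
    have := @eh_mem_edgesIn_rect a1 (max a2 b2) x0 x1 y0 y1
    rw [show s((a1, max a2 b2), (a1 + 1, max a2 b2)) = eh a1 (max a2 b2) from rfl, this]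
    omega
  · rw [if_neg h1]
    have := @ev_mem_edgesIn_rect (max a1 b1) a2 x0 x1 y0 y1
    rw [show s((max a1 b1, a2), (max a1 b1, a2 + 1)) = ev (max a1 b1) a2 from rfl, this]
    omega

theorem minCut_hor (hx : x0 < x1) (hy : y0 ≤ y1) (hN : N ⊆ rect x0 (x1 - 1) (y0 - 1) y1)
    (htop : ∀ i, x0 ≤ i → i < x1 → (i, y1) ∈ N) (hbot : ∀ i, (i, y0 - 1) ∉ N)
    (hW : ∀ f ∈ rect x0 (x1 - 1) (y0 - 1) y1, f ∉ N → ∃ g ∈ rect x0 (x1 - 1) (y0 - 1) y1,
      g.2 = y0 - 1 ∧ (dG (rect x0 (x1 - 1) (y0 - 1) y1)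
        (bdN (rect x0 (x1 - 1) (y0 - 1) y1) N)).Reachable g f)
    (hT : ∀ f ∈ N, (∃ g ∈ rect x0 (x1 - 1) (y0 - 1) y1, g ∉ N ∧ Z2.Adj f g) →
      ∃ g ∈ rect x0 (x1 - 1) (y0 - 1) y1, g.2 = y1 ∧ (dG (rect x0 (x1 - 1) (y0 - 1) y1)
        (bdN (rect x0 (x1 - 1) (y0 - 1) y1) N)).Reachable g f) :
    ∃ (u v : ℤ × ℤ) (p : Z2.Walk u v), p.IsPath ∧ u.1 = x0 ∧ v.1 = x1 ∧
      (∀ z ∈ p.support, z ∈ rect x0 x1 y0 y1) ∧
      (∀ e, e ∈ p.edges ↔ e ∈ bdN (rect x0 (x1 - 1) (y0 - 1) y1) N) := by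
  have hsub := bdN_subset_hor hx hy hN htop hbot
  set Φ := rect x0 (x1 - 1) (y0 - 1) y1 with hΦ
  set R := rect x0 x1 y0 y1 with hR
  have hint : bdN Φ N ∩ edgesIn R = bdN Φ N := inter_eq_left.mpr hsub
  have hcross : hor x0 x1 y0 y1 (bdN Φ N) := by
    rw [hor_iff hx hy, ← hΦ, ← hR, hint]
    rintro ⟨f1, f2⟩ hf ⟨g1, g2⟩ hg hf2 hg2 hr
    simp only at hf2 hg2
    subst hf2 hg2
    have hg' := hg
    rw [hΦ, mem_rect] at hg'
    simp only at hg'
    exact hbot _ ((N_inv hr).mpr (htop _ hg'.1 (by omega)))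
  obtain ⟨a, b, ha, hb, ha1, hb1, hc⟩ := hcross
  obtain ⟨p0, p1, -, p3⟩ := hc.walk ha
  classical
  have hpath := p0.bypass_isPath
  set p := p0.bypass with hp
  have hps : ∀ z ∈ p.support, z ∈ R := fun z hz => p1 z (p0.support_bypass_subset hz)
  have hpe : ∀ e ∈ p.edges, e ∈ bdN Φ N := fun e he =>
    (mem_inter.mp (p3 e (p0.edges_bypass_subset he))).1
  refine ⟨a, b, p, hpath, ha1, hb1, hps, fun e => ⟨hpe e, fun he => ?_⟩⟩
  by_contra hne
  set κ : Finset (Sym2 (ℤ × ℤ)) := p.edges.toFinset with hκ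
  have hκsub : κ ⊆ bdN Φ N := fun e he => hpe e (List.mem_toFinset.mp he)
  have hκc : hor x0 x1 y0 y1 κ :=
    ⟨a, b, ha, hb, ha1, hb1, conn_of_walk p hps (fun e he => List.mem_toFinset.mpr he)⟩
  rw [hor_iff hx hy, ← hΦ, ← hR] at hκc
  obtain ⟨g, f, hg, hf, hfN, hadj, rfl⟩ := mem_bdN.mp he
  have hle : dG Φ (bdN Φ N) ≤ dG Φ (κ ∩ edgesIn R) :=
    dG_mono (Subset.refl _) (inter_subset_left.trans hκsub)
  obtain ⟨s, hs, hs2, hsr⟩ := hW f hf hfN
  obtain ⟨t, ht, ht2, htr⟩ := hT g hg ⟨f, hf, hfN, hadj⟩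
  apply hκc s hs t ht hs2 ht2
  refine (hsr.mono hle).trans (SimpleGraph.Reachable.trans ?_ (htr.mono hle).symm)
  apply SimpleGraph.Adj.reachable
  rw [dG_adj]
  refine ⟨hf, hN hg, hadj.symm, fun h => hne ?_⟩
  rw [Pool.Agent.H95.Perc.sepE_comm hadj]
  exact List.mem_toFinset.mp (mem_inter.mp h).1

theorem bdN_subset_ver (hx : x0 ≤ x1) (hy : y0 < y1) (hN : N ⊆ rect (x0 - 1) x1 y0 (y1 - 1))
    (hright : ∀ j, y0 ≤ j → j < y1 → (x1, j) ∈ N) (hleft : ∀ j, (x0 - 1, j) ∉ N) :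
    bdN (rect (x0 - 1) x1 y0 (y1 - 1)) N ⊆ edgesIn (rect x0 x1 y0 y1) := by
  intro e he
  obtain ⟨⟨a1, a2⟩, ⟨b1, b2⟩, hf, hg, hgN, hadj, rfl⟩ := mem_bdN.mp he
  have hf' := hN hf
  rw [mem_rect] at hf' hg
  simp only at hf' hg
  have h0 := (Z2_adj_iff).mp hadj
  have hb : a1 ≠ x0 - 1 := by rintro rfl; exact hleft _ hf
  have ht : b1 ≠ x1 := by rintro rfl; exact hgN (hright _ (by omega) (by omega))
  unfold sepE
  simp only
  by_cases h1 : a1 = b1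
  · rw [if_pos h1]
    have := @eh_mem_edgesIn_rect a1 (max a2 b2) x0 x1 y0 y1
    rw [show s((a1, max a2 b2), (a1 + 1, max a2 b2)) = eh a1 (max a2 b2) from rfl, this]
    omega
  · rw [if_neg h1]
    have := @ev_mem_edgesIn_rect (max a1 b1) a2 x0 x1 y0 y1
    rw [show s((max a1 b1, a2), (max a1 b1, a2 + 1)) = ev (max a1 b1) a2 from rfl, this]
    omega

theorem minCut_ver (hx : x0 ≤ x1) (hy : y0 < y1) (hN : N ⊆ rect (x0 - 1) x1 y0 (y1 - 1))
    (hright : ∀ j, y0 ≤ j → j < y1 → (x1, j) ∈ N) (hleft : ∀ j, (x0 - 1, j) ∉ N)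
    (hW : ∀ f ∈ rect (x0 - 1) x1 y0 (y1 - 1), f ∉ N → ∃ g ∈ rect (x0 - 1) x1 y0 (y1 - 1),
      g.1 = x0 - 1 ∧ (dG (rect (x0 - 1) x1 y0 (y1 - 1))
        (bdN (rect (x0 - 1) x1 y0 (y1 - 1)) N)).Reachable g f)
    (hT : ∀ f ∈ N, (∃ g ∈ rect (x0 - 1) x1 y0 (y1 - 1), g ∉ N ∧ Z2.Adj f g) →
      ∃ g ∈ rect (x0 - 1) x1 y0 (y1 - 1), g.1 = x1 ∧ (dG (rect (x0 - 1) x1 y0 (y1 - 1))
        (bdN (rect (x0 - 1) x1 y0 (y1 - 1)) N)).Reachable g f) :
    ∃ (u v : ℤ × ℤ) (p : Z2.Walk u v), p.IsPath ∧ u.2 = y0 ∧ v.2 = y1 ∧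
      (∀ z ∈ p.support, z ∈ rect x0 x1 y0 y1) ∧
      (∀ e, e ∈ p.edges ↔ e ∈ bdN (rect (x0 - 1) x1 y0 (y1 - 1)) N) := by
  have hsub := bdN_subset_ver hx hy hN hright hleft
  set Φ := rect (x0 - 1) x1 y0 (y1 - 1) with hΦ
  set R := rect x0 x1 y0 y1 with hR
  have hint : bdN Φ N ∩ edgesIn R = bdN Φ N := inter_eq_left.mpr hsub
  have hcross : ver x0 x1 y0 y1 (bdN Φ N) := by
    rw [ver_iff hx hy, ← hΦ, ← hR, hint]
    rintro ⟨f1, f2⟩ hf ⟨g1, g2⟩ hg hf2 hg2 hr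
    simp only at hf2 hg2
    subst hf2 hg2
    have hg' := hg
    rw [hΦ, mem_rect] at hg'
    simp only at hg'
    exact hleft _ ((N_inv hr).mpr (hright _ (by omega) (by omega)))
  obtain ⟨a, b, ha, hb, ha1, hb1, hc⟩ := hcross
  obtain ⟨p0, p1, -, p3⟩ := hc.walk ha
  classical
  have hpath := p0.bypass_isPath
  set p := p0.bypass with hp
  have hps : ∀ z ∈ p.support, z ∈ R := fun z hz => p1 z (p0.support_bypass_subset hz)
  have hpe : ∀ e ∈ p.edges, e ∈ bdN Φ N := fun e he =>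
    (mem_inter.mp (p3 e (p0.edges_bypass_subset he))).1
  refine ⟨a, b, p, hpath, ha1, hb1, hps, fun e => ⟨hpe e, fun he => ?_⟩⟩
  by_contra hne
  set κ : Finset (Sym2 (ℤ × ℤ)) := p.edges.toFinset with hκ
  have hκsub : κ ⊆ bdN Φ N := fun e he => hpe e (List.mem_toFinset.mp he)
  have hκc : ver x0 x1 y0 y1 κ :=
    ⟨a, b, ha, hb, ha1, hb1, conn_of_walk p hps (fun e he => List.mem_toFinset.mpr he)⟩
  rw [ver_iff hx hy, ← hΦ, ← hR] at hκc
  obtain ⟨g, f, hg, hf, hfN, hadj, rfl⟩ := mem_bdN.mp he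
  have hle : dG Φ (bdN Φ N) ≤ dG Φ (κ ∩ edgesIn R) :=
    dG_mono (Subset.refl _) (inter_subset_left.trans hκsub)
  obtain ⟨s, hs, hs2, hsr⟩ := hW f hf hfN
  obtain ⟨t, ht, ht2, htr⟩ := hT g hg ⟨f, hf, hfN, hadj⟩
  apply hκc s hs t ht hs2 ht2
  refine (hsr.mono hle).trans (SimpleGraph.Reachable.trans ?_ (htr.mono hle).symm)
  apply SimpleGraph.Adj.reachable
  rw [dG_adj]
  refine ⟨hf, hN hg, hadj.symm, fun h => hne ?_⟩
  rw [Pool.Agent.H95.Perc.sepE_comm hadj]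
  exact List.mem_toFinset.mp (mem_inter.mp h).1

end Pool.Agent.FKR
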