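import Pool.Agent.FKR.KLDefs
import Pool.Agent.FKR.MinCut
import Pool.Agent.FKR.Expl

/-! # FKR/KLExp1 (MP_b3e76a_pr): the highest crossing of `S1`

`n1 = N1 L T ω = Nx (Phi1 L T) (ω ∩ ES1 L T) (top row) (bottom row)`.
`A1_iff`: by `hor_iff` (`x0 = -L, x1 = 0, y0 = 0, y1 = T`), `A1` holds iff no face of the bottom row is in
`Ucl`. `klexp1`: `sub, top, bot` from `Nx_subset`, `Nx_seed`, `Nx_other` (`bot` for `i` outside
`[-L, -1]` from `sub`); `opn` from `Nx_bdry`; `minCut_hor` (hypotheses: `Nx_conn'`, `Nx_conn`) gives a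
simple path `p` in `S1` from column `-L` to column `0` whose edges are exactly those of
`bdN (Phi1 L T) n1`; let `C1` be its set of vertices (`p` has at least one edge as `-L < 0`).
`mem_C`: if `v ∈ p.support`, it is an end of an edge `sepE f g` of `p`, `f ∈ n1`, `g ∈ Phi1 \ n1`, and
`Inci f v`, `Inci g v`. Conversely if `v ∈ S1` is incident to `f ∈ n1` and `g ∈ Phi1 \ n1`: among the
faces of `Phi1` around `v` (all four if `-L < x < 0`, the two right ones if `x = -L`, the two left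
ones if `x = 0`; note that `Phi1` contains the rows `-1` and `T`), which are consecutive around `v`,
two consecutive ones `f', g'` are in different classes; the edge between them is an edge of
`bdN` and has `v` as an end (`bdN_subset_hor` etc. not needed: it is in `bdN`, hence an edge of `p`).
`conn`, `vt`, `walk`: along `p` (edges of `bdN` are in `ω ∩ ES1` by `opn`, and touch `n1`).
`kl_stop1`: `Nx_stop`: if `ω'` agrees with `ω` on `Xs (ES1 L T) (N1 L T ω)` then for `f ∈ N1`, `g ∈ Phi1`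
adjacent, `sepE f g` is in `ES1` and explored, or not in `ES1` (moves within the bottom or top row),
so its membership in `ω ∩ ES1` and `ω' ∩ ES1` agrees. -/

namespace Pool.Agent.FKR

open Finset
open Pool.Agent.H95.Wedge (openGraph W Good selfDual clusters)
open Pool.Agent.H95.Perc (Inc conn link rect hor ver eh ev sumE sepE Inci mem_rect)
open Pool.Agent.H95.SumRule (edgesIn Z2)

variable {L T : ℤ} {ω ω' : Finset (Sym2 (ℤ × ℤ))}

private lemma mem_Xs_iff1 {E : Finset (Sym2 (ℤ × ℤ))} {n : Finset (ℤ × ℤ)} {e : Sym2 (ℤ × ℤ)} :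
    e ∈ Xs E n ↔ e ∈ E ∧ touch n e := by
  classical
  unfold Xs
  rw [mem_filter]

private lemma sepE_inci1 {f g v : ℤ × ℤ} (hadj : Z2.Adj f g) (hv : v ∈ sepE f g) : Inci f v := by
  obtain ⟨a, b⟩ := f
  obtain ⟨c, d⟩ := g
  rw [Z2_adj_iff] at hadj
  unfold sepE at hv
  simp only at hv
  by_cases h1 : a = c
  · subst h1
    rw [if_pos rfl, Sym2.mem_iff] at hv
    rcases hv with rfl | rfl <;> simp only [Inci] <;> omega
  · rw [if_neg h1, Sym2.mem_iff] at hv
    rcases hv with rfl | rfl <;> simp only [Inci] <;> omega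

/-- a vertex incident to two adjacent faces is an end of the edge between them -/
lemma mem_sepE_of_inci {f g v : ℤ × ℤ} (hadj : Z2.Adj f g) (hf : Inci f v) (hg : Inci g v) :
    v ∈ sepE f g := by
  obtain ⟨a, b⟩ := f
  obtain ⟨c, d⟩ := g
  obtain ⟨x, y⟩ := v
  simp only [Inci] at hf hg
  rw [Z2_adj_iff] at hadj
  unfold sepE
  simp only
  by_cases h1 : a = c
  · subst h1
    rw [if_pos rfl, Sym2.mem_iff, Prod.mk.injEq, Prod.mk.injEq]
    have : y = max b d := by
      rcases hadj with ⟨_, h | h⟩ | ⟨h, h' | h'⟩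
      · rw [max_eq_left (by omega)]; omega
      · rw [max_eq_right (by omega)]; omega
      · omega
      · omega
    omega
  · rw [if_neg h1, Sym2.mem_iff, Prod.mk.injEq, Prod.mk.injEq]
    have : x = max a c := by
      rcases hadj with ⟨h, _⟩ | ⟨h, h' | h'⟩
      · exact absurd h h1
      · rw [max_eq_left (by omega)]; omega
      · rw [max_eq_right (by omega)]; omega
    have : b = d := by
      rcases hadj with ⟨h, _⟩ | ⟨h, _⟩
      · exact absurd h h1
      · exact h
    omega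

/-- around a vertex, if both classes of faces of a rectangle of faces occur, then there is a boundary
edge at this vertex -/
lemma adj_around {x0 x1 y0 y1 : ℤ} {N : Finset (ℤ × ℤ)} {v f g : ℤ × ℤ} (hf : f ∈ N)
    (hfΦ : f ∈ rect x0 x1 y0 y1) (hg : g ∈ rect x0 x1 y0 y1) (hg' : g ∉ N) (hfv : Inci f v)
    (hgv : Inci g v) : ∃ f' g', f' ∈ N ∧ f' ∈ rect x0 x1 y0 y1 ∧ g' ∈ rect x0 x1 y0 y1 ∧ g' ∉ N ∧
      Z2.Adj f' g' ∧ v ∈ sepE f' g' := by
  obtain ⟨a, b⟩ := f
  obtain ⟨c, d⟩ := g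
  obtain ⟨x, y⟩ := v
  have hne : ¬ (a = c ∧ b = d) := by
    rintro ⟨rfl, rfl⟩
    exact hg' hf
  by_cases h1 : a = c
  · have hadj : Z2.Adj (a, b) (c, d) := by
      rw [Z2_adj_iff]
      simp only [Inci] at hfv hgv
      left
      refine ⟨h1, ?_⟩
      omega
    exact ⟨_, _, hf, hfΦ, hg, hg', hadj, mem_sepE_of_inci hadj hfv hgv⟩
  · by_cases h2 : b = d
    · have hadj : Z2.Adj (a, b) (c, d) := by
        rw [Z2_adj_iff]
        simp only [Inci] at hfv hgv
        right
        refine ⟨h2, ?_⟩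
        omega
      exact ⟨_, _, hf, hfΦ, hg, hg', hadj, mem_sepE_of_inci hadj hfv hgv⟩
    · have hhv : Inci (a, d) (x, y) := by
        simp only [Inci] at hfv hgv ⊢
        omega
      have hhΦ : (a, d) ∈ rect x0 x1 y0 y1 := by
        rw [mem_rect] at hfΦ hg ⊢
        simp only at hfΦ hg ⊢
        omega
      have hadj1 : Z2.Adj (a, b) (a, d) := by
        rw [Z2_adj_iff]
        simp only [Inci] at hfv hgv
        left
        refine ⟨rfl, ?_⟩
        omega
      have hadj2 : Z2.Adj (a, d) (c, d) := by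
        rw [Z2_adj_iff]
        simp only [Inci] at hfv hgv
        right
        refine ⟨rfl, ?_⟩
        omega
      by_cases hh : (a, d) ∈ N
      · exact ⟨_, _, hh, hhΦ, hg, hg', hadj2, mem_sepE_of_inci hadj2 hhv hgv⟩
      · exact ⟨_, _, hf, hfΦ, hhΦ, hh, hadj1, mem_sepE_of_inci hadj1 hfv hhv⟩

/-- the vertices of a walk with edges in `κ` are connected in `κ` -/
lemma cn_of_walk {κ : Finset (Sym2 (ℤ × ℤ))} {a b : ℤ × ℤ} (p : Z2.Walk a b)
    (h : ∀ e ∈ p.edges, e ∈ κ) : ∀ u ∈ p.support, Cn κ a u := by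
  induction p with
  | nil =>
    intro u hu
    rw [SimpleGraph.Walk.support_nil, List.mem_singleton] at hu
    subst hu
    exact Cn_refl _ _
  | cons hadj p ih =>
    intro u hu
    rw [SimpleGraph.Walk.support_cons, List.mem_cons] at hu
    rcases hu with rfl | hu
    · exact Cn_refl _ _
    · refine Cn.trans (Cn_edge (h _ ?_)) (ih (fun e he => h e ?_) u hu)
      · rw [SimpleGraph.Walk.edges_cons]
        exact List.mem_cons_self
      · rw [SimpleGraph.Walk.edges_cons]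
        exact List.mem_cons_of_mem _ he

theorem A1_iff (hL : 1 ≤ L) (hT : 1 ≤ T) : A1 L T ω ↔
    ∀ f ∈ Phi1 L T, f.2 = -1 → f ∉ Ucl (Phi1 L T) (ω ∩ ES1 L T) (fun f => f.2 = T) := by
  have hh := hor_iff (κ := ω) (x0 := -L) (x1 := 0) (y0 := 0) (y1 := T) (by omega) (by omega)
  unfold A1
  rw [hh]
  constructor
  · intro h f hf hf1 hU
    rw [mem_Ucl] at hU
    obtain ⟨_, g, hg, hgT, hr⟩ := hU
    exact h f hf g hg hf1 hgT hr.symm
  · intro h f hf g hg hf1 hgT hr
    refine h f hf hf1 ?_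
    rw [mem_Ucl]
    exact ⟨hf, g, hg, hgT, hr.symm⟩

theorem klexp1 (hL : 1 ≤ L) (hT : 1 ≤ T) (h : A1 L T ω) : ∃ C1, KLF1 L T (N1 L T ω) ω C1 := by
  have hbot : ∀ i, (i, (-1 : ℤ)) ∉ N1 L T ω := by
    intro i hi
    have hΦ : (i, (-1 : ℤ)) ∈ Phi1 L T := Nx_subset hi
    exact Nx_other (S' := fun f => f.2 = -1) hΦ rfl ((A1_iff hL hT).mp h _ hΦ rfl) hi
  have htop : ∀ i, -L ≤ i → i ≤ -1 → (i, T) ∈ N1 L T ω := by
    intro i h1 h2
    have hΦ : (i, T) ∈ Phi1 L T := by
      unfold Phi1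
      rw [mem_rect]
      simp only
      omega
    exact Nx_seed (S := fun f => f.2 = T) hΦ rfl
  have hsub : N1 L T ω ⊆ Phi1 L T := Nx_subset
  have hopn : ∀ f ∈ N1 L T ω, ∀ g ∈ Phi1 L T, g ∉ N1 L T ω → Z2.Adj f g →
      sepE f g ∈ ω ∩ ES1 L T := fun f hf g hg hg' hadj => (Nx_bdry hf hg hg' hadj).2.2
  obtain ⟨a, b, p, -, ha, hb, hsup, hed⟩ := minCut_hor (x0 := -L) (x1 := 0) (y0 := 0) (y1 := T)
    (N := N1 L T ω) (by omega) (by omega) hsub (fun i h1 h2 => htop i h1 (by omega)) hbot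
    (fun f hf hf' => by
      obtain ⟨g, hg, hS, _, hr⟩ := Nx_conn' (S' := fun f => f.2 = -1) hf hf'
      exact ⟨g, hg, hS, hr⟩)
    (fun f hf hf' => by
      obtain ⟨g, hg, hg', hadj⟩ := hf'
      obtain ⟨f', hf', hS, hr⟩ := Nx_conn (S := fun f => f.2 = T) hf hg hg' hadj
      exact ⟨f', hf', hS, hr⟩)
  have hed' : ∀ e, e ∈ p.edges ↔ e ∈ bdN (Phi1 L T) (N1 L T ω) := hed
  clear hed
  -- boundary edges are open, explored
  have hbd : bdN (Phi1 L T) (N1 L T ω) ⊆ ω ∩ Xs (ES1 L T) (N1 L T ω) := by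
    intro e he
    rw [mem_bdN] at he
    obtain ⟨f, g, hf, hg, hg', hadj, rfl⟩ := he
    have h1 := hopn f hf g hg hg' hadj
    rw [mem_inter] at h1 ⊢
    refine ⟨h1.1, ?_⟩
    rw [mem_Xs_iff1]
    refine ⟨h1.2, f, hf, ?_⟩
    rw [star_sepE hadj]
    exact Sym2.mem_mk_left _ _
  have hcn : ∀ u ∈ p.support, Cn (bdN (Phi1 L T) (N1 L T ω)) a u :=
    cn_of_walk p (fun e he => (hed' e).mp he)
  have hab : a ≠ b := by
    rintro rfl
    omega
  have hvt : ∀ u ∈ p.support, u ∈ vts (bdN (Phi1 L T) (N1 L T ω)) := by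
    intro u hu
    by_cases hua : u = a
    · subst hua
      exact ((hcn b p.end_mem_support).mem_vts hab).1
    · exact ((hcn u hu).mem_vts (Ne.symm hua)).2
  refine ⟨p.support.toFinset, ⟨hL, hT, hsub, htop, hbot, hopn, ?_, ?_, ?_, ?_, ?_⟩⟩
  · intro v
    rw [List.mem_toFinset]
    constructor
    · intro hv
      refine ⟨hsup v hv, ?_⟩
      obtain ⟨e, he, hve⟩ := mem_vts.mp (hvt v hv)
      rw [mem_bdN] at he
      obtain ⟨f, g, hf, hg, hg', hadj, rfl⟩ := he
      refine ⟨⟨f, hf, sepE_inci1 hadj hve⟩, g, hg, hg', ?_⟩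
      rw [Pool.Agent.H95.Perc.sepE_comm hadj] at hve
      exact sepE_inci1 hadj.symm hve
    · rintro ⟨_, ⟨f, hf, hfv⟩, g, hg, hg', hgv⟩
      obtain ⟨f', g', hf', hfΦ', hgΦ', hgn', hadj, hve⟩ := adj_around hf (hsub hf) hg hg' hfv hgv
      have he : sepE f' g' ∈ p.edges := by
        rw [hed', mem_bdN]
        exact ⟨f', g', hf', hgΦ', hgn', hadj, rfl⟩
      exact p.mem_support_of_mem_edges he hve
  · intro u hu v hv
    rw [List.mem_toFinset] at hu hv
    exact ((hcn u hu).symm.trans (hcn v hv)).mono hbd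
  · intro u hu
    rw [List.mem_toFinset] at hu
    exact vts_mono hbd (hvt u hu)
  · intro u hu
    rw [List.mem_toFinset] at hu
    refine ⟨a, by rw [List.mem_toFinset]; exact p.start_mem_support, ha,
      (p.takeUntil u hu).reverse, ?_⟩
    intro z hz
    rw [SimpleGraph.Walk.support_reverse, List.mem_reverse] at hz
    rw [List.mem_toFinset]
    exact p.support_takeUntil_subset_support hu hz
  · exact ⟨a, by rw [List.mem_toFinset]; exact p.start_mem_support⟩

theorem kl_stop1 (hL : 1 ≤ L) (hT : 1 ≤ T) (h : A1 L T ω)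
    (h' : ω' ∩ Xs (ES1 L T) (N1 L T ω) = ω ∩ Xs (ES1 L T) (N1 L T ω)) :
    A1 L T ω' ∧ N1 L T ω' = N1 L T ω := by
  have hs := Nx_stop (Φ := Phi1 L T) (κ := ω ∩ ES1 L T) (κ' := ω' ∩ ES1 L T)
    (S := fun f => f.2 = T) (S' := fun f => f.2 = -1) (by
      intro f hf g hg hadj
      rw [mem_inter, mem_inter]
      constructor
      · rintro ⟨h1, h2⟩
        have hX : sepE f g ∈ Xs (ES1 L T) (N1 L T ω) := by
          rw [mem_Xs_iff1]
          refine ⟨h2, f, hf, ?_⟩
          rw [star_sepE hadj]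
          exact Sym2.mem_mk_left _ _
        have : sepE f g ∈ ω' ∩ Xs (ES1 L T) (N1 L T ω) := by
          rw [h', mem_inter]
          exact ⟨h1, hX⟩
        rw [mem_inter] at this
        exact ⟨this.1, h2⟩
      · rintro ⟨h1, h2⟩
        have hX : sepE f g ∈ Xs (ES1 L T) (N1 L T ω) := by
          rw [mem_Xs_iff1]
          refine ⟨h2, f, hf, ?_⟩
          rw [star_sepE hadj]
          exact Sym2.mem_mk_left _ _
        have : sepE f g ∈ ω ∩ Xs (ES1 L T) (N1 L T ω) := by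
          rw [← h', mem_inter]
          exact ⟨h1, hX⟩
        rw [mem_inter] at this
        exact ⟨this.1, h2⟩)
  refine ⟨?_, hs.2⟩
  rw [A1_iff hL hT] at h ⊢
  rw [hs.1]
  exact h

end Pool.Agent.FKR
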