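import Pool.Agent.FKR.KLDefs
import Pool.Agent.FKR.MinCut
import Pool.Agent.FKR.Expl

/-! # FKR/KLExp2 (MP_b3e76a_pr): the right-most crossing of `S2` with foot `≤ 0`

`n2 = N2 a T ω = Nx (Phi2 a T) (ω ∩ ES2 a T ∪ feet a) (right column) (left column)`.
Let `κ = ω ∩ ES2 a T ∪ feet a ⊆ edgesIn (rect (-a) a (-1) T)`.
`A2_iff`: `A2 ω ↔ ver (-a) a (-1) T κ` (a crossing of `rect (-a) a (-1) T` by `κ`, cut at its last visit to
the row `-1`, continues by an edge `ev x (-1) ∈ feet`, `x ≤ 0`, and then stays in `ω ∩ ES2`;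
conversely add the edge `ev x (-1)`), and by `ver_iff` this holds iff no face of the left column
is in `Ucl`.
`klexp2`: `sub, right, left` from `Nx_subset`, `Nx_seed`, `Nx_other`; `opn` from `Nx_bdry`; `minCut_ver`
(`x0 = -a, x1 = a, y0 = -1, y1 = T`; hypotheses: `Nx_conn'`, `Nx_conn`) gives a simple path `p` from the
row `-1` to the row `T` whose edges are exactly those of `bdN (Phi2 a T) n2 ⊆ κ`. All edges of `κ` at
a vertex of the row `-1` are vertical edges `ev x (-1)`, so, `p` being simple, only the first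
vertex `(xf, -1)` of `p` is in the row `-1`, `ev xf (-1)` is the only edge of `bdN` of the form
`ev x (-1)`, and `-a ≤ xf ≤ 0` as it is in `feet`. So along the row `-1` of `Phi2`, from `(a, -1) ∈ n2` to
`(-a-1, -1) ∉ n2`, the class changes exactly between `(xf - 1, -1)` and `(xf, -1)`: `bot`.
Let `C2` be the set of vertices of `p` other than `(xf, -1)`; the rest of `p` goes from `(xf, 0)`
(`c_bot`) to the row `T` (`c_top`) by edges of `ω ∩ ES2` touching `n2` (`conn`).
`mem_C`: as in `KLExp1`: the faces of `Phi2` around a vertex `v` of `S2` (all four if `y < T`, the two lower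
ones if `y = T`) are consecutive around `v`.
`kl_stop2`: `Nx_stop`, as in `KLExp1`; `feet` does not depend on `ω`. -/

namespace Pool.Agent.FKR

open Finset
open Pool.Agent.H95.Wedge (openGraph W Good selfDual clusters)
open Pool.Agent.H95.Perc (Inc conn link rect hor ver eh ev sumE sepE Inci mem_rect)
open Pool.Agent.H95.SumRule (edgesIn Z2)

variable {a T : ℤ} {ω ω' : Finset (Sym2 (ℤ × ℤ))}

namespace KE2

theorem mem_feet {e : Sym2 (ℤ × ℤ)} : e ∈ feet a ↔ ∃ x, -a ≤ x ∧ x ≤ 0 ∧ e = ev x (-1) := by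
  unfold feet
  rw [mem_image]
  constructor
  · rintro ⟨x, hx, rfl⟩
    rw [mem_Icc] at hx
    exact ⟨x, hx.1, hx.2, rfl⟩
  · rintro ⟨x, h1, h2, rfl⟩
    exact ⟨x, mem_Icc.2 ⟨h1, h2⟩, rfl⟩

theorem feet_not_ES2 {x : ℤ} (T : ℤ) : ev x (-1) ∉ ES2 a T := by
  intro h
  unfold ES2 at h
  rw [ev_mem_edgesIn_rect] at h
  omega

theorem feet_sub (hT : 1 ≤ T) (ha : 1 ≤ a) : feet a ⊆ edgesIn (rect (-a) a (-1) T) := by
  intro e he
  obtain ⟨x, h1, h2, rfl⟩ := mem_feet.1 he
  rw [ev_mem_edgesIn_rect]
  omega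

theorem ES2_sub : ES2 a T ⊆ edgesIn (rect (-a) a (-1) T) :=
  Pool.Agent.H95.Perc.edgesIn_mono
    (Pool.Agent.H95.Perc.rect_mono le_rfl le_rfl (by norm_num) le_rfl)

theorem kap_sub (ha : 1 ≤ a) (hT : 1 ≤ T) :
    ω ∩ ES2 a T ∪ feet a ⊆ edgesIn (rect (-a) a (-1) T) := by
  apply union_subset
  · exact inter_subset_right.trans ES2_sub
  · exact feet_sub hT ha

/-- edges of `κ` at a vertex of the row `-1` -/
theorem foot_edge {κ : Finset (Sym2 (ℤ × ℤ))} (hκ : κ ⊆ ES2 a T ∪ feet a) {u v : ℤ × ℤ}
    (h : s(u, v) ∈ κ) (hu : u.2 = -1) : -a ≤ u.1 ∧ u.1 ≤ 0 ∧ v = (u.1, 0) ∧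
      s(u, v) = ev u.1 (-1) := by
  have h1 := hκ h
  rw [mem_union] at h1
  rcases h1 with h1 | h1
  · exfalso
    unfold ES2 at h1
    rw [Pool.Agent.H95.Perc.mem_edgesIn', mem_rect] at h1
    omega
  · obtain ⟨x, hx1, hx2, hx3⟩ := mem_feet.1 h1
    rw [hx3]
    unfold ev at hx3
    rw [Sym2.eq_iff] at hx3
    rcases hx3 with ⟨h3, h4⟩ | ⟨h3, h4⟩
    · subst h3 h4
      exact ⟨hx1, hx2, by simp, rfl⟩
    · subst h3
      simp at hu

/-- a path with edges in `κ` whose ends are not in the row `-1` avoids this row -/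
theorem path_up {κ : Finset (Sym2 (ℤ × ℤ))} (hκ : κ ⊆ ES2 a T ∪ feet a) {s t : ℤ × ℤ}
    (p : Z2.Walk s t) (hp : p.IsPath) (he : ∀ e ∈ p.edges, e ∈ κ) (hs : 0 ≤ s.2) (ht : 0 ≤ t.2) :
    ∀ z ∈ p.support, 0 ≤ z.2 := by
  induction p with
  | nil => intro z hz; simp at hz; subst hz; exact hs
  | cons hadj p ih =>
    rename_i u v w
    have huv : s(u, v) ∈ κ := he _ (by simp)
    by_cases hv : 0 ≤ v.2
    · intro z hz
      rw [SimpleGraph.Walk.support_cons, List.mem_cons] at hz
      rcases hz with rfl | hz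
      · exact hs
      · exact ih hp.of_cons (fun e h => he e (by simp [h])) hv ht z hz
    · exfalso
      have hv' : v.2 = -1 := by
        have := hκ huv
        rw [mem_union] at this
        rcases this with h | h
        · unfold ES2 at h
          rw [Pool.Agent.H95.Perc.mem_edgesIn', mem_rect, mem_rect] at h
          omega
        · obtain ⟨x, hx1, hx2, hx3⟩ := mem_feet.1 h
          have : v ∈ ev x (-1) := by rw [← hx3]; simp
          rw [mem_ev] at this
          rcases this with rfl | rfl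
          · rfl
          · simp at hv
      have h1 := foot_edge hκ (by rw [Sym2.eq_swap]; exact huv) hv'
      cases p with
      | nil => exact hv ht
      | cons hadj2 p2 =>
        rename_i v2
        have h2 : s(v, v2) ∈ κ := he _ (by simp)
        have h3 := foot_edge hκ h2 hv'
        have h4 : u = v2 := by rw [h1.2.2.1, h3.2.2.1]
        rw [SimpleGraph.Walk.cons_isPath_iff] at hp
        apply hp.2
        rw [SimpleGraph.Walk.support_cons, h4]
        exact List.mem_cons_of_mem _ (SimpleGraph.Walk.start_mem_support _)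

theorem Cn_walk {κ : Finset (Sym2 (ℤ × ℤ))} {s t : ℤ × ℤ} (p : Z2.Walk s t)
    (he : ∀ e ∈ p.edges, e ∈ κ) : ∀ z ∈ p.support, Cn κ s z := by
  induction p with
  | nil => intro z hz; simp at hz; subst hz; exact Cn_refl _ _
  | cons hadj p ih =>
    rename_i u v w
    intro z hz
    rw [SimpleGraph.Walk.support_cons, List.mem_cons] at hz
    rcases hz with rfl | hz
    · exact Cn_refl _ _
    · exact Cn.trans (Cn_edge (he _ (by simp))) (ih (fun e h => he e (by simp [h])) z hz)

/-- every vertex of a walk with different ends is on an edge of the walk -/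
theorem mem_edge_of_support {s t : ℤ × ℤ} (p : Z2.Walk s t) (hst : s ≠ t) :
    ∀ z ∈ p.support, ∃ e ∈ p.edges, z ∈ e := by
  induction p with
  | nil => exact absurd rfl hst
  | cons hadj p ih =>
    rename_i u v w
    intro z hz
    rw [SimpleGraph.Walk.support_cons, List.mem_cons] at hz
    rcases hz with rfl | hz
    · exact ⟨s(z, v), by simp, by simp⟩
    · by_cases hvw : v = w
      · subst hvw
        by_cases hzv : z = v
        · subst hzv
          exact ⟨s(u, z), by simp, by simp⟩
        · cases p with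
          | nil => simp at hz; exact absurd hz hzv
          | cons h2 p2 =>
            rename_i v2
            -- a closed walk; still fine: use the edges of the walk
            have : ∀ {x y : ℤ × ℤ} (r : Z2.Walk x y), z ∈ r.support → z ≠ x → ∃ e ∈ r.edges, z ∈ e := by
              intro x y r
              induction r with
              | nil => intro h1 h2; simp at h1; exact absurd h1 h2
              | cons h r ihr =>
                rename_i x1 y1 z1
                intro h1 h2
                rw [SimpleGraph.Walk.support_cons, List.mem_cons] at h1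
                rcases h1 with h1 | h1
                · exact absurd h1 h2
                · by_cases hz1 : z = y1
                  · subst hz1
                    exact ⟨s(x1, z), by simp, by simp⟩
                  · obtain ⟨e, h3, h4⟩ := ihr h1 hz1
                    exact ⟨e, by simp [h3], h4⟩
            obtain ⟨e, h3, h4⟩ := this _ hz hzv
            exact ⟨e, by
              rw [SimpleGraph.Walk.edges_cons]
              exact List.mem_cons_of_mem _ h3, h4⟩
      · obtain ⟨e, h1, h2⟩ := ih hvw z hz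
        exact ⟨e, by simp [h1], h2⟩

end KE2

open KE2

theorem A2_iff_ver (ha : 1 ≤ a) (hT : 1 ≤ T) :
    A2 a T ω ↔ ver (-a) a (-1) T (ω ∩ ES2 a T ∪ feet a) := by
  constructor
  · rintro ⟨u, v, hu, hv, ⟨hu1, hu2⟩, hv1, hc⟩
    rw [mem_rect] at hu hv
    refine ⟨(u.1, -1), v, ?_, ?_, rfl, hv1, ?_⟩
    · rw [mem_rect]; simp only; omega
    · rw [mem_rect]; omega
    · have h1 : conn (rect (-a) a (-1) T) (ω ∩ ES2 a T ∪ feet a) (u.1, -1) u := by
        apply Pool.Agent.H95.Perc.conn_step
        · rw [mem_rect]; simp only; omega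
        · rw [mem_rect]; omega
        · obtain ⟨x, y⟩ := u
          change Z2.Adj (x, -1) (x, y)
          change y = 0 at hu1
          rw [Z2_adj_iff]; omega
        · rw [mem_union]
          right
          rw [mem_feet]
          refine ⟨u.1, by omega, hu2, ?_⟩
          unfold ev
          congr 1
          · obtain ⟨x, y⟩ := u
            simp only at hu1 ⊢
            subst hu1
            rfl
      refine h1.trans ?_
      have h2 : conn (rect (-a) a 0 T) (ω ∩ ES2 a T ∪ feet a) u v := by
        have := (Pool.Agent.H95.Perc.dep_conn (rect (-a) a 0 T) u v ω).1 hc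
        exact Pool.Agent.H95.Perc.conn.mono this (Subset.refl _) subset_union_left
      exact Pool.Agent.H95.Perc.conn.mono h2
        (Pool.Agent.H95.Perc.rect_mono le_rfl le_rfl (by norm_num) le_rfl) (Subset.refl _)
  · rintro ⟨u, v, hu, hv, hu1, hv1, hc⟩
    have hvr : v ∈ rect (-a) a 0 T := by rw [mem_rect] at hv ⊢; omega
    have hur : u ∉ rect (-a) a 0 T := by rw [mem_rect]; omega
    obtain ⟨z, w, hz, hz', hw, hw', hadj, hzw, hc'⟩ :=
      Pool.Agent.H95.Perc.conn.exit hc.symm hv hvr hur
    have hw2 : w.2 = -1 := by rw [mem_rect] at hw hw'; omega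
    have h1 := foot_edge (κ := ω ∩ ES2 a T ∪ feet a) (T := T)
      (union_subset_union inter_subset_right (Subset.refl _)) (by rw [Sym2.eq_swap]; exact hzw) hw2
    refine ⟨z, v, hz', hvr, ⟨by rw [h1.2.2.1], by rw [h1.2.2.1]; exact h1.2.1⟩, hv1, ?_⟩
    have h2 := hc'.symm
    unfold conn at h2 ⊢
    refine SimpleGraph.Reachable.mono (Pool.Agent.H95.SumRule.openGraph_mono ?_) h2
    intro e he
    rw [mem_inter, mem_union, mem_inter] at he
    obtain ⟨he1, he2⟩ := he
    have he3 : e ∈ edgesIn (rect (-a) a 0 T) :=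
      Pool.Agent.H95.Perc.edgesIn_mono inter_subset_right he2
    rw [mem_inter]
    refine ⟨?_, he3⟩
    rcases he1 with he1 | he1
    · exact he1.1
    · obtain ⟨x, _, _, rfl⟩ := mem_feet.1 he1
      exact absurd he3 (feet_not_ES2 T)

theorem A2_iff (ha : 1 ≤ a) (hT : 1 ≤ T) : A2 a T ω ↔
    ∀ f ∈ Phi2 a T, f.1 = -a - 1 →
      f ∉ Ucl (Phi2 a T) (ω ∩ ES2 a T ∪ feet a) (fun f => f.1 = a) := by
  rw [A2_iff_ver ha hT, ver_iff (by omega) (by omega), inter_eq_left.2 (kap_sub ha hT)]
  change (∀ f ∈ Phi2 a T, ∀ g ∈ Phi2 a T, _) ↔ _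
  constructor
  · intro h f hf hf1 hU
    rw [mem_Ucl] at hU
    obtain ⟨_, g, hg, hg1, hr⟩ := hU
    exact h f hf g hg hf1 hg1 hr.symm
  · intro h f hf g hg hf1 hg1 hr
    apply h f hf hf1
    rw [mem_Ucl]
    exact ⟨hf, g, hg, hg1, hr.symm⟩

theorem klexp2 (ha : 1 ≤ a) (hT : 1 ≤ T) (h : A2 a T ω) : ∃ C2, KLF2 a T (N2 a T ω) ω C2 := by
  classical
  have hU := (A2_iff ha hT).1 h
  set n := N2 a T ω with hn
  set κ := ω ∩ ES2 a T ∪ feet a with hκ
  have hκ' : κ ⊆ ES2 a T ∪ feet a := union_subset_union inter_subset_right (Subset.refl _)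
  have hnN : n = Nx (Phi2 a T) κ (fun f => f.1 = a) (fun f => f.1 = -a - 1) := rfl
  have hsub : n ⊆ Phi2 a T := Nx_subset
  have hright : ∀ j, -1 ≤ j → j ≤ T - 1 → (a, j) ∈ n := by
    intro j h1 h2
    apply Nx_seed
    · unfold Phi2; rw [mem_rect]; simp only; omega
    · rfl
  have hleft : ∀ j, (-a - 1, j) ∉ n := by
    intro j hj
    have h1 := hsub hj
    exact Nx_other (S' := fun f => f.1 = -a - 1) h1 rfl (hU _ h1 rfl) hj
  have hbdκ : bdN (Phi2 a T) n ⊆ κ := bdN_Nx_subset
  have hbdE : bdN (Phi2 a T) n ⊆ edgesIn (rect (-a) a (-1) T) := hbdκ.trans (kap_sub ha hT)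
  obtain ⟨u, v, p, hp, hu, hv, hsup, hedg⟩ := minCut_ver (x0 := -a) (x1 := a) (y0 := -1) (y1 := T)
    (N := n) (by omega) (by omega) hsub (fun j h1 h2 => hright j h1 (by omega)) hleft
    (by
      intro f hf hf'
      obtain ⟨g, h1, h2, _, h3⟩ := Nx_conn' hf hf'
      exact ⟨g, h1, h2, h3⟩)
    (by
      rintro f hf ⟨g, hg, hg', hadj⟩
      exact Nx_conn hf hg hg' hadj)
  change ∀ e, e ∈ p.edges ↔ e ∈ bdN (Phi2 a T) n at hedg
  -- first step
  cases p with
  | nil => exfalso; omega
  | cons hadj p =>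
    rename_i x1
    have hfe := foot_edge hκ' (hbdκ ((hedg s(u, x1)).1 (by simp))) hu
    have hpath := hp.of_cons
    have hpe : ∀ e ∈ p.edges, e ∈ bdN (Phi2 a T) n := fun e he => (hedg e).1 (by simp [he])
    have hx1 : x1.2 = 0 := by rw [hfe.2.2.1]
    have hup : ∀ z ∈ p.support, 0 ≤ z.2 :=
      path_up hκ' p hpath (fun e he => hbdκ (hpe e he)) (by omega) (by omega)
    have hne : x1 ≠ v := by rintro rfl; omega
    have hpω : ∀ e ∈ p.edges, e ∈ ω ∩ ES2 a T := by
      intro e he
      have h1 := hbdκ (hpe e he)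
      rw [hκ, mem_union] at h1
      rcases h1 with h1 | h1
      · exact h1
      · obtain ⟨x, _, _, rfl⟩ := mem_feet.1 h1
        have h2 : ((x, -1) : ℤ × ℤ) ∈ p.support := by
          have : s((x, -1), (x, 0)) ∈ p.edges := he
          exact p.fst_mem_support_of_mem_edges this
        have := hup _ h2
        simp at this
    have hpX : ∀ e ∈ p.edges, e ∈ ω ∩ Xs (ES2 a T) n := by
      intro e he
      have h1 := hpω e he
      rw [mem_inter] at h1 ⊢
      refine ⟨h1.1, ?_⟩
      unfold Xs
      rw [mem_filter]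
      refine ⟨h1.2, ?_⟩
      obtain ⟨f, g, hf, hg, hg', hfg, rfl⟩ := mem_bdN.1 (hpe e he)
      refine ⟨f, hf, ?_⟩
      rw [star_sepE hfg]; simp
    -- edges of the form ev i (-1)
    have hev : ∀ i, ev i (-1) ∈ bdN (Phi2 a T) n ↔ i = u.1 := by
      intro i
      rw [← hedg, SimpleGraph.Walk.edges_cons, List.mem_cons]
      constructor
      · rintro (h1 | h1)
        · rw [hfe.2.2.2, ev_inj] at h1
          exact h1.1
        · exfalso
          have : s((i, -1), (i, -1 + 1)) ∈ p.edges := h1
          have := hup _ (p.fst_mem_support_of_mem_edges this)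
          simp at this
      · rintro rfl
        left; exact hfe.2.2.2.symm
    have hbdev : ∀ i, -a ≤ i → i ≤ a → (¬ (((i - 1, -1) : ℤ × ℤ) ∈ n ↔ ((i, -1) : ℤ × ℤ) ∈ n) ↔
        i = u.1) := by
      intro i hi1 hi2
      rw [← hev i]
      have hadj' : Z2.Adj (i - 1, -1) (i, -1) := by rw [Z2_adj_iff]; omega
      have hse : sepE (i - 1, -1) (i, -1) = ev i (-1) := Pool.Agent.H95.Perc.sepE_v'
      have hse' : sepE (i, -1) (i - 1, -1) = ev i (-1) := Pool.Agent.H95.Perc.sepE_v
      have hm1 : ((i - 1, -1) : ℤ × ℤ) ∈ Phi2 a T := by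
        unfold Phi2; rw [mem_rect]; simp only; omega
      have hm2 : ((i, -1) : ℤ × ℤ) ∈ Phi2 a T := by
        unfold Phi2; rw [mem_rect]; simp only; omega
      constructor
      · intro h1
        by_cases h2 : ((i - 1, -1) : ℤ × ℤ) ∈ n
        · have h3 : ((i, -1) : ℤ × ℤ) ∉ n := fun h3 => h1 ⟨fun _ => h3, fun _ => h2⟩
          rw [mem_bdN]
          exact ⟨_, _, h2, hm2, h3, hadj', hse.symm⟩
        · have h3 : ((i, -1) : ℤ × ℤ) ∈ n := by
            by_contra h3
            exact h1 ⟨fun h4 => absurd h4 h2, fun h4 => absurd h4 h3⟩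
          rw [mem_bdN]
          exact ⟨_, _, h3, hm1, h2, hadj'.symm, hse'.symm⟩
      · intro h1 h2
        obtain ⟨f, g, hf, hg, hg', hfg, he⟩ := mem_bdN.1 h1
        have h3 := star_sepE hfg
        rw [← he, star_ev] at h3
        unfold eh at h3
        rw [Sym2.eq_iff] at h3
        rcases h3 with ⟨h3, h4⟩ | ⟨h3, h4⟩
        · subst h3 h4
          apply hg'
          have := h2.1 hf
          rwa [show i - 1 + 1 = i by ring]
        · subst h3 h4
          apply hg'
          rw [show i - 1 + 1 = i by ring] at hf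
          exact h2.2 hf
    refine ⟨p.support.toFinset, ⟨ha, hT, hsub, hright, hleft, ?_, ?_, ?_, ?_, ?_, ?_, ?_⟩⟩
    · -- bot
      refine ⟨u.1, hfe.1, hfe.2.1, ?_⟩
      have hlow : ∀ k : ℕ, (-a - 1 + k : ℤ) < u.1 → ((-a - 1 + k, -1) : ℤ × ℤ) ∉ n := by
        intro k
        induction k with
        | zero => intro _; simpa using hleft (-1)
        | succ k ih =>
          intro hk
          push_cast at hk ⊢
          have h1 := ih (by omega)
          have h2 := hbdev (-a - 1 + (k + 1)) (by omega) (by omega)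
          rw [show (-a - 1 + ((k : ℤ) + 1) - 1) = -a - 1 + k by ring] at h2
          by_contra h3
          have h4 := h2.1 (fun h5 => h1 (h5.2 h3))
          omega
      have hhigh : ∀ k : ℕ, u.1 ≤ (a - k : ℤ) → ((a - k, -1) : ℤ × ℤ) ∈ n := by
        intro k
        induction k with
        | zero => intro _; simpa using hright (-1) le_rfl (by omega)
        | succ k ih =>
          intro hk
          push_cast at hk ⊢
          have h1 := ih (by omega)
          have h2 := hbdev (a - k) (by omega) (by omega)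
          rw [show (a - (k : ℤ) - 1) = a - (k + 1) by ring] at h2
          by_contra h3
          have h4 := h2.1 (fun h5 => h3 (h5.2 h1))
          omega
      intro i hi1 hi2
      constructor
      · intro h1
        by_contra h2
        have h3 := hlow (i + a + 1).toNat (by omega)
        rw [show (-a - 1 + ((i + a + 1).toNat : ℤ)) = i by omega] at h3
        exact h3 h1
      · intro h1
        have h3 := hhigh (a - i).toNat (by omega)
        rwa [show (a - ((a - i).toNat : ℤ)) = i by omega] at h3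
    · -- opn
      intro f hf g hg hg' hfg
      have h1 := (Nx_bdry hf hg hg' hfg).2.2
      rw [mem_union] at h1
      rcases h1 with h1 | h1
      · exact Or.inl h1
      · obtain ⟨x, _, _, hx⟩ := mem_feet.1 h1
        exact Or.inr ⟨x, hx⟩
    · -- mem_C
      intro z
      rw [List.mem_toFinset]
      constructor
      · intro hz
        have h1 := hsup z (by rw [SimpleGraph.Walk.support_cons]; exact List.mem_cons_of_mem _ hz)
        have h2 := hup z hz
        refine ⟨by rw [mem_rect] at h1 ⊢; omega, ?_⟩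
        obtain ⟨e, he, hze⟩ := mem_edge_of_support p hne z hz
        obtain ⟨f, g, hf, hg, hg', hfg, he'⟩ := mem_bdN.1 (hpe e he)
        have h3 := hbdE (hpe e he)
        have h4 : star e = s(f, g) := by rw [he', star_sepE hfg]
        exact ⟨⟨f, hf, inci_of_side h3 (by rw [h4]; simp) hze⟩,
          ⟨g, hg, hg', inci_of_side h3 (by rw [h4]; simp) hze⟩⟩
      · rintro ⟨hz, ⟨f, hf, hfz⟩, ⟨g, hg, hg', hgz⟩⟩
        have key : ∃ e ∈ bdN (Phi2 a T) n, z ∈ e := by
          obtain ⟨x, y⟩ := z
          obtain ⟨f1, f2⟩ := f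
          obtain ⟨g1, g2⟩ := g
          have hfΦ := hsub hf
          unfold Phi2 at hfΦ hg
          rw [mem_rect] at hz hfΦ hg
          unfold Inci at hfz hgz
          simp only at hz hfz hgz hfΦ hg
          have hΦ : ∀ i j, x - 1 ≤ i → i ≤ x → y - 1 ≤ j → j ≤ y → j ≤ T - 1 →
              ((i, j) : ℤ × ℤ) ∈ Phi2 a T := by
            intro i j h1 h2 h3 h4 h5
            unfold Phi2; rw [mem_rect]; simp only; omega
          -- a difference between two adjacent faces
          have dif : ∀ f g : ℤ × ℤ, Z2.Adj f g → f ∈ Phi2 a T → g ∈ Phi2 a T →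
              ¬ (f ∈ n ↔ g ∈ n) → sepE f g ∈ bdN (Phi2 a T) n := by
            intro f g hfg h1 h2 h3
            by_cases h4 : f ∈ n
            · exact mem_bdN.2 ⟨f, g, h4, h2, fun h5 => h3 ⟨fun _ => h5, fun _ => h4⟩, hfg, rfl⟩
            · have h5 : g ∈ n := by
                by_contra h5
                exact h3 ⟨fun h => absurd h h4, fun h => absurd h h5⟩
              exact mem_bdN.2 ⟨g, f, h5, h1, h4, hfg.symm,
                Pool.Agent.H95.Perc.sepE_comm hfg⟩
          have e1 : sepE (x - 1, y - 1) (x, y - 1) = ev x (y - 1) := Pool.Agent.H95.Perc.sepE_v'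
          have e2 : sepE (x, y - 1) (x, y) = eh x y := Pool.Agent.H95.Perc.sepE_h
          have e3 : sepE (x, y) (x - 1, y) = ev x y := Pool.Agent.H95.Perc.sepE_v
          have e4 : sepE (x - 1, y - 1) (x - 1, y) = eh (x - 1) y := by
            have := Pool.Agent.H95.Perc.sepE_h (a := x - 1) (b := y)
            rw [this]; rfl
          have a1 : Z2.Adj (x - 1, y - 1) (x, y - 1) := by rw [Z2_adj_iff]; omega
          have a2 : Z2.Adj (x, y - 1) (x, y) := by rw [Z2_adj_iff]; omega
          have a3 : Z2.Adj (x, y) (x - 1, y) := by rw [Z2_adj_iff]; omega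
          have a4 : Z2.Adj (x - 1, y - 1) (x - 1, y) := by rw [Z2_adj_iff]; omega
          by_cases c1 : ¬ (((x - 1, y - 1) : ℤ × ℤ) ∈ n ↔ ((x, y - 1) : ℤ × ℤ) ∈ n)
          · refine ⟨_, dif _ _ a1 (hΦ _ _ (by omega) (by omega) (by omega) (by omega) (by omega))
              (hΦ _ _ (by omega) (by omega) (by omega) (by omega) (by omega)) c1, ?_⟩
            rw [e1, mem_ev]; right; ext <;> simp
          by_cases c2 : y ≤ T - 1 ∧ ¬ (((x, y - 1) : ℤ × ℤ) ∈ n ↔ ((x, y) : ℤ × ℤ) ∈ n)
          · refine ⟨_, dif _ _ a2 (hΦ _ _ (by omega) (by omega) (by omega) (by omega) (by omega))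
              (hΦ _ _ (by omega) (by omega) (by omega) (by omega) (by omega)) c2.2, ?_⟩
            rw [e2, mem_eh]; left; rfl
          by_cases c3 : y ≤ T - 1 ∧ ¬ (((x, y) : ℤ × ℤ) ∈ n ↔ ((x - 1, y) : ℤ × ℤ) ∈ n)
          · refine ⟨_, dif _ _ a3 (hΦ _ _ (by omega) (by omega) (by omega) (by omega) (by omega))
              (hΦ _ _ (by omega) (by omega) (by omega) (by omega) (by omega)) c3.2, ?_⟩
            rw [e3, mem_ev]; left; rfl
          by_cases c4 : y ≤ T - 1 ∧ ¬ (((x - 1, y - 1) : ℤ × ℤ) ∈ n ↔ ((x - 1, y) : ℤ × ℤ) ∈ n)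
          · refine ⟨_, dif _ _ a4 (hΦ _ _ (by omega) (by omega) (by omega) (by omega) (by omega))
              (hΦ _ _ (by omega) (by omega) (by omega) (by omega) (by omega)) c4.2, ?_⟩
            rw [e4, mem_eh]; right; ext <;> simp
          exfalso
          push Not at c1
          have hcase : ∀ i j, x - 1 ≤ i → i ≤ x → y - 1 ≤ j → j ≤ y → j ≤ T - 1 →
              (((i, j) : ℤ × ℤ) ∈ n ↔ ((x, y - 1) : ℤ × ℤ) ∈ n) := by
            intro i j h1 h2 h3 h4 h5
            have hi : i = x - 1 ∨ i = x := by omega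
            have hj : j = y - 1 ∨ j = y := by omega
            rcases hj with rfl | rfl
            · rcases hi with rfl | rfl
              · exact c1
              · exact Iff.rfl
            · have c2' : (((x, j - 1) : ℤ × ℤ) ∈ n ↔ ((x, j) : ℤ × ℤ) ∈ n) := by
                by_contra hh; exact c2 ⟨h5, hh⟩
              have c3' : (((x, j) : ℤ × ℤ) ∈ n ↔ ((x - 1, j) : ℤ × ℤ) ∈ n) := by
                by_contra hh; exact c3 ⟨h5, hh⟩
              rcases hi with rfl | rfl
              · rw [← c3', ← c2']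
              · rw [← c2']
          have q1 := hcase f1 f2 (by omega) (by omega) (by omega) (by omega) (by omega)
          have q2 := hcase g1 g2 (by omega) (by omega) (by omega) (by omega) (by omega)
          exact hg' (q2.2 (q1.1 hf))
        obtain ⟨e, he, hze⟩ := key
        have h1 := (hedg e).2 he
        rw [SimpleGraph.Walk.edges_cons, List.mem_cons] at h1
        rcases h1 with h1 | h1
        · subst h1
          rw [Sym2.mem_iff] at hze
          rcases hze with rfl | rfl
          · rw [mem_rect] at hz; omega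
          · exact SimpleGraph.Walk.start_mem_support _
        · exact p.mem_support_of_mem_edges h1 hze
    · -- conn
      intro y hy z hz
      rw [List.mem_toFinset] at hy hz
      exact (Cn_walk p hpX y hy).symm.trans (Cn_walk p hpX z hz)
    · -- vt
      intro y hy
      rw [List.mem_toFinset] at hy
      obtain ⟨e, he, hye⟩ := mem_edge_of_support p hne y hy
      rw [mem_vts]
      exact ⟨e, hpX e he, hye⟩
    · exact ⟨x1, by rw [List.mem_toFinset]; exact SimpleGraph.Walk.start_mem_support _, hx1⟩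
    · exact ⟨v, by rw [List.mem_toFinset]; exact SimpleGraph.Walk.end_mem_support _, hv⟩

theorem kl_stop2 (ha : 1 ≤ a) (hT : 1 ≤ T) (h : A2 a T ω)
    (h' : ω' ∩ Xs (ES2 a T) (N2 a T ω) = ω ∩ Xs (ES2 a T) (N2 a T ω)) :
    A2 a T ω' ∧ N2 a T ω' = N2 a T ω := by
  classical
  have hstop := Nx_stop (Φ := Phi2 a T) (κ := ω ∩ ES2 a T ∪ feet a)
    (κ' := ω' ∩ ES2 a T ∪ feet a) (S := fun f => f.1 = a) (S' := fun f => f.1 = -a - 1) (by
      intro f hf g hg hfg
      change f ∈ N2 a T ω at hf
      rw [mem_union, mem_union]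
      by_cases hE : sepE f g ∈ ES2 a T
      · have hX : sepE f g ∈ Xs (ES2 a T) (N2 a T ω) := by
          unfold Xs
          rw [mem_filter]
          refine ⟨hE, f, hf, ?_⟩
          rw [star_sepE hfg]; simp
        have h1 : sepE f g ∈ ω ↔ sepE f g ∈ ω' := by
          have h2 : sepE f g ∈ ω ∩ Xs (ES2 a T) (N2 a T ω) ↔
              sepE f g ∈ ω' ∩ Xs (ES2 a T) (N2 a T ω) := by rw [h']
          rw [mem_inter, mem_inter] at h2
          tauto
        rw [mem_inter, mem_inter, h1]
      · rw [mem_inter, mem_inter]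
        tauto)
  refine ⟨?_, hstop.2⟩
  rw [A2_iff ha hT] at h ⊢
  intro f hf hf1
  rw [hstop.1]
  exact h f hf hf1

end Pool.Agent.FKR
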