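import Pool.Agent.FKR.KLV1
import Pool.Agent.FKR.Topo

/-! # FKR/KLM1 (MP_b3e76a_pr): the key topological lemma, primal case

Let `ζ ⊆ EG`. `Mset`: edges of `S2 \ S1` whose `τ`-image touches `n1`. Configuration `kap ζ` in
`R' = rect (-a) a (-1) (T+1)`: the edges of `ζ` and all explored edges (open or closed!) except those in
`Mset`, all restricted to `ES2`; the vertical edges `ev x (-1)`, `xf ≤ x ≤ a`, below `S2`; the vertical
edges `ev x T`, `-a ≤ x ≤ -1`, above `S2`.

`trace`: `u ∈ C1`, `u ∈ rect (-a) a 0 T`, `u` incident to a face of `n2` ⟹ `C1 ∩ C2 ≠ ∅`. Proof. Suppose `C1`, `C2`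
disjoint. Follow the walk `p` (`h1.walk`) from `u` inside `C1` to a vertex `v`, `v.1 = -L ≤ -a`. As long as the walk
is in `S2 = rect (-a) a 0 T`: each vertex `w` of it is not in `C2`, so all faces of `Phi2` around `w` are in `n2`
as soon as one is (`class2`), and two consecutive vertices of the walk (both in `S2`) have a common
incident face of `Phi2`. So all faces of `Phi2` around all vertices of this initial part are in `n2`. If
the walk stays in `S2` then `v.1 = -a`; otherwise the last vertex before it leaves `S2` has first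
coordinate `-a` (the walk is in `C1 ⊆ S1`, rows `0..T`, `x ≤ 0`). A vertex `(-a, y)` of `S2` is incident to a face
`(-a-1, j)` of `Phi2` (`j = y` or `y - 1`), which is not in `n2` (`left`). Contradiction.

`KLM_primal`: if `ver (-a) a (-1) (T+1) (kap ζ)` then some `u ∈ C1`, `v ∈ C2` are connected in `ζ`, or
`C1 ∩ C2 ≠ ∅`. Proof. Take the crossing as a walk; restrict it to the part after its last visit to the
row `-1` and before the next visit to the row `T+1`: a walk `v_0, ..., v_n` in `S2` by edges of
`kap ζ ∩ ES2 = (ζ ∪ XX \ Mset) ∩ ES2`, `v_0 = (x, 0)` with `xf ≤ x ≤ a` (edge `ev x (-1)`), `v_n = (x', T)` with `-a ≤ x' ≤ -1`.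
`v_0` is incident to `(x, -1) ∈ n2` (`bot`), `v_n` to `(x', T) ∈ n1` (`top`). Let `t` be the first index such that
`v_t` is incident to a face of `n1`, `s ≤ t` the last index `≤ t` such that `v_s` is incident to a face of `n2`.
For `s ≤ k < t` the edge `v_k v_{k+1}` is not explored: not in `Xs (ES1) n1` as `v_k` is not incident to `n1`
(`inci_of_Xs`), not in `Xs (ES2) n2` as `v_{k+1}` is not incident to `n2`. So it is in `ζ`. If `s < t`:
`v_s ∈ C2` (`V1b`), `v_t ∈ C1` (`V1a`), connected in `ζ`. If `s = t`: `v := v_t` is incident to faces of `n1` and of `n2`.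
Claim `v ∈ C1`; then `trace` gives `C1 ∩ C2 ≠ ∅`. Suppose `v = (x, y) ∉ C1`: `x ≤ 0`, all faces of `Phi1` around `v` are
in `n1` (`class1`). If `t = 0`: `v = (x, 0)` is incident to a face of `Phi1` in the row `-1` (`(x, -1)` if `x < 0`,
`(-1, -1)` if `x = 0`), not in `n1` (`bot`). Contradiction. If `t ≥ 1`, let `g` be the edge from `v_{t-1}` to `v`; `v_{t-1}`
is not incident to `n1`, so `g` has no side in `n1`. If `x < 0`, or `x = 0` and `g ≠ eh 0 y`, then `g` has a side in
`Phi1` incident to `v`. So `x = 0`, `g = eh 0 y`, `(-1, y) ∈ n1`, `(-1, y-1) ∈ n1`. If `g ∈ ζ ⊆ EG` then `V1a` gives `v ∈ C1`. If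
`g ∈ XX \ Mset`: but `g ∈ ES2 \ ES1` and `tau g = ev (-1) y` has the side `(-1, y) ∈ n1`, so `g ∈ Mset`. Contradiction.
(It may be convenient to do the induction along the walk with `Cn.closed`-style or `List`
arguments: e.g. prove by induction on a walk from a vertex incident to `n2` to a vertex incident to
`n1`.) -/

namespace Pool.Agent.FKR

open Finset
open Pool.Agent.H95.Wedge (openGraph W Good selfDual clusters)
open Pool.Agent.H95.Perc (Inc conn link rect hor ver eh ev sumE sepE Inci mem_rect)
open Pool.Agent.H95.SumRule (edgesIn Z2)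

variable (L a T : ℤ) (n1 n2 : Finset (ℤ × ℤ))

open Classical in
/-- edges of `S2 \ S1` whose `τ`-image touches `n1` -/
noncomputable def Mset : Finset (Sym2 (ℤ × ℤ)) :=
  (ES2 a T \ ES1 L T).filter fun e => touch n1 (tau e)

/-- the auxiliary configuration in `rect (-a) a (-1) (T+1)` -/
noncomputable def kap (xf : ℤ) (ζ : Finset (Sym2 (ℤ × ℤ))) : Finset (Sym2 (ℤ × ℤ)) :=
  (ζ ∪ (XX L a T n1 n2 \ Mset L a T n1)) ∩ ES2 a T ∪ (Icc xf a).image (fun x => ev x (-1)) ∪
    (Icc (-a) (-1)).image (fun x => ev x T)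

variable {L a T} {n1 n2} {ω : Finset (Sym2 (ℤ × ℤ))} {C1 C2 : Finset (ℤ × ℤ)}

/-- a vertex of the left side of `S2` which is not in `C2` is not incident to faces of `n2` -/
private theorem left_contra (h2 : KLF2 a T n2 ω C2) {u : ℤ × ℤ} (hu2 : u ∈ rect (-a) a 0 T)
    (hux : u.1 = -a) (huC : u ∉ C2) (hn : ∃ f ∈ n2, Inci f u) : False := by
  have hr := mem_rect.mp hu2
  have ha := h2.ha
  have hT := h2.hT
  have h3 : ((-a - 1, u.2 - 1) : ℤ × ℤ) ∈ n2 := by
    apply class2 h2 hu2 huC hn
    · rw [Phi2, mem_rect]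
      simp only
      omega
    · simp only [Inci]
      omega
  exact h2.left _ h3

theorem trace (h1 : KLF1 L T n1 ω C1) (h2 : KLF2 a T n2 ω C2) (haL : a ≤ L) {u : ℤ × ℤ} (hu : u ∈ C1)
    (hu2 : u ∈ rect (-a) a 0 T) (hn : ∃ f ∈ n2, Inci f u) : ∃ v ∈ C1, v ∈ C2 := by
  by_contra hc
  push Not at hc
  obtain ⟨v, hv, hvL, p, hp⟩ := h1.walk u hu
  have ha := h2.ha
  have hT := h2.hT
  clear hv
  induction p with
  | nil =>
    rename_i u
    have hr := mem_rect.mp hu2
    exact left_contra h2 hu2 (by omega) (hc _ hu) hn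
  | cons hadj p ih =>
    rename_i u w v
    have hw : w ∈ C1 := hp w (by simp)
    have hr := mem_rect.mp hu2
    have hwr := mem_rect.mp ((h1.mem_C w).mp hw).1
    have hadj' := hadj
    obtain ⟨x, y⟩ := u
    obtain ⟨x', y'⟩ := w
    rw [Z2_adj_iff] at hadj'
    by_cases hw2 : ((x', y') : ℤ × ℤ) ∈ rect (-a) a 0 T
    · apply ih hw hw2 _ hvL (fun z hz => hp z (by simp [hz]))
      have hwr2 := mem_rect.mp hw2
      simp only at hr hwr hwr2
      rcases hadj' with ⟨h3, h4⟩ | ⟨h3, h4⟩
      · refine ⟨(x, min y y'), class2 h2 hu2 (hc _ hu) hn ?_ ?_, ?_⟩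
        · rw [Phi2, mem_rect]
          simp only
          omega
        · simp only [Inci]
          omega
        · simp only [Inci]
          omega
      · refine ⟨(min x x', y - 1), class2 h2 hu2 (hc _ hu) hn ?_ ?_, ?_⟩
        · rw [Phi2, mem_rect]
          simp only
          omega
        · simp only [Inci]
          omega
        · simp only [Inci]
          omega
    · refine left_contra h2 hu2 ?_ (hc _ hu) hn
      rw [mem_rect] at hw2
      simp only at hr hwr hw2 ⊢
      omega

theorem KLM_primal (h1 : KLF1 L T n1 ω C1) (h2 : KLF2 a T n2 ω C2) (haL : a ≤ L) {xf : ℤ}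
    (hxf : -a ≤ xf ∧ xf ≤ 0 ∧ ∀ i, -a - 1 ≤ i → i ≤ a → ((i, -1) ∈ n2 ↔ xf ≤ i))
    {ζ : Finset (Sym2 (ℤ × ℤ))} (hζ : ζ ⊆ EG L a T n1 n2)
    (hv : ver (-a) a (-1) (T + 1) (kap L a T n1 n2 xf ζ)) :
    (∃ v ∈ C1, v ∈ C2) ∨ ∃ u ∈ C1, ∃ v ∈ C2, Cn ζ u v := by
  classical
  by_contra hcon
  have hcon1 : ¬ ∃ v ∈ C1, v ∈ C2 := fun h => hcon (Or.inl h)
  have hcon2 : ¬ ∃ u ∈ C1, ∃ v ∈ C2, Cn ζ u v := fun h => hcon (Or.inr h)
  have ha := h2.ha
  have hT := h2.hT
  obtain ⟨hx1, hx2, hx3⟩ := hxf
  obtain ⟨A, B, hA, hB, hA2, hB2, hc⟩ := hv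
  -- a vertex connected to `C2`, or incident to `n2`
  set G2 : ℤ × ℤ → Prop := fun z => (∃ f ∈ n2, Inci f z) ∨ ∃ v ∈ C2, Cn ζ v z with hG2
  have key : ∀ w : ℤ × ℤ, w ∈ rect (-a) a 0 T → w ∈ C1 → G2 w → False := by
    intro w hw hwC hG
    rcases hG with hG | ⟨v, hv, hG⟩
    · exact hcon1 (trace h1 h2 haL hwC hw hG)
    · exact hcon2 ⟨w, hwC, v, hv, hG.symm⟩
  have hn1 : ∀ {f : ℤ × ℤ}, f ∈ n1 → -L ≤ f.1 ∧ f.1 ≤ -1 ∧ -1 ≤ f.2 ∧ f.2 ≤ T := by
    intro f hf
    have := h1.sub hf
    rwa [Phi1, mem_rect] at this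
  set Inv : ℤ × ℤ → Prop := fun z => z.2 = -1 ∨
    (z ∈ rect (-a) a 0 T ∧ G2 z ∧ ¬ ∃ f ∈ n1, Inci f z) with hInv
  have hB3 : Inv B := by
    refine Cn.closed (S := Inv) hc (Or.inl hA2) ?_
    intro z w hz hzw
    have hzw1 := (mem_inter.mp hzw).1
    have hzw2 := (mem_inter.mp hzw).2
    unfold kap at hzw1
    rw [mem_union, mem_union, mem_inter, mem_union, mem_sdiff] at hzw1
    rcases hz with hz | ⟨hzr, hzG, hzn⟩
    · -- from the row `-1`
      rcases hzw1 with (⟨_, h3⟩ | h3) | h3
      · have h4 := (Pool.Agent.H95.Perc.mem_edgesIn'.mp h3).1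
        rw [mem_rect] at h4
        omega
      · rw [mem_image] at h3
        obtain ⟨x, hx, h3⟩ := h3
        rw [mem_Icc] at hx
        have hw : w = (x, 0) := by
          unfold ev at h3
          rw [Sym2.eq_iff] at h3
          rcases h3 with ⟨h3, h4⟩ | ⟨h3, h4⟩
          · rw [← h4]; simp
          · rw [← h4] at hz
            simp at hz
        subst hw
        right
        have hwr : ((x, 0) : ℤ × ℤ) ∈ rect (-a) a 0 T := by
          rw [mem_rect]; simp only; omega
        have hwG : G2 (x, 0) := by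
          left
          refine ⟨(x, -1), (hx3 x (by omega) hx.2).mpr hx.1, ?_⟩
          simp only [Inci]
          omega
        refine ⟨hwr, hwG, ?_⟩
        rintro ⟨f, hf, hfi⟩
        refine key _ hwr ?_ hwG
        by_contra hC
        have hf1 := hn1 hf
        have hfi' := hfi
        simp only [Inci] at hfi'
        have hS1 : ((x, 0) : ℤ × ℤ) ∈ rect (-L) 0 0 T := by
          rw [mem_rect]; simp only; omega
        have h4 : ((min x (-1), -1) : ℤ × ℤ) ∈ n1 := by
          apply class1 h1 hS1 hC ⟨f, hf, hfi⟩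
          · rw [Phi1, mem_rect]
            simp only
            have := h1.hL
            omega
          · simp only [Inci]
            omega
        exact h1.bot _ h4
      · rw [mem_image] at h3
        obtain ⟨x, hx, h3⟩ := h3
        unfold ev at h3
        rw [Sym2.eq_iff] at h3
        rcases h3 with ⟨h3, h4⟩ | ⟨h3, h4⟩
        · rw [← h3] at hz; simp only at hz; omega
        · rw [← h4] at hz; simp only at hz; omega
    · have hzr' := mem_rect.mp hzr
      rcases hzw1 with (⟨h3, h4⟩ | h3) | h3
      · -- an edge of `S2`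
        have h4' := Pool.Agent.H95.Perc.mem_edgesIn'.mp h4
        have hwr := h4'.2.1
        have hadj := h4'.2.2
        have hwG : G2 w := by
          rcases h3 with h3 | ⟨h3, h5⟩
          · right
            have hzwc : Cn ζ z w := Cn_edge h3
            rcases hzG with hzG | ⟨v, hv, hzG⟩
            · exact ⟨z, V1b h2 (hζ h3) (by simp) hzG, hzwc⟩
            · exact ⟨v, hv, hzG.trans hzwc⟩
          · left
            unfold XX at h3
            rw [mem_union] at h3
            rcases h3 with h3 | h3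
            · exfalso
              apply hzn
              exact inci_of_Xs (V := rect (-L) 0 0 T) (subset_refl _) h3 (by simp)
            · exact inci_of_Xs (V := rect (-a) a 0 T) (subset_refl _) h3 (by simp)
        right
        refine ⟨hwr, hwG, ?_⟩
        rintro ⟨f, hf, hfi⟩
        refine key _ hwr ?_ hwG
        by_contra hC
        have hf1 := hn1 hf
        have hwr' := mem_rect.mp hwr
        have hfi' := hfi
        simp only [Inci] at hfi'
        have hS1 : w ∈ rect (-L) 0 0 T := by
          rw [mem_rect]; omega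
        have hall : ∀ g ∈ Phi1 L T, Inci g w → g ∈ n1 := fun g hg hgw =>
          class1 h1 hS1 hC ⟨f, hf, hfi⟩ hg hgw
        -- no face of `Phi1` is incident to both `z` and `w`
        have hno : ∀ g ∈ Phi1 L T, Inci g w → Inci g z → False := fun g hg hgw hgz =>
          hzn ⟨g, hall g hg hgw, hgz⟩
        have hL := h1.hL
        obtain ⟨x, y⟩ := z
        obtain ⟨x', y'⟩ := w
        simp only at hzr' hwr' hfi'
        rw [Z2_adj_iff] at hadj
        have hcase : x' = 0 ∧ x = 1 ∧ y = y' := by
          rcases hadj with ⟨h6, h7⟩ | ⟨h6, h7⟩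
          · exfalso
            refine hno (min x' (-1), min y y') ?_ ?_ ?_
            · rw [Phi1, mem_rect]; simp only; omega
            · simp only [Inci]; omega
            · simp only [Inci]; omega
          · by_contra hne
            refine hno (min x x', y') ?_ ?_ ?_
            · rw [Phi1, mem_rect]; simp only; omega
            · simp only [Inci]; omega
            · simp only [Inci]; omega
        obtain ⟨rfl, rfl, rfl⟩ := hcase
        have hedge : s(((1, y) : ℤ × ℤ), (0, y)) = eh 0 y := by
          unfold eh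
          rw [Sym2.eq_swap]
          simp
        rw [hedge] at h3 h4
        rcases h3 with h3 | ⟨h3, h5⟩
        · apply hC
          refine V1a h1 ha haL (hζ h3) ?_ ⟨f, hf, hfi⟩
          rw [mem_eh]; simp
        · apply h5
          unfold Mset
          rw [mem_filter, mem_sdiff]
          refine ⟨⟨h4, ?_⟩, ?_⟩
          · unfold ES1
            rw [eh_mem_edgesIn_rect]
            omega
          · rw [tau_eh]
            refine ⟨(-1, y), ?_, ?_⟩
            · apply hall
              · rw [Phi1, mem_rect]; simp only; omega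
              · simp only [Inci]; omega
            · rw [star_ev, mem_eh]
              right
              ext <;> simp
      · -- down to the row `-1`
        rw [mem_image] at h3
        obtain ⟨x, hx, h3⟩ := h3
        unfold ev at h3
        rw [Sym2.eq_iff] at h3
        rcases h3 with ⟨h3, h4⟩ | ⟨h3, h4⟩
        · rw [← h3] at hzr'; simp only at hzr'; omega
        · left; rw [← h3]
      · -- up to the row `T + 1`: impossible
        exfalso
        rw [mem_image] at h3
        obtain ⟨x, hx, h3⟩ := h3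
        rw [mem_Icc] at hx
        unfold ev at h3
        rw [Sym2.eq_iff] at h3
        rcases h3 with ⟨h3, h4⟩ | ⟨h3, h4⟩
        · apply hzn
          refine ⟨(x, T), h1.top x (by omega) hx.2, ?_⟩
          rw [← h3]
          simp only [Inci]
          omega
        · rw [← h4] at hzr'; simp only at hzr'; omega
  rcases hB3 with h3 | ⟨h3, _, _⟩
  · omega
  · rw [mem_rect] at h3
    omega

end Pool.Agent.FKR
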