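import Pool.Agent.FKR.KLCond
import Pool.Agent.FKR.KLExp1
import Pool.Agent.FKR.KLExp2
import Pool.Agent.FKR.Explore

/-! # FKR/KLProb (MP_b3e76a_pr): the main lemma, for arbitrary boundary conditions

`KLgoal`: some vertex of the left side of `D` is connected in `D` to a bottom-top crossing of `S2`.
`KLProb0`: `explore_ge` with `B = A1 ∧ A2`, `X ω = XX L a T (N1 L T ω) (N2 a T ω) ⊆ ED ⊆ E`, stopping property:
`kl_stop1`, `kl_stop2`. For fixed `ω` (`F ⊆ ω`) with `A1`, `A2`: `klexp1`, `klexp2` give `C1`, `C2`; `klcond` gives `c1`, `c2`;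
by `P_le` (`EG ⊆ E \ XX` as `EG ⊆ E0`, frozen `ω ∩ XX ⊆ F ∪ (ω ∩ XX)`) the probability
`P q (E \ XX) (F ∪ (ω ∩ XX)) KLgoal` is at least `P q EG (ω ∩ XX) (Cn · c1 c2) ≥ 1 / (1 + √q)`: if `c1`, `c2` are connected in
`κ = ζ ∪ (ω ∩ XX)`, `ζ ⊆ EG ⊆ ED`, then in `D`: `h1.walk` gives `u ∈ C1` in the column `-L`, `h1.conn` connects it to `c1`,
`h2.conn` connects `c2` to `b` (`c_bot`), and `b` to `t` (`c_top`) inside `S2`.
(`conn V ω x y` is `Cn (ω ∩ edgesIn V) x y` by definition.)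
`KLProb`: translate by `(x, y)`: `P_map` with `f = Perc.trans x y`. -/

namespace Pool.Agent.FKR

open Finset
open Pool.Agent.H95.Wedge (openGraph W Good selfDual clusters)
open Pool.Agent.H95.Perc (Inc conn link rect hor ver eh ev sumE sepE Inci mem_rect rect_mono)
open Pool.Agent.H95.SumRule (edgesIn Z2)

/-- a vertex of the left side of `rect (x - L) (x + a) y (y + T)` is connected in this rectangle to a
bottom-top crossing of `rect (x - a) (x + a) y (y + T)` -/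
def KLgoal (x y L a T : ℤ) (ω : Finset (Sym2 (ℤ × ℤ))) : Prop :=
  ∃ u b t : ℤ × ℤ, u ∈ rect (x - L) (x + a) y (y + T) ∧ b ∈ rect (x - a) (x + a) y (y + T) ∧
    t ∈ rect (x - a) (x + a) y (y + T) ∧ u.1 = x - L ∧ b.2 = y ∧ t.2 = y + T ∧
    conn (rect (x - L) (x + a) y (y + T)) ω u b ∧ conn (rect (x - a) (x + a) y (y + T)) ω b t

variable {q : ℝ} {E F : Finset (Sym2 (ℤ × ℤ))} {x y L a T : ℤ}

theorem inc_KLgoal : Inc (KLgoal x y L a T) := by
  rintro ω ω' hs ⟨u, b, t, h1, h2, h3, h4, h5, h6, h7, h8⟩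
  exact ⟨u, b, t, h1, h2, h3, h4, h5, h6, h7.mono (Subset.refl _) hs, h8.mono (Subset.refl _) hs⟩

private theorem Xs_subset (E : Finset (Sym2 (ℤ × ℤ))) (n : Finset (ℤ × ℤ)) : Xs E n ⊆ E := by
  classical
  intro e he
  unfold Xs at he
  exact (mem_filter.mp he).1

private theorem XX_sub_ED (ha : 1 ≤ a) (haL : a ≤ L) (n1 n2 : Finset (ℤ × ℤ)) :
    XX L a T n1 n2 ⊆ ED L a T :=
  union_subset ((Xs_subset _ _).trans (ES1_subset_ED (by omega)))
    ((Xs_subset _ _).trans (ES2_subset_ED haL))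

theorem KLProb0 (hq : 1 ≤ q) (hE : NL E) (hF : NL F) (ha : 1 ≤ a) (haL : a ≤ L) (hT : 1 ≤ T)
    (hD : edgesIn (rect (-L) a 0 T) ⊆ E) :
    P q E F (fun ω => A1 L T ω ∧ A2 a T ω) ≤ (1 + √q) * P q E F (KLgoal 0 0 L a T) := by
  have hq0 : (0 : ℝ) < q := by linarith
  have hs0 : (0 : ℝ) < 1 + √q := by positivity
  have key := explore_ge (q := q) (E := E) (F := F) hq0 hE hF
    (B := fun ω => A1 L T ω ∧ A2 a T ω)
    (X := fun ω => XX L a T (N1 L T ω) (N2 a T ω)) (A := KLgoal 0 0 L a T) (c := 1 / (1 + √q))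
    (fun ω _ => (XX_sub_ED ha haL _ _).trans hD) ?_ ?_
  · have h1 : P q E F (fun ω => KLgoal 0 0 L a T ω ∧ (A1 L T ω ∧ A2 a T ω)) ≤
        P q E F (KLgoal 0 0 L a T) := P_mono hq0 (fun ζ _ h => h.1)
    have h2 := key.trans h1
    rw [one_div, inv_mul_le_iff₀ hs0] at h2
    exact h2
  · rintro ω ω' ⟨hA1, hA2⟩ hX
    have e1 : ω' ∩ Xs (ES1 L T) (N1 L T ω) = ω ∩ Xs (ES1 L T) (N1 L T ω) := by
      have := congrArg (fun s => s ∩ Xs (ES1 L T) (N1 L T ω)) hX
      simp only [inter_assoc] at this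
      have hs : XX L a T (N1 L T ω) (N2 a T ω) ∩ Xs (ES1 L T) (N1 L T ω) =
        Xs (ES1 L T) (N1 L T ω) := inter_eq_right.mpr subset_union_left
      rwa [hs] at this
    have e2 : ω' ∩ Xs (ES2 a T) (N2 a T ω) = ω ∩ Xs (ES2 a T) (N2 a T ω) := by
      have := congrArg (fun s => s ∩ Xs (ES2 a T) (N2 a T ω)) hX
      simp only [inter_assoc] at this
      have hs : XX L a T (N1 L T ω) (N2 a T ω) ∩ Xs (ES2 a T) (N2 a T ω) =
        Xs (ES2 a T) (N2 a T ω) := inter_eq_right.mpr subset_union_right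
      rwa [hs] at this
    obtain ⟨a1, a2⟩ := kl_stop1 (by omega) hT hA1 e1
    obtain ⟨b1, b2⟩ := kl_stop2 ha hT hA2 e2
    refine ⟨⟨a1, b1⟩, ?_⟩
    simp only [a2, b2]
  · rintro ω hFω hωE ⟨hA1, hA2⟩
    obtain ⟨C1, h1⟩ := klexp1 (L := L) (T := T) (by omega) hT hA1
    obtain ⟨C2, h2⟩ := klexp2 (a := a) (T := T) ha hT hA2
    obtain ⟨c1, hc1, c2, hc2, hc⟩ := klcond (q := q) hq h1 h2 haL
    refine hc.trans ?_
    set n1 := N1 L T ω with hn1
    set n2 := N2 a T ω with hn2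
    have hXD : XX L a T n1 n2 ⊆ ED L a T := XX_sub_ED ha haL n1 n2
    have hEGD : EG L a T n1 n2 ⊆ ED L a T :=
      EG_subset_E0.trans (E0_subset_ES2.trans (ES2_subset_ED haL))
    have hNLD : NL (ED L a T) := NL_edgesIn _
    have hsub : EG L a T n1 n2 ⊆ E \ XX L a T n1 n2 := by
      intro e he
      rw [mem_sdiff]
      refine ⟨hD (hEGD he), ?_⟩
      have := EG_subset_E0 he
      unfold E0 at this
      exact (mem_sdiff.mp this).2
    refine P_le hq (hNLD.mono hEGD) (hNLD.mono (inter_subset_right.trans hXD))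
      (hE.mono sdiff_subset) (hF.union (hNLD.mono (inter_subset_right.trans hXD)))
      (hsub.trans subset_union_left)
      (fun u _ v _ huv => huv.mono subset_union_right)
      (inc_Cn c1 c2) inc_KLgoal ?_
    intro ζ hζ hcn
    -- work in the configuration `κ = ζ ∪ (ω ∩ XX)`
    have hκ : ζ ∪ (ω ∩ XX L a T n1 n2) ⊆ ζ ∪ (F ∪ (ω ∩ XX L a T n1 n2)) :=
      union_subset_union (Subset.refl _) subset_union_right
    have hκD : ζ ∪ (ω ∩ XX L a T n1 n2) ⊆ ED L a T :=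
      union_subset (hζ.trans hEGD) (inter_subset_right.trans hXD)
    obtain ⟨u, huC, hu1, -⟩ := h1.walk c1 hc1
    obtain ⟨b, hbC, hb2⟩ := h2.c_bot
    obtain ⟨t, htC, ht2⟩ := h2.c_top
    have hXs1 : ω ∩ Xs (ES1 L T) n1 ⊆ ζ ∪ (ω ∩ XX L a T n1 n2) :=
      (inter_subset_inter (Subset.refl _) subset_union_left).trans subset_union_right
    have hXs2 : ω ∩ Xs (ES2 a T) n2 ⊆ ζ ∪ (ω ∩ XX L a T n1 n2) :=
      (inter_subset_inter (Subset.refl _) subset_union_right).trans subset_union_right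
    have cuc : Cn (ζ ∪ (ω ∩ XX L a T n1 n2)) u b :=
      ((h1.conn u huC c1 hc1).mono hXs1).trans (hcn.trans ((h2.conn c2 hc2 b hbC).mono hXs2))
    have huS := ((h1.mem_C u).mp huC).1
    have hbS := ((h2.mem_C b).mp hbC).1
    have htS := ((h2.mem_C t).mp htC).1
    have r1 : rect (0 - L) (0 + a) 0 (0 + T) = rect (-L) a 0 T := by
      congr 1 <;> ring
    have r2 : rect (0 - a) (0 + a) 0 (0 + T) = rect (-a) a 0 T := by
      congr 1 <;> ring
    refine ⟨u, b, t, ?_, ?_, ?_, ?_, hb2, ?_, ?_, ?_⟩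
    · rw [r1]; exact rect_mono le_rfl (by omega) le_rfl le_rfl huS
    · rw [r2]; exact hbS
    · rw [r2]; exact htS
    · rw [hu1]; ring
    · rw [ht2]; ring
    · rw [r1]
      have h3 : Cn ((ζ ∪ (F ∪ (ω ∩ XX L a T n1 n2))) ∩ ED L a T) u b :=
        cuc.mono (subset_inter hκ hκD)
      exact h3
    · rw [r2]
      have h3 : Cn ((ζ ∪ (F ∪ (ω ∩ XX L a T n1 n2))) ∩ ES2 a T) b t := by
        refine (h2.conn b hbC t htC).mono (subset_inter (hXs2.trans hκ) ?_)
        exact inter_subset_right.trans (Xs_subset _ _)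
      exact h3

theorem KLProb (hq : 1 ≤ q) (hE : NL E) (hF : NL F) (ha : 1 ≤ a) (haL : a ≤ L) (hT : 1 ≤ T)
    (hD : edgesIn (rect (x - L) (x + a) y (y + T)) ⊆ E) :
    P q E F (fun ω => hor (x - L) x y (y + T) ω ∧
      link (rect (x - a) (x + a) y (y + T)) (fun v => v.2 = y ∧ v.1 ≤ x) (fun v => v.2 = y + T) ω)
      ≤ (1 + √q) * P q E F (KLgoal x y L a T) := by
  have hq0 : (0 : ℝ) < q := by linarith
  set σ := Pool.Agent.H95.Perc.trans x y with hσ
  have hAut : Pool.Agent.H95.Perc.IsAut σ := Pool.Agent.H95.Perc.isAut_trans x y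
  have hinj : ∀ S : Set (ℤ × ℤ), Set.InjOn (σ : ℤ × ℤ → ℤ × ℤ) S := fun S => σ.injective.injOn
  have hinj' : ∀ S : Set (ℤ × ℤ), Set.InjOn (σ.symm : ℤ × ℤ → ℤ × ℤ) S :=
    fun S => σ.symm.injective.injOn
  have himg : ∀ G : Finset (Sym2 (ℤ × ℤ)), img σ (img σ.symm G) = G := by
    intro G
    unfold img
    rw [image_image, ← Sym2.map_comp]
    have : (σ : ℤ × ℤ → ℤ × ℤ) ∘ σ.symm = id := by ext v <;> simp
    rw [this, Sym2.map_id, image_id]
  have hNE : NL (img σ.symm E) := NL_img (hinj' _) hE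
  have hNF : NL (img σ.symm F) := NL_img (hinj' _) hF
  have hD' : edgesIn (rect (-L) a 0 T) ⊆ img σ.symm E := by
    intro e he
    have h1 : Sym2.map σ e ∈ edgesIn (rect (x - L) (x + a) y (y + T)) := by
      have h2 : rect (x - L) (x + a) y (y + T) = (rect (-L) a 0 T).image σ := by
        rw [hσ, Pool.Agent.H95.Perc.rect_trans]; congr 1 <;> ring
      rw [h2, Pool.Agent.H95.Perc.edgesIn_image hAut]
      exact mem_image_of_mem _ he
    unfold img
    rw [mem_image]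
    refine ⟨_, hD h1, ?_⟩
    rw [Sym2.map_map]
    have : (σ.symm : ℤ × ℤ → ℤ × ℤ) ∘ σ = id := by ext v <;> simp
    rw [this, Sym2.map_id, id]
  have key := KLProb0 hq hNE hNF ha haL hT hD'
  have e1 : ∀ A : Finset (Sym2 (ℤ × ℤ)) → Prop,
      P q E F A = P q (img σ.symm E) (img σ.symm F) (fun ω => A (img σ ω)) := by
    intro A
    have := P_map hq0 hNE hNF (hinj _) A
    rwa [himg, himg] at this
  rw [e1, e1 (KLgoal x y L a T)]
  have hact : ∀ ω : Finset (Sym2 (ℤ × ℤ)), img σ ω = Pool.Agent.H95.Perc.act σ ω := fun _ => rfl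
  refine le_trans (le_of_eq ?_) (key.trans (mul_le_mul_of_nonneg_left (le_of_eq ?_) (by positivity)))
  · refine P_congr fun ζ _ => and_congr ?_ ?_
    · unfold A1 hor
      rw [hact]
      have h2 : rect (x - L) x y (y + T) = (rect (-L) 0 0 T).image σ := by
        rw [hσ, Pool.Agent.H95.Perc.rect_trans]; congr 1 <;> ring
      rw [h2, Pool.Agent.H95.Perc.link_act hAut]
      have g1 : (fun v : ℤ × ℤ => (σ v).1 = x - L) = (fun v => v.1 = -L) := by
        ext v; simp only [hσ, Pool.Agent.H95.Perc.trans, Equiv.coe_fn_mk]; constructor <;> intro h <;> linarith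
      have g2 : (fun v : ℤ × ℤ => (σ v).1 = x) = (fun v => v.1 = 0) := by
        ext v; simp only [hσ, Pool.Agent.H95.Perc.trans, Equiv.coe_fn_mk]; constructor <;> intro h <;> linarith
      rw [g1, g2]
    · unfold A2
      rw [hact]
      have h2 : rect (x - a) (x + a) y (y + T) = (rect (-a) a 0 T).image σ := by
        rw [hσ, Pool.Agent.H95.Perc.rect_trans]; congr 1 <;> ring
      rw [h2, Pool.Agent.H95.Perc.link_act hAut]
      have g1 : (fun v : ℤ × ℤ => (σ v).2 = y ∧ (σ v).1 ≤ x) = (fun v => v.2 = 0 ∧ v.1 ≤ 0) := by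
        ext v; simp only [hσ, Pool.Agent.H95.Perc.trans, Equiv.coe_fn_mk]
        constructor <;> rintro ⟨h, h'⟩ <;> constructor <;> linarith
      have g2 : (fun v : ℤ × ℤ => (σ v).2 = y + T) = (fun v => v.2 = T) := by
        ext v; simp only [hσ, Pool.Agent.H95.Perc.trans, Equiv.coe_fn_mk]; constructor <;> intro h <;> linarith
      rw [g1, g2]
  · refine P_congr fun ζ _ => ?_
    have h1 : rect (x - L) (x + a) y (y + T) = (rect (0 - L) (0 + a) 0 (0 + T)).image σ := by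
      rw [hσ, Pool.Agent.H95.Perc.rect_trans]; congr 1 <;> ring
    have h2 : rect (x - a) (x + a) y (y + T) = (rect (0 - a) (0 + a) 0 (0 + T)).image σ := by
      rw [hσ, Pool.Agent.H95.Perc.rect_trans]; congr 1 <;> ring
    unfold KLgoal
    rw [hact, h1, h2]
    constructor
    · rintro ⟨u, b, t, g1, g2, g3, g4, g5, g6, g7, g8⟩
      refine ⟨σ u, σ b, σ t, mem_image_of_mem _ g1, mem_image_of_mem _ g2, mem_image_of_mem _ g3,
        ?_, ?_, ?_, (Pool.Agent.H95.Perc.conn_act hAut).mpr g7,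
        (Pool.Agent.H95.Perc.conn_act hAut).mpr g8⟩
      · simp only [hσ, Pool.Agent.H95.Perc.trans, Equiv.coe_fn_mk]; linarith
      · simp only [hσ, Pool.Agent.H95.Perc.trans, Equiv.coe_fn_mk]; linarith
      · simp only [hσ, Pool.Agent.H95.Perc.trans, Equiv.coe_fn_mk]; linarith
    · rintro ⟨u, b, t, g1, g2, g3, g4, g5, g6, g7, g8⟩
      obtain ⟨u, rfl⟩ := σ.surjective u
      obtain ⟨b, rfl⟩ := σ.surjective b
      obtain ⟨t, rfl⟩ := σ.surjective t
      rw [Pool.Agent.H95.Perc.mem_image_equiv, Equiv.symm_apply_apply] at g1 g2 g3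
      refine ⟨u, b, t, g1, g2, g3, ?_, ?_, ?_, (Pool.Agent.H95.Perc.conn_act hAut).mp g7,
        (Pool.Agent.H95.Perc.conn_act hAut).mp g8⟩
      · simp only [hσ, Pool.Agent.H95.Perc.trans, Equiv.coe_fn_mk] at g4; linarith
      · simp only [hσ, Pool.Agent.H95.Perc.trans, Equiv.coe_fn_mk] at g5; linarith
      · simp only [hσ, Pool.Agent.H95.Perc.trans, Equiv.coe_fn_mk] at g6; linarith

end Pool.Agent.FKR
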