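import Pool.Agent.FKR.KLDefs

/-! # FKR/KLV1 (MP_b3e76a_pr): ends of active edges near the explored region

`tau_eh`, `tau_ev`, injectivity of `tau`.
`class1`: if all faces of `Phi1` incident to `u ∈ S1` ... (used everywhere): if `u ∈ rect (-L) 0 0 T`,
`u ∉ C1` and some face of `n1` is incident to `u`, then every face of `Phi1` incident to `u` is in `n1`
(this is just `mem_C`). Same for `class2`.
`V1a`: `u` is an end of `e ∈ EG`, `u` incident to a face of `n1` ⟹ `u ∈ C1`. Proof: suppose `u ∉ C1`, `u = (x, y)`;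
faces of `Phi1` have `i ≤ -1`, so `x ≤ 0`, and `u ∈ S1` (as `e ∈ ES2`, `a ≤ L`). All faces of `Phi1` around `u` are
in `n1` (`class1`), so every edge of `ES1` at `u` is explored (each has a side in `Phi1`). If `x < 0`
all edges of `ES2` at `u` are in `ES1`, contradiction with `e ∈ E0`. So `x = 0` and
`e = eh 0 y` (other edges of `ES2` at `(0, y)` are in `ES1`: `eh (-1) y`, `ev 0 y`, `ev 0 (y-1)`, all with a side
`(-1, y)` or `(-1, y-1)`, both in `n1`). Now `e ∈ EG` means `e ∈ E0` and (`tau e ∈ E0` or `e = tau e'`, `e' ∈ E0`,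
`tau e' ∈ E0`). `tau (eh 0 y) = ev (-1) y` has the side `(-1, y) ∈ n1`: if it is in `ES2` it is in `ES1` and
explored. `e' = ev (-1) (y - 1)` (as `tau (ev x' y') = eh (-1 - x') (y' + 1)`) has the side `(-1, y-1) ∈ n1`, explored.
`V1b`: same for `n2`: if `u ∉ C2`, all faces of `Phi2` around `u ∈ S2` are in `n2`; every edge of `ES2` at `u` has a
side in `Phi2` incident to `u`, so it is explored. Contradiction.
`EG_subset` etc.: trivial facts. -/

namespace Pool.Agent.FKR

open Finset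
open Pool.Agent.H95.Wedge (openGraph W Good selfDual clusters)
open Pool.Agent.H95.Perc (Inc conn link rect hor ver eh ev sumE sepE Inci mem_rect)
open Pool.Agent.H95.SumRule (edgesIn Z2)

theorem tau_eh (x y : ℤ) : tau (eh x y) = ev (-1 - x) y := by
  unfold tau
  rw [star_eh]
  simp only [ev, Sym2.map_mk, tauV, Equiv.coe_fn_mk]
  rw [show y - 1 + 1 = y by ring]

theorem tau_ev (x y : ℤ) : tau (ev x y) = eh (-1 - x) (y + 1) := by
  unfold tau
  rw [star_ev]
  simp only [eh, Sym2.map_mk, tauV, Equiv.coe_fn_mk]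
  rw [show -1 - (x - 1) = -1 - x + 1 by ring, show x - 1 + 1 = x by ring, Sym2.eq_swap]

theorem tau_injOn (V : Finset (ℤ × ℤ)) : Set.InjOn tau (edgesIn V : Set (Sym2 (ℤ × ℤ))) := by
  intro e he e' he' h
  exact star_injOn V he he' (Sym2.map.injective tauV.injective h)

variable {L a T : ℤ} {n1 n2 : Finset (ℤ × ℤ)} {ω : Finset (Sym2 (ℤ × ℤ))} {C1 C2 : Finset (ℤ × ℤ)}

theorem Em_subset_E0 : Em L a T n1 n2 ⊆ E0 L a T n1 n2 := filter_subset _ _

theorem Ec_subset_E0 : Ec L a T n1 n2 ⊆ E0 L a T n1 n2 := by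
  intro e he
  unfold Ec at he
  rw [mem_image] at he
  obtain ⟨e', he', rfl⟩ := he
  exact (mem_filter.mp he').2

theorem EG_subset_E0 : EG L a T n1 n2 ⊆ E0 L a T n1 n2 := union_subset Em_subset_E0 Ec_subset_E0

theorem E0_subset_ES2 : E0 L a T n1 n2 ⊆ ES2 a T := sdiff_subset

theorem ES2_subset_ED (h : a ≤ L) : ES2 a T ⊆ ED L a T :=
  Pool.Agent.H95.Perc.edgesIn_mono
    (Pool.Agent.H95.Perc.rect_mono (by omega) le_rfl le_rfl le_rfl)

theorem ES1_subset_ED (h : 0 ≤ a) : ES1 L T ⊆ ED L a T :=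
  Pool.Agent.H95.Perc.edgesIn_mono
    (Pool.Agent.H95.Perc.rect_mono le_rfl h le_rfl le_rfl)

private theorem mem_Xs_kl {E : Finset (Sym2 (ℤ × ℤ))} {n : Finset (ℤ × ℤ)} {e : Sym2 (ℤ × ℤ)} :
    e ∈ Xs E n ↔ e ∈ E ∧ touch n e := by
  classical
  unfold Xs
  rw [mem_filter]

/-- an explored edge touches `n1` or `n2`; its ends are incident to faces of `n1` or `n2` -/
theorem inci_of_Xs {E : Finset (Sym2 (ℤ × ℤ))} {V : Finset (ℤ × ℤ)} (hE : E ⊆ edgesIn V)
    {n : Finset (ℤ × ℤ)} {e : Sym2 (ℤ × ℤ)} (he : e ∈ Xs E n) {u : ℤ × ℤ} (hu : u ∈ e) :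
    ∃ f ∈ n, Inci f u := by
  rw [mem_Xs_kl] at he
  obtain ⟨f, hf, hfe⟩ := he.2
  exact ⟨f, hf, inci_of_side (hE he.1) hfe hu⟩

theorem class1 (h : KLF1 L T n1 ω C1) {u : ℤ × ℤ} (hu : u ∈ rect (-L) 0 0 T) (hC : u ∉ C1)
    (hn : ∃ f ∈ n1, Inci f u) {g : ℤ × ℤ} (hg : g ∈ Phi1 L T) (hgu : Inci g u) : g ∈ n1 := by
  by_contra hg'
  exact hC ((h.mem_C u).mpr ⟨hu, hn, g, hg, hg', hgu⟩)

theorem class2 (h : KLF2 a T n2 ω C2) {u : ℤ × ℤ} (hu : u ∈ rect (-a) a 0 T) (hC : u ∉ C2)
    (hn : ∃ f ∈ n2, Inci f u) {g : ℤ × ℤ} (hg : g ∈ Phi2 a T) (hgu : Inci g u) : g ∈ n2 := by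
  by_contra hg'
  exact hC ((h.mem_C u).mpr ⟨hu, hn, g, hg, hg', hgu⟩)

private lemma mem_star_eh {x y : ℤ} : ((x, y) : ℤ × ℤ) ∈ star (eh x y) ∧
    ((x, y - 1) : ℤ × ℤ) ∈ star (eh x y) := by
  rw [star_eh, mem_ev, mem_ev]
  exact ⟨Or.inr (by rw [show y - 1 + 1 = y by ring]), Or.inl rfl⟩

private lemma mem_star_ev {x y : ℤ} : ((x, y) : ℤ × ℤ) ∈ star (ev x y) ∧
    ((x - 1, y) : ℤ × ℤ) ∈ star (ev x y) := by
  rw [star_ev, mem_eh, mem_eh]
  exact ⟨Or.inr (by rw [show x - 1 + 1 = x by ring]), Or.inl rfl⟩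

private lemma not_E0_1 {e : Sym2 (ℤ × ℤ)} (h0 : e ∈ E0 L a T n1 n2) (h1 : e ∈ ES1 L T) {f : ℤ × ℤ}
    (hf : f ∈ n1) (hfe : f ∈ star e) : False := by
  unfold E0 XX at h0
  rw [mem_sdiff, mem_union, not_or] at h0
  exact h0.2.1 (mem_Xs_kl.mpr ⟨h1, f, hf, hfe⟩)

private lemma not_E0_2 {e : Sym2 (ℤ × ℤ)} (h0 : e ∈ E0 L a T n1 n2) {f : ℤ × ℤ}
    (hf : f ∈ n2) (hfe : f ∈ star e) : False := by
  have h2 := E0_subset_ES2 h0
  unfold E0 XX at h0
  rw [mem_sdiff, mem_union, not_or] at h0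
  exact h0.2.2 (mem_Xs_kl.mpr ⟨h2, f, hf, hfe⟩)

theorem V1a (h1 : KLF1 L T n1 ω C1) (ha : 1 ≤ a) (haL : a ≤ L) {e : Sym2 (ℤ × ℤ)}
    (he : e ∈ EG L a T n1 n2) {u : ℤ × ℤ} (hu : u ∈ e) (hn : ∃ f ∈ n1, Inci f u) : u ∈ C1 := by
  by_contra hC
  have h0 := EG_subset_E0 he
  have h2 := E0_subset_ES2 h0
  obtain ⟨f, hf, hfu⟩ := hn
  have hfP := h1.sub hf
  unfold Phi1 at hfP
  rw [mem_rect] at hfP
  simp only [Inci] at hfu
  have hcl : ∀ i j : ℤ, u ∈ rect (-L) 0 0 T → -L ≤ i → i ≤ -1 → -1 ≤ j → j ≤ T → Inci (i, j) u →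
      ((i, j) : ℤ × ℤ) ∈ n1 := by
    intro i j hu' a1 a2 a3 a4 a5
    refine class1 h1 hu' hC ⟨f, hf, hfu⟩ ?_ a5
    unfold Phi1
    rw [mem_rect]
    exact ⟨a1, a2, a3, a4⟩
  obtain ⟨x0, y0, rfl | rfl⟩ := edgesIn_cases h2
  · have h2' := h2
    unfold ES2 at h2'
    rw [eh_mem_edgesIn_rect] at h2'
    by_cases hx : x0 + 1 ≤ 0
    · have hi : ((x0, y0) : ℤ × ℤ) ∈ n1 := by
        rw [mem_eh] at hu
        rcases hu with rfl | rfl
        · exact hcl _ _ (by rw [mem_rect]; simp only; omega) (by omega) (by omega) (by omega) (by omega)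
            (by simp only [Inci]; omega)
        · exact hcl _ _ (by rw [mem_rect]; simp only; omega) (by omega) (by omega) (by omega) (by omega)
            (by simp only [Inci]; omega)
      refine not_E0_1 h0 ?_ hi mem_star_eh.1
      unfold ES1
      rw [eh_mem_edgesIn_rect]
      omega
    · rw [mem_eh] at hu
      have hu' : u = (0, y0) ∧ x0 = 0 := by
        rcases hu with rfl | rfl
        · simp only at hfu
          exact ⟨by rw [show x0 = 0 by omega], by omega⟩
        · simp only at hfu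
          omega
      obtain ⟨rfl, rfl⟩ := hu'
      have hr : ((0, y0) : ℤ × ℤ) ∈ rect (-L) 0 0 T := by rw [mem_rect]; simp only; omega
      have i1 := hcl (-1) y0 hr (by omega) (by omega) (by omega) (by omega)
        (by simp only [Inci]; omega)
      have i2 := hcl (-1) (y0 - 1) hr (by omega) (by omega) (by omega) (by omega)
        (by simp only [Inci]; omega)
      unfold EG at he
      rw [mem_union] at he
      rcases he with he | he
      · have h3 := (mem_filter.mp he).2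
        rw [tau_eh, show (-1 : ℤ) - 0 = -1 by ring] at h3
        have h4 := E0_subset_ES2 h3
        unfold ES2 at h4
        rw [ev_mem_edgesIn_rect] at h4
        refine not_E0_1 h3 ?_ i1 mem_star_ev.1
        unfold ES1
        rw [ev_mem_edgesIn_rect]
        omega
      · unfold Ec at he
        rw [mem_image] at he
        obtain ⟨e', he', heq⟩ := he
        have h3 := Em_subset_E0 he'
        have h4 := E0_subset_ES2 h3
        obtain ⟨x', y', rfl | rfl⟩ := edgesIn_cases h4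
        · rw [tau_eh] at heq
          exact eh_ne_ev heq.symm
        · rw [tau_ev, eh_inj] at heq
          obtain ⟨rfl, rfl⟩ : x' = -1 ∧ y' = y0 - 1 := by omega
          unfold ES2 at h4
          rw [ev_mem_edgesIn_rect] at h4
          refine not_E0_1 h3 ?_ i2 mem_star_ev.1
          unfold ES1
          rw [ev_mem_edgesIn_rect]
          omega
  · have h2' := h2
    unfold ES2 at h2'
    rw [ev_mem_edgesIn_rect] at h2'
    have hx : x0 ≤ 0 := by
      rw [mem_ev] at hu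
      rcases hu with rfl | rfl
      · simp only at hfu; omega
      · simp only at hfu; omega
    have hE1 : ev x0 y0 ∈ ES1 L T := by
      unfold ES1
      rw [ev_mem_edgesIn_rect]
      omega
    by_cases hx0 : x0 ≤ -1
    · have hi : ((x0, y0) : ℤ × ℤ) ∈ n1 := by
        rw [mem_ev] at hu
        rcases hu with rfl | rfl
        · exact hcl _ _ (by rw [mem_rect]; simp only; omega) (by omega) (by omega) (by omega) (by omega)
            (by simp only [Inci]; omega)
        · exact hcl _ _ (by rw [mem_rect]; simp only; omega) (by omega) (by omega) (by omega) (by omega)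
            (by simp only [Inci]; omega)
      exact not_E0_1 h0 hE1 hi mem_star_ev.1
    · have hi : ((x0 - 1, y0) : ℤ × ℤ) ∈ n1 := by
        rw [mem_ev] at hu
        rcases hu with rfl | rfl
        · exact hcl _ _ (by rw [mem_rect]; simp only; omega) (by omega) (by omega) (by omega) (by omega)
            (by simp only [Inci]; omega)
        · exact hcl _ _ (by rw [mem_rect]; simp only; omega) (by omega) (by omega) (by omega) (by omega)
            (by simp only [Inci]; omega)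
      exact not_E0_1 h0 hE1 hi mem_star_ev.2

theorem V1b (h2 : KLF2 a T n2 ω C2) {e : Sym2 (ℤ × ℤ)}
    (he : e ∈ EG L a T n1 n2) {u : ℤ × ℤ} (hu : u ∈ e) (hn : ∃ f ∈ n2, Inci f u) : u ∈ C2 := by
  by_contra hC
  have h0 := EG_subset_E0 he
  have h3 := E0_subset_ES2 h0
  have hcl : ∀ i j : ℤ, u ∈ rect (-a) a 0 T → -a - 1 ≤ i → i ≤ a → -1 ≤ j → j ≤ T - 1 →
      Inci (i, j) u → ((i, j) : ℤ × ℤ) ∈ n2 := by
    intro i j hu' a1 a2 a3 a4 a5
    refine class2 h2 hu' hC hn ?_ a5
    unfold Phi2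
    rw [mem_rect]
    exact ⟨a1, a2, a3, a4⟩
  obtain ⟨x0, y0, rfl | rfl⟩ := edgesIn_cases h3
  · unfold ES2 at h3
    rw [eh_mem_edgesIn_rect] at h3
    have hi : ((x0, y0 - 1) : ℤ × ℤ) ∈ n2 := by
      rw [mem_eh] at hu
      rcases hu with rfl | rfl
      · exact hcl _ _ (by rw [mem_rect]; simp only; omega) (by omega) (by omega) (by omega) (by omega)
          (by simp only [Inci]; omega)
      · exact hcl _ _ (by rw [mem_rect]; simp only; omega) (by omega) (by omega) (by omega) (by omega)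
          (by simp only [Inci]; omega)
    exact not_E0_2 h0 hi mem_star_eh.2
  · unfold ES2 at h3
    rw [ev_mem_edgesIn_rect] at h3
    have hi : ((x0, y0) : ℤ × ℤ) ∈ n2 := by
      rw [mem_ev] at hu
      rcases hu with rfl | rfl
      · exact hcl _ _ (by rw [mem_rect]; simp only; omega) (by omega) (by omega) (by omega) (by omega)
          (by simp only [Inci]; omega)
      · exact hcl _ _ (by rw [mem_rect]; simp only; omega) (by omega) (by omega) (by omega) (by omega)
          (by simp only [Inci]; omega)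
    exact not_E0_2 h0 hi mem_star_ev.1

end Pool.Agent.FKR
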