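import Pool.Agent.FKR.Faces
import Pool.Agent.FKR.EvenGraph
import Pool.Agent.FKR.ADual

/-! # FKR/RectH1 (MP_b3e76a_pr): planar duality in a rectangle, the topological half

`ring` consists of the dual edges in the face rectangle `rect (x0-1) x1 (y0-1) y1` which are not dual to
edges of `rect x0 x1 y0 y1`; they are the edges between two faces of the outer ring
(`i = x0 - 1`, `i = x1`, `j = y0 - 1` or `j = y1`), and they connect all faces of the outer ring.

`rect_h1`: let `ω ⊆ A := edgesIn (rect x0 x1 y0 y1)`, `s(x, y) ∈ A \ ω`, `star s(x, y) = s(f, g)`, and suppose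
that `f`, `g` are not connected in `D := ((A \ ω).erase s(x, y)).image star ∪ ring`. Then the
component `U` of `f` or the component of `g` in `D` contains no face of the outer ring (otherwise
`f` and `g` are connected through the ring); it consists of faces `(i, j)`, `x0 ≤ i < x1`, `y0 ≤ j < y1`
(if it is the component of an inner face; a component within `D` of a face of the rectangle stays in the
rectangle). All edges of `bd U` are in `A`; `s(x, y) ∈ bd U`; any other edge `e'` of `bd U` is in `ω`: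
otherwise `star e' ∈ D` joins a face of `U` to a face outside `U`. By `even_bd` and `even_connect`,
`x` and `y` are connected in `(bd U).erase s(x, y) ⊆ ω`. -/

namespace Pool.Agent.FKR

open Finset
open Pool.Agent.H95.Wedge (openGraph W Good selfDual clusters)
open Pool.Agent.H95.Perc (Inc conn link rect hor ver eh ev sumE sepE Inci mem_rect)
open Pool.Agent.H95.SumRule (edgesIn Z2)

/-- the dual edges around a rectangle -/
noncomputable def ring (x0 x1 y0 y1 : ℤ) : Finset (Sym2 (ℤ × ℤ)) :=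
  edgesIn (rect (x0 - 1) x1 (y0 - 1) y1) \ (edgesIn (rect x0 x1 y0 y1)).image star

/-- face of the outer ring -/
def Rg (x0 x1 y0 y1 : ℤ) (f : ℤ × ℤ) : Prop :=
  f ∈ rect (x0 - 1) x1 (y0 - 1) y1 ∧ (f.1 = x0 - 1 ∨ f.1 = x1 ∨ f.2 = y0 - 1 ∨ f.2 = y1)

variable {x0 x1 y0 y1 : ℤ}

theorem star_edgesIn_subset :
    (edgesIn (rect x0 x1 y0 y1)).image star ⊆ edgesIn (rect (x0 - 1) x1 (y0 - 1) y1) := by
  intro e' he'
  rw [mem_image] at he'
  obtain ⟨e, he, rfl⟩ := he'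
  obtain ⟨x, y, rfl | rfl⟩ := edgesIn_cases he
  · rw [eh_mem_edgesIn_rect] at he
    rw [star_eh, ev_mem_edgesIn_rect]
    omega
  · rw [ev_mem_edgesIn_rect] at he
    rw [star_ev, eh_mem_edgesIn_rect]
    omega

private theorem eh_mem_image_star {x y : ℤ} :
    eh x y ∈ (edgesIn (rect x0 x1 y0 y1)).image star ↔ ev (x + 1) y ∈ edgesIn (rect x0 x1 y0 y1) := by
  rw [mem_image]
  constructor
  · rintro ⟨e, he, h⟩
    obtain ⟨x', y', rfl | rfl⟩ := edgesIn_cases he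
    · rw [star_eh] at h
      exact absurd h.symm eh_ne_ev
    · rw [star_ev, eh_inj] at h
      obtain ⟨rfl, rfl⟩ := h
      rwa [sub_add_cancel]
  · intro h
    exact ⟨_, h, by rw [star_ev, add_sub_cancel_right]⟩

private theorem ev_mem_image_star {x y : ℤ} :
    ev x y ∈ (edgesIn (rect x0 x1 y0 y1)).image star ↔ eh x (y + 1) ∈ edgesIn (rect x0 x1 y0 y1) := by
  rw [mem_image]
  constructor
  · rintro ⟨e, he, h⟩
    obtain ⟨x', y', rfl | rfl⟩ := edgesIn_cases he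
    · rw [star_eh, ev_inj] at h
      obtain ⟨rfl, rfl⟩ := h
      rwa [sub_add_cancel]
    · rw [star_ev] at h
      exact absurd h eh_ne_ev
  · intro h
    exact ⟨_, h, by rw [star_eh, add_sub_cancel_right]⟩

private theorem eh_mem_ring {x y : ℤ} (hx : x0 < x1) (hy : y0 < y1) : eh x y ∈ ring x0 x1 y0 y1 ↔
    x0 - 1 ≤ x ∧ x + 1 ≤ x1 ∧ (y = y0 - 1 ∨ y = y1) := by
  unfold ring
  rw [mem_sdiff, eh_mem_image_star, eh_mem_edgesIn_rect, ev_mem_edgesIn_rect]
  omega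

private theorem ev_mem_ring {x y : ℤ} (hx : x0 < x1) (hy : y0 < y1) : ev x y ∈ ring x0 x1 y0 y1 ↔
    y0 - 1 ≤ y ∧ y + 1 ≤ y1 ∧ (x = x0 - 1 ∨ x = x1) := by
  unfold ring
  rw [mem_sdiff, ev_mem_image_star, ev_mem_edgesIn_rect, eh_mem_edgesIn_rect]
  omega

theorem mem_ring {f g : ℤ × ℤ} (hx : x0 < x1) (hy : y0 < y1) : s(f, g) ∈ ring x0 x1 y0 y1 ↔
    Rg x0 x1 y0 y1 f ∧ Rg x0 x1 y0 y1 g ∧ Z2.Adj f g := by
  obtain ⟨a, b⟩ := f
  obtain ⟨c, d⟩ := g
  have key : Z2.Adj (a, b) (c, d) → (s((a, b), (c, d)) ∈ ring x0 x1 y0 y1 ↔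
      Rg x0 x1 y0 y1 (a, b) ∧ Rg x0 x1 y0 y1 (c, d)) := by
    intro h
    unfold Rg
    rw [mem_rect, mem_rect]
    dsimp only
    rw [Z2_adj_iff] at h
    rcases h with ⟨rfl, rfl | rfl⟩ | ⟨rfl, rfl | rfl⟩
    · have : s((a, d + 1), (a, d)) = ev a d := by rw [ev, Sym2.eq_swap]
      rw [this, ev_mem_ring hx hy]; omega
    · have : s((a, b), (a, b + 1)) = ev a b := by rw [ev]
      rw [this, ev_mem_ring hx hy]; omega
    · have : s((c + 1, b), (c, b)) = eh c b := by rw [eh, Sym2.eq_swap]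
      rw [this, eh_mem_ring hx hy]; omega
    · have : s((a, b), (a + 1, b)) = eh a b := by rw [eh]
      rw [this, eh_mem_ring hx hy]; omega
  constructor
  · intro h
    have hadj : Z2.Adj (a, b) (c, d) := by
      have h1 := (mem_sdiff.1 h).1
      rw [Pool.Agent.H95.Perc.mem_edgesIn'] at h1
      exact h1.2.2
    exact ⟨((key hadj).1 h).1, ((key hadj).1 h).2, hadj⟩
  · rintro ⟨h1, h2, h3⟩
    exact (key h3).2 ⟨h1, h2⟩

private theorem row_Cn {ω : Finset (Sym2 (ℤ × ℤ))} {a b y : ℤ} (hab : a ≤ b)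
    (h : ∀ i, a ≤ i → i < b → eh i y ∈ ω) : Cn ω (a, y) (b, y) := by
  induction b, hab using Int.leInduction with
  | base => exact Cn_refl _ _
  | succ n hn ih =>
    refine (ih fun i h1 h2 => h i h1 (by omega)).trans ?_
    exact Cn_edge (h n hn (by omega))

private theorem col_Cn {ω : Finset (Sym2 (ℤ × ℤ))} {a b x : ℤ} (hab : a ≤ b)
    (h : ∀ i, a ≤ i → i < b → ev x i ∈ ω) : Cn ω (x, a) (x, b) := by
  induction b, hab using Int.leInduction with
  | base => exact Cn_refl _ _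
  | succ n hn ih =>
    refine (ih fun i h1 h2 => h i h1 (by omega)).trans ?_
    exact Cn_edge (h n hn (by omega))

theorem ring_connected (hx : x0 < x1) (hy : y0 < y1) {f g : ℤ × ℤ} (hf : Rg x0 x1 y0 y1 f)
    (hg : Rg x0 x1 y0 y1 g) : Cn (ring x0 x1 y0 y1) f g := by
  have hrow : ∀ x y, x0 - 1 ≤ x → x ≤ x1 → (y = y0 - 1 ∨ y = y1) →
      Cn (ring x0 x1 y0 y1) (x0 - 1, y) (x, y) := fun x y h1 h2 h3 =>
    row_Cn h1 fun i h4 h5 => (eh_mem_ring hx hy).2 ⟨h4, by omega, h3⟩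
  have hcol : ∀ x y, y0 - 1 ≤ y → y ≤ y1 → (x = x0 - 1 ∨ x = x1) →
      Cn (ring x0 x1 y0 y1) (x, y0 - 1) (x, y) := fun x y h1 h2 h3 =>
    col_Cn h1 fun i h4 h5 => (ev_mem_ring hx hy).2 ⟨h4, by omega, h3⟩
  have key : ∀ f, Rg x0 x1 y0 y1 f → Cn (ring x0 x1 y0 y1) (x0 - 1, y0 - 1) f := by
    rintro ⟨a, b⟩ ⟨h1, h2⟩
    rw [mem_rect] at h1
    dsimp only at h1 h2
    rcases h2 with rfl | rfl | rfl | rfl
    · exact hcol _ _ (by omega) (by omega) (Or.inl rfl)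
    · exact (hrow a (y0 - 1) (by omega) (by omega) (Or.inl rfl)).trans
        (hcol _ _ (by omega) (by omega) (Or.inr rfl))
    · exact hrow _ _ (by omega) (by omega) (Or.inl rfl)
    · exact (hcol (x0 - 1) b (by omega) (by omega) (Or.inl rfl)).trans
        (hrow _ _ (by omega) (by omega) (Or.inr rfl))
  exact (key f hf).symm.trans (key g hg)

private theorem rect_h1_aux {ω : Finset (Sym2 (ℤ × ℤ))}
    {x y : ℤ × ℤ} (he : s(x, y) ∈ edgesIn (rect x0 x1 y0 y1))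
    {f g : ℤ × ℤ} (hfg : star s(x, y) = s(f, g))
    (hn : ¬ Cn (((edgesIn (rect x0 x1 y0 y1) \ ω).erase s(x, y)).image star ∪ ring x0 x1 y0 y1) f g)
    (hR : ∀ f', Rg x0 x1 y0 y1 f' →
      ¬ Cn (((edgesIn (rect x0 x1 y0 y1) \ ω).erase s(x, y)).image star ∪ ring x0 x1 y0 y1) f f') :
    Cn ω x y := by
  classical
  obtain ⟨D, hD⟩ : ∃ D, D = ((edgesIn (rect x0 x1 y0 y1) \ ω).erase s(x, y)).image star ∪
    ring x0 x1 y0 y1 := ⟨_, rfl⟩
  rw [← hD] at hn hR
  obtain ⟨U, hU⟩ : ∃ U : Finset (ℤ × ℤ), U = (rect (x0 - 1) x1 (y0 - 1) y1).filter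
    fun f' => Cn D f f' := ⟨_, rfl⟩
  have hmU : ∀ f', f' ∈ U ↔ f' ∈ rect (x0 - 1) x1 (y0 - 1) y1 ∧ Cn D f f' := by
    intro f'; rw [hU, mem_filter]
  have hin : ∀ f' ∈ U, x0 ≤ f'.1 ∧ f'.1 < x1 ∧ y0 ≤ f'.2 ∧ f'.2 < y1 := by
    intro f' hf'
    rw [hmU] at hf'
    have h1 := hR f'
    unfold Rg at h1
    have h2 : ¬ (f'.1 = x0 - 1 ∨ f'.1 = x1 ∨ f'.2 = y0 - 1 ∨ f'.2 = y1) :=
      fun h3 => h1 ⟨hf'.1, h3⟩ hf'.2
    have h4 := mem_rect.1 hf'.1
    omega
  -- the faces `f`, `g`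
  have hse : star s(x, y) ∈ edgesIn (rect (x0 - 1) x1 (y0 - 1) y1) :=
    star_edgesIn_subset (mem_image_of_mem _ he)
  rw [hfg, Pool.Agent.H95.Perc.mem_edgesIn'] at hse
  have hfU : f ∈ U := (hmU f).2 ⟨hse.1, Cn_refl _ _⟩
  have hgU : g ∉ U := fun h => hn ((hmU g).1 h).2
  -- general: an edge of `bd U` other than `s(x, y)` is in `ω`
  have key : ∀ e', e' ∈ edgesIn (rect x0 x1 y0 y1) → ∀ f1 g1, star e' = s(f1, g1) → f1 ∈ U → g1 ∉ U →
      e' ≠ s(x, y) → e' ∈ ω := by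
    intro e' he' f1 g1 h1 hf1 hg1 hne
    by_contra hcon
    have h2 : s(f1, g1) ∈ D := by
      rw [hD, ← h1]
      exact mem_union_left _ (mem_image_of_mem _ (mem_erase.2 ⟨hne, mem_sdiff.2 ⟨he', hcon⟩⟩))
    have h3 : Cn D f g1 := ((hmU f1).1 hf1).2.trans (Cn_edge h2)
    have h4 : star e' ∈ edgesIn (rect (x0 - 1) x1 (y0 - 1) y1) :=
      star_edgesIn_subset (mem_image_of_mem _ he')
    rw [h1, Pool.Agent.H95.Perc.mem_edgesIn'] at h4
    exact hg1 ((hmU g1).2 ⟨h4.2.1, h3⟩)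
  have hbd : ∀ e' ∈ bd U, e' ≠ s(x, y) → e' ∈ ω := by
    intro e' he' hne
    obtain ⟨a, b, rfl | rfl⟩ := bd_cases he'
    · rw [eh_mem_bd] at he'
      by_cases h1 : (a, b - 1) ∈ U
      · have h2 : (a, b) ∉ U := by tauto
        have h3 := hin _ h1
        dsimp only at h3
        refine key _ ?_ (a, b - 1) (a, b) ?_ h1 h2 hne
        · rw [eh_mem_edgesIn_rect]; omega
        · rw [star_eh, ev, sub_add_cancel]
      · have h2 : (a, b) ∈ U := by tauto
        have h3 := hin _ h2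
        dsimp only at h3
        refine key _ ?_ (a, b) (a, b - 1) ?_ h2 h1 hne
        · rw [eh_mem_edgesIn_rect]; omega
        · rw [star_eh, ev, sub_add_cancel, Sym2.eq_swap]
    · rw [ev_mem_bd] at he'
      by_cases h1 : (a - 1, b) ∈ U
      · have h2 : (a, b) ∉ U := by tauto
        have h3 := hin _ h1
        dsimp only at h3
        refine key _ ?_ (a - 1, b) (a, b) ?_ h1 h2 hne
        · rw [ev_mem_edgesIn_rect]; omega
        · rw [star_ev, eh, sub_add_cancel]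
      · have h2 : (a, b) ∈ U := by tauto
        have h3 := hin _ h2
        dsimp only at h3
        refine key _ ?_ (a, b) (a - 1, b) ?_ h2 h1 hne
        · rw [ev_mem_edgesIn_rect]; omega
        · rw [star_ev, eh, sub_add_cancel, Sym2.eq_swap]
  have hebd : s(x, y) ∈ bd U := by
    obtain ⟨a, b, h | h⟩ := edgesIn_cases he
    · rw [h, eh_mem_bd]
      rw [h, star_eh, ev, sub_add_cancel, Sym2.eq_iff] at hfg
      rcases hfg with ⟨rfl, rfl⟩ | ⟨rfl, rfl⟩ <;> tauto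
    · rw [h, ev_mem_bd]
      rw [h, star_ev, eh, sub_add_cancel, Sym2.eq_iff] at hfg
      rcases hfg with ⟨rfl, rfl⟩ | ⟨rfl, rfl⟩ <;> tauto
  refine (even_connect (NL_bd U) (fun v => even_bd U v) hebd).mono ?_
  intro e' he'
  rw [mem_erase] at he'
  exact hbd e' he'.2 he'.1

theorem rect_h1 (hx : x0 < x1) (hy : y0 < y1) {ω : Finset (Sym2 (ℤ × ℤ))}
    (hω : ω ⊆ edgesIn (rect x0 x1 y0 y1)) {x y : ℤ × ℤ} (he : s(x, y) ∈ edgesIn (rect x0 x1 y0 y1))
    (he' : s(x, y) ∉ ω) {f g : ℤ × ℤ} (hfg : star s(x, y) = s(f, g))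
    (hn : ¬ Cn (((edgesIn (rect x0 x1 y0 y1) \ ω).erase s(x, y)).image star ∪ ring x0 x1 y0 y1) f g) :
    Cn ω x y := by
  by_cases h1 : ∀ f', Rg x0 x1 y0 y1 f' →
      ¬ Cn (((edgesIn (rect x0 x1 y0 y1) \ ω).erase s(x, y)).image star ∪ ring x0 x1 y0 y1) f f'
  · exact rect_h1_aux he hfg hn h1
  · push Not at h1
    obtain ⟨f', hf', hff'⟩ := h1
    refine rect_h1_aux he (f := g) (g := f) (by rw [hfg, Sym2.eq_swap]) (fun h => hn h.symm) ?_
    intro g' hg' hgg'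
    exact hn (hff'.trans (((ring_connected hx hy hf' hg').mono subset_union_right).trans hgg'.symm))

end Pool.Agent.FKR
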