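import Pool.Agent.FKR.KLV1
import Pool.Agent.FKR.RectH1
import Pool.Agent.FKR.Join
import Pool.Agent.FKR.MapP

/-! # FKR/KLV2 (MP_b3e76a_pr): boundary connections of the dual measure

`etaD` is the set of frozen open edges of the `τ`-image of the dual measure.
`V2`: let `u` be an end of an edge `e ∈ Ec` and an end of an edge of `etaD`. Then `u` is incident to a face
of `n1` or of `n2`.
Proof. `e = tau e'` with `e' ∈ E0`, `φ = (i, j) := tauV.symm u` is a side of `e'`, `u = (-1-i, j+1) ∈ S2`.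
(i) `φ ∉ n1`, `φ ∉ n2`: if `φ ∈ n2` then `e' ∈ ES2` is explored. If `φ ∈ n1 ⊆ Phi1`, `-L ≤ i ≤ -1`, the edge `e' ∈ ES2` has
the side `φ`, so it is in `ES1`, explored.
The edge of `etaD` at `u` is `Sym2.map tauV` of a dual edge at `φ`: case A: it is `tau f`, `f ∈ ED`, `φ` a side of
`f`, `f ∉ Em`, `f ∉ ω ∩ XX`; case B: it is the image of an edge of the ring, so `Rg (-L) a 0 T φ`.
Case A1: `f ∈ Xs (ES1) n1`, so `f ∉ ω`; `g ∈ n1` is a side of `f`, so `g ≠ φ` is the other side. If
`φ ∈ Phi1` then `opn` gives `f ∈ ω`, contradiction. So `φ ∉ Phi1`, so `f` is vertical (horizontal edges of `ES1`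
have both sides in `Phi1`), and either `f = ev (-L) y`, `φ = (-L-1, y)`: then `e' ∈ ES2` with side `φ` forces `a = L`,
`e' = f`, contradiction (`f` is explored, `e'` not); or `f = ev 0 y`, `φ = (0, y)`, `g = (-1, y) ∈ n1`,
`u = (-1, y+1)`, incident to `g`. Done.
Case A2: `f ∈ Xs (ES2) n2`, `f ∉ ω`; `g ∈ n2` the other side. If `φ ∈ Phi2` then `opn` gives `f ∈ ω` (`f` is in `ES2`, so it
is not an `ev x (-1)`), contradiction. So `φ ∉ Phi2`, and `f = eh x T`, `φ = (x, T)` (all other sides of edges of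
`ES2` are in `Phi2`); the only edge of `ES2` with side `(x, T)` is `eh x T`, so `e' = f`, contradiction.
Case A3: `f ∉ XX`, `f ∈ ES2`: `f ∈ E0 \ Em`, so `tau f ∉ E0`. `u` is an end of `tau f`. If `tau f ∈ XX`, done by
`inci_of_Xs`. Otherwise `tau f ∉ ES2`. By `tau_eh`, `tau_ev`: `f = eh x T`, `tau f = ev (-1-x) T`, or `f = ev a y`,
`tau f = eh (-a-1) (y+1)`. The second is impossible, `f` has the side `(a, y) ∈ n2`. In the first,
`u = (-1-x, T)` (as `u ∈ S2`); if `x ≤ -1` then `(x, T) ∈ n1` (top) is a side of `f ∈ ES1`, so `f` is explored; so `x ≥ 0`, and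
`u` is incident to `(-1-x, T) ∈ n1` (as `-L ≤ -a ≤ -1-x ≤ -1`).
Case A4: `f ∉ XX`, `f ∉ ES2`: `f ∈ ED` has an end with `x < -a`, and has the side `φ` in common with `e' ∈ ES2`, so
`φ = (-a-1, j)`, `e' = ev (-a) j`, `u = (a, j+1)`, incident to `(a, j) ∈ n2` (`0 ≤ j ≤ T-1`).
Case B: `φ` is a ring face and a side of `e' ∈ ES2`. If `i = a`: `φ = (a, j) ∈ n2`, contradiction with (i). If `j = T`:
`u = (-1-i, T+1) ∉ S2`, contradiction. If `j = -1`: `u = (-1-i, 0)`, `-a ≤ i ≤ a - 1`, `φ ∈ Phi2 \ n2`, so by `bot`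
`i < xf ≤ 0`, so `-1-i ≥ 0 ≥ xf`, `(-1-i, -1) ∈ n2` is incident to `u`. If `i = -L-1`: then `a = L` and as in case A4
`u = (a, j+1)` is incident to `(a, j) ∈ n2`.
`hV`: for SDL: if `u ≠ v` are ends of edges of `Ec` connected by `etaD`, both are in `C1 ∪ C2` by `V2`, `V1a`,
`V1b` (`Cn.mem_vts`), and any two vertices of `C1` (of `C2`) are connected in `ω ∩ XX`, `c1` and `c2` by `jn`. -/

namespace Pool.Agent.FKR

open Finset
open Pool.Agent.H95.Wedge (openGraph W Good selfDual clusters)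
open Pool.Agent.H95.Perc (Inc conn link rect hor ver eh ev sumE sepE Inci mem_rect)
open Pool.Agent.H95.SumRule (edgesIn Z2)

variable (L a T : ℤ) (n1 n2 : Finset (ℤ × ℤ)) (ω : Finset (Sym2 (ℤ × ℤ)))

/-- frozen open edges of the image of the dual measure -/
noncomputable def etaD : Finset (Sym2 (ℤ × ℤ)) :=
  (ED L a T \ (Em L a T n1 n2 ∪ ω ∩ XX L a T n1 n2)).image tau ∪ img tauV (ring (-L) a 0 T)

variable {L a T} {n1 n2} {ω} {C1 C2 : Finset (ℤ × ℤ)}

/-- the four edges around a face -/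
theorem side_cases' {e : Sym2 (ℤ × ℤ)} {V : Finset (ℤ × ℤ)} (he : e ∈ edgesIn V) {i j : ℤ}
    (h : ((i, j) : ℤ × ℤ) ∈ star e) :
    e = eh i j ∨ e = eh i (j + 1) ∨ e = ev i j ∨ e = ev (i + 1) j := by
  obtain ⟨x, y, h1 | h1⟩ := edgesIn_cases he
  · subst h1
    rw [star_eh, mem_ev] at h
    simp only [Prod.mk.injEq] at h
    rcases h with ⟨h1, h2⟩ | ⟨h1, h2⟩
    · right; left; rw [eh_inj]; omega
    · left; rw [eh_inj]; omega
  · subst h1
    rw [star_ev, mem_eh] at h
    simp only [Prod.mk.injEq] at h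
    rcases h with ⟨h1, h2⟩ | ⟨h1, h2⟩
    · right; right; right; rw [ev_inj]; omega
    · right; right; left; rw [ev_inj]; omega

theorem touch_eh {n : Finset (ℤ × ℤ)} {x y : ℤ} :
    touch n (eh x y) ↔ (x, y - 1) ∈ n ∨ (x, y) ∈ n := by
  unfold touch
  rw [star_eh]
  constructor
  · rintro ⟨f, hf, h⟩
    rw [mem_ev] at h
    rcases h with rfl | rfl
    · exact Or.inl hf
    · right; convert hf using 2; ring
  · rintro (h | h)
    · exact ⟨_, h, by rw [mem_ev]; exact Or.inl rfl⟩
    · refine ⟨_, h, ?_⟩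
      rw [mem_ev]; right
      ext <;> simp

theorem touch_ev {n : Finset (ℤ × ℤ)} {x y : ℤ} :
    touch n (ev x y) ↔ (x - 1, y) ∈ n ∨ (x, y) ∈ n := by
  unfold touch
  rw [star_ev]
  constructor
  · rintro ⟨f, hf, h⟩
    rw [mem_eh] at h
    rcases h with rfl | rfl
    · exact Or.inl hf
    · right; convert hf using 2; ring
  · rintro (h | h)
    · exact ⟨_, h, by rw [mem_eh]; exact Or.inl rfl⟩
    · refine ⟨_, h, ?_⟩
      rw [mem_eh]; right
      ext <;> simp

/-- an end of `tau f` comes from a side of `f` -/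
theorem side_of_mem_tau {f : Sym2 (ℤ × ℤ)} {i j : ℤ}
    (h : ((-1 - i, j + 1) : ℤ × ℤ) ∈ tau f) : ((i, j) : ℤ × ℤ) ∈ star f := by
  unfold tau at h
  rw [Sym2.mem_map] at h
  obtain ⟨g, hg, h⟩ := h
  have : g = (i, j) := by
    apply tauV.injective
    rw [h]
    simp [tauV]
  rwa [this] at hg

open Classical in
theorem mem_Xs' {E : Finset (Sym2 (ℤ × ℤ))} {n : Finset (ℤ × ℤ)} {e : Sym2 (ℤ × ℤ)} :
    e ∈ Xs E n ↔ e ∈ E ∧ touch n e := by
  unfold Xs
  exact mem_filter

theorem mem_XX' {e : Sym2 (ℤ × ℤ)} : e ∈ XX L a T n1 n2 ↔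
    (e ∈ ES1 L T ∧ touch n1 e) ∨ (e ∈ ES2 a T ∧ touch n2 e) := by
  unfold XX; rw [mem_union, mem_Xs', mem_Xs']

theorem mem_E0' {e : Sym2 (ℤ × ℤ)} : e ∈ E0 L a T n1 n2 ↔
    e ∈ ES2 a T ∧ e ∉ XX L a T n1 n2 := by
  unfold E0; rw [mem_sdiff]

theorem eh_ES1 {x y : ℤ} : eh x y ∈ ES1 L T ↔ -L ≤ x ∧ x + 1 ≤ 0 ∧ 0 ≤ y ∧ y ≤ T := by
  unfold ES1; rw [eh_mem_edgesIn_rect]

theorem ev_ES1 {x y : ℤ} : ev x y ∈ ES1 L T ↔ -L ≤ x ∧ x ≤ 0 ∧ 0 ≤ y ∧ y + 1 ≤ T := by
  unfold ES1; rw [ev_mem_edgesIn_rect]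

theorem eh_ES2 {x y : ℤ} : eh x y ∈ ES2 a T ↔ -a ≤ x ∧ x + 1 ≤ a ∧ 0 ≤ y ∧ y ≤ T := by
  unfold ES2; rw [eh_mem_edgesIn_rect]

theorem ev_ES2 {x y : ℤ} : ev x y ∈ ES2 a T ↔ -a ≤ x ∧ x ≤ a ∧ 0 ≤ y ∧ y + 1 ≤ T := by
  unfold ES2; rw [ev_mem_edgesIn_rect]

theorem eh_ED {x y : ℤ} : eh x y ∈ ED L a T ↔ -L ≤ x ∧ x + 1 ≤ a ∧ 0 ≤ y ∧ y ≤ T := by
  unfold ED; rw [eh_mem_edgesIn_rect]

theorem ev_ED {x y : ℤ} : ev x y ∈ ED L a T ↔ -L ≤ x ∧ x ≤ a ∧ 0 ≤ y ∧ y + 1 ≤ T := by
  unfold ED; rw [ev_mem_edgesIn_rect]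

theorem V2 (h1 : KLF1 L T n1 ω C1) (h2 : KLF2 a T n2 ω C2) (haL : a ≤ L) {u : ℤ × ℤ}
    (hu : u ∈ vts (Ec L a T n1 n2)) (hu' : u ∈ vts (etaD L a T n1 n2 ω)) :
    (∃ f ∈ n1, Inci f u) ∨ (∃ f ∈ n2, Inci f u) := by
  by_contra hcon
  push Not at hcon
  obtain ⟨hc1, hc2⟩ := hcon
  obtain ⟨i, j, rfl⟩ : ∃ i j, u = (-1 - i, j + 1) := ⟨-1 - u.1, u.2 - 1, by ext <;> simp⟩
  rw [mem_vts] at hu hu'
  obtain ⟨e, he, hue⟩ := hu
  have he0 := Ec_subset_E0 he
  have hES2 := E0_subset_ES2 he0
  -- `u ∈ S2`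
  have huS : ((-1 - i, j + 1) : ℤ × ℤ) ∈ rect (-a) a 0 T := by
    apply vts_edgesIn
    rw [mem_vts]
    exact ⟨e, hES2, hue⟩
  rw [mem_rect] at huS
  simp only at huS
  have hha := h2.ha
  have hhT := h2.hT
  -- the edge `e'`
  unfold Ec at he
  rw [mem_image] at he
  obtain ⟨e', he', rfl⟩ := he
  have he'0 : e' ∈ E0 L a T n1 n2 := Em_subset_E0 he'
  have hsd : ((i, j) : ℤ × ℤ) ∈ star e' := side_of_mem_tau hue
  obtain ⟨he'S, he'X⟩ := mem_E0'.1 he'0
  rw [mem_XX'] at he'X
  push Not at he'X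
  obtain ⟨hX1, hX2⟩ := he'X
  have hc := side_cases' (by unfold ES2 at he'S; exact he'S) hsd
  -- (i)
  have hφ2 : ((i, j) : ℤ × ℤ) ∉ n2 := fun h => hX2 he'S ⟨_, h, hsd⟩
  have hφ1 : ((i, j) : ℤ × ℤ) ∉ n1 := by
    intro h
    have hs := h1.sub h
    unfold Phi1 at hs
    rw [mem_rect] at hs
    simp only at hs
    refine hX1 ?_ ⟨_, h, hsd⟩
    rcases hc with rfl | rfl | rfl | rfl
    · rw [eh_ES2] at he'S; rw [eh_ES1]; omega
    · rw [eh_ES2] at he'S; rw [eh_ES1]; omega
    · rw [ev_ES2] at he'S; rw [ev_ES1]; omega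
    · rw [ev_ES2] at he'S; rw [ev_ES1]; omega
  have hPhi2 : ((i, j) : ℤ × ℤ) ∈ Phi2 a T := by
    unfold Phi2; rw [mem_rect]; simp only; omega
  have hright : (a, j) ∈ n2 := h2.right j (by omega) (by omega)
  -- faces at the right end
  have hend : i ≠ -a - 1 := by
    intro hi
    refine hc2 _ hright ?_
    simp only [Inci]; omega
  obtain ⟨e2, he2, hu2⟩ := hu'
  unfold etaD at he2
  rw [mem_union] at he2
  rcases he2 with he2 | he2
  · rw [mem_image] at he2
    obtain ⟨f, hf, rfl⟩ := he2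
    rw [mem_sdiff, mem_union, mem_inter] at hf
    obtain ⟨hfD, hf⟩ := hf
    push Not at hf
    obtain ⟨hfm, hfω⟩ := hf
    have hsf : ((i, j) : ℤ × ℤ) ∈ star f := side_of_mem_tau hu2
    have hfc := side_cases' (by unfold ED at hfD; exact hfD) hsf
    by_cases hfX : f ∈ XX L a T n1 n2
    · have hfω' : f ∉ ω := fun h => hfω h hfX
      rw [mem_XX'] at hfX
      rcases hfX with ⟨hfE, ht⟩ | ⟨hfE, ht⟩
      · -- A1
        have key : ∀ g : ℤ × ℤ, g ∈ n1 → Z2.Adj g (i, j) → sepE g (i, j) = f →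
            ((i, j) : ℤ × ℤ) ∉ Phi1 L T := by
          intro g hg ha hs hp
          have := h1.opn g hg _ hp hφ1 ha
          rw [hs, mem_inter] at this
          exact hfω' this.1
        have hPhi1 : ∀ g : ℤ × ℤ, g ∈ n1 → star f = s(g, (i, j)) → ((i, j) : ℤ × ℤ) ∉ Phi1 L T := by
          intro g hg hs
          obtain ⟨q1, q2⟩ := sepE_of_star (by unfold ED at hfD; exact hfD) hs
          exact key g hg q1 q2
        rcases hfc with rfl | rfl | rfl | rfl
        · rw [touch_eh] at ht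
          rw [eh_ES1] at hfE
          rcases ht with ht | ht
          · refine hPhi1 _ ht ?_ ?_
            · rw [star_eh]; unfold ev; simp
            · unfold Phi1; rw [mem_rect]; simp only; omega
          · exact hφ1 ht
        · rw [touch_eh] at ht
          rw [eh_ES1] at hfE
          rcases ht with ht | ht
          · exact hφ1 (by simpa using ht)
          · refine hPhi1 _ ht ?_ ?_
            · rw [star_eh]; unfold ev; simp [Sym2.eq_swap]
            · unfold Phi1; rw [mem_rect]; simp only; omega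
        · rw [touch_ev] at ht
          rw [ev_ES1] at hfE
          rcases ht with ht | ht
          · by_cases hi : i = 0
            · subst hi
              refine hc1 _ ht ?_
              simp only [Inci]; omega
            · refine hPhi1 _ ht ?_ ?_
              · rw [star_ev]; unfold eh; simp
              · unfold Phi1; rw [mem_rect]; simp only
                by_cases hi2 : i = 0
                · omega
                · omega
          · exact hφ1 ht
        · rw [touch_ev] at ht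
          rw [ev_ES1] at hfE
          rcases ht with ht | ht
          · exact hφ1 (by simpa using ht)
          · refine hPhi1 _ ht ?_ ?_
            · rw [star_ev]; unfold eh; simp [Sym2.eq_swap]
            · unfold Phi1; rw [mem_rect]; simp only; omega
      · -- A2
        have hPhi : ∀ g : ℤ × ℤ, g ∈ n2 → star f = s(g, (i, j)) → False := by
          intro g hg hs
          obtain ⟨q1, q2⟩ := sepE_of_star (by unfold ED at hfD; exact hfD) hs
          rcases h2.opn g hg _ hPhi2 hφ2 q1 with h | ⟨x, h⟩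
          · rw [q2, mem_inter] at h
            exact hfω' h.1
          · rw [q2] at h
            rw [h, ev_ES2] at hfE
            omega
        rcases hfc with rfl | rfl | rfl | rfl
        · rw [touch_eh] at ht
          rcases ht with ht | ht
          · refine hPhi _ ht ?_
            rw [star_eh]; unfold ev; simp
          · exact hφ2 ht
        · rw [touch_eh] at ht
          rcases ht with ht | ht
          · exact hφ2 (by simpa using ht)
          · refine hPhi _ ht ?_
            rw [star_eh]; unfold ev; simp [Sym2.eq_swap]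
        · rw [touch_ev] at ht
          rcases ht with ht | ht
          · refine hPhi _ ht ?_
            rw [star_ev]; unfold eh; simp
          · exact hφ2 ht
        · rw [touch_ev] at ht
          rcases ht with ht | ht
          · exact hφ2 (by simpa using ht)
          · refine hPhi _ ht ?_
            rw [star_ev]; unfold eh; simp [Sym2.eq_swap]
    · by_cases hfS : f ∈ ES2 a T
      · -- A3
        have hf0 : f ∈ E0 L a T n1 n2 := mem_E0'.2 ⟨hfS, hfX⟩
        have htf : tau f ∉ E0 L a T n1 n2 := by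
          intro h
          apply hfm
          unfold Em
          rw [mem_filter]
          exact ⟨hf0, h⟩
        have htX : tau f ∉ XX L a T n1 n2 := by
          intro h
          rw [mem_XX'] at h
          rcases h with h | h
          · obtain ⟨g, hg, hg'⟩ := inci_of_Xs (E := ES1 L T) (V := rect (-L) 0 0 T)
              (by unfold ES1; exact subset_rfl) (mem_Xs'.2 h) hu2
            exact hc1 g hg hg'
          · obtain ⟨g, hg, hg'⟩ := inci_of_Xs (E := ES2 a T) (V := rect (-a) a 0 T)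
              (by unfold ES2; exact subset_rfl) (mem_Xs'.2 h) hu2
            exact hc2 g hg hg'
        have htS : tau f ∉ ES2 a T := fun h => htf (mem_E0'.2 ⟨h, htX⟩)
        rw [mem_XX'] at hfX
        push Not at hfX
        obtain ⟨hy1, hy2⟩ := hfX
        rcases hfc with rfl | rfl | rfl | rfl
        · rw [tau_eh, ev_ES2] at htS
          rw [eh_ES2] at hfS
          omega
        · rw [tau_eh, ev_ES2] at htS
          have hfS' := hfS
          rw [eh_ES2] at hfS
          have hjT : j + 1 = T := by omega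
          rcases lt_or_ge i 0 with hi | hi
          · have ht : (i, T) ∈ n1 := h1.top i (by omega) (by omega)
            refine hy1 ?_ ?_
            · rw [eh_ES1]; omega
            · rw [touch_eh, hjT]; exact Or.inr ht
          · have ht : (-1 - i, T) ∈ n1 := h1.top _ (by omega) (by omega)
            refine hc1 _ ht ?_
            simp only [Inci]; omega
        · rw [tau_ev, eh_ES2] at htS
          rw [ev_ES2] at hfS
          omega
        · rw [tau_ev, eh_ES2] at htS
          have hfS' := hfS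
          rw [ev_ES2] at hfS
          have hia : i + 1 = a := by omega
          refine hy2 hfS' ?_
          rw [touch_ev, hia]
          exact Or.inr hright
      · -- A4
        rcases hfc with rfl | rfl | rfl | rfl
        · rw [eh_ED] at hfD; rw [eh_ES2] at hfS; omega
        · rw [eh_ED] at hfD; rw [eh_ES2] at hfS; omega
        · rw [ev_ED] at hfD; rw [ev_ES2] at hfS; omega
        · rw [ev_ED] at hfD; rw [ev_ES2] at hfS; omega
  · -- B
    unfold img at he2
    rw [mem_image] at he2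
    obtain ⟨r, hr, rfl⟩ := he2
    rw [Sym2.mem_map] at hu2
    obtain ⟨g, hg, hg'⟩ := hu2
    have hgij : g = (i, j) := by
      apply tauV.injective
      rw [hg']
      simp [tauV]
    subst hgij
    obtain ⟨g', rfl⟩ := Sym2.mem_iff_exists.1 hg
    rw [mem_ring (by omega) (by omega)] at hr
    obtain ⟨hR, -, -⟩ := hr
    unfold Rg at hR
    rw [mem_rect] at hR
    simp only at hR
    obtain ⟨hR1, hR2 | hR2 | hR2 | hR2⟩ := hR
    · omega
    · omega
    · obtain ⟨xf, hx1, hx2, hx3⟩ := h2.bot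
      have hxi : ¬ xf ≤ i := by
        intro h
        apply hφ2
        have := (hx3 i (by omega) (by omega)).2 h
        rw [show j = -1 by omega]
        exact this
      have := (hx3 (-1 - i) (by omega) (by omega)).2 (by omega)
      refine hc2 _ this ?_
      simp only [Inci]; omega
    · omega

theorem hV (h1 : KLF1 L T n1 ω C1) (h2 : KLF2 a T n2 ω C2) (haL : a ≤ L) {c1 c2 z : ℤ × ℤ}
    (hc1 : c1 ∈ C1) (hc2 : c2 ∈ C2) {u v : ℤ × ℤ} (hu : u ∈ vts (Ec L a T n1 n2))
    (hv : v ∈ vts (Ec L a T n1 n2)) (huv : Cn (etaD L a T n1 n2 ω) u v) :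
    Cn (ω ∩ XX L a T n1 n2 ∪ jn c1 c2 z) u v := by
  by_cases hne : u = v
  · rw [hne]; exact Cn_refl _ _
  obtain ⟨hu', hv'⟩ := huv.mem_vts hne
  -- every such vertex is connected to `c1`
  have hj : Cn (ω ∩ XX L a T n1 n2 ∪ jn c1 c2 z) c2 c1 := by
    refine Cn.symm (Cn.trans (v := z) (Cn_edge ?_) (Cn_edge ?_))
    · rw [mem_union]; right; simp [jn]
    · rw [mem_union]; right; simp [jn]
  have key : ∀ w : ℤ × ℤ, w ∈ vts (Ec L a T n1 n2) → w ∈ vts (etaD L a T n1 n2 ω) →
      Cn (ω ∩ XX L a T n1 n2 ∪ jn c1 c2 z) w c1 := by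
    intro w hw hw'
    have hin := V2 h1 h2 haL hw hw'
    rw [mem_vts] at hw
    obtain ⟨e, he, hwe⟩ := hw
    have heG : e ∈ EG L a T n1 n2 := by unfold EG; exact mem_union_right _ he
    rcases hin with hin | hin
    · have hwC := V1a h1 h2.ha haL heG hwe hin
      refine (h1.conn w hwC c1 hc1).mono ?_
      intro x hx
      rw [mem_inter] at hx
      rw [mem_union, mem_inter]
      left
      exact ⟨hx.1, by unfold XX; exact mem_union_left _ hx.2⟩
    · have hwC := V1b h2 heG hwe hin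
      refine Cn.trans ((h2.conn w hwC c2 hc2).mono ?_) hj
      intro x hx
      rw [mem_inter] at hx
      rw [mem_union, mem_inter]
      left
      exact ⟨hx.1, by unfold XX; exact mem_union_right _ hx.2⟩
  exact (key u hu hu').trans (key v hv hv').symm

end Pool.Agent.FKR
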