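import Pool.Agent.FKR.SFactsDef
import Pool.Agent.FKR.Dom

/-! # FKR/Pull (MP_b3e76a_pr): planar events in patches of the wedge

`P_pull`: `P_map` (with `img f`, `NL (edgesIn V)`), `P_mono_EF` and `pull_img`.
`An_congr`: the four rectangles of `An x y n` are contained in `bxx x y (2n)` (`n ≥ 0`), and `conn`, `hor`, `ver` only depend on
the edges inside the rectangle.
`uu_trans`: `P_map` with the translation `(a, b) ↦ (a + x, b + y)` (or `act (Perc.trans x y)`).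
`patch_exit`: `Cn.exit` in `ω` with `S = B.image f`; all edges of `ω` at vertices `f p'`, `p' ∈ B`, are images of edges of the
rectangle (`Patch.loc`), so by injectivity they are images of edges in `pull f _ ω`. -/

namespace Pool.Agent.FKR

open Finset
open Pool.Agent.H95.Perc (Inc conn link rect hor ver eh ev mem_rect)
open Pool.Agent.H95.SumRule (edgesIn Z2)
open Pool.Agent.H95.Wedge (Vtx pt)

variable {q : ℝ} {E ω ω' : Finset (Sym2 Vtx)} {f : ℤ × ℤ → Vtx} {V : Finset (ℤ × ℤ)}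

private theorem pull_mem {e : Sym2 (ℤ × ℤ)} : e ∈ pull f V ω ↔ e ∈ edgesIn V ∧ e.map f ∈ ω := by
  classical
  unfold pull
  rw [mem_filter]

theorem pull_subset : pull f V ω ⊆ edgesIn V := fun _ he => (pull_mem.1 he).1

theorem pull_mono (h : ω ⊆ ω') : pull f V ω ⊆ pull f V ω' := fun _ he =>
  pull_mem.2 ⟨(pull_mem.1 he).1, h (pull_mem.1 he).2⟩

theorem inc_pull {A : Finset (Sym2 (ℤ × ℤ)) → Prop} (hA : Inc A) : Inc (fun ω => A (pull f V ω)) :=
  fun _ _ hs h => hA _ _ (pull_mono hs) h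

theorem Cn_of_pull {u v : ℤ × ℤ} (h : Cn (pull f V ω) u v) : Cn ω (f u) (f v) := by
  refine h.closed (S := fun y => Cn ω (f u) (f y)) (Cn_refl _ _) ?_
  intro x y hx hxy
  exact hx.trans (Cn_edge (by simpa using (pull_mem.1 hxy).2))

theorem pull_img {κ : Finset (Sym2 (ℤ × ℤ))} (hf : Set.InjOn f (V : Set (ℤ × ℤ))) (hκ : κ ⊆ edgesIn V) :
    pull f V (img f κ) = κ := by
  have hmi := map_injOn (D := edgesIn V) (hf.mono (coe_subset.mpr (vts_edgesIn V)))
  ext e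
  rw [pull_mem]
  constructor
  · rintro ⟨h1, h2⟩
    unfold img at h2
    rw [mem_image] at h2
    obtain ⟨e', he', h⟩ := h2
    rwa [← hmi (mem_coe.mpr (hκ he')) (mem_coe.mpr h1) h]
  · intro h
    exact ⟨hκ h, mem_image_of_mem _ h⟩

theorem P_pull (hq : 1 ≤ q) (hE : NL E) (hf : Set.InjOn f (V : Set (ℤ × ℤ))) (h : img f (edgesIn V) ⊆ E)
    {A : Finset (Sym2 (ℤ × ℤ)) → Prop} (hA : Inc A) :
    P q (edgesIn V) ∅ A ≤ P q E ∅ (fun ω => A (pull f V ω)) := by
  have hq0 : 0 < q := by linarith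
  have hF : NL (∅ : Finset (Sym2 (ℤ × ℤ))) := fun e he => absurd he (notMem_empty e)
  have h1 := P_map (q := q) hq0 (NL_edgesIn V) hF (f := f)
    (by rw [union_empty]; exact hf.mono (coe_subset.mpr (vts_edgesIn V)))
    (fun ω => A (pull f V ω))
  have h2 : P q (edgesIn V) ∅ A = P q (edgesIn V) ∅ (fun ω => A (pull f V (img f ω))) := by
    refine P_congr fun ζ hζ => ?_
    rw [union_empty, pull_img hf hζ]
  have h3 : img f (∅ : Finset (Sym2 (ℤ × ℤ))) = ∅ := by unfold img; exact image_empty _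
  rw [h2, ← h1, h3]
  exact P_mono_EF hq hE (fun e he => absurd he (notMem_empty e)) (by rw [union_empty]; exact h)
    (Subset.refl _) (inc_pull hA)

private theorem pull_link_congr {R B : Finset (ℤ × ℤ)} (hR : R ⊆ B) {κ κ' : Finset (Sym2 (ℤ × ℤ))}
    (h : ∀ e ∈ edgesIn B, e ∈ κ → e ∈ κ') {A A' : ℤ × ℤ → Prop} (hl : link R A A' κ) :
    link R A A' κ' := by
  obtain ⟨a, b, ha, hb, hA, hB, hc⟩ := hl
  refine ⟨a, b, ha, hb, hA, hB, ?_⟩
  refine SimpleGraph.Reachable.mono (Pool.Agent.H95.Wedge.openGraph_mono ?_) hc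
  intro e he
  rw [mem_inter] at he ⊢
  exact ⟨h e (Pool.Agent.H95.Perc.edgesIn_mono hR he.2) he.1, he.2⟩

theorem An_congr {x y n : ℤ} (hn : 0 ≤ n) {κ κ' : Finset (Sym2 (ℤ × ℤ))}
    (h : ∀ e ∈ edgesIn (bxx x y (2 * n)), e ∈ κ → e ∈ κ') : An x y n κ → An x y n κ' := by
  rintro ⟨h1, h2, h3, h4⟩
  refine ⟨pull_link_congr ?_ h h1, pull_link_congr ?_ h h2, pull_link_congr ?_ h h3,
    pull_link_congr ?_ h h4⟩
  all_goals
    unfold bxx
    apply Pool.Agent.H95.Perc.rect_mono <;> omega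

private theorem pull_An_trans {a b n : ℤ} {ω : Finset (Sym2 (ℤ × ℤ))} :
    An a b n (Pool.Agent.H95.Perc.act (Pool.Agent.H95.Perc.trans a b) ω) ↔ An 0 0 n ω := by
  have haut := Pool.Agent.H95.Perc.isAut_trans a b
  have hh : ∀ x0 x1 y0 y1 : ℤ, hor (x0 + a) (x1 + a) (y0 + b) (y1 + b)
      (Pool.Agent.H95.Perc.act (Pool.Agent.H95.Perc.trans a b) ω) ↔ hor x0 x1 y0 y1 ω := by
    intro x0 x1 y0 y1
    unfold Pool.Agent.H95.Perc.hor
    have h := Pool.Agent.H95.Perc.link_act haut (V := rect x0 x1 y0 y1) (ω := ω)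
      (A := fun v => v.1 = x0 + a) (B := fun v => v.1 = x1 + a)
    rw [Pool.Agent.H95.Perc.rect_trans] at h
    rw [h]
    simp only [Pool.Agent.H95.Perc.trans, Equiv.coe_fn_mk, add_left_inj]
  have hv : ∀ x0 x1 y0 y1 : ℤ, ver (x0 + a) (x1 + a) (y0 + b) (y1 + b)
      (Pool.Agent.H95.Perc.act (Pool.Agent.H95.Perc.trans a b) ω) ↔ ver x0 x1 y0 y1 ω := by
    intro x0 x1 y0 y1
    unfold Pool.Agent.H95.Perc.ver
    have h := Pool.Agent.H95.Perc.link_act haut (V := rect x0 x1 y0 y1) (ω := ω)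
      (A := fun v => v.2 = y0 + b) (B := fun v => v.2 = y1 + b)
    rw [Pool.Agent.H95.Perc.rect_trans] at h
    rw [h]
    simp only [Pool.Agent.H95.Perc.trans, Equiv.coe_fn_mk, add_left_inj]
  have e1 : a - 2 * n = (0 - 2 * n) + a := by ring
  have e2 : a + 2 * n = (0 + 2 * n) + a := by ring
  have e3 : a - n = (0 - n) + a := by ring
  have e4 : a + n = (0 + n) + a := by ring
  have e5 : b - 2 * n = (0 - 2 * n) + b := by ring
  have e6 : b + 2 * n = (0 + 2 * n) + b := by ring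
  have e7 : b - n = (0 - n) + b := by ring
  have e8 : b + n = (0 + n) + b := by ring
  unfold An
  rw [e1, e2, e3, e4, e5, e6, e7, e8, hh, hh, hv, hv]

theorem uu_trans (hq : 0 < q) (x y n : ℤ) : P q (edgesIn (bxx x y (12 * n))) ∅ (An x y n) = uu q n := by
  have haut := Pool.Agent.H95.Perc.isAut_trans x y
  have h := P_map (q := q) hq (NL_edgesIn (bxx 0 0 (12 * n))) (F := ∅)
    (fun e he => absurd he (notMem_empty e)) (f := Pool.Agent.H95.Perc.trans x y)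
    ((Pool.Agent.H95.Perc.trans x y).injective.injOn) (An x y n)
  have e1 : img (Pool.Agent.H95.Perc.trans x y) (edgesIn (bxx 0 0 (12 * n))) =
      edgesIn (bxx x y (12 * n)) := by
    have h1 := Pool.Agent.H95.Perc.edgesIn_image haut (bxx 0 0 (12 * n))
    have h2 : (bxx 0 0 (12 * n)).image (Pool.Agent.H95.Perc.trans x y) = bxx x y (12 * n) := by
      unfold bxx
      rw [Pool.Agent.H95.Perc.rect_trans]
      congr 1 <;> ring
    rw [h2] at h1
    exact h1.symm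
  have e2 : img (Pool.Agent.H95.Perc.trans x y) (∅ : Finset (Sym2 (ℤ × ℤ))) = ∅ := by
    unfold img; exact image_empty _
  rw [e1, e2] at h
  rw [h]
  unfold uu
  exact P_congr fun ζ _ => pull_An_trans

/-- an edge of `ω` at a point of `B` is the image of an edge of the rectangle -/
private theorem patch_edge {X0 X1 Y0 Y1 : ℤ} (hP : Patch f X0 X1 Y0 Y1 E) (hω : ω ⊆ E)
    {p : ℤ × ℤ} (hp : p ∈ rect (X0 + 1) (X1 - 1) (Y0 + 1) (Y1 - 1)) {z : Vtx}
    (h : s(f p, z) ∈ ω) :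
    ∃ w ∈ rect X0 X1 Y0 Y1, f w = z ∧ Cn (pull f (rect X0 X1 Y0 Y1) ω) p w := by
  have hp' : p ∈ rect X0 X1 Y0 Y1 := by
    rw [mem_rect] at hp ⊢
    omega
  have h1 := hP.loc _ (hω h) p hp (by simp)
  unfold img at h1
  rw [mem_image] at h1
  obtain ⟨e, he, h2⟩ := h1
  induction e with
  | _ a b =>
    have hab := Pool.Agent.H95.Perc.mem_edgesIn'.1 he
    have hpull : s(a, b) ∈ pull f (rect X0 X1 Y0 Y1) ω := pull_mem.2 ⟨he, by rw [h2]; exact h⟩
    rw [Sym2.map_mk, Sym2.eq_iff] at h2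
    rcases h2 with ⟨h3, h4⟩ | ⟨h3, h4⟩
    · have : a = p := hP.inj (mem_coe.mpr hab.1) (mem_coe.mpr hp') h3
      subst this
      exact ⟨b, hab.2.1, h4, Cn_edge hpull⟩
    · have : b = p := hP.inj (mem_coe.mpr hab.2.1) (mem_coe.mpr hp') h4
      subst this
      exact ⟨a, hab.1, h3, (Cn_edge hpull).symm⟩

theorem patch_exit {X0 X1 Y0 Y1 : ℤ} (hP : Patch f X0 X1 Y0 Y1 E) (hω : ω ⊆ E) {B : Finset (ℤ × ℤ)}
    (hB : B ⊆ rect (X0 + 1) (X1 - 1) (Y0 + 1) (Y1 - 1)) {p : ℤ × ℤ} (hp : p ∈ B) {v : Vtx}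
    (hv : v ∉ B.image f) (h : Cn ω (f p) v) :
    ∃ w, w ∉ B ∧ w ∈ rect X0 X1 Y0 Y1 ∧ Cn (pull f (rect X0 X1 Y0 Y1) ω) p w := by
  by_contra hno
  push Not at hno
  have key := h.closed
    (S := fun z => ∃ p' ∈ B, f p' = z ∧ Cn (pull f (rect X0 X1 Y0 Y1) ω) p p')
    ⟨p, hp, rfl, Cn_refl _ _⟩ (by
      rintro x z ⟨p', hp', rfl, hc⟩ hxz
      obtain ⟨w, hw, h1, h2⟩ := patch_edge hP hω (hB hp') hxz
      by_cases hwB : w ∈ B
      · exact ⟨w, hwB, h1, hc.trans h2⟩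
      · exact absurd (hc.trans h2) (hno w hwB hw))
  obtain ⟨p', hp', h1, _⟩ := key
  exact hv (mem_image.2 ⟨p', hp', h1⟩)

end Pool.Agent.FKR
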