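import Pool.Agent.FKR.I2
import Pool.Agent.FKR.Pull

/-! # FKR/LocD (MP_b3e76a_pr): dual circuits in patches

`localize_ge` with `I v = (v ∈ (bxx x y (32 r - 1)).image f)`, `E' = img f (edgesIn (bxx x y (32 r)) \ bdE)`, `F' = img f bdE`
(`bdE = bdE x y (32 r)`): an active edge touching `I` is the image of an edge of the box, touching the inside, so
not in `bdE`; the vertices of `E'` which are not inside are images of boundary vertices, connected by
`bdE_conn` (`Cn_img`). `P_map` and `I2` for the lower bound, `B = Blk f x y r`. The event: if `f p`, `p ∈ bxx x y r`, is connected to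
`v` not inside in `ω`, then in `tc I ω` it is connected to some `v'` not inside (`Cn_tc_iff`), and then also in `tc I ω ∪ F'`. -/

namespace Pool.Agent.FKR

open Finset
open Pool.Agent.H95.Perc (Inc conn link rect hor ver eh ev mem_rect)
open Pool.Agent.H95.SumRule (edgesIn Z2)
open Pool.Agent.H95.Wedge (Vtx pt)

variable {q : ℝ}

theorem dcr_Blk (f : ℤ × ℤ → Vtx) (x y r : ℤ) : Dcr (Blk f x y r) :=
  fun _ _ hs h p hp v hv hc => h p hp v hv (hc.mono hs)

theorem locD (hq : 1 ≤ q) (hu : UU q) : ∃ c : ℝ, 0 < c ∧ c ≤ 1 ∧ ∀ (E F : Finset (Sym2 Vtx))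
    (f : ℤ × ℤ → Vtx) (x y r : ℤ), NL E → NL F → 1 ≤ r →
    Set.InjOn f (bxx x y (32 * r) : Set (ℤ × ℤ)) →
    (∀ e ∈ E, ∀ p ∈ bxx x y (32 * r - 1), f p ∈ e → e ∈ img f (edgesIn (bxx x y (32 * r)))) →
    (∀ e ∈ F, ∀ p ∈ bxx x y (32 * r - 1), f p ∉ e) →
    c ≤ P q E F (Blk f x y r) := by
  have hq0 : 0 < q := by linarith
  obtain ⟨c, hc, hI2⟩ := I2 hq hu
  refine ⟨min c 1, lt_min hc one_pos, min_le_right _ _, ?_⟩
  intro E F f x y r hE hF hr hf hEl hFl
  have hbd : bdE x y (32 * r) ⊆ edgesIn (bxx x y (32 * r)) := ins_subset _ _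
  have hNL := NL_edgesIn (bxx x y (32 * r))
  have hvV : ∀ e ∈ edgesIn (bxx x y (32 * r)), ∀ v ∈ e, v ∈ bxx x y (32 * r) := fun e he v hv =>
    vts_edgesIn _ (mem_vts.2 ⟨e, he, hv⟩)
  have hmem : ∀ (n : ℤ) (v : ℤ × ℤ), v ∈ bxx x y n ↔
      x - n ≤ v.1 ∧ v.1 ≤ x + n ∧ y - n ≤ v.2 ∧ v.2 ≤ y + n := by
    intro n v
    unfold bxx; exact mem_rect
  have hsub : ∀ v ∈ bxx x y (32 * r - 1), v ∈ bxx x y (32 * r) := by
    intro v hv
    rw [hmem] at hv ⊢
    omega
  have hsub' : ∀ v ∈ bxx x y r, v ∈ bxx x y (32 * r - 1) := by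
    intro v hv
    rw [hmem] at hv ⊢
    omega
  have hvts : ∀ {κ : Finset (Sym2 (ℤ × ℤ))}, κ ⊆ edgesIn (bxx x y (32 * r)) →
      vts κ ⊆ bxx x y (32 * r) := fun h => (vts_mono h).trans (vts_edgesIn _)
  have hinj : ∀ {κ : Finset (Sym2 (ℤ × ℤ))}, κ ⊆ edgesIn (bxx x y (32 * r)) →
      Set.InjOn f (vts κ : Set (ℤ × ℤ)) := fun h => hf.mono (coe_subset.mpr (hvts h))
  have hU : edgesIn (bxx x y (32 * r)) \ bdE x y (32 * r) ∪ bdE x y (32 * r) ⊆
      edgesIn (bxx x y (32 * r)) := union_subset sdiff_subset hbd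
  -- the lower bound for the wired box
  have hlow : c ≤ P q (img f (edgesIn (bxx x y (32 * r)) \ bdE x y (32 * r)))
      (img f (bdE x y (32 * r))) (Blk f x y r) := by
    rw [P_map hq0 (hNL.mono sdiff_subset) (hNL.mono hbd) (hinj hU)]
    refine (hI2 x y r hr).trans (P_mono hq0 ?_)
    intro ζ hζ hN p hp v hv hcn
    have hω : ζ ∪ bdE x y (32 * r) ⊆ edgesIn (bxx x y (32 * r)) :=
      (union_subset_union hζ (Subset.refl _)).trans hU
    have hne : f p ≠ v := by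
      rintro rfl
      exact hv (mem_image_of_mem f (hsub' p hp))
    have h1 := (hcn.mem_vts hne).2
    rw [vts_img, mem_image] at h1
    obtain ⟨v', hv', rfl⟩ := h1
    have hv'V := hvts hω hv'
    have hv'n : v' ∉ bxx x y (32 * r - 1) := fun h => hv (mem_image_of_mem f h)
    refine hN p hp v' hv'n ?_
    exact (Cn_img_iff hf (coe_subset.mpr (hvts hω)) (mem_coe.mpr (hsub p (hsub' p hp)))
      (mem_coe.mpr hv'V)).1 hcn
  refine (min_le_left c 1).trans (hlow.trans ?_)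
  refine localize_ge hq hE hF (NL_img (hinj sdiff_subset) (hNL.mono sdiff_subset))
    (NL_img (hinj hbd) (hNL.mono hbd)) (I := fun v => v ∈ (bxx x y (32 * r - 1)).image f)
    ?_ ?_ ?_ (dcr_Blk f x y r) (dcr_Blk f x y r) ?_
  · rintro e he ⟨v, hve, hv⟩
    obtain ⟨p, hp, rfl⟩ := mem_image.1 hv
    have h1 := hEl e he p hp hve
    unfold img at h1 ⊢
    rw [mem_image] at h1 ⊢
    obtain ⟨e', he', rfl⟩ := h1
    refine ⟨e', mem_sdiff.2 ⟨he', fun hb => ?_⟩, rfl⟩
    rw [Sym2.mem_map] at hve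
    obtain ⟨p', hp', hpp⟩ := hve
    have h2 : p' = p := hf (mem_coe.mpr (hvV e' he' p' hp')) (mem_coe.mpr (hsub p hp)) hpp
    subst h2
    exact (mem_ins'.1 hb).2 p' hp' hp
  · intro e he v hve hv
    obtain ⟨p, hp, rfl⟩ := mem_image.1 hv
    exact hFl e he p hp hve
  · intro u hu v hv hu' hv'
    rw [vts_img, mem_image] at hu hv
    obtain ⟨a, ha, rfl⟩ := hu
    obtain ⟨b, hb, rfl⟩ := hv
    exact Cn_img (bdE_conn (by omega) (hvts sdiff_subset ha)
      (fun h => hu' (mem_image_of_mem f h)) (hvts sdiff_subset hb)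
      (fun h => hv' (mem_image_of_mem f h)))
  · intro ω _ hB p hp v hv hcn
    obtain ⟨v', hv', h1⟩ := (Cn_tc_iff (S := fun v => v ∈ (bxx x y (32 * r - 1)).image f)
      (mem_image_of_mem f (hsub' p hp))).1 ⟨v, hv, hcn⟩
    exact hB p hp v' hv' (h1.mono subset_union_left)

end Pool.Agent.FKR
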