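import Pool.Agent.FKR.Pull
import Pool.Agent.FKR.C1
import Pool.Agent.FKR.Hub
import Pool.Agent.FKR.Localize

/-! # FKR/LocU (MP_b3e76a_pr): circuits in patches, gluing

`locU`: `P_pull` with `V = bxx x y (12 r)`, `uu_trans`, `An_congr` (from `pull f (bxx ..)` to `pull f (rect ..)`), `inc_An`.
`glue2`: FKG for the two `Hit` events and the circuit `An x y r`; if all three occur, then `f p` and `s` are
connected for some `p ∈ bxx x y r`, `patch_exit` with `B = bxx x y (2r-1)` gives `w ∉ B` with `Cn (pull ..) p w`, so `p` is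
connected to the hub `u` (`An_hub`, `Hub_cross`), and `Cn ω s (f u)`; same for `s'`. `c = ` constant of `UU`. -/

namespace Pool.Agent.FKR

open Finset
open Pool.Agent.H95.Perc (Inc conn link rect hor ver eh ev mem_rect)
open Pool.Agent.H95.SumRule (edgesIn Z2)
open Pool.Agent.H95.Wedge (Vtx pt)

variable {q : ℝ}

theorem inc_Hit (f : ℤ × ℤ → Vtx) (s : Vtx) (x y r : ℤ) : Inc (Hit f s x y r) := by
  rintro ω ω' hs ⟨p, hp, h⟩
  exact ⟨p, hp, h.mono hs⟩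

theorem lu_sub {X0 X1 Y0 Y1 x y r : ℤ} (h1 : X0 + r ≤ x) (h2 : x + r ≤ X1) (h3 : Y0 + r ≤ y)
    (h4 : y + r ≤ Y1) : bxx x y r ⊆ rect X0 X1 Y0 Y1 := by
  unfold bxx
  exact Pool.Agent.H95.Perc.rect_mono (by omega) (by omega) (by omega) (by omega)

theorem locU (hq : 1 ≤ q) (hu : UU q) : ∃ c : ℝ, 0 < c ∧ c ≤ 1 ∧ ∀ (E : Finset (Sym2 Vtx)) (f : ℤ × ℤ → Vtx)
    (X0 X1 Y0 Y1 x y r : ℤ), NL E → Patch f X0 X1 Y0 Y1 E → 1 ≤ r → X0 + 12 * r ≤ x → x + 12 * r ≤ X1 →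
    Y0 + 12 * r ≤ y → y + 12 * r ≤ Y1 →
    c ≤ P q E ∅ (fun ω => An x y r (pull f (rect X0 X1 Y0 Y1) ω)) := by
  classical
  have hq0 : 0 < q := by linarith
  obtain ⟨c, hc, h⟩ := hu
  refine ⟨c, hc, (h 1 le_rfl).trans (P_le_one hq0 _ _ _), ?_⟩
  intro E f X0 X1 Y0 Y1 x y r hE hP hr h1 h2 h3 h4
  have hsub : bxx x y (12 * r) ⊆ rect X0 X1 Y0 Y1 := lu_sub h1 h2 h3 h4
  have hed : edgesIn (bxx x y (12 * r)) ⊆ edgesIn (rect X0 X1 Y0 Y1) :=
    Pool.Agent.H95.Perc.edgesIn_mono hsub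
  have k1 := h r hr
  rw [← uu_trans hq0 x y r] at k1
  refine k1.trans ((P_pull (E := E) (f := f) hq hE (hP.inj.mono (coe_subset.mpr hsub)) ?_
    (inc_An x y r)).trans ?_)
  · refine Subset.trans ?_ hP.sub
    unfold img
    exact image_subset_image hed
  · refine P_mono hq0 ?_
    intro ζ _ hA
    refine An_congr (by omega) ?_ hA
    intro e _ he
    unfold pull at he ⊢
    rw [mem_filter] at he ⊢
    exact ⟨hed he.1, he.2⟩

/-- a vertex connected to the box of a hub is connected to the hub -/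
theorem hit_hub {E ω : Finset (Sym2 Vtx)} {f : ℤ × ℤ → Vtx} {X0 X1 Y0 Y1 x y r : ℤ} {s : Vtx} {u : ℤ × ℤ}
    (hP : Patch f X0 X1 Y0 Y1 E) (hω : ω ⊆ E) (hs : s ∉ (rect X0 X1 Y0 Y1).image f) (hr : 1 ≤ r)
    (h1 : X0 + 2 * r ≤ x) (h2 : x + 2 * r ≤ X1) (h3 : Y0 + 2 * r ≤ y) (h4 : y + 2 * r ≤ Y1)
    (h : Hit f s x y r ω) (hu : Hub x y r (pull f (rect X0 X1 Y0 Y1) ω) u) : Cn ω s (f u) := by
  classical
  obtain ⟨p, hp, hsp⟩ := h
  have hB : bxx x y (2 * r - 1) ⊆ rect (X0 + 1) (X1 - 1) (Y0 + 1) (Y1 - 1) :=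
    lu_sub (by omega) (by omega) (by omega) (by omega)
  have hB' : bxx x y (2 * r - 1) ⊆ rect X0 X1 Y0 Y1 :=
    lu_sub (by omega) (by omega) (by omega) (by omega)
  have hpB : p ∈ bxx x y (2 * r - 1) := by
    unfold bxx at hp ⊢
    rw [mem_rect] at hp ⊢
    omega
  obtain ⟨w, hw, _, hpw⟩ := patch_exit hP hω hB hpB
    (fun hm => hs (image_subset_image hB' hm)) hsp.symm
  have hpu := Hub_cross hr (pull_subset (f := f) (V := rect X0 X1 Y0 Y1) (ω := ω)) hu hp hw hpw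
  exact hsp.trans (Cn_of_pull hpu)

theorem glue2 (hq : 1 ≤ q) (hu : UU q) : ∃ c : ℝ, 0 < c ∧ ∀ (E : Finset (Sym2 Vtx)) (f : ℤ × ℤ → Vtx)
    (X0 X1 Y0 Y1 x y r : ℤ) (s s' : Vtx), NL E → Patch f X0 X1 Y0 Y1 E →
    s ∉ (rect X0 X1 Y0 Y1).image f → s' ∉ (rect X0 X1 Y0 Y1).image f → 1 ≤ r → X0 + 12 * r ≤ x →
    x + 12 * r ≤ X1 → Y0 + 12 * r ≤ y → y + 12 * r ≤ Y1 →
    c * P q E ∅ (Hit f s x y r) * P q E ∅ (Hit f s' x y r) ≤ P q E ∅ (fun ω => Cn ω s s') := by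
  have hq0 : 0 < q := by linarith
  obtain ⟨c, hc, _, h⟩ := locU hq hu
  refine ⟨c, hc, ?_⟩
  intro E f X0 X1 Y0 Y1 x y r s s' hE hP hs hs' hr h1 h2 h3 h4
  have hF : NL (∅ : Finset (Sym2 Vtx)) := fun e he => absurd he (notMem_empty e)
  have k1 := h E f X0 X1 Y0 Y1 x y r hE hP hr h1 h2 h3 h4
  have i1 : Inc (fun ω => An x y r (pull f (rect X0 X1 Y0 Y1) ω)) := inc_pull (inc_An x y r)
  have i2 := inc_Hit f s x y r
  have i3 := inc_Hit f s' x y r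
  have i4 : Inc (fun ω => An x y r (pull f (rect X0 X1 Y0 Y1) ω) ∧ Hit f s x y r ω) :=
    fun ω ω' hs h => ⟨i1 _ _ hs h.1, i2 _ _ hs h.2⟩
  have k2 := P_fkg (E := E) (F := ∅) hq hE hF i1 i2
  have k3 := P_fkg (E := E) (F := ∅) hq hE hF i4 i3
  have p1 := P_nonneg hq0 E ∅ (Hit f s x y r)
  have p2 := P_nonneg hq0 E ∅ (Hit f s' x y r)
  calc c * P q E ∅ (Hit f s x y r) * P q E ∅ (Hit f s' x y r)
      ≤ P q E ∅ (fun ω => An x y r (pull f (rect X0 X1 Y0 Y1) ω) ∧ Hit f s x y r ω) *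
          P q E ∅ (Hit f s' x y r) :=
        mul_le_mul_of_nonneg_right ((mul_le_mul_of_nonneg_right k1 p1).trans k2) p2
    _ ≤ _ := k3
    _ ≤ P q E ∅ (fun ω => Cn ω s s') := by
        refine P_mono hq0 ?_
        rintro ζ hζ ⟨⟨hA, hH⟩, hH'⟩
        have hω : ζ ∪ ∅ ⊆ E := by rwa [union_empty]
        obtain ⟨u, hu⟩ := An_hub hr hA
        have c1 := hit_hub hP hω hs hr (by omega) (by omega) (by omega) (by omega) hH hu
        have c2 := hit_hub hP hω hs' hr (by omega) (by omega) (by omega) (by omega) hH' hu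
        exact c1.trans c2.symm

end Pool.Agent.FKR
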