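import Pool.Agent.FKR.MinCut
import Pool.Agent.FKR.Expl

/-! # FKR/NExp (MP_b3e76a_pr): right-most and left-most bottom-top crossings of a rectangle

`NR`: the region to the right of the right-most bottom-top crossing of `rect x0 x1 y0 y1` (exploration of the
dual cluster of the right column of faces); `NLf`: the region to the left of the left-most one.
`expR`: `Nx_subset`, `Nx_seed`, `Nx_other`, `ver_iff` (the crossing exists iff no face of the left column is in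
`Ucl`); `opn` from `Nx_bdry`; `minCut_ver` (hypotheses `Nx_conn'`, `Nx_conn`) gives a simple crossing `p` whose edges are
exactly those of `bdN Φ n`, `Φ = rect (x0-1) x1 y0 (y1-1)`; `C` = its vertices (it has an edge since `y0 < y1`).
`mem_C`: a vertex of `p` is an end of an edge of `bdN`, whose sides are incident to it. Conversely the faces
of `Φ` around a vertex `v` of the rectangle are consecutive around `v` (all four if `y0 < y < y1`, the two upper ones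
if `y = y0`, the two lower ones if `y = y1`), so if both classes occur there is an edge of `bdN` at `v`.
`expL`: the mirror image: apply the same argument to the class `Φ \ n`, i.e. `minCut_ver` reflected by
`Perc.reflX (x0 + x1)` (faces `(i, j) ↦ (x0 + x1 - 1 - i, j)`); or prove the left version of `minCut_ver` by
copying its proof; or deduce `expL ω` from `expR (img (reflX (x0+x1)) ω)`.
`stopR`, `stopL`: `Nx_stop` (an edge between adjacent faces of `Φ` is in `edgesIn (rect x0 x1 y0 y1)` or joins faces of the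
same column outside). -/

namespace Pool.Agent.FKR

open Finset
open Pool.Agent.H95.Wedge (openGraph)
open Pool.Agent.H95.Perc (Inc conn link rect hor ver eh ev sumE sepE Inci mem_rect)
open Pool.Agent.H95.SumRule (edgesIn Z2)

open Classical in
/-- the edges of `E` with a side in `n` -/
noncomputable def Xe (E : Finset (Sym2 (ℤ × ℤ))) (n : Finset (ℤ × ℤ)) : Finset (Sym2 (ℤ × ℤ)) :=
  E.filter (touch n)

variable (x0 x1 y0 y1 : ℤ) (ω : Finset (Sym2 (ℤ × ℤ)))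

/-- region to the right of the right-most crossing -/
noncomputable def NR : Finset (ℤ × ℤ) :=
  Nx (rect (x0 - 1) x1 y0 (y1 - 1)) (ω ∩ edgesIn (rect x0 x1 y0 y1)) (fun f => f.1 = x1)
    (fun f => f.1 = x0 - 1)

/-- region to the left of the left-most crossing -/
noncomputable def NLf : Finset (ℤ × ℤ) :=
  Nx (rect (x0 - 1) x1 y0 (y1 - 1)) (ω ∩ edgesIn (rect x0 x1 y0 y1)) (fun f => f.1 = x0 - 1)
    (fun f => f.1 = x1)

/-- `C` is the vertex set of a bottom-top crossing which is the boundary of `n` -/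
structure ExF (n C : Finset (ℤ × ℤ)) : Prop where
  sub : n ⊆ rect (x0 - 1) x1 y0 (y1 - 1)
  opn : ∀ f ∈ n, ∀ g ∈ rect (x0 - 1) x1 y0 (y1 - 1), g ∉ n → Z2.Adj f g →
    sepE f g ∈ ω ∩ edgesIn (rect x0 x1 y0 y1)
  mem_C : ∀ v, v ∈ C ↔ v ∈ rect x0 x1 y0 y1 ∧ (∃ f ∈ n, Inci f v) ∧
    ∃ g ∈ rect (x0 - 1) x1 y0 (y1 - 1), g ∉ n ∧ Inci g v
  conn : ∀ u ∈ C, ∀ v ∈ C, Cn (ω ∩ Xe (edgesIn (rect x0 x1 y0 y1)) n) u v
  vt : ∀ u ∈ C, u ∈ vts (ω ∩ Xe (edgesIn (rect x0 x1 y0 y1)) n)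
  c_bot : ∃ v ∈ C, v.2 = y0
  c_top : ∃ v ∈ C, v.2 = y1

variable {x0 x1 y0 y1} {ω} {ω' : Finset (Sym2 (ℤ × ℤ))}

private lemma mem_Xe' {E : Finset (Sym2 (ℤ × ℤ))} {n : Finset (ℤ × ℤ)} {e : Sym2 (ℤ × ℤ)} :
    e ∈ Xe E n ↔ e ∈ E ∧ touch n e := by
  classical
  unfold Xe
  rw [mem_filter]

private lemma bdN_compl {Φ n : Finset (ℤ × ℤ)} (hn : n ⊆ Φ) : bdN Φ (Φ \ n) = bdN Φ n := by
  ext e
  rw [mem_bdN, mem_bdN]
  constructor
  · rintro ⟨f, g, hf, hg, hg', hadj, rfl⟩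
    have hgn : g ∈ n := by
      by_contra h
      exact hg' (mem_sdiff.mpr ⟨hg, h⟩)
    exact ⟨g, f, hgn, (mem_sdiff.mp hf).1, (mem_sdiff.mp hf).2, hadj.symm,
      Pool.Agent.H95.Perc.sepE_comm hadj⟩
  · rintro ⟨f, g, hf, hg, hg', hadj, rfl⟩
    exact ⟨g, f, mem_sdiff.mpr ⟨hg, hg'⟩, hn hf, fun h => (mem_sdiff.mp h).2 hf, hadj.symm,
      Pool.Agent.H95.Perc.sepE_comm hadj⟩

private lemma walk_Cn {κ : Finset (Sym2 (ℤ × ℤ))} {u v : ℤ × ℤ} (p : Z2.Walk u v)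
    (h : ∀ e ∈ p.edges, e ∈ κ) {z : ℤ × ℤ} (hz : z ∈ p.support) : Cn κ u z := by
  have h' : ∀ e ∈ p.edges, e ∈ (openGraph κ).edgeSet := by
    intro e he
    have h1 := p.edges_subset_edgeSet he
    have h2 := h e he
    induction e with
    | _ a b =>
      rw [SimpleGraph.mem_edgeSet] at h1 ⊢
      exact (SimpleGraph.fromEdgeSet_adj _).mpr ⟨by simpa using h2, h1.ne⟩
  have hz' : z ∈ (p.transfer (openGraph κ) h').support := by
    rw [SimpleGraph.Walk.support_transfer]; exact hz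
  exact ⟨(p.transfer (openGraph κ) h').takeUntil z hz'⟩

/-- construction of `ExF` from a path whose edges are the boundary of `n` -/
private lemma exF_of_path (hx : x0 ≤ x1) (hy : y0 < y1) {n : Finset (ℤ × ℤ)}
    (sub : n ⊆ rect (x0 - 1) x1 y0 (y1 - 1))
    (opn : ∀ f ∈ n, ∀ g ∈ rect (x0 - 1) x1 y0 (y1 - 1), g ∉ n → Z2.Adj f g →
      sepE f g ∈ ω ∩ edgesIn (rect x0 x1 y0 y1)) {u v : ℤ × ℤ} (p : Z2.Walk u v) (hu : u.2 = y0)
    (hv : v.2 = y1) (hs : ∀ z ∈ p.support, z ∈ rect x0 x1 y0 y1)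
    (he : ∀ e, e ∈ p.edges ↔ e ∈ bdN (rect (x0 - 1) x1 y0 (y1 - 1)) n) :
    ExF x0 x1 y0 y1 ω n p.support.toFinset := by
  classical
  have hnil : ¬ p.Nil := by
    intro h
    have := h.eq
    subst this
    omega
  have hopn : ∀ e ∈ p.edges, e ∈ ω ∩ Xe (edgesIn (rect x0 x1 y0 y1)) n := by
    intro e hep
    obtain ⟨f, g, hf, hg, hg', hadj, rfl⟩ := mem_bdN.mp ((he e).mp hep)
    have h1 := mem_inter.mp (opn f hf g hg hg' hadj)
    refine mem_inter.mpr ⟨h1.1, mem_Xe'.mpr ⟨h1.2, f, hf, ?_⟩⟩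
    rw [star_sepE hadj]
    exact Sym2.mem_mk_left _ _
  refine ⟨sub, opn, ?_, ?_, ?_, ⟨u, by simp, hu⟩, ⟨v, by simp, hv⟩⟩
  · intro z
    rw [List.mem_toFinset]
    constructor
    · intro hz
      refine ⟨hs z hz, ?_⟩
      obtain ⟨e, hep, hze⟩ := (SimpleGraph.Walk.mem_support_iff_exists_mem_edges_of_not_nil hnil).mp hz
      obtain ⟨f, g, hf, hg, hg', hadj, rfl⟩ := mem_bdN.mp ((he e).mp hep)
      have h1 := mem_inter.mp (opn f hf g hg hg' hadj)
      refine ⟨⟨f, hf, inci_of_side h1.2 ?_ hze⟩, g, hg, hg', inci_of_side h1.2 ?_ hze⟩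
      · rw [star_sepE hadj]
        exact Sym2.mem_mk_left _ _
      · rw [star_sepE hadj]
        exact Sym2.mem_mk_right _ _
    · rintro ⟨hz, ⟨f, hf, hfz⟩, g, hg, hg', hgz⟩
      by_contra hzs
      obtain ⟨x, y⟩ := z
      have key : ∀ f' g' : ℤ × ℤ, f' ∈ rect (x0 - 1) x1 y0 (y1 - 1) →
          g' ∈ rect (x0 - 1) x1 y0 (y1 - 1) → Z2.Adj f' g' → (x, y) ∈ sepE f' g' →
          (f' ∈ n ↔ g' ∈ n) := by
        intro f' g' hf' hg' hadj hmem
        by_contra hne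
        have hb : sepE f' g' ∈ bdN (rect (x0 - 1) x1 y0 (y1 - 1)) n := by
          by_cases h1 : f' ∈ n
          · exact mem_bdN.mpr ⟨f', g', h1, hg', fun h2 => hne ⟨fun _ => h2, fun _ => h1⟩, hadj, rfl⟩
          · have h2 : g' ∈ n := by
              by_contra h2
              exact hne ⟨fun h => absurd h h1, fun h => absurd h h2⟩
            exact mem_bdN.mpr ⟨g', f', h2, hf', h1, hadj.symm, Pool.Agent.H95.Perc.sepE_comm hadj⟩
        have hpe := (he _).mpr hb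
        exact hzs ((SimpleGraph.Walk.mem_support_iff_exists_mem_edges_of_not_nil hnil).mpr
          ⟨_, hpe, hmem⟩)
      rw [mem_rect] at hz
      simp only at hz
      have E1 : y ≤ y1 - 1 → (((x, y) : ℤ × ℤ) ∈ n ↔ ((x - 1, y) : ℤ × ℤ) ∈ n) := by
        intro h1
        refine key _ _ (by rw [mem_rect]; simp only; omega) (by rw [mem_rect]; simp only; omega) ?_ ?_
        · rw [Z2_adj_iff]; omega
        · rw [Pool.Agent.H95.Perc.sepE_v]; simp
      have E2 : y0 ≤ y - 1 → (((x, y - 1) : ℤ × ℤ) ∈ n ↔ ((x - 1, y - 1) : ℤ × ℤ) ∈ n) := by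
        intro h1
        refine key _ _ (by rw [mem_rect]; simp only; omega) (by rw [mem_rect]; simp only; omega) ?_ ?_
        · rw [Z2_adj_iff]; omega
        · rw [Pool.Agent.H95.Perc.sepE_v]; simp
      have E3 : y ≤ y1 - 1 → y0 ≤ y - 1 → (((x, y - 1) : ℤ × ℤ) ∈ n ↔ ((x, y) : ℤ × ℤ) ∈ n) := by
        intro h1 h2
        refine key _ _ (by rw [mem_rect]; simp only; omega) (by rw [mem_rect]; simp only; omega) ?_ ?_
        · rw [Z2_adj_iff]; omega
        · rw [Pool.Agent.H95.Perc.sepE_h]; simp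
      have hf4 := sub hf
      obtain ⟨f1, f2⟩ := f
      obtain ⟨g1, g2⟩ := g
      rw [mem_rect] at hf4 hg
      simp only [Inci] at hfz hgz
      simp only at hf4 hg
      -- all faces of `Φ` around the vertex are in the same class as `f`
      have row : ∀ i j : ℤ, (i = x ∨ i = x - 1) → (j = y ∧ y ≤ y1 - 1 ∨ j = y - 1 ∧ y0 ≤ y - 1) →
          (((i, j) : ℤ × ℤ) ∈ n ↔ ((x, j) : ℤ × ℤ) ∈ n) := by
        rintro i j (rfl | rfl) (⟨rfl, h⟩ | ⟨rfl, h⟩)
        · exact Iff.rfl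
        · exact Iff.rfl
        · exact (E1 h).symm
        · exact (E2 h).symm
      have a1 := (row f1 f2 (by omega) (by omega)).mp hf
      have a2 : ((x, g2) : ℤ × ℤ) ∈ n := by
        by_cases h : g2 = f2
        · rw [h]; exact a1
        · rcases (show f2 = y ∨ f2 = y - 1 by omega) with h1 | h1
          · rw [h1] at a1
            rw [show g2 = y - 1 by omega]
            exact (E3 (by omega) (by omega)).mpr a1
          · rw [h1] at a1
            rw [show g2 = y by omega]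
            exact (E3 (by omega) (by omega)).mp a1
      exact hg' ((row g1 g2 (by omega) (by omega)).mpr a2)
  · intro a ha b hb
    rw [List.mem_toFinset] at ha hb
    exact (walk_Cn p hopn ha).symm.trans (walk_Cn p hopn hb)
  · intro a ha
    rw [List.mem_toFinset] at ha
    obtain ⟨e, hep, hae⟩ := (SimpleGraph.Walk.mem_support_iff_exists_mem_edges_of_not_nil hnil).mp ha
    unfold vts
    rw [mem_biUnion]
    exact ⟨e, hopn e hep, Sym2.mem_toFinset.mpr hae⟩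

theorem expR (hx : x0 ≤ x1) (hy : y0 < y1) (h : ver x0 x1 y0 y1 ω) :
    (∃ C, ExF x0 x1 y0 y1 ω (NR x0 x1 y0 y1 ω) C) ∧
      (∀ j, y0 ≤ j → j < y1 → (x1, j) ∈ NR x0 x1 y0 y1 ω) ∧
      ∀ j, (x0 - 1, j) ∉ NR x0 x1 y0 y1 ω := by
  classical
  have hv := (ver_iff hx hy).mp h
  have hU : ∀ f ∈ rect (x0 - 1) x1 y0 (y1 - 1), f.1 = x0 - 1 →
      f ∉ Ucl (rect (x0 - 1) x1 y0 (y1 - 1)) (ω ∩ edgesIn (rect x0 x1 y0 y1)) (fun f => f.1 = x1) := by
    intro f hf hf1 hfU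
    obtain ⟨_, g, hg, hg1, hr⟩ := mem_Ucl.mp hfU
    exact hv f hf g hg hf1 hg1 hr.symm
  have hright : ∀ j, y0 ≤ j → j < y1 → (x1, j) ∈ NR x0 x1 y0 y1 ω := by
    intro j h1 h2
    exact Nx_seed (by rw [mem_rect]; simp only; omega) rfl
  have hleft : ∀ j, (x0 - 1, j) ∉ NR x0 x1 y0 y1 ω := by
    intro j hj
    have hr := Nx_subset hj
    exact Nx_other (S' := fun f => f.1 = x0 - 1) hr rfl (hU _ hr rfl) hj
  have hopn : ∀ f ∈ NR x0 x1 y0 y1 ω, ∀ g ∈ rect (x0 - 1) x1 y0 (y1 - 1), g ∉ NR x0 x1 y0 y1 ω →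
      Z2.Adj f g → sepE f g ∈ ω ∩ edgesIn (rect x0 x1 y0 y1) :=
    fun f hf g hg hg' hadj => (Nx_bdry hf hg hg' hadj).2.2
  obtain ⟨u, v, p, _, hu, hv', hs, he⟩ := minCut_ver hx hy (N := NR x0 x1 y0 y1 ω) Nx_subset hright hleft
    (fun f hf hf' => by
      obtain ⟨g, hg, h1, _, h2⟩ := Nx_conn' hf hf'
      exact ⟨g, hg, h1, h2⟩)
    (fun f hf ⟨g, hg, hg', hadj⟩ => Nx_conn hf hg hg' hadj)
  exact ⟨⟨_, exF_of_path hx hy Nx_subset hopn p hu hv' hs he⟩, hright, hleft⟩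

theorem expL (hx : x0 ≤ x1) (hy : y0 < y1) (h : ver x0 x1 y0 y1 ω) :
    (∃ C, ExF x0 x1 y0 y1 ω (NLf x0 x1 y0 y1 ω) C) ∧
      (∀ j, y0 ≤ j → j < y1 → (x0 - 1, j) ∈ NLf x0 x1 y0 y1 ω) ∧
      ∀ j, (x1, j) ∉ NLf x0 x1 y0 y1 ω := by
  classical
  have hv := (ver_iff hx hy).mp h
  have hU : ∀ f ∈ rect (x0 - 1) x1 y0 (y1 - 1), f.1 = x1 →
      f ∉ Ucl (rect (x0 - 1) x1 y0 (y1 - 1)) (ω ∩ edgesIn (rect x0 x1 y0 y1))
        (fun f => f.1 = x0 - 1) := by
    intro f hf hf1 hfU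
    obtain ⟨_, g, hg, hg1, hr⟩ := mem_Ucl.mp hfU
    exact hv g hg f hf hg1 hf1 hr
  have hleft : ∀ j, y0 ≤ j → j < y1 → (x0 - 1, j) ∈ NLf x0 x1 y0 y1 ω := by
    intro j h1 h2
    exact Nx_seed (by rw [mem_rect]; simp only; omega) rfl
  have hright : ∀ j, (x1, j) ∉ NLf x0 x1 y0 y1 ω := by
    intro j hj
    have hr := Nx_subset hj
    exact Nx_other (S' := fun f => f.1 = x1) hr rfl (hU _ hr rfl) hj
  have hopn : ∀ f ∈ NLf x0 x1 y0 y1 ω, ∀ g ∈ rect (x0 - 1) x1 y0 (y1 - 1), g ∉ NLf x0 x1 y0 y1 ω →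
      Z2.Adj f g → sepE f g ∈ ω ∩ edgesIn (rect x0 x1 y0 y1) :=
    fun f hf g hg hg' hadj => (Nx_bdry hf hg hg' hadj).2.2
  set Φ := rect (x0 - 1) x1 y0 (y1 - 1) with hΦ
  set n := NLf x0 x1 y0 y1 ω with hn
  have hsub : n ⊆ Φ := Nx_subset
  have hbc : bdN Φ (Φ \ n) = bdN Φ n := bdN_compl hsub
  -- every face of `n` is connected to the left column without crossing the boundary of `n`
  have hcon : ∀ k : ℕ, ∀ f ∈ n, f.1 = x0 - 1 + k →
      ∃ g ∈ Φ, g.1 = x0 - 1 ∧ (dG Φ (bdN Φ n)).Reachable g f := by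
    intro k
    induction k with
    | zero =>
      intro f hf hf1
      exact ⟨f, hsub hf, by rw [hf1]; simp, SimpleGraph.Reachable.refl _⟩
    | succ k ih =>
      intro f hf hf1
      have hfr := hsub hf
      rw [hΦ, mem_rect] at hfr
      push_cast at hf1
      have hg : ((f.1 - 1, f.2) : ℤ × ℤ) ∈ Φ := by
        rw [hΦ, mem_rect]; simp only; omega
      have hadj : Z2.Adj f (f.1 - 1, f.2) := by
        obtain ⟨a, b⟩ := f
        rw [Z2_adj_iff]
        right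
        exact ⟨rfl, Or.inl (by ring)⟩
      by_cases hgn : ((f.1 - 1, f.2) : ℤ × ℤ) ∈ n
      · obtain ⟨g, h1, h2, h3⟩ := ih _ hgn (by simp only; omega)
        refine ⟨g, h1, h2, h3.trans ?_⟩
        apply SimpleGraph.Adj.reachable
        rw [dG_adj]
        refine ⟨hg, hsub hf, hadj.symm, fun hb => ?_⟩
        obtain ⟨f', g', hf', hg', hg'', hadj', heq⟩ := mem_bdN.mp hb
        have h4 := congrArg star heq
        rw [star_sepE hadj.symm, star_sepE hadj', Sym2.eq_iff] at h4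
        rcases h4 with ⟨h5, h6⟩ | ⟨h5, h6⟩
        · exact hg'' (h6 ▸ hf)
        · exact hg'' (h5 ▸ hgn)
      · exact Nx_conn hf hg hgn hadj
  obtain ⟨u, v, p, _, hu, hv', hs, he⟩ := minCut_ver hx hy (N := Φ \ n) sdiff_subset
    (fun j h1 h2 => mem_sdiff.mpr ⟨by rw [hΦ, mem_rect]; simp only; omega, hright j⟩)
    (fun j hj => by
      have h1 := mem_sdiff.mp hj
      have h2 := h1.1
      rw [hΦ, mem_rect] at h2
      simp only at h2
      exact h1.2 (hleft j (by omega) (by omega)))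
    (fun f hf hf' => by
      have hfn : f ∈ n := by
        by_contra h1
        exact hf' (mem_sdiff.mpr ⟨hf, h1⟩)
      have hfr := hf
      rw [mem_rect] at hfr
      obtain ⟨k, hk⟩ := Int.eq_ofNat_of_zero_le (show 0 ≤ f.1 - (x0 - 1) by omega)
      rw [← hΦ, hbc]
      exact hcon k f hfn (by omega))
    (fun f hf _ => by
      rw [← hΦ, hbc]
      obtain ⟨g, hg, h1, _, h2⟩ := Nx_conn' (mem_sdiff.mp hf).1 (mem_sdiff.mp hf).2
      exact ⟨g, hg, h1, h2⟩)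
  refine ⟨⟨_, exF_of_path hx hy hsub hopn p hu hv' hs (fun e => ?_)⟩, hleft, hright⟩
  rw [he, ← hΦ, hbc]

theorem stopR (hx : x0 ≤ x1) (hy : y0 < y1) (h : ver x0 x1 y0 y1 ω)
    (h' : ω' ∩ Xe (edgesIn (rect x0 x1 y0 y1)) (NR x0 x1 y0 y1 ω) =
      ω ∩ Xe (edgesIn (rect x0 x1 y0 y1)) (NR x0 x1 y0 y1 ω)) :
    ver x0 x1 y0 y1 ω' ∧ NR x0 x1 y0 y1 ω' = NR x0 x1 y0 y1 ω := by
  classical
  have hv := (ver_iff hx hy).mp h
  have hst := Nx_stop (Φ := rect (x0 - 1) x1 y0 (y1 - 1)) (κ := ω ∩ edgesIn (rect x0 x1 y0 y1))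
    (κ' := ω' ∩ edgesIn (rect x0 x1 y0 y1)) (S := fun f => f.1 = x1) (S' := fun f => f.1 = x0 - 1)
    (by
      intro f hf g hg hadj
      rw [mem_inter, mem_inter]
      by_cases hE : sepE f g ∈ edgesIn (rect x0 x1 y0 y1)
      · have hX : sepE f g ∈ Xe (edgesIn (rect x0 x1 y0 y1)) (NR x0 x1 y0 y1 ω) := by
          refine mem_Xe'.mpr ⟨hE, f, hf, ?_⟩
          rw [star_sepE hadj]
          exact Sym2.mem_mk_left _ _
        have := Finset.ext_iff.mp h' (sepE f g)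
        rw [mem_inter, mem_inter] at this
        tauto
      · tauto)
  refine ⟨(ver_iff hx hy).mpr ?_, hst.2⟩
  intro f hf g hg hf1 hg1 hr
  have h1 : f ∈ Ucl (rect (x0 - 1) x1 y0 (y1 - 1)) (ω' ∩ edgesIn (rect x0 x1 y0 y1))
      (fun f => f.1 = x1) := mem_Ucl.mpr ⟨hf, g, hg, hg1, hr.symm⟩
  rw [hst.1] at h1
  obtain ⟨_, g', hg', hg1', hr'⟩ := mem_Ucl.mp h1
  exact hv f hf g' hg' hf1 hg1' hr'.symm

theorem stopL (hx : x0 ≤ x1) (hy : y0 < y1) (h : ver x0 x1 y0 y1 ω)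
    (h' : ω' ∩ Xe (edgesIn (rect x0 x1 y0 y1)) (NLf x0 x1 y0 y1 ω) =
      ω ∩ Xe (edgesIn (rect x0 x1 y0 y1)) (NLf x0 x1 y0 y1 ω)) :
    ver x0 x1 y0 y1 ω' ∧ NLf x0 x1 y0 y1 ω' = NLf x0 x1 y0 y1 ω := by
  classical
  have hv := (ver_iff hx hy).mp h
  have hst := Nx_stop (Φ := rect (x0 - 1) x1 y0 (y1 - 1)) (κ := ω ∩ edgesIn (rect x0 x1 y0 y1))
    (κ' := ω' ∩ edgesIn (rect x0 x1 y0 y1)) (S := fun f => f.1 = x0 - 1) (S' := fun f => f.1 = x1)
    (by
      intro f hf g hg hadj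
      rw [mem_inter, mem_inter]
      by_cases hE : sepE f g ∈ edgesIn (rect x0 x1 y0 y1)
      · have hX : sepE f g ∈ Xe (edgesIn (rect x0 x1 y0 y1)) (NLf x0 x1 y0 y1 ω) := by
          refine mem_Xe'.mpr ⟨hE, f, hf, ?_⟩
          rw [star_sepE hadj]
          exact Sym2.mem_mk_left _ _
        have := Finset.ext_iff.mp h' (sepE f g)
        rw [mem_inter, mem_inter] at this
        tauto
      · tauto)
  refine ⟨(ver_iff hx hy).mpr ?_, hst.2⟩
  intro f hf g hg hf1 hg1 hr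
  have h1 : g ∈ Ucl (rect (x0 - 1) x1 y0 (y1 - 1)) (ω' ∩ edgesIn (rect x0 x1 y0 y1))
      (fun f => f.1 = x0 - 1) := mem_Ucl.mpr ⟨hg, f, hf, hf1, hr⟩
  rw [hst.1] at h1
  obtain ⟨_, g', hg', hg1', hr'⟩ := mem_Ucl.mp h1
  exact hv g' hg' g hg hg1' hg1 hr'

end Pool.Agent.FKR
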