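import Pool.Agent.FKR.SDefs

/-! # FKR/SFactsDef (MP_b3e76a_pr): the interface between probability and the final analysis -/

namespace Pool.Agent.FKR

open Finset
open Pool.Agent.H95.Wedge (Vtx pt verts edges tipTwoPoint F)

/-- annular crossings with free boundary conditions have probability bounded below -/
def UU (q : ℝ) : Prop := ∃ c : ℝ, 0 < c ∧ ∀ n : ℤ, 1 ≤ n → c ≤ uu q n

/-- `w k` is (up to constants) the product of the tip arm and of the half-plane arm at scale `k` -/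
structure Facts (q : ℝ) (m : ℕ) (w : ℕ → ℝ) (c C : ℝ) (k0 : ℕ) : Prop where
  hc : 0 < c
  hC : 0 < C
  hk0 : 1 ≤ k0
  pos : ∀ k, 0 < w k
  anti : ∀ k l, k ≤ l → w l ≤ w k
  dbl : ∀ k, k0 ≤ k → w k ≤ C * w (4 * k)
  low : ∀ k N, k0 ≤ k → 2 * k ≤ N → c * w k ≤ tipTwoPoint q m N k
  up : ∀ k N, k0 ≤ k → k ≤ N → tipTwoPoint q m N k ≤ C * w k
  outUp : ∀ N j, k0 ≤ N → 0 ≤ j → j ≤ (m : ℤ) → F q m (fun _ => N) j ≤ C * N * w N
  outLow : ∀ N, k0 ≤ N → c * N * w N ≤ F q m (fun _ => N) 0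

end Pool.Agent.FKR
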