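import Pool.Agent.FKR.C4
import Pool.Agent.FKR.C5
import Pool.Agent.FKR.SFactsDef

/-! # FKR/NU1 (MP_b3e76a_pr): if crossing probabilities are not bounded below they decay fast

`uu_small`: `¬ UU q`, `C ≥ 1` from `uu_rec`. Some `n0 ≥ 4` satisfies `C * uu q n0 ≤ exp (-1)` (otherwise `uu q n ≥ exp (-1) / C` for `n ≥ 4`, and
`UU q` with `uu_pos` for `n = 1, 2, 3`). `C * uu (LL ^ i * n0) ≤ (C * uu n0) ^ (41 ^ i)` as in C4 (`uu_iter`, private there; copy it).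
`uu_scale`: `P_box_diag` (Chain) and FKG reduce to the two horizontal rectangles of `An 0 0 n` in `V = bxx 0 0 (12 n)`. Top:
centres `(-2 n + 3 n' i, n)`, `i = 0, ..., K0`, `4 n ≤ 3 n' K0 ≤ 4 n + 3 n'` (`K0 ≤ 1601`), `An_le`, `P_fkg` (induction) or `P_fkg_fin`,
`hor_of_An`, then shrink to the columns `-2n .. 2n` and enlarge the rows to `n .. 2n` (`n + 2 n' ≤ 2 n`). Bottom: centres
`(-2 n + 3 n' i, -n - 2 n')`, or reflection. `12 n' + 2 n + 3 n' ≤ 12 n`. -/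

namespace Pool.Agent.FKR

open Finset
open Pool.Agent.H95.Perc (Inc conn link rect hor ver eh ev mem_rect)
open Pool.Agent.H95.SumRule (edgesIn Z2)

variable {q : ℝ}

private theorem nu1_iter (hq : 1 ≤ q) {C : ℝ} (hC : 1 ≤ C)
    (hr : ∀ n : ℤ, 4 ≤ n → uu q (LL * n) ≤ C * (uu q n) ^ 41) {n : ℤ} (hn : 4 ≤ n) :
    ∀ i : ℕ, C * uu q (LL ^ i * n) ≤ (C * uu q n) ^ (41 ^ i) := by
  intro i
  induction i with
  | zero => simp
  | succ i ih =>
    have hL : (1 : ℤ) ≤ LL ^ i := one_le_pow₀ (by unfold LL; norm_num)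
    have hm : (4 : ℤ) ≤ LL ^ i * n := by nlinarith
    have h0 : 0 < uu q (LL ^ i * n) := uu_pos hq (by linarith)
    have h1 := hr _ hm
    have h2 : LL ^ (i + 1) * n = LL * (LL ^ i * n) := by ring
    have h3 : C * (C * uu q (LL ^ i * n) ^ 41) ≤ (C * uu q (LL ^ i * n)) ^ 41 := by
      rw [mul_pow, ← mul_assoc]
      refine mul_le_mul_of_nonneg_right ?_ (by positivity)
      calc C * C = C ^ 2 := by ring
        _ ≤ C ^ 41 := pow_le_pow_right₀ hC (by norm_num)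
    calc C * uu q (LL ^ (i + 1) * n) = C * uu q (LL * (LL ^ i * n)) := by rw [h2]
      _ ≤ C * (C * uu q (LL ^ i * n) ^ 41) := mul_le_mul_of_nonneg_left h1 (by linarith)
      _ ≤ (C * uu q (LL ^ i * n)) ^ 41 := h3
      _ ≤ ((C * uu q n) ^ (41 ^ i)) ^ 41 :=
          pow_le_pow_left₀ (by positivity) ih _
      _ = (C * uu q n) ^ (41 ^ (i + 1)) := by rw [← pow_mul, pow_succ]

theorem uu_small (hq : 1 ≤ q) (h : ¬ UU q) : ∃ n0 : ℤ, 4 ≤ n0 ∧ ∀ i : ℕ,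
    uu q (LL ^ i * n0) ≤ Real.exp (-(41 : ℝ) ^ i) := by
  obtain ⟨C0, hC0, hr0⟩ := uu_rec (q := q) hq
  have hC : (1 : ℝ) ≤ max C0 1 := le_max_right _ _
  have hr : ∀ n : ℤ, 4 ≤ n → uu q (LL * n) ≤ max C0 1 * (uu q n) ^ 41 := by
    intro n hn
    have h0 : 0 < uu q n := uu_pos hq (by linarith)
    exact (hr0 n hn).trans (mul_le_mul_of_nonneg_right (le_max_left _ _) (by positivity))
  set C := max C0 1 with hCdef
  have hCpos : 0 < C := by linarith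
  have hex : ∃ n0 : ℤ, 4 ≤ n0 ∧ C * uu q n0 ≤ Real.exp (-1) := by
    by_contra hcon
    push Not at hcon
    apply h
    refine ⟨min (Real.exp (-1) / C) (min (uu q 1) (min (uu q 2) (uu q 3))), ?_, fun n hn => ?_⟩
    · exact lt_min (by positivity) (lt_min (uu_pos hq (by norm_num)) (lt_min (uu_pos hq (by norm_num))
        (uu_pos hq (by norm_num))))
    · by_cases h4 : 4 ≤ n
      · refine (min_le_left _ _).trans ?_
        rw [div_le_iff₀ hCpos, mul_comm]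
        exact (hcon n h4).le
      · have h5 : n = 1 ∨ n = 2 ∨ n = 3 := by omega
        rcases h5 with rfl | rfl | rfl
        · exact (min_le_right _ _).trans (min_le_left _ _)
        · exact (min_le_right _ _).trans ((min_le_right _ _).trans (min_le_left _ _))
        · exact (min_le_right _ _).trans ((min_le_right _ _).trans (min_le_right _ _))
  obtain ⟨n0, hn0, hsm⟩ := hex
  refine ⟨n0, hn0, fun i => ?_⟩
  have hL : (1 : ℤ) ≤ LL ^ i := one_le_pow₀ (by unfold LL; norm_num)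
  have hm : (4 : ℤ) ≤ LL ^ i * n0 := by nlinarith
  have h0 : 0 < uu q (LL ^ i * n0) := uu_pos hq (by linarith)
  have h00 : 0 < uu q n0 := uu_pos hq (by linarith)
  have h1 := nu1_iter hq hC hr hn0 i
  have h4 : uu q (LL ^ i * n0) ≤ C * uu q (LL ^ i * n0) := le_mul_of_one_le_left h0.le hC
  refine h4.trans (h1.trans ?_)
  calc (C * uu q n0) ^ (41 ^ i) ≤ (Real.exp (-1)) ^ (41 ^ i) :=
        pow_le_pow_left₀ (mul_nonneg hCpos.le h00.le) hsm _
    _ = Real.exp (-(41 : ℝ) ^ i) := by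
        rw [← Real.exp_nat_mul]
        congr 1
        push_cast
        ring

private theorem nu1_inc_An (x y n : ℤ) : Inc (An x y n) := by
  rintro ω ω' hs ⟨h1, h2, h3, h4⟩
  exact ⟨Pool.Agent.H95.Perc.inc_hor _ _ _ _ _ _ hs h1, Pool.Agent.H95.Perc.inc_hor _ _ _ _ _ _ hs h2,
    Pool.Agent.H95.Perc.inc_ver _ _ _ _ _ _ hs h3, Pool.Agent.H95.Perc.inc_ver _ _ _ _ _ _ hs h4⟩

private theorem nu1_and (hq : 1 ≤ q) (V : Finset (ℤ × ℤ)) {A B : Finset (Sym2 (ℤ × ℤ)) → Prop}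
    (hA : Inc A) (hB : Inc B) {a b : ℝ} (hb : 0 ≤ b)
    (h1 : a ≤ P q (edgesIn V) ∅ A) (h2 : b ≤ P q (edgesIn V) ∅ B) :
    a * b ≤ P q (edgesIn V) ∅ (fun ω => A ω ∧ B ω) :=
  (mul_le_mul h1 h2 hb (P_nonneg (by linarith) _ _ _)).trans
    (P_fkg (q := q) hq (NL_edgesIn V) (F := ∅) (fun e he => absurd he (notMem_empty e)) hA hB)

private theorem nu1_fkg (hq : 1 ≤ q) {c : ℝ} (hc0 : 0 ≤ c) (V : Finset (ℤ × ℤ)) (y n : ℤ) (f : ℕ → ℤ)
    (K : ℕ) (h : ∀ i ≤ K, c ≤ P q (edgesIn V) ∅ (An (f i) y n)) :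
    c ^ (K + 1) ≤ P q (edgesIn V) ∅ (fun ω => ∀ i : ℕ, i ≤ K → An (f i) y n ω) := by
  have hq0 : 0 < q := by linarith
  induction K with
  | zero =>
    rw [zero_add, pow_one]
    refine (h 0 le_rfl).trans (P_mono hq0 fun ζ _ hA i hi => ?_)
    obtain rfl : i = 0 := by omega
    exact hA
  | succ K ih =>
    have h1 := ih (fun i hi => h i (hi.trans (Nat.le_succ K)))
    have h2 := h (K + 1) le_rfl
    have hinc : Inc (fun ω : Finset (Sym2 (ℤ × ℤ)) => ∀ i : ℕ, i ≤ K → An (f i) y n ω) :=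
      fun ω ω' hs hA i hi => nu1_inc_An _ _ _ _ _ hs (hA i hi)
    rw [pow_succ]
    refine (nu1_and hq V hinc (nu1_inc_An (f (K + 1)) y n) hc0 h1 h2).trans
      (P_mono hq0 fun ζ _ hA i hi => ?_)
    rcases Nat.lt_or_ge i (K + 1) with hi' | hi'
    · exact hA.1 i (Nat.lt_succ_iff.mp hi')
    · obtain rfl : i = K + 1 := by omega
      exact hA.2

/-- one horizontal rectangle -/
private theorem nu1_hor (hq : 1 ≤ q) {n' n : ℤ} (hn' : 1 ≤ n') (h2 : 2 * n' ≤ n)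
    (h12 : n ≤ 1200 * n') {y y0 y1 : ℤ} (hy1 : -(2 * n) ≤ y) (hy2 : y ≤ 2 * n) (hy0 : y0 ≤ y + n')
    (hyy : y + 2 * n' ≤ y1) :
    (uu q n') ^ 1602 ≤ P q (edgesIn (bxx 0 0 (12 * n))) ∅ (hor (-(2 * n)) (2 * n) y0 y1) := by
  have hq0 : 0 < q := by linarith
  have hp0 : 0 < uu q n' := uu_pos hq hn'
  have hp1 : uu q n' ≤ 1 := P_le_one hq0 _ _ _
  have hd : (0 : ℤ) < 3 * n' := by omega
  obtain ⟨K, hK1, hK2, hK3⟩ : ∃ K : ℕ, 4 * n ≤ 3 * n' * (K : ℤ) ∧ 3 * n' * (K : ℤ) ≤ 4 * n + 3 * n' ∧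
      K ≤ 1601 := by
    have e1 := Int.mul_ediv_add_emod (4 * n) (3 * n')
    have e2 := Int.emod_nonneg (4 * n) hd.ne'
    have e3 := Int.emod_lt_of_pos (4 * n) hd
    have e4 : 0 ≤ 4 * n / (3 * n') := Int.ediv_nonneg (by omega) hd.le
    have e5 : 4 * n / (3 * n') ≤ 1600 := by
      by_contra hcon
      push Not at hcon
      have : 3 * n' * 1601 ≤ 3 * n' * (4 * n / (3 * n')) :=
        mul_le_mul_of_nonneg_left (by omega) hd.le
      omega
    refine ⟨(4 * n / (3 * n') + 1).toNat, ?_, ?_, ?_⟩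
    · rw [Int.toNat_of_nonneg (by omega), mul_add, mul_one]
      omega
    · rw [Int.toNat_of_nonneg (by omega), mul_add, mul_one]
      omega
    · omega
  have h1 : ∀ i ≤ K, uu q n' ≤ P q (edgesIn (bxx 0 0 (12 * n))) ∅
      (An (-(2 * n) + 3 * n' * (i : ℤ)) y n') := by
    intro i hi
    apply An_le hq
    have hi' : (i : ℤ) ≤ K := by exact_mod_cast hi
    have hi0 : 0 ≤ 3 * n' * (i : ℤ) := by positivity
    have hi1 : 3 * n' * (i : ℤ) ≤ 3 * n' * (K : ℤ) := mul_le_mul_of_nonneg_left hi' hd.le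
    intro v hv
    unfold bxx at hv ⊢
    rw [mem_rect] at hv ⊢
    omega
  have h3 := nu1_fkg hq hp0.le (bxx 0 0 (12 * n)) y n' (fun i => -(2 * n) + 3 * n' * (i : ℤ)) K h1
  have h4 : uu q n' ^ 1602 ≤ uu q n' ^ (K + 1) := pow_le_pow_of_le_one hp0.le hp1 (by omega)
  refine h4.trans (h3.trans (P_mono hq0 fun ζ _ hA => ?_))
  have h5 := hor_of_An hn' K hA
  have h6 := Pool.Agent.H95.Perc.hor_shrink (x0' := -(2 * n)) (x1' := 2 * n) (by omega) (by omega)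
    (by omega) h5
  exact Pool.Agent.H95.Perc.hor_mono hy0 hyy h6

theorem uu_scale (hq : 1 ≤ q) : ∃ K : ℕ, 1 ≤ K ∧ ∀ n' n : ℤ, 1 ≤ n' → 2 * n' ≤ n → n ≤ 1200 * n' →
    (uu q n') ^ K ≤ uu q n := by
  refine ⟨1602 * 4, by norm_num, fun n' n hn' h2 h12 => ?_⟩
  have hq0 : 0 < q := by linarith
  have hp0 : 0 < uu q n' := uu_pos hq hn'
  have t1 := nu1_hor hq hn' h2 h12 (y := n) (y0 := n) (y1 := 2 * n) (by omega) (by omega) (by omega)
    (by omega)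
  have t2 := nu1_hor hq hn' h2 h12 (y := -n - 2 * n') (y0 := -(2 * n)) (y1 := -n) (by omega)
    (by omega) (by omega) (by omega)
  have t3 := t2
  rw [P_box_diag hq] at t3
  have t4 := t1
  rw [P_box_diag hq] at t4
  have i1 := Pool.Agent.H95.Perc.inc_hor (-(2 * n)) (2 * n) n (2 * n)
  have i2 := Pool.Agent.H95.Perc.inc_hor (-(2 * n)) (2 * n) (-(2 * n)) (-n)
  have i3 := Pool.Agent.H95.Perc.inc_ver (-(2 * n)) (-n) (-(2 * n)) (2 * n)
  have i4 := Pool.Agent.H95.Perc.inc_ver n (2 * n) (-(2 * n)) (2 * n)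
  have hpp : 0 ≤ uu q n' ^ 1602 := by positivity
  have f1 := nu1_and hq (bxx 0 0 (12 * n)) i3 i4 hpp t3 t4
  have f2 := nu1_and hq (bxx 0 0 (12 * n)) i2
    (B := fun ω => ver (-(2 * n)) (-n) (-(2 * n)) (2 * n) ω ∧ ver n (2 * n) (-(2 * n)) (2 * n) ω)
    (fun s t hst hs => ⟨i3 _ _ hst hs.1, i4 _ _ hst hs.2⟩) (by positivity) t2 f1
  have f3 := nu1_and hq (bxx 0 0 (12 * n)) i1
    (B := fun ω => hor (-(2 * n)) (2 * n) (-(2 * n)) (-n) ω ∧
      ver (-(2 * n)) (-n) (-(2 * n)) (2 * n) ω ∧ ver n (2 * n) (-(2 * n)) (2 * n) ω)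
    (fun s t hst hs => ⟨i2 _ _ hst hs.1, i3 _ _ hst hs.2.1, i4 _ _ hst hs.2.2⟩) (by positivity) t1 f2
  have e1 : uu q n' ^ (1602 * 4) =
      uu q n' ^ 1602 * (uu q n' ^ 1602 * (uu q n' ^ 1602 * uu q n' ^ 1602)) := by
    rw [pow_mul]; ring
  rw [e1]
  refine f3.trans ?_
  unfold uu
  refine P_mono hq0 fun ζ _ hA => ?_
  unfold An
  simp only [zero_sub, zero_add]
  exact hA

end Pool.Agent.FKR
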