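import Pool.Agent.FKR.AnDefs
import Pool.Agent.FKR.CnPath
import Pool.Agent.FKR.MapP
import Pool.Agent.H95.Wedge.DynDefs

/-! # FKR/SDefs (MP_b3e76a_pr): definitions for stage 3 (arm events in the wedge) -/

namespace Pool.Agent.FKR

open Finset
open Pool.Agent.H95.Perc (Inc conn link rect hor ver eh ev mem_rect)
open Pool.Agent.H95.SumRule (edgesIn Z2)
open Pool.Agent.H95.Wedge (Vtx pt verts edges)

/-- the tip of the wedge -/
def tip : Vtx := (0, 0, 0)

/-- sup norm of a vertex of the wedge -/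
def nm (v : Vtx) : ℕ := max v.2.1 v.2.2

/-- edges of the wedge with `m` quadrants of side `n` -/
noncomputable def WE (m n : ℕ) : Finset (Sym2 Vtx) := edges m fun _ => n

/-- the edges of its outer boundary -/
noncomputable def WSp (m n : ℕ) : Finset (Sym2 Vtx) := ins (fun v => nm v = n) (WE m n)

/-- chart around the ray `j`: the half plane `x ≥ 0` is the union of the quadrants `j` (`y ≥ 0`) and `j - 1` (`y ≤ 0`) -/
def ch (j : ℤ) (p : ℤ × ℤ) : Vtx :=
  if 0 ≤ p.2 then pt j p.1.toNat p.2.toNat else pt (j - 1) (-p.2).toNat p.1.toNat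

/-- the tip is connected to distance `n` -/
def Arm (n : ℕ) (ω : Finset (Sym2 Vtx)) : Prop := ∃ v, n ≤ nm v ∧ Cn ω tip v

/-- arm probability of the tip, wired outer boundary -/
noncomputable def wA (q : ℝ) (m n : ℕ) : ℝ := P q (WE m n \ WSp m n) (WSp m n) (Arm n)

/-- `s` is connected to the box of radius `r` around `(x, y)` -/
def Hit (f : ℤ × ℤ → Vtx) (s : Vtx) (x y r : ℤ) (ω : Finset (Sym2 Vtx)) : Prop :=
  ∃ p ∈ bxx x y r, Cn ω s (f p)

/-- the box of radius `r` is not connected to the outside of the box of radius `32 r` -/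
def Blk (f : ℤ × ℤ → Vtx) (x y r : ℤ) (ω : Finset (Sym2 Vtx)) : Prop :=
  ∀ p ∈ bxx x y r, ∀ v, v ∉ (bxx x y (32 * r - 1)).image f → ¬ Cn ω (f p) v

open Classical in
/-- the configuration seen through the patch `f` -/
noncomputable def pull (f : ℤ × ℤ → Vtx) (V : Finset (ℤ × ℤ)) (ω : Finset (Sym2 Vtx)) :
    Finset (Sym2 (ℤ × ℤ)) := (edgesIn V).filter fun e => e.map f ∈ ω

/-- `f` embeds a rectangle in the graph with edge set `E`, all edges at interior points come from the rectangle -/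
structure Patch (f : ℤ × ℤ → Vtx) (X0 X1 Y0 Y1 : ℤ) (E : Finset (Sym2 Vtx)) : Prop where
  inj : Set.InjOn f (rect X0 X1 Y0 Y1 : Set (ℤ × ℤ))
  sub : img f (edgesIn (rect X0 X1 Y0 Y1)) ⊆ E
  loc : ∀ e ∈ E, ∀ p ∈ rect (X0 + 1) (X1 - 1) (Y0 + 1) (Y1 - 1), f p ∈ e →
    e ∈ img f (edgesIn (rect X0 X1 Y0 Y1))

/-- half-plane patch: `a ≥ 0` is the distance to the flat boundary, `f (0, 0)` is the boundary point -/
structure FlatSub (f : ℤ × ℤ → Vtx) (n : ℕ) (E : Finset (Sym2 Vtx)) : Prop where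
  inj : Set.InjOn f (rect 0 n (-n) n : Set (ℤ × ℤ))
  sub : img f (edgesIn (rect 0 n (-n) n)) ⊆ E

structure FlatLoc (f : ℤ × ℤ → Vtx) (n : ℕ) (E : Finset (Sym2 Vtx)) : Prop where
  inj : Set.InjOn f (rect 0 n (-n) n : Set (ℤ × ℤ))
  loc : ∀ e ∈ E, ∀ p ∈ rect 0 (n - 1) (-n + 1) (n - 1), f p ∈ e →
    e ∈ img f (edgesIn (rect 0 n (-n) n))

/-- the boundary point of a half-plane patch is connected to distance `n` -/
def FArm (f : ℤ × ℤ → Vtx) (n : ℕ) (ω : Finset (Sym2 Vtx)) : Prop :=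
  ∃ v, v ∉ (rect 0 (n - 1) (-n + 1) (n - 1)).image f ∧ Cn ω (f (0, 0)) v

end Pool.Agent.FKR
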