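import Pool.Agent.FKR.WG

/-! # FKR/WArm (MP_b3e76a_pr): a long connection in one chart of the wedge

`1 ≤ q < 4`. Choose `M ≥ 1` with `√q ≤ 2 cos (π / (M + 2))` (exists since `√q < 2`, continuity of `cos`), then
`Wedge.exists_index` gives `m ≥ 1` with `2 cos (π / (m + 1)) < √q ≤ 2 cos (π / (m + 2))`, and `Wedge.cut_arm` gives a vertex `v` on the
outer boundary of the wedge of `m` quadrants with side length `N` such that `c / N ≤ G q (verts) (ER) (0,0,0) v`; `ER ⊆ edges`.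
`G q V E x y = PP q V E (fun ω => (openGraph ω).Reachable x y)` by definition; `P_free` (V ⊇ vts E) turns this into
`P q (ER m _) ∅ (fun ω => Cn ω (0,0,0) v)`, and `P_mono_EF` into the same for `edges m _`.

`arm_chart` (deterministic): for `ω ⊆ edges m (fun _ => N.toNat)`, if the tip is connected to an outer vertex `v` then for some
`0 ≤ j ≤ m` and `|a|, |b| ≤ N` the vertices `uc j (a, 1)` and `uc j (b, N)` are connected within `y ≥ 1`.
Proof. Let `nrm v = max v.2.1 v.2.2`. All vertices of `edges m _` have `nrm ≤ N`. An outer vertex `v` (`0 ≤ v.1 < m`, `1 ≤ v.2.1`) with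
`v.2.1 = N` is `uc (v.1) (-v.2.2, N)` (`j = v.1`), one with `v.2.2 = N` is `uc (v.1 + 1) (v.2.1, N)` (`j = v.1 + 1 ≤ m`). Use `Cn_exit` with
`B w = ∃ z ∈ rect (-N) N 1 N, w = uc j z` starting from `v`: the tip does not satisfy `B`; so there is an edge `s(x, y) ∈ ω`,
`B x`, `¬ B y`, and `x` is connected to `v` by edges of `ω` with both ends in `B`. Write `x = uc j z`; by `mem_WEd_up` `y = uc j z'` with
`s(z, z') ∈ edgesIn (rect (-N) N 0 N)`, hence `z'.2 = 0` and `z.2 = 1`. Edges of `ω` with both ends in `B` are in `upW j N`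
(`mem_WEd_up` again).
Union bound (`P_exists_le`) over `(m + 1) (2 N + 1)^2 ≤ 9 (m + 1) N^2` triples `(j, a, b)`, then `P_mono_EF` from `edges` to `WEd m N`
(`edges_sub_WEd`). -/

namespace Pool.Agent.FKR

open Finset
open Pool.Agent.H95.Wedge (Vtx pt)
open Pool.Agent.H95.Perc (Inc conn link rect hor ver eh ev sumE sepE Inci mem_rect)
open Pool.Agent.H95.SumRule (edgesIn Z2)

/-- first exit from a set of vertices -/
theorem Cn_exit {α : Type*} [DecidableEq α] {ω : Finset (Sym2 α)} {u v : α} (h : Cn ω u v)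
    {B : α → Prop} [DecidablePred fun e : Sym2 α => ∀ x ∈ e, B x] (hu : B u) (hv : ¬ B v) :
    ∃ a b, s(a, b) ∈ ω ∧ B a ∧ ¬ B b ∧ Cn (ω.filter fun e => ∀ x ∈ e, B x) u a := by
  by_contra hcon
  push Not at hcon
  have key := h.closed (S := fun x => B x ∧ Cn (ω.filter fun e => ∀ x ∈ e, B x) u x)
    ⟨hu, Cn_refl _ _⟩ (by
      rintro x y ⟨hx, hc⟩ hxy
      by_cases hy : B y
      · refine ⟨hy, hc.trans (Cn_edge ?_)⟩
        rw [mem_filter]
        refine ⟨hxy, fun z hz => ?_⟩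
        rcases Sym2.mem_iff.1 hz with rfl | rfl
        · exact hx
        · exact hy
      · exact absurd hc (hcon x y hxy hx hy))
  exact hv key.1

/-- a connection from the tip to an outer vertex -/
theorem tip_arm {q : ℝ} (hq : 1 ≤ q) (hq4 : q < 4) : ∃ (m : ℕ) (c : ℝ), 1 ≤ m ∧ 0 < c ∧
    ∀ N : ℤ, 1 ≤ N → ∃ v : Vtx, 0 ≤ v.1 ∧ v.1 < m ∧ 1 ≤ v.2.1 ∧ v.2.1 ≤ N ∧ v.2.2 ≤ N ∧
      (v.2.1 = N ∨ v.2.2 = N) ∧
      c / N ≤ P q (Pool.Agent.H95.Wedge.edges m (fun _ => N.toNat)) ∅ (fun ω => Cn ω (0, 0, 0) v) := by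
  have hq0 : 0 < q := by linarith
  have hr : √q < 2 := by
    rw [Real.sqrt_lt' (by norm_num)]
    linarith
  have hr1 : 1 ≤ √q := by
    rw [Real.one_le_sqrt]
    exact hq
  obtain ⟨M, hM1, hM⟩ : ∃ M : ℕ, 1 ≤ M ∧ √q ≤ 2 * Real.cos (Real.pi / (M + 2)) := by
    have ht : Filter.Tendsto (fun M : ℕ => 2 * Real.cos (Real.pi / ((M : ℝ) + 2))) Filter.atTop
        (nhds (2 * Real.cos 0)) := by
      refine Filter.Tendsto.const_mul 2 ?_
      refine (Real.continuous_cos.tendsto 0).comp ?_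
      refine Filter.Tendsto.div_atTop tendsto_const_nhds ?_
      exact Filter.tendsto_atTop_add_const_right _ _ tendsto_natCast_atTop_atTop
    rw [Real.cos_zero, mul_one] at ht
    have h1 := (ht.eventually (eventually_gt_nhds hr)).and (Filter.eventually_ge_atTop 1)
    obtain ⟨M, hM, hM1⟩ := h1.exists
    exact ⟨M, hM1, hM.le⟩
  obtain ⟨m, hm1, -, h1, h2⟩ := Pool.Agent.H95.Wedge.exists_index hr1 hM1 hM
  obtain ⟨c, hc, H⟩ := Pool.Agent.H95.Wedge.cut_arm hq0 hm1 h1 h2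
  refine ⟨m, c, hm1, hc, fun N hN => ?_⟩
  have hNN : ((N.toNat : ℕ) : ℤ) = N := Int.toNat_of_nonneg (by omega)
  obtain ⟨v, a1, a2, a3, a4, a5, a6, a7⟩ := H N.toNat (by omega)
  refine ⟨v, a1, a2, a3, by omega, by omega, by omega, ?_⟩
  have hg := Pool.Agent.H95.Wedge.good_wedge m (fun _ => N.toNat)
  have hNL : NL (Pool.Agent.H95.Wedge.edges m (fun _ => N.toNat)) := by
    intro e he
    induction e with
    | _ x y =>
      rw [Sym2.mk_isDiag_iff]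
      exact (hg x y he).2.2
  have hsub : Pool.Agent.H95.Wedge.ER m (fun _ => N.toNat) ⊆
      Pool.Agent.H95.Wedge.edges m (fun _ => N.toNat) := Pool.Agent.H95.Wedge.ER_subset
  have hV : vts (Pool.Agent.H95.Wedge.ER m (fun _ => N.toNat)) ⊆
      Pool.Agent.H95.Wedge.verts m (fun _ => N.toNat) := by
    intro x hx
    obtain ⟨e, he, hxe⟩ := mem_vts.1 hx
    have he2 := hsub he
    induction e with
    | _ y z =>
      rcases Sym2.mem_iff.1 hxe with rfl | rfl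
      · exact (hg _ _ he2).1
      · exact (hg _ _ he2).2.1
  have e1 : P q (Pool.Agent.H95.Wedge.ER m (fun _ => N.toNat)) ∅ (fun ω => Cn ω (0, 0, 0) v) =
      Pool.Agent.H95.Wedge.G q (Pool.Agent.H95.Wedge.verts m fun _ => N.toNat)
        (Pool.Agent.H95.Wedge.ER m fun _ => N.toNat) (0, 0, 0) v :=
    P_free hq0 (hNL.mono hsub) hV _
  have e2 : P q (Pool.Agent.H95.Wedge.ER m (fun _ => N.toNat)) ∅ (fun ω => Cn ω (0, 0, 0) v) ≤
      P q (Pool.Agent.H95.Wedge.edges m (fun _ => N.toNat)) ∅ (fun ω => Cn ω (0, 0, 0) v) :=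
    P_mono_EF hq hNL (fun e he => absurd he (notMem_empty e))
      (hsub.trans subset_union_left) (Subset.refl _) (inc_Cn _ _)
  have e3 : (N : ℝ) = ((N.toNat : ℕ) : ℝ) := by
    conv_lhs => rw [← hNN]
    exact Int.cast_natCast _
  rw [e3]
  linarith

theorem arm_chart {m : ℕ} {N : ℤ} (hN : 2 ≤ N) {ω : Finset (Sym2 Vtx)}
    (hω : ω ⊆ Pool.Agent.H95.Wedge.edges m (fun _ => N.toNat)) {v : Vtx} (h0 : 0 ≤ v.1) (hm : v.1 < m)
    (h1 : 1 ≤ v.2.1) (h2 : v.2.1 ≤ N) (h3 : v.2.2 ≤ N) (h4 : v.2.1 = N ∨ v.2.2 = N)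
    (h : Cn ω (0, 0, 0) v) : ∃ j a b : ℤ, 0 ≤ j ∧ j ≤ m ∧ |a| ≤ N ∧ |b| ≤ N ∧
      UpC j N (a, 1) (b, N) ω := by
  classical
  have hNN : ((N.toNat : ℕ) : ℤ) = N := Int.toNat_of_nonneg (by omega)
  -- the chart
  obtain ⟨j, b, hj0, hjm, hb1, hb2, hv⟩ : ∃ j b : ℤ, 0 ≤ j ∧ j ≤ m ∧ -N ≤ b ∧ b ≤ N ∧
      v = uc j (b, N) := by
    obtain ⟨k, x, y⟩ := v
    simp only at h0 hm h1 h2 h3 h4
    rcases h4 with h4 | h4
    · refine ⟨k, -(y : ℤ), h0, by omega, by omega, by omega, ?_⟩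
      rcases Nat.eq_zero_or_pos y with rfl | hy
      · rw [show (-((0 : ℕ) : ℤ)) = 0 by simp, uc_zero (by omega)]
        rw [← h4, Int.toNat_natCast]
      · rw [uc_neg (by omega) (by omega), ← h4, neg_neg, Int.toNat_natCast, Int.toNat_natCast]
    · refine ⟨k + 1, (x : ℤ), by omega, by omega, by omega, by omega, ?_⟩
      rw [uc_pos (by omega), ← h4, Int.toNat_natCast, Int.toNat_natCast, add_sub_cancel_right]
  have hWEd : ω ⊆ WEd m N := hω.trans (edges_sub_WEd (by omega))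
  set B : Vtx → Prop := fun w => ∃ z ∈ rect (-N) N 1 N, w = uc j z with hB
  have hvB : B v := ⟨(b, N), mem_rect.2 ⟨hb1, hb2, by simp only; omega, le_refl _⟩, hv⟩
  have htB : ¬ B (0, 0, 0) := by
    rintro ⟨z, hz, hz2⟩
    rw [mem_rect] at hz
    rw [← uc_tip (j := j)] at hz2
    have h5 : (0, 0) = z := uc_injOn j (show (0 : ℤ) ≤ 0 by omega) (show 0 ≤ z.2 by omega) hz2
    rw [← h5] at hz
    simp only at hz
    omega
  obtain ⟨x, y, hxy, ⟨z, hz, rfl⟩, hyB, hc⟩ := Cn_exit h.symm hvB htB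
  have hz' := mem_rect.1 hz
  obtain ⟨z', rfl, hzz⟩ := mem_WEd_up (m := m) (by omega) (by omega) hz'.2.2.1 (hWEd hxy)
  obtain ⟨g1, g2, g3⟩ := Pool.Agent.H95.Perc.mem_edgesIn'.1 hzz
  rw [mem_rect] at g1 g2
  have hz2 : z.2 = 1 := by
    have h5 : ¬ (1 ≤ z'.2) := fun h5 => hyB ⟨z', mem_rect.2 ⟨g2.1, g2.2.1, h5, g2.2.2.2⟩, rfl⟩
    have h6 : Pool.Agent.H95.SumRule.IsUnit2 (z' - z) := g3
    unfold Pool.Agent.H95.SumRule.IsUnit2 at h6
    rw [Prod.fst_sub, Prod.snd_sub] at h6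
    omega
  refine ⟨j, z.1, b, hj0, hjm, abs_le.2 ⟨hz'.1, hz'.2.1⟩, abs_le.2 ⟨hb1, hb2⟩, ?_⟩
  unfold UpC
  rw [← hz2, ← hv]
  refine (hc.mono ?_).symm
  intro e he
  rw [mem_filter] at he
  rw [mem_inter]
  refine ⟨he.1, ?_⟩
  obtain ⟨he1, he2⟩ := he
  induction e with
  | _ x y =>
    obtain ⟨w1, hw1, rfl⟩ := he2 x (Sym2.mem_mk_left _ _)
    obtain ⟨w2, hw2, rfl⟩ := he2 y (Sym2.mem_mk_right _ _)
    have k1 := mem_rect.1 hw1
    have k2 := mem_rect.1 hw2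
    obtain ⟨w', hw', hww⟩ := mem_WEd_up (m := m) (by omega) (by omega) k1.2.2.1 (hWEd he1)
    obtain ⟨l1, l2, l3⟩ := Pool.Agent.H95.Perc.mem_edgesIn'.1 hww
    have l2' := mem_rect.1 l2
    have : w2 = w' := uc_injOn j (show 0 ≤ w2.2 by omega) (show 0 ≤ w'.2 by omega) hw'
    subst this
    exact mem_img_of_mem (Pool.Agent.H95.Perc.mem_edgesIn'.2 ⟨hw1, hw2, l3⟩)

theorem warm {q : ℝ} (hq : 1 ≤ q) (hq4 : q < 4) : ∃ (m : ℕ) (c : ℝ), 0 < c ∧
    ∀ N : ℤ, 2 ≤ N → ∃ j a b : ℤ, 0 ≤ j ∧ j ≤ m ∧ |a| ≤ N ∧ |b| ≤ N ∧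
      c / (N : ℝ) ^ 3 ≤ P q (WEd m N) ∅ (UpC j N (a, 1) (b, N)) := by
  classical
  have hq0 : 0 < q := by linarith
  obtain ⟨m, c, hm, hc, H⟩ := tip_arm hq hq4
  have hm0 : (0 : ℝ) < m + 1 := by positivity
  refine ⟨m, c / (9 * (m + 1)), by positivity, fun N hN => ?_⟩
  obtain ⟨v, a1, a2, a3, a4, a5, a6, a7⟩ := H N (by omega)
  by_contra hcon
  push Not at hcon
  set T : Finset (ℤ × ℤ × ℤ) := Icc 0 (m : ℤ) ×ˢ Icc (-N) N ×ˢ Icc (-N) N with hT
  have hNpos : (0 : ℝ) < N := by exact_mod_cast (show (0 : ℤ) < N by omega)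
  have hN1 : (1 : ℝ) ≤ N := by exact_mod_cast (show (1 : ℤ) ≤ N by omega)
  have e1 : P q (Pool.Agent.H95.Wedge.edges m (fun _ => N.toNat)) ∅ (fun ω => Cn ω (0, 0, 0) v) ≤
      P q (Pool.Agent.H95.Wedge.edges m (fun _ => N.toNat)) ∅
        (fun ω => ∃ t ∈ T, UpC t.1 N (t.2.1, 1) (t.2.2, N) ω) := by
    refine P_mono hq0 fun ζ hζ hC => ?_
    obtain ⟨j, a, b, hj0, hjm, ha, hb, hU⟩ := arm_chart hN
      (by rw [union_empty]; exact hζ) a1 a2 a3 a4 a5 a6 hC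
    refine ⟨(j, a, b), ?_, hU⟩
    rw [hT, mem_product, mem_product, mem_Icc, mem_Icc, mem_Icc]
    exact ⟨⟨hj0, hjm⟩, abs_le.1 ha, abs_le.1 hb⟩
  have e2 := P_exists_le hq0 (Pool.Agent.H95.Wedge.edges m (fun _ => N.toNat)) ∅ T
    (fun t => UpC t.1 N (t.2.1, 1) (t.2.2, N))
  have hNE : NL (∅ : Finset (Sym2 Vtx)) := fun e he => absurd he (notMem_empty e)
  have e3 : ∀ t ∈ T, P q (Pool.Agent.H95.Wedge.edges m (fun _ => N.toNat)) ∅
      (UpC t.1 N (t.2.1, 1) (t.2.2, N)) ≤ c / (9 * (m + 1)) / (N : ℝ) ^ 3 := by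
    rintro ⟨j, a, b⟩ ht
    rw [hT, mem_product, mem_product, mem_Icc, mem_Icc, mem_Icc] at ht
    simp only at ht
    refine le_trans ?_ (hcon j a b ht.1.1 ht.1.2 (abs_le.2 ht.2.1) (abs_le.2 ht.2.2)).le
    exact P_mono_EF hq NL_WEd hNE ((edges_sub_WEd (by omega)).trans subset_union_left)
      (Subset.refl _) (inc_UpC _ _)
  have hne : ∃ t ∈ T, P q (Pool.Agent.H95.Wedge.edges m (fun _ => N.toNat)) ∅
      (UpC t.1 N (t.2.1, 1) (t.2.2, N)) < c / (9 * (m + 1)) / (N : ℝ) ^ 3 := by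
    refine ⟨(0, 0, 0), ?_, ?_⟩
    · rw [hT, mem_product, mem_product, mem_Icc, mem_Icc]
      simp only
      omega
    · refine lt_of_le_of_lt ?_ (hcon 0 0 0 (le_refl _) (by omega) (by simp; omega) (by simp; omega))
      exact P_mono_EF hq NL_WEd hNE ((edges_sub_WEd (by omega)).trans subset_union_left)
        (Subset.refl _) (inc_UpC _ _)
  have e4 := sum_lt_sum e3 hne
  rw [sum_const, nsmul_eq_mul] at e4
  have hcard : ((#T : ℕ) : ℝ) ≤ (m + 1) * (9 * (N : ℝ) ^ 2) := by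
    have h5 : ((#T : ℕ) : ℝ) = (m + 1) * ((2 * N + 1) * (2 * N + 1)) := by
      rw [hT, card_product, card_product, Int.card_Icc, Int.card_Icc]
      push_cast
      have h6 : (((m : ℤ) + 1 - 0).toNat : ℝ) = m + 1 := by
        rw [show ((m : ℤ) + 1 - 0).toNat = m + 1 by omega]
        push_cast
        ring
      have h7 : (((N + 1 - -N).toNat : ℕ) : ℝ) = 2 * N + 1 := by
        have h8 : (((N + 1 - -N).toNat : ℕ) : ℤ) = 2 * N + 1 := by
          rw [Int.toNat_of_nonneg (by omega)]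
          ring
        have h9 : ((((N + 1 - -N).toNat : ℕ) : ℤ) : ℝ) = ((2 * N + 1 : ℤ) : ℝ) := by rw [h8]
        push_cast at h9
        exact h9
      rw [h6, h7]
    rw [h5]
    refine mul_le_mul_of_nonneg_left ?_ hm0.le
    nlinarith
  have e5 : (#T : ℝ) * (c / (9 * (m + 1)) / (N : ℝ) ^ 3) ≤ c / N := by
    have h5 := mul_le_mul_of_nonneg_right hcard
      (show 0 ≤ c / (9 * ((m : ℝ) + 1)) / (N : ℝ) ^ 3 by positivity)
    refine h5.trans (le_of_eq ?_)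
    field_simp
  linarith

end Pool.Agent.FKR
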