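import Pool.Agent.FKR.SFactsDef

/-! # FKR/WB1 (MP_b3e76a_pr): elementary geometry of the wedge

`pt k x y` for `0 ≤ k < m`, `0 ≤ x, y ≤ n` are the vertices; quadrant `k`, chart `j`: `ch j (x, y) = pt j x y` for `y ≥ 0` and
`pt (j-1) (-y) x` for `y < 0` (`x ≥ 0`). All statements by unfolding `WE`, `edges`, `pt`, `ch`, case distinctions and `omega`.
(`pt k 0 y = (k + 1, y, 0)` for `y ≠ 0`, `pt k x 0 = (k, x, 0)` for `x ≠ 0`, `pt k 0 0 = (0, 0, 0)`.) -/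

namespace Pool.Agent.FKR

open Finset
open Pool.Agent.H95.Perc (Inc conn link rect hor ver eh ev mem_rect)
open Pool.Agent.H95.SumRule (edgesIn Z2)
open Pool.Agent.H95.Wedge (Vtx pt verts edges)

lemma wb_pt (k : ℤ) (x y : ℕ) : pt k x y = (if x = 0 then (if y = 0 then 0 else k + 1) else k,
    if x = 0 then y else x, if x = 0 then 0 else y) := by
  unfold pt
  split_ifs <;> simp_all

lemma wb_ptch (k : ℤ) (x y : ℕ) : pt k x y = ch k ((x : ℤ), (y : ℤ)) := by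
  simp [ch]

lemma wb_chpt (k : ℤ) {x y : ℤ} (hy : 0 ≤ y) : ch k (x, y) = pt k x.toNat y.toNat := by
  simp [ch, hy]

theorem nm_pt (k : ℤ) (x y : ℕ) : nm (pt k x y) = max x y := by
  rw [wb_pt]
  unfold nm
  by_cases hx : x = 0
  · simp [hx]
  · simp [hx]

theorem nm_tip : nm tip = 0 := by simp [nm, tip]

theorem nm_ch (j : ℤ) {p : ℤ × ℤ} (hp : 0 ≤ p.1) : (nm (ch j p) : ℤ) = max p.1 |p.2| := by
  obtain ⟨x, y⟩ := p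
  simp only at hp
  unfold ch
  simp only
  split_ifs with h
  · rw [nm_pt, abs_of_nonneg h]
    omega
  · rw [nm_pt, abs_of_nonpos (by omega : y ≤ 0)]
    omega

theorem ch_zero (j : ℤ) : ch j (0, 0) = tip := by
  simp [ch, pt, tip]

theorem ch_inj (j : ℤ) : Set.InjOn (ch j) {p | 0 ≤ p.1} := by
  rintro ⟨x, y⟩ hx ⟨x', y'⟩ hx' h
  simp only [Set.mem_ofPred_eq] at hx hx'
  unfold ch at h
  simp only at h
  split_ifs at h with h1 h2 h2 <;> rw [wb_pt, wb_pt] at h <;>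
    simp only [Prod.mk.injEq] at h <;> obtain ⟨ha, hb, hc⟩ := h <;>
    split_ifs at ha hb hc <;> simp only [Prod.mk.injEq] <;> omega

/-- the quadrant `j` is seen in the charts `j` and `j + 1` -/
theorem ch_succ (j : ℤ) {x y : ℤ} (hx : 0 ≤ x) (hy : 0 ≤ y) : ch j (x, y) = ch (j + 1) (y, -x) := by
  unfold ch
  simp only
  rw [if_pos hy]
  split_ifs with h
  · have : x = 0 := by omega
    subst this
    rw [wb_pt, wb_pt]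
    simp only [Prod.mk.injEq]
    refine ⟨?_, ?_, ?_⟩ <;> split_ifs <;> simp_all
  · rw [neg_neg, add_sub_cancel_right]

lemma wb_mem {m n : ℕ} {e : Sym2 Vtx} : e ∈ WE m n ↔ ∃ k : ℤ, 0 ≤ k ∧ k < m ∧ ∃ x y : ℕ,
    (x < n ∧ y ≤ n ∧ e = s(pt k x y, pt k (x + 1) y)) ∨
    (x ≤ n ∧ y < n ∧ e = s(pt k x y, pt k x (y + 1))) := by
  unfold WE edges
  simp only [mem_biUnion, mem_Ico, mem_union, mem_image, mem_product, mem_range, Prod.exists]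
  constructor
  · rintro ⟨k, ⟨h1, h2⟩, (⟨x, y, ⟨hx, hy⟩, rfl⟩ | ⟨x, y, ⟨hx, hy⟩, rfl⟩)⟩
    · exact ⟨k, h1, h2, x, y, Or.inl ⟨hx, by omega, rfl⟩⟩
    · exact ⟨k, h1, h2, x, y, Or.inr ⟨by omega, hy, rfl⟩⟩
  · rintro ⟨k, h1, h2, x, y, (⟨hx, hy, rfl⟩ | ⟨hx, hy, rfl⟩)⟩
    · exact ⟨k, ⟨h1, h2⟩, Or.inl ⟨x, y, ⟨hx, by omega⟩, rfl⟩⟩
    · exact ⟨k, ⟨h1, h2⟩, Or.inr ⟨x, y, ⟨by omega, hy⟩, rfl⟩⟩

theorem WE_NL (m n : ℕ) : NL (WE m n) := by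
  intro e he
  rw [wb_mem] at he
  obtain ⟨k, h1, h2, x, y, (⟨hx, hy, rfl⟩ | ⟨hx, hy, rfl⟩)⟩ := he
  · rw [Sym2.mk_isDiag_iff, wb_pt, wb_pt]
    simp only [Prod.mk.injEq]
    rintro ⟨ha, hb, hc⟩
    split_ifs at ha hb hc <;> omega
  · rw [Sym2.mk_isDiag_iff, wb_pt, wb_pt]
    simp only [Prod.mk.injEq]
    rintro ⟨ha, hb, hc⟩
    split_ifs at ha hb hc <;> omega

theorem WE_mono {m m' n n' : ℕ} (hm : m ≤ m') (hn : n ≤ n') : WE m n ⊆ WE m' n' := by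
  intro e he
  rw [wb_mem] at he ⊢
  obtain ⟨k, h1, h2, x, y, (⟨hx, hy, rfl⟩ | ⟨hx, hy, rfl⟩)⟩ := he
  · exact ⟨k, h1, by omega, x, y, Or.inl ⟨by omega, by omega, rfl⟩⟩
  · exact ⟨k, h1, by omega, x, y, Or.inr ⟨by omega, by omega, rfl⟩⟩

lemma wb_adj {a b : ℤ × ℤ} : Z2.Adj a b ↔ (a.2 = b.2 ∧ (b.1 = a.1 + 1 ∨ a.1 = b.1 + 1)) ∨
    (a.1 = b.1 ∧ (b.2 = a.2 + 1 ∨ a.2 = b.2 + 1)) := by
  obtain ⟨a1, a2⟩ := a
  obtain ⟨b1, b2⟩ := b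
  change Pool.Agent.H95.SumRule.IsUnit2 _ ↔ _
  unfold Pool.Agent.H95.SumRule.IsUnit2
  simp only [Prod.mk_sub_mk, Prod.mk.injEq]
  omega

lemma wb_ch {m n : ℕ} {k : ℤ} (h0 : 0 ≤ k) (h1 : k < m) {a b : ℤ × ℤ} (h : Z2.Adj a b)
    (ha : 0 ≤ a.1 ∧ a.1 ≤ n ∧ 0 ≤ a.2 ∧ a.2 ≤ n) (hb : 0 ≤ b.1 ∧ b.1 ≤ n ∧ 0 ≤ b.2 ∧ b.2 ≤ n) :
    s(ch k a, ch k b) ∈ WE m n := by
  obtain ⟨a1, a2⟩ := a
  obtain ⟨b1, b2⟩ := b
  simp only at ha hb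
  rw [wb_adj] at h
  simp only at h
  obtain ⟨ha1, ha2, ha3, ha4⟩ := ha
  obtain ⟨hb1, hb2, hb3, hb4⟩ := hb
  lift a1 to ℕ using ha1
  lift a2 to ℕ using ha3
  lift b1 to ℕ using hb1
  lift b2 to ℕ using hb3
  rw [← wb_ptch, ← wb_ptch, wb_mem]
  rcases h with ⟨h, h' | h'⟩ | ⟨h, h' | h'⟩
  · have e1 : b1 = a1 + 1 := by omega
    have e2 : b2 = a2 := by omega
    subst e1 e2
    exact ⟨k, h0, h1, a1, b2, Or.inl ⟨by omega, by omega, rfl⟩⟩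
  · have e1 : a1 = b1 + 1 := by omega
    have e2 : b2 = a2 := by omega
    subst e1 e2
    exact ⟨k, h0, h1, b1, b2, Or.inl ⟨by omega, by omega, Sym2.eq_swap⟩⟩
  · have e1 : b2 = a2 + 1 := by omega
    have e2 : b1 = a1 := by omega
    subst e1 e2
    exact ⟨k, h0, h1, b1, a2, Or.inr ⟨by omega, by omega, rfl⟩⟩
  · have e1 : a2 = b2 + 1 := by omega
    have e2 : b1 = a1 := by omega
    subst e1 e2
    exact ⟨k, h0, h1, b1, b2, Or.inr ⟨by omega, by omega, Sym2.eq_swap⟩⟩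

/-- planar edges give edges of the wedge -/
theorem WE_intro {m n : ℕ} (h1 : 1 ≤ m) {j : ℤ} (hj : 0 ≤ j) (hj' : j ≤ m) {p p' : ℤ × ℤ} (h : Z2.Adj p p')
    (hp : p ∈ rect 0 n (-n) n) (hp' : p' ∈ rect 0 n (-n) n) (h0 : j = 0 → 0 ≤ p.2 ∧ 0 ≤ p'.2)
    (hm : j = m → p.2 ≤ 0 ∧ p'.2 ≤ 0) : s(ch j p, ch j p') ∈ WE m n := by
  rw [mem_rect] at hp hp'
  have hadj := h
  rw [wb_adj] at h
  by_cases hc : 0 ≤ p.2 ∧ 0 ≤ p'.2 ∧ j < m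
  · exact wb_ch hj hc.2.2 hadj ⟨hp.1, hp.2.1, hc.1, hp.2.2.2⟩ ⟨hp'.1, hp'.2.1, hc.2.1, hp'.2.2.2⟩
  · have hd : p.2 ≤ 0 ∧ p'.2 ≤ 0 ∧ 1 ≤ j := by omega
    have e1 : ch j p = ch (j - 1) (-p.2, p.1) := by
      rw [ch_succ (j - 1) (by omega) (by omega)]
      simp
    have e2 : ch j p' = ch (j - 1) (-p'.2, p'.1) := by
      rw [ch_succ (j - 1) (by omega) (by omega)]
      simp
    rw [e1, e2]
    refine wb_ch (by omega) (by omega) ?_ ?_ ?_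
    · rw [wb_adj]
      simp only
      omega
    · simp only
      omega
    · simp only
      omega

lemma wb_eq {j k : ℤ} {p : ℤ × ℤ} {x y : ℕ} (hp : 1 ≤ p.1) (h : ch j p = pt k x y) :
    (j = k ∧ p = ((x : ℤ), (y : ℤ))) ∨ (j = k + 1 ∧ p = ((y : ℤ), -(x : ℤ))) := by
  obtain ⟨p1, p2⟩ := p
  simp only at hp
  unfold ch at h
  simp only at h
  simp only [Prod.mk.injEq]
  split_ifs at h with h1 <;> rw [wb_pt, wb_pt] at h <;>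
    simp only [Prod.mk.injEq] at h <;> obtain ⟨ha, hb, hc⟩ := h <;>
    split_ifs at ha hb hc <;> omega

lemma wb_elim_aux {m n : ℕ} {j k : ℤ} (hk0 : 0 ≤ k) (hk : k < m) {p : ℤ × ℤ} (hp : 1 ≤ p.1)
    {x y x' y' : ℕ} (hadj : Z2.Adj ((x : ℤ), (y : ℤ)) ((x' : ℤ), (y' : ℤ)))
    (hx : x ≤ n) (hy : y ≤ n) (hx' : x' ≤ n) (hy' : y' ≤ n)
    (h : ch j p = pt k x y) {e : Sym2 Vtx} (he : e = s(pt k x y, pt k x' y')) :
    ∃ p', Z2.Adj p p' ∧ 0 ≤ p'.1 ∧ e = s(ch j p, ch j p') ∧ nm (ch j p) ≤ n ∧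
      nm (ch j p') ≤ n ∧ (j = 0 → 0 ≤ p.2 ∧ 0 ≤ p'.2) ∧ (j = m → p.2 ≤ 0 ∧ p'.2 ≤ 0) := by
  have hn1 : nm (pt k x y) ≤ n := by rw [nm_pt]; omega
  have hn2 : nm (pt k x' y') ≤ n := by rw [nm_pt]; omega
  rcases wb_eq hp h with ⟨rfl, rfl⟩ | ⟨rfl, rfl⟩
  · refine ⟨((x' : ℤ), (y' : ℤ)), hadj, by simp, ?_, ?_, ?_, ?_, ?_⟩
    · rw [he, wb_ptch, wb_ptch]
    · rw [h]; exact hn1
    · rw [← wb_ptch]; exact hn2
    · intro _; simp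
    · intro hj; omega
  · have e2 : ch (k + 1) ((y' : ℤ), -(x' : ℤ)) = pt k x' y' := by
      rw [wb_ptch, ch_succ k (by omega) (by omega)]
    refine ⟨((y' : ℤ), -(x' : ℤ)), ?_, by simp, ?_, ?_, ?_, ?_, ?_⟩
    · rw [wb_adj] at hadj ⊢
      simp only at hadj ⊢
      omega
    · rw [he, h, e2]
    · rw [h]; exact hn1
    · rw [e2]; exact hn2
    · intro hj; omega
    · intro _; simp

/-- all edges at a vertex `ch j p`, `p.1 ≥ 1`, are planar edges in the chart `j` -/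
theorem WE_elim {m n : ℕ} {e : Sym2 Vtx} (he : e ∈ WE m n) {j : ℤ} {p : ℤ × ℤ} (hp : 1 ≤ p.1)
    (hpe : ch j p ∈ e) : ∃ p', Z2.Adj p p' ∧ 0 ≤ p'.1 ∧ e = s(ch j p, ch j p') ∧ nm (ch j p) ≤ n ∧
      nm (ch j p') ≤ n ∧ (j = 0 → 0 ≤ p.2 ∧ 0 ≤ p'.2) ∧ (j = m → p.2 ≤ 0 ∧ p'.2 ≤ 0) := by
  rw [wb_mem] at he
  obtain ⟨k, h1, h2, x, y, (⟨hx, hy, rfl⟩ | ⟨hx, hy, rfl⟩)⟩ := he
  · rw [Sym2.mem_iff] at hpe
    rcases hpe with hpe | hpe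
    · exact wb_elim_aux h1 h2 hp (x := x) (y := y) (x' := x + 1) (y' := y)
        (by rw [wb_adj]; exact Or.inl ⟨rfl, Or.inl (by push_cast; rfl)⟩) (by omega) hy (by omega) hy hpe rfl
    · exact wb_elim_aux h1 h2 hp (x := x + 1) (y := y) (x' := x) (y' := y)
        (by rw [wb_adj]; exact Or.inl ⟨rfl, Or.inr (by push_cast; rfl)⟩) (by omega) hy (by omega) hy hpe Sym2.eq_swap
  · rw [Sym2.mem_iff] at hpe
    rcases hpe with hpe | hpe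
    · exact wb_elim_aux h1 h2 hp (x := x) (y := y) (x' := x) (y' := y + 1)
        (by rw [wb_adj]; exact Or.inr ⟨rfl, Or.inl (by push_cast; rfl)⟩) hx (by omega) hx (by omega) hpe rfl
    · exact wb_elim_aux h1 h2 hp (x := x) (y := y + 1) (x' := x) (y' := y)
        (by rw [wb_adj]; exact Or.inr ⟨rfl, Or.inr (by push_cast; rfl)⟩) hx (by omega) hx (by omega) hpe Sym2.eq_swap

lemma wb_vts {m n : ℕ} {v : Vtx} (hv : v ∈ vts (WE m n)) : ∃ k : ℤ, 0 ≤ k ∧ k < m ∧ ∃ x y : ℕ,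
    x ≤ n ∧ y ≤ n ∧ v = pt k x y := by
  unfold vts at hv
  rw [mem_biUnion] at hv
  obtain ⟨e, he, hve⟩ := hv
  rw [Sym2.mem_toFinset] at hve
  rw [wb_mem] at he
  obtain ⟨k, h1, h2, x, y, (⟨hx, hy, rfl⟩ | ⟨hx, hy, rfl⟩)⟩ := he
  · rw [Sym2.mem_iff] at hve
    rcases hve with rfl | rfl
    · exact ⟨k, h1, h2, x, y, by omega, hy, rfl⟩
    · exact ⟨k, h1, h2, x + 1, y, by omega, hy, rfl⟩
  · rw [Sym2.mem_iff] at hve
    rcases hve with rfl | rfl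
    · exact ⟨k, h1, h2, x, y, hx, by omega, rfl⟩
    · exact ⟨k, h1, h2, x, y + 1, hx, by omega, rfl⟩

/-- every vertex except the tip is on the side `x = nm v` of some chart -/
theorem WE_chart {m n : ℕ} {v : Vtx} (hv : v ∈ vts (WE m n)) (hv0 : v ≠ tip) :
    ∃ j : ℤ, 0 ≤ j ∧ j ≤ m ∧ ∃ y : ℤ, |y| ≤ nm v ∧ v = ch j (nm v, y) ∧ (j = 0 → 0 ≤ y) ∧
      (j = m → y ≤ 0) := by
  obtain ⟨k, h1, h2, x, y, hx, hy, rfl⟩ := wb_vts hv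
  by_cases h : y ≤ x
  · refine ⟨k, h1, by omega, y, ?_, ?_, ?_, ?_⟩
    · rw [nm_pt, Nat.abs_cast]
      omega
    · rw [nm_pt, max_eq_left h, wb_ptch]
    · intro _; omega
    · intro _; omega
  · refine ⟨k + 1, by omega, by omega, -(x : ℤ), ?_, ?_, ?_, ?_⟩
    · rw [nm_pt, abs_neg, Nat.abs_cast]
      omega
    · rw [nm_pt, max_eq_right (by omega), wb_ptch, ch_succ k (by omega) (by omega)]
    · intro _; omega
    · intro _; omega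

theorem WE_nm {m n : ℕ} {u v : Vtx} (h : s(u, v) ∈ WE m n) : nm v ≤ nm u + 1 ∧ nm u ≤ n := by
  rw [wb_mem] at h
  obtain ⟨k, h1, h2, x, y, (⟨hx, hy, h⟩ | ⟨hx, hy, h⟩)⟩ := h <;>
  · rw [Sym2.eq_iff] at h
    rcases h with ⟨rfl, rfl⟩ | ⟨rfl, rfl⟩ <;> rw [nm_pt, nm_pt] <;> omega

theorem WE_restrict {m n N : ℕ} {e : Sym2 Vtx} (he : e ∈ WE m N) (h : ∀ v ∈ e, nm v ≤ n) :
    e ∈ WE m n := by
  rw [wb_mem] at he ⊢
  obtain ⟨k, h1, h2, x, y, (⟨hx, hy, rfl⟩ | ⟨hx, hy, rfl⟩)⟩ := he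
  · have a := h (pt k x y) (Sym2.mem_mk_left _ _)
    have b := h (pt k (x + 1) y) (Sym2.mem_mk_right _ _)
    rw [nm_pt] at a b
    exact ⟨k, h1, h2, x, y, Or.inl ⟨by omega, by omega, rfl⟩⟩
  · have a := h (pt k x y) (Sym2.mem_mk_left _ _)
    have b := h (pt k x (y + 1)) (Sym2.mem_mk_right _ _)
    rw [nm_pt] at a b
    exact ⟨k, h1, h2, x, y, Or.inr ⟨by omega, by omega, rfl⟩⟩

end Pool.Agent.FKR
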