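import Pool.Agent.FKR.WG
import Pool.Agent.FKR.Dom

/-! # FKR/WPl (MP_b3e76a_pr): the planar region is planar

`Psi j` is injective on `{z | z.1 ≠ 0 ∨ 0 ≤ z.2}` (values: `z.2 ≥ 0`: closed quadrants `j - 1`, `j`; `z.2 < 0`, `z.1 < 0`: `(j + 1, -z.1, -z.2)`, interior of
quadrant `j + 1`; `z.2 < 0`, `z.1 > 0`: `(j - 2, -z.2, z.1)`, interior of quadrant `j - 2`). An edge of `WEd m N` both ends of which satisfy
`Pla j N s` is the image under `Psi j` of an edge of `edgesIn (bxx 0 0 N)` with both ends in that set: the edge lies in a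
quadrant `k` (`hE j' N` consists of edges of the quadrants `j' - 1`, `j'`): it is `s(qc k a, qc k b)`, `a, b ≥ 0` adjacent. If `k = j - 1, j`: an edge of
the chart `j`. If `k = j + 1`: `a.1, b.1 ≥ 1` (the points of ray `j + 2` and the tip do not satisfy `Pla`), and
`qc (j + 1) a = Psi j (-a.1, -a.2)` (also for `a.2 = 0`: ray `j + 1`). If `k = j - 2`: `a.2, b.2 ≥ 1`, `qc (j - 2) a = Psi j (a.2, -a.1)`. For other `k`: the
ends satisfying `Pla` have first coordinate (of `Vtx`) in `{j - 2, ..., j + 1}`, those with `j - 2` are in the interior of quadrant `j - 2`;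
so `k ≥ j + 2` or `k ≤ j - 3` is impossible.
`P_planar`: `P_mono_EF` from `off (not Pla) (WEd m N)` to `img (Psi j) E₀`, `E₀` = edges of `edgesIn (bxx 0 0 N)` with both ends in the set
above; `P_map`, `Cn_img_iff`; `P_mono_EF` to `edgesIn (bxx 0 0 N)`. -/

namespace Pool.Agent.FKR

open Finset
open Pool.Agent.H95.Wedge (Vtx pt)
open Pool.Agent.H95.Perc (Inc conn link rect hor ver eh ev sumE sepE Inci mem_rect)
open Pool.Agent.H95.SumRule (edgesIn Z2)

variable {m : ℕ} {j N s : ℤ}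

/-- values of `qc` -/
private def QV (k a b K P R : ℤ) : Prop :=
  (1 ≤ a ∧ K = k ∧ P = a ∧ R = b) ∨ (a = 0 ∧ 1 ≤ b ∧ K = k + 1 ∧ P = b ∧ R = 0) ∨
    (a = 0 ∧ b = 0 ∧ K = 0 ∧ P = 0 ∧ R = 0)

private lemma qv {k a b : ℤ} (ha : 0 ≤ a) (hb : 0 ≤ b) :
    QV k a b (qc k (a, b)).1 ((qc k (a, b)).2.1 : ℤ) ((qc k (a, b)).2.2 : ℤ) := by
  unfold QV qc pt
  dsimp only
  by_cases h1 : a = 0
  · subst h1
    by_cases h2 : b = 0
    · subst h2
      right; right
      simp
    · right; left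
      have : b.toNat ≠ 0 := by omega
      simp only [Int.toNat_zero, if_true, if_neg this]
      exact ⟨trivial, by omega, trivial, by omega, by simp⟩
  · left
    have : a.toNat ≠ 0 := by omega
    simp only [if_neg this]
    refine ⟨by omega, trivial, by omega, by omega⟩

/-- values of `Psi` -/
private def PV (j x y K P R : ℤ) : Prop :=
  (1 ≤ x ∧ 0 ≤ y ∧ K = j - 1 ∧ P = x ∧ R = y) ∨ (x = 0 ∧ 1 ≤ y ∧ K = j ∧ P = y ∧ R = 0) ∨
    (x < 0 ∧ 1 ≤ y ∧ K = j ∧ P = y ∧ R = -x) ∨ (x < 0 ∧ y ≤ 0 ∧ K = j + 1 ∧ P = -x ∧ R = -y) ∨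
    (0 < x ∧ y < 0 ∧ K = j - 2 ∧ P = -y ∧ R = x) ∨ (x = 0 ∧ y = 0 ∧ K = 0 ∧ P = 0 ∧ R = 0)

private lemma pv {x y : ℤ} (h : x ≠ 0 ∨ 0 ≤ y) :
    PV j x y (Psi j (x, y)).1 ((Psi j (x, y)).2.1 : ℤ) ((Psi j (x, y)).2.2 : ℤ) := by
  unfold Psi uc
  dsimp only
  by_cases hy : 0 ≤ y
  · rw [if_pos hy]
    by_cases hx : 0 ≤ x
    · rw [if_pos hx]
      have := qv (k := j - 1) hx hy
      revert this
      generalize qc (j - 1) (x, y) = v
      intro this
      unfold QV at this
      unfold PV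
      rcases this with this | this | this <;>
        first
        | (exfalso; omega)
        | exact Or.inl (by omega)
        | exact Or.inr (Or.inl (by omega))
        | exact Or.inr (Or.inr (Or.inl (by omega)))
        | exact Or.inr (Or.inr (Or.inr (Or.inl (by omega))))
        | exact Or.inr (Or.inr (Or.inr (Or.inr (Or.inl (by omega)))))
        | exact Or.inr (Or.inr (Or.inr (Or.inr (Or.inr (by omega)))))
    · rw [if_neg hx]
      have := qv (k := j) hy (show (0 : ℤ) ≤ -x by omega)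
      revert this
      generalize qc j (y, -x) = v
      intro this
      unfold QV at this
      unfold PV
      rcases this with this | this | this <;>
        first
        | (exfalso; omega)
        | exact Or.inl (by omega)
        | exact Or.inr (Or.inl (by omega))
        | exact Or.inr (Or.inr (Or.inl (by omega)))
        | exact Or.inr (Or.inr (Or.inr (Or.inl (by omega))))
        | exact Or.inr (Or.inr (Or.inr (Or.inr (Or.inl (by omega)))))
        | exact Or.inr (Or.inr (Or.inr (Or.inr (Or.inr (by omega)))))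
  · rw [if_neg hy]
    by_cases hx : x < 0
    · rw [if_pos hx]
      have := qv (k := j + 1) (show (0 : ℤ) ≤ -x by omega) (show (0 : ℤ) ≤ -y by omega)
      revert this
      generalize qc (j + 1) (-x, -y) = v
      intro this
      unfold QV at this
      unfold PV
      rcases this with this | this | this <;>
        first
        | (exfalso; omega)
        | exact Or.inl (by omega)
        | exact Or.inr (Or.inl (by omega))
        | exact Or.inr (Or.inr (Or.inl (by omega)))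
        | exact Or.inr (Or.inr (Or.inr (Or.inl (by omega))))
        | exact Or.inr (Or.inr (Or.inr (Or.inr (Or.inl (by omega)))))
        | exact Or.inr (Or.inr (Or.inr (Or.inr (Or.inr (by omega)))))
    · rw [if_neg hx]
      have := qv (k := j - 2) (show (0 : ℤ) ≤ -y by omega) (show (0 : ℤ) ≤ x by omega)
      revert this
      generalize qc (j - 2) (-y, x) = v
      intro this
      unfold QV at this
      unfold PV
      rcases this with this | this | this <;>
        first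
        | (exfalso; omega)
        | exact Or.inl (by omega)
        | exact Or.inr (Or.inl (by omega))
        | exact Or.inr (Or.inr (Or.inl (by omega)))
        | exact Or.inr (Or.inr (Or.inr (Or.inl (by omega))))
        | exact Or.inr (Or.inr (Or.inr (Or.inr (Or.inl (by omega)))))
        | exact Or.inr (Or.inr (Or.inr (Or.inr (Or.inr (by omega)))))

theorem Psi_injOn (j : ℤ) : Set.InjOn (Psi j) {z : ℤ × ℤ | z.1 ≠ 0 ∨ 0 ≤ z.2} := by
  rintro ⟨x, y⟩ h1 ⟨x', y'⟩ h2 he
  change x ≠ 0 ∨ 0 ≤ y at h1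
  change x' ≠ 0 ∨ 0 ≤ y' at h2
  have p1 := pv (j := j) h1
  have p2 := pv (j := j) h2
  rw [he] at p1
  revert p1 p2
  generalize Psi j (x', y') = v
  intro p1 p2
  rw [Prod.mk.injEq]
  unfold PV at p1 p2
  rcases p1 with p1 | p1 | p1 | p1 | p1 | p1 <;> rcases p2 with p2 | p2 | p2 | p2 | p2 | p2 <;> omega

/-- adjacency -/
private lemma adj_aux {j k a b a' b' x y x' y' K P R K' P' R' : ℤ}
    (hadj : (a' = a + 1 ∧ b' = b) ∨ (a' = a ∧ b' = b + 1))
    (q1 : QV k a b K P R) (q2 : QV k a' b' K' P' R') (p1 : PV j x y K P R)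
    (p2 : PV j x' y' K' P' R') (h1 : x ≠ 0 ∨ 0 < y) (h2 : x' ≠ 0 ∨ 0 < y') :
    (x = x' ∧ (y = y' + 1 ∨ y' = y + 1)) ∨ (y = y' ∧ (x = x' + 1 ∨ x' = x + 1)) := by
  unfold PV at p1 p2
  unfold QV at q1 q2
  rcases p1 with p1 | p1 | p1 | p1 | p1 | p1 <;> rcases q1 with q1 | q1 | q1 <;>
    first
    | (exfalso; omega)
    | (rcases p2 with p2 | p2 | p2 | p2 | p2 | p2 <;> rcases q2 with q2 | q2 | q2 <;>
        first
        | (exfalso; omega)
        | omega)

/-- edges of the wedge -/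
private lemma mem_WEd_quad {e : Sym2 Vtx} (he : e ∈ WEd m N) : ∃ k a b a' b' : ℤ, 0 ≤ a ∧ 0 ≤ b ∧
    ((a' = a + 1 ∧ b' = b) ∨ (a' = a ∧ b' = b + 1)) ∧ e = s(qc k (a, b), qc k (a', b')) := by
  unfold WEd at he
  rw [mem_biUnion] at he
  obtain ⟨j', -, he⟩ := he
  unfold hE img at he
  rw [mem_image] at he
  obtain ⟨e₀, h0, rfl⟩ := he
  obtain ⟨x, y, rfl | rfl⟩ := edgesIn_cases h0
  · rw [eh_mem_edgesIn_rect] at h0
    unfold eh
    rw [Sym2.map_mk]
    by_cases hx : 0 ≤ x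
    · refine ⟨j' - 1, x, y, x + 1, y, hx, by omega, Or.inl ⟨rfl, rfl⟩, ?_⟩
      unfold uc
      dsimp only
      rw [if_pos hx, if_pos (by omega)]
    · have e2 : uc j' (x + 1, y) = qc j' (y, -x - 1) := by
        unfold uc
        dsimp only
        by_cases hx1 : 0 ≤ x + 1
        · rw [if_pos hx1]
          have : x + 1 = 0 := by omega
          have h2 : -x - 1 = 0 := by omega
          rw [this, h2]
          unfold qc pt
          dsimp only
          by_cases hy : y.toNat = 0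
          · simp [hy]
          · simp [hy]
        · rw [if_neg hx1]
          congr 2
          ring
      have e1 : uc j' (x, y) = qc j' (y, -x) := by
        unfold uc
        dsimp only
        rw [if_neg hx]
      refine ⟨j', y, -x - 1, y, -x, by omega, by omega, Or.inr ⟨rfl, by ring⟩, ?_⟩
      rw [e1, e2, Sym2.eq_swap]
  · rw [ev_mem_edgesIn_rect] at h0
    unfold ev
    rw [Sym2.map_mk]
    by_cases hx : 0 ≤ x
    · refine ⟨j' - 1, x, y, x, y + 1, hx, by omega, Or.inr ⟨rfl, rfl⟩, ?_⟩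
      unfold uc
      dsimp only
      rw [if_pos hx, if_pos hx]
    · refine ⟨j', y, -x, y + 1, -x, by omega, by omega, Or.inl ⟨rfl, rfl⟩, ?_⟩
      unfold uc
      dsimp only
      rw [if_neg hx, if_neg hx]

open Classical in
theorem off_sub (hs : s ≤ N) : off (fun v => ¬ Pla j N s v) (WEd m N) ⊆
    img (Psi j) ((edgesIn (bxx 0 0 N)).filter fun e => ∀ z ∈ e, z.1 ≠ 0 ∨ 0 ≤ z.2) := by
  intro e he
  unfold off at he
  rw [mem_filter] at he
  obtain ⟨he, hp⟩ := he
  obtain ⟨k, a, b, a', b', ha, hb, hadj, rfl⟩ := mem_WEd_quad he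
  have h1 := not_not.1 (hp _ (Sym2.mem_mk_left _ _))
  have h2 := not_not.1 (hp _ (Sym2.mem_mk_right _ _))
  obtain ⟨⟨x, y⟩, hx1, hx2, hy1, hy2, hxy, hv⟩ := h1
  obtain ⟨⟨x', y'⟩, hx1', hx2', hy1', hy2', hxy', hv'⟩ := h2
  dsimp only at hx1 hx2 hy1 hy2 hxy hx1' hx2' hy1' hy2' hxy'
  have q1 := qv (k := k) ha hb
  have q2 := qv (k := k) (a := a') (b := b') (by omega) (by omega)
  have hr : x ≠ 0 ∨ 0 ≤ y := by omega
  have hr' : x' ≠ 0 ∨ 0 ≤ y' := by omega
  have p1 := pv (j := j) hr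
  have p2 := pv (j := j) hr'
  rw [← hv] at p1
  rw [← hv'] at p2
  have key := adj_aux hadj q1 q2 p1 p2 hxy hxy'
  unfold img
  rw [mem_image]
  refine ⟨s((x, y), (x', y')), ?_, ?_⟩
  · rw [mem_filter]
    refine ⟨?_, ?_⟩
    · rw [Pool.Agent.H95.Perc.mem_edgesIn', Z2_adj_iff]
      unfold bxx
      rw [mem_rect, mem_rect]
      refine ⟨?_, ?_, key⟩
      · dsimp only; omega
      · dsimp only; omega
    · intro z hz
      rw [Sym2.mem_iff] at hz
      rcases hz with rfl | rfl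
      · exact hr
      · exact hr'
  · rw [Sym2.map_mk, hv, hv']

theorem P_planar {q : ℝ} (hq : 1 ≤ q) (hs : s ≤ N) {z z' : ℤ × ℤ} (hz : 0 ≤ z.2) (hz' : 0 ≤ z'.2) :
    P q (off (fun v => ¬ Pla j N s v) (WEd m N)) ∅ (fun ω => Cn ω (uc j z) (uc j z')) ≤
      P q (edgesIn (bxx 0 0 N)) ∅ (fun ω => Cn ω z z') := by
  classical
  have hq0 : 0 < q := by linarith
  set E₀ : Finset (Sym2 (ℤ × ℤ)) :=
    (edgesIn (bxx 0 0 N)).filter fun e => ∀ z ∈ e, z.1 ≠ 0 ∨ 0 ≤ z.2 with hE₀
  have hNL : NL (edgesIn (bxx 0 0 N)) := NL_edgesIn _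
  have hE₀N : NL E₀ := hNL.mono (filter_subset _ _)
  have h0 : NL (∅ : Finset (Sym2 Vtx)) := fun e he => absurd he (notMem_empty e)
  have h0' : NL (∅ : Finset (Sym2 (ℤ × ℤ))) := fun e he => absurd he (notMem_empty e)
  have hvt : ∀ E : Finset (Sym2 (ℤ × ℤ)), E ⊆ E₀ →
      (vts E : Set (ℤ × ℤ)) ⊆ {z : ℤ × ℤ | z.1 ≠ 0 ∨ 0 ≤ z.2} := by
    intro E hE v hv
    rw [mem_coe, mem_vts] at hv
    obtain ⟨e, he, hve⟩ := hv
    have := hE he
    rw [hE₀, mem_filter] at this
    exact this.2 v hve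
  have hinj : Set.InjOn (Psi j) (vts E₀ : Set (ℤ × ℤ)) := (Psi_injOn j).mono (hvt E₀ (Subset.refl _))
  have hu : ∀ {z : ℤ × ℤ}, 0 ≤ z.2 → uc j z = Psi j z := by
    intro z hz
    unfold Psi
    rw [if_pos hz]
  have s1 : P q (off (fun v => ¬ Pla j N s v) (WEd m N)) ∅ (fun ω => Cn ω (uc j z) (uc j z')) ≤
      P q (img (Psi j) E₀) ∅ (fun ω => Cn ω (uc j z) (uc j z')) := by
    apply P_mono_EF hq (NL_img hinj hE₀N) h0 _ (Subset.refl _) (inc_Cn _ _)
    rw [union_empty]
    exact off_sub hs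
  refine s1.trans ?_
  have e0 : (∅ : Finset (Sym2 Vtx)) = img (Psi j) ∅ := by unfold img; rw [image_empty]
  have s2 : P q (img (Psi j) E₀) ∅ (fun ω => Cn ω (uc j z) (uc j z')) =
      P q E₀ ∅ (fun ω => Cn (img (Psi j) ω) (uc j z) (uc j z')) := by
    rw [e0]
    apply P_map hq0 hE₀N h0'
    rw [union_empty]
    exact hinj
  rw [s2]
  have s3 : P q E₀ ∅ (fun ω => Cn (img (Psi j) ω) (uc j z) (uc j z')) = P q E₀ ∅ (fun ω => Cn ω z z') := by
    apply P_congr
    intro ζ hζ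
    rw [union_empty, hu hz, hu hz']
    exact Cn_img_iff (Psi_injOn j) (hvt ζ hζ) (Or.inr hz) (Or.inr hz')
  rw [s3]
  apply P_mono_EF hq hNL h0' _ (Subset.refl _) (inc_Cn _ _)
  rw [union_empty]
  exact filter_subset _ _

end Pool.Agent.FKR
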