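import Pool.Agent.FKR.WG

/-! # FKR/WTop (MP_b3e76a_pr): two barriers cut out a planar region

Configuration `ω ⊆ WEd m N \ Ers m j N s` (no edges at the tip nor at the points of the rays `j - 2`, `j + 2` at distance `≤ s`),
barriers `Bar (j + 2) N s` and `Bar (j - 2) N s`. Claim: no vertex `uc j z`, `z ∈ rect (-N) N 0 N`, `z ≠ 0`, is connected to a
vertex outside the planar region `Pla j N s`.
Proof. Apply `Cn.closed` to the set `T` of the vertices `v` such that one of the following holds: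
(a) `v = uc j z`, `z ∈ rect (-N) N 0 N`, `z ≠ 0`;
(b) `v = uc (j + 2) z`, `1 ≤ z.1 ≤ N`, `0 ≤ z.2 < s`, and for some `t`, `1 ≤ t ≤ N`: `Cn (ω ∩ img (uc (j + 2)) (edgesIn (rect (-N) N 0 s))) (uc (j + 2) (t, 0)) v`;
(c) `v = uc (j - 2) z`, `-N ≤ z.1 ≤ -1`, `0 ≤ z.2 < s`, and for some `t`, `-N ≤ t ≤ -1`: the same with `uc (j - 2)`.
Note `uc (j + 2) (x, 0) = uc j (-x, 0)` for `x ≥ 1` (ray `j + 1`) and `uc (j - 2) (-x, 0) = uc j (x, 0)` (ray `j - 1`), so (a) contains the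
vertices of (b), (c) with `z.2 = 0`, and a vertex of (a) on ray `j + 1` satisfies (b) with the trivial connection.
Closed: let `v ∈ T`, `s(v, w) ∈ ω`. If `v = uc j z` with `1 ≤ z.2`: `mem_WEd_up`, and `w ≠` tip. If `v = uc j (x, 0)`, `x < 0` (ray `j + 1`): the edges
of `WEd m N` at `v` are those of the quadrants `j` and `j + 1` (`mem_WEd_ray`); in quadrant `j`: case (a) again; in quadrant `j + 1`: `w = uc (j + 2) z'`
with `z'` adjacent to `(-x, 0)`, `z'.2 ≤ 1 < s`, `z'.1 ≥ 0`, and `z'.1 ≠ 0` since `w` is not on the ray `j + 2` within distance `s` nor the tip: (b).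
If `v` is as in (b) with `1 ≤ z.2`: `mem_WEd_up` in the chart `j + 2` gives `w = uc (j + 2) z'`, `z'` adjacent to `z`; `z'.1 ≠ 0` (erased
edges); `z'.2 = s` would contradict the barrier (connection from `(t, 0)` to `z'`; `z' ∈ rect (-N) N 0 s`); otherwise (b) again.
Finally `T` implies `Pla j N s`: (a): `uc j z = Psi j z`. (b): `z.2 = 0`: ray `j + 1`, `uc j (-z.1, 0)`; `z.2 ≥ 1`: `Psi j (-z.1, -z.2) = qc (j + 1) (z.1, z.2) =
uc (j + 2) z`. (c): `Psi j (-z.1, -z.2)`, `-z.1 > 0`: `qc (j - 2) (z.2, -z.1) = uc (j - 2) z`. -/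

namespace Pool.Agent.FKR

open Finset
open Pool.Agent.H95.Wedge (Vtx pt)
open Pool.Agent.H95.Perc (Inc conn link rect hor ver eh ev sumE sepE Inci mem_rect)
open Pool.Agent.H95.SumRule (edgesIn Z2)

variable {m : ℕ} {j N s : ℤ} {ω : Finset (Sym2 Vtx)}

theorem wt_adj {a b c d N : ℤ} {y : ℤ} (h : s((a, b), (c, d)) ∈ edgesIn (rect (-N) N 0 y)) :
    (-N ≤ a ∧ a ≤ N ∧ 0 ≤ b ∧ b ≤ y) ∧ (-N ≤ c ∧ c ≤ N ∧ 0 ≤ d ∧ d ≤ y) ∧
      Z2.Adj (a, b) (c, d) ∧
      ((c = a + 1 ∧ d = b) ∨ (c = a - 1 ∧ d = b) ∨ (c = a ∧ d = b + 1) ∨ (c = a ∧ d = b - 1)) := by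
  rw [Pool.Agent.H95.Perc.mem_edgesIn', mem_rect, mem_rect] at h
  refine ⟨h.1, h.2.1, h.2.2, ?_⟩
  have h3 := Z2_adj_iff.mp h.2.2
  omega

/-- the edges at a vertex of the ray `j + 1` (`1 ≤ x`) are edges of the quadrants `j` and `j + 1` -/
theorem mem_WEd_ray (h1 : -2 ≤ j) (h2 : j + 2 ≤ m + 2) {x : ℤ} (hx : 1 ≤ x) {w : Vtx}
    (h : s(uc (j + 1) (0, x), w) ∈ WEd m N) :
    (∃ z : ℤ × ℤ, w = uc j z ∧ s((-x, 0), z) ∈ edgesIn (rect (-N) N 0 N) ∧ z.1 ≤ 0) ∨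
    (∃ z : ℤ × ℤ, w = uc (j + 2) z ∧ s((x, 0), z) ∈ edgesIn (rect (-N) N 0 N) ∧ 0 ≤ z.1) := by
  obtain ⟨⟨c, d⟩, hw, he⟩ := mem_WEd_up (j := j + 1) (z := (0, x)) (by omega) (by omega) hx h
  obtain ⟨g1, g2, g3, g4⟩ := wt_adj he
  rcases le_or_gt 0 c with hc | hc
  · left
    refine ⟨(-d, c), ?_, ?_, by simp only; omega⟩
    · have := uc_rot (j := j + 1) (x := -d) (y := c) (by omega) hc
      rw [show j + 1 - 1 = j by ring, show -(-d) = d by ring] at this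
      rw [hw, this]
    · rw [Pool.Agent.H95.Perc.mem_edgesIn', mem_rect, mem_rect]
      refine ⟨⟨by simp only; omega, by simp only; omega, by simp only; omega, by simp only; omega⟩,
        ⟨by simp only; omega, by simp only; omega, by simp only; omega, by simp only; omega⟩, ?_⟩
      rw [Z2_adj_iff]
      omega
  · right
    refine ⟨(d, -c), ?_, ?_, by simp only; omega⟩
    · have := uc_rot (j := j + 2) (x := c) (y := d) hc.le (by omega)
      rw [show j + 2 - 1 = j + 1 by ring] at this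
      rw [hw, this]
    · rw [Pool.Agent.H95.Perc.mem_edgesIn', mem_rect, mem_rect]
      refine ⟨⟨by simp only; omega, by simp only; omega, by simp only; omega, by simp only; omega⟩,
        ⟨by simp only; omega, by simp only; omega, by simp only; omega, by simp only; omega⟩, ?_⟩
      rw [Z2_adj_iff]
      omega

/-- the vertices which can be reached from the chart `j` -/
def TT (j N s : ℤ) (ω : Finset (Sym2 Vtx)) (v : Vtx) : Prop :=
  (∃ x y : ℤ, -N ≤ x ∧ x ≤ N ∧ 0 ≤ y ∧ y ≤ N ∧ (x ≠ 0 ∨ 1 ≤ y) ∧ v = uc j (x, y)) ∨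
  (∃ x y t : ℤ, 1 ≤ x ∧ x ≤ N ∧ 0 ≤ y ∧ y < s ∧ 1 ≤ t ∧ t ≤ N ∧ v = uc (j + 2) (x, y) ∧
    Cn (ω ∩ img (uc (j + 2)) (edgesIn (rect (-N) N 0 s))) (uc (j + 2) (t, 0)) v) ∨
  (∃ x y t : ℤ, -N ≤ x ∧ x ≤ -1 ∧ 0 ≤ y ∧ y < s ∧ -N ≤ t ∧ t ≤ -1 ∧ v = uc (j - 2) (x, y) ∧
    Cn (ω ∩ img (uc (j - 2)) (edgesIn (rect (-N) N 0 s))) (uc (j - 2) (t, 0)) v)

theorem ray_right {x : ℤ} (hx : 0 ≤ x) : uc (j + 2) (x, 0) = uc (j + 1) (0, x) := by
  have := uc_rot (j := j + 2) (x := 0) (y := x) le_rfl hx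
  rw [show j + 2 - 1 = j + 1 by ring, neg_zero] at this
  exact this.symm

theorem ray_left {x : ℤ} (hx : 0 ≤ x) : uc j (-x, 0) = uc (j + 1) (0, x) := by
  have := uc_rot (j := j + 1) (x := -x) (y := 0) (by omega) le_rfl
  rw [show j + 1 - 1 = j by ring, neg_neg] at this
  exact this

theorem TT_pla (hs : 2 ≤ s) (hsN : s ≤ N) {v : Vtx} (h : TT j N s ω v) : Pla j N s v := by
  have ha : ∀ x y : ℤ, -N ≤ x → x ≤ N → 0 ≤ y → y ≤ N → (x ≠ 0 ∨ 1 ≤ y) → Pla j N s (uc j (x, y)) := by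
    intro x y a1 a2 a3 a4 a5
    refine ⟨(x, y), a1, a2, by simp only; omega, a4, by simp only; omega, ?_⟩
    unfold Psi
    rw [if_pos a3]
  rcases h with ⟨x, y, a1, a2, a3, a4, a5, rfl⟩ | ⟨x, y, t, a1, a2, a3, a4, _, _, rfl, _⟩ |
    ⟨x, y, t, a1, a2, a3, a4, _, _, rfl, _⟩
  · exact ha x y a1 a2 a3 a4 a5
  · rcases eq_or_lt_of_le a3 with h0 | h0
    · rw [← h0, ray_right (by omega), ← ray_left (by omega)]
      exact ha _ _ (by omega) (by omega) le_rfl (by omega) (by omega)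
    · refine ⟨(-x, -y), by simp only; omega, by simp only; omega, by simp only; omega,
        by simp only; omega, by simp only; omega, ?_⟩
      unfold Psi uc
      rw [if_pos (by simp only; omega), if_neg (by simp only; omega), if_pos (by simp only; omega)]
      simp only [neg_neg]
      rw [show j + 2 - 1 = j + 1 by ring]
  · rcases eq_or_lt_of_le a3 with h0 | h0
    · have e1 := ray_left (j := j - 2) (x := -x) (by omega)
      have e2 := ray_right (j := j - 2) (x := -x) (by omega)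
      rw [neg_neg, ← e2, show j - 2 + 2 = j by ring] at e1
      rw [← h0, e1]
      exact ha _ _ (by omega) (by omega) le_rfl (by omega) (by omega)
    · refine ⟨(-x, -y), by simp only; omega, by simp only; omega, by simp only; omega,
        by simp only; omega, by simp only; omega, ?_⟩
      unfold Psi uc
      rw [if_neg (by simp only; omega), if_neg (by simp only; omega), if_neg (by simp only; omega)]
      simp only [neg_neg]

/-- no edge of `ω` has an end at a point of the rays `j - 2`, `j + 2` close to the tip -/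
theorem no_ers (hω : ω ⊆ WEd m N \ Ers m j N s) {v w : Vtx} (h : s(v, w) ∈ ω) {t : ℤ} (h0 : 0 ≤ t)
    (h1 : t ≤ s) : w ≠ uc (j - 2) (0, t) ∧ w ≠ uc (j + 2) (0, t) := by
  have h2 := hω h
  rw [mem_sdiff] at h2
  have h3 : ∀ u : Vtx, (u = uc (j - 2) (0, t) ∨ u = uc (j + 2) (0, t)) → u ∉ s(v, w) := by
    intro u hu hm
    apply h2.2
    simp only [Ers, mem_filter]
    refine ⟨h2.1, t, h0, h1, ?_⟩
    rcases hu with rfl | rfl
    · exact Or.inl hm
    · exact Or.inr hm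
  constructor
  · intro hw
    exact h3 w (Or.inl hw) (Sym2.mem_mk_right v w)
  · intro hw
    exact h3 w (Or.inr hw) (Sym2.mem_mk_right v w)

theorem no_tip (hs : 2 ≤ s) (hω : ω ⊆ WEd m N \ Ers m j N s) {v w : Vtx} (h : s(v, w) ∈ ω) :
    w ≠ (0, 0, 0) := by
  have := (no_ers hω h le_rfl (by omega : (0 : ℤ) ≤ s)).1
  rwa [uc_tip] at this

/-- one edge of the lower part of a chart -/
theorem step_Cn {i : ℤ} {a b c d : ℤ} (h : s(uc i (a, b), uc i (c, d)) ∈ ω)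
    (he : s((a, b), (c, d)) ∈ edgesIn (rect (-N) N 0 s)) :
    Cn (ω ∩ img (uc i) (edgesIn (rect (-N) N 0 s))) (uc i (a, b)) (uc i (c, d)) :=
  Cn_edge (mem_inter.mpr ⟨h, mem_img_of_mem he⟩)

theorem edge_low {a b c d : ℤ} (h : s((a, b), (c, d)) ∈ edgesIn (rect (-N) N 0 N)) (hb : b ≤ s)
    (hd : d ≤ s) : s((a, b), (c, d)) ∈ edgesIn (rect (-N) N 0 s) := by
  rw [Pool.Agent.H95.Perc.mem_edgesIn', mem_rect, mem_rect] at h ⊢
  exact ⟨⟨h.1.1, h.1.2.1, h.1.2.2.1, hb⟩, ⟨h.2.1.1, h.2.1.2.1, h.2.1.2.2.1, hd⟩, h.2.2⟩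

theorem TT_a (hj : 0 ≤ j) (hj' : j ≤ m) (hs : 2 ≤ s) (hsN : s ≤ N)
    (hω : ω ⊆ WEd m N \ Ers m j N s) {x y : ℤ} (a1 : -N ≤ x) (a2 : x ≤ N) (a3 : 0 ≤ y) (a4 : y ≤ N)
    (a5 : x ≠ 0 ∨ 1 ≤ y) {w : Vtx} (h : s(uc j (x, y), w) ∈ ω) : TT j N s ω w := by
  have hWEd : s(uc j (x, y), w) ∈ WEd m N := (mem_sdiff.mp (hω h)).1
  have htip := no_tip hs hω h
  have hA : ∀ c d : ℤ, (-N ≤ c ∧ c ≤ N ∧ 0 ≤ d ∧ d ≤ N) → w = uc j (c, d) → TT j N s ω w := by
    intro c d hc hw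
    refine Or.inl ⟨c, d, hc.1, hc.2.1, hc.2.2.1, hc.2.2.2, ?_, hw⟩
    by_contra hn
    push Not at hn
    apply htip
    rw [hw, hn.1, show d = 0 by omega, uc_tip]
  rcases eq_or_lt_of_le a3 with h0 | h0
  · subst h0
    rcases lt_trichotomy x 0 with hx | hx | hx
    · -- ray `j + 1`
      obtain ⟨r, rfl⟩ : ∃ r, x = -r := ⟨-x, by ring⟩
      have hr : 1 ≤ r := by omega
      rw [ray_left (by omega)] at h hWEd
      rcases mem_WEd_ray (by omega) (by omega) hr hWEd with ⟨⟨c, d⟩, hw, he, hc⟩ | ⟨⟨c, d⟩, hw, he, hc⟩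
      · exact hA c d (wt_adj he).2.1 hw
      · obtain ⟨g1, g2, g3, g4⟩ := wt_adj he
        simp only at hc
        have hc0 : c ≠ 0 := by
          rintro rfl
          exact (no_ers hω h g2.2.2.1 (by omega)).2 hw
        refine Or.inr (Or.inl ⟨c, d, r, by omega, g2.2.1, g2.2.2.1, by omega, hr, by omega, hw, ?_⟩)
        rw [← ray_right (by omega), hw] at h
        rw [hw]
        exact step_Cn h (edge_low he (by omega) (by omega))
    · omega
    · -- ray `j - 1`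
      have e1 : uc j (x, 0) = uc (j - 2 + 1) (0, x) := by
        have := ray_right (j := j - 2) (x := x) (by omega)
        rw [show j - 2 + 2 = j by ring] at this
        exact this
      rw [e1] at h hWEd
      rcases mem_WEd_ray (by omega) (by omega) (by omega) hWEd with
        ⟨⟨c, d⟩, hw, he, hc⟩ | ⟨⟨c, d⟩, hw, he, hc⟩
      · obtain ⟨g1, g2, g3, g4⟩ := wt_adj he
        simp only at hc
        have hc0 : c ≠ 0 := by
          rintro rfl
          exact (no_ers hω h g2.2.2.1 (by omega)).1 hw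
        refine Or.inr (Or.inr ⟨c, d, -x, g2.1, by omega, g2.2.2.1, by omega, by omega, by omega,
          hw, ?_⟩)
        rw [← ray_left (by omega), hw] at h
        rw [hw]
        exact step_Cn h (edge_low he (by omega) (by omega))
      · rw [show j - 2 + 2 = j by ring] at hw
        exact hA c d (wt_adj he).2.1 hw
  · obtain ⟨⟨c, d⟩, hw, he⟩ := mem_WEd_up (j := j) (z := (x, y)) (by omega) (by omega)
      (by simp only; omega) hWEd
    exact hA c d (wt_adj he).2.1 hw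

theorem TT_b (hj : 0 ≤ j) (hj' : j ≤ m) (hs : 2 ≤ s) (hsN : s ≤ N)
    (hω : ω ⊆ WEd m N \ Ers m j N s) (h1 : Bar (j + 2) N s ω) {x y t : ℤ} (a1 : 1 ≤ x) (a2 : x ≤ N)
    (a3 : 0 ≤ y) (a4 : y < s) (a5 : 1 ≤ t) (a6 : t ≤ N)
    (hc : Cn (ω ∩ img (uc (j + 2)) (edgesIn (rect (-N) N 0 s))) (uc (j + 2) (t, 0))
      (uc (j + 2) (x, y))) {w : Vtx} (h : s(uc (j + 2) (x, y), w) ∈ ω) : TT j N s ω w := by
  rcases eq_or_lt_of_le a3 with h0 | h0
  · subst h0
    rw [ray_right (by omega), ← ray_left (by omega)] at h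
    exact TT_a hj hj' hs hsN hω (by omega) (by omega) le_rfl (by omega) (by omega) h
  · have hWEd : s(uc (j + 2) (x, y), w) ∈ WEd m N := (mem_sdiff.mp (hω h)).1
    obtain ⟨⟨c, d⟩, hw, he⟩ := mem_WEd_up (j := j + 2) (z := (x, y)) (by omega) (by omega)
      (by simp only; omega) hWEd
    obtain ⟨g1, g2, g3, g4⟩ := wt_adj he
    have hc0 : c ≠ 0 := by
      rintro rfl
      exact (no_ers hω h g2.2.2.1 (by omega)).2 hw
    have hcn : Cn (ω ∩ img (uc (j + 2)) (edgesIn (rect (-N) N 0 s))) (uc (j + 2) (t, 0))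
        (uc (j + 2) (c, d)) := by
      rw [hw] at h
      exact hc.trans (step_Cn h (edge_low he (by omega) (by omega)))
    rcases lt_or_ge d s with hd | hd
    · exact Or.inr (Or.inl ⟨c, d, t, by omega, g2.2.1, g2.2.2.1, hd, a5, a6, hw, hw ▸ hcn⟩)
    · exfalso
      refine h1 (t, 0) ?_ (c, d) ?_ rfl (by simp only; omega) hcn
      · rw [mem_rect]; simp only; omega
      · rw [mem_rect]; simp only; omega

theorem TT_c (hj : 0 ≤ j) (hj' : j ≤ m) (hs : 2 ≤ s) (hsN : s ≤ N)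
    (hω : ω ⊆ WEd m N \ Ers m j N s) (h2 : Bar (j - 2) N s ω) {x y t : ℤ} (a1 : -N ≤ x) (a2 : x ≤ -1)
    (a3 : 0 ≤ y) (a4 : y < s) (a5 : -N ≤ t) (a6 : t ≤ -1)
    (hc : Cn (ω ∩ img (uc (j - 2)) (edgesIn (rect (-N) N 0 s))) (uc (j - 2) (t, 0))
      (uc (j - 2) (x, y))) {w : Vtx} (h : s(uc (j - 2) (x, y), w) ∈ ω) : TT j N s ω w := by
  rcases eq_or_lt_of_le a3 with h0 | h0
  · subst h0
    have e1 := ray_left (j := j - 2) (x := -x) (by omega)
    have e2 := ray_right (j := j - 2) (x := -x) (by omega)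
    rw [neg_neg, ← e2, show j - 2 + 2 = j by ring] at e1
    rw [e1] at h
    exact TT_a hj hj' hs hsN hω (by omega) (by omega) le_rfl (by omega) (by omega) h
  · have hWEd : s(uc (j - 2) (x, y), w) ∈ WEd m N := (mem_sdiff.mp (hω h)).1
    obtain ⟨⟨c, d⟩, hw, he⟩ := mem_WEd_up (j := j - 2) (z := (x, y)) (by omega) (by omega)
      (by simp only; omega) hWEd
    obtain ⟨g1, g2, g3, g4⟩ := wt_adj he
    have hc0 : c ≠ 0 := by
      rintro rfl
      exact (no_ers hω h g2.2.2.1 (by omega)).1 hw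
    have hcn : Cn (ω ∩ img (uc (j - 2)) (edgesIn (rect (-N) N 0 s))) (uc (j - 2) (t, 0))
        (uc (j - 2) (c, d)) := by
      rw [hw] at h
      exact hc.trans (step_Cn h (edge_low he (by omega) (by omega)))
    rcases lt_or_ge d s with hd | hd
    · exact Or.inr (Or.inr ⟨c, d, t, g2.1, by omega, g2.2.2.1, hd, a5, a6, hw, hw ▸ hcn⟩)
    · exfalso
      refine h2 (t, 0) ?_ (c, d) ?_ rfl (by simp only; omega) hcn
      · rw [mem_rect]; simp only; omega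
      · rw [mem_rect]; simp only; omega

theorem bar_top (hj : 0 ≤ j) (hj' : j ≤ m) (hs : 2 ≤ s) (hsN : s ≤ N)
    (hω : ω ⊆ WEd m N \ Ers m j N s) (h1 : Bar (j + 2) N s ω) (h2 : Bar (j - 2) N s ω) {z : ℤ × ℤ}
    (hz : z ∈ rect (-N) N 0 N) (hz' : z ≠ 0) : ¬ Reach (fun v => ¬ Pla j N s v) ω (uc j z) := by
  rintro ⟨v, hv, hc⟩
  apply hv
  obtain ⟨x, y⟩ := z
  rw [mem_rect] at hz
  simp only at hz
  have h0 : TT j N s ω (uc j (x, y)) := by
    refine Or.inl ⟨x, y, hz.1, hz.2.1, hz.2.2.1, hz.2.2.2, ?_, rfl⟩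
    by_contra hn
    push Not at hn
    apply hz'
    rw [hn.1, show y = 0 by omega]
    rfl
  refine TT_pla (ω := ω) hs hsN (Cn.closed hc.symm (S := TT j N s ω) h0 ?_)
  intro u w hu he
  rcases hu with ⟨x, y, a1, a2, a3, a4, a5, rfl⟩ | ⟨x, y, t, a1, a2, a3, a4, a5, a6, rfl, a7⟩ |
    ⟨x, y, t, a1, a2, a3, a4, a5, a6, rfl, a7⟩
  · exact TT_a hj hj' hs hsN hω a1 a2 a3 a4 a5 he
  · exact TT_b hj hj' hs hsN hω h1 a1 a2 a3 a4 a5 a6 a7 he
  · exact TT_c hj hj' hs hsN hω h2 a1 a2 a3 a4 a5 a6 a7 he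

end Pool.Agent.FKR
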