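import Pool.Agent.FKR.WBar
import Pool.Agent.FKR.WTop
import Pool.Agent.FKR.WPl
import Pool.Agent.FKR.Tol

/-! # FKR/WCut (MP_b3e76a_pr): from the wedge to the plane

`E = WEd m N`, `D = Ers m j N s`, `A = UpC j N z z'` (only depends on the edges of `upW j N`, which are not in `D`).
(1) `P q E ∅ A ≤ (1 + √q) ^ #D * P q E ∅ (fun ω => A ω ∧ ω ∩ D = ∅)` (`P_erase_set`), and this probability is
`≤ P q (E \ D) ∅ A` (`P_cond` with `X = D`, `η = ∅`, `P_le_one`).
(2) `E' = E \ D`. `explore_ge` with the constant `X = hE j N ∩ E'` and `B = A` (`upW j N ⊆ X`): conditionally both barriers occur with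
probability `≥ c ^ (2 k)`: `P_fkg_dcr`, `bar_ge` with `i = j + 2` and `i = j - 2`; frozen edges `ω ∩ X ⊆ hE j N` have no end `uc (j ± 2) z`, `1 ≤ z.2`
(first coordinates, `uc_pos`, `uc_zero`, `uc_neg`). So `c ^ (2 k) * P q E' ∅ A ≤ P q E' ∅ (fun ω => (Bar (j + 2) N s ω ∧ Bar (j - 2) N s ω) ∧ A ω)`.
(3) `bar_top`: on this event no vertex satisfying `I v = ∃ z ∈ rect (-N) N 0 N, z ≠ 0 ∧ v = uc j z` is reached from `S v = ¬ Pla j N s v`. `PE_le` with
`F = F0 = ∅`, `R = True`: `P q E' ∅ (A ∧ no I reached) ≤ P q (off S E') ∅ A` (`hA2`: both ends of the edges of `upW j N` satisfy `I`, so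
`ω ∩ upW ⊆ off (Reach S ω) ω`).
(4) `P q (off S E') ∅ A ≤ P q (off S E) ∅ (fun ω => Cn ω (uc j z) (uc j z'))` (`P_mono_EF`, `P_mono`), then `P_planar`.
`card_Ers`: at the tip: the edges to the points `(k, 1, 0)`, `-3 ≤ k ≤ m + 3`; at `uc i (0, t)`, `i = j ± 2`, `1 ≤ t ≤ s`: by `mem_WEd_up` at most four
edges (the other end is `uc i (±1, t)`, `uc i (0, t ± 1)`). -/

namespace Pool.Agent.FKR

open Finset
open Pool.Agent.H95.Wedge (Vtx pt)
open Pool.Agent.H95.Perc (Inc conn link rect hor ver eh ev sumE sepE Inci mem_rect)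
open Pool.Agent.H95.SumRule (edgesIn Z2)

private theorem wc_mem_img {f : ℤ × ℤ → Vtx} {x0 x1 y0 y1 : ℤ} {e : Sym2 Vtx}
    (h : e ∈ img f (edgesIn (rect x0 x1 y0 y1))) :
    ∃ a b : ℤ × ℤ, e = s(f a, f b) ∧ a ∈ rect x0 x1 y0 y1 ∧ b ∈ rect x0 x1 y0 y1 ∧
      Z2.Adj a b := by
  unfold img at h
  rw [mem_image] at h
  obtain ⟨e', he', rfl⟩ := h
  induction e' with
  | _ a b =>
    rw [Pool.Agent.H95.Perc.mem_edgesIn'] at he'
    exact ⟨a, b, rfl, he'.1, he'.2.1, he'.2.2⟩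

private theorem wc_adj {a b : ℤ × ℤ} (h : Z2.Adj a b) :
    b = (a.1 + 1, a.2) ∨ b = (a.1, a.2 + 1) ∨ b = (a.1 - 1, a.2) ∨ b = (a.1, a.2 - 1) := by
  have h' : Pool.Agent.H95.SumRule.IsUnit2 (b - a) := h
  obtain ⟨a1, a2⟩ := a
  obtain ⟨b1, b2⟩ := b
  simp only [Pool.Agent.H95.SumRule.IsUnit2, Prod.fst_sub, Prod.snd_sub] at h'
  simp only [Prod.mk.injEq]
  omega

/-- the values of the chart `i` at points with `1 ≤ z.2` -/
private theorem wc_val_up {i : ℤ} {z : ℤ × ℤ} (hz : 1 ≤ z.2) :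
    1 ≤ (uc i z).2.1 ∧ ((uc i z).1 = i ∨ ((uc i z).1 = i - 1 ∧ 1 ≤ (uc i z).2.2)) := by
  obtain ⟨x, y⟩ := z
  simp only at hz
  rcases lt_trichotomy x 0 with h | h | h
  · rw [uc_neg h hz]
    exact ⟨show 1 ≤ y.toNat by omega, Or.inl rfl⟩
  · subst h
    rw [uc_zero hz]
    exact ⟨show 1 ≤ y.toNat by omega, Or.inl rfl⟩
  · rw [uc_pos (by omega)]
    exact ⟨show 1 ≤ x.toNat by omega, Or.inr ⟨rfl, show 1 ≤ y.toNat by omega⟩⟩

/-- the values of the chart `j` at points with `0 ≤ z.2` -/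
private theorem wc_val_ge {j : ℤ} {z : ℤ × ℤ} (hz : 0 ≤ z.2) :
    (uc j z).2.1 = 0 ∨ (uc j z).1 = j - 1 ∨ (uc j z).1 = j ∨
      ((uc j z).1 = j + 1 ∧ (uc j z).2.2 = 0) := by
  obtain ⟨x, y⟩ := z
  simp only at hz
  rcases eq_or_lt_of_le hz with h0 | h0
  · subst h0
    rcases lt_trichotomy x 0 with h | h | h
    · rw [uc_neg0 h]; simp
    · subst h
      rw [uc_tip]; simp
    · rw [uc_pos (by omega)]; simp
  · rcases lt_trichotomy x 0 with h | h | h
    · rw [uc_neg h (by omega)]; simp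
    · subst h
      rw [uc_zero (by omega)]; simp
    · rw [uc_pos (by omega)]; simp

/-- the values at the points of a vertical ray -/
private theorem wc_val_ray {i t : ℤ} (ht : 0 ≤ t) :
    (uc i (0, t)).2.1 = 0 ∨ ((uc i (0, t)).1 = i ∧ (uc i (0, t)).2.2 = 0) := by
  rcases eq_or_lt_of_le ht with h0 | h0
  · subst h0
    rw [uc_tip]; simp
  · rw [uc_zero (by omega)]; simp

/-- a frozen edge of the chart `j` does not touch the upper half of the chart `i = j ± 2` -/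
private theorem wc_far {i j N : ℤ} (hi : i = j + 2 ∨ i = j - 2) {e : Sym2 Vtx} (he : e ∈ hE j N)
    {z : ℤ × ℤ} (hz : 1 ≤ z.2) : uc i z ∉ e := by
  intro hmem
  obtain ⟨a, b, rfl, ha, hb, _⟩ := wc_mem_img he
  rw [mem_rect] at ha hb
  obtain ⟨h1, h2⟩ := wc_val_up (i := i) hz
  rw [Sym2.mem_iff] at hmem
  rcases hmem with hm | hm
  · have h3 := wc_val_ge (j := j) (z := a) ha.2.2.1
    rw [← hm] at h3
    omega
  · have h3 := wc_val_ge (j := j) (z := b) hb.2.2.1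
    rw [← hm] at h3
    omega

/-- the erased edges are not in the upper half of the chart `j` -/
private theorem wc_disj {m : ℕ} {j N : ℤ} {s : ℤ} {e : Sym2 Vtx} (h1 : e ∈ Ers m j N s)
    (h2 : e ∈ upW j N) : False := by
  classical
  unfold Ers at h1
  rw [mem_filter] at h1
  obtain ⟨_, t, ht0, _, ht⟩ := h1
  obtain ⟨a, b, rfl, ha, hb, _⟩ := wc_mem_img h2
  rw [mem_rect] at ha hb
  have ha' := wc_val_up (i := j) ha.2.2.1
  have hb' := wc_val_up (i := j) hb.2.2.1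
  rcases ht with ht | ht
  · have h3 := wc_val_ray (i := j - 2) ht0
    rw [Sym2.mem_iff] at ht
    rcases ht with ht | ht
    · rw [ht] at h3; omega
    · rw [ht] at h3; omega
  · have h3 := wc_val_ray (i := j + 2) ht0
    rw [Sym2.mem_iff] at ht
    rcases ht with ht | ht
    · rw [ht] at h3; omega
    · rw [ht] at h3; omega

private theorem wc_UpC_congr {j N : ℤ} {z z' : ℤ × ℤ} {ω ω' : Finset (Sym2 Vtx)}
    (h : ∀ e ∈ upW j N, (e ∈ ω ↔ e ∈ ω')) (hA : UpC j N z z' ω) : UpC j N z z' ω' := by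
  unfold UpC at hA ⊢
  refine hA.mono ?_
  intro e he
  rw [mem_inter] at he ⊢
  exact ⟨(h e he.2).1 he.1, he.2⟩

open Classical in
/-- the edges at a point of a vertical ray -/
private noncomputable def wcN (i t : ℤ) : Finset (Sym2 Vtx) :=
  {s(uc i (0, t), uc i (1, t)), s(uc i (0, t), uc i (0, t + 1)), s(uc i (0, t), uc i (-1, t)),
    s(uc i (0, t), uc i (0, t - 1))}

private theorem wcN_card (i t : ℤ) : #(wcN i t) ≤ 4 := by
  classical
  unfold wcN
  exact Finset.card_le_four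

private theorem wcN_mem {m : ℕ} {i N t : ℤ} (h1 : -2 ≤ i) (h2 : i ≤ m + 2) (ht : 1 ≤ t)
    {e : Sym2 Vtx} (he : e ∈ WEd m N) (hm : uc i (0, t) ∈ e) : e ∈ wcN i t := by
  classical
  obtain ⟨w, rfl⟩ := Sym2.mem_iff_exists.1 hm
  obtain ⟨z', rfl, hz'⟩ := mem_WEd_up h1 h2 (z := (0, t)) ht he
  have hadj := (Pool.Agent.H95.Perc.mem_edgesIn'.1 hz').2.2
  unfold wcN
  rcases wc_adj hadj with h | h | h | h
  · subst h; simp
  · subst h; simp
  · subst h; simp
  · subst h; simp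

open Classical in
/-- the edges at the tip -/
private noncomputable def wcT (m : ℕ) : Finset (Sym2 Vtx) :=
  (Icc (-3 : ℤ) (m + 3)).image fun k => s(((0, 0, 0) : Vtx), ((k, 1, 0) : Vtx))

private theorem wcT_card (m : ℕ) : #(wcT m) ≤ m + 7 := by
  classical
  unfold wcT
  refine card_image_le.trans ?_
  rw [Int.card_Icc]
  omega

private theorem wcT_mem {m : ℕ} {N : ℤ} {e : Sym2 Vtx} (he : e ∈ WEd m N)
    (hm : ((0, 0, 0) : Vtx) ∈ e) : e ∈ wcT m := by
  classical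
  unfold WEd at he
  rw [mem_biUnion] at he
  obtain ⟨i, hi, he⟩ := he
  rw [mem_Icc] at hi
  obtain ⟨a, b, rfl, ha, hb, hab⟩ := wc_mem_img he
  rw [mem_rect] at ha hb
  have key : ∀ a b : ℤ × ℤ, 0 ≤ a.2 → 0 ≤ b.2 → Z2.Adj a b → ((0, 0, 0) : Vtx) = uc i a →
      s(uc i a, uc i b) ∈ wcT m := by
    intro a b ha hb hab h0
    have ha0 : a = (0, 0) := by
      apply uc_injOn i ha (show (0 : ℤ) ≤ ((0, 0) : ℤ × ℤ).2 from le_refl _)
      rw [← h0, uc_tip]
    subst ha0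
    rw [← h0]
    unfold wcT
    rw [mem_image]
    rcases wc_adj hab with h | h | h | h
    · subst h
      refine ⟨i - 1, ?_, ?_⟩
      · rw [mem_Icc]; omega
      · rw [uc_pos (by norm_num)]; norm_num
    · subst h
      refine ⟨i, ?_, ?_⟩
      · rw [mem_Icc]; omega
      · norm_num
        rw [uc_zero (by norm_num)]; norm_num
    · subst h
      refine ⟨i + 1, ?_, ?_⟩
      · rw [mem_Icc]; omega
      · norm_num
        rw [uc_neg0 (by norm_num)]; norm_num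
    · subst h
      simp only at hb
      omega
  rw [Sym2.mem_iff] at hm
  rcases hm with hm | hm
  · exact key a b ha.2.2.1 hb.2.2.1 hab hm
  · rw [Sym2.eq_swap]
    exact key b a hb.2.2.1 ha.2.2.1 hab.symm hm

theorem card_Ers {m : ℕ} {j N : ℤ} {s : ℕ} (hj : 0 ≤ j) (hj' : j ≤ m) (hN : 1 ≤ N) :
    #(Ers m j N s) ≤ 8 * s + m + 7 := by
  classical
  have _ := hN
  have hsub : Ers m j N s ⊆ wcT m ∪
      ((Icc (1 : ℤ) s).biUnion fun t => wcN (j - 2) t ∪ wcN (j + 2) t) := by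
    intro e he
    unfold Ers at he
    rw [mem_filter] at he
    obtain ⟨heW, t, ht0, hts, ht⟩ := he
    rw [mem_union]
    rcases eq_or_lt_of_le ht0 with h0 | h0
    · left
      subst h0
      rw [uc_tip, uc_tip, or_self] at ht
      exact wcT_mem heW ht
    · right
      rw [mem_biUnion]
      refine ⟨t, by rw [mem_Icc]; omega, ?_⟩
      rw [mem_union]
      rcases ht with ht | ht
      · exact Or.inl (wcN_mem (by omega) (by omega) (by omega) heW ht)
      · exact Or.inr (wcN_mem (by omega) (by omega) (by omega) heW ht)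
  refine (card_le_card hsub).trans ((card_union_le _ _).trans ?_)
  have h1 := wcT_card m
  have h2 : #((Icc (1 : ℤ) s).biUnion fun t => wcN (j - 2) t ∪ wcN (j + 2) t) ≤ s * 8 := by
    refine (card_biUnion_le_card_mul _ _ 8 ?_).trans ?_
    · intro t _
      refine (card_union_le _ _).trans ?_
      have := wcN_card (j - 2) t
      have := wcN_card (j + 2) t
      omega
    · rw [Int.card_Icc]
      apply le_of_eq
      congr 1
      omega
  omega

private theorem wc_step1 {q : ℝ} (hq : 1 ≤ q) {m : ℕ} {j N s : ℤ} (z z' : ℤ × ℤ) :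
    P q (WEd m N) ∅ (UpC j N z z') ≤
      (1 + √q) ^ #(Ers m j N s) * P q (WEd m N \ Ers m j N s) ∅ (UpC j N z z') := by
  have hq0 : 0 < q := by linarith
  have hD : Ers m j N s ⊆ WEd m N := by
    classical
    exact filter_subset _ _
  have h1 : P q (WEd m N) ∅ (UpC j N z z') ≤ (1 + √q) ^ #(Ers m j N s) *
      P q (WEd m N) ∅ (fun ω => UpC j N z z' ω ∧ ω ∩ Ers m j N s = ∅) := by
    apply P_erase_set hq NL_WEd (by intro e he; exact absurd he (notMem_empty e))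
      (disjoint_empty_right _)
    intro ω hA
    refine ⟨wc_UpC_congr ?_ hA, ?_⟩
    · intro e he
      rw [mem_sdiff]
      exact ⟨fun h => ⟨h, fun h' => wc_disj h' he⟩, fun h => h.1⟩
    · ext e
      simp only [mem_inter, mem_sdiff, notMem_empty, iff_false, not_and]
      tauto
  have h2 := P_cond (F := ∅) hq0 (NL_WEd (m := m) (N := N))
    (by intro e he; exact absurd he (notMem_empty e)) hD (empty_subset _) (UpC j N z z')
  rw [h2, union_empty] at h1
  refine h1.trans (mul_le_mul_of_nonneg_left ?_ (by positivity))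
  have h3 := P_le_one hq0 (WEd m N) ∅ (fun ω => ω ∩ Ers m j N s = ∅)
  have h4 := P_nonneg hq0 (WEd m N \ Ers m j N s) ∅ (UpC j N z z')
  nlinarith

private theorem wc_step2 {q : ℝ} (hq : 1 ≤ q) {c : ℝ} (hc0 : 0 < c)
    (hc : ∀ (k m : ℕ) (N s i : ℤ) (E F : Finset (Sym2 Vtx)), 8 ≤ s → s ≤ N → 3 * N ≤ k * s →
      -2 ≤ i → i ≤ m + 2 → E ⊆ WEd m N → F ⊆ WEd m N →
      (∀ e ∈ F, ∀ z : ℤ × ℤ, 1 ≤ z.2 → uc i z ∉ e) → c ^ k ≤ P q E F (Bar i N s))
    {k m : ℕ} {N s j : ℤ} (z z' : ℤ × ℤ) (hs : 8 ≤ s) (hsN : s ≤ N) (hk : 3 * N ≤ k * s)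
    (hj : 0 ≤ j) (hj' : j ≤ m) :
    c ^ (2 * k) * P q (WEd m N \ Ers m j N s) ∅ (UpC j N z z') ≤
      P q (WEd m N \ Ers m j N s) ∅
        (fun ω => (Bar (j + 2) N s ω ∧ Bar (j - 2) N s ω) ∧ UpC j N z z' ω) := by
  have hq0 : 0 < q := by linarith
  have hNL : NL (WEd m N \ Ers m j N s) := NL_WEd.mono sdiff_subset
  have hup : ∀ e ∈ upW j N, e ∈ hE j N ∩ (WEd m N \ Ers m j N s) := by
    intro e he
    have h1 := upW_sub he
    have h2 := hE_sub (m := m) (by omega) (by omega) h1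
    rw [mem_inter, mem_sdiff]
    exact ⟨h1, h2, fun h => wc_disj h he⟩
  have hNe : NL (∅ : Finset (Sym2 Vtx)) := by intro e he; exact absurd he (notMem_empty e)
  have hss : ∀ ω ω' : Finset (Sym2 Vtx), UpC j N z z' ω →
      ω' ∩ (hE j N ∩ (WEd m N \ Ers m j N s)) = ω ∩ (hE j N ∩ (WEd m N \ Ers m j N s)) →
      UpC j N z z' ω' ∧ hE j N ∩ (WEd m N \ Ers m j N s) = hE j N ∩ (WEd m N \ Ers m j N s) := by
    intro ω ω' hA h
    refine ⟨wc_UpC_congr ?_ hA, rfl⟩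
    intro e he
    have h1 := Finset.ext_iff.1 h e
    have h2 := hup e he
    exact ⟨fun h3 => (mem_inter.1 (h1.2 (mem_inter.2 ⟨h3, h2⟩))).1,
      fun h3 => (mem_inter.1 (h1.1 (mem_inter.2 ⟨h3, h2⟩))).1⟩
  have hE1 : (WEd m N \ Ers m j N s) \ (hE j N ∩ (WEd m N \ Ers m j N s)) ⊆ WEd m N :=
    sdiff_subset.trans sdiff_subset
  have hcc : ∀ ω : Finset (Sym2 Vtx), ∅ ⊆ ω → ω ⊆ (WEd m N \ Ers m j N s) ∪ ∅ →
      UpC j N z z' ω → c ^ (2 * k) ≤
        P q ((WEd m N \ Ers m j N s) \ (hE j N ∩ (WEd m N \ Ers m j N s)))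
          (∅ ∪ (ω ∩ (hE j N ∩ (WEd m N \ Ers m j N s))))
          (fun ω => Bar (j + 2) N s ω ∧ Bar (j - 2) N s ω) := by
    intro ω _ _ _
    rw [empty_union (ω ∩ (hE j N ∩ (WEd m N \ Ers m j N s)))]
    have hF1 : ω ∩ (hE j N ∩ (WEd m N \ Ers m j N s)) ⊆ WEd m N :=
      inter_subset_right.trans (inter_subset_right.trans sdiff_subset)
    have hb1 : c ^ k ≤ P q ((WEd m N \ Ers m j N s) \ (hE j N ∩ (WEd m N \ Ers m j N s)))
        (ω ∩ (hE j N ∩ (WEd m N \ Ers m j N s))) (Bar (j + 2) N s) := by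
      refine hc k m N s (j + 2) _ _ hs hsN hk (by omega) (by omega) hE1 hF1 ?_
      intro e he z hz
      exact wc_far (Or.inl rfl) (mem_inter.1 (mem_inter.1 he).2).1 hz
    have hb2 : c ^ k ≤ P q ((WEd m N \ Ers m j N s) \ (hE j N ∩ (WEd m N \ Ers m j N s)))
        (ω ∩ (hE j N ∩ (WEd m N \ Ers m j N s))) (Bar (j - 2) N s) := by
      refine hc k m N s (j - 2) _ _ hs hsN hk (by omega) (by omega) hE1 hF1 ?_
      intro e he z hz
      exact wc_far (Or.inr rfl) (mem_inter.1 (mem_inter.1 he).2).1 hz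
    have hf := P_fkg_dcr hq (NL_WEd.mono hE1) (NL_WEd.mono hF1)
      (dcr_Bar (i := j + 2) (N := N) (s := s)) (dcr_Bar (i := j - 2) (N := N) (s := s))
    refine le_trans ?_ hf
    rw [two_mul, pow_add]
    exact mul_le_mul hb1 hb2 (by positivity) ((by positivity : (0 : ℝ) ≤ c ^ k).trans hb1)
  exact explore_ge (q := q) (E := WEd m N \ Ers m j N s) (F := ∅) hq0 hNL hNe
    (B := UpC j N z z') (X := fun _ => hE j N ∩ (WEd m N \ Ers m j N s))
    (fun _ _ => inter_subset_right) hss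
    (A := fun ω => Bar (j + 2) N s ω ∧ Bar (j - 2) N s ω) (c := c ^ (2 * k)) hcc

private theorem wc_step3 {q : ℝ} (hq : 1 ≤ q) {m : ℕ} {N s j : ℤ} (z z' : ℤ × ℤ) (hs : 8 ≤ s)
    (hsN : s ≤ N) (hj : 0 ≤ j) (hj' : j ≤ m) (hz : 0 ≤ z.2) (hz' : 0 ≤ z'.2) :
    P q (WEd m N \ Ers m j N s) ∅
        (fun ω => (Bar (j + 2) N s ω ∧ Bar (j - 2) N s ω) ∧ UpC j N z z' ω) ≤
      P q (edgesIn (bxx 0 0 N)) ∅ (fun ω => Cn ω z z') := by
  classical
  have hq0 : 0 < q := by linarith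
  have hNL : NL (WEd m N \ Ers m j N s) := NL_WEd.mono sdiff_subset
  have hNe : NL (∅ : Finset (Sym2 Vtx)) := by intro e he; exact absurd he (notMem_empty e)
  have h1 : P q (WEd m N \ Ers m j N s) ∅
        (fun ω => (Bar (j + 2) N s ω ∧ Bar (j - 2) N s ω) ∧ UpC j N z z' ω) ≤
      P q (WEd m N \ Ers m j N s) ∅ (fun ω => UpC j N z z' ω ∧
        (∀ v, (∃ y ∈ rect (-N) N 0 N, y ≠ 0 ∧ v = uc j y) →
          ¬ Reach (fun v => ¬ Pla j N s v) ω v) ∧ True) := by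
    apply P_mono hq0
    intro ζ hζ h
    refine ⟨h.2, ?_, trivial⟩
    rintro v ⟨y, hy, hy0, rfl⟩
    exact bar_top hj hj' (by omega) hsN (by rw [union_empty]; exact hζ) h.1.1 h.1.2 hy hy0
  have h2 := PE_le (q := q) (E := WEd m N \ Ers m j N s) (F := ∅) (F0 := ∅) hq hNL hNe
    (S := fun v => ¬ Pla j N s v) (I := fun v => ∃ y ∈ rect (-N) N 0 N, y ≠ 0 ∧ v = uc j y)
    (Subset.refl _) (by intro e he; exact absurd he (notMem_empty e))
    (by intro e he; exact absurd he (notMem_empty e)) (A := UpC j N z z') (R := fun _ => True)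
    (inc_UpC z z') (by
      intro ω _ hN hA
      unfold UpC at hA ⊢
      refine hA.mono ?_
      intro e he
      rw [mem_inter] at he ⊢
      refine ⟨?_, he.2⟩
      unfold off
      rw [mem_filter]
      refine ⟨he.1, ?_⟩
      intro v hv
      apply hN
      obtain ⟨a, b, rfl, ha, hb, _⟩ := wc_mem_img he.2
      rw [mem_rect] at ha hb
      rw [Sym2.mem_iff] at hv
      rcases hv with rfl | rfl
      · refine ⟨a, by rw [mem_rect]; omega, ?_, rfl⟩
        intro h0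
        rw [h0] at ha
        simp only [Prod.snd_zero] at ha
        omega
      · refine ⟨b, by rw [mem_rect]; omega, ?_, rfl⟩
        intro h0
        rw [h0] at hb
        simp only [Prod.snd_zero] at hb
        omega)
    (fun _ _ _ _ _ _ => trivial)
  have h3 : P q (off (fun v => ¬ Pla j N s v) (WEd m N \ Ers m j N s)) ∅ (UpC j N z z') ≤
      P q (off (fun v => ¬ Pla j N s v) (WEd m N)) ∅ (UpC j N z z') := by
    have hoff : off (fun v => ¬ Pla j N s v) (WEd m N) ⊆ WEd m N := by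
      unfold off
      exact filter_subset _ _
    apply P_mono_EF hq (NL_WEd.mono hoff) hNe ?_ (Subset.refl _) (inc_UpC z z')
    rw [union_empty]
    intro e he
    unfold off at he ⊢
    rw [mem_filter, mem_sdiff] at he
    rw [mem_filter]
    exact ⟨he.1.1, he.2⟩
  have h4 : P q (off (fun v => ¬ Pla j N s v) (WEd m N)) ∅ (UpC j N z z') ≤
      P q (off (fun v => ¬ Pla j N s v) (WEd m N)) ∅ (fun ω => Cn ω (uc j z) (uc j z')) := by
    apply P_mono hq0
    intro ζ _ h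
    unfold UpC at h
    exact h.mono inter_subset_left
  have h5 := P_planar (m := m) (j := j) hq hsN hz hz'
  have h6 := P_le_one hq0 (WEd m N \ Ers m j N s) ∅ (fun ω =>
        (∀ v, (∃ y ∈ rect (-N) N 0 N, y ≠ 0 ∧ v = uc j y) →
          ¬ Reach (fun v => ¬ Pla j N s v) ω v) ∧ True)
  have h7 := P_nonneg hq0 (off (fun v => ¬ Pla j N s v) (WEd m N \ Ers m j N s)) ∅
    (UpC j N z z')
  refine h1.trans (h2.trans (le_trans ?_ (h3.trans (h4.trans h5))))
  nlinarith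

theorem wcut {q : ℝ} (hq : 1 ≤ q) : ∃ c : ℝ, 0 < c ∧ c ≤ 1 ∧ ∀ (k m s : ℕ) (N j : ℤ)
    (z z' : ℤ × ℤ), 8 ≤ s → (s : ℤ) ≤ N → 3 * N ≤ k * s → 0 ≤ j → j ≤ m → z ∈ rect (-N) N 1 N →
    z' ∈ rect (-N) N 1 N →
    c ^ (2 * k) * P q (WEd m N) ∅ (UpC j N z z') ≤
      (1 + √q) ^ (8 * s + m + 7) * P q (edgesIn (bxx 0 0 N)) ∅ (fun ω => Cn ω z z') := by
  obtain ⟨c, hc0, hc1, hc⟩ := bar_ge hq
  refine ⟨c, hc0, hc1, ?_⟩
  intro k m s N j z z' hs hsN hk hj hj' hz hz'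
  have hq0 : 0 < q := by linarith
  rw [mem_rect] at hz hz'
  have h1 := wc_step1 hq (m := m) (j := j) (N := N) (s := s) z z'
  have h2 := wc_step2 hq hc0 hc (k := k) (m := m) (N := N) (s := s) (j := j) z z' (by omega) hsN hk
    hj hj'
  have h3 := wc_step3 hq (m := m) (N := N) (s := s) (j := j) z z' (by omega) hsN hj hj'
    (by omega) (by omega)
  have hcard : #(Ers m j N s) ≤ 8 * s + m + 7 := card_Ers hj hj' (by omega)
  have hpow : (1 + √q) ^ #(Ers m j N s) ≤ (1 + √q) ^ (8 * s + m + 7) := by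
    apply pow_le_pow_right₀ _ hcard
    have := Real.sqrt_nonneg q
    linarith
  have hP := P_nonneg hq0 (edgesIn (bxx 0 0 N)) ∅ (fun ω => Cn ω z z')
  have hck : 0 < c ^ (2 * k) := by positivity
  have hs0 : 0 ≤ (1 + √q) ^ #(Ers m j N s) := by positivity
  calc c ^ (2 * k) * P q (WEd m N) ∅ (UpC j N z z')
      ≤ c ^ (2 * k) * ((1 + √q) ^ #(Ers m j N s) *
          P q (WEd m N \ Ers m j N s) ∅ (UpC j N z z')) := mul_le_mul_of_nonneg_left h1 hck.le
    _ = (1 + √q) ^ #(Ers m j N s) * (c ^ (2 * k) *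
          P q (WEd m N \ Ers m j N s) ∅ (UpC j N z z')) := by ring
    _ ≤ (1 + √q) ^ #(Ers m j N s) * P q (edgesIn (bxx 0 0 N)) ∅ (fun ω => Cn ω z z') :=
        mul_le_mul_of_nonneg_left (h2.trans h3) hs0
    _ ≤ _ := mul_le_mul_of_nonneg_right hpow hP

end Pool.Agent.FKR
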