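import Pool.Agent.FKR.NU1
import Pool.Agent.FKR.WCut
import Pool.Agent.FKR.WArm
import Pool.Agent.FKR.Chain
import Pool.Agent.FKR.SDefs
import Pool.Agent.FKR.WB1

/-! # FKR/NU2 (MP_b3e76a_pr): fast decay of the free arm probability in the wedge when `¬ UU q`

(1) `arm_le`: for `2 ≤ N` there are (deterministically, `arm_chart`; the outer vertex `v` is the first vertex of norm `N`: `Cn.exit`) `j, a, b`
with `UpC j N (a, 1) (b, N) ω`; so `P q (WE m N) ∅ (Arm N) ≤ ∑ P q (WEd m N) ∅ (UpC j N (a, 1) (b, N))` (`WE m N ⊆ WEd m N`: `edges_sub_WEd`, `P_mono_EF`),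
at most `(m + 1) (2 N + 1) ^ 2` terms.
(2) `wcut` with `s = Nat.sqrt N`, `k = 3 (s + 3)` (as in WNum): each term is `≤ exp (C √N) * p`, `p = P q (edgesIn (bxx 0 0 N)) ∅ (Cn (a,1) (b,N))`.
(3) `chain` with `n = 5 N` (`N ≥ 8`): `p ^ 128 ≤ uu q (5 N)`; `uu_scale` with `n' = 5 N` and `n = LL ^ i * n0`, `i` minimal with `10 N ≤ LL ^ i * n0`
(so `LL ^ i * n0 < 5230 N ≤ 1200 * 5 N` if `10 N ≥ n0`): `p ^ (128 K) ≤ uu q (LL ^ i * n0) ≤ exp (-41 ^ i)`.
(4) `√N ≤ √(523 ^ i n0) ≤ 23 ^ i √n0`, `N ≤ 523 ^ i n0`: so the sum is `≤ (m+1) (3N)^2 exp (C √n0 23 ^ i - 41 ^ i / (128 K))`, and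
`N ^ 4 *` this is bounded in `i`. -/

namespace Pool.Agent.FKR

open Finset
open Pool.Agent.H95.Wedge (Vtx pt verts edges)
open Pool.Agent.H95.Perc (Inc conn link rect hor ver eh ev sumE sepE Inci mem_rect)
open Pool.Agent.H95.SumRule (edgesIn Z2)

variable {q : ℝ}

/-- outer vertices in the upper half plane charts -/
private theorem nu2_uc {j : ℤ} {N : ℕ} (hN : 1 ≤ N) {y : ℤ} (hy : |y| ≤ N) :
    ch j ((N : ℤ), y) = uc j (-y, (N : ℤ)) := by
  rw [abs_le] at hy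
  have hN' : (1 : ℤ) ≤ N := by exact_mod_cast hN
  rcases lt_trichotomy y 0 with h | h | h
  · rw [uc_pos (by omega)]
    unfold ch pt
    rw [if_neg (by dsimp only; omega), if_neg (by dsimp only; omega)]
  · subst h
    rw [neg_zero, uc_zero hN']
    unfold ch pt
    rw [if_pos (by dsimp only; omega), if_neg (by dsimp only; omega)]
    rfl
  · rw [uc_neg (by omega) hN']
    unfold ch pt
    rw [if_pos (by dsimp only; omega), if_neg (by dsimp only; omega)]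
    simp

private theorem nu2_arm {m N : ℕ} (hN : 2 ≤ N) {ω : Finset (Sym2 Vtx)} (hω : ω ⊆ WE m N)
    (h : Arm N ω) : ∃ j a b : ℤ, 0 ≤ j ∧ j ≤ m ∧ |a| ≤ N ∧ |b| ≤ N ∧
      UpC j N (a, 1) (b, N) ω := by
  classical
  obtain ⟨v, hv1, h⟩ := h
  have hv0 : v ≠ tip := by
    rintro rfl
    rw [nm_tip] at hv1
    omega
  have hvv : v ∈ vts (WE m N) := vts_mono hω (h.mem_vts hv0.symm).2
  have hv2 : nm v ≤ N := by
    rw [mem_vts] at hvv
    obtain ⟨e, he, hve⟩ := hvv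
    obtain ⟨w, rfl⟩ := Sym2.mem_iff_exists.1 hve
    exact (WE_nm he).2
  have hvN : nm v = N := le_antisymm hv2 hv1
  obtain ⟨j, hj0, hjm, y, hy, hvy, -, -⟩ := WE_chart hvv hv0
  rw [hvN] at hy hvy
  rw [nu2_uc (by omega) hy] at hvy
  have hb : |(-y)| ≤ (N : ℤ) := by rw [abs_neg]; exact hy
  obtain ⟨hb1, hb2⟩ := abs_le.1 hb
  have hWEd : ω ⊆ WEd m N := by
    refine hω.trans ?_
    have := edges_sub_WEd (m := m) (N := (N : ℤ)) (by omega)
    rwa [Int.toNat_natCast] at this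
  set B : Vtx → Prop := fun w => ∃ z ∈ rect (-N) N 1 N, w = uc j z with hB
  have hvB : B v := ⟨(-y, N), mem_rect.2 ⟨hb1, hb2, by simp only; omega, le_refl _⟩, hvy⟩
  have htB : ¬ B tip := by
    rintro ⟨z, hz, hz2⟩
    rw [mem_rect] at hz
    have hz3 : tip = uc j (0, 0) := (uc_tip (j := j)).symm
    rw [hz3] at hz2
    have h5 : (0, 0) = z := uc_injOn j (show (0 : ℤ) ≤ 0 by omega) (show 0 ≤ z.2 by omega) hz2
    rw [← h5] at hz
    simp only at hz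
    omega
  obtain ⟨x, y', hxy, ⟨z, hz, rfl⟩, hyB, hc⟩ := Cn_exit h.symm hvB htB
  have hz' := mem_rect.1 hz
  obtain ⟨z', rfl, hzz⟩ := mem_WEd_up (m := m) (by omega) (by omega) hz'.2.2.1 (hWEd hxy)
  obtain ⟨g1, g2, g3⟩ := Pool.Agent.H95.Perc.mem_edgesIn'.1 hzz
  rw [mem_rect] at g1 g2
  have hz2 : z.2 = 1 := by
    have h5 : ¬ (1 ≤ z'.2) := fun h5 => hyB ⟨z', mem_rect.2 ⟨g2.1, g2.2.1, h5, g2.2.2.2⟩, rfl⟩
    have h6 : Pool.Agent.H95.SumRule.IsUnit2 (z' - z) := g3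
    unfold Pool.Agent.H95.SumRule.IsUnit2 at h6
    rw [Prod.fst_sub, Prod.snd_sub] at h6
    omega
  refine ⟨j, z.1, -y, hj0, hjm, abs_le.2 ⟨hz'.1, hz'.2.1⟩, hb, ?_⟩
  unfold UpC
  rw [← hz2, ← hvy]
  refine (hc.mono ?_).symm
  intro e he
  rw [mem_filter] at he
  rw [mem_inter]
  refine ⟨he.1, ?_⟩
  obtain ⟨he1, he2⟩ := he
  induction e with
  | _ x y =>
    obtain ⟨w1, hw1, rfl⟩ := he2 x (Sym2.mem_mk_left _ _)
    obtain ⟨w2, hw2, rfl⟩ := he2 y (Sym2.mem_mk_right _ _)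
    have k1 := mem_rect.1 hw1
    have k2 := mem_rect.1 hw2
    obtain ⟨w', hw', hww⟩ := mem_WEd_up (m := m) (by omega) (by omega) k1.2.2.1 (hWEd he1)
    obtain ⟨l1, l2, l3⟩ := Pool.Agent.H95.Perc.mem_edgesIn'.1 hww
    have l2' := mem_rect.1 l2
    have : w2 = w' := uc_injOn j (show 0 ≤ w2.2 by omega) (show 0 ≤ w'.2 by omega) hw'
    subst this
    exact mem_img_of_mem (Pool.Agent.H95.Perc.mem_edgesIn'.2 ⟨hw1, hw2, l3⟩)

/-- union bound -/
private theorem nu2_union (hq : 1 ≤ q) {m N : ℕ} (hN : 2 ≤ N) {M : ℝ}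
    (hM : ∀ j a b : ℤ, 0 ≤ j → j ≤ m → |a| ≤ N → |b| ≤ N →
      P q (WEd m N) ∅ (UpC j N (a, 1) (b, N)) ≤ M) :
    P q (WE m N) ∅ (Arm N) ≤ (m + 1) * (9 * (N : ℝ) ^ 2) * M := by
  classical
  have hq0 : 0 < q := by linarith
  set T : Finset (ℤ × ℤ × ℤ) := Icc 0 (m : ℤ) ×ˢ Icc (-(N : ℤ)) N ×ˢ Icc (-(N : ℤ)) N with hT
  have hNpos : (0 : ℝ) < N := by exact_mod_cast (show 0 < N by omega)
  have hN1 : (1 : ℝ) ≤ N := by exact_mod_cast (show 1 ≤ N by omega)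
  have hM0 : 0 ≤ M := (P_nonneg hq0 _ _ _).trans
    (hM 0 0 0 (le_refl _) (by omega) (by simp) (by simp))
  have e1 : P q (WE m N) ∅ (Arm N) ≤ P q (WE m N) ∅
        (fun ω => ∃ t ∈ T, UpC t.1 N (t.2.1, 1) (t.2.2, N) ω) := by
    refine P_mono hq0 fun ζ hζ hC => ?_
    obtain ⟨j, a, b, hj0, hjm, ha, hb, hU⟩ := nu2_arm hN
      (by rw [union_empty]; exact hζ) hC
    refine ⟨(j, a, b), ?_, hU⟩
    rw [hT, mem_product, mem_product, mem_Icc, mem_Icc, mem_Icc]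
    exact ⟨⟨hj0, hjm⟩, abs_le.1 ha, abs_le.1 hb⟩
  have e2 := P_exists_le hq0 (WE m N) ∅ T
    (fun t => UpC t.1 N (t.2.1, 1) (t.2.2, N))
  have hNE : NL (∅ : Finset (Sym2 Vtx)) := fun e he => absurd he (notMem_empty e)
  have hsub : WE m N ⊆ WEd m N := by
    have := edges_sub_WEd (m := m) (N := (N : ℤ)) (by omega)
    rwa [Int.toNat_natCast] at this
  have e3 : ∀ t ∈ T, P q (WE m N) ∅ (UpC t.1 N (t.2.1, 1) (t.2.2, N)) ≤ M := by
    rintro ⟨j, a, b⟩ ht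
    rw [hT, mem_product, mem_product, mem_Icc, mem_Icc, mem_Icc] at ht
    simp only at ht
    refine le_trans ?_ (hM j a b ht.1.1 ht.1.2 (abs_le.2 ht.2.1) (abs_le.2 ht.2.2))
    exact P_mono_EF hq NL_WEd hNE (hsub.trans subset_union_left) (Subset.refl _) (inc_UpC _ _)
  have e4 := sum_le_sum e3
  rw [sum_const, nsmul_eq_mul] at e4
  have hcard : ((#T : ℕ) : ℝ) ≤ (m + 1) * (9 * (N : ℝ) ^ 2) := by
    have h5 : ((#T : ℕ) : ℝ) = (m + 1) * ((2 * N + 1) * (2 * N + 1)) := by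
      rw [hT, card_product, card_product, Int.card_Icc, Int.card_Icc]
      have h6 : ((m : ℤ) + 1 - 0).toNat = m + 1 := by omega
      have h7 : ((N : ℤ) + 1 - -(N : ℤ)).toNat = 2 * N + 1 := by omega
      rw [h6, h7]
      push_cast
      ring
    rw [h5]
    have : (2 * (N : ℝ) + 1) * (2 * N + 1) ≤ 9 * (N : ℝ) ^ 2 := by nlinarith
    exact mul_le_mul_of_nonneg_left this (by positivity)
  calc P q (WE m N) ∅ (Arm N) ≤ _ := e1
    _ ≤ _ := e2
    _ ≤ ((#T : ℕ) : ℝ) * M := e4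
    _ ≤ _ := mul_le_mul_of_nonneg_right hcard hM0

/-- one term, in terms of the planar connection probability -/
private theorem nu2_cut (hq : 1 ≤ q) (m : ℕ) : ∃ C1 : ℝ, 0 ≤ C1 ∧ ∀ (N : ℤ), 64 ≤ N →
    ∀ j a b : ℤ, 0 ≤ j → j ≤ m → |a| ≤ N → |b| ≤ N →
      P q (WEd m N) ∅ (UpC j N (a, 1) (b, N)) ≤
        Real.exp (C1 * √(N : ℝ)) * P q (edgesIn (bxx 0 0 N)) ∅ (fun ω => Cn ω (a, 1) (b, N)) := by
  obtain ⟨c, hc0, hc1, hcut⟩ := wcut hq
  set L : ℝ := -Real.log c with hL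
  set Q : ℝ := Real.log (1 + √q) with hQ
  have hL0 : 0 ≤ L := by
    rw [hL]
    have := Real.log_nonpos hc0.le hc1
    linarith
  have hsq : 0 ≤ √q := Real.sqrt_nonneg q
  have hQ0 : 0 ≤ Q := Real.log_nonneg (by linarith)
  refine ⟨12 * L + Q * (m + 15), by positivity, fun N hN j a b hj0 hjm ha hb => ?_⟩
  set s : ℕ := Nat.sqrt N.toNat with hs
  have hNn : ((N.toNat : ℕ) : ℤ) = N := Int.toNat_of_nonneg (by linarith)
  have h64 : 64 ≤ N.toNat := by omega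
  have hs8 : 8 ≤ s := by
    rw [hs, Nat.le_sqrt]
    omega
  have hss : s * s ≤ N.toNat := Nat.sqrt_le _
  have hss1 : N.toNat < (s + 1) * (s + 1) := Nat.lt_succ_sqrt N.toNat
  have hsN : (s : ℤ) ≤ N := by
    rw [← hNn]
    exact_mod_cast le_trans (Nat.le_mul_self s) hss
  have h3 : 3 * N ≤ ((3 * (s + 3) : ℕ) : ℤ) * s := by
    have h1 : N.toNat ≤ (s + 3) * s := by nlinarith
    have h2 : N ≤ ((s : ℤ) + 3) * s := by
      rw [← hNn]
      exact_mod_cast h1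
    push_cast
    nlinarith
  have habs : ∀ x : ℤ, |x| ≤ N → -N ≤ x ∧ x ≤ N := fun x hx => abs_le.1 hx
  have hz : ((a, 1) : ℤ × ℤ) ∈ rect (-N) N 1 N := by
    rw [mem_rect]
    have := habs a ha
    refine ⟨?_, ?_, ?_, ?_⟩ <;> simp <;> linarith
  have hz' : ((b, N) : ℤ × ℤ) ∈ rect (-N) N 1 N := by
    rw [mem_rect]
    have := habs b hb
    refine ⟨?_, ?_, ?_, ?_⟩ <;> simp <;> linarith
  have hmain := hcut (3 * (s + 3)) m s N j (a, 1) (b, N) hs8 hsN h3 hj0 hjm hz hz'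
  set T : ℝ := P q (edgesIn (bxx 0 0 N)) ∅ (fun ω => Cn ω (a, 1) (b, N)) with hT
  set U : ℝ := P q (WEd m N) ∅ (UpC j N (a, 1) (b, N)) with hU
  have hNr : (64 : ℝ) ≤ N := by exact_mod_cast hN
  set r : ℝ := √(N : ℝ) with hr
  have hr0 : 0 ≤ r := Real.sqrt_nonneg _
  have hr8 : 8 ≤ r := by
    rw [hr]
    apply Real.le_sqrt_of_sq_le
    linarith
  have hsr : (s : ℝ) ≤ r := by
    rw [hr]
    apply Real.le_sqrt_of_sq_le
    have h1 : ((s * s : ℕ) : ℝ) ≤ ((N.toNat : ℕ) : ℝ) := by exact_mod_cast hss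
    have h2 : ((N.toNat : ℕ) : ℝ) = (N : ℝ) := by exact_mod_cast hNn
    rw [h2] at h1
    push_cast at h1
    nlinarith
  have hcpow : Real.exp (-(12 * L * r)) ≤ c ^ (2 * (3 * (s + 3))) := by
    have e1 : c = Real.exp (-L) := by
      rw [hL, neg_neg, Real.exp_log hc0]
    rw [e1, ← Real.exp_nat_mul]
    apply Real.exp_le_exp.2
    push_cast
    have : L * (2 * (3 * ((s : ℝ) + 3))) ≤ L * (12 * r) :=
      mul_le_mul_of_nonneg_left (by linarith) hL0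
    nlinarith
  have hQpow : (1 + √q) ^ (8 * s + m + 7) ≤ Real.exp (Q * (m + 15) * r) := by
    have e1 : 1 + √q = Real.exp Q := by
      rw [hQ, Real.exp_log (by linarith)]
    rw [e1, ← Real.exp_nat_mul]
    apply Real.exp_le_exp.2
    push_cast
    have hm0 : (0 : ℝ) ≤ m := Nat.cast_nonneg m
    have h1 : (8 * (s : ℝ) + m + 7) ≤ (m + 15) * r := by nlinarith
    nlinarith
  have hT0 : 0 ≤ T := P_nonneg (by linarith) _ _ _
  have hU0 : 0 ≤ U := P_nonneg (by linarith) _ _ _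
  have hfin : Real.exp (-(12 * L * r)) * U ≤ Real.exp (Q * (m + 15) * r) * T := by
    calc Real.exp (-(12 * L * r)) * U
        ≤ c ^ (2 * (3 * (s + 3))) * U := mul_le_mul_of_nonneg_right hcpow hU0
      _ ≤ (1 + √q) ^ (8 * s + m + 7) * T := hmain
      _ ≤ Real.exp (Q * (m + 15) * r) * T := mul_le_mul_of_nonneg_right hQpow hT0
  have h5 : Real.exp (12 * L * r) * (Real.exp (-(12 * L * r)) * U) = U := by
    rw [← mul_assoc, ← Real.exp_add, add_neg_cancel, Real.exp_zero, one_mul]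
  calc U = Real.exp (12 * L * r) * (Real.exp (-(12 * L * r)) * U) := h5.symm
    _ ≤ Real.exp (12 * L * r) * (Real.exp (Q * (m + 15) * r) * T) :=
        mul_le_mul_of_nonneg_left hfin (Real.exp_pos _).le
    _ = Real.exp ((12 * L + Q * (m + 15)) * r) * T := by
        rw [← mul_assoc, ← Real.exp_add]
        congr 2
        ring

/-- exponentials of different bases -/
private theorem nu2_num {A B : ℝ} (hA : 0 ≤ A) (hB : 0 < B) :
    ∃ D : ℝ, ∀ i : ℕ, A * 23 ^ i - B * 41 ^ i ≤ D := by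
  obtain ⟨i0, hi0⟩ := pow_unbounded_of_one_lt (A / B) (show (1 : ℝ) < 41 / 23 by norm_num)
  refine ⟨A * 23 ^ i0, fun i => ?_⟩
  have h41 : (0 : ℝ) < 41 ^ i := by positivity
  have h23 : (0 : ℝ) < 23 ^ i := by positivity
  rcases le_or_gt i i0 with h | h
  · have h1 : (23 : ℝ) ^ i ≤ 23 ^ i0 := pow_le_pow_right₀ (by norm_num) h
    have h2 := mul_le_mul_of_nonneg_left h1 hA
    have h3 : 0 < B * 41 ^ i := by positivity
    linarith
  · have h1 : (41 / 23 : ℝ) ^ i0 ≤ (41 / 23) ^ i := pow_le_pow_right₀ (by norm_num) h.le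
    have h2 : A / B < (41 / 23 : ℝ) ^ i := lt_of_lt_of_le hi0 h1
    rw [div_lt_iff₀ hB, div_pow, div_mul_eq_mul_div, lt_div_iff₀ h23] at h2
    have h3 : 0 ≤ A * 23 ^ i0 := by positivity
    nlinarith

/-- the planar connection probability is tiny -/
private theorem nu2_tiny (hq : 1 ≤ q) (h : ¬ UU q) : ∃ (B : ℝ) (n0 : ℕ), 0 < B ∧ 1 ≤ n0 ∧
    ∀ N : ℕ, 64 ≤ N → n0 ≤ N → ∃ i : ℕ, (N : ℝ) ≤ 523 ^ i * n0 ∧ ∀ a b : ℤ, |a| ≤ N → |b| ≤ N →
      P q (edgesIn (bxx 0 0 N)) ∅ (fun ω => Cn ω (a, 1) (b, N)) ≤ Real.exp (-(B * 41 ^ i)) := by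
  have hq0 : 0 < q := by linarith
  obtain ⟨n0, hn0, hsm⟩ := uu_small hq h
  obtain ⟨K, hK1, hK⟩ := uu_scale hq
  have hKr : (1 : ℝ) ≤ K := by exact_mod_cast hK1
  have hn0' : ((n0.toNat : ℕ) : ℤ) = n0 := Int.toNat_of_nonneg (by omega)
  refine ⟨1 / (128 * K), n0.toNat, by positivity, by omega, fun N hN hnN => ?_⟩
  have hLL : LL = 523 := rfl
  have hex : ∃ i : ℕ, 10 * (N : ℤ) ≤ LL ^ i * n0 := by
    obtain ⟨i, hi⟩ := pow_unbounded_of_one_lt (10 * (N : ℤ)) (show (1 : ℤ) < 523 by norm_num)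
    refine ⟨i, ?_⟩
    rw [hLL]
    have : (0 : ℤ) < 523 ^ i := by positivity
    nlinarith
  classical
  set i := Nat.find hex with hi
  have hi1 : 10 * (N : ℤ) ≤ LL ^ i * n0 := Nat.find_spec hex
  have hi0 : i ≠ 0 := by
    intro h0
    rw [h0, pow_zero, one_mul] at hi1
    omega
  obtain ⟨i', hi'⟩ := Nat.exists_eq_succ_of_ne_zero hi0
  have hi2 : LL ^ i' * n0 < 10 * (N : ℤ) := by
    have := Nat.find_min hex (show i' < Nat.find hex by omega)
    omega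
  have hi3 : LL ^ i * n0 ≤ 1200 * (5 * (N : ℤ)) := by
    rw [hi', pow_succ]
    have e : LL ^ i' * LL * n0 = 523 * (LL ^ i' * n0) := by rw [hLL]; ring
    rw [e]
    omega
  refine ⟨i, ?_, ?_⟩
  · have h1 : (N : ℤ) ≤ 523 ^ i * ((n0.toNat : ℕ) : ℤ) := by
      rw [hn0', ← hLL]
      omega
    exact_mod_cast h1
  · intro a b ha hb
    set T : ℝ := P q (edgesIn (bxx 0 0 N)) ∅ (fun ω => Cn ω (a, 1) (b, N)) with hT
    have hT0 : 0 ≤ T := P_nonneg hq0 _ _ _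
    have hT1 : T ≤ 1 := P_le_one hq0 _ _ _
    have hc := chain hq (N := (N : ℤ)) (n := 5 * (N : ℤ)) (a := a) (b := b) (p := T) (by omega)
      (by omega) (by omega) ha hb hT0 hT1 le_rfl
    have hs := hK (5 * (N : ℤ)) (LL ^ i * n0) (by omega) (by omega) hi3
    have h1 : T ^ (128 * K) ≤ Real.exp (-(41 : ℝ) ^ i) := by
      calc T ^ (128 * K) = (T ^ 128) ^ K := by rw [pow_mul]
        _ ≤ (uu q (5 * (N : ℤ))) ^ K := pow_le_pow_left₀ (pow_nonneg hT0 128) hc K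
        _ ≤ uu q (LL ^ i * n0) := hs
        _ ≤ _ := hsm i
    have h2 : Real.exp (-(41 : ℝ) ^ i) = (Real.exp (-(1 / (128 * K) * 41 ^ i))) ^ (128 * K) := by
      rw [← Real.exp_nat_mul]
      congr 1
      push_cast
      field_simp
    rw [h2] at h1
    exact le_of_pow_le_pow_left₀ (by omega) (Real.exp_pos _).le h1

theorem free_arm_small (hq : 1 ≤ q) (h : ¬ UU q) (m : ℕ) : ∃ C : ℝ, 0 < C ∧ ∀ N : ℕ, 1 ≤ N →
    P q (WE m N) ∅ (Arm N) ≤ C / (N : ℝ) ^ 4 := by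
  have hq0 : 0 < q := by linarith
  obtain ⟨C1, hC1, hcut⟩ := nu2_cut hq m
  obtain ⟨B, n0, hB, hn0, htiny⟩ := nu2_tiny hq h
  obtain ⟨D, hD⟩ := nu2_num (A := (C1 + 12) * √(n0 : ℝ)) (B := B) (by positivity) hB
  set N1 : ℕ := max 64 n0 with hN1
  refine ⟨9 * (m + 1) * Real.exp D + (N1 : ℝ) ^ 4, by positivity, fun N hN => ?_⟩
  have hNr : (1 : ℝ) ≤ N := by exact_mod_cast hN
  have hN0 : (0 : ℝ) < N := by linarith
  have hN4 : (0 : ℝ) < (N : ℝ) ^ 4 := by positivity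
  rw [le_div_iff₀ hN4]
  rcases lt_or_ge N N1 with hlt | hge
  · have h1 : P q (WE m N) ∅ (Arm N) ≤ 1 := P_le_one hq0 _ _ _
    have h2 : (N : ℝ) ^ 4 ≤ (N1 : ℝ) ^ 4 := by
      apply pow_le_pow_left₀ hN0.le
      exact_mod_cast hlt.le
    have h3 : 0 < 9 * ((m : ℝ) + 1) * Real.exp D := by positivity
    calc P q (WE m N) ∅ (Arm N) * (N : ℝ) ^ 4 ≤ 1 * (N : ℝ) ^ 4 :=
          mul_le_mul_of_nonneg_right h1 hN4.le
      _ ≤ _ := by linarith
  · have h64 : 64 ≤ N := le_trans (le_max_left _ _) hge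
    have hnN : n0 ≤ N := le_trans (le_max_right _ _) hge
    obtain ⟨i, hi, hT⟩ := htiny N h64 hnN
    set r : ℝ := √(N : ℝ) with hr
    have hr0 : 0 ≤ r := Real.sqrt_nonneg _
    have hrr : r * r = N := Real.mul_self_sqrt hN0.le
    have hM : ∀ j a b : ℤ, 0 ≤ j → j ≤ m → |a| ≤ (N : ℤ) → |b| ≤ (N : ℤ) →
        P q (WEd m N) ∅ (UpC j N (a, 1) (b, N)) ≤
          Real.exp (C1 * r) * Real.exp (-(B * 41 ^ i)) := by
      intro j a b hj0 hjm ha hb
      refine (hcut (N : ℤ) (by exact_mod_cast h64) j a b hj0 hjm ha hb).trans ?_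
      rw [show (((N : ℕ) : ℤ) : ℝ) = (N : ℝ) by norm_cast]
      exact mul_le_mul_of_nonneg_left (hT a b ha hb) (Real.exp_pos _).le
    have hU := nu2_union hq (by omega) hM
    -- numbers
    have hr23 : r ≤ 23 ^ i * √(n0 : ℝ) := by
      rw [hr]
      apply Real.sqrt_le_iff.2
      refine ⟨by positivity, hi.trans ?_⟩
      rw [mul_pow, Real.sq_sqrt (by positivity), ← pow_mul, mul_comm i 2, pow_mul]
      apply mul_le_mul_of_nonneg_right _ (by positivity)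
      exact pow_le_pow_left₀ (by norm_num) (by norm_num) i
    have hN6 : (N : ℝ) ^ 6 ≤ Real.exp (12 * r) := by
      have h1 : r ≤ Real.exp r := by linarith [Real.add_one_le_exp r]
      have h2 : (N : ℝ) ^ 6 = r ^ 12 := by rw [← hrr]; ring
      have h3 : Real.exp (12 * r) = Real.exp r ^ 12 := by
        rw [← Real.exp_nat_mul]
        norm_num
      rw [h2, h3]
      exact pow_le_pow_left₀ hr0 h1 12
    have hexp : Real.exp (12 * r) * (Real.exp (C1 * r) * Real.exp (-(B * 41 ^ i))) ≤ Real.exp D := by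
      rw [← Real.exp_add, ← Real.exp_add]
      apply Real.exp_le_exp.2
      have h1 := hD i
      have h2 : (C1 + 12) * r ≤ (C1 + 12) * (23 ^ i * √(n0 : ℝ)) :=
        mul_le_mul_of_nonneg_left hr23 (by linarith)
      linarith
    calc P q (WE m N) ∅ (Arm N) * (N : ℝ) ^ 4
        ≤ (m + 1) * (9 * (N : ℝ) ^ 2) * (Real.exp (C1 * r) * Real.exp (-(B * 41 ^ i))) * (N : ℝ) ^ 4 :=
          mul_le_mul_of_nonneg_right hU hN4.le
      _ = 9 * (m + 1) * ((N : ℝ) ^ 6 * (Real.exp (C1 * r) * Real.exp (-(B * 41 ^ i)))) := by ring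
      _ ≤ 9 * (m + 1) * (Real.exp (12 * r) * (Real.exp (C1 * r) * Real.exp (-(B * 41 ^ i)))) := by
          apply mul_le_mul_of_nonneg_left _ (by positivity)
          exact mul_le_mul_of_nonneg_right hN6 (by positivity)
      _ ≤ 9 * (m + 1) * Real.exp D := mul_le_mul_of_nonneg_left hexp (by positivity)
      _ ≤ _ := by
          have : (0 : ℝ) ≤ (N1 : ℝ) ^ 4 := by positivity
          linarith

end Pool.Agent.FKR
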