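import Pool.Agent.FKR.TwoLow
import Pool.Agent.H95.Wedge.Final

/-! # FKR/SFacts (MP_b3e76a_pr): the facts

`w k = wA q m k * wA q 2 k`. `fk_eq`: `fkProb` with the vertex set `verts` (contains `vts (edges ..)`) is `P q E ∅` (`P_eq_V` or
`W`-scaling by isolated vertices, see Basic). `tipTwoPoint q m N k = P q (WE m N) ∅ (Cn · tip (ch 0 (k, 0)))` (`pt 0 k 0 = ch 0 (k, 0)`).
`up`: `ray_up` with `n = k / 3`, `wA n ≤ C wA (4n) ≤ C wA k` (`wA_dbl`, `wA_anti`). `outUp`: in `F q m (fun _ => N) j` (`0 ≤ j ≤ m`) all `2 N + 1`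
(or fewer) terms are `GW q m _ (pt (j-1) i N) = P (Cn tip (ch j (N, -i)))` and `GW q m _ (pt j N i) = P (Cn tip (ch j (N, i)))`: `out_up` with
`n = N / 3`. `outLow`: the terms `pt 0 N i`, `N / 4 ≤ i ≤ N / 2`, of `F q m (fun _ => N) 0`: `out_low`. -/

namespace Pool.Agent.FKR

open Finset
open Pool.Agent.H95.Wedge (Vtx pt verts edges tipTwoPoint GW fkProb selfDual openGraph Lx F)

variable {q : ℝ}

private theorem vts_WE_sub (m N : ℕ) : vts (WE m N) ⊆ verts m (fun _ => N) := by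
  intro v hv
  rw [mem_vts] at hv
  obtain ⟨e, he, hve⟩ := hv
  obtain ⟨w, rfl⟩ := Sym2.mem_iff_exists.mp hve
  exact (Pool.Agent.H95.Wedge.good_wedge m (fun _ => N) v w he).1

theorem gw_eq (hq : 1 ≤ q) (m N : ℕ) (v : Vtx) :
    GW q m (fun _ => N) v = P q (WE m N) ∅ (fun ω => Cn ω tip v) := by
  have h := P_free (q := q) (by linarith) (WE_NL m N) (vts_WE_sub m N) (fun ω => Cn ω tip v)
  rw [h]
  rfl

private theorem ch_nonneg (j : ℤ) (x y : ℕ) : ch j ((x : ℤ), (y : ℤ)) = pt j x y := by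
  unfold ch
  rw [if_pos (by dsimp only; omega)]
  simp

private theorem ch_neg (j : ℤ) (x y : ℕ) (hx : 1 ≤ x) : ch j ((x : ℤ), -(y : ℤ)) = pt (j - 1) y x := by
  by_cases hy : y = 0
  · subst hy
    unfold ch
    rw [if_pos (by dsimp only; omega)]
    unfold pt
    simp only [Int.toNat_natCast]
    rw [if_neg (by omega), if_pos trivial, if_neg (by omega)]
    simp
  · unfold ch
    rw [if_neg (by dsimp only; omega)]
    simp

theorem tp_eq_P (hq : 1 ≤ q) (m N k : ℕ) :
    tipTwoPoint q m N k = P q (WE m N) ∅ (fun ω => Cn ω tip (ch 0 (k, 0))) := by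
  have h1 : tipTwoPoint q m N k = GW q m (fun _ => N) (pt 0 k 0) := rfl
  have h2 : ch 0 ((k : ℤ), (0 : ℤ)) = pt 0 k 0 := by
    have := ch_nonneg 0 k 0
    simpa using this
  rw [h1, gw_eq hq, h2]

private theorem wA_zero (hq : 1 ≤ q) (m : ℕ) : wA q m 0 = 1 := by
  unfold wA
  apply P_eq_one (by linarith)
  intro ζ _
  exact ⟨tip, Nat.zero_le _, Cn_refl _ _⟩

private theorem wA_anti' (hq : 1 ≤ q) {m n n' : ℕ} (h : n ≤ n') : wA q m n' ≤ wA q m n := by
  rcases Nat.eq_zero_or_pos n with h0 | h0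
  · subst h0
    rw [wA_zero hq]
    exact wA_le_one hq m n'
  · exact wA_anti hq h0 h

theorem facts (hq : 1 ≤ q) (hu : UU q) {m : ℕ} (hm : 1 ≤ m) :
    ∃ (w : ℕ → ℝ) (c C : ℝ) (k0 : ℕ), Facts q m w c C k0 := by
  have hq0 : 0 < q := by linarith
  obtain ⟨c1, hc1, k1, hk1, h1⟩ := two_low hq hu hm
  obtain ⟨c2, hc2, k2, hk2, h2⟩ := out_low hq hu hm
  obtain ⟨C1, hC1, n1, hn1, d1⟩ := wA_dbl hq hu hm
  obtain ⟨C2, hC2, n2, hn2, d2⟩ := wA_dbl hq hu (show 1 ≤ 2 by norm_num)
  have pm : ∀ k, 0 < wA q m k := fun k => wA_pos hq hm k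
  have p2 : ∀ k, 0 < wA q 2 k := fun k => wA_pos hq (by norm_num) k
  set w : ℕ → ℝ := fun k => wA q m k * wA q 2 k with hw
  have wpos : ∀ k, 0 < w k := fun k => mul_pos (pm k) (p2 k)
  have want : ∀ k l, k ≤ l → w l ≤ w k := fun k l h =>
    mul_le_mul (wA_anti' hq h) (wA_anti' hq h) (p2 l).le (pm k).le
  have hCC : 0 < C1 * C2 := mul_pos hC1 hC2
  have wdbl : ∀ k, n1 + n2 ≤ k → w k ≤ C1 * C2 * w (4 * k) := by
    intro k hk
    calc w k ≤ (C1 * wA q m (4 * k)) * (C2 * wA q 2 (4 * k)) :=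
          mul_le_mul (d1 k (by omega)) (d2 k (by omega)) (p2 k).le
            (mul_nonneg hC1.le (pm _).le)
      _ = C1 * C2 * w (4 * k) := by simp only [hw]; ring
  -- comparison of the scales `k / 3` and `k`
  have wthird : ∀ k, 3 * (n1 + n2) + 6 ≤ k → w (k / 3) ≤ C1 * C2 * w k := by
    intro k hk
    refine (wdbl (k / 3) (by omega)).trans ?_
    exact mul_le_mul_of_nonneg_left (want _ _ (by omega)) hCC.le
  have term : ∀ N : ℕ, 3 * (n1 + n2) + 6 ≤ N → ∀ j y : ℤ,
      P q (WE m N) ∅ (fun ω => Cn ω tip (ch j (N, y))) ≤ C1 * C2 * w N := by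
    intro N hN j y
    refine le_trans ?_ (wthird N hN)
    exact out_up hq (by omega) (by omega) j y
  refine ⟨w, min c1 (c2 / 8), 3 * (C1 * C2), k1 + k2 + 3 * (n1 + n2) + 8, ?_⟩
  have hcmin : 0 < min c1 (c2 / 8) := lt_min hc1 (by positivity)
  refine ⟨hcmin, by positivity, by omega, wpos, want, ?_, ?_, ?_, ?_, ?_⟩
  · intro k hk
    refine (wdbl k (by omega)).trans ?_
    nlinarith [mul_pos hCC (wpos (4 * k))]
  · intro k N hk hkN
    rw [tp_eq_P hq]
    refine le_trans ?_ (h1 k N (by omega) hkN)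
    exact mul_le_mul_of_nonneg_right (min_le_left _ _) (wpos k).le
  · intro k N hk hkN
    rw [tp_eq_P hq]
    have h3 := ray_up (q := q) (m := m) (N := N) (k := k) hq (n := k / 3) (by omega) (by omega)
    have h4 := wthird k (by omega)
    have h5 := mul_pos hCC (wpos k)
    have h6 : wA q m (k / 3) * wA q 2 (k / 3) = w (k / 3) := rfl
    rw [h6] at h3
    nlinarith
  · intro N j hN hj hj'
    have hL : ∀ i : ℤ, Lx m (fun _ => N) i ≤ N := by
      intro i
      unfold Lx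
      split_ifs
      · exact le_refl _
      · exact Nat.zero_le _
    have hLj : Lx m (fun _ => N) j = N := by
      unfold Lx
      rw [if_pos ⟨hj, hj'⟩]
    have hN1 : (1 : ℝ) ≤ N := by
      have : 1 ≤ N := by omega
      exact_mod_cast this
    have hT : 0 ≤ C1 * C2 * w N := (mul_pos hCC (wpos N)).le
    have t1 : ∀ i : ℕ, GW q m (fun _ => N) (pt (j - 1) i (Lx m (fun _ => N) j)) ≤ C1 * C2 * w N := by
      intro i
      rw [hLj, gw_eq hq, ← ch_neg j N i (by omega)]
      exact term N (by omega) j _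
    have t2 : ∀ i : ℕ, GW q m (fun _ => N) (pt j (Lx m (fun _ => N) j) i) ≤ C1 * C2 * w N := by
      intro i
      rw [hLj, gw_eq hq, ← ch_nonneg j N i]
      exact term N (by omega) j _
    have s1 : ∑ i ∈ Finset.Icc (if j = m + 1 then 1 else 0) (Lx m (fun _ => N) (j - 1)),
        GW q m (fun _ => N) (pt (j - 1) i (Lx m (fun _ => N) j)) ≤ (N + 1) * (C1 * C2 * w N) := by
      refine (Finset.sum_le_card_nsmul _ _ _ (fun i _ => t1 i)).trans ?_
      rw [nsmul_eq_mul]
      apply mul_le_mul_of_nonneg_right _ hT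
      have : (Finset.Icc (if j = m + 1 then 1 else 0) (Lx m (fun _ => N) (j - 1))).card ≤ N + 1 := by
        rw [Nat.card_Icc]
        have := hL (j - 1)
        omega
      exact_mod_cast this
    have s2 : ∑ i ∈ Finset.Icc 1 (Lx m (fun _ => N) (j + 1)),
        GW q m (fun _ => N) (pt j (Lx m (fun _ => N) j) i) ≤ N * (C1 * C2 * w N) := by
      refine (Finset.sum_le_card_nsmul _ _ _ (fun i _ => t2 i)).trans ?_
      rw [nsmul_eq_mul]
      apply mul_le_mul_of_nonneg_right _ hT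
      have : (Finset.Icc 1 (Lx m (fun _ => N) (j + 1))).card ≤ N := by
        rw [Nat.card_Icc]
        have := hL (j + 1)
        omega
      exact_mod_cast this
    unfold F
    rw [if_pos hj, if_pos hj']
    nlinarith
  · intro N hN
    have hN8 : (8 : ℝ) ≤ N := by
      have : 8 ≤ N := by omega
      exact_mod_cast this
    have hL0 : Lx m (fun _ => N) 0 = N := by
      unfold Lx
      rw [if_pos ⟨le_refl _, by omega⟩]
    have hL1 : Lx m (fun _ => N) (0 + 1) = N := by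
      unfold Lx
      rw [if_pos ⟨by omega, by omega⟩]
    have hpos : 0 ≤ ∑ i ∈ Finset.Icc (if (0 : ℤ) = m + 1 then 1 else 0) (Lx m (fun _ => N) (0 - 1)),
        GW q m (fun _ => N) (pt (0 - 1) i (Lx m (fun _ => N) 0)) :=
      Finset.sum_nonneg fun i _ => Pool.Agent.H95.Wedge.GW_nonneg hq0 _ _ _
    have t : ∀ i ∈ Finset.Icc ((N + 3) / 4) (N / 2), c2 * w N ≤ GW q m (fun _ => N) (pt 0 N i) := by
      intro i hi
      rw [Finset.mem_Icc] at hi
      rw [gw_eq hq, ← ch_nonneg 0 N i]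
      exact h2 N i (by omega) (by omega) (by omega)
    have s : (N : ℝ) / 8 * (c2 * w N) ≤ ∑ i ∈ Finset.Icc 1 (Lx m (fun _ => N) (0 + 1)),
        GW q m (fun _ => N) (pt 0 (Lx m (fun _ => N) 0) i) := by
      rw [hL0, hL1]
      have hsub : Finset.Icc ((N + 3) / 4) (N / 2) ⊆ Finset.Icc 1 N := by
        intro i hi
        rw [Finset.mem_Icc] at hi ⊢
        omega
      have r1 := Finset.sum_le_sum_of_subset_of_nonneg hsub
        (f := fun i => GW q m (fun _ => N) (pt 0 N i))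
        (fun i _ _ => Pool.Agent.H95.Wedge.GW_nonneg hq0 _ _ _)
      refine le_trans ?_ r1
      refine le_trans ?_ (Finset.card_nsmul_le_sum _ _ _ t)
      rw [nsmul_eq_mul]
      apply mul_le_mul_of_nonneg_right _ (mul_pos hc2 (wpos N)).le
      rw [Nat.card_Icc]
      have h8 : N ≤ 8 * (N / 2 + 1 - (N + 3) / 4) := by omega
      have h8' : (N : ℝ) ≤ 8 * ((N / 2 + 1 - (N + 3) / 4 : ℕ) : ℝ) := by exact_mod_cast h8
      linarith
    unfold F
    rw [if_pos (le_refl _), if_pos (by omega : (0 : ℤ) ≤ m)]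
    have hc : min c1 (c2 / 8) * N * w N ≤ (N : ℝ) / 8 * (c2 * w N) := by
      have := mul_le_mul_of_nonneg_right (min_le_right c1 (c2 / 8))
        (show (0 : ℝ) ≤ N * w N from mul_nonneg (by linarith) (wpos N).le)
      calc min c1 (c2 / 8) * N * w N = min c1 (c2 / 8) * (N * w N) := by ring
        _ ≤ c2 / 8 * (N * w N) := this
        _ = _ := by ring
    exact hc.trans (s.trans (le_add_of_nonneg_left hpos))

end Pool.Agent.FKR
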