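import Pool.Agent.FKR.NU2
import Pool.Agent.FKR.SFacts
import Pool.Agent.FKR.PE

/-! # FKR/NU3 (MP_b3e76a_pr): decay of the two-point function when `¬ UU q`

`last_scale`: for a configuration `ω ⊆ WE m M` with `Arm k ω` let `N ≥ k` be the maximal norm of a vertex connected to the tip
(`N ≤ M`); so `Arm N ω` and `¬ Arm (N + 1) ω`. `P q (WE m M) ∅ (Arm N ∧ ¬ Arm (N + 1)) ≤ P q (WE m N) ∅ (Arm N)`: `PE_le` with
`S v = (N + 1 ≤ nm v)`, `I v = (v = tip)`, `F = F0 = ∅`, `A = Arm N`, `R = True` (`¬ Arm (N+1)` says that the tip is not reached from `S`; `hA2`: no edge of a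
connection starting at the tip has a reached end), `off S (WE m M) ⊆ WE m N` (`WE_restrict`), `P_mono_EF`. `P_union` over `k ≤ N ≤ M`.
`tip_small`: `∑_(N ≥ k) C / N ^ 4 ≤ C' / k ^ 2` (e.g. `1 / N ^ 4 ≤ (1 / k ^ 2) * 1 / N ^ 2`, `∑ 1 / N ^ 2 ≤ 2`), `tp_eq_P`, and
`Cn ω tip (ch 0 (k, 0)) → Arm k ω` (`nm_ch`). -/

namespace Pool.Agent.FKR

open Finset
open Pool.Agent.H95.Wedge (Vtx pt verts edges tipTwoPoint)

variable {q : ℝ}

private theorem mem_offv {S : Vtx → Prop} {E : Finset (Sym2 Vtx)} {e : Sym2 Vtx} :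
    e ∈ off S E ↔ e ∈ E ∧ ∀ v ∈ e, ¬ S v := by
  classical
  unfold off
  rw [mem_filter]

private theorem arm_bd {m M n : ℕ} {ω : Finset (Sym2 Vtx)} (hω : ω ⊆ WE m M)
    (h : Arm n ω) : n ≤ M := by
  obtain ⟨v, hv, hc⟩ := h
  have h1 := hc.closed (S := fun y => nm y ≤ M) (by rw [nm_tip]; exact Nat.zero_le _)
    (fun x y _ hxy => by
      have h2 := hω hxy
      rw [Sym2.eq_swap] at h2
      exact (WE_nm h2).2)
  omega

private theorem arm_inc (n : ℕ) : Pool.Agent.H95.Perc.Inc (Arm n) := by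
  rintro ω ω' h ⟨v, hv, hc⟩
  exact ⟨v, hv, hc.mono h⟩

private theorem one_scale (hq : 1 ≤ q) (m M N : ℕ) :
    P q (WE m M) ∅ (fun ω => Arm N ω ∧ ¬ Arm (N + 1) ω) ≤ P q (WE m N) ∅ (Arm N) := by
  have hq0 : 0 < q := by linarith
  have h1 := PE_le (q := q) (E := WE m M) (F := ∅) (F0 := ∅) hq (WE_NL m M) (by intro e he; simp at he)
    (S := fun v => N + 1 ≤ nm v) (I := fun v => v = tip) (Subset.refl _)
    (by intro e he; simp at he) (by intro e he; simp at he) (A := Arm N) (R := fun _ => True)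
    (arm_inc N)
    (by
      rintro ω - hI ⟨v, hv, hc⟩
      refine ⟨v, hv, ?_⟩
      have h2 := hc.closed (S := fun y => Cn (off (Reach (fun v => N + 1 ≤ nm v) ω) ω) tip y ∧ Cn ω tip y)
        ⟨Cn_refl _ _, Cn_refl _ _⟩
        (fun x y hx hxy => by
          have hy : Cn ω tip y := hx.2.trans (Cn_edge hxy)
          refine ⟨hx.1.trans (Cn_edge ?_), hy⟩
          rw [mem_offv]
          refine ⟨hxy, ?_⟩
          intro w hw hr
          obtain ⟨s, hs, hsw⟩ := hr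
          apply hI tip rfl
          refine ⟨s, hs, hsw.trans ?_⟩
          rw [Sym2.mem_iff] at hw
          rcases hw with rfl | rfl
          · exact hx.2.symm
          · exact hy.symm)
      exact h2.1)
    (by intro ζ _ ζ' _ _ _; trivial)
  have h2 : P q (WE m M) ∅ (fun ω => Arm N ω ∧ ¬ Arm (N + 1) ω) ≤
      P q (WE m M) ∅ (fun ω => Arm N ω ∧
        (∀ v, v = tip → ¬ Reach (fun v => N + 1 ≤ nm v) ω v) ∧ True) := by
    apply P_mono hq0
    rintro ζ _ ⟨a1, a2⟩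
    refine ⟨a1, ?_, trivial⟩
    rintro v rfl ⟨s, hs, hc⟩
    exact a2 ⟨s, hs, hc.symm⟩
  refine h2.trans (h1.trans ?_)
  have h3 := P_le_one hq0 (WE m M) ∅
    (fun ω => (∀ v, v = tip → ¬ Reach (fun v => N + 1 ≤ nm v) ω v) ∧ True)
  have h4 := P_nonneg hq0 (off (fun v => N + 1 ≤ nm v) (WE m M)) ∅ (Arm N)
  have h5 : P q (off (fun v => N + 1 ≤ nm v) (WE m M)) ∅ (Arm N) ≤ P q (WE m N) ∅ (Arm N) := by
    apply P_mono_EF hq (WE_NL m N) (by intro e he; simp at he) _ (Subset.refl _) (arm_inc N)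
    intro e he
    rw [mem_offv] at he
    rw [union_empty]
    apply WE_restrict he.1
    intro v hv
    have := he.2 v hv
    omega
  calc _ ≤ P q (off (fun v => N + 1 ≤ nm v) (WE m M)) ∅ (Arm N) * 1 :=
        mul_le_mul_of_nonneg_left h3 h4
    _ ≤ _ := by rw [mul_one]; exact h5

theorem last_scale (hq : 1 ≤ q) (m : ℕ) {k M : ℕ} (hk : 1 ≤ k) :
    P q (WE m M) ∅ (Arm k) ≤ ∑ N ∈ Icc k M, P q (WE m N) ∅ (Arm N) := by
  have hq0 : 0 < q := by linarith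
  have h1 : P q (WE m M) ∅ (Arm k) ≤
      P q (WE m M) ∅ (fun ω => ∃ N ∈ Icc k M, (Arm N ω ∧ ¬ Arm (N + 1) ω)) := by
    apply P_mono hq0
    intro ζ hζ hA
    rw [union_empty] at hA ⊢
    by_contra hcon
    push Not at hcon
    have h2 : ∀ n, k ≤ n → n ≤ M + 1 → Arm n ζ := by
      intro n hn
      induction n, hn using Nat.le_induction with
      | base => intro _; exact hA
      | succ n hn ih =>
        intro hn'
        exact hcon n (mem_Icc.mpr ⟨hn, by omega⟩) (ih (by omega))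
    rcases le_or_gt k (M + 1) with h3 | h3
    · have := arm_bd hζ (h2 (M + 1) h3 le_rfl)
      omega
    · have := arm_bd hζ hA
      omega
  refine h1.trans ((P_union hq0 (Icc k M) (fun N ω => Arm N ω ∧ ¬ Arm (N + 1) ω)).trans ?_)
  exact sum_le_sum fun N _ => one_scale hq m M N

theorem tip_small (hq : 1 ≤ q) (h : ¬ UU q) (m : ℕ) : ∃ C : ℝ, 0 < C ∧ ∀ k N : ℕ, 1 ≤ k → k ≤ N →
    tipTwoPoint q m N k ≤ C / (k : ℝ) ^ 2 := by
  have hq0 : 0 < q := by linarith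
  obtain ⟨C, hC, h1⟩ := free_arm_small hq h m
  refine ⟨2 * C, by positivity, ?_⟩
  intro k N hk hkN
  have hk1 : (1 : ℝ) ≤ k := by exact_mod_cast hk
  rw [tp_eq_P hq]
  have h2 : P q (WE m N) ∅ (fun ω => Cn ω tip (ch 0 (k, 0))) ≤ P q (WE m N) ∅ (Arm k) := by
    apply P_mono hq0
    intro ζ _ hc
    refine ⟨_, ?_, hc⟩
    have h3 := nm_ch 0 (p := ((k : ℤ), 0)) (by simp)
    simp only [abs_zero] at h3
    omega
  refine h2.trans ((last_scale hq m hk).trans ?_)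
  have h3 : ∀ n ∈ Icc k N, P q (WE m n) ∅ (Arm n) ≤ C / (k : ℝ) ^ 2 * ((n : ℝ) ^ 2)⁻¹ := by
    intro n hn
    rw [mem_Icc] at hn
    have hn1 : (k : ℝ) ≤ n := by exact_mod_cast hn.1
    have hn0 : (0 : ℝ) < n := by linarith
    have hk0 : (0 : ℝ) < k := by linarith
    refine (h1 n (by omega)).trans ?_
    rw [← div_eq_mul_inv, div_div]
    apply div_le_div_of_nonneg_left hC.le (by positivity)
    have h4 : (k : ℝ) ^ 2 ≤ (n : ℝ) ^ 2 := by
      apply pow_le_pow_left₀ (by linarith) hn1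
    calc (k : ℝ) ^ 2 * (n : ℝ) ^ 2 ≤ (n : ℝ) ^ 2 * (n : ℝ) ^ 2 :=
          mul_le_mul_of_nonneg_right h4 (by positivity)
      _ = (n : ℝ) ^ 4 := by ring
  refine (sum_le_sum h3).trans ?_
  rw [← mul_sum]
  have h5 : ∑ n ∈ Icc k N, ((n : ℝ) ^ 2)⁻¹ ≤ 2 := by
    rw [← Finset.add_sum_Ioc_eq_sum_Icc hkN]
    have h6 := sum_Ioc_inv_sq_le_sub (α := ℝ) (k := k) (n := N) (by omega) hkN
    have h7 : ((k : ℝ) ^ 2)⁻¹ ≤ 1 := inv_le_one_of_one_le₀ (one_le_pow₀ hk1)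
    have h8 : ((k : ℝ))⁻¹ ≤ 1 := inv_le_one_of_one_le₀ hk1
    have h9 : (0 : ℝ) ≤ ((N : ℝ))⁻¹ := by positivity
    linarith
  calc C / (k : ℝ) ^ 2 * ∑ n ∈ Icc k N, ((n : ℝ) ^ 2)⁻¹ ≤ C / (k : ℝ) ^ 2 * 2 :=
        mul_le_mul_of_nonneg_left h5 (by positivity)
    _ = 2 * C / (k : ℝ) ^ 2 := by ring

end Pool.Agent.FKR
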