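import Pool.Agent.FKR.Sq
import Pool.Agent.FKR.NExp
import Pool.Agent.FKR.Explore
import Pool.Agent.FKR.Glue

/-! # FKR/Narrow (MP_b3e76a_pr): crossing between two vertical crossings

`narrow0`: rectangle `rect 0 w 0 T`, `1 ≤ a`, `2 a < w ≤ T + 1`. `nl = NLf 0 a 0 T ω`, `nr = NR (w-a) w 0 T ω`: regions to the left of
the left-most crossing of `rect 0 a 0 T` and to the right of the right-most crossing of `rect (w-a) w 0 T` (module
`NExp`); `X = Xl ∪ Xr`, `Xl = Xe (edgesIn (rect 0 a 0 T)) nl`, `Xr = Xe (edgesIn (rect (w-a) w 0 T)) nr`. `B`: both crossings exist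
(`stopL`, `stopR`). `explore_ge`: given `ω` with `B`, let `Cl`, `Cr` be as in `expL`, `expR`, `E1 = sqE w`, `F1 = sqF w`,
`E2 = E1 \ X`, `F2 = F1 ∪ (X ∩ edgesIn (rect 0 w 0 (w-1)))`.
`1/(1+√q) = P q E1 F1 (hor 0 w 0 (w-1)) ≤ P q E2 F2 (hor 0 w 0 (w-1))` by `sq_separate` and `P_mono_EF`,
`≤ P q (E \ X) (F ∪ (ω ∩ X)) (hor a (w-a) 0 T)` by `P_le`:
* connections: let `u ≠ v` be ends of edges of `E2` connected by `F2`. The edges of `F2` with `x ≤ a` and those with
`x ≥ w - a > a` have no common vertices, so `u`, `v` are both on the left or both on the right; say left: `u` is an end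
of an edge of the left side (so it is incident to a face `(-1, j) ∈ nl`) or of an edge of `Xl`; in both cases it is
incident to a face of `nl`. If `u ∉ Cl` then all faces of `rect (-1) a 0 (T-1)` around `u` are in `nl`, so all edges of
`rect 0 a 0 T` at `u` are explored; the edge of `E2` at `u` is unexplored, so it is `eh a y`, `u = (a, y)`; but `u` is incident
to a face `(a, j) ∉ nl`. So `u, v ∈ Cl`, connected by `ω ∩ Xl`.
* event: for `ζ ⊆ E2`, a crossing of `rect 0 w 0 (w-1)` by `ζ ∪ F2` contains one of `rect a (w-a) 0 (w-1)` which meets the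
columns `a` and `w - a` only at its ends; its edges are not in `F2` (all edges of `F2` have `x ≤ a` or `x ≥ w - a`), so they
are in `ζ`.
`narrow`: translate (`P_map` with `Perc.trans x y`). -/

namespace Pool.Agent.FKR

open Finset
open Pool.Agent.H95.Perc (Inc conn link rect hor ver eh ev sumE sepE Inci mem_rect)
open Pool.Agent.H95.SumRule (edgesIn Z2)

variable {q : ℝ} {E F : Finset (Sym2 (ℤ × ℤ))} {x y w a T : ℤ}

lemma nar_mem_Xe {E : Finset (Sym2 (ℤ × ℤ))} {n : Finset (ℤ × ℤ)} {e : Sym2 (ℤ × ℤ)} :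
    e ∈ Xe E n ↔ e ∈ E ∧ touch n e := by
  classical
  unfold Xe
  simp only [mem_filter]

lemma nar_Xe_sub (E : Finset (Sym2 (ℤ × ℤ))) (n : Finset (ℤ × ℤ)) : Xe E n ⊆ E :=
  fun _ he => (nar_mem_Xe.1 he).1

/-- a vertex incident to the explored region and to an unexplored edge is on the crossing -/
lemma nar_mem {x0 x1 : ℤ} (hT : 1 ≤ T) (hwT : w ≤ T + 1) {n C : Finset (ℤ × ℤ)}
    {ω X : Finset (Sym2 (ℤ × ℤ))} (hx : ExF x0 x1 0 T ω n C)
    (hL : x0 ≤ 0 ∨ ∀ j, (x0 - 1, j) ∉ n) (hR : w ≤ x1 ∨ ∀ j, (x1, j) ∉ n)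
    (hX : Xe (edgesIn (rect x0 x1 0 T)) n ⊆ X) {u : ℤ × ℤ} (hin : u ∈ rect x0 x1 0 T)
    (hf : ∃ f ∈ n, Inci f u) (hu2 : u ∈ vts (edgesIn (rect 0 w 0 (w - 1)) \ X)) : u ∈ C := by
  by_contra hC
  have hall : ∀ g ∈ rect (x0 - 1) x1 0 (T - 1), Inci g u → g ∈ n := by
    intro g hg hgu
    by_contra hgn
    exact hC ((hx.mem_C u).2 ⟨hin, hf, g, hg, hgn, hgu⟩)
  rw [mem_vts] at hu2
  obtain ⟨e, he, hue⟩ := hu2
  rw [mem_sdiff] at he
  have heE : e ∈ edgesIn (rect 0 w 0 (w - 1)) := he.1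
  have hur := mem_rect.1 hin
  have key : ∀ g : ℤ × ℤ, g ∈ rect (x0 - 1) x1 0 (T - 1) → Inci g u → g ∈ star e →
      e ∈ edgesIn (rect x0 x1 0 T) → False := by
    intro g hg hgu hge heA
    exact he.2 (hX (nar_mem_Xe.2 ⟨heA, g, hall g hg hgu, hge⟩))
  obtain ⟨x, y, rfl | rfl⟩ := edgesIn_cases heE
  · rw [eh_mem_edgesIn_rect] at heE
    rw [mem_eh] at hue
    -- the row of a face next to the edge
    obtain ⟨j, hj1, hj2, hj3⟩ : ∃ j : ℤ, (j = y ∨ j = y - 1) ∧ 0 ≤ j ∧ j ≤ T - 1 := by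
      by_cases hyT : y ≤ T - 1
      · exact ⟨y, Or.inl rfl, by omega, hyT⟩
      · exact ⟨y - 1, Or.inr rfl, by omega, by omega⟩
    have hgi : ∀ k : ℤ, (k = u.1 ∨ k = u.1 - 1) → Inci (k, j) u := by
      intro k hk
      unfold Inci
      have : u.2 = y := by rcases hue with h | h <;> rw [h]
      refine ⟨?_, ?_, ?_, ?_⟩ <;> dsimp only <;> omega
    have hu1 : u.1 = x ∨ u.1 = x + 1 := by
      rcases hue with h | h
      · left; rw [h]
      · right; rw [h]
    by_cases hA : x0 ≤ x ∧ x + 1 ≤ x1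
    · refine key (x, j) ?_ (hgi x (by omega)) ?_ ?_
      · rw [mem_rect]; dsimp only; omega
      · rw [star_eh, mem_ev]
        rcases hj1 with rfl | rfl
        · right; congr 1; ring
        · left; rfl
      · rw [eh_mem_edgesIn_rect]; omega
    · by_cases hB : x + 1 ≤ x1
      · -- `x + 1 = x0`
        have h1 : x + 1 = x0 := by omega
        rcases hL with h | h
        · omega
        · refine h j (hall (x0 - 1, j) ?_ (hgi _ (by omega)))
          rw [mem_rect]; dsimp only; omega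
      · have h1 : x = x1 := by omega
        rcases hR with h | h
        · omega
        · refine h j (hall (x1, j) ?_ (hgi _ (by omega)))
          rw [mem_rect]; dsimp only; omega
  · rw [ev_mem_edgesIn_rect] at heE
    rw [mem_ev] at hue
    have hu1 : u.1 = x := by rcases hue with h | h <;> rw [h]
    have hu2 : u.2 = y ∨ u.2 = y + 1 := by
      rcases hue with h | h
      · left; rw [h]
      · right; rw [h]
    refine key (x, y) ?_ ?_ ?_ ?_
    · rw [mem_rect]; dsimp only; omega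
    · unfold Inci
      refine ⟨?_, ?_, ?_, ?_⟩ <;> dsimp only <;> omega
    · rw [star_ev, mem_eh]
      right; congr 1; ring
    · rw [ev_mem_edgesIn_rect]; omega

/-- connections in the frozen set are realised by the explored open edges -/
lemma nar_conn (ha : 1 ≤ a) (haw : 2 * a < w) (hwT : w ≤ T + 1)
    {ω : Finset (Sym2 (ℤ × ℤ))} (hv1 : ver 0 a 0 T ω) (hv2 : ver (w - a) w 0 T ω)
    {X : Finset (Sym2 (ℤ × ℤ))}
    (hXd : X = Xe (edgesIn (rect 0 a 0 T)) (NLf 0 a 0 T ω) ∪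
      Xe (edgesIn (rect (w - a) w 0 T)) (NR (w - a) w 0 T ω)) {u v : ℤ × ℤ}
    (hu : u ∈ vts (sqE w \ X)) (hv : v ∈ vts (sqE w \ X))
    (h : Cn (sqF w ∪ (X ∩ edgesIn (rect 0 w 0 (w - 1)))) u v) : Cn (ω ∩ X) u v := by
  have hT : 0 < T := by omega
  by_cases huv : u = v
  · subst huv; exact Cn_refl _ _
  obtain ⟨⟨Cl, hCl⟩, hl1, hl2⟩ := expL (by omega) hT hv1
  obtain ⟨⟨Cr, hCr⟩, hr1, hr2⟩ := expR (by omega) hT hv2
  set nl := NLf 0 a 0 T ω with hnl
  set nr := NR (w - a) w 0 T ω with hnr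
  -- the left and right edges
  have hside : ∀ e ∈ sqF w ∪ (X ∩ edgesIn (rect 0 w 0 (w - 1))),
      e ∈ edgesIn (rect 0 0 0 (w - 1)) ∪ Xe (edgesIn (rect 0 a 0 T)) nl ∨
      e ∈ edgesIn (rect w w 0 (w - 1)) ∪ Xe (edgesIn (rect (w - a) w 0 T)) nr := by
    intro e he
    rw [mem_union] at he
    rcases he with he | he
    · unfold sqF at he
      rw [mem_union] at he
      rcases he with he | he
      · left; exact mem_union_left _ he
      · right; exact mem_union_left _ he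
    · have he1 := (mem_inter.1 he).1
      rw [hXd, mem_union] at he1
      rcases he1 with he1 | he1
      · left; exact mem_union_right _ he1
      · right; exact mem_union_right _ he1
  have hLv : ∀ z, z ∈ vts (edgesIn (rect 0 0 0 (w - 1)) ∪ Xe (edgesIn (rect 0 a 0 T)) nl) →
      z.1 ≤ a ∧ z ∈ rect 0 a 0 T ∧ ∃ f ∈ nl, Inci f z := by
    intro z hz
    rw [mem_vts] at hz
    obtain ⟨e, he, hze⟩ := hz
    rw [mem_union] at he
    rcases he with he | he
    · have hzr := mem_rect.1 (vts_edgesIn _ (mem_vts.2 ⟨e, he, hze⟩))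
      obtain ⟨x, y, rfl | rfl⟩ := edgesIn_cases he
      · rw [eh_mem_edgesIn_rect] at he; omega
      · rw [ev_mem_edgesIn_rect] at he
        rw [mem_ev] at hze
        have hz2 : z.2 = y ∨ z.2 = y + 1 := by
          rcases hze with h | h
          · left; rw [h]
          · right; rw [h]
        refine ⟨by omega, mem_rect.2 (by omega), (0 - 1, y), hl1 y he.2.2.1 (by omega), ?_⟩
        unfold Inci
        refine ⟨?_, ?_, ?_, ?_⟩ <;> dsimp only <;> omega
    · rw [nar_mem_Xe] at he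
      have hzr := vts_edgesIn _ (mem_vts.2 ⟨e, he.1, hze⟩)
      obtain ⟨f, hf, hfe⟩ := he.2
      exact ⟨(mem_rect.1 hzr).2.1, hzr, f, hf, inci_of_side he.1 hfe hze⟩
  have hRv : ∀ z, z ∈ vts (edgesIn (rect w w 0 (w - 1)) ∪ Xe (edgesIn (rect (w - a) w 0 T)) nr) →
      w - a ≤ z.1 ∧ z ∈ rect (w - a) w 0 T ∧ ∃ f ∈ nr, Inci f z := by
    intro z hz
    rw [mem_vts] at hz
    obtain ⟨e, he, hze⟩ := hz
    rw [mem_union] at he
    rcases he with he | he
    · have hzr := mem_rect.1 (vts_edgesIn _ (mem_vts.2 ⟨e, he, hze⟩))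
      obtain ⟨x, y, rfl | rfl⟩ := edgesIn_cases he
      · rw [eh_mem_edgesIn_rect] at he; omega
      · rw [ev_mem_edgesIn_rect] at he
        rw [mem_ev] at hze
        have hz2 : z.2 = y ∨ z.2 = y + 1 := by
          rcases hze with h | h
          · left; rw [h]
          · right; rw [h]
        refine ⟨by omega, mem_rect.2 (by omega), (w, y), hr1 y he.2.2.1 (by omega), ?_⟩
        unfold Inci
        refine ⟨?_, ?_, ?_, ?_⟩ <;> dsimp only <;> omega
    · rw [nar_mem_Xe] at he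
      have hzr := vts_edgesIn _ (mem_vts.2 ⟨e, he.1, hze⟩)
      obtain ⟨f, hf, hfe⟩ := he.2
      exact ⟨(mem_rect.1 hzr).1, hzr, f, hf, inci_of_side he.1 hfe hze⟩
  have hsub : ∀ z, z ∈ vts (sqE w \ X) → z ∈ vts (edgesIn (rect 0 w 0 (w - 1)) \ X) := by
    intro z hz
    refine vts_mono ?_ hz
    intro e he
    rw [mem_sdiff] at he ⊢
    exact ⟨(mem_sdiff.1 he.1).1, he.2⟩
  have hXl : Xe (edgesIn (rect 0 a 0 T)) nl ⊆ X := by rw [hXd]; exact subset_union_left
  have hXr : Xe (edgesIn (rect (w - a) w 0 T)) nr ⊆ X := by rw [hXd]; exact subset_union_right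
  have hmv := h.mem_vts huv
  have hcase : ∀ z, z ∈ vts (sqF w ∪ (X ∩ edgesIn (rect 0 w 0 (w - 1)))) →
      z ∈ vts (edgesIn (rect 0 0 0 (w - 1)) ∪ Xe (edgesIn (rect 0 a 0 T)) nl) ∨
      z ∈ vts (edgesIn (rect w w 0 (w - 1)) ∪ Xe (edgesIn (rect (w - a) w 0 T)) nr) := by
    intro z hz
    rw [mem_vts] at hz
    obtain ⟨e, he, hze⟩ := hz
    rcases hside e he with h' | h'
    · left; exact mem_vts.2 ⟨e, h', hze⟩
    · right; exact mem_vts.2 ⟨e, h', hze⟩
  rcases hcase u hmv.1 with hul | hur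
  · have hS : v.1 ≤ a := by
      refine h.closed (S := fun z => z.1 ≤ a) (hLv u hul).1 ?_
      intro p r hp hpr
      rcases hside _ hpr with h' | h'
      · exact (hLv r (mem_vts.2 ⟨_, h', Sym2.mem_mk_right _ _⟩)).1
      · have := (hRv p (mem_vts.2 ⟨_, h', Sym2.mem_mk_left _ _⟩)).1
        omega
    have hvl : v ∈ vts (edgesIn (rect 0 0 0 (w - 1)) ∪ Xe (edgesIn (rect 0 a 0 T)) nl) := by
      rcases hcase v hmv.2 with h' | h'
      · exact h'
      · have := (hRv v h').1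
        omega
    have huC : u ∈ Cl := nar_mem (by omega) hwT hCl (Or.inl le_rfl) (Or.inr hl2) hXl
      (hLv u hul).2.1 (hLv u hul).2.2 (hsub u hu)
    have hvC : v ∈ Cl := nar_mem (by omega) hwT hCl (Or.inl le_rfl) (Or.inr hl2) hXl
      (hLv v hvl).2.1 (hLv v hvl).2.2 (hsub v hv)
    exact (hCl.conn u huC v hvC).mono (inter_subset_inter (Subset.refl _) hXl)
  · have hS : w - a ≤ v.1 := by
      refine h.closed (S := fun z => w - a ≤ z.1) (hRv u hur).1 ?_
      intro p r hp hpr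
      rcases hside _ hpr with h' | h'
      · have := (hLv p (mem_vts.2 ⟨_, h', Sym2.mem_mk_left _ _⟩)).1
        omega
      · exact (hRv r (mem_vts.2 ⟨_, h', Sym2.mem_mk_right _ _⟩)).1
    have hvr : v ∈ vts (edgesIn (rect w w 0 (w - 1)) ∪ Xe (edgesIn (rect (w - a) w 0 T)) nr) := by
      rcases hcase v hmv.2 with h' | h'
      · have := (hLv v h').1
        omega
      · exact h'
    have huC : u ∈ Cr := nar_mem (by omega) hwT hCr (Or.inr hr2) (Or.inl le_rfl) hXr
      (hRv u hur).2.1 (hRv u hur).2.2 (hsub u hu)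
    have hvC : v ∈ Cr := nar_mem (by omega) hwT hCr (Or.inr hr2) (Or.inl le_rfl) hXr
      (hRv v hvr).2.1 (hRv v hvr).2.2 (hsub v hv)
    exact (hCr.conn u huC v hvC).mono (inter_subset_inter (Subset.refl _) hXr)

/-- a crossing which uses frozen edges in `x ≤ a` and `x ≥ b` only -/
lemma nar_event {b t : ℤ} {ζ F2 : Finset (Sym2 (ℤ × ℤ))}
    (hF2 : ∀ p r : ℤ × ℤ, s(p, r) ∈ F2 → (p.1 ≤ a ∧ r.1 ≤ a) ∨ (b ≤ p.1 ∧ b ≤ r.1))
    (h : hor a b 0 t (ζ ∪ F2)) : hor a b 0 t ζ := by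
  obtain ⟨l, r, hl, hr, hl1, hr1, hc⟩ := h
  by_contra hcon
  have hS : ∃ l', l' ∈ rect a b 0 t ∧ l'.1 = a ∧ r ∈ rect a b 0 t ∧ conn (rect a b 0 t) ζ l' r := by
    have hc' : Cn ((ζ ∪ F2) ∩ edgesIn (rect a b 0 t)) l r := hc
    refine hc'.closed (S := fun z => ∃ l', l' ∈ rect a b 0 t ∧ l'.1 = a ∧ z ∈ rect a b 0 t ∧
      conn (rect a b 0 t) ζ l' z) ⟨l, hl, hl1, hl, Pool.Agent.H95.Perc.conn_refl _ _ _⟩ ?_
    rintro p z ⟨l', hl', hl1', hp, hcp⟩ hpz
    rw [mem_inter, mem_union] at hpz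
    have hpz2 := Pool.Agent.H95.Perc.mem_edgesIn'.1 hpz.2
    rcases hpz.1 with h1 | h1
    · exact ⟨l', hl', hl1', hpz2.2.1,
        hcp.trans (Pool.Agent.H95.Perc.conn_step hpz2.1 hpz2.2.1 hpz2.2.2 h1)⟩
    · rcases hF2 p z h1 with h2 | h2
      · have hz := mem_rect.1 hpz2.2.1
        exact ⟨z, hpz2.2.1, by omega, hpz2.2.1, Pool.Agent.H95.Perc.conn_refl _ _ _⟩
      · exfalso
        have hp' := mem_rect.1 hp
        exact hcon ⟨l', p, hl', hp, hl1', by show p.1 = b; omega, hcp⟩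
  obtain ⟨l', hl', hl1', _, hcr⟩ := hS
  exact hcon ⟨l', r, hl', hr, hl1', hr1, hcr⟩

lemma nar_cond (hq : 1 ≤ q) (hE : NL E) (hF : NL F) (ha : 1 ≤ a) (haw : 2 * a < w)
    (hwT : w ≤ T + 1) (hD : edgesIn (rect 0 w 0 T) ⊆ E) {ω : Finset (Sym2 (ℤ × ℤ))}
    (hv1 : ver 0 a 0 T ω) (hv2 : ver (w - a) w 0 T ω) {X : Finset (Sym2 (ℤ × ℤ))}
    (hXd : X = Xe (edgesIn (rect 0 a 0 T)) (NLf 0 a 0 T ω) ∪
      Xe (edgesIn (rect (w - a) w 0 T)) (NR (w - a) w 0 T ω)) :
    1 / (1 + √q) ≤ P q (E \ X) (F ∪ (ω ∩ X)) (hor a (w - a) 0 T) := by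
  have hsqE : sqE w ⊆ edgesIn (rect 0 w 0 (w - 1)) := sdiff_subset
  have hsqF : sqF w ⊆ edgesIn (rect 0 w 0 (w - 1)) := by
    unfold sqF
    refine union_subset ?_ ?_
    · exact Pool.Agent.H95.Perc.edgesIn_mono (Pool.Agent.H95.Perc.rect_mono (by omega) (by omega) (by omega) (by omega))
    · exact Pool.Agent.H95.Perc.edgesIn_mono (Pool.Agent.H95.Perc.rect_mono (by omega) (by omega) (by omega) (by omega))
  have hXE : X ⊆ edgesIn (rect 0 w 0 T) := by
    rw [hXd]
    refine union_subset ?_ ?_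
    · exact (nar_Xe_sub _ _).trans (Pool.Agent.H95.Perc.edgesIn_mono
        (Pool.Agent.H95.Perc.rect_mono (by omega) (by omega) (by omega) (by omega)))
    · exact (nar_Xe_sub _ _).trans (Pool.Agent.H95.Perc.edgesIn_mono
        (Pool.Agent.H95.Perc.rect_mono (by omega) (by omega) (by omega) (by omega)))
  have hNLX : NL (ω ∩ X) := (NL_edgesIn _).mono (inter_subset_right.trans hXE)
  have hsq : NL (sqE w \ X) := (NL_edgesIn _).mono (sdiff_subset.trans hsqE)
  have hsqF2 : NL (sqF w ∪ (X ∩ edgesIn (rect 0 w 0 (w - 1)))) :=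
    ((NL_edgesIn _).mono hsqF).union ((NL_edgesIn _).mono inter_subset_right)
  calc 1 / (1 + √q) = P q (sqE w) (sqF w) (hor 0 w 0 (w - 1)) := (sq_separate hq (by omega)).symm
    _ ≤ P q (sqE w \ X) (sqF w ∪ (X ∩ edgesIn (rect 0 w 0 (w - 1)))) (hor 0 w 0 (w - 1)) := by
        refine P_mono_EF hq hsq hsqF2 ?_ subset_union_left (Pool.Agent.H95.Perc.inc_hor _ _ _ _)
        intro e he
        by_cases heX : e ∈ X
        · exact mem_union_right _ (mem_union_right _ (mem_inter.2 ⟨heX, hsqE he⟩))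
        · exact mem_union_left _ (mem_sdiff.2 ⟨he, heX⟩)
    _ ≤ P q (E \ X) (F ∪ (ω ∩ X)) (hor a (w - a) 0 T) := by
        refine P_le hq hsq hsqF2 (hE.mono sdiff_subset) (hF.union hNLX) ?_ ?_
          (Pool.Agent.H95.Perc.inc_hor _ _ _ _) (Pool.Agent.H95.Perc.inc_hor _ _ _ _) ?_
        · intro e he
          rw [mem_sdiff] at he
          refine mem_union_left _ (mem_sdiff.2 ⟨hD ?_, he.2⟩)
          exact Pool.Agent.H95.Perc.edgesIn_mono (Pool.Agent.H95.Perc.rect_mono (by omega) (by omega)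
            (by omega) (by omega)) (hsqE he.1)
        · intro u hu v hv huv
          exact (nar_conn ha haw hwT hv1 hv2 hXd hu hv huv).mono subset_union_right
        · intro ζ hζ hcr
          have h1 : hor a (w - a) 0 (w - 1) (ζ ∪ (sqF w ∪ (X ∩ edgesIn (rect 0 w 0 (w - 1))))) :=
            Pool.Agent.H95.Perc.hor_shrink (by omega) (by omega) (by omega) hcr
          have h2 : hor a (w - a) 0 (w - 1) ζ := by
            refine nar_event ?_ h1
            intro p r hpr
            rw [mem_union] at hpr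
            rcases hpr with hpr | hpr
            · unfold sqF at hpr
              rw [mem_union] at hpr
              rcases hpr with hpr | hpr
              · have h3 := Pool.Agent.H95.Perc.mem_edgesIn'.1 hpr
                have h4 := mem_rect.1 h3.1
                have h5 := mem_rect.1 h3.2.1
                left; omega
              · have h3 := Pool.Agent.H95.Perc.mem_edgesIn'.1 hpr
                have h4 := mem_rect.1 h3.1
                have h5 := mem_rect.1 h3.2.1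
                right; omega
            · have h0 := (mem_inter.1 hpr).1
              rw [hXd, mem_union] at h0
              rcases h0 with h0 | h0
              · have h3 := Pool.Agent.H95.Perc.mem_edgesIn'.1 (nar_Xe_sub _ _ h0)
                have h4 := mem_rect.1 h3.1
                have h5 := mem_rect.1 h3.2.1
                left; omega
              · have h3 := Pool.Agent.H95.Perc.mem_edgesIn'.1 (nar_Xe_sub _ _ h0)
                have h4 := mem_rect.1 h3.1
                have h5 := mem_rect.1 h3.2.1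
                right; omega
          have h3 : hor a (w - a) 0 T ζ :=
            Pool.Agent.H95.Perc.hor_mono (by omega) (by omega) h2
          exact Pool.Agent.H95.Perc.inc_hor _ _ _ _ _ _ subset_union_left h3

theorem narrow0 (hq : 1 ≤ q) (hE : NL E) (hF : NL F) (ha : 1 ≤ a) (haw : 2 * a < w) (hwT : w ≤ T + 1)
    (hD : edgesIn (rect 0 w 0 T) ⊆ E) :
    P q E F (fun ω => ver 0 a 0 T ω ∧ ver (w - a) w 0 T ω) ≤
      (1 + √q) * P q E F (hor a (w - a) 0 T) := by
  have hT : 0 < T := by omega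
  have hq0 : 0 < q := by linarith
  have hc0 : 0 < 1 + √q := by positivity
  have key := explore_ge hq0 hE hF (B := fun ω => ver 0 a 0 T ω ∧ ver (w - a) w 0 T ω)
    (X := fun ω => Xe (edgesIn (rect 0 a 0 T)) (NLf 0 a 0 T ω) ∪
      Xe (edgesIn (rect (w - a) w 0 T)) (NR (w - a) w 0 T ω))
    (A := hor a (w - a) 0 T) (c := 1 / (1 + √q)) ?_ ?_ ?_
  · have h2 : P q E F (fun ω => hor a (w - a) 0 T ω ∧ (ver 0 a 0 T ω ∧ ver (w - a) w 0 T ω)) ≤
        P q E F (hor a (w - a) 0 T) := P_mono hq0 (fun _ _ h => h.1)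
    have h3 := key.trans h2
    rw [div_mul_eq_mul_div, one_mul, div_le_iff₀ hc0] at h3
    linarith
  · intro ω _
    refine union_subset ?_ ?_
    · exact ((nar_Xe_sub _ _).trans (Pool.Agent.H95.Perc.edgesIn_mono
        (Pool.Agent.H95.Perc.rect_mono (by omega) (by omega) (by omega) (by omega)))).trans hD
    · exact ((nar_Xe_sub _ _).trans (Pool.Agent.H95.Perc.edgesIn_mono
        (Pool.Agent.H95.Perc.rect_mono (by omega) (by omega) (by omega) (by omega)))).trans hD
  · rintro ω ω' ⟨hv1, hv2⟩ hω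
    have hl : ω' ∩ Xe (edgesIn (rect 0 a 0 T)) (NLf 0 a 0 T ω) =
        ω ∩ Xe (edgesIn (rect 0 a 0 T)) (NLf 0 a 0 T ω) := by
      have := congrArg (fun s => s ∩ Xe (edgesIn (rect 0 a 0 T)) (NLf 0 a 0 T ω)) hω
      simpa only [inter_assoc, union_inter_cancel_left] using this
    have hr : ω' ∩ Xe (edgesIn (rect (w - a) w 0 T)) (NR (w - a) w 0 T ω) =
        ω ∩ Xe (edgesIn (rect (w - a) w 0 T)) (NR (w - a) w 0 T ω) := by
      have := congrArg (fun s => s ∩ Xe (edgesIn (rect (w - a) w 0 T)) (NR (w - a) w 0 T ω)) hω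
      simpa only [inter_assoc, union_inter_cancel_right] using this
    have h1 := stopL (by omega) hT hv1 hl
    have h2 := stopR (by omega) hT hv2 hr
    refine ⟨⟨h1.1, h2.1⟩, ?_⟩
    rw [h1.2, h2.2]
  · rintro ω _ _ ⟨hv1, hv2⟩
    exact nar_cond hq hE hF ha haw hwT hD hv1 hv2 rfl

/-- crossings of translated rectangles -/
lemma nar_trans_hor {x0 x1 y0 y1 x y : ℤ} {ω : Finset (Sym2 (ℤ × ℤ))} :
    hor x0 x1 y0 y1 (img (Pool.Agent.H95.Perc.trans (-x) (-y)) ω) ↔
      hor (x0 + x) (x1 + x) (y0 + y) (y1 + y) ω := by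
  have h1 : rect x0 x1 y0 y1 = (rect (x0 + x) (x1 + x) (y0 + y) (y1 + y)).image
      (Pool.Agent.H95.Perc.trans (-x) (-y)) := by
    rw [Pool.Agent.H95.Perc.rect_trans]; congr 1 <;> ring
  unfold hor
  rw [h1]
  refine (Pool.Agent.H95.Perc.link_act (Pool.Agent.H95.Perc.isAut_trans _ _)).trans ?_
  constructor
  · intro hh
    refine hh.mono (Subset.refl _) (fun a _ h2 => ?_) (fun a _ h2 => ?_)
    · simp only [Pool.Agent.H95.Perc.trans, Equiv.coe_fn_mk] at h2; omega
    · simp only [Pool.Agent.H95.Perc.trans, Equiv.coe_fn_mk] at h2; omega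
  · intro hh
    refine hh.mono (Subset.refl _) (fun a _ h2 => ?_) (fun a _ h2 => ?_)
    · simp only [Pool.Agent.H95.Perc.trans, Equiv.coe_fn_mk]; omega
    · simp only [Pool.Agent.H95.Perc.trans, Equiv.coe_fn_mk]; omega

lemma nar_trans_ver {x0 x1 y0 y1 x y : ℤ} {ω : Finset (Sym2 (ℤ × ℤ))} :
    ver x0 x1 y0 y1 (img (Pool.Agent.H95.Perc.trans (-x) (-y)) ω) ↔
      ver (x0 + x) (x1 + x) (y0 + y) (y1 + y) ω := by
  have h1 : rect x0 x1 y0 y1 = (rect (x0 + x) (x1 + x) (y0 + y) (y1 + y)).image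
      (Pool.Agent.H95.Perc.trans (-x) (-y)) := by
    rw [Pool.Agent.H95.Perc.rect_trans]; congr 1 <;> ring
  unfold ver
  rw [h1]
  refine (Pool.Agent.H95.Perc.link_act (Pool.Agent.H95.Perc.isAut_trans _ _)).trans ?_
  constructor
  · intro hh
    refine hh.mono (Subset.refl _) (fun a _ h2 => ?_) (fun a _ h2 => ?_)
    · simp only [Pool.Agent.H95.Perc.trans, Equiv.coe_fn_mk] at h2; omega
    · simp only [Pool.Agent.H95.Perc.trans, Equiv.coe_fn_mk] at h2; omega
  · intro hh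
    refine hh.mono (Subset.refl _) (fun a _ h2 => ?_) (fun a _ h2 => ?_)
    · simp only [Pool.Agent.H95.Perc.trans, Equiv.coe_fn_mk]; omega
    · simp only [Pool.Agent.H95.Perc.trans, Equiv.coe_fn_mk]; omega

theorem narrow (hq : 1 ≤ q) (hE : NL E) (hF : NL F) (ha : 1 ≤ a) (haw : 2 * a < w) (hwT : w ≤ T + 1)
    (hD : edgesIn (rect x (x + w) y (y + T)) ⊆ E) :
    P q E F (fun ω => ver x (x + a) y (y + T) ω ∧ ver (x + w - a) (x + w) y (y + T) ω) ≤
      (1 + √q) * P q E F (hor (x + a) (x + w - a) y (y + T)) := by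
  have hq0 : 0 < q := by linarith
  have hinj : ∀ S : Set (ℤ × ℤ), Set.InjOn (Pool.Agent.H95.Perc.trans (-x) (-y)) S :=
    fun S => (Equiv.injective _).injOn
  have hD' : edgesIn (rect 0 w 0 T) ⊆ img (Pool.Agent.H95.Perc.trans (-x) (-y)) E := by
    have h1 : rect 0 w 0 T = (rect x (x + w) y (y + T)).image
        (Pool.Agent.H95.Perc.trans (-x) (-y)) := by
      rw [Pool.Agent.H95.Perc.rect_trans]; congr 1 <;> ring
    rw [h1, Pool.Agent.H95.Perc.edgesIn_image (Pool.Agent.H95.Perc.isAut_trans _ _)]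
    exact image_subset_image hD
  have key := narrow0 hq (NL_img (hinj _) hE) (NL_img (hinj _) hF) ha haw hwT hD'
  rw [P_map hq0 hE hF (hinj _), P_map hq0 hE hF (hinj _)] at key
  simp only [nar_trans_hor, nar_trans_ver] at key
  rw [show x + w - a = w - a + x by ring, show x + w = w + x by ring, show y + T = T + y by ring,
    show x + a = a + x by ring]
  simpa only [zero_add] using key

end Pool.Agent.FKR
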