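import Pool.Agent.FKR.R2num
import Pool.Agent.FKR.KLCyl
import Pool.Agent.FKR.Narrow

/-! # FKR/R2 (MP_b3e76a_pr): crossing estimates in the middle of the cylinder

`hv_cyl`: `H b = Pc (hor 0 b t (h-t))`, `V b = Pc (ver 0 b t (h-t))`, `T = h - 2 t`, `s = √q`, cylinder `M = 2 m + 1`.
`H0`: `hor 0 0 t (h-t)` always holds. `anti`: `hor_shrink`; `mono`: `ver_narrow`; `dual`: `cyl_hv`; `ext`: `hor_extend_prob`
(`x0 = 0`); `kl`: `KL_cyl`; `narrow`: `narrow` with `x = 0`, `y = t`, `P_fkg` and `Pc_ver_shift`, `Pc_hor_shift`; `glue`: `P_fkg`,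
`hor_glue` with `x0 = 0, x1' = L - a, x1 = L, x2 = L + L' - a`, and the shifts.
`R2`: from `hv_bound`. `R2n`: `cyl_nver` and `R2` with `t + 1` in place of `t`, `α + 1`
(`b + 1 ≤ α T + 1 ≤ (3 α + 1) (T - 2)` for `T ≥ 3`). -/

namespace Pool.Agent.FKR

open Finset
open Pool.Agent.H95.Perc (Inc conn link rect hor ver eh ev sumE sepE Inci mem_rect)
open Pool.Agent.H95.SumRule (edgesIn Z2)

variable {q : ℝ}

private lemma sub_cylE {M h x0 x1 y0 y1 : ℤ} (hM : 3 ≤ M) (hh : 0 ≤ h) (hx0 : 0 ≤ x0)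
    (hx1 : x1 ≤ M - 1) (hy0 : 1 ≤ y0) (hy1 : y1 ≤ h) :
    edgesIn (rect x0 x1 y0 y1) ⊆ cylE M h := by
  intro e he
  rw [cylE_cases hM hh]
  obtain ⟨x, y, rfl | rfl⟩ := edgesIn_cases he
  · rw [eh_mem_edgesIn_rect] at he
    exact Or.inl ⟨x, y, rfl, by omega, by omega, by omega, by omega⟩
  · rw [ev_mem_edgesIn_rect] at he
    exact Or.inr (Or.inl ⟨x, y, rfl, by omega, by omega, by omega, by omega⟩)

theorem hv_cyl (hq : 1 ≤ q) {m h t : ℤ} (ht : 1 ≤ t) (hT : 1 ≤ h - 2 * t) (hm : 1 ≤ m) :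
    HV (√q) (h - 2 * t) m (fun b => Pc q (2 * m + 1) h (hor 0 b t (h - t)))
      (fun b => Pc q (2 * m + 1) h (ver 0 b t (h - t))) := by
  have hq0 : 0 < q := by linarith
  have hM : 3 ≤ 2 * m + 1 := by omega
  have hh : 0 ≤ h := by omega
  have hNE : NL (cylE (2 * m + 1) h) := NL_cylE hM
  have hNF : NL (cylF (2 * m + 1)) := NL_cylF hM
  refine ⟨?_, ?_, ?_, ?_, ?_, ?_, ?_, ?_, ?_, ?_⟩
  · refine P_eq_one hq0 fun ζ _ => ?_
    refine ⟨(0, t), (0, t), ?_, ?_, rfl, rfl, Pool.Agent.H95.Perc.conn_refl _ _ _⟩ <;>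
    · rw [mem_rect]
      dsimp only
      omega
  · intro b
    exact P_nonneg hq0 _ _ _
  · intro b
    exact P_nonneg hq0 _ _ _
  · intro b b' hb hbb' _
    exact P_mono hq0 fun ζ _ h1 => Pool.Agent.H95.Perc.hor_shrink le_rfl hb hbb' h1
  · intro b b' hb hbb' _
    exact P_mono hq0 fun ζ _ h1 => ver_narrow le_rfl hbb' h1
  · intro b hb hb'
    exact cyl_hv hq0 hM ht (by omega) hb (by omega)
  · intro b hb hb'
    refine hor_extend_prob hq hNE hNF hb ?_
    exact sub_cylE hM hh le_rfl (by omega) ht (by omega)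
  · intro L a ha haL hLm
    exact KL_cyl hq ht hT ha haL hLm
  · intro w a ha haw hwT hwm
    have h1 : Pc q (2 * m + 1) h (ver (w - a) w t (h - t)) =
        Pc q (2 * m + 1) h (ver 0 a t (h - t)) := by
      have h2 := Pc_ver_shift (q := q) (M := 2 * m + 1) (h := h) hq0 hM hh (x := w - a) (b := a)
        (y0 := t) (y1 := h - t) (by omega) (by omega) (by omega)
      rw [show w - a + a = w by ring] at h2
      exact h2
    have h3 : Pc q (2 * m + 1) h (hor a (w - a) t (h - t)) =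
        Pc q (2 * m + 1) h (hor 0 (w - 2 * a) t (h - t)) := by
      have h2 := Pc_hor_shift (q := q) (M := 2 * m + 1) (h := h) hq0 hM hh (x := a)
        (b := w - 2 * a) (y0 := t) (y1 := h - t) (by omega) (by omega) (by omega)
      rw [show a + (w - 2 * a) = w - a by ring] at h2
      exact h2
    have h4 := narrow (q := q) (E := cylE (2 * m + 1) h) (F := cylF (2 * m + 1)) (x := 0) (y := t)
      (w := w) (a := a) (T := h - 2 * t) hq hNE hNF ha haw hwT
      (sub_cylE hM hh le_rfl (by omega) ht (by omega))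
    simp only [show t + (h - 2 * t) = h - t by ring, zero_add] at h4
    have h5 := P_fkg (q := q) (E := cylE (2 * m + 1) h) (F := cylF (2 * m + 1)) hq hNE hNF
      (Pool.Agent.H95.Perc.inc_ver 0 a t (h - t)) (Pool.Agent.H95.Perc.inc_ver (w - a) w t (h - t))
    change Pc q (2 * m + 1) h (ver 0 a t (h - t)) * Pc q (2 * m + 1) h (ver (w - a) w t (h - t)) ≤
      _ at h5
    change _ ≤ (1 + √q) * Pc q (2 * m + 1) h (hor a (w - a) t (h - t)) at h4
    rw [h1] at h5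
    rw [h3] at h4
    exact h5.trans h4
  · intro L L' a ha haL haL' hLm
    have h1 : Pc q (2 * m + 1) h (ver (L - a) L t (h - t)) =
        Pc q (2 * m + 1) h (ver 0 a t (h - t)) := by
      have h2 := Pc_ver_shift (q := q) (M := 2 * m + 1) (h := h) hq0 hM hh (x := L - a) (b := a)
        (y0 := t) (y1 := h - t) (by omega) (by omega) (by omega)
      rw [show L - a + a = L by ring] at h2
      exact h2
    have h3 : Pc q (2 * m + 1) h (hor (L - a) (L + L' - a) t (h - t)) =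
        Pc q (2 * m + 1) h (hor 0 L' t (h - t)) := by
      have h2 := Pc_hor_shift (q := q) (M := 2 * m + 1) (h := h) hq0 hM hh (x := L - a)
        (b := L') (y0 := t) (y1 := h - t) (by omega) (by omega) (by omega)
      rw [show L - a + L' = L + L' - a by ring] at h2
      exact h2
    have i1 := Pool.Agent.H95.Perc.inc_ver (L - a) L t (h - t)
    have i2 := Pool.Agent.H95.Perc.inc_hor (L - a) (L + L' - a) t (h - t)
    have i3 := Pool.Agent.H95.Perc.inc_hor 0 L t (h - t)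
    have h5 := P_fkg (q := q) (E := cylE (2 * m + 1) h) (F := cylF (2 * m + 1)) hq hNE hNF i1 i2
    have i4 : Inc (fun ω => ver (L - a) L t (h - t) ω ∧ hor (L - a) (L + L' - a) t (h - t) ω) :=
      fun ω ω' hs h => ⟨i1 _ _ hs h.1, i2 _ _ hs h.2⟩
    have h6 := P_fkg (q := q) (E := cylE (2 * m + 1) h) (F := cylF (2 * m + 1)) hq hNE hNF i3 i4
    have h7 : P q (cylE (2 * m + 1) h) (cylF (2 * m + 1)) (fun ω => hor 0 L t (h - t) ω ∧
        (ver (L - a) L t (h - t) ω ∧ hor (L - a) (L + L' - a) t (h - t) ω)) ≤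
        P q (cylE (2 * m + 1) h) (cylF (2 * m + 1)) (hor 0 (L + L' - a) t (h - t)) :=
      P_mono hq0 fun ζ _ h8 =>
        hor_glue (by omega) (by omega) (by omega) (by omega) h8.1 h8.2.1 h8.2.2
    change Pc q (2 * m + 1) h (ver (L - a) L t (h - t)) *
      Pc q (2 * m + 1) h (hor (L - a) (L + L' - a) t (h - t)) ≤ _ at h5
    rw [h1, h3] at h5
    exact (mul_le_mul_of_nonneg_left h5 (P_nonneg hq0 _ _ _)).trans (h6.trans h7)

theorem R2 (hq : 1 ≤ q) {α : ℤ} (hα : 1 ≤ α) :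
    ∃ c : ℝ, 0 < c ∧ ∃ K : ℤ, 1 ≤ K ∧ ∀ m h t b : ℤ, 1 ≤ t → 1 ≤ h - 2 * t → K * (h - 2 * t) ≤ m →
      0 ≤ b → b ≤ α * (h - 2 * t) → c ≤ Pc q (2 * m + 1) h (hor 0 b t (h - t)) := by
  obtain ⟨c, hc, K, hK, H⟩ := hv_bound (s := √q) (Real.one_le_sqrt.mpr hq) hα
  refine ⟨c, hc, K, hK, fun m h t b ht hT hm hb hbα => ?_⟩
  have hm1 : 1 ≤ m := by nlinarith
  exact H (h - 2 * t) m _ _ hT hm (hv_cyl hq ht hT hm1) b hb hbα

theorem R2n (hq : 1 ≤ q) {α : ℤ} (hα : 1 ≤ α) :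
    ∃ c : ℝ, 0 < c ∧ ∃ K : ℤ, 1 ≤ K ∧ ∀ m h t b : ℤ, 1 ≤ t → 3 ≤ h - 2 * t → K * (h - 2 * t) ≤ m →
      0 ≤ b → b ≤ α * (h - 2 * t) →
      c ≤ Pc q (2 * m + 1) h (fun ω => ¬ ver 1 (b + 1) t (h - t) ω) := by
  have hq0 : 0 < q := by linarith
  obtain ⟨c, hc, K, hK, H⟩ := R2 hq (α := 3 * α + 1) (by linarith)
  refine ⟨c, hc, K + (3 * α + 1), by linarith, fun m h t b ht hT hm hb hbα => ?_⟩
  have hb1 : b + 1 ≤ (3 * α + 1) * (h - 2 * (t + 1)) := by nlinarith
  have hK1 : K * (h - 2 * (t + 1)) ≤ m := by nlinarith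
  have hbm : b + 1 ≤ m := by nlinarith
  have hm1 : 1 ≤ m := by omega
  have h1 := H m h (t + 1) (b + 1) (by omega) (by omega) hK1 (by omega) hb1
  have h2 := cyl_nver (M := 2 * m + 1) (h := h) hq0 (by omega) (t := t) (b := b) ht (by omega) hb
    (by omega)
  rw [show h - (t + 1) = h - t - 1 by ring] at h1
  have h3 : Pc q (2 * m + 1) h (fun ω => ¬ ver 1 (b + 1) t (h - t) ω) =
      1 - Pc q (2 * m + 1) h (ver 1 (b + 1) t (h - t)) := P_not hq0 _ _ _
  rw [h3]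
  exact h1.trans h2

end Pool.Agent.FKR
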