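import Pool.Agent.FKR.R2

/-! # FKR/R2exp (MP_b3e76a_pr): crossing estimates with exponential dependence on the aspect ratio

Same argument as `hv_bound` (`R2num`), keeping track of the dependence on the aspect ratio `k`: every step of
the chains costs a constant factor and extends the length by at least `T / 16` (narrow case: `T / 2`), so
`16 k` steps suffice. Details: case `T < 16`: `H b ≥ (1 + s) ^ (-b) ≥ ((1 + s) ^ (-16)) ^ k`. Case `T ≥ 16`, `a1 = T / 16`.
(i) `V (2 a1) ≥ 1/2`: as in `R2num`, `H (L_j) ≥ c1 * (c1 / 2) ^ j`, `L_j ≥ T / 2 + j T / 2`.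
(ii) `V (2 a1) < 1/2`: let `a0` be the least `a ∈ (a1, k T + 1]` with `V (2 a) ≥ 1/2`; if none, `H b ≥ 1/2` for `b ≤ k T`. Otherwise
`H (2 a0) ≥ c2` and `H (2 a0 + j a0) ≥ c2 * c3 ^ j`, `a0 ≥ T / 16`; take `j = 16 k`, or `j = 0` if `2 a0 ≥ k T`; all lengths used
should be `≤ m`: stop as soon as the length exceeds `k T`, then it is `≤ k T + a0 ≤ 2 k T + 1` (or `2 a0 ≤ 2 k T + 2`). `K = 100`.
For `k = 0`: `b = 0` and `H 0 = 1`.
`R2nexp`: from `cyl_nver` and `R2exp` with `t + 1`, `3 k + 1 ≤ 4 k` (see `R2n`). -/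

namespace Pool.Agent.FKR

open Finset
open Pool.Agent.H95.Perc (Inc conn link rect hor ver eh ev sumE sepE Inci mem_rect)
open Pool.Agent.H95.SumRule (edgesIn Z2)

private theorem iter {H : ℤ → ℝ} {r : ℝ} (hr : 0 ≤ r) {L0 d : ℤ} {n : ℕ} (h0 : r ≤ H L0)
    (hs : ∀ k : ℕ, k < n → r * H (L0 + k * d) ≤ H (L0 + (k + 1) * d)) :
    r ^ (n + 1) ≤ H (L0 + n * d) := by
  induction n with
  | zero => simpa using h0
  | succ n ih =>
    have h1 := ih (fun k hk => hs k (by omega))
    have h2 := hs n (by omega)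
    have h3 : r ^ (n + 1 + 1) = r * r ^ (n + 1) := by ring
    rw [h3]
    push_cast
    exact (mul_le_mul_of_nonneg_left h1 hr).trans h2

theorem hv_bound_exp {s : ℝ} (hs : 1 ≤ s) :
    ∃ c : ℝ, 0 < c ∧ c ≤ 1 ∧ ∃ K : ℤ, 1 ≤ K ∧ ∀ (k : ℕ) (T m : ℤ) (H V : ℤ → ℝ), 1 ≤ T →
      K * (k + 1) * T ≤ m → HV s T m H V → ∀ b, 0 ≤ b → b ≤ k * T → c ^ k ≤ H b := by
  set u : ℝ := 1 / (1 + s) with hu
  have hs1 : 0 < 1 + s := by linarith
  have hu0 : 0 < u := by positivity
  have hu1 : u ≤ 1 / 2 := by
    rw [hu, div_le_div_iff₀ hs1 (by norm_num)]; linarith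
  have hus : u * (1 + s) = 1 := by rw [hu]; field_simp
  set r : ℝ := u ^ 2 / 8 with hr
  have hr0 : 0 < r := by positivity
  have hr8 : r ≤ u / 8 := by rw [hr]; nlinarith
  have hru : r ≤ u := by linarith
  have hr1 : r ≤ 1 := by linarith
  refine ⟨r ^ 17, by positivity, pow_le_one₀ hr0.le hr1, 100, by norm_num, ?_⟩
  intro A T m H V hT hKT hv b hb0 hb
  rcases Nat.eq_zero_or_pos A with hA0 | hA
  · subst hA0
    have hb' : b = 0 := by
      have : b ≤ 0 := by simpa using hb
      omega
    rw [hb', hv.H0, pow_zero]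
  have hexp : (r ^ 17) ^ A ≤ r ^ (16 * A + 1) := by
    rw [← pow_mul]
    exact pow_le_pow_of_le_one hr0.le hr1 (by omega)
  refine hexp.trans ?_
  have hpow : ∀ n : ℕ, n ≤ 16 * A + 1 → r ^ (16 * A + 1) ≤ r ^ n := fun n hn =>
    pow_le_pow_of_le_one hr0.le hr1 hn
  have hAz : (1 : ℤ) ≤ (A : ℤ) := by exact_mod_cast hA
  have hAT : (A : ℤ) ≤ A * T := by nlinarith
  have hTA : T ≤ A * T := by nlinarith
  have hK0 : 100 * (A * T) + 100 * T ≤ m := by nlinarith
  rcases lt_or_ge T 16 with hT16 | hT16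
  · -- small T
    have key : ∀ n : ℕ, (n : ℤ) ≤ A * T → u ^ n ≤ H n := by
      intro n
      induction n with
      | zero => intro _; simp [hv.H0]
      | succ n ih =>
        intro hn
        push_cast at hn ⊢
        have h1 := ih (by omega)
        have h2 := hv.ext n (by omega) (by nlinarith)
        have h3 : u * H n ≤ H (n + 1) := by
          have := mul_le_mul_of_nonneg_left h2 hu0.le
          calc u * H n ≤ u * ((1 + s) * H (n + 1)) := this
            _ = (u * (1 + s)) * H (n + 1) := by ring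
            _ = H (n + 1) := by rw [hus, one_mul]
        calc u ^ (n + 1) = u * u ^ n := by ring
          _ ≤ u * H n := mul_le_mul_of_nonneg_left h1 hu0.le
          _ ≤ H (n + 1) := h3
    obtain ⟨n, rfl⟩ : ∃ n : ℕ, b = n := ⟨b.toNat, by omega⟩
    have hn16 : n ≤ 16 * A := by
      have : (n : ℤ) ≤ 16 * A := by nlinarith
      exact_mod_cast this
    calc r ^ (16 * A + 1) ≤ r ^ n := hpow n (by omega)
      _ ≤ u ^ n := pow_le_pow_left₀ hr0.le hru n
      _ ≤ H n := key n hb
  · -- large T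
    set a1 : ℤ := T / 16 with ha1
    have ha1a : 16 * a1 ≤ T := by omega
    have ha1b : T < 16 * (a1 + 1) := by omega
    have ha1c : 1 ≤ a1 := by omega
    rcases le_or_gt (1 / 2 : ℝ) (V (2 * a1)) with hV | hV
    · -- case (i)
      have h1 := hv.narrow T (2 * a1) (by omega) (by omega) (by omega) (by nlinarith)
      have h2 : (1 / 4 : ℝ) ≤ V (2 * a1) * V (2 * a1) := by nlinarith
      have h3 : u / 4 ≤ H (T - 2 * (2 * a1)) := by
        have h4 : (1 / 4 : ℝ) ≤ (1 + s) * H (T - 2 * (2 * a1)) := h2.trans h1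
        have := mul_le_mul_of_nonneg_left h4 hu0.le
        calc u / 4 = u * (1 / 4) := by ring
          _ ≤ u * ((1 + s) * H (T - 2 * (2 * a1))) := this
          _ = (u * (1 + s)) * H (T - 2 * (2 * a1)) := by ring
          _ = H (T - 2 * (2 * a1)) := by rw [hus, one_mul]
      set l : ℤ := T - 2 * (2 * a1) with hl
      set d : ℤ := l - 2 * a1 with hd
      have hd1 : T ≤ 2 * d := by omega
      have hd2 : d ≤ T := by omega
      have hl2 : l ≤ T := by omega
      have hl3 : 0 ≤ l := by omega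
      have hit := iter (H := H) (r := r) hr0.le (L0 := l) (d := d) (n := 2 * A) (by linarith) (by
        intro k hk
        have hkA : (k : ℤ) + 1 ≤ 2 * A := by exact_mod_cast hk
        have hk0 : (0 : ℤ) ≤ k := by positivity
        have hkd : (k : ℤ) * d ≤ (2 * A - 1) * T := by
          have : (k : ℤ) * d ≤ k * T := mul_le_mul_of_nonneg_left hd2 hk0
          nlinarith
        have hkd0 : (0 : ℤ) ≤ (k : ℤ) * d := mul_nonneg hk0 (by omega)
        have hg := hv.glue (l + k * d) l (2 * a1) (by omega) (by omega) (by omega) (by nlinarith)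
        have he : l + k * d + l - 2 * a1 = l + (k + 1) * d := by rw [hd]; ring
        rw [he] at hg
        have hH := hv.Hn (l + k * d)
        have hVH : r ≤ V (2 * a1) * H l := by
          have : (1 / 2 : ℝ) * (u / 4) ≤ V (2 * a1) * H l :=
            mul_le_mul hV h3 (by positivity) (hv.Vn _)
          linarith
        calc r * H (l + k * d) = H (l + k * d) * r := by ring
          _ ≤ H (l + k * d) * (V (2 * a1) * H l) := mul_le_mul_of_nonneg_left hVH hH
          _ ≤ _ := hg)
      have hLb : b ≤ l + ((2 * A : ℕ) : ℤ) * d := by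
        push_cast
        nlinarith
      have hLm : l + ((2 * A : ℕ) : ℤ) * d ≤ 2 * m := by
        push_cast
        nlinarith
      calc r ^ (16 * A + 1) ≤ r ^ (2 * A + 1) := hpow _ (by omega)
        _ ≤ H (l + ((2 * A : ℕ) : ℤ) * d) := hit
        _ ≤ H b := hv.anti _ _ hb0 hLb hLm
    · -- case (ii)
      by_cases hex : ∃ n : ℕ, 1 / 2 ≤ V (2 * (a1 + (n + 1))) ∧ a1 + (n + 1) ≤ A * T + 1
      · classical
        set n0 := Nat.find hex with hn0
        obtain ⟨hn1, hn2⟩ := Nat.find_spec hex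
        rw [← hn0] at hn1 hn2
        set a0 : ℤ := a1 + (n0 + 1) with ha0
        have hprev : V (2 * (a0 - 1)) < 1 / 2 := by
          rcases Nat.eq_zero_or_pos n0 with h0 | h0
          · have : a0 - 1 = a1 := by rw [ha0, h0]; push_cast; ring
            rw [this]; exact hV
          · have hm := Nat.find_min hex (m := n0 - 1) (by omega)
            by_contra hcon
            push Not at hcon
            apply hm
            have e1 : a1 + (((n0 - 1 : ℕ) : ℤ) + 1) = a0 - 1 := by
              rw [ha0]; push_cast [Nat.cast_sub h0]; ring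
            rw [e1]
            exact ⟨hcon, by omega⟩
        have ha0T : T ≤ 16 * a0 := by
          have : (0 : ℤ) ≤ (n0 : ℤ) := by positivity
          omega
        have ha01 : 2 ≤ a0 := by
          have : (0 : ℤ) ≤ (n0 : ℤ) := by positivity
          omega
        have hd := hv.dual (2 * (a0 - 1)) (by omega) (by omega)
        have hH1 : (1 / 2 : ℝ) ≤ H (2 * a0 - 1) := by
          have e : 2 * (a0 - 1) + 1 = 2 * a0 - 1 := by ring
          rw [e] at hd
          linarith
        have hH2 : u / 2 ≤ H (2 * a0) := by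
          have he := hv.ext (2 * a0 - 1) (by omega) (by omega)
          have e : 2 * a0 - 1 + 1 = 2 * a0 := by ring
          rw [e] at he
          have := mul_le_mul_of_nonneg_left (hH1.trans he) hu0.le
          calc u / 2 = u * (1 / 2) := by ring
            _ ≤ u * ((1 + s) * H (2 * a0)) := this
            _ = (u * (1 + s)) * H (2 * a0) := by ring
            _ = H (2 * a0) := by rw [hus, one_mul]
        have hstop : ∃ n : ℕ, b ≤ 2 * a0 + (n : ℤ) * a0 := by
          refine ⟨16 * A, ?_⟩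
          push_cast
          nlinarith
        set n1 := Nat.find hstop with hn1'
        have hLb : b ≤ 2 * a0 + (n1 : ℤ) * a0 := Nat.find_spec hstop
        have hmin : ∀ k : ℕ, k < n1 → 2 * a0 + (k : ℤ) * a0 < b := by
          intro k hk
          have := Nat.find_min hstop hk
          push Not at this
          exact this
        have hn1le : n1 ≤ 16 * A := by
          apply Nat.find_min' hstop
          push_cast
          nlinarith
        have hit := iter (H := H) (r := r) hr0.le (L0 := 2 * a0) (d := a0) (n := n1)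
          (by linarith) (by
          intro k hk
          have hkb := hmin k hk
          have hk0 : (0 : ℤ) ≤ k := by positivity
          have hkd0 : (0 : ℤ) ≤ (k : ℤ) * a0 := mul_nonneg hk0 (by omega)
          have hg := hv.kl (2 * a0 + k * a0) a0 (by omega) (by omega) (by linarith)
          have he : 2 * a0 + k * a0 + a0 = 2 * a0 + (k + 1) * a0 := by ring
          rw [he] at hg
          have hH := hv.Hn (2 * a0 + k * a0)
          have hVH : u / 4 ≤ V (2 * a0) * H (2 * a0) := by
            have : (1 / 2 : ℝ) * (u / 2) ≤ V (2 * a0) * H (2 * a0) :=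
              mul_le_mul hn1 hH2 (by positivity) (hv.Vn _)
            linarith
          have h5 : H (2 * a0 + k * a0) * (u / 4) ≤ 2 * (1 + s) * H (2 * a0 + (k + 1) * a0) :=
            (mul_le_mul_of_nonneg_left hVH hH).trans hg
          have h6 := mul_le_mul_of_nonneg_left h5 (by positivity : 0 ≤ u / 2)
          calc r * H (2 * a0 + k * a0) = u / 2 * (H (2 * a0 + k * a0) * (u / 4)) := by
                rw [hr]; ring
            _ ≤ u / 2 * (2 * (1 + s) * H (2 * a0 + (k + 1) * a0)) := h6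
            _ = (u * (1 + s)) * H (2 * a0 + (k + 1) * a0) := by ring
            _ = H (2 * a0 + (k + 1) * a0) := by rw [hus, one_mul])
        have hLm : 2 * a0 + (n1 : ℤ) * a0 ≤ 2 * m := by
          rcases Nat.eq_zero_or_pos n1 with h0 | h0
          · rw [h0]
            push_cast
            linarith
          · have h1 := hmin (n1 - 1) (by omega)
            have h2 : (((n1 - 1 : ℕ) : ℤ)) = n1 - 1 := by
              push_cast [Nat.cast_sub h0]; ring
            rw [h2] at h1
            linarith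
        calc r ^ (16 * A + 1) ≤ r ^ (n1 + 1) := hpow _ (by omega)
          _ ≤ H (2 * a0 + (n1 : ℤ) * a0) := hit
          _ ≤ H b := hv.anti _ _ hb0 hLb hLm
      · push Not at hex
        have hV2 : V (2 * (A * T + 1)) < 1 / 2 := by
          by_contra hcon
          push Not at hcon
          have hn : a1 + (((A * T - a1).toNat : ℤ) + 1) = A * T + 1 := by
            have : (((A * T - a1).toNat : ℕ) : ℤ) = A * T - a1 := Int.toNat_of_nonneg (by omega)
            rw [this]; ring
          have := hex (A * T - a1).toNat (by rw [hn]; exact hcon)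
          rw [hn] at this
          exact lt_irrefl _ this
        have hd := hv.dual (2 * (A * T + 1)) (by omega) (by omega)
        have h1 : (1 / 2 : ℝ) ≤ H (2 * (A * T + 1) + 1) := by linarith
        have h2 := hv.anti b (2 * (A * T + 1) + 1) hb0 (by omega) (by omega)
        have h3 : r ^ (16 * A + 1) ≤ r ^ 1 := hpow 1 (by omega)
        rw [pow_one] at h3
        linarith

variable {q : ℝ}

theorem R2exp (hq : 1 ≤ q) :
    ∃ c : ℝ, 0 < c ∧ c ≤ 1 ∧ ∃ K : ℤ, 1 ≤ K ∧ ∀ (k : ℕ) (m h t b : ℤ), 1 ≤ t → 1 ≤ h - 2 * t →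
      K * (k + 1) * (h - 2 * t) ≤ m → 0 ≤ b → b ≤ k * (h - 2 * t) →
      c ^ k ≤ Pc q (2 * m + 1) h (hor 0 b t (h - t)) := by
  obtain ⟨c, hc, hc1, K, hK, H⟩ := hv_bound_exp (s := √q) (Real.one_le_sqrt.mpr hq)
  refine ⟨c, hc, hc1, K, hK, fun k m h t b ht hT hm hb hbk => ?_⟩
  have hk0 : (0 : ℤ) ≤ k := by positivity
  have hm1 : 1 ≤ m := by
    have h1 : 1 ≤ K * (k + 1) := by nlinarith
    nlinarith
  exact H k (h - 2 * t) m _ _ hT hm (hv_cyl hq ht hT hm1) b hb hbk

theorem R2nexp (hq : 1 ≤ q) :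
    ∃ c : ℝ, 0 < c ∧ c ≤ 1 ∧ ∃ K : ℤ, 1 ≤ K ∧ ∀ (k : ℕ) (m h t b : ℤ), 1 ≤ k → 1 ≤ t → 3 ≤ h - 2 * t →
      K * (k + 1) * (h - 2 * t) ≤ m → 0 ≤ b → b ≤ k * (h - 2 * t) →
      c ^ k ≤ Pc q (2 * m + 1) h (fun ω => ¬ ver 1 (b + 1) t (h - t) ω) := by
  have hq0 : 0 < q := by linarith
  obtain ⟨c, hc, hc1, K, hK, H⟩ := R2exp hq
  refine ⟨c ^ 4, by positivity, pow_le_one₀ hc.le hc1, 4 * K, by linarith,
    fun k m h t b hk ht hT hm hb hbk => ?_⟩
  have hkz : (1 : ℤ) ≤ k := by exact_mod_cast hk
  have hb1 : b + 1 ≤ ((4 * k : ℕ) : ℤ) * (h - 2 * (t + 1)) := by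
    push_cast
    nlinarith
  have hK1 : K * (((4 * k : ℕ) : ℤ) + 1) * (h - 2 * (t + 1)) ≤ m := by
    push_cast
    have h1 : K * (4 * (k : ℤ) + 1) * (h - 2 * (t + 1)) ≤ K * (4 * (k : ℤ) + 1) * (h - 2 * t) :=
      mul_le_mul_of_nonneg_left (by linarith) (by positivity)
    have h2 : K * (4 * (k : ℤ) + 1) * (h - 2 * t) ≤ 4 * K * (k + 1) * (h - 2 * t) :=
      mul_le_mul_of_nonneg_right (by nlinarith) (by linarith)
    linarith
  have hbm : b + 1 ≤ m := by
    have h1 : (k : ℤ) * (h - 2 * t) + 1 ≤ 4 * K * (k + 1) * (h - 2 * t) := by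
      have h2 : (k + 1 : ℤ) * (h - 2 * t) ≤ 4 * K * (k + 1) * (h - 2 * t) :=
        mul_le_mul_of_nonneg_right (by nlinarith) (by linarith)
      linarith
    linarith
  have hm1 : 1 ≤ m := by omega
  have h1 := H (4 * k) m h (t + 1) (b + 1) (by omega) (by omega) hK1 (by omega) hb1
  have h2 := cyl_nver (M := 2 * m + 1) (h := h) hq0 (by omega) (t := t) (b := b) ht (by omega) hb
    (by omega)
  rw [show h - (t + 1) = h - t - 1 by ring] at h1
  have h3 : Pc q (2 * m + 1) h (fun ω => ¬ ver 1 (b + 1) t (h - t) ω) =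
      1 - Pc q (2 * m + 1) h (ver 1 (b + 1) t (h - t)) := P_not hq0 _ _ _
  rw [h3, ← pow_mul]
  exact h1.trans h2

end Pool.Agent.FKR
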