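import Mathlib

/-! # FKR/SAna (MP_b3e76a_pr): two elementary lemmas on sequences -/

namespace Pool.Agent.FKR.SAna

lemma rpow_step {ε : ℝ} (h0 : 0 ≤ ε) (h1 : ε ≤ 1) {n : ℕ} (hn : 1 ≤ n) :
    ((n + 1 : ℕ) : ℝ) ^ ε ≤ (1 + ε / n) * (n : ℝ) ^ ε := by
  have hn' : (0 : ℝ) < n := by exact_mod_cast hn
  have e : ((n + 1 : ℕ) : ℝ) = (1 + 1 / (n : ℝ)) * n := by
    push_cast
    field_simp
  rw [e, Real.mul_rpow (by positivity) hn'.le]
  apply mul_le_mul_of_nonneg_right _ (by positivity)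
  have h2 : (-1 : ℝ) ≤ 1 / (n : ℝ) := by
    have : (0 : ℝ) ≤ 1 / (n : ℝ) := by positivity
    linarith
  have h3 := rpow_one_add_le_one_add_mul_self h2 h0 h1
  have h4 : ε * (1 / (n : ℝ)) = ε / n := by ring
  rw [h4] at h3
  exact h3

/-- the exponent -/
noncomputable def ex (D : ℝ) : ℝ := min 1 (1 / (2 * D))

lemma ex_pos {D : ℝ} (hD : 0 < D) : 0 < ex D := lt_min one_pos (by positivity)

lemma ex_le (D : ℝ) : ex D ≤ 1 := min_le_left _ _

/-- `ε / n ≤ 1 / (D (n + 1))` -/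
lemma ex_div {D : ℝ} (hD : 0 < D) {n : ℕ} (hn : 1 ≤ n) : ex D / n * (D * (n + 1)) ≤ 1 := by
  have hn' : (1 : ℝ) ≤ n := by exact_mod_cast hn
  have h1 : ex D ≤ 1 / (2 * D) := min_le_right _ _
  have h2 : ex D * (2 * D) ≤ 1 := by
    rw [le_div_iff₀ (by positivity)] at h1
    exact h1
  have h3 : ex D / n * (D * (n + 1)) = (ex D * (2 * D)) * ((n + 1) / (2 * n)) := by
    field_simp
  have h4 : ((n : ℝ) + 1) / (2 * n) ≤ 1 := by
    rw [div_le_one (by positivity)]
    linarith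
  have h5 : 0 ≤ ((n : ℝ) + 1) / (2 * n) := by positivity
  rw [h3]
  have h6 : 0 ≤ ex D * (2 * D) := mul_nonneg (ex_pos hD).le (by positivity)
  nlinarith

theorem growth {Y : ℕ → ℝ} {K : ℕ} (hK : 1 ≤ K) {D : ℝ} (hD : 0 < D)
    (hpos : ∀ n, K ≤ n → 0 < Y n)
    (h : ∀ n : ℕ, K ≤ n → Y (n + 1) ≤ D * (n + 1) * (Y (n + 1) - Y n)) :
    ∃ ε c : ℝ, 0 < ε ∧ ε ≤ 1 ∧ 0 < c ∧ ∀ n : ℕ, K ≤ n → c * (n : ℝ) ^ ε ≤ Y n := by
  have hK' : (0 : ℝ) < K := by exact_mod_cast hK
  refine ⟨ex D, Y K / (K : ℝ) ^ ex D, ex_pos hD, ex_le D, ?_, ?_⟩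
  · have := hpos K le_rfl
    positivity
  · intro n hn
    induction n, hn using Nat.le_induction with
    | base =>
      rw [div_mul_cancel₀]
      positivity
    | succ n hn ih =>
      have hn1 : 1 ≤ n := hK.trans hn
      have h1 := h n hn
      have h2 := hpos (n + 1) (by omega)
      have h3 := hpos n hn
      have h4 : (0 : ℝ) < D * (n + 1) := by positivity
      have h5 : 0 ≤ Y (n + 1) - Y n := by
        by_contra hc
        push Not at hc
        nlinarith
      have h6 := ex_div hD hn1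
      have h7 : Y n * (ex D / n) ≤ Y (n + 1) - Y n := by
        have h8 : Y n ≤ D * (n + 1) * (Y (n + 1) - Y n) := by linarith
        have h9 : 0 ≤ ex D / n := div_nonneg (ex_pos hD).le (by positivity)
        calc Y n * (ex D / n) ≤ D * (n + 1) * (Y (n + 1) - Y n) * (ex D / n) :=
              mul_le_mul_of_nonneg_right h8 h9
          _ = (ex D / n * (D * (n + 1))) * (Y (n + 1) - Y n) := by ring
          _ ≤ 1 * (Y (n + 1) - Y n) := mul_le_mul_of_nonneg_right h6 h5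
          _ = _ := one_mul _
      have h10 := rpow_step (ex_pos hD).le (ex_le D) hn1
      have hc : 0 ≤ Y K / (K : ℝ) ^ ex D := by
        have := hpos K le_rfl
        positivity
      calc Y K / (K : ℝ) ^ ex D * ((n + 1 : ℕ) : ℝ) ^ ex D
          ≤ Y K / (K : ℝ) ^ ex D * ((1 + ex D / n) * (n : ℝ) ^ ex D) :=
            mul_le_mul_of_nonneg_left h10 hc
        _ = (1 + ex D / n) * (Y K / (K : ℝ) ^ ex D * (n : ℝ) ^ ex D) := by ring
        _ ≤ (1 + ex D / n) * Y n := by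
            apply mul_le_mul_of_nonneg_left ih
            have := ex_pos hD
            positivity
        _ ≤ Y (n + 1) := by nlinarith

theorem decay {T : ℕ → ℝ} {K : ℕ} (hK : 1 ≤ K) {D : ℝ} (hD : 0 < D) (hpos : ∀ n, 0 ≤ T n)
    (h : ∀ n : ℕ, K ≤ n → T (n + 1) ≤ D * (n + 1) * (T n - T (n + 1))) :
    ∃ ε C : ℝ, 0 < ε ∧ 0 < C ∧ ∀ n : ℕ, K ≤ n → T n ≤ C * (n : ℝ) ^ (-ε) := by
  have hK' : (0 : ℝ) < K := by exact_mod_cast hK
  have key : ∀ n : ℕ, K ≤ n → T n * (n : ℝ) ^ ex D ≤ T K * (K : ℝ) ^ ex D := by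
    intro n hn
    induction n, hn using Nat.le_induction with
    | base => exact le_rfl
    | succ n hn ih =>
      have hn1 : 1 ≤ n := hK.trans hn
      have h1 := h n hn
      have h2 := hpos (n + 1)
      have h4 : (0 : ℝ) < D * (n + 1) := by positivity
      have h5 : 0 ≤ T n - T (n + 1) := by
        by_contra hc
        push Not at hc
        nlinarith
      have h6 := ex_div hD hn1
      have h7 : T (n + 1) * (ex D / n) ≤ T n - T (n + 1) := by
        have h9 : 0 ≤ ex D / n := div_nonneg (ex_pos hD).le (by positivity)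
        calc T (n + 1) * (ex D / n) ≤ D * (n + 1) * (T n - T (n + 1)) * (ex D / n) :=
              mul_le_mul_of_nonneg_right h1 h9
          _ = (ex D / n * (D * (n + 1))) * (T n - T (n + 1)) := by ring
          _ ≤ 1 * (T n - T (n + 1)) := mul_le_mul_of_nonneg_right h6 h5
          _ = _ := one_mul _
      have h10 := rpow_step (ex_pos hD).le (ex_le D) hn1
      calc T (n + 1) * ((n + 1 : ℕ) : ℝ) ^ ex D
          ≤ T (n + 1) * ((1 + ex D / n) * (n : ℝ) ^ ex D) := mul_le_mul_of_nonneg_left h10 h2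
        _ = (T (n + 1) * (1 + ex D / n)) * (n : ℝ) ^ ex D := by ring
        _ ≤ T n * (n : ℝ) ^ ex D := by
            apply mul_le_mul_of_nonneg_right _ (by positivity)
            nlinarith
        _ ≤ _ := ih
  refine ⟨ex D, T K * (K : ℝ) ^ ex D + 1, ex_pos hD, ?_, ?_⟩
  · have := hpos K
    positivity
  · intro n hn
    have hn' : (0 : ℝ) < n := by exact_mod_cast (lt_of_lt_of_le hK hn : 0 < n)
    rw [Real.rpow_neg hn'.le, ← div_eq_mul_inv, le_div_iff₀ (by positivity)]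
    have := key n hn
    linarith

end Pool.Agent.FKR.SAna
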