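import Pool.Agent.FKR.STrig
import Pool.Agent.FKR.SAna

/-!
# FKR/SMain (MP_b3e76a_pr): the trichotomy, from the comparison of two-point functions and arms

The sum rule `key` gives the size of `N * w N`; see the blueprint.
-/

namespace Pool.Agent.FKR.SM

open Finset Filter Topology Function
open Pool.Agent.H95.Wedge

variable {q : ℝ} {m : ℕ}

lemma tip_mono (hq : 1 ≤ q) {m m' : ℕ} (hm : m ≤ m') {N N' : ℕ} (h : N ≤ N') (k : ℕ) :
    tipTwoPoint q m N k ≤ tipTwoPoint q m' N' k := GW_mono hq hm (fun _ _ _ => h) _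

lemma tip_le_one (hq : 1 ≤ q) (m N k : ℕ) : tipTwoPoint q m N k ≤ 1 :=
  G_le_one (by linarith) _ _ _ _

lemma tip_ge (hq : 1 ≤ q) (hm : 1 ≤ m) {N k : ℕ} (h : k ≤ N) : ce q ^ k ≤ tipTwoPoint q m N k := by
  have h1 := chain_h hq (m := m) (L := fun _ => N) (k := 0) le_rfl (by exact_mod_cast hm) (y := 0)
    (Nat.zero_le _) (A := k) h k le_rfl
  have h2 : GW q m (fun _ => N) (pt 0 (k - k) 0) = 1 := by
    rw [Nat.sub_self]
    exact G_self (by linarith) _ _ _
  rw [h2, mul_one] at h1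
  exact h1

lemma ce_pow_le {k n : ℕ} (h : k ≤ n) : ce q ^ n ≤ ce q ^ k :=
  pow_le_pow_of_le_one (ce_pos' q).le (ce_le_one' q) h

/-- infinite-volume two-point function -/
noncomputable def gl (q : ℝ) (m k : ℕ) : ℝ := ⨆ N : ℕ, tipTwoPoint q m N k

lemma bdd_tip (hq : 1 ≤ q) (m k : ℕ) : BddAbove (Set.range fun N : ℕ => tipTwoPoint q m N k) :=
  ⟨1, by rintro _ ⟨N, rfl⟩; exact tip_le_one hq _ _ _⟩

lemma tendsto_gl (hq : 1 ≤ q) (m k : ℕ) :
    Tendsto (fun N : ℕ => tipTwoPoint q m N k) atTop (𝓝 (gl q m k)) :=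
  tendsto_atTop_ciSup (fun _ _ h => tip_mono hq le_rfl h k) (bdd_tip hq m k)

lemma tip_le_gl (hq : 1 ≤ q) (m N k : ℕ) : tipTwoPoint q m N k ≤ gl q m k :=
  le_ciSup (bdd_tip hq m k) N

lemma gl_le (hq : 1 ≤ q) {m k K : ℕ} {B : ℝ} (h : ∀ N, K ≤ N → tipTwoPoint q m N k ≤ B) :
    gl q m k ≤ B :=
  le_of_tendsto (tendsto_gl hq m k) (eventually_atTop.mpr ⟨K, h⟩)

lemma gl_le_one (hq : 1 ≤ q) (m k : ℕ) : gl q m k ≤ 1 :=
  gl_le hq (K := 0) fun N _ => tip_le_one hq m N k

lemma gl_succ (q : ℝ) (m k : ℕ) : gl q m (k + 1) = tpi q m k := rfl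

variable {w : ℕ → ℝ} {c C : ℝ} {k0 : ℕ}

/-- the critical case -/
theorem case_eq (hq : 1 ≤ q) (hq4 : q < 4) (hm : 1 ≤ m) (hF : Facts q m w c C k0)
    (h : q = 4 * Real.cos (Real.pi / (m + 2)) ^ 2) : ∃ c' C' : ℝ, 0 < c' ∧ 0 < C' ∧
      (∀ k N : ℕ, 1 ≤ k → 2 * k ≤ N → c' / k ≤ tipTwoPoint q m N k) ∧
      ∀ k : ℕ, 1 ≤ k → gl q m k ≤ C' / k := by
  have hth := th_eq hq h
  have hmth : m * th q < Real.pi := by
    rw [hth]
    refine lt_of_le_of_lt ?_ (mul_angle_lt m)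
    exact mul_le_mul_of_nonneg_left (angle_anti m) (by positivity)
  have hPhi := Phi_pos hq4 hmth
  set Φ : ℝ := ∑ j ∈ Icc (0 : ℤ) m, phi q m j with hΦ
  have hph := phi_pos hq4 hmth le_rfl (by positivity : (0 : ℤ) ≤ m)
  have hkey : ∀ N : ℕ, ∑ j ∈ Icc (0 : ℤ) m, phi q m j * F q m (fun _ => N) j = Φ := by
    intro N
    have := key hq hq4 hm N
    rw [phi_neg_one_eq hth] at this
    linarith
  have hc := hF.hc
  have hC := hF.hC
  -- bounds for `w`
  have hw1 : ∀ N : ℕ, k0 ≤ N → 1 / C ≤ N * w N := by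
    intro N hN
    have h1 := outer_le hF hq4 hmth hN
    rw [hkey N, ← hΦ] at h1
    have h2 : 1 ≤ C * N * w N := by
      by_contra hcon
      push Not at hcon
      nlinarith
    rw [div_le_iff₀ hC]
    linarith
  have hw2 : ∀ N : ℕ, k0 ≤ N → N * w N ≤ Φ / (phi q m 0 * c) := by
    intro N hN
    have h1 := outer_ge hq hm hF hq4 hmth hN
    rw [hkey N] at h1
    rw [le_div_iff₀ (by positivity)]
    linarith
  have hce := ce_pos' q
  have hk0 : (1 : ℝ) ≤ k0 := by exact_mod_cast hF.hk0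
  refine ⟨min (c / C) (ce q ^ k0), max (C * (Φ / (phi q m 0 * c))) k0, ?_, ?_, ?_, ?_⟩
  · exact lt_min (by positivity) (by positivity)
  · exact lt_max_of_lt_right (by linarith)
  · intro k N hk hN
    have hk' : (0 : ℝ) < k := by exact_mod_cast hk
    rw [div_le_iff₀ hk']
    rcases le_total k0 k with h1 | h1
    · refine (min_le_left _ _).trans ?_
      have h2 := hF.low k N h1 hN
      have h3 := hw1 k h1
      calc c / C = c * (1 / C) := by ring
        _ ≤ c * (k * w k) := mul_le_mul_of_nonneg_left h3 hc.le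
        _ = (c * w k) * k := by ring
        _ ≤ _ := mul_le_mul_of_nonneg_right h2 hk'.le
    · refine (min_le_right _ _).trans ?_
      have h2 := tip_ge hq hm (show k ≤ N by omega)
      have h3 := ce_pow_le (q := q) h1
      have h4 : (1 : ℝ) ≤ k := by exact_mod_cast hk
      have h5 : 0 ≤ tipTwoPoint q m N k := le_trans (by positivity) h2
      nlinarith
  · intro k hk
    have hk' : (0 : ℝ) < k := by exact_mod_cast hk
    rw [le_div_iff₀ hk']
    rcases le_total k0 k with h1 | h1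
    · refine le_trans ?_ (le_max_left _ _)
      have h2 : gl q m k ≤ C * w k := gl_le hq (K := k) fun N hN => hF.up k N h1 hN
      have h3 := hw2 k h1
      calc gl q m k * k ≤ (C * w k) * k := mul_le_mul_of_nonneg_right h2 hk'.le
        _ = C * (k * w k) := by ring
        _ ≤ _ := mul_le_mul_of_nonneg_left h3 hC.le
    · refine le_trans ?_ (le_max_right _ _)
      have h2 := gl_le_one hq m k
      have h3 : (k : ℝ) ≤ k0 := by exact_mod_cast h1
      nlinarith

/-- above the threshold -/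
theorem case_gt (hq : 1 ≤ q) (hq4 : q < 4) (hm : 1 ≤ m) (hF : Facts q m w c C k0)
    (h : 4 * Real.cos (Real.pi / (m + 2)) ^ 2 < q) : ∃ ε C' : ℝ, 0 < ε ∧ 0 < C' ∧
      ∀ k : ℕ, 1 ≤ k → gl q m k ≤ C' * (k : ℝ) ^ (-1 - ε) := by
  have hth := th_lt hq hq4 h
  have hmth : m * th q < Real.pi := by
    refine lt_of_le_of_lt ?_ (mul_angle_lt m)
    exact mul_le_mul_of_nonneg_left (hth.le.trans (angle_anti m)) (by positivity)
  have hPhi := Phi_pos hq4 hmth
  set Φ : ℝ := ∑ j ∈ Icc (0 : ℤ) m, phi q m j with hΦ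
  have hph := phi_neg_one_pos hq4 hth
  have hc := hF.hc
  have hC := hF.hC
  have hk01 := hF.hk0
  -- summability
  obtain ⟨g, hg1, -, hg2⟩ := wedge_main q hq m hm
  have hgt : g = tpi q m := by
    funext k
    exact tendsto_nhds_unique (hg1 k) (tendsto_tp hq m k)
  rw [hgt] at hg2
  have hs : Summable (tpi q m) := (hg2 h).summable
  have hnn : ∀ k, 0 ≤ tpi q m k := tpi_nonneg (by linarith) m
  set S : ℝ := ∑' k, tpi q m k with hS
  set T : ℕ → ℝ := fun n => S - ∑ k ∈ range n, tpi q m k with hT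
  have hT0 : ∀ n, 0 ≤ T n := fun n => sub_nonneg.mpr (hs.sum_le_tsum _ fun k _ => hnn k)
  have hTs : ∀ n, T n - T (n + 1) = tpi q m n := by
    intro n
    simp only [hT, sum_range_succ]
    ring
  have hSN : ∀ N, F q m (fun _ => N) (-1) ≤ ∑ k ∈ range N, tpi q m k := by
    intro N
    rw [F_neg_one]
    exact sum_le_sum fun k _ => tp_le_tpi (by linarith) m N k
  -- `2 φ₋₁ S ≤ Φ`
  have hlim : 2 * phi q m (-1) * S ≤ Φ := by
    have h1 : Tendsto (fun n => 2 * phi q m (-1) * ∑ k ∈ range n, tpi q m k) atTop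
        (𝓝 (2 * phi q m (-1) * S)) := hs.hasSum.tendsto_sum_nat.const_mul _
    refine le_of_tendsto' h1 fun n => ?_
    have h2 : Tendsto (fun N : ℕ => 2 * phi q m (-1) * ∑ k ∈ range n, tp q m N k) atTop
        (𝓝 (2 * phi q m (-1) * ∑ k ∈ range n, tpi q m k)) :=
      (tendsto_finsetSum _ (fun k _ => tendsto_tp hq m k)).const_mul _
    refine le_of_tendsto h2 ?_
    filter_upwards [eventually_ge_atTop n] with N hN
    have h3 := key hq hq4 hm N
    have h4 : 0 ≤ ∑ j ∈ Icc (0 : ℤ) m, phi q m j * F q m (fun _ => N) j := by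
      apply sum_nonneg
      intro j hj
      rw [mem_Icc] at hj
      exact mul_nonneg (phi_pos hq4 hmth hj.1 hj.2).le ((ws hq hm).nonneg _ _)
    have h5 : ∑ k ∈ range n, tp q m N k ≤ F q m (fun _ => N) (-1) := by
      rw [F_neg_one]
      apply sum_le_sum_of_subset_of_nonneg
      · intro k hk
        rw [mem_range] at hk ⊢
        omega
      · intro k _ _
        exact tp_nonneg (by linarith) _ _ _
    have h6 : 2 * phi q m (-1) * ∑ k ∈ range n, tp q m N k ≤
        2 * phi q m (-1) * F q m (fun _ => N) (-1) :=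
      mul_le_mul_of_nonneg_left h5 (by positivity)
    linarith
  -- `T N ≤ D₁ N w N`
  obtain ⟨D, hD⟩ : ∃ D : ℝ, D = Φ * C / (2 * phi q m (-1)) := ⟨_, rfl⟩
  have hD0 : 0 < D := by
    rw [hD]
    exact div_pos (mul_pos hPhi hC) (mul_pos two_pos hph)
  have hTw : ∀ N : ℕ, k0 ≤ N → T N ≤ D * (N * w N) := by
    intro N hN
    have h1 := outer_le hF hq4 hmth hN
    have h2 := key hq hq4 hm N
    have h3 : 2 * phi q m (-1) * F q m (fun _ => N) (-1) ≤
        2 * phi q m (-1) * ∑ k ∈ range N, tpi q m k :=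
      mul_le_mul_of_nonneg_left (hSN N) (by positivity)
    have h4 : 2 * phi q m (-1) * T N ≤ Φ * (C * N * w N) := by
      simp only [hT, mul_sub]
      linarith
    have h5 : D * (N * w N) = (Φ * (C * N * w N)) / (2 * phi q m (-1)) := by
      rw [hD]
      ring
    rw [h5, le_div_iff₀ (by positivity)]
    linarith
  have hgw : ∀ n : ℕ, k0 ≤ n → c * w n ≤ gl q m n := fun n hn =>
    (hF.low n (2 * n) hn le_rfl).trans (tip_le_gl hq m (2 * n) n)
  obtain ⟨ε, C1, hε, hC1, hdec⟩ := SAna.decay (T := T) hk01 (D := D / c) (div_pos hD0 hc) hT0 (by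
    intro n hn
    have h1 := hTw (n + 1) (by omega)
    have h2 := hgw (n + 1) (by omega)
    rw [gl_succ, ← hTs n] at h2
    have h3 : w (n + 1) ≤ (T n - T (n + 1)) / c := by
      rw [le_div_iff₀ hc]
      linarith
    calc T (n + 1) ≤ D * (((n + 1 : ℕ) : ℝ) * w (n + 1)) := h1
      _ ≤ D * (((n + 1 : ℕ) : ℝ) * ((T n - T (n + 1)) / c)) := by gcongr
      _ = _ := by
        push_cast
        ring)
  -- `N w (2N) ≤ T N / c`
  have hw2 : ∀ N : ℕ, k0 ≤ N → c * (N * w (2 * N)) ≤ T N := by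
    intro N hN
    have h1 : ∑ k ∈ Ico N (2 * N), tpi q m k ≤ T N := by
      simp only [hT]
      rw [le_sub_iff_add_le, add_comm, sum_range_add_sum_Ico _ (by omega)]
      exact hs.sum_le_tsum _ fun k _ => hnn k
    have h2 : ∑ k ∈ Ico N (2 * N), c * w (2 * N) ≤ ∑ k ∈ Ico N (2 * N), tpi q m k := by
      apply sum_le_sum
      intro k hk
      rw [mem_Ico] at hk
      have h3 := hgw (k + 1) (by omega)
      rw [gl_succ] at h3
      have h4 := hF.anti (k + 1) (2 * N) (by omega)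
      nlinarith
    rw [sum_const, Nat.card_Ico, nsmul_eq_mul] at h2
    have h5 : ((2 * N - N : ℕ) : ℝ) = N := by
      congr 1
      omega
    rw [h5] at h2
    linarith
  refine ⟨ε, max (C * (C * (C1 / c))) ((k0 : ℝ) ^ (1 + ε)), hε, ?_, ?_⟩
  · apply lt_max_of_lt_left
    positivity
  · intro k hk
    have hk' : (0 : ℝ) < k := by exact_mod_cast hk
    have hkp : (0 : ℝ) < (k : ℝ) ^ (-1 - ε) := by positivity
    rcases le_total k0 k with h1 | h1
    · refine le_trans ?_ (mul_le_mul_of_nonneg_right (le_max_left _ _) hkp.le)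
      have h2 : gl q m k ≤ C * w k := gl_le hq (K := k) fun N hN => hF.up k N h1 hN
      have h3 : w k ≤ C * w (2 * k) :=
        (hF.dbl k h1).trans (mul_le_mul_of_nonneg_left (hF.anti _ _ (by omega)) hC.le)
      have h4 := hw2 k h1
      have h5 := hdec k h1
      have h6 : w (2 * k) ≤ C1 / c * (k : ℝ) ^ (-1 - ε) := by
        have e : (k : ℝ) ^ (-1 - ε) = (k : ℝ) ^ (-ε) / k := by
          rw [show -1 - ε = -ε - 1 by ring, Real.rpow_sub_one hk'.ne']
        rw [e]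
        rw [show C1 / c * ((k : ℝ) ^ (-ε) / k) = (C1 * (k : ℝ) ^ (-ε)) / (c * k) by
          field_simp]
        rw [le_div_iff₀ (by positivity)]
        linarith
      calc gl q m k ≤ C * w k := h2
        _ ≤ C * (C * w (2 * k)) := mul_le_mul_of_nonneg_left h3 hC.le
        _ ≤ C * (C * (C1 / c * (k : ℝ) ^ (-1 - ε))) := by gcongr
        _ = _ := by ring
    · refine le_trans ?_ (mul_le_mul_of_nonneg_right (le_max_right _ _) hkp.le)
      have h2 := gl_le_one hq m k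
      refine h2.trans ?_
      rw [show -1 - ε = -(1 + ε) by ring, Real.rpow_neg hk'.le, ← div_eq_mul_inv,
        le_div_iff₀ (by positivity), one_mul]
      exact Real.rpow_le_rpow hk'.le (by exact_mod_cast h1) (by linarith)

/-- below the threshold -/
theorem case_lt (hq : 1 ≤ q) (hq4 : q < 4) (hm : 1 ≤ m)
    (hFall : ∀ m : ℕ, 1 ≤ m → ∃ w c C k0, Facts q m w c C k0)
    (h : q < 4 * Real.cos (Real.pi / (m + 2)) ^ 2) : ∃ ε c' : ℝ, 0 < ε ∧ 0 < c' ∧
      ∀ k N : ℕ, 1 ≤ k → 2 * k ≤ N → c' * (k : ℝ) ^ (-1 + ε) ≤ tipTwoPoint q m N k := by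
  obtain ⟨m', hm1, hm2, hth1, hth2⟩ := exists_m hq hq4 hm h
  obtain ⟨w, c, C, k0, hF⟩ := hFall m' hm1
  have hmth : m' * th q < Real.pi := by
    refine lt_of_le_of_lt ?_ (mul_angle_lt m')
    exact mul_le_mul_of_nonneg_left hth2 (by positivity)
  have hPhi := Phi_pos hq4 hmth
  set Φ : ℝ := ∑ j ∈ Icc (0 : ℤ) m', phi q m' j with hΦ
  have hph := phi_neg_one_neg hm1 hth1 hth2
  have hc := hF.hc
  have hC := hF.hC
  have hk01 := hF.hk0
  set a : ℝ := min Φ (2 * (-phi q m' (-1)) * c) with ha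
  have ha0 : 0 < a := lt_min hPhi (by
    have : 0 < -phi q m' (-1) := by linarith
    positivity)
  set Y : ℕ → ℝ := fun n => 1 + ∑ k ∈ Ico k0 (n + 1), w k with hY
  have hY1 : ∀ n, 1 ≤ Y n := by
    intro n
    have : 0 ≤ ∑ k ∈ Ico k0 (n + 1), w k := sum_nonneg fun k _ => (hF.pos k).le
    simp only [hY]
    linarith
  -- lower bound of `N w N`
  have hlow : ∀ N : ℕ, k0 ≤ N → a * Y (N / 2) ≤ Φ * (C * N * w N) := by
    intro N hN
    have h1 := outer_le hF hq4 hmth hN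
    have h2 := key hq hq4 hm1 N
    have h3 : c * ∑ k ∈ Ico k0 (N / 2 + 1), w k ≤ F q m' (fun _ => N) (-1) := by
      rw [F_neg_one, mul_sum]
      have h4 : ∑ k ∈ Ico k0 (N / 2 + 1), c * w k ≤
          ∑ k ∈ Ico k0 (N / 2 + 1), tipTwoPoint q m' N k := by
        apply sum_le_sum
        intro k hk
        rw [mem_Ico] at hk
        exact hF.low k N hk.1 (by omega)
      refine h4.trans ?_
      have h5 : ∑ k ∈ range N, tp q m' N k = ∑ k ∈ Ico 1 (N + 1), tipTwoPoint q m' N k := by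
        have h7 := sum_Ico_add' (fun k => tipTwoPoint q m' N k) 0 N 1
        rw [zero_add] at h7
        rw [range_eq_Ico, ← h7]
        rfl
      rw [h5]
      apply sum_le_sum_of_subset_of_nonneg
      · intro k hk
        rw [mem_Ico] at hk ⊢
        omega
      · intro k _ _
        exact G_nonneg (by linarith) _ _ _ _
    have h6 : a * Y (N / 2) ≤ Φ + 2 * (-phi q m' (-1)) * (c * ∑ k ∈ Ico k0 (N / 2 + 1), w k) := by
      have h7 : a ≤ Φ := min_le_left _ _
      have h8 : a ≤ 2 * (-phi q m' (-1)) * c := min_le_right _ _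
      have h9 : 0 ≤ ∑ k ∈ Ico k0 (N / 2 + 1), w k := sum_nonneg fun k _ => (hF.pos k).le
      simp only [hY]
      nlinarith
    have h10 : 2 * (-phi q m' (-1)) * (c * ∑ k ∈ Ico k0 (N / 2 + 1), w k) ≤
        2 * (-phi q m' (-1)) * F q m' (fun _ => N) (-1) :=
      mul_le_mul_of_nonneg_left h3 (by linarith)
    linarith
  -- upper bound of `Y N`
  obtain ⟨D, hD⟩ : ∃ D : ℝ, D = Φ * C / a + C := ⟨_, rfl⟩
  have hD0 : 0 < D := by
    rw [hD]
    positivity
  have hup : ∀ N : ℕ, 2 * k0 ≤ N → Y N ≤ D * (N * w N) := by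
    intro N hN
    have h1 := hlow N (by omega)
    have h2 : Y (N / 2) ≤ Φ * C / a * (N * w N) := by
      rw [show Φ * C / a * (N * w N) = (Φ * (C * N * w N)) / a by ring, le_div_iff₀ ha0]
      linarith
    have h3 : Y N = Y (N / 2) + ∑ k ∈ Ico (N / 2 + 1) (N + 1), w k := by
      simp only [hY]
      rw [add_assoc, sum_Ico_consecutive _ (by omega) (by omega)]
    have h4 : ∑ k ∈ Ico (N / 2 + 1) (N + 1), w k ≤ N * (C * w N) := by
      calc ∑ k ∈ Ico (N / 2 + 1) (N + 1), w k ≤ ∑ k ∈ Ico (N / 2 + 1) (N + 1), C * w N := by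
            apply sum_le_sum
            intro k hk
            rw [mem_Ico] at hk
            exact (hF.dbl k (by omega)).trans
              (mul_le_mul_of_nonneg_left (hF.anti _ _ (by omega)) hC.le)
        _ = ((N + 1 - (N / 2 + 1) : ℕ) : ℝ) * (C * w N) := by
            rw [sum_const, Nat.card_Ico, nsmul_eq_mul]
        _ ≤ N * (C * w N) := by
            apply mul_le_mul_of_nonneg_right
            · exact_mod_cast (by omega : N + 1 - (N / 2 + 1) ≤ N)
            · have := hF.pos N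
              positivity
    rw [h3, hD]
    nlinarith
  obtain ⟨ε, c1, hε, hε1, hc1, hgr⟩ := SAna.growth (Y := Y) (K := 2 * k0) (by omega) hD0
    (fun n _ => lt_of_lt_of_le one_pos (hY1 n)) (by
      intro n hn
      have h1 := hup (n + 1) (by omega)
      have h2 : Y (n + 1) - Y n = w (n + 1) := by
        simp only [hY]
        rw [sum_Ico_succ_top (by omega : k0 ≤ n + 1)]
        ring
      rw [h2]
      push_cast at h1
      linarith)
  have hce := ce_pos' q
  refine ⟨ε, min (c * (c1 / D)) (ce q ^ (2 * k0)), hε, lt_min (by positivity) (by positivity), ?_⟩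
  intro k N hk hN
  have hk' : (0 : ℝ) < k := by exact_mod_cast hk
  have hkp : (0 : ℝ) < (k : ℝ) ^ (-1 + ε) := by positivity
  rcases le_total (2 * k0) k with h1 | h1
  · refine (mul_le_mul_of_nonneg_right (min_le_left _ _) hkp.le).trans ?_
    have h2 := hF.low k N (by omega) hN
    have h3 := hgr k h1
    have h4 := hup k h1
    have h5 : c1 / D * (k : ℝ) ^ (-1 + ε) ≤ w k := by
      have e : (k : ℝ) ^ (-1 + ε) = (k : ℝ) ^ ε / k := by
        rw [show -1 + ε = ε - 1 by ring, Real.rpow_sub_one hk'.ne']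
      rw [e, show c1 / D * ((k : ℝ) ^ ε / k) = (c1 * (k : ℝ) ^ ε) / (D * k) by
        field_simp, div_le_iff₀ (by positivity)]
      linarith
    calc c * (c1 / D) * (k : ℝ) ^ (-1 + ε) = c * (c1 / D * (k : ℝ) ^ (-1 + ε)) := by ring
      _ ≤ c * w k := mul_le_mul_of_nonneg_left h5 hc.le
      _ ≤ tipTwoPoint q m' N k := h2
      _ ≤ tipTwoPoint q m N k := tip_mono hq hm2 le_rfl k
  · refine (mul_le_mul_of_nonneg_right (min_le_right _ _) hkp.le).trans ?_
    have h2 := tip_ge hq hm (show k ≤ N by omega)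
    have h3 := ce_pow_le (q := q) h1
    have h4 : (k : ℝ) ^ (-1 + ε) ≤ 1 := Real.rpow_le_one_of_one_le_of_nonpos
      (by exact_mod_cast hk) (by linarith)
    have h5 : 0 < ce q ^ (2 * k0) := by positivity
    nlinarith

/-- The trichotomy, from the facts on arms. -/
theorem smain (q : ℝ) (hq : 1 ≤ q) (hq4 : q < 4)
    (hFall : ∀ m : ℕ, 1 ≤ m → ∃ w c C k0, Facts q m w c C k0) (m : ℕ) (hm : 1 ≤ m) :
    ∃ g : ℕ → ℝ,
      (∀ k, Tendsto (fun N => tipTwoPoint q m N k) atTop (𝓝 (g k))) ∧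
      (∀ k N, tipTwoPoint q m N k ≤ g k) ∧
      (q = 4 * Real.cos (Real.pi / (m + 2)) ^ 2 → ∃ c C : ℝ, 0 < c ∧ 0 < C ∧
        ∀ k : ℕ, 1 ≤ k → (∀ N, 2 * k ≤ N → c / k ≤ tipTwoPoint q m N k) ∧ g k ≤ C / k) ∧
      (q < 4 * Real.cos (Real.pi / (m + 2)) ^ 2 → ∃ ε c : ℝ, 0 < ε ∧ 0 < c ∧
        ∀ k : ℕ, 1 ≤ k → ∀ N, 2 * k ≤ N → c * (k : ℝ) ^ (-1 + ε) ≤ tipTwoPoint q m N k) ∧
      (4 * Real.cos (Real.pi / (m + 2)) ^ 2 < q → ∃ ε C : ℝ, 0 < ε ∧ 0 < C ∧
        ∀ k : ℕ, 1 ≤ k → g k ≤ C * (k : ℝ) ^ (-1 - ε)) := by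
  obtain ⟨w, c, C, k0, hF⟩ := hFall m hm
  refine ⟨gl q m, tendsto_gl hq m, fun k N => tip_le_gl hq m N k, fun h => ?_, fun h => ?_, fun h => ?_⟩
  · obtain ⟨c', C', h1, h2, h3, h4⟩ := case_eq hq hq4 hm hF h
    exact ⟨c', C', h1, h2, fun k hk => ⟨fun N hN => h3 k N hk hN, h4 k hk⟩⟩
  · obtain ⟨ε, c', h1, h2, h3⟩ := case_lt hq hq4 hm hFall h
    exact ⟨ε, c', h1, h2, fun k hk N hN => h3 k N hk hN⟩
  · exact case_gt hq hq4 hm hF h

end Pool.Agent.FKR.SM
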