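import Pool.Agent.FKR.SMain

/-!
# FKR/SMain2 (MP_b3e76a_pr): the trichotomy for all real `q ≥ 1`

For `q ≥ 4` the threshold `4 cos² (π / (m + 2))` is exceeded; either the facts on arms hold, and the sum
rule with a positive solution gives the bound, or the two-point function is at most `C / k²`.
-/

namespace Pool.Agent.FKR.SM

open Finset Filter Topology Function
open Pool.Agent.H95.Wedge

variable {q : ℝ} {m : ℕ} {w : ℕ → ℝ} {c C : ℝ} {k0 : ℕ}

/-- above the threshold, with any positive symmetric solution `φ` -/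
theorem case_gt_of (hq : 1 ≤ q) (hm : 1 ≤ m) (hF : Facts q m w c C k0) (φ : ℤ → ℝ)
    (hrec : ∀ t, φ (t + 1) + φ (t - 1) = √q * φ t) (hsym : φ (m + 1) = φ (-1))
    (hpos : ∀ j : ℤ, 0 ≤ j → j ≤ m → 0 < φ j) (hph : 0 < φ (-1))
    (h : 4 * Real.cos (Real.pi / (m + 2)) ^ 2 < q) : ∃ ε C' : ℝ, 0 < ε ∧ 0 < C' ∧
      ∀ k : ℕ, 1 ≤ k → gl q m k ≤ C' * (k : ℝ) ^ (-1 - ε) := by
  have key : ∀ N : ℕ, ∑ j ∈ Icc (0 : ℤ) m, φ j * F q m (fun _ => N) j
      + 2 * φ (-1) * F q m (fun _ => N) (-1) = ∑ j ∈ Icc (0 : ℤ) m, φ j := by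
    intro N
    have h := (ws hq hm).ident φ hrec (fun _ => N)
    have hI : Icc (-1 : ℤ) (m + 1) = insert (-1) (insert ((m : ℤ) + 1) (Icc (0 : ℤ) m)) := by
      ext j
      simp only [mem_insert, mem_Icc]
      omega
    rw [hI, sum_insert (by simp only [mem_insert, mem_Icc]; omega),
      sum_insert (by simp only [mem_Icc]; omega), hsym, ← (ws hq hm).sym] at h
    linarith
  have outer : ∀ N : ℕ, k0 ≤ N → ∑ j ∈ Icc (0 : ℤ) m, φ j * F q m (fun _ => N) j ≤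
      (∑ j ∈ Icc (0 : ℤ) m, φ j) * (C * N * w N) := by
    intro N hN
    rw [sum_mul]
    apply sum_le_sum
    intro j hj
    rw [mem_Icc] at hj
    exact mul_le_mul_of_nonneg_left (hF.outUp N j hN hj.1 hj.2) (hpos j hj.1 hj.2).le
  have hPhi : 0 < ∑ j ∈ Icc (0 : ℤ) m, φ j := by
    apply sum_pos
    · intro j hj
      rw [mem_Icc] at hj
      exact hpos j hj.1 hj.2
    · exact ⟨0, by simp⟩
  set Φ : ℝ := ∑ j ∈ Icc (0 : ℤ) m, φ j with hΦ
  have hc := hF.hc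
  have hC := hF.hC
  have hk01 := hF.hk0
  -- summability
  obtain ⟨g, hg1, -, hg2⟩ := wedge_main q hq m hm
  have hgt : g = tpi q m := by
    funext k
    exact tendsto_nhds_unique (hg1 k) (tendsto_tp hq m k)
  rw [hgt] at hg2
  have hs : Summable (tpi q m) := (hg2 h).summable
  have hnn : ∀ k, 0 ≤ tpi q m k := tpi_nonneg (by linarith) m
  set S : ℝ := ∑' k, tpi q m k with hS
  set T : ℕ → ℝ := fun n => S - ∑ k ∈ range n, tpi q m k with hT
  have hT0 : ∀ n, 0 ≤ T n := fun n => sub_nonneg.mpr (hs.sum_le_tsum _ fun k _ => hnn k)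
  have hTs : ∀ n, T n - T (n + 1) = tpi q m n := by
    intro n
    simp only [hT, sum_range_succ]
    ring
  have hSN : ∀ N, F q m (fun _ => N) (-1) ≤ ∑ k ∈ range N, tpi q m k := by
    intro N
    rw [F_neg_one]
    exact sum_le_sum fun k _ => tp_le_tpi (by linarith) m N k
  -- `2 φ₋₁ S ≤ Φ`
  have hlim : 2 * φ (-1) * S ≤ Φ := by
    have h1 : Tendsto (fun n => 2 * φ (-1) * ∑ k ∈ range n, tpi q m k) atTop
        (𝓝 (2 * φ (-1) * S)) := hs.hasSum.tendsto_sum_nat.const_mul _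
    refine le_of_tendsto' h1 fun n => ?_
    have h2 : Tendsto (fun N : ℕ => 2 * φ (-1) * ∑ k ∈ range n, tp q m N k) atTop
        (𝓝 (2 * φ (-1) * ∑ k ∈ range n, tpi q m k)) :=
      (tendsto_finsetSum _ (fun k _ => tendsto_tp hq m k)).const_mul _
    refine le_of_tendsto h2 ?_
    filter_upwards [eventually_ge_atTop n] with N hN
    have h3 := key N
    have h4 : 0 ≤ ∑ j ∈ Icc (0 : ℤ) m, φ j * F q m (fun _ => N) j := by
      apply sum_nonneg
      intro j hj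
      rw [mem_Icc] at hj
      exact mul_nonneg (hpos j hj.1 hj.2).le ((ws hq hm).nonneg _ _)
    have h5 : ∑ k ∈ range n, tp q m N k ≤ F q m (fun _ => N) (-1) := by
      rw [F_neg_one]
      apply sum_le_sum_of_subset_of_nonneg
      · intro k hk
        rw [mem_range] at hk ⊢
        omega
      · intro k _ _
        exact tp_nonneg (by linarith) _ _ _
    have h6 : 2 * φ (-1) * ∑ k ∈ range n, tp q m N k ≤
        2 * φ (-1) * F q m (fun _ => N) (-1) :=
      mul_le_mul_of_nonneg_left h5 (by positivity)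
    linarith
  -- `T N ≤ D₁ N w N`
  obtain ⟨D, hD⟩ : ∃ D : ℝ, D = Φ * C / (2 * φ (-1)) := ⟨_, rfl⟩
  have hD0 : 0 < D := by
    rw [hD]
    exact div_pos (mul_pos hPhi hC) (mul_pos two_pos hph)
  have hTw : ∀ N : ℕ, k0 ≤ N → T N ≤ D * (N * w N) := by
    intro N hN
    have h1 := outer N hN
    have h2 := key N
    have h3 : 2 * φ (-1) * F q m (fun _ => N) (-1) ≤
        2 * φ (-1) * ∑ k ∈ range N, tpi q m k :=
      mul_le_mul_of_nonneg_left (hSN N) (by positivity)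
    have h4 : 2 * φ (-1) * T N ≤ Φ * (C * N * w N) := by
      simp only [hT, mul_sub]
      linarith
    have h5 : D * (N * w N) = (Φ * (C * N * w N)) / (2 * φ (-1)) := by
      rw [hD]
      ring
    rw [h5, le_div_iff₀ (by positivity)]
    linarith
  have hgw : ∀ n : ℕ, k0 ≤ n → c * w n ≤ gl q m n := fun n hn =>
    (hF.low n (2 * n) hn le_rfl).trans (tip_le_gl hq m (2 * n) n)
  obtain ⟨ε, C1, hε, hC1, hdec⟩ := SAna.decay (T := T) hk01 (D := D / c) (div_pos hD0 hc) hT0 (by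
    intro n hn
    have h1 := hTw (n + 1) (by omega)
    have h2 := hgw (n + 1) (by omega)
    rw [gl_succ, ← hTs n] at h2
    have h3 : w (n + 1) ≤ (T n - T (n + 1)) / c := by
      rw [le_div_iff₀ hc]
      linarith
    calc T (n + 1) ≤ D * (((n + 1 : ℕ) : ℝ) * w (n + 1)) := h1
      _ ≤ D * (((n + 1 : ℕ) : ℝ) * ((T n - T (n + 1)) / c)) := by gcongr
      _ = _ := by
        push_cast
        ring)
  -- `N w (2N) ≤ T N / c`
  have hw2 : ∀ N : ℕ, k0 ≤ N → c * (N * w (2 * N)) ≤ T N := by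
    intro N hN
    have h1 : ∑ k ∈ Ico N (2 * N), tpi q m k ≤ T N := by
      simp only [hT]
      rw [le_sub_iff_add_le, add_comm, sum_range_add_sum_Ico _ (by omega)]
      exact hs.sum_le_tsum _ fun k _ => hnn k
    have h2 : ∑ k ∈ Ico N (2 * N), c * w (2 * N) ≤ ∑ k ∈ Ico N (2 * N), tpi q m k := by
      apply sum_le_sum
      intro k hk
      rw [mem_Ico] at hk
      have h3 := hgw (k + 1) (by omega)
      rw [gl_succ] at h3
      have h4 := hF.anti (k + 1) (2 * N) (by omega)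
      nlinarith
    rw [sum_const, Nat.card_Ico, nsmul_eq_mul] at h2
    have h5 : ((2 * N - N : ℕ) : ℝ) = N := by
      congr 1
      omega
    rw [h5] at h2
    linarith
  refine ⟨ε, max (C * (C * (C1 / c))) ((k0 : ℝ) ^ (1 + ε)), hε, ?_, ?_⟩
  · apply lt_max_of_lt_left
    positivity
  · intro k hk
    have hk' : (0 : ℝ) < k := by exact_mod_cast hk
    have hkp : (0 : ℝ) < (k : ℝ) ^ (-1 - ε) := by positivity
    rcases le_total k0 k with h1 | h1
    · refine le_trans ?_ (mul_le_mul_of_nonneg_right (le_max_left _ _) hkp.le)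
      have h2 : gl q m k ≤ C * w k := gl_le hq (K := k) fun N hN => hF.up k N h1 hN
      have h3 : w k ≤ C * w (2 * k) :=
        (hF.dbl k h1).trans (mul_le_mul_of_nonneg_left (hF.anti _ _ (by omega)) hC.le)
      have h4 := hw2 k h1
      have h5 := hdec k h1
      have h6 : w (2 * k) ≤ C1 / c * (k : ℝ) ^ (-1 - ε) := by
        have e : (k : ℝ) ^ (-1 - ε) = (k : ℝ) ^ (-ε) / k := by
          rw [show -1 - ε = -ε - 1 by ring, Real.rpow_sub_one hk'.ne']
        rw [e]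
        rw [show C1 / c * ((k : ℝ) ^ (-ε) / k) = (C1 * (k : ℝ) ^ (-ε)) / (c * k) by
          field_simp]
        rw [le_div_iff₀ (by positivity)]
        linarith
      calc gl q m k ≤ C * w k := h2
        _ ≤ C * (C * w (2 * k)) := mul_le_mul_of_nonneg_left h3 hC.le
        _ ≤ C * (C * (C1 / c * (k : ℝ) ^ (-1 - ε))) := by gcongr
        _ = _ := by ring
    · refine le_trans ?_ (mul_le_mul_of_nonneg_right (le_max_right _ _) hkp.le)
      have h2 := gl_le_one hq m k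
      refine h2.trans ?_
      rw [show -1 - ε = -(1 + ε) by ring, Real.rpow_neg hk'.le, ← div_eq_mul_inv,
        le_div_iff₀ (by positivity), one_mul]
      exact Real.rpow_le_rpow hk'.le (by exact_mod_cast h1) (by linarith)

/-- positive symmetric solution for `q ≥ 4` -/
noncomputable def psi (q : ℝ) (m : ℕ) (t : ℤ) : ℝ := Ur (√q) (t + 1) + Ur (√q) (m + 1 - t)

lemma two_le_sqrt (hq4 : 4 ≤ q) : 2 ≤ √q := by
  rw [Real.le_sqrt (by norm_num) (by linarith)]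
  linarith

lemma Ur_pos_two (hq4 : 4 ≤ q) {t : ℤ} (ht : 0 ≤ t) : 0 < Ur (√q) t := by
  obtain ⟨j, rfl⟩ := Int.eq_ofNat_of_zero_le ht
  have := (Ur_ge_two' (two_le_sqrt hq4) j).1
  linarith

lemma psi_rec (q : ℝ) (m : ℕ) (t : ℤ) : psi q m (t + 1) + psi q m (t - 1) = √q * psi q m t := by
  unfold psi
  have h1 := Block.Ur_rec (√q) (t + 1)
  have h2 := Block.Ur_rec (√q) (m + 1 - t)
  rw [show (m : ℤ) + 1 - (t + 1) = m + 1 - t - 1 by ring,
    show (m : ℤ) + 1 - (t - 1) = m + 1 - t + 1 by ring, show t - 1 + 1 = t + 1 - 1 by ring]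
  linarith

lemma psi_pos (hq4 : 4 ≤ q) {t : ℤ} (h0 : -1 ≤ t) (h1 : t ≤ m + 1) : 0 < psi q m t :=
  add_pos (Ur_pos_two hq4 (by omega)) (Ur_pos_two hq4 (by omega))

lemma psi_sym (q : ℝ) (m : ℕ) : psi q m (m + 1) = psi q m (-1) := by
  unfold psi
  rw [show (m : ℤ) + 1 - (m + 1) = -1 + 1 by ring, show (m : ℤ) + 1 - (-1) = m + 1 + 1 by ring]
  ring

lemma thr_lt_four (m : ℕ) : 4 * Real.cos (Real.pi / (m + 2)) ^ 2 < 4 := by
  have h0 := angle_mem m
  have hpi := Real.pi_pos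
  have h1 : 0 < Real.pi / ((m : ℝ) + 2) := by positivity
  have h2 : Real.cos (Real.pi / (m + 2)) < 1 := by
    rw [← Real.cos_zero]
    exact Real.cos_lt_cos_of_nonneg_of_le_pi le_rfl (by linarith [h0.2]) h1
  have h3 := cos_angle_nonneg m
  nlinarith

/-- The trichotomy for all real `q ≥ 1`. -/
theorem smain_all (q : ℝ) (hq : 1 ≤ q) (m : ℕ) (hm : 1 ≤ m)
    (h1 : q < 4 → ∀ m : ℕ, 1 ≤ m → ∃ w c C k0, Facts q m w c C k0)
    (h2 : 4 ≤ q → (∃ w c C k0, Facts q m w c C k0) ∨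
      ∃ C : ℝ, 0 < C ∧ ∀ k N : ℕ, 1 ≤ k → k ≤ N → tipTwoPoint q m N k ≤ C / (k : ℝ) ^ 2) :
    ∃ g : ℕ → ℝ,
      (∀ k, Tendsto (fun N => tipTwoPoint q m N k) atTop (𝓝 (g k))) ∧
      (∀ k N, tipTwoPoint q m N k ≤ g k) ∧
      (q = 4 * Real.cos (Real.pi / (m + 2)) ^ 2 → ∃ c C : ℝ, 0 < c ∧ 0 < C ∧
        ∀ k : ℕ, 1 ≤ k → (∀ N, 2 * k ≤ N → c / k ≤ tipTwoPoint q m N k) ∧ g k ≤ C / k) ∧
      (q < 4 * Real.cos (Real.pi / (m + 2)) ^ 2 → ∃ ε c : ℝ, 0 < ε ∧ 0 < c ∧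
        ∀ k : ℕ, 1 ≤ k → ∀ N, 2 * k ≤ N → c * (k : ℝ) ^ (-1 + ε) ≤ tipTwoPoint q m N k) ∧
      (4 * Real.cos (Real.pi / (m + 2)) ^ 2 < q → ∃ ε C : ℝ, 0 < ε ∧ 0 < C ∧
        ∀ k : ℕ, 1 ≤ k → g k ≤ C * (k : ℝ) ^ (-1 - ε)) := by
  rcases lt_or_ge q 4 with hq4 | hq4
  · exact smain q hq hq4 (h1 hq4) m hm
  · have ht := thr_lt_four m
    refine ⟨gl q m, tendsto_gl hq m, fun k N => tip_le_gl hq m N k, fun h => ?_, fun h => ?_,
      fun h => ?_⟩
    · linarith
    · linarith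
    · rcases h2 hq4 with ⟨w, c, C, k0, hF⟩ | ⟨C, hC, hb⟩
      · exact case_gt_of hq hm hF (psi q m) (psi_rec q m) (psi_sym q m)
          (fun j h0 h1 => psi_pos hq4 (by omega) (by omega)) (psi_pos hq4 le_rfl (by omega)) h
      · refine ⟨1, C, one_pos, hC, fun k hk => ?_⟩
        have hk' : (0 : ℝ) < k := by exact_mod_cast hk
        have h3 : gl q m k ≤ C / (k : ℝ) ^ 2 := gl_le hq (K := k) fun N hN => hb k N hk hN
        have h4 : (k : ℝ) ^ (-1 - 1 : ℝ) = ((k : ℝ) ^ 2)⁻¹ := by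
          rw [show (-1 - 1 : ℝ) = -(2 : ℕ) by norm_num, Real.rpow_neg hk'.le, Real.rpow_natCast]
        rw [h4, ← div_eq_mul_inv]
        exact h3

end Pool.Agent.FKR.SM
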