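import Pool.Agent.H95.Wedge.Final
import Pool.Agent.FKR.SFactsDef

/-! # FKR/STrig (MP_b3e76a_pr): the positive solution of the recursion and the boundary sum rule -/

namespace Pool.Agent.FKR.SM

open Finset Filter Topology Function
open Pool.Agent.H95.Wedge

/-- `√q = 2 cos (th q)` -/
noncomputable def th (q : ℝ) : ℝ := Real.arccos (√q / 2)

/-- the even solution of the recursion -/
noncomputable def phi (q : ℝ) (m : ℕ) (j : ℤ) : ℝ := Real.cos ((j - m / 2) * th q)

variable {q : ℝ} {m : ℕ}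

lemma sqrt_lt_two (hq4 : q < 4) : √q < 2 := by
  rw [Real.sqrt_lt' (by norm_num)]
  linarith

lemma cos_th (hq4 : q < 4) : Real.cos (th q) = √q / 2 := by
  apply Real.cos_arccos
  · have := Real.sqrt_nonneg q
    linarith
  · have := sqrt_lt_two hq4
    linarith

lemma th_pos (hq4 : q < 4) : 0 < th q := Real.arccos_pos.mpr (by
  have := sqrt_lt_two hq4
  linarith)

lemma th_le (q : ℝ) : th q ≤ Real.pi / 2 := Real.arccos_le_pi_div_two.mpr (by
  have := Real.sqrt_nonneg q
  linarith)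

lemma phi_rec (hq4 : q < 4) (m : ℕ) (t : ℤ) : phi q m (t + 1) + phi q m (t - 1) = √q * phi q m t := by
  have hr : √q = 2 * Real.cos (th q) := by
    rw [cos_th hq4]
    ring
  rw [hr]
  unfold phi
  have e1 : (((t + 1 : ℤ) : ℝ) - m / 2) * th q = (t - m / 2) * th q + th q := by
    push_cast
    ring
  have e2 : (((t - 1 : ℤ) : ℝ) - m / 2) * th q = (t - m / 2) * th q - th q := by
    push_cast
    ring
  rw [e1, e2, Real.cos_add, Real.cos_sub]
  ring

lemma phi_neg_one (q : ℝ) (m : ℕ) : phi q m (-1) = Real.cos ((m + 2) / 2 * th q) := by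
  unfold phi
  rw [← Real.cos_neg]
  congr 1
  push_cast
  ring

lemma phi_sym (q : ℝ) (m : ℕ) : phi q m (m + 1) = phi q m (-1) := by
  rw [phi_neg_one]
  unfold phi
  congr 1
  push_cast
  ring

lemma phi_pos (hq4 : q < 4) (h : m * th q < Real.pi) {j : ℤ} (h0 : 0 ≤ j) (h1 : j ≤ m) :
    0 < phi q m j := by
  have hth := th_pos hq4
  have h0' : (0 : ℝ) ≤ j := by exact_mod_cast h0
  have h1' : (j : ℝ) ≤ m := by exact_mod_cast h1
  apply Real.cos_pos_of_mem_Ioo
  constructor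
  · nlinarith
  · nlinarith

lemma Phi_pos (hq4 : q < 4) (h : m * th q < Real.pi) : 0 < ∑ j ∈ Icc (0 : ℤ) m, phi q m j := by
  apply sum_pos
  · intro j hj
    rw [mem_Icc] at hj
    exact phi_pos hq4 h hj.1 hj.2
  · exact ⟨0, by simp⟩

/-- the sum rule for the even solution -/
theorem key (hq : 1 ≤ q) (hq4 : q < 4) (hm : 1 ≤ m) (N : ℕ) :
    ∑ j ∈ Icc (0 : ℤ) m, phi q m j * F q m (fun _ => N) j
      + 2 * phi q m (-1) * F q m (fun _ => N) (-1) = ∑ j ∈ Icc (0 : ℤ) m, phi q m j := by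
  have h := (ws hq hm).ident (phi q m) (phi_rec hq4 m) (fun _ => N)
  have hI : Icc (-1 : ℤ) (m + 1) = insert (-1) (insert ((m : ℤ) + 1) (Icc (0 : ℤ) m)) := by
    ext j
    simp only [mem_insert, mem_Icc]
    omega
  rw [hI, sum_insert (by simp only [mem_insert, mem_Icc]; omega),
    sum_insert (by simp only [mem_Icc]; omega), phi_sym, ← (ws hq hm).sym] at h
  linarith

section facts
variable {w : ℕ → ℝ} {c C : ℝ} {k0 : ℕ}

lemma outer_le (hF : Facts q m w c C k0) (hq4 : q < 4) (h : m * th q < Real.pi) {N : ℕ}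
    (hN : k0 ≤ N) : ∑ j ∈ Icc (0 : ℤ) m, phi q m j * F q m (fun _ => N) j ≤
      (∑ j ∈ Icc (0 : ℤ) m, phi q m j) * (C * N * w N) := by
  rw [sum_mul]
  apply sum_le_sum
  intro j hj
  rw [mem_Icc] at hj
  exact mul_le_mul_of_nonneg_left (hF.outUp N j hN hj.1 hj.2) (phi_pos hq4 h hj.1 hj.2).le

lemma outer_ge (hq : 1 ≤ q) (hm : 1 ≤ m) (hF : Facts q m w c C k0) (hq4 : q < 4)
    (h : m * th q < Real.pi) {N : ℕ} (hN : k0 ≤ N) :
    phi q m 0 * (c * N * w N) ≤ ∑ j ∈ Icc (0 : ℤ) m, phi q m j * F q m (fun _ => N) j := by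
  calc phi q m 0 * (c * N * w N) ≤ phi q m 0 * F q m (fun _ => N) 0 :=
        mul_le_mul_of_nonneg_left (hF.outLow N hN) (phi_pos hq4 h le_rfl (by positivity)).le
    _ ≤ _ := by
        apply single_le_sum (f := fun j => phi q m j * F q m (fun _ => N) j) ?_ (by simp)
        intro j hj
        rw [mem_Icc] at hj
        exact mul_nonneg (phi_pos hq4 h hj.1 hj.2).le ((ws hq hm).nonneg _ _)

end facts

/-! ### the threshold -/

lemma angle_mem (m : ℕ) : 0 ≤ Real.pi / (m + 2) ∧ Real.pi / (m + 2) ≤ Real.pi / 2 := by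
  constructor
  · positivity
  · apply div_le_div_of_nonneg_left Real.pi_pos.le (by norm_num)
    have : (0 : ℝ) ≤ (m : ℝ) := by positivity
    linarith

lemma cos_angle_nonneg (m : ℕ) : 0 ≤ Real.cos (Real.pi / (m + 2)) := by
  have h := angle_mem m
  have := Real.pi_pos
  exact Real.cos_nonneg_of_neg_pi_div_two_le_of_le (by linarith) h.2

lemma th_lt (hq : 1 ≤ q) (hq4 : q < 4) (h : 4 * Real.cos (Real.pi / (m + 2)) ^ 2 < q) :
    th q < Real.pi / (m + 2) := by
  have ha := angle_mem m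
  have hc := cos_angle_nonneg m
  have hpi := Real.pi_pos
  have hs : √q ^ 2 = q := Real.sq_sqrt (by linarith)
  have hs0 := Real.sqrt_nonneg q
  by_contra hcon
  push Not at hcon
  have h1 := Real.cos_le_cos_of_nonneg_of_le_pi ha.1 (by have := th_le q; linarith) hcon
  rw [cos_th hq4] at h1
  nlinarith

lemma th_gt (hq : 1 ≤ q) (hq4 : q < 4) (h : q < 4 * Real.cos (Real.pi / (m + 2)) ^ 2) :
    Real.pi / (m + 2) < th q := by
  have ha := angle_mem m
  have hc := cos_angle_nonneg m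
  have hpi := Real.pi_pos
  have hs : √q ^ 2 = q := Real.sq_sqrt (by linarith)
  have hs0 := Real.sqrt_nonneg q
  by_contra hcon
  push Not at hcon
  have h1 := Real.cos_le_cos_of_nonneg_of_le_pi (th_pos hq4).le (by linarith [ha.2]) hcon
  rw [cos_th hq4] at h1
  nlinarith

lemma th_eq (hq : 1 ≤ q) (h : q = 4 * Real.cos (Real.pi / (m + 2)) ^ 2) :
    th q = Real.pi / (m + 2) := by
  have ha := angle_mem m
  have hc := cos_angle_nonneg m
  have hpi := Real.pi_pos
  have h1 : √q / 2 = Real.cos (Real.pi / (m + 2)) := by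
    have h2 : √q = 2 * Real.cos (Real.pi / (m + 2)) := by
      rw [h, show 4 * Real.cos (Real.pi / (m + 2)) ^ 2 = (2 * Real.cos (Real.pi / (m + 2))) ^ 2 by ring]
      exact Real.sqrt_sq (by linarith)
    rw [h2]
    ring
  unfold th
  rw [h1]
  exact Real.arccos_cos ha.1 (by linarith)

lemma mul_angle_lt (m : ℕ) : (m : ℝ) * (Real.pi / (m + 1)) < Real.pi := by
  have hpi := Real.pi_pos
  have : (m : ℝ) * (Real.pi / (m + 1)) = Real.pi * (m / (m + 1)) := by ring
  rw [this]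
  have h2 : (m : ℝ) / (m + 1) < 1 := by
    rw [div_lt_one (by positivity)]
    linarith
  nlinarith

lemma angle_anti (m : ℕ) : Real.pi / ((m : ℝ) + 2) ≤ Real.pi / (m + 1) := by
  apply div_le_div_of_nonneg_left Real.pi_pos.le (by positivity)
  linarith

/-- below the threshold: the right number of quadrants -/
lemma exists_m (hq : 1 ≤ q) (hq4 : q < 4) (hm : 1 ≤ m)
    (h : q < 4 * Real.cos (Real.pi / (m + 2)) ^ 2) :
    ∃ m' : ℕ, 1 ≤ m' ∧ m' ≤ m ∧ Real.pi / (m' + 2) < th q ∧ th q ≤ Real.pi / (m' + 1) := by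
  classical
  have hex : ∃ n : ℕ, 1 ≤ n ∧ Real.pi / (n + 2) < th q := ⟨m, hm, th_gt hq hq4 h⟩
  obtain ⟨hn1, hn2⟩ := Nat.find_spec hex
  refine ⟨Nat.find hex, hn1, Nat.find_min' hex ⟨hm, th_gt hq hq4 h⟩, hn2, ?_⟩
  by_cases h1 : Nat.find hex = 1
  · rw [h1]
    have : Real.pi / ((1 : ℕ) + 1) = Real.pi / 2 := by norm_num
    rw [this]
    exact th_le q
  · have hlt : Nat.find hex - 1 < Nat.find hex := by omega
    have hmin := Nat.find_min hex hlt
    push Not at hmin
    have h2 := hmin (by omega)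
    have e : ((Nat.find hex - 1 : ℕ) : ℝ) + 2 = (Nat.find hex : ℝ) + 1 := by
      rw [Nat.cast_sub hn1]
      push_cast
      ring
    rw [e] at h2
    exact h2

lemma phi_neg_one_eq (h : th q = Real.pi / (m + 2)) : phi q m (-1) = 0 := by
  rw [phi_neg_one, h]
  have : ((m : ℝ) + 2) / 2 * (Real.pi / (m + 2)) = Real.pi / 2 := by
    field_simp
  rw [this]
  exact Real.cos_pi_div_two

lemma phi_neg_one_pos (hq4 : q < 4) (h : th q < Real.pi / (m + 2)) : 0 < phi q m (-1) := by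
  rw [phi_neg_one]
  have hth := th_pos hq4
  have h1 : ((m : ℝ) + 2) / 2 * th q < ((m : ℝ) + 2) / 2 * (Real.pi / (m + 2)) :=
    mul_lt_mul_of_pos_left h (by positivity)
  have h2 : ((m : ℝ) + 2) / 2 * (Real.pi / (m + 2)) = Real.pi / 2 := by
    field_simp
  apply Real.cos_pos_of_mem_Ioo
  constructor
  · have : 0 < ((m : ℝ) + 2) / 2 * th q := by positivity
    linarith [Real.pi_pos]
  · linarith

lemma phi_neg_one_neg (hm : 1 ≤ m) (h : Real.pi / (m + 2) < th q) (h' : th q ≤ Real.pi / (m + 1)) :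
    phi q m (-1) < 0 := by
  rw [phi_neg_one]
  have hpi := Real.pi_pos
  have hm' : (1 : ℝ) ≤ m := by exact_mod_cast hm
  have h1 : ((m : ℝ) + 2) / 2 * (Real.pi / (m + 2)) < ((m : ℝ) + 2) / 2 * th q :=
    mul_lt_mul_of_pos_left h (by positivity)
  have h2 : ((m : ℝ) + 2) / 2 * (Real.pi / (m + 2)) = Real.pi / 2 := by
    field_simp
  have h3 : ((m : ℝ) + 2) / 2 * th q ≤ ((m : ℝ) + 2) / 2 * (Real.pi / (m + 1)) :=
    mul_le_mul_of_nonneg_left h' (by positivity)
  have h4 : ((m : ℝ) + 2) / 2 * (Real.pi / (m + 1)) < Real.pi + Real.pi / 2 := by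
    have e : ((m : ℝ) + 2) / 2 * (Real.pi / (m + 1)) = Real.pi * ((m + 2) / (2 * (m + 1))) := by
      field_simp
    have h5 : ((m : ℝ) + 2) / (2 * (m + 1)) ≤ 1 := by
      rw [div_le_one (by positivity)]
      linarith
    rw [e]
    nlinarith
  exact Real.cos_neg_of_pi_div_two_lt_of_lt (by linarith) (by linarith)

end Pool.Agent.FKR.SM
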