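import Pool.Agent.FKR.RectDual
import Pool.Agent.FKR.Dom
import Pool.Agent.FKR.Join
import Pool.Agent.FKR.MapP
import Pool.Agent.FKR.Topo

/-! # FKR/Sq (MP_b3e76a_pr): exact crossing probability of a square with two wired sides

`R = rect 0 w 0 (w-1)`, the left and right sides are frozen (`sqF`), the other edges are active (`sqE`).
`x = P q sqE sqF (hor 0 w 0 (w-1))`, `y` = the probability of the same event when the two sides are joined.
`P_join`: `y (1 + (q-1) x) = q x` (for `ω = ζ ∪ sqF`: `hor 0 w 0 (w-1) ω ↔ Cn ω (0, 0) (w, 0)`).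
Duality: `f (i, j) = (j + 1, i)` maps faces to vertices, `σ e = Sym2.map f (star e)`: `σ (eh x y) = eh y x`,
`σ (ev x y) = ev (y+1) (x-1)`, so `sqE.image σ = sqE`. By `hor_iff`, `hor 0 w 0 (w-1) (ζ ∪ sqF)` fails iff there is a path
of faces in `rect 0 (w-1) (-1) (w-1)` from the row `-1` to the row `w-1` crossing no open edge, iff (apply `f`)
`hor 0 w 0 (w-1) ((sqE \ ζ).image σ ∪ sqF)`. By `rect_dual` (`E = sqE`, `F = sqF`, no closed edges) and `P_map`,
`1 - x = P q sqE (img f (ring 0 w 0 (w-1))) (fun κ => hor 0 w 0 (w-1) (κ ∩ sqE ∪ sqF))`, and the frozen set `img f ring`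
connects the ends of active edges in the same way as `sqF ∪ jn (0,0) (w,0) z`: all vertices of the columns `0`
and `w`, and no others. So `1 - x = y` (`P_le` in both directions). Hence `(q-1) x^2 + 2 x - 1 = 0`, `x = 1/(1+√q)`,
`y = √q/(1+√q)`. -/

namespace Pool.Agent.FKR

open Finset
open Pool.Agent.H95.Perc (Inc conn link rect hor ver eh ev sumE sepE Inci mem_rect)
open Pool.Agent.H95.SumRule (edgesIn Z2)

/-- the two vertical sides -/
noncomputable def sqF (w : ℤ) : Finset (Sym2 (ℤ × ℤ)) :=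
  edgesIn (rect 0 0 0 (w - 1)) ∪ edgesIn (rect w w 0 (w - 1))

/-- the other edges -/
noncomputable def sqE (w : ℤ) : Finset (Sym2 (ℤ × ℤ)) := edgesIn (rect 0 w 0 (w - 1)) \ sqF w

variable {q : ℝ} {w : ℤ}

namespace SqAux

/-- faces to vertices -/
def fv : (ℤ × ℤ) ≃ (ℤ × ℤ) where
  toFun v := (v.2 + 1, v.1)
  invFun v := (v.2, v.1 - 1)
  left_inv v := by simp
  right_inv v := by simp

theorem fv_star_eh (x y : ℤ) : Sym2.map fv (star (eh x y)) = eh y x := by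
  rw [star_eh]
  unfold ev eh
  rw [Sym2.map_mk]
  simp only [fv, Equiv.coe_fn_mk]
  rw [show y - 1 + 1 = y by ring]

theorem fv_star_ev (x y : ℤ) : Sym2.map fv (star (ev x y)) = ev (y + 1) (x - 1) := by
  rw [star_ev]
  unfold ev eh
  rw [Sym2.map_mk]
  simp only [fv, Equiv.coe_fn_mk]

theorem sqF_sub (hw : 2 ≤ w) : sqF w ⊆ edgesIn (rect 0 w 0 (w - 1)) := by
  apply union_subset
  · exact Pool.Agent.H95.Perc.edgesIn_mono
      (Pool.Agent.H95.Perc.rect_mono le_rfl (by omega) le_rfl le_rfl)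
  · exact Pool.Agent.H95.Perc.edgesIn_mono
      (Pool.Agent.H95.Perc.rect_mono (by omega) le_rfl le_rfl le_rfl)

theorem eh_mem_sqF {x y : ℤ} : eh x y ∉ sqF w := by
  unfold sqF
  rw [mem_union, eh_mem_edgesIn_rect, eh_mem_edgesIn_rect]
  omega

theorem ev_mem_sqF {x y : ℤ} : ev x y ∈ sqF w ↔ (x = 0 ∨ x = w) ∧ 0 ≤ y ∧ y + 1 ≤ w - 1 := by
  unfold sqF
  rw [mem_union, ev_mem_edgesIn_rect, ev_mem_edgesIn_rect]
  omega

theorem eh_mem_sqE {x y : ℤ} : eh x y ∈ sqE w ↔ 0 ≤ x ∧ x + 1 ≤ w ∧ 0 ≤ y ∧ y ≤ w - 1 := by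
  unfold sqE
  rw [mem_sdiff, eh_mem_edgesIn_rect]
  simp [eh_mem_sqF]

theorem ev_mem_sqE {x y : ℤ} : ev x y ∈ sqE w ↔ 1 ≤ x ∧ x ≤ w - 1 ∧ 0 ≤ y ∧ y + 1 ≤ w - 1 := by
  unfold sqE
  rw [mem_sdiff, ev_mem_edgesIn_rect, ev_mem_sqF]
  omega

theorem img_sqE : img fv ((sqE w).image star) = sqE w := by
  ext e
  unfold img
  rw [mem_image]
  constructor
  · rintro ⟨e1, h1, rfl⟩
    rw [mem_image] at h1
    obtain ⟨e2, h2, rfl⟩ := h1
    obtain ⟨x, y, h3⟩ := edgesIn_cases (mem_sdiff.1 h2).1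
    rcases h3 with rfl | rfl
    · rw [fv_star_eh, eh_mem_sqE]
      rw [eh_mem_sqE] at h2
      omega
    · rw [fv_star_ev, ev_mem_sqE]
      rw [ev_mem_sqE] at h2
      omega
  · intro h2
    obtain ⟨x, y, h3⟩ := edgesIn_cases (mem_sdiff.1 h2).1
    rcases h3 with rfl | rfl
    · rw [eh_mem_sqE] at h2
      refine ⟨star (eh y x), mem_image_of_mem _ (eh_mem_sqE.2 (by omega)), fv_star_eh _ _⟩
    · rw [ev_mem_sqE] at h2
      refine ⟨star (ev (y + 1) (x - 1)), mem_image_of_mem _ (ev_mem_sqE.2 (by omega)), ?_⟩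
      rw [fv_star_ev]
      rw [show x - 1 + 1 = x by ring, show y + 1 - 1 = y by ring]

theorem isAut_fv : Pool.Agent.H95.Perc.IsAut fv := by
  intro u v
  simp only [Z2, Pool.Agent.H95.SumRule.IsUnit2, fv, Equiv.coe_fn_mk, Prod.fst_sub, Prod.snd_sub]
  omega

theorem hor_img (κ : Finset (Sym2 (ℤ × ℤ))) :
    hor 0 w 0 (w - 1) (img fv κ) ↔ ver 0 (w - 1) (0 - 1) (w - 1) κ := by
  have h1 : rect 0 w 0 (w - 1) = (rect 0 (w - 1) (0 - 1) (w - 1)).image fv := by
    ext v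
    rw [Pool.Agent.H95.Perc.mem_image_equiv, mem_rect, mem_rect]
    simp only [fv, Equiv.coe_fn_symm_mk]
    omega
  unfold hor ver
  rw [h1]
  change link _ _ _ (Pool.Agent.H95.Perc.act fv κ) ↔ _
  rw [Pool.Agent.H95.Perc.link_act isAut_fv]
  constructor
  · intro h
    refine h.mono (Subset.refl _) (fun a _ h2 => ?_) (fun a _ h2 => ?_)
    · simp only [fv, Equiv.coe_fn_mk] at h2; omega
    · simp only [fv, Equiv.coe_fn_mk] at h2; omega
  · intro h
    refine h.mono (Subset.refl _) (fun a _ h2 => ?_) (fun a _ h2 => ?_)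
    · simp only [fv, Equiv.coe_fn_mk]; omega
    · simp only [fv, Equiv.coe_fn_mk]; omega

theorem hor_dual (hw : 2 ≤ w) {ω : Finset (Sym2 (ℤ × ℤ))} (_ : ω ⊆ edgesIn (rect 0 w 0 (w - 1))) :
    ¬ hor 0 w 0 (w - 1) ω ↔ ver 0 (w - 1) (0 - 1) (w - 1)
      ((edgesIn (rect 0 w 0 (w - 1)) \ ω).image star ∪ ring 0 w 0 (w - 1)) := by
  rw [hor_iff_star (κ' := (edgesIn (rect 0 w 0 (w - 1)) \ ω).image star ∪ ring 0 w 0 (w - 1))
    (by omega) (by omega), not_not]
  intro e he _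
  constructor
  · intro h1 h2
    rw [mem_union] at h2
    rcases h2 with h2 | h2
    · rw [mem_image] at h2
      obtain ⟨e', h3, h4⟩ := h2
      rw [mem_sdiff] at h3
      have := star_injOn _ (mem_coe.2 h3.1) (mem_coe.2 he) h4
      rw [this] at h3
      exact h3.2 h1
    · unfold ring at h2
      rw [mem_sdiff] at h2
      exact h2.2 (mem_image_of_mem _ he)
  · intro h1
    by_contra h2
    apply h1
    rw [mem_union]
    left
    exact mem_image_of_mem _ (mem_sdiff.2 ⟨he, h2⟩)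

theorem NL_sqE : NL (sqE w) := (NL_edgesIn _).mono sdiff_subset

theorem NL_sqF (hw : 2 ≤ w) : NL (sqF w) := (NL_edgesIn _).mono (sqF_sub hw)

theorem NL_ring : NL (ring 0 w 0 (w - 1)) := (NL_edgesIn _).mono sdiff_subset

theorem NL_img_ring : NL (img fv (ring 0 w 0 (w - 1))) :=
  NL_img (fun _ _ _ _ h => fv.injective h) NL_ring

theorem dual_eq (hq : 1 ≤ q) (hw : 2 ≤ w) :
    1 - P q (sqE w) (sqF w) (hor 0 w 0 (w - 1)) =
      P q (sqE w) (img fv (ring 0 w 0 (w - 1))) (hor 0 w 0 (w - 1)) := by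
  have hq0 : 0 < q := by linarith
  have hEF : sqE w ∪ sqF w = edgesIn (rect 0 w 0 (w - 1)) := by
    unfold sqE
    exact sdiff_union_of_subset (sqF_sub hw)
  rw [← P_not hq0]
  have h1 : P q (sqE w) (sqF w) (fun ω => ¬ hor 0 w 0 (w - 1) ω) =
      P q (sqE w) (sqF w) (fun ω => (fun κ => ver 0 (w - 1) (0 - 1) (w - 1) κ)
        ((edgesIn (rect 0 w 0 (w - 1)) \ ω).image star ∪ ring 0 w 0 (w - 1))) := by
    apply P_congr
    intro ζ hζ
    exact hor_dual hw (union_subset (hζ.trans sdiff_subset) (sqF_sub hw))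
  have h1' := rect_dual (E := sqE w) (F := sqF w) hq0 (x0 := 0) (x1 := w) (y0 := 0) (y1 := w - 1)
    (by omega) (by omega) sdiff_subset (sqF_sub hw) sdiff_disjoint
    (fun κ => ver 0 (w - 1) (0 - 1) (w - 1) κ)
  rw [hEF, Finset.sdiff_self, image_empty, empty_union] at h1'
  rw [h1, h1']
  have h2 := P_map (E := (sqE w).image star) (F := ring 0 w 0 (w - 1)) hq0
    ((NL_edgesIn _).mono ((image_subset_image sdiff_subset).trans star_edgesIn_subset))
    NL_ring (f := fv) (fun _ _ _ _ h => fv.injective h) (hor 0 w 0 (w - 1))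
  rw [img_sqE] at h2
  rw [h2]
  apply P_congr
  intro ζ _
  exact (hor_img _).symm

/-- vertices of the rotated ring -/
def Q (w : ℤ) (u : ℤ × ℤ) : Prop :=
  0 ≤ u.1 ∧ u.1 ≤ w ∧ -1 ≤ u.2 ∧ u.2 ≤ w ∧ (u.2 = -1 ∨ u.2 = w ∨ u.1 = 0 ∨ u.1 = w)

theorem Rg_iff {u : ℤ × ℤ} : Rg 0 w 0 (w - 1) (fv.symm u) ↔ Q w u := by
  unfold Rg Q
  rw [mem_rect]
  simp only [fv, Equiv.coe_fn_symm_mk]
  omega

theorem mem_R' (hw : 2 ≤ w) {u v : ℤ × ℤ} : s(u, v) ∈ img fv (ring 0 w 0 (w - 1)) ↔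
    Q w u ∧ Q w v ∧ Z2.Adj u v := by
  have h1 : s(u, v) = s(fv (fv.symm u), fv (fv.symm v)) := by simp
  rw [h1]
  change _ ∈ Pool.Agent.H95.Perc.act fv _ ↔ _
  rw [Pool.Agent.H95.Perc.mem_act, mem_ring (by omega) (by omega), Rg_iff, Rg_iff]
  have := isAut_fv (fv.symm u) (fv.symm v)
  rw [Equiv.apply_symm_apply, Equiv.apply_symm_apply] at this
  rw [this]

theorem Cn_R' (hw : 2 ≤ w) {u v : ℤ × ℤ} (hu : Q w u) (hv : Q w v) :
    Cn (img fv (ring 0 w 0 (w - 1))) u v := by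
  have h1 := Cn_img (f := fv) (ring_connected (by omega) (by omega) (Rg_iff.2 hu) (Rg_iff.2 hv))
  rwa [Equiv.apply_symm_apply, Equiv.apply_symm_apply] at h1

theorem Q_of_vts (hw : 2 ≤ w) {u : ℤ × ℤ} (hu : u ∈ vts (img fv (ring 0 w 0 (w - 1)))) : Q w u := by
  rw [mem_vts] at hu
  obtain ⟨e, he, hue⟩ := hu
  induction e with
  | _ x y =>
    rw [mem_R' hw] at he
    rw [Sym2.mem_iff] at hue
    rcases hue with rfl | rfl
    · exact he.1
    · exact he.2.1

theorem R'_inter (hw : 2 ≤ w) :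
    img fv (ring 0 w 0 (w - 1)) ∩ edgesIn (rect 0 w 0 (w - 1)) = sqF w := by
  ext e
  rw [mem_inter]
  constructor
  · rintro ⟨h1, h2⟩
    obtain ⟨x, y, h3⟩ := edgesIn_cases h2
    rcases h3 with rfl | rfl
    · exfalso
      rw [eh_mem_edgesIn_rect] at h2
      unfold eh at h1
      rw [mem_R' hw] at h1
      unfold Q at h1
      simp only at h1
      omega
    · rw [ev_mem_edgesIn_rect] at h2
      unfold ev at h1
      rw [mem_R' hw] at h1
      unfold Q at h1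
      rw [ev_mem_sqF]
      simp only at h1
      omega
  · intro h1
    refine ⟨?_, sqF_sub hw h1⟩
    obtain ⟨x, y, h3⟩ := edgesIn_cases (sqF_sub hw h1)
    rcases h3 with rfl | rfl
    · exact absurd h1 eh_mem_sqF
    · rw [ev_mem_sqF] at h1
      unfold ev
      rw [mem_R' hw]
      have hadj : Z2.Adj (x, y) (x, y + 1) := by rw [Z2_adj_iff]; omega
      refine ⟨?_, ?_, hadj⟩
      · unfold Q; simp only; omega
      · unfold Q; simp only; omega

theorem hor_dep {ω ω' : Finset (Sym2 (ℤ × ℤ))}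
    (h : ω ∩ edgesIn (rect 0 w 0 (w - 1)) = ω' ∩ edgesIn (rect 0 w 0 (w - 1))) :
    hor 0 w 0 (w - 1) ω ↔ hor 0 w 0 (w - 1) ω' := by
  have h1 := Pool.Agent.H95.Perc.dep_link (rect 0 w 0 (w - 1)) (fun v => v.1 = 0)
    (fun v => v.1 = w) ω
  have h2 := Pool.Agent.H95.Perc.dep_link (rect 0 w 0 (w - 1)) (fun v => v.1 = 0)
    (fun v => v.1 = w) ω'
  unfold hor
  rw [h1, h2, h]

theorem jn_inter {z : ℤ × ℤ} (hz : z ∉ rect 0 w 0 (w - 1)) {E : Finset (Sym2 (ℤ × ℤ))}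
    (hE : E ⊆ edgesIn (rect 0 w 0 (w - 1))) {e : Sym2 (ℤ × ℤ)} (he : e ∈ E) :
    e ∉ jn ((0, 0) : ℤ × ℤ) (w, 0) z := by
  intro h
  have h1 : z ∈ e := by
    unfold jn at h
    rw [mem_insert, mem_singleton] at h
    rcases h with rfl | rfl <;> simp
  exact hz (vts_edgesIn _ (mem_vts.2 ⟨e, hE he, h1⟩))

theorem inter_j (hw : 2 ≤ w) {z : ℤ × ℤ} (hz : z ∉ rect 0 w 0 (w - 1))
    {ζ : Finset (Sym2 (ℤ × ℤ))} (hζ : ζ ⊆ sqE w) :
    (ζ ∪ (sqF w ∪ jn (0, 0) (w, 0) z)) ∩ edgesIn (rect 0 w 0 (w - 1)) = ζ ∪ sqF w := by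
  ext e
  rw [mem_inter, mem_union, mem_union, mem_union]
  constructor
  · rintro ⟨h1 | h1 | h1, h2⟩
    · exact Or.inl h1
    · exact Or.inr h1
    · exact absurd h1 (jn_inter hz (Subset.refl _) h2)
  · rintro (h1 | h1)
    · exact ⟨Or.inl h1, (hζ.trans sdiff_subset) h1⟩
    · exact ⟨Or.inr (Or.inl h1), sqF_sub hw h1⟩

theorem inter_R (hw : 2 ≤ w) {ζ : Finset (Sym2 (ℤ × ℤ))} (hζ : ζ ⊆ sqE w) :
    (ζ ∪ img fv (ring 0 w 0 (w - 1))) ∩ edgesIn (rect 0 w 0 (w - 1)) = ζ ∪ sqF w := by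
  rw [union_inter_distrib_right, R'_inter hw, inter_eq_left.2 (hζ.trans sdiff_subset)]

theorem vts_sqE {u : ℤ × ℤ} (hu : u ∈ vts (sqE w)) : u ∈ rect 0 w 0 (w - 1) :=
  vts_edgesIn _ (vts_mono sdiff_subset hu)

theorem left_Cn {u : ℤ × ℤ} (h : u ∈ rect 0 w 0 (w - 1)) (h1 : u.1 = 0) :
    Cn (sqF w) (0, 0) u := by
  rw [mem_rect] at h
  refine (rect_Cn (x0 := 0) (x1 := 0) (y0 := 0) (y1 := w - 1) ?_ ?_).mono subset_union_left
  · rw [mem_rect]; simp only; omega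
  · rw [mem_rect]; omega

theorem right_Cn {u : ℤ × ℤ} (h : u ∈ rect 0 w 0 (w - 1)) (h1 : u.1 = w) :
    Cn (sqF w) (w, 0) u := by
  rw [mem_rect] at h
  refine (rect_Cn (x0 := w) (x1 := w) (y0 := 0) (y1 := w - 1) ?_ ?_).mono subset_union_right
  · rw [mem_rect]; simp only; omega
  · rw [mem_rect]; omega

theorem join_Cn {z : ℤ × ℤ} : Cn (sqF w ∪ jn (0, 0) (w, 0) z) (0, 0) (w, 0) := by
  have h1 : Cn (sqF w ∪ jn (0, 0) (w, 0) z) (0, 0) z := by
    apply Cn_edge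
    rw [mem_union]; right
    unfold jn; simp
  have h2 : Cn (sqF w ∪ jn (0, 0) (w, 0) z) z (w, 0) := by
    apply Cn_edge
    rw [mem_union]; right
    unfold jn; simp
  exact h1.trans h2

theorem col_Cn {z u : ℤ × ℤ} (h : u ∈ rect 0 w 0 (w - 1)) (h1 : u.1 = 0 ∨ u.1 = w) :
    Cn (sqF w ∪ jn (0, 0) (w, 0) z) (0, 0) u := by
  rcases h1 with h1 | h1
  · exact (left_Cn h h1).mono subset_union_left
  · exact join_Cn.trans ((right_Cn h h1).mono subset_union_left)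

theorem hor_iff_Cn (hw : 2 ≤ w) {ω : Finset (Sym2 (ℤ × ℤ))}
    (hω : ω ⊆ edgesIn (rect 0 w 0 (w - 1))) (hF : sqF w ⊆ ω) :
    hor 0 w 0 (w - 1) ω ↔ Cn ω (0, 0) (w, 0) := by
  have hin : ω ∩ edgesIn (rect 0 w 0 (w - 1)) = ω := inter_eq_left.2 hω
  constructor
  · rintro ⟨u, v, hu, hv, hu1, hv1, hc⟩
    have h1 : Cn ω u v := by
      unfold conn at hc
      rw [hin] at hc
      exact hc
    exact ((left_Cn hu hu1).mono hF).trans (h1.trans ((right_Cn hv hv1).mono hF).symm)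
  · intro h
    refine ⟨(0, 0), (w, 0), ?_, ?_, rfl, rfl, ?_⟩
    · rw [mem_rect]; simp only; omega
    · rw [mem_rect]; simp only; omega
    · unfold conn
      rw [hin]
      exact h

theorem joined_eq (hq : 1 ≤ q) (hw : 2 ≤ w) {z : ℤ × ℤ} (hz : z ∉ rect 0 w 0 (w - 1)) :
    P q (sqE w) (img fv (ring 0 w 0 (w - 1))) (hor 0 w 0 (w - 1)) =
      P q (sqE w) (sqF w ∪ jn (0, 0) (w, 0) z) (hor 0 w 0 (w - 1)) := by
  have hev : ∀ ζ ⊆ sqE w, (hor 0 w 0 (w - 1) (ζ ∪ img fv (ring 0 w 0 (w - 1))) ↔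
      hor 0 w 0 (w - 1) (ζ ∪ (sqF w ∪ jn (0, 0) (w, 0) z))) := by
    intro ζ hζ
    apply hor_dep
    rw [inter_R hw hζ, inter_j hw hz hζ]
  have hinc : Inc (hor 0 w 0 (w - 1)) := Pool.Agent.H95.Perc.inc_link _ _ _
  have hz1 : ((0, 0) : ℤ × ℤ) ≠ z := by
    rintro rfl; apply hz; rw [mem_rect]; simp only; omega
  have hz2 : ((w, 0) : ℤ × ℤ) ≠ z := by
    rintro rfl; apply hz; rw [mem_rect]; simp only; omega
  have hNLj : NL (sqF w ∪ jn (0, 0) (w, 0) z) := (NL_sqF hw).union (NL_jn hz1 hz2)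
  apply le_antisymm
  · refine P_le hq NL_sqE NL_img_ring NL_sqE hNLj subset_union_left ?_ hinc hinc
      (fun ζ hζ => (hev ζ hζ).1)
    intro u hu v hv huv
    by_cases huv' : u = v
    · subst huv'; exact Cn_refl _ _
    · have hu1 := vts_sqE hu
      have hv1 := vts_sqE hv
      obtain ⟨h1, h2⟩ := huv.mem_vts huv'
      have hu2 := Q_of_vts hw h1
      have hv2 := Q_of_vts hw h2
      have hu3 : u.1 = 0 ∨ u.1 = w := by
        rw [mem_rect] at hu1; unfold Q at hu2; omega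
      have hv3 : v.1 = 0 ∨ v.1 = w := by
        rw [mem_rect] at hv1; unfold Q at hv2; omega
      exact (col_Cn hu1 hu3).symm.trans (col_Cn hv1 hv3)
  · refine P_le hq NL_sqE hNLj NL_sqE NL_img_ring subset_union_left ?_ hinc hinc
      (fun ζ hζ => (hev ζ hζ).2)
    intro u hu v hv huv
    by_cases huv' : u = v
    · subst huv'; exact Cn_refl _ _
    · have hu1 := vts_sqE hu
      have hv1 := vts_sqE hv
      obtain ⟨h1, h2⟩ := huv.mem_vts huv'
      have key : ∀ u : ℤ × ℤ, u ∈ rect 0 w 0 (w - 1) →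
          u ∈ vts (sqF w ∪ jn (0, 0) (w, 0) z) → Q w u := by
        intro u hu1 h1
        rw [mem_rect] at hu1
        have hcol : u.1 = 0 ∨ u.1 = w := by
          rw [mem_vts] at h1
          obtain ⟨e, he, hue⟩ := h1
          rw [mem_union] at he
          rcases he with he | he
          · obtain ⟨x, y, h3⟩ := edgesIn_cases (sqF_sub hw he)
            rcases h3 with rfl | rfl
            · exact absurd he eh_mem_sqF
            · rw [ev_mem_sqF] at he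
              rw [mem_ev] at hue
              rcases hue with rfl | rfl
              · exact he.1
              · exact he.1
          · unfold jn at he
            rw [mem_insert, mem_singleton] at he
            rcases he with rfl | rfl
            · rw [Sym2.mem_iff] at hue
              rcases hue with rfl | rfl
              · left; rfl
              · exfalso; apply hz; rw [mem_rect]; exact hu1
            · rw [Sym2.mem_iff] at hue
              rcases hue with rfl | rfl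
              · exfalso; apply hz; rw [mem_rect]; exact hu1
              · right; rfl
        unfold Q; omega
      exact Cn_R' hw (key u hu1 h1) (key v hv1 h2)

theorem main (hq : 1 ≤ q) (hw : 2 ≤ w) {z : ℤ × ℤ} (hz : z ∉ rect 0 w 0 (w - 1)) :
    P q (sqE w) (sqF w) (hor 0 w 0 (w - 1)) = 1 / (1 + √q) ∧
    P q (sqE w) (sqF w ∪ jn (0, 0) (w, 0) z) (hor 0 w 0 (w - 1)) = √q / (1 + √q) := by
  have hq0 : 0 < q := by linarith
  have hEF : sqE w ∪ sqF w = edgesIn (rect 0 w 0 (w - 1)) := by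
    unfold sqE
    exact sdiff_union_of_subset (sqF_sub hw)
  have h1 := dual_eq hq hw
  rw [joined_eq hq hw hz] at h1
  have hsep : P q (sqE w) (sqF w) (hor 0 w 0 (w - 1)) =
      P q (sqE w) (sqF w) (fun ω => Cn ω (0, 0) (w, 0)) := by
    apply P_congr
    intro ζ hζ
    exact hor_iff_Cn hw (union_subset (hζ.trans sdiff_subset) (sqF_sub hw)) subset_union_right
  have hjoin : P q (sqE w) (sqF w ∪ jn (0, 0) (w, 0) z) (hor 0 w 0 (w - 1)) =
      P q (sqE w) (sqF w ∪ jn (0, 0) (w, 0) z)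
        (fun ω => Cn (ω \ jn (0, 0) (w, 0) z) (0, 0) (w, 0)) := by
    apply P_congr
    intro ζ hζ
    have h2 : (ζ ∪ (sqF w ∪ jn (0, 0) (w, 0) z)) \ jn (0, 0) (w, 0) z = ζ ∪ sqF w := by
      ext e
      rw [mem_sdiff, mem_union, mem_union, mem_union]
      constructor
      · rintro ⟨h3 | h3 | h3, h4⟩
        · exact Or.inl h3
        · exact Or.inr h3
        · exact absurd h3 h4
      · rintro (h3 | h3)
        · exact ⟨Or.inl h3, jn_inter hz (Subset.refl _) ((hζ.trans sdiff_subset) h3)⟩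
        · exact ⟨Or.inr (Or.inl h3), jn_inter hz (Subset.refl _) (sqF_sub hw h3)⟩
    rw [h2, ← hor_iff_Cn hw (union_subset (hζ.trans sdiff_subset) (sqF_sub hw)) subset_union_right]
    apply hor_dep
    rw [inter_j hw hz hζ,
      inter_eq_left.2 (union_subset (hζ.trans sdiff_subset) (sqF_sub hw))]
  have hzv : z ∉ vts (sqE w ∪ sqF w) := by
    rw [hEF]; exact fun h => hz (vts_edgesIn _ h)
  have hc1 : ((0, 0) : ℤ × ℤ) ∈ vts (sqE w ∪ sqF w) := by
    rw [mem_vts]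
    refine ⟨ev 0 0, ?_, by rw [mem_ev]; left; rfl⟩
    rw [mem_union]; right; rw [ev_mem_sqF]; omega
  have hc2 : ((w, 0) : ℤ × ℤ) ∈ vts (sqE w ∪ sqF w) := by
    rw [mem_vts]
    refine ⟨ev w 0, ?_, by rw [mem_ev]; left; rfl⟩
    rw [mem_union]; right; rw [ev_mem_sqF]; omega
  have h12 : ((0, 0) : ℤ × ℤ) ≠ (w, 0) := by
    intro h; rw [Prod.mk.injEq] at h; omega
  have h3 := P_join (q := q) hq0 NL_sqE (NL_sqF hw) hzv hc1 hc2 h12
  rw [← hjoin, ← hsep, ← h1] at h3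
  have hx0 := P_nonneg hq0 (sqE w) (sqF w) (hor 0 w 0 (w - 1))
  set x := P q (sqE w) (sqF w) (hor 0 w 0 (w - 1)) with hx
  have hs : 1 ≤ √q := by
    rw [show (1 : ℝ) = √1 by simp]
    exact Real.sqrt_le_sqrt hq
  have hss : √q * √q = q := Real.mul_self_sqrt hq0.le
  have hfac : ((1 + √q) * x - 1) * ((√q - 1) * x + 1) = 0 := by
    have : ((1 + √q) * x - 1) * ((√q - 1) * x + 1) = (√q * √q - 1) * x ^ 2 + 2 * x - 1 := by ring
    rw [this, hss]
    linarith
  have hpos : 0 < (√q - 1) * x + 1 := by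
    have : 0 ≤ (√q - 1) * x := mul_nonneg (by linarith) hx0
    linarith
  have hx1 : (1 + √q) * x = 1 := by
    rcases mul_eq_zero.1 hfac with h | h
    · linarith
    · exact absurd h hpos.ne'
  have hsp : 0 < 1 + √q := by linarith
  have hx2 : x = 1 / (1 + √q) := by
    rw [eq_div_iff hsp.ne']; linarith
  refine ⟨hx2, ?_⟩
  rw [← h1, hx2]
  field_simp
  ring

end SqAux

open SqAux

theorem sq_separate (hq : 1 ≤ q) (hw : 2 ≤ w) :
    P q (sqE w) (sqF w) (hor 0 w 0 (w - 1)) = 1 / (1 + √q) := by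
  refine (main hq hw (z := (-1, 0)) ?_).1
  rw [mem_rect]; simp only; omega

theorem sq_joined (hq : 1 ≤ q) (hw : 2 ≤ w) {z : ℤ × ℤ} (hz : z ∉ rect 0 w 0 (w - 1)) :
    P q (sqE w) (sqF w ∪ jn (0, 0) (w, 0) z) (hor 0 w 0 (w - 1)) = √q / (1 + √q) :=
  (main hq hw hz).2

end Pool.Agent.FKR
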