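import Pool.Agent.FKR.ArmUp

/-! # FKR/Thin (MP_b3e76a_pr): thin strips along the boundary rays are rarely crossed

`b = 1 - c`, `c` from `blk_W`. `x_i = n + 33 r + 66 r i`, `i < K`. For `f = ch 0` (or `ch m`): a crossing of the strip passes through the column
`x_i` at a point of `bxx x_i 0 r`, which is connected to the column `n`, so `Blk f x_i 0 r` does not occur, for all `i < K`
(`Cn_of_pull`, `ch_inj`). Claim: `P (Arm n ∧ ∀ i < k, ¬ Blk f x_i 0 r) ≤ b ^ k * P (Arm n)`, by induction on `k` with `P_indep_le`: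
`D = tc I_k E`, `I_k v = (v ∈ (bxx x_k 0 (32r-1)).image f)`; `P q D η (¬ Blk f x_k 0 r) ≤ 1 - c` by `blk_W` (edges of `η ⊆ E \ D` do not touch
`I_k`); `Arm n` only depends on the edges touching `nm < n` (`arm_tc`), and `Blk f x_i 0 r` only on the edges touching `I_i`
(`Cn_tc_iff`); none of them is in `D` (norms differ by at most one along edges; the boxes are at distance `> 1`).
Finally `arm_up` and the two strips. -/

namespace Pool.Agent.FKR

open Finset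
open Pool.Agent.H95.Perc (Inc conn link rect hor ver eh ev mem_rect)
open Pool.Agent.H95.SumRule (edgesIn Z2)
open Pool.Agent.H95.Wedge (Vtx pt)

variable {q : ℝ}

/-- the strip of width `r` along one of the two boundary rays is crossed between the norms `n` and `2 n` -/
def Th (m n : ℕ) (r : ℤ) (ω : Finset (Sym2 Vtx)) : Prop :=
  hor n (2 * n) 0 r (pull (ch 0) (rect n (2 * n) 0 r) ω) ∨
  hor n (2 * n) (-r) 0 (pull (ch m) (rect n (2 * n) (-r) 0) ω)

private theorem th_bxx {x y n : ℤ} {v : ℤ × ℤ} :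
    v ∈ bxx x y n ↔ x - n ≤ v.1 ∧ v.1 ≤ x + n ∧ y - n ≤ v.2 ∧ v.2 ≤ y + n := by
  unfold bxx
  rw [mem_rect]

/-- a crossing passes through every column -/
private theorem th_cross {f : ℤ × ℤ → Vtx} {x0 x1 y0 y1 x : ℤ} {ω : Finset (Sym2 Vtx)}
    (h : hor x0 x1 y0 y1 (pull f (rect x0 x1 y0 y1) ω)) (hx0 : x0 ≤ x) (hx1 : x ≤ x1) :
    ∃ p z : ℤ × ℤ, p.1 = x0 ∧ z ∈ rect x0 x1 y0 y1 ∧ z.1 = x ∧ Cn ω (f z) (f p) := by
  obtain ⟨p, p', hp, hp', h1, h2, hc⟩ := h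
  have hc' : Cn (pull f (rect x0 x1 y0 y1) ω ∩ edgesIn (rect x0 x1 y0 y1)) p p' := hc
  have hedge : ∀ a b : ℤ × ℤ, s(a, b) ∈ pull f (rect x0 x1 y0 y1) ω ∩
      edgesIn (rect x0 x1 y0 y1) → b ∈ rect x0 x1 y0 y1 ∧ b.1 ≤ a.1 + 1 := by
    intro a b hab
    have h3 := Pool.Agent.H95.Perc.mem_edgesIn'.1 (mem_inter.1 hab).2
    refine ⟨h3.2.1, ?_⟩
    have h4 : Pool.Agent.H95.SumRule.IsUnit2 (b - a) := h3.2.2
    simp only [Pool.Agent.H95.SumRule.IsUnit2, Prod.fst_sub, Prod.snd_sub] at h4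
    omega
  obtain ⟨z, hz, hcz⟩ := hc'.level (f := fun v : ℤ × ℤ => v.1) (fun a b hab => (hedge a b hab).2)
    (a := x) (by omega) (by omega)
  have hzR : z ∈ rect x0 x1 y0 y1 := hcz.closed (S := fun v => v ∈ rect x0 x1 y0 y1) hp
    (fun a b _ hab => (hedge a b hab).1)
  refine ⟨p, z, h1, hzR, hz, ?_⟩
  exact (Cn_of_pull (hcz.mono inter_subset_left)).symm

private theorem th_not_blk {j x0 x1 y0 y1 x r : ℤ} {ω : Finset (Sym2 Vtx)} (hr : 1 ≤ r)
    (h : hor x0 x1 y0 y1 (pull (ch j) (rect x0 x1 y0 y1) ω)) (h0 : 0 ≤ x0) (hx0 : x0 + 32 * r ≤ x)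
    (hx1 : x ≤ x1) (hy0 : -r ≤ y0) (hy1 : y1 ≤ r) : ¬ Blk (ch j) x 0 r ω := by
  obtain ⟨p, z, h1, h2, h3, h4⟩ := th_cross h (x := x) (by omega) hx1
  intro hB
  rw [mem_rect] at h2
  refine hB z ?_ (ch j p) ?_ h4
  · rw [th_bxx]
    omega
  · intro hmem
    rw [mem_image] at hmem
    obtain ⟨w, hw, hwp⟩ := hmem
    rw [th_bxx] at hw
    have h5 : w = p := ch_inj j (show 0 ≤ w.1 by omega) (show 0 ≤ p.1 by omega) hwp
    subst h5
    omega

/-- edges touching two sets of vertices with separated norms are different -/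
private theorem th_sep {m N s : ℕ} {I J : Vtx → Prop} (hI : ∀ u, I u → nm u ≤ s)
    (hJ : ∀ u, J u → s + 2 ≤ nm u) {e : Sym2 Vtx} (he : e ∈ WE m N) (h1 : ∃ v ∈ e, I v)
    (h2 : ∃ v ∈ e, J v) : False := by
  obtain ⟨u, hu, hIu⟩ := h1
  obtain ⟨v, hv, hJv⟩ := h2
  have h3 := hI u hIu
  have h4 := hJ v hJv
  by_cases huv : u = v
  · subst huv
    omega
  · have he' : e = s(u, v) := (Sym2.mem_and_mem_iff huv).1 ⟨hu, hv⟩
    rw [he'] at he
    have h5 := (WE_nm he).1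
    omega

private theorem th_tc {D E ω ω' : Finset (Sym2 Vtx)} {I : Vtx → Prop} (hω : ω ⊆ E)
    (hD : ∀ e ∈ E, (∃ v ∈ e, I v) → e ∉ D) (h : ω \ D = ω' \ D) : tc I ω ⊆ tc I ω' := by
  intro e he
  rw [mem_tc'] at he ⊢
  refine ⟨?_, he.2⟩
  have h1 : e ∈ ω \ D := mem_sdiff.2 ⟨he.1, hD e (hω he.1) he.2⟩
  rw [h] at h1
  exact (mem_sdiff.1 h1).1

private theorem th_arm {n : ℕ} (hn : 1 ≤ n) {D E ω ω' : Finset (Sym2 Vtx)} (hω : ω ⊆ E)
    (hD : ∀ e ∈ E, (∃ v ∈ e, nm v < n) → e ∉ D) (h : ω \ D = ω' \ D) (hA : Arm n ω) :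
    Arm n ω' := by
  rw [arm_tc hn] at hA ⊢
  exact inc_Arm n _ _ (th_tc hω hD h) hA

private theorem th_blk {j x r : ℤ} (hr : 1 ≤ r) {D E ω ω' : Finset (Sym2 Vtx)} (hω : ω ⊆ E)
    (hD : ∀ e ∈ E, (∃ v ∈ e, v ∈ (bxx x 0 (32 * r - 1)).image (ch j)) → e ∉ D)
    (h : ω \ D = ω' \ D) (hA : ¬ Blk (ch j) x 0 r ω) : ¬ Blk (ch j) x 0 r ω' := by
  unfold Blk at hA ⊢
  push Not at hA ⊢
  obtain ⟨p, hp, v, hv, hc⟩ := hA
  have hS : ch j p ∈ (bxx x 0 (32 * r - 1)).image (ch j) := by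
    refine mem_image_of_mem _ ?_
    rw [th_bxx] at hp ⊢
    omega
  obtain ⟨w, hw, hcw⟩ := (Cn_tc_iff (ω := ω)
    (S := fun v => v ∈ (bxx x 0 (32 * r - 1)).image (ch j)) hS).1 ⟨v, hv, hc⟩
  exact ⟨p, hp, w, hw, (hcw.mono (th_tc hω hD h)).mono (tc_subset _ _)⟩

private theorem th_norm {j x r : ℤ} (hr : 1 ≤ r) (hx : 64 * r ≤ x) {v : Vtx}
    (hv : v ∈ (bxx x 0 (32 * r - 1)).image (ch j)) :
    x - 32 * r + 1 ≤ nm v ∧ (nm v : ℤ) ≤ x + 32 * r - 1 := by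
  have _ := hr
  rw [mem_image] at hv
  obtain ⟨p, hp, rfl⟩ := hv
  rw [th_bxx] at hp
  have h1 := nm_ch j (p := p) (by omega)
  have h2 : |p.2| ≤ p.1 := abs_le.2 ⟨by omega, by omega⟩
  rw [max_eq_left h2] at h1
  rw [h1]
  omega

private theorem th_main (hq : 1 ≤ q) {c : ℝ}
    (hc : ∀ (m N : ℕ) (E F : Finset (Sym2 Vtx)) (j x y r : ℤ), E ⊆ WE m N → F ⊆ WE m N → 1 ≤ r →
      32 * r + 1 ≤ x → (∀ e ∈ F, ∀ p ∈ bxx x y (32 * r - 1), ch j p ∉ e) →
      c ≤ P q E F (Blk (ch j) x y r)) (hc1 : c ≤ 1) {m n N K : ℕ} {r j : ℤ} (hn : 1 ≤ n)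
    (hr : 1 ≤ r) (hK : 66 * K * r ≤ n) (k : ℕ) (hk : k ≤ K) :
    P q (WE m N) ∅ (fun ω => Arm n ω ∧ ∀ i < k, ¬ Blk (ch j) (n + 33 * r + 66 * r * (i : ℤ)) 0 r ω) ≤
      (1 - c) ^ k * P q (WE m N) ∅ (Arm n) := by
  have hq0 : 0 < q := by linarith
  have hNe : NL (∅ : Finset (Sym2 Vtx)) := by intro e he; exact absurd he (notMem_empty e)
  induction k with
  | zero =>
    rw [pow_zero, one_mul]
    exact P_mono hq0 (fun ζ _ h => h.1)
  | succ k ih =>
    have ih' := ih (by omega)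
    have hK1 : 66 * r ≤ n := by
      have h1 : (1 : ℤ) ≤ K := by omega
      nlinarith
    set D : Finset (Sym2 Vtx) := tc (fun v => v ∈
      (bxx (n + 33 * r + 66 * r * (k : ℤ)) 0 (32 * r - 1)).image (ch j)) (WE m N) with hD
    have hkr : 0 ≤ r * (k : ℤ) := by positivity
    have hDs : D ⊆ WE m N := tc_subset _ _
    have hmemD : ∀ e ∈ D, e ∈ WE m N ∧ ∃ v ∈ e, v ∈
        (bxx (n + 33 * r + 66 * r * (k : ℤ)) 0 (32 * r - 1)).image (ch j) := by
      intro e he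
      rw [hD, mem_tc'] at he
      exact he
    -- the edges near the tip
    have hDarm : ∀ e ∈ WE m N ∪ ∅, (∃ v ∈ e, nm v < n) → e ∉ D := by
      intro e he h1 h2
      rw [union_empty] at he
      refine th_sep (s := n - 1) (I := fun v => nm v < n) (J := fun v => v ∈
        (bxx (n + 33 * r + 66 * r * (k : ℤ)) 0 (32 * r - 1)).image (ch j)) ?_ ?_ he h1
        (hmemD e h2).2
      · intro u hu
        have hu' : nm u < n := hu
        omega
      · intro u hu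
        have h3 := (th_norm hr (by nlinarith) hu).1
        have h4 : (n : ℤ) + 2 ≤ nm u := by nlinarith
        omega
    -- the edges at the other boxes
    have hDbox : ∀ i < k, ∀ e ∈ WE m N ∪ ∅, (∃ v ∈ e, v ∈
        (bxx (n + 33 * r + 66 * r * (i : ℤ)) 0 (32 * r - 1)).image (ch j)) → e ∉ D := by
      intro i hi e he h1 h2
      rw [union_empty] at he
      have hir : 0 ≤ r * (i : ℤ) := by positivity
      have hik : r * (i : ℤ) + r ≤ r * (k : ℤ) := by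
        have : (i : ℤ) + 1 ≤ k := by omega
        nlinarith
      refine th_sep (s := (n + 65 * r + 66 * r * (i : ℤ) - 1).toNat) (I := fun v => v ∈
        (bxx (n + 33 * r + 66 * r * (i : ℤ)) 0 (32 * r - 1)).image (ch j)) (J := fun v => v ∈
        (bxx (n + 33 * r + 66 * r * (k : ℤ)) 0 (32 * r - 1)).image (ch j)) ?_ ?_ he h1
        (hmemD e h2).2
      · intro u hu
        have h3 := (th_norm hr (by nlinarith) hu).2
        have h4 : (nm u : ℤ) ≤ n + 65 * r + 66 * r * (i : ℤ) - 1 := by linarith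
        omega
      · intro u hu
        have h3 := (th_norm hr (by nlinarith) hu).1
        have h4 : n + 65 * r + 66 * r * (i : ℤ) - 1 + 2 ≤ (nm u : ℤ) := by nlinarith
        have h5 : 0 ≤ n + 65 * r + 66 * r * (i : ℤ) - 1 := by nlinarith
        omega
    have key := P_indep_le (F := ∅) hq0 (WE_NL m N) hNe hDs
      (A := fun ω => ¬ Blk (ch j) (n + 33 * r + 66 * r * (k : ℤ)) 0 r ω)
      (B := fun ω => Arm n ω ∧ ∀ i < k, ¬ Blk (ch j) (n + 33 * r + 66 * r * (i : ℤ)) 0 r ω)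
      (a := 1 - c) (by
        intro ω ω' hω _ h hB
        exact ⟨th_arm hn hω hDarm h hB.1,
          fun i hi => th_blk hr hω (hDbox i hi) h (hB.2 i hi)⟩) (by
        intro η hη
        rw [P_not hq0]
        have h1 : c ≤ P q D (∅ ∪ η) (Blk (ch j) (n + 33 * r + 66 * r * (k : ℤ)) 0 r) := by
          refine hc m N D (∅ ∪ η) j _ 0 r hDs ?_ hr (by nlinarith) ?_
          · rw [empty_union]
            exact hη.trans sdiff_subset
          · intro e he p hp hpe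
            rw [empty_union] at he
            have h2 := mem_sdiff.1 (hη he)
            refine h2.2 ?_
            rw [hD, mem_tc']
            exact ⟨h2.1, ch j p, hpe, mem_image_of_mem _ hp⟩
        linarith)
    have hmono : P q (WE m N) ∅ (fun ω => Arm n ω ∧
        ∀ i < k + 1, ¬ Blk (ch j) (n + 33 * r + 66 * r * (i : ℤ)) 0 r ω) ≤
        P q (WE m N) ∅ (fun ω => ¬ Blk (ch j) (n + 33 * r + 66 * r * (k : ℤ)) 0 r ω ∧
          (Arm n ω ∧ ∀ i < k, ¬ Blk (ch j) (n + 33 * r + 66 * r * (i : ℤ)) 0 r ω)) := by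
      apply P_mono hq0
      intro ζ _ h
      exact ⟨h.2 k (by omega), h.1, fun i hi => h.2 i (by omega)⟩
    refine hmono.trans (key.trans ?_)
    rw [pow_succ]
    calc (1 - c) * P q (WE m N) ∅ (fun ω => Arm n ω ∧
          ∀ i < k, ¬ Blk (ch j) (n + 33 * r + 66 * r * (i : ℤ)) 0 r ω)
        ≤ (1 - c) * ((1 - c) ^ k * P q (WE m N) ∅ (Arm n)) :=
          mul_le_mul_of_nonneg_left ih' (by linarith)
      _ = _ := by ring

private theorem th_strip (hq : 1 ≤ q) {c : ℝ}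
    (hc : ∀ (m N : ℕ) (E F : Finset (Sym2 Vtx)) (j x y r : ℤ), E ⊆ WE m N → F ⊆ WE m N → 1 ≤ r →
      32 * r + 1 ≤ x → (∀ e ∈ F, ∀ p ∈ bxx x y (32 * r - 1), ch j p ∉ e) →
      c ≤ P q E F (Blk (ch j) x y r)) (hc1 : c ≤ 1) {m n N K : ℕ} {r j y0 y1 : ℤ} (hn : 1 ≤ n)
    (hr : 1 ≤ r) (hK : 66 * K * r ≤ n) (hy0 : -r ≤ y0) (hy1 : y1 ≤ r) :
    P q (WE m N) ∅ (fun ω => Arm n ω ∧
        hor n (2 * n) y0 y1 (pull (ch j) (rect n (2 * n) y0 y1) ω)) ≤ (1 - c) ^ K * wA q m n := by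
  have hq0 : 0 < q := by linarith
  have h1 := th_main (m := m) (N := N) (j := j) hq hc hc1 hn hr hK K le_rfl
  have h2 : P q (WE m N) ∅ (Arm n) ≤ wA q m n :=
    arm_up (N := N) hq hn (Subset.refl _) (empty_subset _)
      (by intro e he; exact absurd he (notMem_empty e))
  refine le_trans (P_mono hq0 ?_) (h1.trans
    (mul_le_mul_of_nonneg_left h2 (pow_nonneg (by linarith) _)))
  intro ζ _ h
  refine ⟨h.1, ?_⟩
  intro i hi
  have hir : 0 ≤ r * (i : ℤ) := by positivity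
  have hiK : (i : ℤ) + 1 ≤ K := by omega
  have hiK' : 66 * (r * (i : ℤ)) + 66 * r ≤ n := by nlinarith
  exact th_not_blk hr h.2 (by omega) (by nlinarith) (by nlinarith) hy0 hy1

theorem thin (hq : 1 ≤ q) (hu : UU q) {m : ℕ} (hm : 1 ≤ m) : ∃ b : ℝ, 0 ≤ b ∧ b < 1 ∧
    ∀ (K n N : ℕ) (r : ℤ), 1 ≤ n → 1 ≤ r → 66 * K * r ≤ n →
    P q (WE m N) ∅ (fun ω => Arm n ω ∧ Th m n r ω) ≤ 2 * b ^ K * wA q m n := by
  have _ := hm
  have hq0 : 0 < q := by linarith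
  obtain ⟨c, hc0, hc1, hc⟩ := blk_W hq hu
  refine ⟨1 - c, by linarith, by linarith, ?_⟩
  intro K n N r hn hr hK
  have h1 := th_strip (m := m) (N := N) (j := 0) (y0 := 0) (y1 := r) hq hc hc1 hn hr hK (by omega)
    le_rfl
  have h2 := th_strip (m := m) (N := N) (j := m) (y0 := -r) (y1 := 0) hq hc hc1 hn hr hK le_rfl
    (by omega)
  have h3 : P q (WE m N) ∅ (fun ω => Arm n ω ∧ Th m n r ω) ≤
      P q (WE m N) ∅ (fun ω => (Arm n ω ∧
        hor n (2 * n) 0 r (pull (ch 0) (rect n (2 * n) 0 r) ω)) ∨ (Arm n ω ∧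
        hor n (2 * n) (-r) 0 (pull (ch m) (rect n (2 * n) (-r) 0) ω))) := by
    apply P_mono hq0
    intro ζ _ h
    rcases h.2 with h' | h'
    · exact Or.inl ⟨h.1, h'⟩
    · exact Or.inr ⟨h.1, h'⟩
  refine h3.trans ((P_or_le hq0 _ _ _ _).trans ?_)
  linarith

end Pool.Agent.FKR
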