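import Pool.Agent.FKR.SMain2
import Pool.Agent.FKR.ArmProd
import Pool.Agent.FKR.C4
import Pool.Agent.FKR.NU3

/-! # FKR/TipMain (MP_b3e76a_pr): the power law of the tip two-point function -/

namespace Pool.Agent.FKR

open Filter Topology
open Pool.Agent.H95.Wedge (tipTwoPoint tipArm)

theorem tip_main (q : ℝ) (hq : 1 ≤ q) (m : ℕ) (hm : 1 ≤ m) :
    (∃ g : ℕ → ℝ,
      (∀ k, Tendsto (fun N => tipTwoPoint q m N k) atTop (𝓝 (g k))) ∧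
      (∀ k N, tipTwoPoint q m N k ≤ g k) ∧
      (q = 4 * Real.cos (Real.pi / (m + 2)) ^ 2 → ∃ c C : ℝ, 0 < c ∧ 0 < C ∧
        ∀ k : ℕ, 1 ≤ k → (∀ N, 2 * k ≤ N → c / k ≤ tipTwoPoint q m N k) ∧ g k ≤ C / k) ∧
      (q < 4 * Real.cos (Real.pi / (m + 2)) ^ 2 → ∃ ε c : ℝ, 0 < ε ∧ 0 < c ∧
        ∀ k : ℕ, 1 ≤ k → ∀ N, 2 * k ≤ N → c * (k : ℝ) ^ (-1 + ε) ≤ tipTwoPoint q m N k) ∧
      (4 * Real.cos (Real.pi / (m + 2)) ^ 2 < q → ∃ ε C : ℝ, 0 < ε ∧ 0 < C ∧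
        ∀ k : ℕ, 1 ≤ k → g k ≤ C * (k : ℝ) ^ (-1 - ε))) ∧
    (q < 4 → ∃ c C : ℝ, 0 < c ∧ 0 < C ∧ ∀ k N : ℕ, 1 ≤ k → 4 * k ≤ N →
      c * (tipArm q m N k * tipArm q 2 N k) ≤ tipTwoPoint q m N k ∧
      tipTwoPoint q m N k ≤ C * (tipArm q m N k * tipArm q 2 N k)) := by
  refine ⟨SM.smain_all q hq m hm (fun hq4 m hm => facts hq (uu_ge hq hq4) hm) (fun _ => ?_),
    fun hq4 => arm_prod hq (uu_ge hq hq4) hm⟩
  by_cases hu : UU q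
  · exact Or.inl (facts hq hu hm)
  · exact Or.inr (tip_small hq hu m)

end Pool.Agent.FKR
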