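import Pool.Agent.FKR.FlatP
import Pool.Agent.FKR.ArmCore

/-! # FKR/TwoLow (MP_b3e76a_pr): lower bounds of two-point functions

`two_low`: `n = k / 2`, `c0 = n / 4`, `ρ = n / 400`. `arm_core` for `m` at scale `n` (`WE m n ⊆ WE m N`): the tip hits `bxx c0 c0 ρ` of `ch 0`;
`arm_core` for the half plane `m = 2` at scale `n` and `flat_low`, `flatSub_ray`: `ch 0 (k, 0)` hits `bxx (k - c0) c0 ρ` (the box
`bxx c0 (-c0) ρ` of `f p = ch 0 (k + p.2, p.1)`). `move` for `tip` from `(c0, c0)` to `(k - c0, c0)` in `rect 1 N 1 N` of `ch 0` (contains neither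
the tip nor the ray); `glue2` at `(k - c0, c0)`. `wA_anti`.
`out_low`: `n = N / 8`, `c0 = n / 4`, `ρ = n / 400`; `flatSub_out`: `ch 0 (N, y)` hits `bxx (N - c0) (y - c0) ρ`; `move` for `tip` from `(c0, c0)` to
`(N - c0, y - c0)` in `rect 1 (N-1) 1 (N-1)`; `glue2`. -/

namespace Pool.Agent.FKR

open Finset
open Pool.Agent.H95.Perc (Inc conn link rect hor ver eh ev mem_rect)
open Pool.Agent.H95.SumRule (edgesIn Z2)
open Pool.Agent.H95.Wedge (Vtx pt)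

variable {q : ℝ}

/-- the tip is not in the patch -/
theorem tl_tip {X1 Y0 Y1 : ℤ} : tip ∉ (rect 1 X1 Y0 Y1).image (ch 0) := by
  intro h
  rw [mem_image] at h
  obtain ⟨p, hp, hpt⟩ := h
  rw [mem_rect] at hp
  have h1 := nm_ch 0 (p := p) (by omega)
  rw [hpt, nm_tip] at h1
  have h2 := le_max_left p.1 |p.2|
  push_cast at h1
  omega

theorem tl_out {X1 Y0 Y1 a b : ℤ} (ha : 0 ≤ a) (h : b < Y0 ∨ X1 < a) :
    ch 0 (a, b) ∉ (rect 1 X1 Y0 Y1).image (ch 0) := by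
  intro hh
  rw [mem_image] at hh
  obtain ⟨p, hp, hpt⟩ := hh
  rw [mem_rect] at hp
  have h1 : p = (a, b) := ch_inj 0 (show 0 ≤ p.1 by omega) (show 0 ≤ (a, b).1 from ha) hpt
  subst h1
  simp only at hp
  omega

/-- the general step -/
theorem tl_core (hq : 1 ≤ q) (hu : UU q) (K : ℕ) {m : ℕ} (hm : 1 ≤ m) : ∃ c : ℝ, 0 < c ∧ ∃ n0 : ℕ,
    1600 ≤ n0 ∧ ∀ (n N : ℕ) (X1 : ℤ) (a b : ℤ) (s' : Vtx), n0 ≤ n → n ≤ N → X1 ≤ N →
    1 + (n / 4 : ℕ) ≤ a → a + (n / 8 : ℕ) ≤ X1 → 1 + (n / 8 : ℕ) ≤ b → b + (n / 8 : ℕ) ≤ X1 →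
    (n / 2 : ℕ) ≤ X1 →
    |((n / 4 : ℕ) : ℤ) - a| ≤ K * ((n / 400 : ℕ) : ℤ) → |((n / 4 : ℕ) : ℤ) - b| ≤ K * ((n / 400 : ℕ) : ℤ) →
    s' ∉ (rect 1 X1 1 X1).image (ch 0) →
    P q (WE 2 n) ∅ (Hit (ch 0) tip ((n / 4 : ℕ) : ℤ) ((n / 4 : ℕ) : ℤ) ((n / 400 : ℕ) : ℤ)) ≤
      P q (WE m N) ∅ (Hit (ch 0) s' a b ((n / 400 : ℕ) : ℤ)) →
    c * (wA q m n * wA q 2 n) ≤ P q (WE m N) ∅ (fun ω => Cn ω tip s') := by
  have hq0 : 0 < q := by linarith
  obtain ⟨cA, hcA, nA, hnA, hA⟩ := arm_core hq hu hm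
  obtain ⟨cB, hcB, nB, hnB, hB⟩ := arm_core hq hu (m := 2) (by norm_num)
  obtain ⟨cM, hcM, hM⟩ := move hq hu K
  obtain ⟨cG, hcG, hG⟩ := glue2 hq hu
  refine ⟨cG * (cM * cA) * cB, by positivity, max (max nA nB) 1600, le_max_right _ _, ?_⟩
  intro n N X1 a b s' hn hnN hX1 ha1 ha2 hb1 hb2 hX1' hKa hKb hs' hflat
  have hn1 : nA ≤ n := (le_max_left _ _).trans ((le_max_left _ _).trans hn)
  have hn2 : nB ≤ n := (le_max_right _ _).trans ((le_max_left _ _).trans hn)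
  have hn3 : 1600 ≤ n := (le_max_right _ _).trans hn
  set c0 : ℕ := n / 4 with hc0
  set ρ : ℕ := n / 400 with hρ
  have hNL := WE_NL m N
  have hP : Patch (ch 0) 1 X1 1 X1 (WE m N) :=
    patch_ch hm le_rfl (by omega) le_rfl hX1 (by omega) hX1 (fun _ => by omega)
      (fun h => by omega)
  -- the tip
  have h1 : cA * wA q m n ≤ P q (WE m N) ∅ (Hit (ch 0) tip (c0 : ℤ) (c0 : ℤ) (ρ : ℤ)) := by
    refine (hA n hn1).trans (P_mono_EF hq hNL (fun e he => absurd he (notMem_empty e)) ?_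
      (Subset.refl _) (inc_Hit _ _ _ _ _))
    exact (WE_mono le_rfl hnN).trans subset_union_left
  have h2 : cM * P q (WE m N) ∅ (Hit (ch 0) tip (c0 : ℤ) (c0 : ℤ) (ρ : ℤ)) ≤
      P q (WE m N) ∅ (Hit (ch 0) tip a b (ρ : ℤ)) := by
    refine hM (WE m N) (ch 0) 1 X1 1 X1 tip c0 c0 a b ρ hNL hP tl_tip ?_ ?_ ?_ ?_ ?_ ?_ ?_ ?_ ?_
      hKa hKb <;> omega
  have h3 : cB * wA q 2 n ≤ P q (WE m N) ∅ (Hit (ch 0) s' a b (ρ : ℤ)) := (hB n hn2).trans hflat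
  have h4 := hG (WE m N) (ch 0) 1 X1 1 X1 a b ρ tip s' hNL hP tl_tip hs' (by omega) (by omega)
    (by omega) (by omega) (by omega)
  have w1 : 0 < wA q m n := wA_pos hq hm n
  have w2 : 0 < wA q 2 n := wA_pos hq (by norm_num) n
  calc cG * (cM * cA) * cB * (wA q m n * wA q 2 n)
      = cG * (cM * (cA * wA q m n)) * (cB * wA q 2 n) := by ring
    _ ≤ cG * P q (WE m N) ∅ (Hit (ch 0) tip a b (ρ : ℤ)) *
        P q (WE m N) ∅ (Hit (ch 0) s' a b (ρ : ℤ)) := by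
        refine mul_le_mul ?_ h3 (by positivity) (mul_nonneg hcG.le (P_nonneg hq0 _ _ _))
        exact mul_le_mul_of_nonneg_left ((mul_le_mul_of_nonneg_left h1 hcM.le).trans h2) hcG.le
    _ ≤ _ := h4

theorem two_low (hq : 1 ≤ q) (hu : UU q) {m : ℕ} (hm : 1 ≤ m) : ∃ c : ℝ, 0 < c ∧ ∃ k0 : ℕ, 1 ≤ k0 ∧
    ∀ k N : ℕ, k0 ≤ k → 2 * k ≤ N →
    c * (wA q m k * wA q 2 k) ≤ P q (WE m N) ∅ (fun ω => Cn ω tip (ch 0 (k, 0))) := by
  have hq0 : 0 < q := by linarith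
  obtain ⟨c, hc, n0, hn0, h⟩ := tl_core hq hu 1100 hm
  refine ⟨c, hc, 2 * n0, by omega, fun k N hk hkN => ?_⟩
  have hcore := h (k / 2) N N (k - ((k / 2 / 4 : ℕ) : ℤ)) ((k / 2 / 4 : ℕ) : ℤ) (ch 0 (k, 0))
    (by omega) (by omega) le_rfl (by omega) (by omega) (by omega) (by omega) (by omega)
    (by rw [abs_le]; push_cast; constructor <;> omega)
    (by rw [abs_le]; push_cast; constructor <;> omega)
    (tl_out (by omega) (Or.inl (by omega))) ?_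
  · refine le_trans ?_ hcore
    refine mul_le_mul_of_nonneg_left ?_ hc.le
    exact mul_le_mul (wA_anti hq (by omega) (by omega)) (wA_anti hq (by omega) (by omega))
      (wA_pos hq (by norm_num) _).le (wA_pos hq hm _).le
  · have hsub := flatSub_ray (m := m) (n := k / 2) (k := k) (N := N) hm (by omega) (by omega)
    refine (flat_low hq (WE_NL m N) hsub (x := ((k / 2 / 4 : ℕ) : ℤ)) (y := ((k / 2 / 4 : ℕ) : ℤ))
      (r := ((k / 2 / 400 : ℕ) : ℤ)) (by omega) (by omega) (by omega) (by omega) (by omega)).trans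
      (P_mono hq0 ?_)
    rintro ζ - ⟨p, hp, hcn⟩
    refine ⟨((k : ℤ) + p.2, p.1), ?_, ?_⟩
    · unfold bxx at hp ⊢
      rw [mem_rect] at hp ⊢
      simp only
      omega
    · have e : ((k : ℤ) + 0, (0 : ℤ)) = ((k : ℤ), (0 : ℤ)) := by rw [add_zero]
      simp only [e] at hcn
      exact hcn

theorem out_low (hq : 1 ≤ q) (hu : UU q) {m : ℕ} (hm : 1 ≤ m) : ∃ c : ℝ, 0 < c ∧ ∃ k0 : ℕ, 1 ≤ k0 ∧
    ∀ N y : ℕ, k0 ≤ N → N ≤ 4 * y → 2 * y ≤ N →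
    c * (wA q m N * wA q 2 N) ≤ P q (WE m N) ∅ (fun ω => Cn ω tip (ch 0 (N, y))) := by
  have hq0 : 0 < q := by linarith
  obtain ⟨c, hc, n0, hn0, h⟩ := tl_core hq hu 4100 hm
  refine ⟨c, hc, 8 * n0, by omega, fun N y hN hy1 hy2 => ?_⟩
  have hcore := h (N / 8) N (N - 1) (N - ((N / 8 / 4 : ℕ) : ℤ)) (y - ((N / 8 / 4 : ℕ) : ℤ))
    (ch 0 (N, y))
    (by omega) (by omega) (by omega) (by omega) (by omega) (by omega) (by omega) (by omega)
    (by rw [abs_le]; push_cast; constructor <;> omega)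
    (by rw [abs_le]; push_cast; constructor <;> omega)
    (tl_out (by omega) (Or.inr (by omega))) ?_
  · refine le_trans ?_ hcore
    refine mul_le_mul_of_nonneg_left ?_ hc.le
    exact mul_le_mul (wA_anti hq (by omega) (by omega)) (wA_anti hq (by omega) (by omega))
      (wA_pos hq (by norm_num) _).le (wA_pos hq hm _).le
  · have hsub := flatSub_out (m := m) (n := N / 8) (N := N) hm (y := (y : ℤ)) (by omega) (by omega)
      (by omega)
    refine (flat_low hq (WE_NL m N) hsub (x := ((N / 8 / 4 : ℕ) : ℤ)) (y := ((N / 8 / 4 : ℕ) : ℤ))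
      (r := ((N / 8 / 400 : ℕ) : ℤ)) (by omega) (by omega) (by omega) (by omega) (by omega)).trans
      (P_mono hq0 ?_)
    rintro ζ - ⟨p, hp, hcn⟩
    refine ⟨((N : ℤ) - p.1, (y : ℤ) + p.2), ?_, ?_⟩
    · unfold bxx at hp ⊢
      rw [mem_rect] at hp ⊢
      simp only
      omega
    · have e : ((N : ℤ) - 0, (y : ℤ) + 0) = ((N : ℤ), (y : ℤ)) := by rw [add_zero, sub_zero]
      simp only [e] at hcn
      exact hcn

end Pool.Agent.FKR
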