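import Pool.Agent.FKR.WB1
import Pool.Agent.FKR.LocD

/-! # FKR/WB2 (MP_b3e76a_pr): patches of the wedge, the sphere

`patch_ch`: `inj` from `ch_inj`, `sub` from `WE_intro`, `loc` from `WE_elim`. (`1 ≤ X0`.)
`blk_W`: `locD` for `f = ch j` (`ch_inj`, `WE_elim`).
`sph_conn`: the vertices of norm `n` in the chart `j`: `(n, y)`, `|y| ≤ n`, are connected to each other by edges of the
column `x = n` (`WE_intro`), and the corner `(n, n)` of the chart `j` is the corner `(n, -n)` of the chart `j + 1` (`ch_succ`). -/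

namespace Pool.Agent.FKR

open Finset
open Pool.Agent.H95.Perc (Inc conn link rect hor ver eh ev mem_rect)
open Pool.Agent.H95.SumRule (edgesIn Z2)
open Pool.Agent.H95.Wedge (Vtx pt verts edges)

variable {q : ℝ}

private theorem wb2_mem_bxx {x y n : ℤ} {v : ℤ × ℤ} :
    v ∈ bxx x y n ↔ x - n ≤ v.1 ∧ v.1 ≤ x + n ∧ y - n ≤ v.2 ∧ v.2 ≤ y + n := by
  unfold bxx; exact mem_rect

private theorem wb2_adj {p p' : ℤ × ℤ} (h : Z2.Adj p p') :
    p.1 - 1 ≤ p'.1 ∧ p'.1 ≤ p.1 + 1 ∧ p.2 - 1 ≤ p'.2 ∧ p'.2 ≤ p.2 + 1 := by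
  obtain ⟨a, b⟩ := p
  obtain ⟨c, d⟩ := p'
  rw [Z2_adj_iff] at h
  simp only
  omega

theorem patch_ch {m N : ℕ} (h0 : 1 ≤ m) {j : ℤ} (hj : 0 ≤ j) (hj' : j ≤ m) {X0 X1 Y0 Y1 : ℤ} (h1 : 1 ≤ X0) (h2 : X1 ≤ N)
    (h3 : -N ≤ Y0) (h4 : Y1 ≤ N) (h5 : j = 0 → 0 ≤ Y0) (h6 : j = m → Y1 ≤ 0) :
    Patch (ch j) X0 X1 Y0 Y1 (WE m N) := by
  refine ⟨(ch_inj j).mono ?_, ?_, ?_⟩
  · intro p hp
    rw [mem_coe, mem_rect] at hp
    show 0 ≤ p.1
    omega
  · intro e he
    unfold img at he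
    rw [mem_image] at he
    obtain ⟨e', he', rfl⟩ := he
    induction e' with
    | _ a b =>
      rw [Pool.Agent.H95.Perc.mem_edgesIn', mem_rect, mem_rect] at he'
      rw [Sym2.map_mk]
      obtain ⟨ha, hb, hab⟩ := he'
      refine WE_intro h0 hj hj' hab ?_ ?_ ?_ ?_
      · rw [mem_rect]; omega
      · rw [mem_rect]; omega
      · intro h; have := h5 h; omega
      · intro h; have := h6 h; omega
  · intro e he p hp hpe
    rw [mem_rect] at hp
    obtain ⟨p', hadj, _, rfl, _⟩ := WE_elim he (by omega) hpe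
    have h7 := wb2_adj hadj
    refine mem_img_of_mem ?_
    rw [Pool.Agent.H95.Perc.mem_edgesIn', mem_rect, mem_rect]
    refine ⟨?_, ?_, hadj⟩ <;> omega

/-- the vertices of norm `n` in one chart are connected -/
private theorem wb2_col {m n : ℕ} (h1 : 1 ≤ m) {j : ℤ} (hj : 0 ≤ j) (hj' : j ≤ m) {a b : ℤ}
    (hab : a ≤ b) (ha : -n ≤ a) (hb : b ≤ n) (h0 : j = 0 → 0 ≤ a) (hm : j = m → b ≤ 0) :
    Cn (WSp m n) (ch j (n, a)) (ch j (n, b)) := by
  induction b, hab using Int.le_induction with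
  | base => exact Cn_refl _ _
  | succ b hb' ih =>
    refine (ih (by omega) (fun h => by have := hm h; omega)).trans (Cn_edge ?_)
    unfold WSp
    rw [mem_ins']
    have hnm : ∀ y : ℤ, -n ≤ y → y ≤ n → nm (ch j ((n : ℤ), y)) = n := by
      intro y h2 h3
      have h4 := nm_ch j (p := ((n : ℤ), y)) (by simp)
      have h5 : |y| ≤ n := abs_le.2 ⟨h2, h3⟩
      rw [max_eq_left (by simpa using h5)] at h4
      simp only at h4
      exact_mod_cast h4
    constructor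
    · refine WE_intro h1 hj hj' ?_ ?_ ?_ ?_ ?_
      · rw [Z2_adj_iff]; omega
      · rw [mem_rect]; simp only; omega
      · rw [mem_rect]; simp only; omega
      · intro h; have := h0 h; simp only; omega
      · intro h; have := hm h; simp only; omega
    · intro v hv
      rcases Sym2.mem_iff.1 hv with rfl | rfl
      · exact hnm _ (by omega) (by omega)
      · exact hnm _ (by omega) (by omega)

private theorem wb2_col' {m n : ℕ} (h1 : 1 ≤ m) {j : ℤ} (hj : 0 ≤ j) (hj' : j ≤ m) {y : ℤ}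
    (hy : |y| ≤ n) (h0 : j = 0 → 0 ≤ y) (hm : j = m → y ≤ 0) :
    Cn (WSp m n) (ch j (n, 0)) (ch j (n, y)) := by
  rw [abs_le] at hy
  rcases le_total 0 y with h | h
  · exact wb2_col h1 hj hj' h (by omega) hy.2 (fun _ => le_rfl) hm
  · exact (wb2_col h1 hj hj' h hy.1 (by omega) h0 (fun _ => le_rfl)).symm

private theorem wb2_all {m n : ℕ} (h1 : 1 ≤ m) (i : ℕ) (hi : i ≤ m) :
    Cn (WSp m n) (ch 0 (n, 0)) (ch i (n, 0)) := by
  induction i with
  | zero => exact Cn_refl _ _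
  | succ i ih =>
    refine (ih (by omega)).trans ?_
    have h2 : Cn (WSp m n) (ch i (n, 0)) (ch i (n, n)) :=
      wb2_col' h1 (by omega) (by omega) (by rw [abs_of_nonneg (by omega)]) (fun _ => by omega)
        (fun h => by omega)
    have h3 : Cn (WSp m n) (ch ((i + 1 : ℕ) : ℤ) (n, 0)) (ch ((i + 1 : ℕ) : ℤ) (n, -n)) :=
      wb2_col' h1 (by omega) (by omega) (by rw [abs_neg, abs_of_nonneg (by omega)])
        (fun h => by omega) (fun _ => by omega)
    have h4 : ch (i : ℤ) (n, n) = ch ((i + 1 : ℕ) : ℤ) (n, -n) := by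
      rw [ch_succ (i : ℤ) (by omega) (by omega)]
      push_cast
      rfl
    rw [h4] at h2
    exact h2.trans h3.symm

theorem sph_conn {m n : ℕ} (hn : 1 ≤ n) {u v : Vtx} (hu : u ∈ vts (WE m n)) (hv : v ∈ vts (WE m n))
    (hu' : nm u = n) (hv' : nm v = n) : Cn (WSp m n) u v := by
  have key : ∀ w : Vtx, w ∈ vts (WE m n) → nm w = n →
      w = ch 0 (n, 0) ∨ (1 ≤ m ∧ Cn (WSp m n) (ch 0 (n, 0)) w) := by
    intro w hw hw'
    have hw0 : w ≠ tip := by
      rintro rfl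
      rw [nm_tip] at hw'
      omega
    obtain ⟨j, h1, h2, y, h3, h4, h5, h6⟩ := WE_chart hw hw0
    rw [hw'] at h3 h4
    rcases Nat.eq_zero_or_pos m with hm | hm
    · left
      have hj : j = 0 := by omega
      have h7 := h5 hj
      have h8 := h6 (by omega)
      have hy : y = 0 := by omega
      rw [h4, hj, hy]
    · right
      refine ⟨hm, ?_⟩
      obtain ⟨i, rfl⟩ := Int.eq_ofNat_of_zero_le h1
      rw [h4]
      exact (wb2_all hm i (by omega)).trans (wb2_col' hm h1 h2 h3 h5 h6)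
  rcases key u hu hu' with h1 | ⟨_, h1⟩ <;> rcases key v hv hv' with h2 | ⟨_, h2⟩
  · rw [h1, h2]; exact Cn_refl _ _
  · rw [h1]; exact h2
  · rw [h2]; exact h1.symm
  · exact h1.symm.trans h2

theorem blk_W (hq : 1 ≤ q) (hu : UU q) : ∃ c : ℝ, 0 < c ∧ c ≤ 1 ∧ ∀ (m N : ℕ) (E F : Finset (Sym2 Vtx))
    (j x y r : ℤ), E ⊆ WE m N → F ⊆ WE m N → 1 ≤ r → 32 * r + 1 ≤ x →
    (∀ e ∈ F, ∀ p ∈ bxx x y (32 * r - 1), ch j p ∉ e) → c ≤ P q E F (Blk (ch j) x y r) := by
  obtain ⟨c, hc, hc1, h⟩ := locD hq hu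
  refine ⟨c, hc, hc1, ?_⟩
  intro m N E F j x y r hE hF hr hx hFp
  refine h E F (ch j) x y r ((WE_NL m N).mono hE) ((WE_NL m N).mono hF) hr
    ((ch_inj j).mono ?_) ?_ hFp
  · intro p hp
    rw [mem_coe, wb2_mem_bxx] at hp
    show 0 ≤ p.1
    omega
  · intro e he p hp hpe
    rw [wb2_mem_bxx] at hp
    obtain ⟨p', hadj, _, rfl, _⟩ := WE_elim (hE he) (by omega) hpe
    have h7 := wb2_adj hadj
    refine mem_img_of_mem ?_
    rw [Pool.Agent.H95.Perc.mem_edgesIn', wb2_mem_bxx, wb2_mem_bxx]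
    refine ⟨?_, ?_, hadj⟩ <;> omega

/-- no connection between the norms `≤ 2 n` and `≥ 4 n`.
Proof: `r = n / 34`, boxes of radius `r` around `ch j (3 n, i r)`, `0 ≤ j ≤ m`, `|i| ≤ 3 n / r ≤ 204`: `P_fkg_dcr_fin` and `blk_W` (the boxes
of radius `32 r - 1` are in `2 n < nm < 4 n`). A connection has a vertex `v` with `nm v = 3 n` (`Cn.level`, `WE_nm`), by `WE_chart`
`v = ch j (3 n, y)`, and `(3 n, y) ∈ bxx (3 n) (i r) r` with `i = y / r` rounded towards zero; but the end point is outside of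
`bxx (3 n) (i r) (32 r - 1)`. -/
theorem dsemi (hq : 1 ≤ q) (hu : UU q) (m : ℕ) : ∃ c : ℝ, 0 < c ∧ ∀ (n N : ℕ) (E F : Finset (Sym2 Vtx)),
    34 ≤ n → E ⊆ WE m N → F ⊆ WE m N → (∀ e ∈ F, ∀ v ∈ e, nm v ≤ 2 * n ∨ 4 * n ≤ nm v) →
    c ≤ P q E F (fun ω => ∀ u v, nm u ≤ 2 * n → 4 * n ≤ nm v → ¬ Cn ω u v) := by
  have hq0 : 0 < q := by linarith
  obtain ⟨c, hc, hc1, h⟩ := blk_W hq hu
  refine ⟨c ^ ((m + 1) * 409), by positivity, ?_⟩
  intro n N E F hn hE hF hFn
  obtain ⟨r, hr1, hr2, hr3⟩ : ∃ r : ℤ, 1 ≤ r ∧ 34 * r ≤ n ∧ (n : ℤ) < 68 * r := by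
    refine ⟨(n : ℤ) / 34, by omega, by omega, by omega⟩
  have hbox : ∀ (j i : ℤ) (p : ℤ × ℤ), |i * r| ≤ 3 * n → p ∈ bxx (3 * n) (i * r) (32 * r - 1) →
      2 * n < nm (ch j p) ∧ nm (ch j p) < 4 * n := by
    intro j i p hi hp
    rw [wb2_mem_bxx] at hp
    rw [abs_le] at hi
    have h1 := nm_ch j (p := p) (by omega)
    have h2 : |p.2| < 4 * n := by rw [abs_lt]; constructor <;> omega
    have h3 : max p.1 |p.2| < 4 * n := max_lt (by omega) h2
    have h4 : 2 * (n : ℤ) < max p.1 |p.2| := lt_of_lt_of_le (by omega) (le_max_left _ _)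
    constructor <;> omega
  classical
  set s : Finset (ℤ × ℤ) := (Icc 0 (m : ℤ) ×ˢ Icc (-204) 204).filter fun a => |a.2 * r| ≤ 3 * n
    with hs
  have hcard : #s ≤ (m + 1) * 409 := by
    refine (card_filter_le _ _).trans ?_
    rw [card_product, Int.card_Icc, Int.card_Icc]
    have e1 : ((m : ℤ) + 1 - 0).toNat = m + 1 := by omega
    have e2 : ((204 : ℤ) + 1 - -204).toNat = 409 := rfl
    rw [e1, e2]
  have h1 := P_fkg_dcr_fin hq ((WE_NL m N).mono hE) ((WE_NL m N).mono hF) s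
    (A := fun a => Blk (ch a.1) (3 * n) (a.2 * r) r) (fun a _ => dcr_Blk _ _ _ _) hc.le (by
      intro a ha
      rw [hs, mem_filter, mem_product, mem_Icc, mem_Icc] at ha
      refine h m N E F a.1 (3 * n) (a.2 * r) r hE hF hr1 (by omega) ?_
      intro e he p hp hpe
      have h2 := hbox a.1 a.2 p ha.2 hp
      have h3 := hFn e he _ hpe
      omega)
  refine (pow_le_pow_of_le_one hc.le hc1 hcard).trans (h1.trans (P_mono hq0 ?_))
  intro ζ hζ hB u v hu' hv' hcn
  have hω : ζ ∪ F ⊆ WE m N := union_subset (hζ.trans hE) hF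
  obtain ⟨x, hx, hcx⟩ := hcn.level (f := fun z => (nm z : ℤ)) (a := 3 * n)
    (fun a b hab => by have := (WE_nm (hω hab)).1; omega) (by omega)
    (by omega)
  have hxv : Cn (ζ ∪ F) x v := hcx.symm.trans hcn
  have hne : x ≠ v := by
    rintro rfl
    omega
  have hxV : x ∈ vts (WE m N) := vts_mono hω (hxv.mem_vts hne).1
  have hx0 : x ≠ tip := by
    rintro rfl
    rw [nm_tip] at hx
    omega
  obtain ⟨j, hj1, hj2, y, hy, hxy, _, _⟩ := WE_chart hxV hx0
  rw [hx] at hy hxy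
  obtain ⟨i, hi1, hi2⟩ : ∃ i : ℤ, |i * r| ≤ |y| ∧ |y - i * r| ≤ r := by
    rcases le_total 0 y with h2 | h2
    · refine ⟨y / r, ?_, ?_⟩
      · have h3 : 0 ≤ y / r * r := mul_nonneg (Int.ediv_nonneg h2 (by omega)) (by omega)
        have h4 : y / r * r ≤ y := Int.ediv_mul_le y (by omega)
        rw [abs_of_nonneg h3, abs_of_nonneg h2]
        exact h4
      · have h3 := Int.emod_add_mul_ediv y r
        have h4 := Int.emod_nonneg y (by omega : r ≠ 0)
        have h5 := Int.emod_lt_of_pos y (by omega : 0 < r)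
        have h6 : y - y / r * r = y % r := by rw [mul_comm (y / r) r]; omega
        rw [h6, abs_of_nonneg h4]
        omega
    · refine ⟨-((-y) / r), ?_, ?_⟩
      · have h3 : 0 ≤ (-y) / r * r := mul_nonneg (Int.ediv_nonneg (by omega) (by omega)) (by omega)
        have h4 : (-y) / r * r ≤ -y := Int.ediv_mul_le (-y) (by omega)
        rw [neg_mul, abs_neg, abs_of_nonneg h3, abs_of_nonpos h2]
        exact h4
      · have h3 := Int.emod_add_mul_ediv (-y) r
        have h4 := Int.emod_nonneg (-y) (by omega : r ≠ 0)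
        have h5 := Int.emod_lt_of_pos (-y) (by omega : 0 < r)
        have h6 : y - -((-y) / r) * r = -((-y) % r) := by
          rw [neg_mul, mul_comm ((-y) / r) r]; omega
        rw [h6, abs_neg, abs_of_nonneg h4]
        omega
  have hi3 : |i * r| ≤ 3 * n := hi1.trans hy
  have hi4 : -204 ≤ i ∧ i ≤ 204 := by
    rw [abs_le] at hi3
    constructor
    · by_contra hc'
      push Not at hc'
      nlinarith
    · by_contra hc'
      push Not at hc'
      nlinarith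
  have hmem : (j, i) ∈ s := by
    rw [hs, mem_filter, mem_product, mem_Icc, mem_Icc]
    exact ⟨⟨⟨hj1, hj2⟩, hi4⟩, hi3⟩
  refine hB (j, i) hmem (3 * n, y) ?_ v ?_ ?_
  · rw [wb2_mem_bxx]
    simp only
    rw [abs_le] at hi2
    omega
  · intro hvi
    obtain ⟨p, hp, rfl⟩ := mem_image.1 hvi
    have := hbox j i p hi3 hp
    simp only at hv'
    omega
  · simp only
    rw [← hxy]
    exact hxv

end Pool.Agent.FKR
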