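import Pool.Agent.FKR.WG
import Pool.Agent.FKR.Push

/-! # FKR/WBar (MP_b3e76a_pr): barriers in the wedge

`bar_ge`: in a half-plane chart `i` (`-2 ≤ i ≤ m + 2`), without frozen edges above the bottom row, the barrier `Bar i N s` has
probability `≥ c ^ k` if `3 N ≤ k s`, whatever the other edges do.
Proof. `E' = img (uc i) (upE (-N) N 0 N)`, `F' = img (uc i) (edgesIn (rect (-N) N 0 0))`, `G = WEd m N \ E'`; `E' ∪ F' = hE i N`
(`edgesIn (rect (-N) N 0 N) = upE ∪ bottom row`).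
(1) `P q E' G Bar ≤ P q E F Bar` by `P_anti_EF`: `E ⊆ E' ∪ G`; `F ⊆ G` since every edge of `E'` has an end `uc i z` with `1 ≤ z.2`.
(2) `P q E' F' Bar ≤ P q E' G Bar` by `P_ge`: for `u, v ∈ vts E'` with `Cn G u v`: `u = uc i z`, `v = uc i z'`. If `1 ≤ z.2` then no edge of `G`
contains `u` (`mem_WEd_up`: such an edge is `s(uc i z, uc i z'')` with `s(z, z'') ∈ edgesIn (rect (-N) N 0 N)`, not in the bottom row,
so it is in `E'`), so `u = v` (`Cn.mem_vts`); same for `v`. Otherwise `z.2 = z'.2 = 0` and both are connected in `F'` (`rect_Cn` for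
`rect (-N) N 0 0`, `Cn_img`). Events: `(ζ ∪ G) ∩ img (uc i) (edgesIn (rect (-N) N 0 s)) = (ζ ∪ F') ∩ img ...` for `ζ ⊆ E'`, since
`G ∩ hE i N = F'` (`uc i` is injective on `y ≥ 0`, `map_injOn`).
(3) `P_map`: `P q E' F' Bar = P q (upE (-N) N 0 N) (edgesIn (rect (-N) N 0 0)) (fun ω => Bar i N s (img (uc i) ω))`, and by
`Cn_img_iff` `Bar i N s (img (uc i) ω) ↔ ¬ ver (-N) N 0 s ω` for `ω ⊆ edgesIn (rect (-N) N 0 N)` (`img f ω ∩ img f Q = img f (ω ∩ Q)`).
`push` with `x0 = -N`, `x1 = N`, `y0 = 0`, `H = N`. -/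

namespace Pool.Agent.FKR

open Finset
open Pool.Agent.H95.Wedge (Vtx pt)
open Pool.Agent.H95.Perc (Inc conn link rect hor ver eh ev sumE sepE Inci mem_rect)
open Pool.Agent.H95.SumRule (edgesIn Z2)

private theorem vts_sub_up {N t : ℤ} {D : Finset (Sym2 (ℤ × ℤ))} (hD : D ⊆ edgesIn (rect (-N) N 0 t)) :
    (vts D : Set (ℤ × ℤ)) ⊆ {z : ℤ × ℤ | 0 ≤ z.2} := by
  intro z hz
  have := vts_edgesIn _ (vts_mono hD (mem_coe.1 hz))
  rw [mem_rect] at this
  exact this.2.2.1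

private theorem rect_mono0 {N s t : ℤ} (h : s ≤ t) :
    edgesIn (rect (-N) N 0 s) ⊆ edgesIn (rect (-N) N 0 t) :=
  Pool.Agent.H95.Perc.edgesIn_mono (Pool.Agent.H95.Perc.rect_mono le_rfl le_rfl le_rfl h)

theorem Bar_img_iff {i N s : ℤ} (hs : 0 ≤ s) (hsN : s ≤ N) {ω : Finset (Sym2 (ℤ × ℤ))}
    (hω : ω ⊆ edgesIn (rect (-N) N 0 N)) : Bar i N s (img (uc i) ω) ↔ ¬ ver (-N) N 0 s ω := by
  classical
  set Q := edgesIn (rect (-N) N 0 s) with hQ
  have hQD : Q ⊆ edgesIn (rect (-N) N 0 N) := rect_mono0 hsN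
  have hinj : Set.InjOn (Sym2.map (uc i)) (edgesIn (rect (-N) N 0 N) : Set (Sym2 (ℤ × ℤ))) :=
    map_injOn ((uc_injOn i).mono (vts_sub_up (Subset.refl _)))
  have hint : img (uc i) ω ∩ img (uc i) Q = img (uc i) (ω ∩ Q) := by
    unfold img
    rw [image_inter_of_injOn]
    refine hinj.mono ?_
    rw [Set.union_subset_iff]
    exact ⟨coe_subset.2 hω, coe_subset.2 hQD⟩
  have hC : ∀ z ∈ rect (-N) N 0 s, ∀ z' ∈ rect (-N) N 0 s,
      (Cn (img (uc i) ω ∩ img (uc i) Q) (uc i z) (uc i z') ↔ Cn (ω ∩ Q) z z') := by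
    intro z hz z' hz'
    rw [hint]
    rw [mem_rect] at hz hz'
    exact Cn_img_iff (uc_injOn i) (vts_sub_up (inter_subset_left.trans hω)) hz.2.2.1 hz'.2.2.1
  constructor
  · rintro h ⟨a, b, ha, hb, ha2, hb2, hc⟩
    exact h a ha b hb ha2 hb2 ((hC a ha b hb).2 hc)
  · intro h z hz z' hz' hz2 hz2' hc
    exact h ⟨z, z', hz, hz', hz2, hz2', (hC z hz z' hz').1 hc⟩

theorem bar_ge {q : ℝ} (hq : 1 ≤ q) : ∃ c : ℝ, 0 < c ∧ c ≤ 1 ∧ ∀ (k m : ℕ) (N s i : ℤ)
    (E F : Finset (Sym2 Vtx)), 8 ≤ s → s ≤ N → 3 * N ≤ k * s → -2 ≤ i → i ≤ m + 2 → E ⊆ WEd m N →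
    F ⊆ WEd m N → (∀ e ∈ F, ∀ z : ℤ × ℤ, 1 ≤ z.2 → uc i z ∉ e) → c ^ k ≤ P q E F (Bar i N s) := by
  classical
  obtain ⟨c, hc0, hc1, hp⟩ := push hq
  refine ⟨c, hc0, hc1, ?_⟩
  intro k m N s i E F hs hsN hk hi1 hi2 hE hF hFz
  have hq0 : 0 < q := by linarith
  have hp' := hp k (-N) N 0 N s (by omega) hs hsN (by omega)
  rw [zero_add, zero_add] at hp'
  set U := upE (-N) N 0 N with hU
  set B0 := edgesIn (rect (-N) N 0 0) with hB0
  set D := edgesIn (rect (-N) N 0 N) with hD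
  have hUD : U ⊆ D := sdiff_subset
  have hBD : B0 ⊆ D := rect_mono0 (by omega)
  have hUB : U ∪ B0 ⊆ D := union_subset hUD hBD
  have hmemU : ∀ e ∈ D, e ∈ U ∨ e ∈ B0 := by
    intro e he
    by_cases h : e ∈ B0
    · exact Or.inr h
    · exact Or.inl (mem_sdiff.2 ⟨he, h⟩)
  have hiU : Set.InjOn (uc i) (vts (U ∪ B0) : Set (ℤ × ℤ)) := (uc_injOn i).mono (vts_sub_up hUB)
  have hiU' : Set.InjOn (uc i) (vts U : Set (ℤ × ℤ)) := (uc_injOn i).mono (vts_sub_up hUD)
  have hiB : Set.InjOn (uc i) (vts B0 : Set (ℤ × ℤ)) := (uc_injOn i).mono (vts_sub_up hBD)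
  have nlU : NL U := (NL_edgesIn _).mono hUD
  have nlB : NL B0 := NL_edgesIn _
  set E' := img (uc i) U with hE'
  set F' := img (uc i) B0 with hF'
  set G := WEd m N \ E' with hG
  have nlE' : NL E' := NL_img hiU' nlU
  have nlF' : NL F' := NL_img hiB nlB
  have nlG : NL G := (NL_WEd (m := m) (N := N)).mono sdiff_subset
  -- the third step
  have h3 : c ^ k ≤ P q E' F' (Bar i N s) := by
    rw [P_map hq0 nlU nlB hiU]
    refine hp'.trans ?_
    apply P_mono hq0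
    intro ζ hζ h
    exact (Bar_img_iff (by omega) hsN ((union_subset_union hζ (Subset.refl _)).trans hUB)).2 h
  -- the second step
  have hG0 : ∀ z : ℤ × ℤ, 1 ≤ z.2 → uc i z ∉ vts G := by
    intro z hz hzG
    obtain ⟨e, he, hze⟩ := mem_vts.1 hzG
    obtain ⟨w, rfl⟩ := Sym2.mem_iff_exists.1 hze
    have he' := mem_sdiff.1 he
    obtain ⟨z', rfl, hzz⟩ := mem_WEd_up hi1 hi2 hz he'.1
    apply he'.2
    apply mem_img_of_mem
    refine mem_sdiff.2 ⟨hzz, ?_⟩
    intro h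
    have := (vts_edgesIn _ (mem_vts.2 ⟨_, h, Sym2.mem_mk_left _ _⟩))
    rw [mem_rect] at this
    omega
  have h2 : P q E' F' (Bar i N s) ≤ P q E' G (Bar i N s) := by
    refine P_ge hq nlE' nlG nlE' nlF' subset_union_left ?_ dcr_Bar dcr_Bar ?_
    · intro u hu v hv huv
      rw [hE', vts_img, mem_image] at hu hv
      obtain ⟨z, hz, rfl⟩ := hu
      obtain ⟨z', hz', rfl⟩ := hv
      by_cases hne : uc i z = uc i z'
      · rw [hne]
        exact Cn_refl _ _
      · obtain ⟨m1, m2⟩ := huv.mem_vts hne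
        have hzr := vts_edgesIn _ (vts_mono hUD hz)
        have hzr' := vts_edgesIn _ (vts_mono hUD hz')
        have hz2 : ¬ 1 ≤ z.2 := fun h => hG0 z h m1
        have hz2' : ¬ 1 ≤ z'.2 := fun h => hG0 z' h m2
        rw [mem_rect] at hzr hzr'
        apply Cn_img
        apply rect_Cn
        · rw [mem_rect]; omega
        · rw [mem_rect]; omega
    · intro ζ _ h z hz z' hz' hz2 hz2' hcn
      refine h z hz z' hz' hz2 hz2' (hcn.mono ?_)
      intro e he
      rw [mem_inter, mem_union] at he ⊢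
      refine ⟨?_, he.2⟩
      rcases he.1 with h1 | h1
      · exact Or.inl h1
      · right
        have h4 := he.2
        unfold img at h4
        obtain ⟨e0, he0, rfl⟩ := mem_image.1 h4
        rcases hmemU e0 (rect_mono0 hsN he0) with h5 | h5
        · exact absurd (mem_image_of_mem _ h5) (mem_sdiff.1 h1).2
        · exact mem_image_of_mem _ h5
  -- the first step
  have h1 : P q E' G (Bar i N s) ≤ P q E F (Bar i N s) := by
    refine P_anti_EF hq nlE' nlG ?_ ?_ dcr_Bar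
    · intro e he
      rw [mem_union]
      by_cases h : e ∈ E'
      · exact Or.inl h
      · exact Or.inr (mem_sdiff.2 ⟨hE he, h⟩)
    · intro e he
      refine mem_sdiff.2 ⟨hF he, ?_⟩
      intro h
      rw [hE'] at h
      unfold img at h
      obtain ⟨e0, he0, rfl⟩ := mem_image.1 h
      have he0' := mem_sdiff.1 he0
      induction e0 with
      | _ a b =>
        have hab := he0'.1
        rw [Pool.Agent.H95.Perc.mem_edgesIn', mem_rect, mem_rect] at hab
        have hn := he0'.2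
        rw [Pool.Agent.H95.Perc.mem_edgesIn', mem_rect, mem_rect] at hn
        by_cases ha : 1 ≤ a.2
        · exact hFz _ he a ha (by rw [Sym2.map_mk]; exact Sym2.mem_mk_left _ _)
        · by_cases hb : 1 ≤ b.2
          · exact hFz _ he b hb (by rw [Sym2.map_mk]; exact Sym2.mem_mk_right _ _)
          · apply hn
            refine ⟨?_, ?_, hab.2.2⟩ <;> omega
  exact h3.trans (h2.trans h1)

end Pool.Agent.FKR
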