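import Pool.Agent.FKR.MapP
import Pool.Agent.FKR.AnDefs
import Pool.Agent.FKR.PE
import Pool.Agent.H95.Wedge.CutRay

/-! # FKR/WG (MP_b3e76a_pr): charts of the wedge

Vertices of the wedge (`H95/Wedge/Defs`): `Vtx = ℤ × ℕ × ℕ`; tip `(0, 0, 0)`; ray `k`: `(k, x, 0)`, `x ≥ 1`; interior of
quadrant `k`: `(k, x, y)`, `x, y ≥ 1`; quadrant `k` has the horizontal axis ray `k` and the vertical axis ray `k + 1`.
`uc j`: half-plane chart around ray `j` (defined for `y ≥ 0`): the positive horizontal axis is ray `j - 1`, the vertical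
axis ray `j`, the negative horizontal axis ray `j + 1`; the right quadrant is quadrant `j - 1`, the left one quadrant
`j`. Values: `x ≥ 1`, `y ≥ 0`: `(j - 1, x, y)`; `x = 0`, `y ≥ 1`: `(j, y, 0)`; `x < 0`, `y ≥ 1`: `(j, y, -x)`; `x < 0`, `y = 0`: `(j + 1, -x, 0)`.
`WEd m N`: all edges of the quadrants `-3, ..., m + 2` (side length `N`).
`mem_WEd_up`: an edge of `WEd` with an end `uc j z`, `z.2 ≥ 1`, is an edge of the chart `j`: the edge is in `hE j' N`, so it is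
`s(uc j' a, uc j' b)` with `uc j' a = uc j z`; by the values above (first coordinate, zero or positive coordinates) either
`j' = j` and `a = z`, or `j' = j - 1`, `a = (-z.2, z.1)` (`z.1 > 0`... the quadrant `j - 1` is the left part of the chart `j - 1`;
for `b.1 ≤ 0`: `uc (j - 1) b = uc j (b.2, -b.1)`), or `j' = j + 1`, `a = (z.2, -z.1)`, `z.1 ≤ 0`, `b.1 ≥ 0`, `uc (j + 1) b = uc j (-b.2, b.1)`. -/

namespace Pool.Agent.FKR

open Finset
open Pool.Agent.H95.Wedge (Vtx pt)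
open Pool.Agent.H95.Perc (Inc conn link rect hor ver eh ev sumE sepE Inci mem_rect)
open Pool.Agent.H95.SumRule (edgesIn Z2)

/-- chart of the quadrant `k` (`x, y ≥ 0`) -/
def qc (k : ℤ) (z : ℤ × ℤ) : Vtx := pt k z.1.toNat z.2.toNat

/-- chart of the half plane around ray `j` (`y ≥ 0`) -/
def uc (j : ℤ) (z : ℤ × ℤ) : Vtx := if 0 ≤ z.1 then qc (j - 1) z else qc j (z.2, -z.1)

/-- edges of the quadrants `j - 1` and `j` -/
noncomputable def hE (j N : ℤ) : Finset (Sym2 Vtx) := img (uc j) (edgesIn (rect (-N) N 0 N))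

/-- edges of the quadrants `-3, ..., m + 2` -/
noncomputable def WEd (m : ℕ) (N : ℤ) : Finset (Sym2 Vtx) :=
  (Icc (-2 : ℤ) (m + 2)).biUnion fun j => hE j N

/-- edges of the part `y ≥ 1` of the chart `j` -/
noncomputable def upW (j N : ℤ) : Finset (Sym2 Vtx) := img (uc j) (edgesIn (rect (-N) N 1 N))

/-- connection within the part `y ≥ 1` of the chart `j` -/
def UpC (j N : ℤ) (z z' : ℤ × ℤ) (ω : Finset (Sym2 Vtx)) : Prop :=
  Cn (ω ∩ upW j N) (uc j z) (uc j z')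

/-- no connection from the row `0` to the row `s` in the chart `i` -/
def Bar (i N s : ℤ) (ω : Finset (Sym2 Vtx)) : Prop :=
  ∀ z ∈ rect (-N) N 0 s, ∀ z' ∈ rect (-N) N 0 s, z.2 = 0 → z'.2 = s →
    ¬ Cn (ω ∩ img (uc i) (edgesIn (rect (-N) N 0 s))) (uc i z) (uc i z')

/-- embedding of the plane minus the negative vertical half line -/
def Psi (j : ℤ) (z : ℤ × ℤ) : Vtx :=
  if 0 ≤ z.2 then uc j z else if z.1 < 0 then qc (j + 1) (-z.1, -z.2) else qc (j - 2) (-z.2, z.1)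

/-- the planar region: the two quadrants of the chart `j` and two collars of width `s`, without the tip -/
def Pla (j N s : ℤ) (v : Vtx) : Prop :=
  ∃ z : ℤ × ℤ, -N ≤ z.1 ∧ z.1 ≤ N ∧ -s < z.2 ∧ z.2 ≤ N ∧ (z.1 ≠ 0 ∨ 0 < z.2) ∧ v = Psi j z

open Classical in
/-- the edges at the tip or at the points of the rays `j - 2`, `j + 2` at distance at most `s` -/
noncomputable def Ers (m : ℕ) (j N s : ℤ) : Finset (Sym2 Vtx) :=
  (WEd m N).filter fun e : Sym2 Vtx =>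
    ∃ t : ℤ, 0 ≤ t ∧ t ≤ s ∧ (uc (j - 2) (0, t) ∈ e ∨ uc (j + 2) (0, t) ∈ e)

section
variable {m : ℕ} {j N s : ℤ}

theorem uc_pos {x y : ℤ} (hx : 1 ≤ x) : uc j (x, y) = (j - 1, x.toNat, y.toNat) := by
  unfold uc qc pt
  rw [if_pos (by dsimp only; omega), if_neg (by dsimp only; omega)]

theorem uc_zero {y : ℤ} (hy : 1 ≤ y) : uc j (0, y) = (j, y.toNat, 0) := by
  unfold uc qc pt
  rw [if_pos (by dsimp only; omega), if_pos (by dsimp only; omega), if_neg (by dsimp only; omega),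
    sub_add_cancel]

theorem uc_neg {x y : ℤ} (hx : x < 0) (hy : 1 ≤ y) : uc j (x, y) = (j, y.toNat, (-x).toNat) := by
  unfold uc qc pt
  rw [if_neg (by dsimp only; omega), if_neg (by dsimp only; omega)]

theorem uc_neg0 {x : ℤ} (hx : x < 0) : uc j (x, 0) = (j + 1, (-x).toNat, 0) := by
  unfold uc qc pt
  rw [if_neg (by dsimp only; omega), if_pos (by dsimp only; omega), if_neg (by dsimp only; omega)]

theorem uc_tip : uc j (0, 0) = (0, 0, 0) := by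
  unfold uc qc pt
  rw [if_pos (by dsimp only; omega), if_pos (by dsimp only; omega), if_pos (by dsimp only; omega)]

private theorem uc_val (j x y : ℤ) (hy : 0 ≤ y) :
    (1 ≤ x ∧ uc j (x, y) = (j - 1, x.toNat, y.toNat)) ∨
    (x = 0 ∧ 1 ≤ y ∧ uc j (x, y) = (j, y.toNat, 0)) ∨
    (x < 0 ∧ 1 ≤ y ∧ uc j (x, y) = (j, y.toNat, (-x).toNat)) ∨
    (x < 0 ∧ y = 0 ∧ uc j (x, y) = (j + 1, (-x).toNat, 0)) ∨
    (x = 0 ∧ y = 0 ∧ uc j (x, y) = (0, 0, 0)) := by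
  rcases lt_trichotomy x 0 with h | h | h
  · rcases hy.lt_or_eq with h' | h'
    · exact Or.inr (Or.inr (Or.inl ⟨h, by omega, uc_neg h (by omega)⟩))
    · subst h'
      exact Or.inr (Or.inr (Or.inr (Or.inl ⟨h, rfl, uc_neg0 h⟩)))
  · subst h
    rcases hy.lt_or_eq with h' | h'
    · exact Or.inr (Or.inl ⟨rfl, by omega, uc_zero (by omega)⟩)
    · subst h'
      exact Or.inr (Or.inr (Or.inr (Or.inr ⟨rfl, rfl, uc_tip⟩)))
  · exact Or.inl ⟨by omega, uc_pos (by omega)⟩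

theorem uc_injOn (j : ℤ) : Set.InjOn (uc j) {z : ℤ × ℤ | 0 ≤ z.2} := by
  rintro ⟨x, y⟩ hz ⟨x', y'⟩ hz' h
  have hy : 0 ≤ y := hz
  have hy' : 0 ≤ y' := hz'
  rw [Prod.mk.injEq]
  rcases uc_val j x y hy with ⟨h1, e1⟩ | ⟨h1, h2, e1⟩ | ⟨h1, h2, e1⟩ | ⟨h1, h2, e1⟩ | ⟨h1, h2, e1⟩ <;>
  rcases uc_val j x' y' hy' with ⟨h3, e2⟩ | ⟨h3, h4, e2⟩ | ⟨h3, h4, e2⟩ | ⟨h3, h4, e2⟩ |
    ⟨h3, h4, e2⟩ <;>
  rw [e1, e2, Prod.mk.injEq, Prod.mk.injEq] at h <;> omega

/-- change of chart -/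
theorem uc_rot {x y : ℤ} (hx : x ≤ 0) (hy : 0 ≤ y) : uc (j - 1) (x, y) = uc j (y, -x) := by
  rcases hx.lt_or_eq with h | h
  · unfold uc
    rw [if_neg (by dsimp only; omega), if_pos (by dsimp only; omega)]
  · subst h
    rw [neg_zero]
    rcases hy.lt_or_eq with h' | h'
    · rw [uc_zero (by omega), uc_pos (by omega)]
      rfl
    · subst h'
      rw [uc_tip, uc_tip]

theorem NL_hE : NL (hE j N) := by
  unfold hE
  apply NL_img _ (NL_edgesIn _)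
  apply (uc_injOn j).mono
  intro z hz
  have h1 := vts_edgesIn _ (mem_coe.mp hz)
  rw [mem_rect] at h1
  exact h1.2.2.1

theorem NL_WEd : NL (WEd m N) := by
  intro e he
  unfold WEd at he
  rw [mem_biUnion] at he
  obtain ⟨j, _, he⟩ := he
  exact NL_hE e he

theorem hE_sub (h1 : -2 ≤ j) (h2 : j ≤ m + 2) : hE j N ⊆ WEd m N := by
  unfold WEd
  exact subset_biUnion_of_mem (fun j => hE j N) (mem_Icc.mpr ⟨h1, h2⟩)

theorem upW_sub : upW j N ⊆ hE j N := by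
  unfold upW hE img
  apply image_subset_image
  apply Pool.Agent.H95.Perc.edgesIn_mono
  intro z hz
  rw [mem_rect] at hz ⊢
  omega

theorem edges_sub_WEd (hN : 0 ≤ N) :
    Pool.Agent.H95.Wedge.edges m (fun _ => N.toNat) ⊆ WEd m N := by
  intro e he
  unfold Pool.Agent.H95.Wedge.edges at he
  rw [mem_biUnion] at he
  obtain ⟨k, hk, he⟩ := he
  rw [mem_Ico] at hk
  have hu : ∀ x y : ℕ, uc (k + 1) ((x : ℤ), (y : ℤ)) = pt k x y := by
    intro x y
    unfold uc qc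
    rw [if_pos (by dsimp only; omega), add_sub_cancel_right]
    rfl
  apply hE_sub (j := k + 1) (by omega) (by omega)
  unfold hE
  rw [mem_union, mem_image, mem_image] at he
  rcases he with ⟨⟨x, y⟩, hz, rfl⟩ | ⟨⟨x, y⟩, hz, rfl⟩
  · rw [mem_product, mem_range, mem_range] at hz
    dsimp only at hz ⊢
    rw [← hu, ← hu]
    apply mem_img_of_mem
    push_cast
    have h := (eh_mem_edgesIn_rect (x := (x : ℤ)) (y := (y : ℤ)) (x0 := -N) (x1 := N) (y0 := 0)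
      (y1 := N)).mpr (by omega)
    exact h
  · rw [mem_product, mem_range, mem_range] at hz
    dsimp only at hz ⊢
    rw [← hu, ← hu]
    apply mem_img_of_mem
    push_cast
    have h := (ev_mem_edgesIn_rect (x := (x : ℤ)) (y := (y : ℤ)) (x0 := -N) (x1 := N) (y0 := 0)
      (y1 := N)).mpr (by omega)
    exact h

private theorem uc_eq_cases {j' : ℤ} {z a : ℤ × ℤ} (hz : 1 ≤ z.2) (ha : 0 ≤ a.2)
    (h : uc j' a = uc j z) : (j' = j ∧ a = z) ∨ (j' = j - 1 ∧ a = (-z.2, z.1)) ∨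
      (j' = j + 1 ∧ a = (z.2, -z.1)) := by
  obtain ⟨x, y⟩ := z
  obtain ⟨a, b⟩ := a
  dsimp only at hz ha
  simp only [Prod.mk.injEq]
  rcases uc_val j x y (by omega) with ⟨h1, e1⟩ | ⟨h1, h2, e1⟩ | ⟨h1, h2, e1⟩ | ⟨h1, h2, e1⟩ |
    ⟨h1, h2, e1⟩ <;>
  rcases uc_val j' a b ha with ⟨h3, e2⟩ | ⟨h3, h4, e2⟩ | ⟨h3, h4, e2⟩ | ⟨h3, h4, e2⟩ |
    ⟨h3, h4, e2⟩ <;>
  rw [e1, e2, Prod.mk.injEq, Prod.mk.injEq] at h <;> omega

theorem mem_WEd_up (h1 : -2 ≤ j) (h2 : j ≤ m + 2) {z : ℤ × ℤ} (hz : 1 ≤ z.2) {w : Vtx}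
    (h : s(uc j z, w) ∈ WEd m N) : ∃ z' : ℤ × ℤ, w = uc j z' ∧ s(z, z') ∈ edgesIn (rect (-N) N 0 N) := by
  unfold WEd at h
  rw [mem_biUnion] at h
  obtain ⟨j', _, h⟩ := h
  have key : ∃ a b : ℤ × ℤ, s(a, b) ∈ edgesIn (rect (-N) N 0 N) ∧ uc j' a = uc j z ∧
      uc j' b = w := by
    unfold hE img at h
    rw [mem_image] at h
    obtain ⟨e, he, h⟩ := h
    induction e with
    | _ a b =>
      rw [Sym2.map_mk, Sym2.eq_iff] at h
      rcases h with ⟨h1, h2⟩ | ⟨h1, h2⟩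
      · exact ⟨a, b, he, h1, h2⟩
      · exact ⟨b, a, by rw [Sym2.eq_swap]; exact he, h2, h1⟩
  obtain ⟨a, b, hab, e1, e2⟩ := key
  rw [Pool.Agent.H95.Perc.mem_edgesIn', mem_rect, mem_rect] at hab
  obtain ⟨ha, hb, hadj⟩ := hab
  obtain ⟨a1, a2⟩ := a
  obtain ⟨b1, b2⟩ := b
  obtain ⟨x, y⟩ := z
  rw [Z2_adj_iff] at hadj
  dsimp only at ha hb hz
  rcases uc_eq_cases (z := (x, y)) hz (by dsimp only; omega) e1 with ⟨h3, h4⟩ | ⟨h3, h4⟩ | ⟨h3, h4⟩
  · rw [Prod.mk.injEq] at h4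
    obtain ⟨h4, h5⟩ := h4
    subst h3 h4 h5
    refine ⟨(b1, b2), e2.symm, ?_⟩
    rw [Pool.Agent.H95.Perc.mem_edgesIn', mem_rect, mem_rect, Z2_adj_iff]
    dsimp only
    omega
  · rw [Prod.mk.injEq] at h4
    obtain ⟨h4, h5⟩ := h4
    dsimp only at h4 h5
    refine ⟨(b2, -b1), ?_, ?_⟩
    · rw [← e2, h3]
      exact uc_rot (by omega) (by omega)
    · rw [Pool.Agent.H95.Perc.mem_edgesIn', mem_rect, mem_rect, Z2_adj_iff]
      dsimp only
      omega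
  · rw [Prod.mk.injEq] at h4
    obtain ⟨h4, h5⟩ := h4
    dsimp only at h4 h5
    refine ⟨(-b2, b1), ?_, ?_⟩
    · have h6 := uc_rot (j := j + 1) (x := -b2) (y := b1) (by omega) (by omega)
      rw [add_sub_cancel_right, neg_neg] at h6
      rw [← e2, h3, h6]
    · rw [Pool.Agent.H95.Perc.mem_edgesIn', mem_rect, mem_rect, Z2_adj_iff]
      dsimp only
      omega

theorem inc_UpC (z z' : ℤ × ℤ) : Inc (UpC j N z z') := by
  intro ω ω' h h1
  exact Cn.mono h1 (inter_subset_inter_right h)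

theorem dcr_Bar {i : ℤ} : Dcr (Bar i N s) := by
  intro ω ω' h h1 z hz z' hz' h2 h3 h4
  exact h1 z hz z' hz' h2 h3 (h4.mono (inter_subset_inter_right h))

end

end Pool.Agent.FKR
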