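import Pool.Agent.FKR.WCut
import Pool.Agent.FKR.WArm

/-! # FKR/WNum (MP_b3e76a_pr): connections in a planar box with free boundary conditions

Choose `s = Nat.sqrt N.toNat ≥ 8`, `k = 3 * (s + 3)` (`N < (s + 1) ^ 2 ≤ s * (s + 3)`, so `3 N ≤ k s`), `s ≤ √N`, `wcut`, `warm`, and
`(N : ℝ) ^ 3 ≤ Real.exp (6 * √N)` (`log N = 2 log √N ≤ 2 √N`). -/

namespace Pool.Agent.FKR

open Finset
open Pool.Agent.H95.Perc (Inc conn link rect hor ver eh ev sumE sepE Inci mem_rect)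
open Pool.Agent.H95.SumRule (edgesIn Z2)

theorem plane_arm {q : ℝ} (hq : 1 ≤ q) (hq4 : q < 4) : ∃ C : ℝ, 0 < C ∧ ∀ N : ℤ, 64 ≤ N →
    ∃ a b : ℤ, |a| ≤ N ∧ |b| ≤ N ∧
      Real.exp (-C * √N) ≤ P q (edgesIn (bxx 0 0 N)) ∅ (fun ω => Cn ω (a, 1) (b, N)) := by
  obtain ⟨c, hc0, hc1, hcut⟩ := wcut hq
  obtain ⟨m, c', hc', harm⟩ := warm hq hq4
  set L : ℝ := -Real.log c with hL
  set Q : ℝ := Real.log (1 + √q) with hQ
  set D : ℝ := |Real.log c'| with hD
  have hL0 : 0 ≤ L := by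
    rw [hL]
    have := Real.log_nonpos hc0.le hc1
    linarith
  have hsq : 0 ≤ √q := Real.sqrt_nonneg q
  have hQ0 : 0 ≤ Q := Real.log_nonneg (by linarith)
  have hD0 : 0 ≤ D := abs_nonneg _
  refine ⟨12 * L + 6 + Q * (m + 15) + D + 1, by positivity, fun N hN => ?_⟩
  obtain ⟨j, a, b, hj0, hjm, ha, hb, hP⟩ := harm N (by linarith)
  refine ⟨a, b, ha, hb, ?_⟩
  set s : ℕ := Nat.sqrt N.toNat with hs
  have hNn : ((N.toNat : ℕ) : ℤ) = N := Int.toNat_of_nonneg (by linarith)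
  have h64 : 64 ≤ N.toNat := by omega
  have hs8 : 8 ≤ s := by
    rw [hs, Nat.le_sqrt]
    omega
  have hss : s * s ≤ N.toNat := Nat.sqrt_le _
  have hss1 : N.toNat < (s + 1) * (s + 1) := Nat.lt_succ_sqrt N.toNat
  have hsN : (s : ℤ) ≤ N := by
    rw [← hNn]
    exact_mod_cast le_trans (Nat.le_mul_self s) hss
  have h3 : 3 * N ≤ ((3 * (s + 3) : ℕ) : ℤ) * s := by
    have h1 : N.toNat ≤ (s + 3) * s := by nlinarith
    have h2 : N ≤ ((s : ℤ) + 3) * s := by
      rw [← hNn]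
      exact_mod_cast h1
    push_cast
    nlinarith
  have habs : ∀ x : ℤ, |x| ≤ N → -N ≤ x ∧ x ≤ N := fun x hx => abs_le.1 hx
  have hz : ((a, 1) : ℤ × ℤ) ∈ rect (-N) N 1 N := by
    rw [mem_rect]
    have := habs a ha
    refine ⟨?_, ?_, ?_, ?_⟩ <;> simp <;> linarith
  have hz' : ((b, N) : ℤ × ℤ) ∈ rect (-N) N 1 N := by
    rw [mem_rect]
    have := habs b hb
    refine ⟨?_, ?_, ?_, ?_⟩ <;> simp <;> linarith
  have hmain := hcut (3 * (s + 3)) m s N j (a, 1) (b, N) hs8 hsN h3 hj0 hjm hz hz'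
  set T : ℝ := P q (edgesIn (bxx 0 0 N)) ∅ (fun ω => Cn ω (a, 1) (b, N)) with hT
  set U : ℝ := P q (WEd m N) ∅ (UpC j N (a, 1) (b, N)) with hU
  -- the numbers
  have hNr : (64 : ℝ) ≤ N := by exact_mod_cast hN
  set r : ℝ := √(N : ℝ) with hr
  have hr0 : 0 ≤ r := Real.sqrt_nonneg _
  have hrr : r * r = N := Real.mul_self_sqrt (by linarith)
  have hr8 : 8 ≤ r := by
    rw [hr]
    apply Real.le_sqrt_of_sq_le
    linarith
  have hsr : (s : ℝ) ≤ r := by
    rw [hr]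
    apply Real.le_sqrt_of_sq_le
    have h1 : ((s * s : ℕ) : ℝ) ≤ ((N.toNat : ℕ) : ℝ) := by exact_mod_cast hss
    have h2 : ((N.toNat : ℕ) : ℝ) = (N : ℝ) := by exact_mod_cast hNn
    rw [h2] at h1
    push_cast at h1
    nlinarith
  have hN3 : (N : ℝ) ^ 3 ≤ Real.exp (6 * r) := by
    have h1 : r ≤ Real.exp r := by linarith [Real.add_one_le_exp r]
    have h2 : (N : ℝ) ^ 3 = r ^ 6 := by rw [← hrr]; ring
    have h3 : Real.exp (6 * r) = Real.exp r ^ 6 := by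
      rw [← Real.exp_nat_mul]
      norm_num
    rw [h2, h3]
    exact pow_le_pow_left₀ hr0 h1 6
  have hN0 : 0 < (N : ℝ) ^ 3 := by positivity
  have hcpow : Real.exp (-(12 * L * r)) ≤ c ^ (2 * (3 * (s + 3))) := by
    have e1 : c = Real.exp (-L) := by
      rw [hL, neg_neg, Real.exp_log hc0]
    rw [e1, ← Real.exp_nat_mul]
    apply Real.exp_le_exp.2
    push_cast
    have : L * (2 * (3 * ((s : ℝ) + 3))) ≤ L * (12 * r) :=
      mul_le_mul_of_nonneg_left (by linarith) hL0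
    nlinarith
  have hc'e : Real.exp (-(D * r)) ≤ c' := by
    have h1 : -(D * r) ≤ Real.log c' := by
      have h2 : -D ≤ Real.log c' := neg_abs_le _
      nlinarith
    calc Real.exp (-(D * r)) ≤ Real.exp (Real.log c') := Real.exp_le_exp.2 h1
      _ = c' := Real.exp_log hc'
  have hUlow : Real.exp (-(D * r)) * Real.exp (-(6 * r)) ≤ U := by
    refine le_trans ?_ hP
    rw [div_eq_mul_inv]
    apply mul_le_mul hc'e _ (Real.exp_pos _).le hc'.le
    rw [Real.exp_neg]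
    exact inv_anti₀ hN0 hN3
  have hQpow : (1 + √q) ^ (8 * s + m + 7) ≤ Real.exp (Q * (m + 15) * r) := by
    have e1 : 1 + √q = Real.exp Q := by
      rw [hQ, Real.exp_log (by linarith)]
    rw [e1, ← Real.exp_nat_mul]
    apply Real.exp_le_exp.2
    push_cast
    have hm0 : (0 : ℝ) ≤ m := Nat.cast_nonneg m
    have h1 : (8 * (s : ℝ) + m + 7) ≤ (m + 15) * r := by nlinarith
    nlinarith
  have hT0 : 0 ≤ T := P_nonneg (by linarith) _ _ _
  have hfin : Real.exp (-(12 * L * r)) * (Real.exp (-(D * r)) * Real.exp (-(6 * r)))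
      ≤ Real.exp (Q * (m + 15) * r) * T := by
    calc Real.exp (-(12 * L * r)) * (Real.exp (-(D * r)) * Real.exp (-(6 * r)))
        ≤ c ^ (2 * (3 * (s + 3))) * U :=
          mul_le_mul hcpow hUlow (by positivity) (by positivity)
      _ ≤ (1 + √q) ^ (8 * s + m + 7) * T := hmain
      _ ≤ Real.exp (Q * (m + 15) * r) * T := mul_le_mul_of_nonneg_right hQpow hT0
  have hE : Real.exp (-(12 * L + 6 + Q * (m + 15) + D + 1) * r) * Real.exp (Q * (m + 15) * r)
      ≤ Real.exp (-(12 * L * r)) * (Real.exp (-(D * r)) * Real.exp (-(6 * r))) := by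
    rw [← Real.exp_add, ← Real.exp_add, ← Real.exp_add]
    apply Real.exp_le_exp.2
    nlinarith
  have hpos : 0 < Real.exp (Q * (m + 15) * r) := Real.exp_pos _
  have := le_trans hE hfin
  rw [mul_comm] at this
  exact le_of_mul_le_mul_left this hpos

end Pool.Agent.FKR
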